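import Pool.Agent.MP_c59ecb_co.sh.Side

-- ======== part 0: formerly Pool.Agent.MP_c59ecb_co.sh.WinSpec
section MrgPart0

/-! The window statement split by the size of the two tilts. -/

set_option autoImplicit false

namespace Pool.Agent.MP_c59ecb_co.sh

variable {ι : Type} [Fintype ι] [DecidableEq ι]

/-- one window, under a condition on the tilts of base and target and the threshold -/
def WinIf (ω : ι → ℂ) (C : ℝ → ℝ → ℝ → Prop) : Prop :=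
  ∀ (P : Pm) (d : ι → ℂ) (Ks : Finset ℕ) (ρ : ℕ → Ry ι) (kb kt s : ℕ) (G G' γ : ℝ)
    (K K' : Ry ι) (T1 T2 Ts Ts' h h' hw : ℕ), Fam P d ω Ks ρ → kb ∈ Ks → kt ∈ Ks →
    kt < kb → P.r ≤ s → Shot P d ω Ks ρ kb kt s G K T1 Ts h →
    Shot P d ω Ks ρ kb kt (s - P.r) G' K' T2 Ts' h' → hw = (if Ts ≤ Ts' then h else h') →
    ∑ j ∈ Finset.Icc (s - 4 * P.r) (s + 4 * P.r), (ρ kb).g j +
      ∑ j ∈ Finset.Icc (hw - 4 * P.r) (hw + 4 * P.r), (ρ kt).g j ≤ γ → γ ≤ P.vt →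
    C |(ρ kb).p ω s| |(ρ kt).p ω hw| P.f0 →
    ∃ (A B : ℝ) (Z : Finset ι), 0 ≤ A ∧ 0 ≤ B ∧ Above d ω P.r K Ts Z ∧ High P d ω Z ∧
      (1 - P.e) * (A + B) - 10 ^ 6 * (G + G' + P.La2 * γ) ≤ Cost d ω P.lam Z ∧
      |P.r * (pp P.f0 ((ρ kt).p ω hw) / 2) - P.r * (pp P.f0 ((ρ kb).p ω s) / 2) - (A - B)| ≤
        10 ^ 6 * (G + G' + P.La2 * γ) ∧
      P.r * gh (ω ((ρ kt).J hw)) - P.r * gh (ω ((ρ kb).J s)) ≤ (|(ρ kt).p ω hw| + P.f0) * A +
        2 * P.t1 * (10 ^ 6 * (G + G' + P.La2 * γ)) + 10 * P.r * P.f0 * (G + G' + γ) ∧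
      P.r * gh (ω ((ρ kb).J s)) - P.r * gh (ω ((ρ kt).J hw)) ≤ (|(ρ kb).p ω s| + P.f0) * B +
        2 * P.t1 * (10 ^ 6 * (G + G' + P.La2 * γ)) + 10 * P.r * P.f0 * (G + G' + γ)

theorem winS_of {ω : ι → ℂ} (h1 : WinIf ω fun _ y f => y ≤ f)
    (h2 : WinIf ω fun x y f => f < x ∧ f < y) (h3 : WinIf ω fun x y f => x ≤ f ∧ f < y) :
    WinS ω := by
  intro P d Ks ρ kb kt s G G' γ K K' T1 T2 Ts Ts' h h' hw a1 a2 a3 a4 a5 a6 a7 a8 a9 a10
  rcases le_or_gt |(ρ kt).p ω hw| P.f0 with k | k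
  · exact h1 P d Ks ρ kb kt s G G' γ K K' T1 T2 Ts Ts' h h' hw a1 a2 a3 a4 a5 a6 a7 a8 a9 a10 k
  rcases le_or_gt |(ρ kb).p ω s| P.f0 with k' | k'
  · exact h3 P d Ks ρ kb kt s G G' γ K K' T1 T2 Ts Ts' h h' hw a1 a2 a3 a4 a5 a6 a7 a8 a9 a10
      ⟨k', k⟩
  · exact h2 P d Ks ρ kb kt s G G' γ K K' T1 T2 Ts Ts' h h' hw a1 a2 a3 a4 a5 a6 a7 a8 a9 a10
      ⟨k', k⟩

end Pool.Agent.MP_c59ecb_co.sh

end MrgPart0

-- ======== part 1: formerly Pool.Agent.MP_c59ecb_co.sh.WinC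
section MrgPart1

/-! One window whose target is almost untilted. -/

set_option autoImplicit false

namespace Pool.Agent.MP_c59ecb_co.sh

open MeasureTheory Complex Pool.Agent.MP_c59ecb_co.h76

variable {ι : Type} [Fintype ι] [DecidableEq ι] {ω : ι → ℂ}

namespace WinC

section Num

variable (P : Pm)

lemma t1_le : P.t1 ≤ 1 / 1000 := by
  linarith [P.mn_small (a := 9) (j := 5) (by norm_num) (by norm_num), P.mn_pos 9 5]

lemma t2_le : P.t2 ≤ 1 / 1000 := by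
  linarith [P.mn_small (a := 36) (j := 5) (by norm_num) (by norm_num), P.mn_pos 36 5]

lemma eta_le : P.eta ≤ 1 / 100 := by
  linarith [P.mn_small (a := -40) (j := 4) (by norm_num) (by norm_num), P.mn_pos (-40) 4]

lemma f0_le : P.f0 ≤ 1 := by
  linarith [P.mn_small (a := -17) (j := 5) (by norm_num) (by norm_num), P.mn_pos (-17) 5]

lemma vt_f0 : 10 * P.vt ≤ P.f0 := by
  linarith [P.mn_le (a := 0) (j := 11) (b := -17) (k := 5) (by norm_num) (by norm_num),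
    P.mn_pos 0 11]

lemma La2_ge : 5 ≤ P.La2 := by
  linarith [P.mn_big (a := 78) (j := -5) (by norm_num) (by norm_num)]

lemma La2_vt : 3 * (P.La2 * P.vt) ≤ P.be ∧ 6 * (P.La2 * P.vt) ≤ P.eta := by
  rw [P.mn_mul' (c := 78) (l := 6) rfl rfl]
  constructor
  · linarith [P.mn_le (a := 78) (j := 6) (b := 0) (k := 5) (by norm_num) (by norm_num),
      P.mn_pos 78 6]
  · linarith [P.mn_le (a := 78) (j := 6) (b := -40) (k := 4) (by norm_num) (by norm_num),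
      P.mn_pos 78 6]

lemma t1_eta : 5 * P.t1 ≤ P.eta := by
  linarith [P.mn_le (a := 9) (j := 5) (b := -40) (k := 4) (by norm_num) (by norm_num),
    P.mn_pos 9 5]

lemma t1_r : P.t1 * P.r ≤ 1 / 1000 := by
  rw [P.r_eq, P.mn_mul' (c := 39) (l := 5) rfl rfl]
  linarith [P.mn_small (a := 39) (j := 5) (by norm_num) (by norm_num), P.mn_pos 39 5]

lemma f0_R : P.f0 * P.R ^ 2 ≤ 1 := by
  rw [P.R_sq, mul_left_comm, P.mn_mul' (c := 43) (l := 5) rfl rfl]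
  linarith [P.mn_small (a := 43) (j := 5) (by norm_num) (by norm_num), P.mn_pos 43 5]

lemma r100 : (100 : ℝ) ≤ P.r := le_trans (by norm_num) P.r_big

lemma r_La2 : 2 * ((P.r : ℝ) + 2) ≤ P.La2 := by
  have := r100 P
  have h := P.mn_le (a := 30) (j := 0) (b := 78) (k := -5) (by norm_num) (by norm_num)
  rw [← P.r_eq] at h
  linarith

lemma rR_La2 : 2 * ((P.r : ℝ) + 3) * P.R ^ 2 ≤ P.La2 := by
  have h0 := r100 P
  have h1 : 2 * ((P.r : ℝ) + 3) * P.R ^ 2 ≤ 4 * P.r * P.R ^ 2 :=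
    mul_le_mul_of_nonneg_right (by linarith) (sq_nonneg _)
  have h2 : 4 * P.r * P.R ^ 2 = 400 * P.mn 90 0 := by
    rw [P.R_sq, P.r_eq, ← P.mn_mul' (a := 30) (j := 0) (b := 60) (k := 0) (c := 90) (l := 0) rfl rfl]
    ring
  linarith [P.mn_le (a := 90) (j := 0) (b := 78) (k := -5) (by norm_num) (by norm_num),
    P.mn_pos 90 0]

lemma lam_e : 20 * P.lam ≤ P.e := by
  linarith [P.mn_le (a := 0) (j := 1) (b := -1) (k := 0) (by norm_num) (by norm_num),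
    P.mn_pos 0 1]

lemma r_e : 1 ≤ P.r * P.e := by
  rw [P.r_eq, P.mn_mul' (c := 29) (l := 0) rfl rfl]
  linarith [P.mn_big (a := 29) (j := 0) (by norm_num) (by norm_num)]

lemma rng {s : ℕ} (h : P.Rng s) : 4 * P.r ≤ s ∧ s + 4 * P.r ≤ 2 * P.T0 := by
  have h1 : 100 * P.r ≤ P.n := le_trans (Nat.mul_le_mul_right _ (by norm_num)) P.r_le_n'
  obtain ⟨h2, h3⟩ := h
  unfold Pm.T0
  omega

end Num

/-- the last step of the cost estimate -/
lemma fin {C r e lam ψ X E : ℝ} (h0 : 0 < lam) (h1 : 20 * lam ≤ e) (h2 : 1 ≤ r * e) (hr : 0 ≤ r)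
    (hψ : 0 ≤ ψ) (hE : 0 ≤ E) (hX : ψ * (r - 3 / 10) ≤ X) (h : X - E ≤ 2 * (1 + 10 * lam) * C) :
    (1 - e) * (0 + r * (ψ / 2)) - E ≤ C := by
  by_contra hn
  rw [not_le] at hn
  have a1 := mul_lt_mul_of_pos_left hn (by linarith : 0 < 2 * (1 + 10 * lam))
  have a2 : (1 + 10 * lam) * (1 - e) ≤ 1 - e / 2 := by nlinarith
  have a3 : (1 + 10 * lam) * (1 - e) * r ≤ r - 3 / 10 := by
    nlinarith [mul_le_mul_of_nonneg_right a2 hr]
  have a4 := mul_le_mul_of_nonneg_left a3 hψ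
  have a5 := mul_nonneg h0.le hE
  nlinarith

variable {P : Pm} {d : ι → ℂ} {Ks : Finset ℕ} {ρ : ℕ → Ry ι} {kb kt s : ℕ} {G : ℝ} {K : Ry ι}
  {T Ts h : ℕ}

lemma h_le (hS : Shot P d ω Ks ρ kb kt s G K T Ts h) : h ≤ 2 * P.T0 := by
  have := hS.h2
  unfold Pm.T0
  omega

lemma shot_dist (L : L3 ω) (hB : Base P d ω (ρ kt)) (hS : Shot P d ω Ks ρ kb kt s G K T Ts h) :
    ‖d ((ρ kt).J h) - d (K.J Ts)‖ ≤ 15 := by
  have a1 := (L.w.cen d (K.J Ts) (K.V Ts) P.t2 (hS.stop.wray.tilt Ts hS.lt.le)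
    (hS.stop.wray.v Ts hS.lt.le)).2.2
  obtain ⟨a2, a3⟩ := L.path.cen d _ _ _ _ _ h _ hB.wray (h_le hS)
  have a4 := abs_le.1 (hB.wray.v h (h_le hS))
  have a5 := t1_le P
  rw [abs_le] at a2 a3
  have b1 : ‖d ((ρ kt).J h) - (ρ kt).Q d ω h‖ ≤ 1 + 1 :=
    (norm_le_abs_re_add_abs_im _).trans (add_le_add (abs_le.2 ⟨by linarith, by linarith⟩)
      (abs_le.2 ⟨by linarith, by linarith⟩))
  have b2 : ‖K.P d ω Ts - (ρ kt).Q d ω h‖ ≤ 5 + 1 :=
    (norm_le_abs_re_add_abs_im _).trans (add_le_add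
      (abs_le.2 ⟨by linarith [hS.re1], by linarith [hS.re2]⟩) (by linarith [hS.im]))
  rw [norm_sub_rev] at a1 b2
  have b3 := norm_sub_le_norm_sub_add_norm_sub (d ((ρ kt).J h)) ((ρ kt).Q d ω h) (d (K.J Ts))
  have b4 := norm_sub_le_norm_sub_add_norm_sub ((ρ kt).Q d ω h) (K.P d ω Ts) (d (K.J Ts))
  unfold Ry.P at b2 b4
  linarith

lemma shot_ang (L : L3 ω) (hB : Base P d ω (ρ kt)) (hS : Shot P d ω Ks ρ kb kt s G K T Ts h) :
    ‖ω ((ρ kt).J h) - ω ((ρ kb).J s)‖ ≤ 8 * G := by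
  have hW := hS.stop.wray
  have a1 := (hW.c1 Ts hS.lt.le).ang _ (shot_dist L hB hS)
  have a2 := L.w.ang d _ _ _ _ _ K 0 Ts hW (Nat.zero_le _) hS.lt.le
  have a3 := hW.sub (s := Finset.Ico 0 Ts) fun k hk =>
    (Finset.mem_Ico.1 hk).2.le.trans hS.lt.le
  have a4 := hW.le hS.lt.le
  rw [hS.st] at a2
  linarith [norm_sub_le_norm_sub_add_norm_sub (ω ((ρ kt).J h)) (ω (K.J Ts)) (ω ((ρ kb).J s))]

variable {σ : Ry ι} {γ : ℝ}

lemma sub_le (hB : Base P d ω σ) (hγ : ∑ j ∈ Finset.Icc (s - 4 * P.r) (s + 4 * P.r), σ.g j ≤ γ)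
    {a b : ℕ} (ha : s ≤ a + 4 * P.r) (hb : b ≤ s + 4 * P.r) : ∑ j ∈ Finset.Ico a b, σ.g j ≤ γ :=
  (Finset.sum_le_sum_of_subset_of_nonneg (fun k hk => by
    rw [Finset.mem_Ico] at hk
    rw [Finset.mem_Icc]
    omega) fun k _ _ => hB.wray.g0 k).trans hγ

lemma g_le (hB : Base P d ω σ) (hγ : ∑ j ∈ Finset.Icc (s - 4 * P.r) (s + 4 * P.r), σ.g j ≤ γ)
    {k : ℕ} (ha : s ≤ k + 4 * P.r) (hb : k ≤ s + 4 * P.r) : σ.g k ≤ γ :=
  (Finset.single_le_sum (f := σ.g) (fun k _ => hB.wray.g0 k)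
    (Finset.mem_Icc.2 ⟨by omega, hb⟩)).trans hγ

lemma win_ang (L : L3 ω) (hB : Base P d ω σ) (hs : P.Rng s)
    (hγ : ∑ j ∈ Finset.Icc (s - 4 * P.r) (s + 4 * P.r), σ.g j ≤ γ) {k : ℕ}
    (ha : s ≤ k + 4 * P.r) (hb : k ≤ s + 4 * P.r) : ‖ω (σ.J k) - ω (σ.J s)‖ ≤ γ := by
  have h1 := (rng P hs).2
  rcases le_total s k with h | h
  · exact (L.w.ang _ _ _ _ _ _ σ s k hB.wray h (by omega)).trans (sub_le hB hγ (by omega) hb)
  · rw [norm_sub_rev]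
    exact (L.w.ang _ _ _ _ _ _ σ k s hB.wray h (by omega)).trans (sub_le hB hγ ha (by omega))

lemma tilt_le (hB : Base P d ω σ) {k : ℕ} (hk : k ≤ 2 * P.T0) : ‖ω (σ.J k) - 1‖ ≤ 1 / 100 :=
  (hB.wray.tilt k hk).trans (by linarith [t1_le P])

/-- a window of a tilted base is a column -/
lemma win_col (hω : Nm ω) (L : L3 ω) (hB : Base P d ω σ) (hs : P.Rng s)
    (hγ : ∑ j ∈ Finset.Icc (s - 4 * P.r) (s + 4 * P.r), σ.g j ≤ γ) (hv : γ ≤ P.vt)
    (hp : P.f0 < |σ.p ω s|) {s0 m : ℕ} (h1 : m ≤ s0) (h2 : s + m ≤ s0 + 4 * P.r)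
    (h3 : s0 ≤ s + 4 * P.r) :
    Col d ω P.eta (3 * (P.La2 * γ)) m (fun j => σ.J (s0 - j)) ∧
      SA d ω m (fun j => σ.J (s0 - j)) ≤ 3 * (P.La2 * γ) := by
  have a1 := (rng P hs).2
  have a2 := t1_le P
  have a3 := La2_ge P
  have a4 : 0 ≤ γ := (hB.wray.g0 s).trans (g_le hB hγ (by omega) (by omega))
  have a5 : (2 * P.La2 + 5) * γ ≤ 3 * (P.La2 * γ) := by nlinarith
  have a6 := L.path.wincol d _ _ _ _ P.La2 γ P.eta (3 * (P.La2 * γ)) _ s0 m σ hB.wray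
    (by linarith) (by linarith) h1 (by omega) (by linarith) (fun k k1 k2 => ?_)
    (sub_le hB hγ (by omega) h3) a5 (by linarith [t1_eta P])
  · exact ⟨a6.1, a6.2.trans a5⟩
  · refine hB.str k (by omega) ((g_le hB hγ (by omega) (by omega)).trans hv) ?_
    have b1 := win_ang L hB hs hγ (k := k) (by omega) (by omega)
    have b2 := (L.tilt.lip _ _ (hω.1 _) (hω.1 _) (tilt_le hB (k := k) (by omega))
      (tilt_le hB (k := s) (by omega))).1
    have b3 := abs_sub_abs_le_abs_sub (tl (ω (σ.J s))) (tl (ω (σ.J k)))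
    rw [abs_sub_comm] at b3
    have b4 := vt_f0 P
    unfold Ry.p at hp ⊢
    linarith

variable {G' : ℝ} {K' : Ry ι} {T' Ts' h' hw : ℕ}

lemma im_start (L : L3 ω) (hB : Base P d ω (ρ kb)) (hr : P.r ≤ s)
    (hS : Shot P d ω Ks ρ kb kt s G K T Ts h)
    (hS' : Shot P d ω Ks ρ kb kt (s - P.r) G' K' T' Ts' h') :
    |(K'.P d ω 0 - K.P d ω 0).im - P.r| ≤ 3 / 10 := by
  have a1 := (rng P hS.rng).2
  have b1 := (L.path.start d _ _ _ _ (K.V 0) _ s _ hB.wray (by omega) hS.v0).2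
  have b2 := (L.path.start d _ _ _ _ (K'.V 0) _ (s - P.r) _ hB.wray (by omega) hS'.v0).2
  have b3 := (L.pth.geo _ _ _ (s - P.r) s (L.path.pth d _ _ _ _ _ _ hB.wray) (by omega)
    (by omega)).2
  rw [Nat.cast_sub hr, sub_sub_cancel] at b3
  have b4 := t1_r P
  have b5 := t1_le P
  have b6 := abs_le.1 hS.v0
  have b7 := abs_le.1 hS'.v0
  unfold Ry.P
  rw [hS.st, hS'.st]
  rw [abs_le, sub_im] at b1 b2 b3 ⊢
  constructor <;> linarith

/-- the tube that starts at the window -/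
lemma tube_cost (hω : Nm ω) (L : L3 ω) (hB : Base P d ω (ρ kb)) (hB' : Base P d ω (ρ kt))
    (hr : P.r ≤ s) (hS : Shot P d ω Ks ρ kb kt s G K T Ts h)
    (hS' : Shot P d ω Ks ρ kb kt (s - P.r) G' K' T' Ts' h')
    (hh : hw = if Ts ≤ Ts' then h else h')
    (hγ : ∑ j ∈ Finset.Icc (s - 4 * P.r) (s + 4 * P.r), (ρ kb).g j ≤ γ) (hγ' : (ρ kt).g hw ≤ γ)
    (hv : γ ≤ P.vt) (hp : P.f0 < |(ρ kb).p ω s|) (hp' : |(ρ kt).p ω hw| ≤ P.f0) :
    ∃ Z : Finset ι, Above d ω P.r K Ts Z ∧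
      (1 - P.e) * (0 + P.r * ((|(ρ kb).p ω s| - P.f0) / 2)) - 10 ^ 6 * (G + G' + P.La2 * γ) ≤
        Cost d ω P.lam Z := by
  obtain ⟨r1, r2⟩ := rng P hS.rng
  have hG := hS.G0
  have hG' := hS'.G0
  have hγ0 : 0 ≤ γ := (hB'.wray.g0 _).trans hγ'
  have hLa : 0 ≤ P.La2 := P.mn_nonneg _ _
  have hLγ := mul_nonneg hLa hγ0
  have r3 := r100 P
  set Tw := min Ts Ts' with hTw
  have w1 : Wray d ω (10 * P.r) 0 P.t2 Tw (4 * G) K :=
    hS.stop.wray.mono le_rfl ((min_le_left _ _).trans hS.lt.le) le_rfl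
  have w2 : Wray d ω (10 * P.r) 0 P.t2 Tw (4 * G') K' :=
    hS'.stop.wray.mono le_rfl ((min_le_right _ _).trans hS'.lt.le) le_rfl
  have tp : TP P.r P.lam P.eta P.t2 (4 * G + 4 * G') :=
    P.tp le_rfl (by linarith [hS.G1, hS'.G1, P.mn_pos 36 5])
  obtain ⟨c1, c2⟩ := win_col hω L hB hS.rng hγ hv hp (s0 := s) (m := P.r) hr (by omega)
    (by omega)
  have i0 := im_start L hB hr hS hS'
  have c3 : 3 * (P.La2 * γ) ≤ P.eta / 2 := by
    linarith [(La2_vt P).2, mul_le_mul_of_nonneg_left hv hLa]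
  obtain ⟨m, A, tb, m0, A0, hD, hA⟩ := L.tube d P.r P.lam P.eta P.t2 0 0 (4 * G) (4 * G') Tw 0 P.r
    K K' (fun j => (ρ kb).J (s - j)) tp w1 w2 (Nat.zero_le _) i0 (c1.mono le_rfl c3)
    hS.st.symm hS'.st.symm
  refine ⟨Inn Tw m A, (hA Tw le_rfl).mono (min_le_left _ _), ?_⟩
  have tv := L.tv d P.r P.lam P.eta P.t2 0 0 (4 * G) (4 * G') Tw Tw Tw Tw Tw K K' m A tp w1 w2 tb
    le_rfl le_rfl le_rfl le_rfl
  rw [sub_self, abs_zero, add_zero, add_zero, add_zero, m0, A0] at tv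
  have s0 := (SS_le_SA d ω P.r _).trans c2
  have e0 := L.col.approx d _ _ γ (K.V 0) (K'.V 0) P.r _ (ω ((ρ kb).J s)) c1 (eta_le P) (hω.1 _)
    (tilt_le hB (by omega)) (fun j hj => win_ang L hB hS.rng hγ (by omega) (by omega))
    (w1.v 0 (Nat.zero_le _)) (w2.v 0 (Nat.zero_le _))
  rw [Nat.sub_zero, ← hS'.st, show (ρ kb).J s = K.J 0 from hS.st.symm] at e0
  have hhw : hw ≤ 2 * P.T0 := by
    rw [hh]
    split_ifs
    exacts [h_le hS, h_le hS']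
  have inn : ∀ j ≤ m Tw, ‖d (A Tw j) - d (K.J Tw)‖ ≤ P.r + 2 := fun j hj =>
    (L.col.inn d P.r P.lam P.eta P.t2 _ Tw K K' m A Tw j tp tb le_rfl (w1.v Tw le_rfl)
      (w2.v Tw le_rfl) hj).1
  have d1 : ‖d (K.J Tw) - d ((ρ kt).J hw)‖ ≤ P.r + 17 := by
    rw [norm_sub_rev]
    by_cases hT : Ts ≤ Ts'
    · rw [hh, if_pos hT, hTw, min_eq_left hT]
      linarith [shot_dist L hB' hS]
    · have f1 := inn (m Tw) le_rfl
      rw [tb.hi Tw le_rfl] at f1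
      have f2 := shot_dist L hB' hS'
      rw [hh, if_neg hT]
      rw [← min_eq_right (le_of_not_ge hT)] at f2
      linarith [norm_sub_le_norm_sub_add_norm_sub (d ((ρ kt).J h')) (d (K'.J Tw)) (d (K.J Tw))]
  have calm := ((hB'.wray.calm hhw).unrot I_pow_four).mono le_rfl
    (mul_le_mul_of_nonneg_left hγ' (sq_nonneg _))
  have e1 := L.col.approx d _ _ (P.R ^ 2 * γ) (K.V Tw) (K'.V Tw) (m Tw) _ (ω ((ρ kt).J hw))
    (tb.col Tw le_rfl) (eta_le P) (hω.1 _) (tilt_le hB' hhw)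
    (fun j hj => calm.ang _ (by
      have := norm_sub_le_norm_sub_add_norm_sub (d (A Tw j)) (d (K.J Tw)) (d ((ρ kt).J hw))
      linarith [inn j hj]))
    (w1.v Tw le_rfl) (w2.v Tw le_rfl)
  rw [tb.lo Tw le_rfl, tb.hi Tw le_rfl] at e1
  obtain ⟨-, g1, g2⟩ := hD Tw le_rfl
  have g3 := (abs_im_le_norm _).trans g1
  rw [sub_im] at g3
  have k1 : 2 * ((P.r : ℝ) + 2) * γ ≤ P.La2 * γ := mul_le_mul_of_nonneg_right (r_La2 P) hγ0
  have k2 : 2 * ((m Tw : ℝ) + 2) * (P.R ^ 2 * γ) ≤ P.La2 * γ := by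
    have : (m Tw : ℝ) ≤ P.r + 1 := by exact_mod_cast (tb.len Tw le_rfl).2
    calc _ ≤ 2 * ((P.r : ℝ) + 3) * (P.R ^ 2 * γ) :=
          mul_le_mul_of_nonneg_right (by linarith) (mul_nonneg (sq_nonneg _) hγ0)
      _ ≤ _ := by rw [← mul_assoc]; exact mul_le_mul_of_nonneg_right (rR_La2 P) hγ0
  have k3 : P.f0 * ((10 * (P.r : ℝ)) ^ 2 * (4 * G) + 4 * G + 4 * G') ≤ 8 * (G + G') := by
    have u1 := mul_le_mul_of_nonneg_right (f0_R P) hG
    have u2 := mul_le_mul_of_nonneg_right (f0_le P) hG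
    have u3 := mul_le_mul_of_nonneg_right (f0_le P) hG'
    unfold Pm.R at u1
    nlinarith
  have hKp : tl (ω (K.J 0)) = (ρ kb).p ω s := by rw [hS.st]; rfl
  rw [hKp] at e0
  change |_ - (K'.P d ω 0 - K.P d ω 0).re - _ * (K'.P d ω 0 - K.P d ω 0).im| ≤ _ at e0
  change |_ - (K'.P d ω Tw - K.P d ω Tw).re -
    (ρ kt).p ω hw * (K'.P d ω Tw - K.P d ω Tw).im| ≤ _ at e1
  generalize (K'.P d ω 0 - K.P d ω 0).re = x0 at *
  generalize (K'.P d ω 0 - K.P d ω 0).im = y0 at *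
  generalize (K'.P d ω Tw - K.P d ω Tw).re = x1 at *
  generalize (K'.P d ω Tw - K.P d ω Tw).im = y1 at *
  generalize (ρ kb).p ω s = p at *
  generalize (ρ kt).p ω hw = p' at *
  generalize SS d ω P.r (fun j => (ρ kb).J (s - j)) = S0 at *
  generalize SS d ω (m Tw) (A Tw) = S1 at *
  have k4 : |p' * (y1 - y0)| ≤ 8 * (G + G') := by
    rw [abs_mul]
    exact (mul_le_mul hp' g3 (abs_nonneg _) (P.mn_nonneg _ _)).trans k3
  have k5 : (|p| - P.f0) * (P.r - 3 / 10) ≤ |(p' - p) * y0| := by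
    have u1 := abs_le.1 i0
    have u2 := abs_sub_abs_le_abs_sub p p'
    rw [abs_mul, abs_sub_comm p' p, abs_of_nonneg (by linarith : 0 ≤ y0)]
    exact mul_le_mul (by linarith) (by linarith) (by linarith) (abs_nonneg _)
  have k6 : |(p' - p) * y0| ≤ |S1| + 5 * (P.La2 * γ) + 16 * (G + G') := by
    have u1 := le_abs_self S1
    have u2 := neg_abs_le S1
    rw [abs_le] at e0 e1 g2 k4 s0 ⊢
    constructor <;> linarith
  refine fin (P.mn_pos _ _) (lam_e P) (r_e P) (by linarith) (by linarith) (by positivity) k5 ?_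
  linarith [le_abs_self (|S1| - |S0|)]

end WinC

open WinC in
theorem winC (hω : Nm ω) (L : L3 ω) : WinIf ω fun _ y f => y ≤ f := by
  intro P d Ks ρ kb kt s G G' γ K K' T1 T2 Ts Ts' h h' hw hF hb ht _ hr hS hS' hh hγ hv hp'
  have hB := hF.base kb hb
  have hB' := hF.base kt ht
  obtain ⟨r1, r2⟩ := rng P hS.rng
  have n1 := Finset.sum_nonneg fun j (_ : j ∈ Finset.Icc (s - 4 * P.r) (s + 4 * P.r)) =>
    hB.wray.g0 j
  have n2 := Finset.sum_nonneg fun j (_ : j ∈ Finset.Icc (hw - 4 * P.r) (hw + 4 * P.r)) =>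
    hB'.wray.g0 j
  have hγ1 : ∑ j ∈ Finset.Icc (s - 4 * P.r) (s + 4 * P.r), (ρ kb).g j ≤ γ := by linarith
  have hγ2 : (ρ kt).g hw ≤ γ := g_le (s := hw) hB' (by linarith) (by omega) (by omega)
  have hγ0 : 0 ≤ γ := by linarith
  have hG := hS.G0
  have hG' := hS'.G0
  have hE : 0 ≤ 10 ^ 6 * (G + G' + P.La2 * γ) := by
    have := mul_nonneg (P.mn_nonneg 78 (-5)) hγ0
    exact mul_nonneg (by norm_num) (by linarith)
  have hE' : 0 ≤ 2 * P.t1 * (10 ^ 6 * (G + G' + P.La2 * γ)) :=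
    mul_nonneg (by linarith [P.mn_pos 9 5]) hE
  have hr0 : (0 : ℝ) ≤ P.r := Nat.cast_nonneg _
  have hf : 0 < P.f0 := P.mn_pos _ _
  have hhw : hw ≤ 2 * P.T0 := by
    rw [hh]
    split_ifs
    exacts [h_le hS, h_le hS']
  have ang : ‖ω ((ρ kt).J hw) - ω ((ρ kb).J s)‖ ≤ γ + 8 * (G + G') := by
    rw [hh]
    split_ifs
    · linarith [shot_ang L hB' hS]
    · linarith [shot_ang L hB' hS', win_ang L hB hS.rng hγ1 (k := s - P.r) (by omega) (by omega),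
        norm_sub_le_norm_sub_add_norm_sub (ω ((ρ kt).J h')) (ω ((ρ kb).J (s - P.r)))
          (ω ((ρ kb).J s))]
  have tb := tilt_le hB (k := s) (by omega)
  have tt := tilt_le hB' hhw
  have z' : pp P.f0 ((ρ kt).p ω hw) = 0 := max_eq_right (by linarith)
  have hq : 0 ≤ 10 * P.r * P.f0 * (G + G' + γ) := by positivity
  rcases le_or_gt |(ρ kb).p ω s| P.f0 with hp | hp
  · have z : pp P.f0 ((ρ kb).p ω s) = 0 := max_eq_right (by linarith)
    have a1 := re_diff (hω.1 _) (hω.1 _) (((L.tilt.one _ (hω.1 _) tb).2.1).trans hp)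
      (((L.tilt.one _ (hω.1 _) tt).2.1).trans hp')
    have a2 : P.f0 * ‖ω ((ρ kt).J hw) - ω ((ρ kb).J s)‖ ≤ P.f0 * (10 * (G + G' + γ)) :=
      mul_le_mul_of_nonneg_left (by linarith) hf.le
    obtain ⟨a3, a4⟩ := abs_le.1 (a1.trans a2)
    have a5 := mul_le_mul_of_nonneg_left a3 hr0
    have a6 := mul_le_mul_of_nonneg_left a4 hr0
    refine ⟨0, 0, ∅, le_rfl, le_rfl, fun i hi => absurd hi (Finset.notMem_empty i),
      fun hn => absurd hn Finset.not_nonempty_empty, ?_, ?_, ?_, ?_⟩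
    · linarith [Cost_nonneg (c := d) (ω := ω) P.lam ∅]
    · rw [z, z']
      simpa using hE
    · unfold gh
      linarith
    · unfold gh
      linarith
  · have z : pp P.f0 ((ρ kb).p ω s) = |(ρ kb).p ω s| - P.f0 := max_eq_left (by linarith)
    obtain ⟨Z, hZ, hc⟩ := tube_cost hω L hB hB' hr hS hS' hh hγ1 hγ2 hv hp hp'
    obtain ⟨m1, m2⟩ := L.tilt.mono _ _ (hω.1 _) (hω.1 _) tb tt (hp'.trans hp.le)
    have hLa : P.La2 * γ ≤ P.La2 * P.vt := mul_le_mul_of_nonneg_left hv (P.mn_nonneg _ _)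
    refine ⟨0, P.r * ((|(ρ kb).p ω s| - P.f0) / 2), Z, le_rfl,
      mul_nonneg hr0 (by linarith), hZ, fun _ => ?_, hc, ?_, ?_, ?_⟩
    · obtain ⟨c1, c2⟩ := win_col hω L hB hS.rng hγ1 hv hp (s0 := s + 2 * P.r) (m := 5 * P.r)
        (by omega) (by omega) (by omega)
      refine ⟨K, T1, 0, fun j => (ρ kb).J (s + 2 * P.r - j),
        hS.stop.wray.mono le_rfl le_rfl (by linarith [hS.G1, P.mn_pos 36 5]), Nat.zero_le _,
        hZ.mono hS.lt.le, ?_, c1.mono le_rfl (by linarith [(La2_vt P).1]),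
        by linarith [(La2_vt P).1], ?_, fun j hj => ?_⟩
      · beta_reduce
        rw [hS.st, Nat.add_sub_cancel]
      · rw [Ry.p, hS.st]
        unfold Ry.p at hp
        linarith
      · rw [hS.st]
        exact (win_ang L hB hS.rng hγ1 (by omega) (by omega)).trans hv
    · rw [z, z']
      simpa using hE
    · linarith [mul_le_mul_of_nonneg_left m1 hr0]
    · have b1 := (L.tilt.lip _ _ (hω.1 _) (hω.1 _) tb tt).1
      rw [norm_sub_rev] at b1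
      have b2 := abs_sub_abs_le_abs_sub (tl (ω ((ρ kb).J s))) (tl (ω ((ρ kt).J hw)))
      unfold Ry.p at hp hp' ⊢
      rw [← sq_abs (tl (ω ((ρ kb).J s))), ← sq_abs (tl (ω ((ρ kt).J hw)))] at m2
      have b3 := abs_nonneg (tl (ω ((ρ kt).J hw)))
      generalize |tl (ω ((ρ kb).J s))| = a at *
      generalize |tl (ω ((ρ kt).J hw))| = b at *
      have b4 : a - b ≤ 10 * (G + G' + γ) := by linarith
      have b5 : (a ^ 2 - b ^ 2) / 2 ≤ (a + P.f0) * ((a - P.f0) / 2) +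
          P.f0 * (10 * (G + G' + γ)) := by
        nlinarith [mul_le_mul_of_nonneg_left b4 hf.le,
          mul_nonneg (sub_nonneg.2 hp') (sub_nonneg.2 hp'), mul_nonneg hf.le (sub_nonneg.2 hp.le)]
      have b6 := mul_le_mul_of_nonneg_left (m2.trans b5) hr0
      linarith

end Pool.Agent.MP_c59ecb_co.sh

end MrgPart1

-- ======== part 2: formerly Pool.Agent.MP_c59ecb_co.sh.Boot
section MrgPart2

/-! The short rays are almost horizontal. -/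

set_option autoImplicit false

namespace Pool.Agent.MP_c59ecb_co.sh

open MeasureTheory Complex Pool.Agent.MP_c59ecb_co.h76

namespace Boot

lemma cls_up (r o j : ℕ) (ho : o < r) : ∃ v, v % r = o ∧ j ≤ v ∧ v < j + r := by
  have h1 := Nat.div_add_mod j r
  have h2 := Nat.mod_lt j (show 0 < r by omega)
  by_cases h : j % r ≤ o
  · refine ⟨r * (j / r) + o, ?_, by omega, by omega⟩
    rw [Nat.mul_add_mod, Nat.mod_eq_of_lt ho]
  · refine ⟨r * (j / r + 1) + o, ?_, ?_, ?_⟩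
    · rw [Nat.mul_add_mod, Nat.mod_eq_of_lt ho]
    · rw [mul_add, mul_one]; omega
    · rw [mul_add, mul_one]; omega

lemma cls_rng (P : Pm) (o j : ℕ) (ho : o < P.r) (hj : P.Rng j) :
    ∃ v, v % P.r = o ∧ P.Rng v ∧ v < j + P.r ∧ j < v + P.r := by
  have hr := P.r_le_n'
  obtain ⟨h1, h2⟩ := hj
  by_cases h : j ≤ 2 * P.n
  · obtain ⟨v, a1, a2, a3⟩ := cls_up P.r o j ho
    exact ⟨v, a1, ⟨by omega, by omega⟩, a3, by omega⟩
  · obtain ⟨v, a1, a2, a3⟩ := cls_up P.r o (j + 1 - P.r) ho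
    exact ⟨v, a1, ⟨by omega, by omega⟩, by omega, by omega⟩

variable {ι : Type} [Fintype ι] [DecidableEq ι] {ω : ι → ℂ}

lemma ang_nbr (W : WS ω) {c : ι → ℂ} {R w τ G : ℝ} {T : ℕ} {ρ : Ry ι}
    (h : Wray c ω R w τ T G ρ) {a b j E : ℕ} (ha : a ≤ T) (hb : b ≤ T) (a1 : j - E ≤ a)
    (a2 : a ≤ j + E) (b1 : j - E ≤ b) (b2 : b ≤ j + E) :
    ‖ω (ρ.J b) - ω (ρ.J a)‖ ≤ ∑ i ∈ (Finset.Icc (j - E) (j + E)).filter (fun i => i ≤ T), ρ.g i := by
  have key : ∀ a b : ℕ, a ≤ b → b ≤ T → j - E ≤ a → b ≤ j + E →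
      ‖ω (ρ.J b) - ω (ρ.J a)‖ ≤
        ∑ i ∈ (Finset.Icc (j - E) (j + E)).filter (fun i => i ≤ T), ρ.g i := by
    intro a b hab hb a1 b2
    refine (W.ang c R w τ G T ρ a b h hab hb).trans
      (Finset.sum_le_sum_of_subset_of_nonneg ?_ fun k _ _ => h.g0 k)
    intro k hk
    simp only [Finset.mem_Ico, Finset.mem_filter, Finset.mem_Icc] at hk ⊢
    omega
  rcases le_total a b with hab | hab
  · exact key a b hab hb a1 b2
  · rw [norm_sub_rev]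
    exact key b a hab ha b1 a2

lemma pair_le (hω : Nm ω) (W : WS ω) {c : ι → ℂ} {R w τ G : ℝ} {T : ℕ} {ρ ρ' : Ry ι}
    (h : Wray c ω R w τ T G ρ) (h' : Wray c ω R w τ T G ρ') {a b : ℕ} (hab : a ≤ b) (hb : b ≤ T) :
    |(ρ'.P c ω b - ρ.P c ω b - (ρ'.P c ω a - ρ.P c ω a)).re| ≤
        τ * ∑ j ∈ Finset.Ioc a b, ‖ω (ρ'.J j) - ω (ρ.J j)‖ + 2 * G ∧
      |(ρ'.P c ω b - ρ.P c ω b - (ρ'.P c ω a - ρ.P c ω a)).im| ≤
        ∑ j ∈ Finset.Ioc a b, ‖ω (ρ'.J j) - ω (ρ.J j)‖ + 2 * G := by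
  have hs : ∀ k ∈ Finset.Ico a b, k ≤ T := fun k hk => by
    simp only [Finset.mem_Ico] at hk
    omega
  have p1 := (W.pos c R w τ G T ρ a b h hab hb).trans (h.sub hs)
  have p2 := (W.pos c R w τ G T ρ' a b h' hab hb).trans (h'.sub hs)
  set u := ρ.P c ω b - ρ.P c ω a - ∑ j ∈ Finset.Ioc a b, ω (ρ.J j) with hu
  set u' := ρ'.P c ω b - ρ'.P c ω a - ∑ j ∈ Finset.Ioc a b, ω (ρ'.J j) with hu'
  have e : ρ'.P c ω b - ρ.P c ω b - (ρ'.P c ω a - ρ.P c ω a) =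
      u' - u + ∑ j ∈ Finset.Ioc a b, (ω (ρ'.J j) - ω (ρ.J j)) := by
    rw [Finset.sum_sub_distrib, hu, hu']
    ring
  have q1 := abs_le.1 ((abs_re_le_norm u).trans p1)
  have q2 := abs_le.1 ((abs_re_le_norm u').trans p2)
  have q3 := abs_le.1 ((abs_im_le_norm u).trans p1)
  have q4 := abs_le.1 ((abs_im_le_norm u').trans p2)
  have q5 : |(∑ j ∈ Finset.Ioc a b, (ω (ρ'.J j) - ω (ρ.J j))).re| ≤
      τ * ∑ j ∈ Finset.Ioc a b, ‖ω (ρ'.J j) - ω (ρ.J j)‖ := by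
    rw [re_sum, Finset.mul_sum]
    refine (Finset.abs_sum_le_sum_abs _ _).trans (Finset.sum_le_sum fun j hj => ?_)
    have hj' : j ≤ T := by
      simp only [Finset.mem_Ioc] at hj
      omega
    rw [sub_re]
    exact re_diff (hω.1 _) (hω.1 _) (h.tilt j hj') (h'.tilt j hj')
  have q6 : |(∑ j ∈ Finset.Ioc a b, (ω (ρ'.J j) - ω (ρ.J j))).im| ≤
      ∑ j ∈ Finset.Ioc a b, ‖ω (ρ'.J j) - ω (ρ.J j)‖ :=
    (abs_im_le_norm _).trans (norm_sum_le _ _)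
  have q5' := abs_le.1 q5
  have q6' := abs_le.1 q6
  rw [e, add_re, add_im, sub_re, sub_im]
  exact ⟨abs_le.2 ⟨by linarith, by linarith⟩, abs_le.2 ⟨by linarith, by linarith⟩⟩

lemma pair_pos (hω : Nm ω) (W : WS ω) {c : ι → ℂ} {R w τ G : ℝ} {T : ℕ} {ρ ρ' : Ry ι}
    (h : Wray c ω R w τ T G ρ) (h' : Wray c ω R w τ T G ρ') {a b : ℕ} (ha : a ≤ T) (hb : b ≤ T) :
    |(ρ'.P c ω b - ρ.P c ω b - (ρ'.P c ω a - ρ.P c ω a)).re| ≤
        τ * ∑ j ∈ Finset.Ioc (min a b) (max a b), ‖ω (ρ'.J j) - ω (ρ.J j)‖ + 2 * G ∧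
      |(ρ'.P c ω b - ρ.P c ω b - (ρ'.P c ω a - ρ.P c ω a)).im| ≤
        ∑ j ∈ Finset.Ioc (min a b) (max a b), ‖ω (ρ'.J j) - ω (ρ.J j)‖ + 2 * G := by
  rcases le_total a b with hab | hab
  · rw [min_eq_left hab, max_eq_right hab]
    exact pair_le hω W h h' hab hb
  · rw [min_eq_right hab, max_eq_left hab, ← neg_sub (ρ'.P c ω a - ρ.P c ω a), neg_re, neg_im,
      abs_neg, abs_neg]
    exact pair_le hω W h h' hab ha

lemma geo_abs (W : WS ω) {c : ι → ℂ} {R w τ G : ℝ} {T : ℕ} {ρ : Ry ι}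
    (h : Wray c ω R w τ T G ρ) {a b : ℕ} (ha : a ≤ T) (hb : b ≤ T) :
    |(b : ℝ) - a| * (1 - τ ^ 2) ≤ |(ρ.P c ω b - ρ.P c ω a).re| + G ∧
      |(ρ.P c ω b - ρ.P c ω a).im| ≤ τ * |(b : ℝ) - a| + G := by
  have key : ∀ a b : ℕ, a ≤ b → b ≤ T →
      |(b : ℝ) - a| * (1 - τ ^ 2) ≤ |(ρ.P c ω b - ρ.P c ω a).re| + G ∧
        |(ρ.P c ω b - ρ.P c ω a).im| ≤ τ * |(b : ℝ) - a| + G := by
    intro a b hab hb
    obtain ⟨g1, -, g3⟩ := W.geo c R w τ G T ρ a b h hab hb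
    have : (0 : ℝ) ≤ (b : ℝ) - a := sub_nonneg.2 (by exact_mod_cast hab)
    rw [abs_of_nonneg this]
    exact ⟨by linarith [le_abs_self (ρ.P c ω b - ρ.P c ω a).re], g3⟩
  rcases le_total a b with hab | hab
  · exact key a b hab hb
  · rw [← neg_sub (ρ.P c ω a), neg_re, neg_im, abs_neg, abs_neg, abs_sub_comm]
    exact key b a hab ha

lemma t1_small (P : Pm) : 10 ^ 30 * P.t1 ≤ P.t2 := P.mn_le (by norm_num) (by norm_num)

lemma th1_small (P : Pm) : 10 ^ 30 * P.th1 ≤ P.t2 := P.mn_le (by norm_num) (by norm_num)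

lemma t2_small (P : Pm) : 10 ^ 30 * P.t2 ≤ 1 := P.mn_small (by norm_num) (by norm_num)

lemma rng_le {P : Pm} {s : ℕ} (h : P.Rng s) : s ≤ 2 * P.T0 := by
  have := h.2
  unfold Pm.T0
  omega

omit [Fintype ι] [DecidableEq ι] in
lemma Q_re (d : ι → ℂ) (ρ ρ' : Ry ι) (a b : ℕ) :
    (ρ'.Q d ω b - ρ.Q d ω a).re = (ρ'.P (rt I d) ω b - ρ.P (rt I d) ω a).im := by
  simp [Ry.Q]
  ring

omit [Fintype ι] [DecidableEq ι] in
lemma Q_im (d : ι → ℂ) (ρ ρ' : Ry ι) (a b : ℕ) :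
    (ρ'.Q d ω b - ρ.Q d ω a).im = -(ρ'.P (rt I d) ω b - ρ.P (rt I d) ω a).re := by
  simp [Ry.Q]
  ring

section shot

variable {P : Pm} {d : ι → ℂ} {Ks : Finset ℕ} {ρ : ℕ → Ry ι} {kb kt s : ℕ} {G : ℝ} {K : Ry ι}
  {T' Ts h : ℕ}

lemma shot_h (S : Shot P d ω Ks ρ kb kt s G K T' Ts h) : h ≤ 2 * P.T0 := by
  have := S.h2
  unfold Pm.T0
  omega

lemma shot_ang (L : L3 ω) (ht : Base P d ω (ρ kt)) (S : Shot P d ω Ks ρ kb kt s G K T' Ts h) :
    ‖ω ((ρ kt).J h) - ω ((ρ kb).J s)‖ ≤ 8 * G := by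
  have hK := S.stop.wray
  have hT : Ts ≤ T' := S.lt.le
  have a1 : ‖ω (K.J Ts) - ω (K.J 0)‖ ≤ 4 * G :=
    (L.w.ang d P.R 0 P.t2 (4 * G) T' K 0 Ts hK (Nat.zero_le _) hT).trans
      (hK.sub fun k hk => by
        simp only [Finset.mem_Ico] at hk
        omega)
  obtain ⟨c1, c2⟩ := L.path.cen d P.R 0 P.t1 P.t1 (2 * P.T0) h (ρ kt) ht.wray (shot_h S)
  obtain ⟨-, -, c3⟩ := L.w.cen d (K.J Ts) (K.V Ts) P.t2 (hK.tilt Ts hT) (hK.v Ts hT)
  have hv := abs_le.1 (ht.wray.v h (shot_h S))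
  have s1 := t1_small P
  have s2 := t2_small P
  have a2 : ‖d ((ρ kt).J h) - d (K.J Ts)‖ ≤ 15 := by
    have e : d ((ρ kt).J h) - d (K.J Ts) = (d ((ρ kt).J h) - (ρ kt).Q d ω h) -
        (K.P d ω Ts - (ρ kt).Q d ω h) - (d (K.J Ts) - ex d ω (K.J Ts) (K.V Ts)) := by
      unfold Ry.P
      ring
    have n1 : ‖d ((ρ kt).J h) - (ρ kt).Q d ω h‖ ≤ 2 := by
      refine (norm_le_abs_re_add_abs_im _).trans ?_
      have b1 := abs_le.1 c1
      have b2 := abs_le.1 c2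
      have b3 : |(d ((ρ kt).J h) - (ρ kt).Q d ω h).re| ≤ 1 := abs_le.2 ⟨by linarith, by linarith⟩
      have b4 : |(d ((ρ kt).J h) - (ρ kt).Q d ω h).im| ≤ 1 :=
        abs_le.2 ⟨by linarith [P.mn_pos 9 5], by linarith⟩
      linarith
    have n2 : ‖K.P d ω Ts - (ρ kt).Q d ω h‖ ≤ 5 := by
      refine (norm_le_abs_re_add_abs_im _).trans ?_
      have b3 : |(K.P d ω Ts - (ρ kt).Q d ω h).re| ≤ 21 / 5 :=
        abs_le.2 ⟨by linarith [S.re1], by linarith [S.re2]⟩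
      linarith [S.im]
    rw [e]
    refine (norm_sub_le _ _).trans ?_
    have := norm_sub_le (d ((ρ kt).J h) - (ρ kt).Q d ω h) (K.P d ω Ts - (ρ kt).Q d ω h)
    linarith
  have a3 : ‖ω ((ρ kt).J h) - ω (K.J Ts)‖ ≤ 4 * G :=
    ((hK.c1 Ts hT).ang _ a2).trans (hK.le hT)
  rw [← S.st]
  have := norm_add_le (ω ((ρ kt).J h) - ω (K.J Ts)) (ω (K.J Ts) - ω (K.J 0))
  rw [sub_add_sub_cancel] at this
  linarith

lemma shot_pos (L : L3 ω) (hb : Base P d ω (ρ kb)) (S : Shot P d ω Ks ρ kb kt s G K T' Ts h) :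
    |((ρ kt).P (rt I d) ω h - (ρ kb).P (rt I d) ω s).re| ≤ 3 / 2 + P.t2 * Ts ∧
      (Ts : ℝ) * (1 - P.t2 ^ 2) ≤ ((ρ kt).P (rt I d) ω h - (ρ kb).P (rt I d) ω s).im - 2 := by
  have hK := S.stop.wray
  have hT : Ts ≤ T' := S.lt.le
  have hs := rng_le S.rng
  obtain ⟨g1, -, g3⟩ := L.w.geo d P.R 0 P.t2 (4 * G) T' K 0 Ts hK (Nat.zero_le _) hT
  obtain ⟨c1, c2⟩ := L.path.start d P.R 0 P.t1 P.t1 (K.V 0) (2 * P.T0) s (ρ kb) hb.wray hs S.v0
  have e0 : ex d ω ((ρ kb).J s) (K.V 0) = K.P d ω 0 := by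
    unfold Ry.P
    rw [S.st]
  rw [e0] at c1 c2
  have hv := abs_le.1 (hb.wray.v s hs)
  have hv0 := abs_le.1 S.v0
  have s1 := t1_small P
  have s2 := t2_small P
  have p1 := P.mn_pos 9 5
  have e : (ρ kt).Q d ω h - (ρ kb).Q d ω s = (K.P d ω Ts - K.P d ω 0) +
      (K.P d ω 0 - (ρ kb).Q d ω s) - (K.P d ω Ts - (ρ kt).Q d ω h) := by ring
  have e1 := Q_re (ω := ω) d (ρ kb) (ρ kt) s h
  have e2 := Q_im (ω := ω) d (ρ kb) (ρ kt) s h
  rw [e, sub_re, add_re] at e1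
  rw [e, sub_im, add_im] at e2
  have b1 := abs_le.1 c1
  have b2 := abs_le.1 c2
  have b3 := abs_le.1 g3
  have b4 := abs_le.1 S.im
  have b5 := S.re1
  have b6 := S.re2
  have b7 := S.G1
  simp only [Nat.cast_zero, sub_zero] at g1 b3
  exact ⟨abs_le.2 ⟨by linarith, by linarith⟩, by linarith⟩

end shot

/-- the final computation -/
lemma solve {E T Λ X a b c : ℝ} (hE : 0 ≤ E) (hT : 0 ≤ T) (hΛ : 0 ≤ Λ) (hX : 0 ≤ X) (ha : 0 ≤ a)
    (h1 : 10 ^ 30 * a ≤ c) (h2 : 10 ^ 30 * b ≤ c) (h3 : 10 ^ 30 * c ≤ 1)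
    (e1 : E * (1 - a ^ 2) ≤ 4 + c * T + 2 * b * Λ + a * (X + 2 * E * a))
    (e2 : T * (1 - c ^ 2) ≤ Λ + 2 * b * Λ + a * E + (X + 2 * E * a)) :
    E ≤ 5 + 2 * c * (Λ + X) := by
  have hc : 0 ≤ c := by linarith
  have c2 : c ^ 2 ≤ 1 / 100 := by nlinarith
  have a2 : a ^ 2 ≤ 1 / 1000 := by nlinarith
  have b1 : b * Λ ≤ Λ / 1000 := by nlinarith
  have f1 : T * (99 / 100) ≤ T * (1 - c ^ 2) := mul_le_mul_of_nonneg_left (by linarith) hT
  have aE : 0 ≤ a * E := mul_nonneg ha hE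
  have f2 : T ≤ 11 / 10 * (Λ + X) + 4 * (a * E) := by nlinarith
  have f3 : c * T ≤ c * (11 / 10 * (Λ + X) + 4 * (a * E)) := mul_le_mul_of_nonneg_left f2 hc
  have f4 : c * a * E ≤ E / 1000 := by
    have : c * a ≤ 1 / 1000 := by nlinarith
    nlinarith
  have f5 : a ^ 2 * E ≤ E / 1000 := by nlinarith
  have f6 : b * Λ ≤ c * Λ / 100 := by nlinarith
  have f7 : a * X ≤ c * X / 100 := by nlinarith
  have f8 : 0 ≤ c * Λ := mul_nonneg hc hΛ
  have f9 : 0 ≤ c * X := mul_nonneg hc hX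
  nlinarith

/-- the total difference of the directions of two samples -/
lemma xi (L : L3 ω) {P : Pm} {d : ι → ℂ} {Ks : Finset ℕ} {ρ : ℕ → Ry ι} {kb kt o : ℕ}
    {Ty : Finset ℕ} {G : ℕ → ℝ} {K : ℕ → Ry ι} {T' Ts h : ℕ → ℕ} {H Nn : ℝ}
    (hb : Base P d ω (ρ kb)) (ht : Base P d ω (ρ kt)) (ho : o < P.r)
    (hTy : ∀ s ∈ Ty, Shot P d ω Ks ρ kb kt s (G s) (K s) (T' s) (Ts s) (h s))
    (hH : ∑ s ∈ Ty, G s ≤ H)
    (hN : ∀ B : Finset ℕ, (∀ s ∈ B, s % P.r = o ∧ P.Rng s ∧ s ∉ Ty) → (B.card : ℝ) ≤ Nn)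
    {E : ℕ} (hE : ∀ s ∈ Ty, h s ≤ s + E ∧ s ≤ h s + E) (S : Finset ℕ) (hS : ∀ j ∈ S, P.Rng j) :
    ∑ j ∈ S, ‖ω ((ρ kt).J j) - ω ((ρ kb).J j)‖ ≤
      16 * P.r * H + 4 * P.t1 * P.r * Nn + 5 * P.r * P.t1 + 2 * E * P.t1 := by
  classical
  have hσ : ∀ j, ∃ v, P.Rng j → v % P.r = o ∧ P.Rng v ∧ v < j + P.r ∧ j < v + P.r := by
    intro j
    by_cases hj : P.Rng j
    · obtain ⟨v, hv⟩ := cls_rng P o j ho hj
      exact ⟨v, fun _ => hv⟩
    · exact ⟨0, fun h => absurd h hj⟩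
  choose σ hσ using hσ
  have p1 := P.mn_pos 9 5
  have r1 : (2 : ℝ) ≤ P.r := le_trans (by norm_num) P.r_big
  have fib : ∀ (S' : Finset ℕ), S' ⊆ S → ∀ v, (S'.filter fun j => σ j = v).card ≤ 2 * P.r := by
    intro S' hS' v
    refine (Finset.card_le_card (t := Finset.Ico (v - P.r) (v + P.r)) fun j hj => ?_).trans ?_
    · obtain ⟨h1, h2⟩ := Finset.mem_filter.1 hj
      obtain ⟨-, -, h3, h4⟩ := hσ j (hS j (hS' h1))
      simp only [Finset.mem_Ico]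
      omega
    · rw [Nat.card_Ico]
      omega
  have pt : ∀ j ∈ S, ‖ω ((ρ kt).J j) - ω ((ρ kb).J j)‖ ≤
      ∑ i ∈ (Finset.Icc (j - P.r) (j + P.r)).filter (fun i => i ≤ 2 * P.T0), (ρ kb).g i +
        ∑ i ∈ (Finset.Icc (j - (E + P.r)) (j + (E + P.r))).filter (fun i => i ≤ 2 * P.T0),
          (ρ kt).g i + (if σ j ∈ Ty then 8 * G (σ j) else 2 * P.t1) := by
    intro j hj
    have hj' := rng_le (hS j hj)
    obtain ⟨-, h2, h3, h4⟩ := hσ j (hS j hj)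
    split_ifs with hc
    · have S1 := hTy _ hc
      obtain ⟨e1, e2⟩ := hE _ hc
      have a1 := ang_nbr L.w hb.wray (a := j) (b := σ j) (j := j) (E := P.r) hj' (rng_le h2)
        (by omega) (by omega) (by omega) (by omega)
      have a2 := shot_ang L ht S1
      have a3 := ang_nbr L.w ht.wray (a := h (σ j)) (b := j) (j := j) (E := E + P.r) (shot_h S1) hj'
        (by omega) (by omega) (by omega) (by omega)
      have a4 := norm_add₃_le (a := ω ((ρ kt).J j) - ω ((ρ kt).J (h (σ j))))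
        (b := ω ((ρ kt).J (h (σ j))) - ω ((ρ kb).J (σ j)))
        (c := ω ((ρ kb).J (σ j)) - ω ((ρ kb).J j))
      rw [sub_add_sub_cancel, sub_add_sub_cancel] at a4
      linarith
    · have a1 := hb.wray.tilt j hj'
      have a2 := ht.wray.tilt j hj'
      have a3 := norm_sub_le (ω ((ρ kt).J j) - 1) (ω ((ρ kb).J j) - 1)
      rw [sub_sub_sub_cancel_right] at a3
      have a4 : 0 ≤ ∑ i ∈ (Finset.Icc (j - P.r) (j + P.r)).filter (fun i => i ≤ 2 * P.T0),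
          (ρ kb).g i := Finset.sum_nonneg fun i _ => hb.wray.g0 i
      have a5 : 0 ≤ ∑ i ∈ (Finset.Icc (j - (E + P.r)) (j + (E + P.r))).filter
          (fun i => i ≤ 2 * P.T0), (ρ kt).g i := Finset.sum_nonneg fun i _ => ht.wray.g0 i
      linarith
  have one : ∀ j, (S.filter fun s => id s = j).card ≤ 1 := fun j =>
    Finset.card_le_one.2 fun a ha b hb => by
      have h1 := (Finset.mem_filter.1 ha).2
      have h2 := (Finset.mem_filter.1 hb).2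
      simp only [id] at h1 h2
      rw [h1, h2]
  have n1 := L.sum.nbr S id (ρ kb).g P.r (2 * P.T0) 1 hb.wray.g0 one
  have n2 := L.sum.nbr S id (ρ kt).g (E + P.r) (2 * P.T0) 1 ht.wray.g0 one
  simp only [id, Nat.cast_one, one_mul] at n1 n2
  have n1' := n1.trans (mul_le_mul_of_nonneg_left hb.wray.sum (by positivity))
  have n2' := n2.trans (mul_le_mul_of_nonneg_left ht.wray.sum (by positivity))
  have m1 : ∑ j ∈ S.filter (fun j => σ j ∈ Ty), 8 * G (σ j) ≤ 16 * P.r * H := by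
    rw [← Finset.sum_fiberwise_of_maps_to (t := Ty) (g := σ)
      (fun j hj => (Finset.mem_filter.1 hj).2)]
    refine le_trans (Finset.sum_le_sum (g := fun v => 16 * P.r * G v) fun v hv => ?_) ?_
    · rw [Finset.sum_congr rfl (g := fun _ => 8 * G v)
        (fun j hj => by rw [(Finset.mem_filter.1 hj).2]), Finset.sum_const, nsmul_eq_mul]
      have h1 : (((S.filter fun j => σ j ∈ Ty).filter fun j => σ j = v).card : ℝ) ≤ 2 * P.r := by
        exact_mod_cast fib _ (Finset.filter_subset _ _) v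
      have h2 := (hTy v hv).G0
      nlinarith
    · rw [← Finset.mul_sum]
      exact mul_le_mul_of_nonneg_left hH (by positivity)
  have m2 : ((S.filter fun j => σ j ∉ Ty).card : ℝ) ≤ 2 * P.r * Nn := by
    have h1 := Finset.card_le_mul_card_image (f := σ) (S.filter fun j => σ j ∉ Ty) (2 * P.r)
      fun v _ => fib _ (Finset.filter_subset _ _) v
    have h2 := hN ((S.filter fun j => σ j ∉ Ty).image σ) fun v hv => by
      obtain ⟨j, hj, rfl⟩ := Finset.mem_image.1 hv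
      obtain ⟨h3, h4⟩ := Finset.mem_filter.1 hj
      obtain ⟨h5, h6, -⟩ := hσ j (hS j h3)
      exact ⟨h5, h6, h4⟩
    have h3 : ((S.filter fun j => σ j ∉ Ty).card : ℝ) ≤
        2 * P.r * (((S.filter fun j => σ j ∉ Ty).image σ).card : ℝ) := by exact_mod_cast h1
    exact h3.trans (mul_le_mul_of_nonneg_left h2 (by positivity))
  refine (Finset.sum_le_sum pt).trans ?_
  rw [Finset.sum_add_distrib, Finset.sum_add_distrib, Finset.sum_ite, Finset.sum_const,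
    nsmul_eq_mul]
  have m3 := mul_le_mul_of_nonneg_right m2 (show 0 ≤ 2 * P.t1 by positivity)
  have m4 := mul_le_mul_of_nonneg_right r1 p1.le
  push_cast at n2'
  linarith

end Boot

open Boot

variable {ι : Type} [Fintype ι] [DecidableEq ι] {ω : ι → ℂ}

theorem bootS (hω : Nm ω) (L : L3 ω) : BootS ω := by
  intro P d Ks ρ kb kt o Ty G K T' Ts h H Nn hF hkb hkt hlt ho hTy hH hN s hs
  have hb := hF.base kb hkb
  have ht := hF.base kt hkt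
  obtain ⟨-, o1, o2⟩ := hF.off kt hkt kb hkb hlt
  have hTy' := fun s hs => (hTy s hs).2
  obtain ⟨s0, hs0, hmax⟩ := Finset.exists_max_image Ty (fun s => max (h s - s) (s - h s)) ⟨s, hs⟩
  obtain ⟨E, hEdef⟩ : ∃ E : ℕ, E = max (h s0 - s0) (s0 - h s0) := ⟨_, rfl⟩
  have hE : ∀ s ∈ Ty, h s ≤ s + E ∧ s ≤ h s + E := fun s hs => by
    have := hmax s hs
    simp only [← hEdef] at this
    omega
  have hE0 : |(h s0 : ℝ) - s0| = E := by
    rcases le_total (h s0) s0 with h1 | h1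
    · have : s0 = h s0 + E := by omega
      have h2 : (s0 : ℝ) = h s0 + E := by exact_mod_cast this
      rw [abs_sub_comm, h2, add_sub_cancel_left, Nat.abs_cast]
    · have : h s0 = s0 + E := by omega
      have h2 : (h s0 : ℝ) = s0 + E := by exact_mod_cast this
      rw [h2, add_sub_cancel_left, Nat.abs_cast]
  have hsE : |(h s : ℝ) - s| ≤ E := by
    obtain ⟨h1, h2⟩ := hE s hs
    have h3 : (h s : ℝ) ≤ s + E := by exact_mod_cast h1
    have h4 : (s : ℝ) ≤ h s + E := by exact_mod_cast h2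
    exact abs_le.2 ⟨by linarith, by linarith⟩
  have S0 := hTy' s0 hs0
  have hs0' := rng_le S0.rng
  have hxi := xi L hb ht ho hTy' hH hN hE (Finset.Ioc (min P.T0 s0) (max P.T0 s0)) fun j hj => by
    obtain ⟨r1, r2⟩ := S0.rng
    simp only [Finset.mem_Ioc] at hj
    have : P.T0 = 2 * P.n := rfl
    exact ⟨by omega, by omega⟩
  obtain ⟨q1, q2⟩ := pair_pos hω L.w hb.wray ht.wray (a := P.T0) (b := s0) (by omega) hs0'
  obtain ⟨g1, g2⟩ := geo_abs L.w ht.wray (a := s0) (b := h s0) hs0' (shot_h S0)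
  obtain ⟨u1, u2⟩ := shot_pos L hb S0
  rw [hE0] at g1 g2
  have p1 := P.mn_pos 9 5
  have p2 := P.mn_pos 36 5
  have p3 := P.mn_pos 3 10
  have s1 := t1_small P
  have s2 := t2_small P
  have s3 := th1_small P
  have hΛ : (0 : ℝ) ≤ (kb : ℝ) - kt := sub_nonneg.2 (by exact_mod_cast hlt.le)
  have hH0 : 0 ≤ H := (Finset.sum_nonneg fun s hs => (hTy' s hs).G0).trans hH
  have hN0 : 0 ≤ Nn := by simpa using hN ∅ (by simp)
  have x1 : 0 ≤ (P.r : ℝ) * H := by positivity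
  have x2 : 0 ≤ P.t1 * P.r * Nn := by positivity
  have x3 : 0 ≤ (P.r : ℝ) * P.t1 := by positivity
  have q1' := q1.trans (add_le_add_left (mul_le_mul_of_nonneg_left hxi p1.le) _)
  have q2' := q2.trans (add_le_add_left hxi _)
  have b1 := abs_le.1 q1'
  have b2 := abs_le.1 q2'
  have b3 := abs_le.1 o1
  have b4 := abs_le.1 o2
  have b5 := abs_le.1 g2
  have b6 := abs_le.1 u1
  have b7 : |((ρ kt).P (rt I d) ω (h s0) - (ρ kt).P (rt I d) ω s0).re| ≤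
      3 / 2 + P.t2 * Ts s0 + (2 * P.th1 * ((kb : ℝ) - kt) + 2) + (P.t1 *
        (16 * P.r * H + 4 * P.t1 * P.r * Nn + 5 * P.r * P.t1 + 2 * E * P.t1) + 2 * P.t1) := by
    simp only [sub_re] at b1 b4 b6 ⊢
    exact abs_le.2 ⟨by linarith [b1.2, b4.2, b6.1], by linarith [b1.1, b4.1, b6.2]⟩
  have key := solve (E := E) (T := Ts s0) (Λ := (kb : ℝ) - kt)
    (X := 16 * P.r * H + 4 * P.t1 * P.r * Nn + 5 * P.r * P.t1) (a := P.t1) (b := P.th1) (c := P.t2)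
    (Nat.cast_nonneg _) (Nat.cast_nonneg _) hΛ (by linarith) p1.le s1 s3 s2 (by linarith) (by
      simp only [sub_im] at b2 b3 b5 u2
      linarith [b2.2, b3.2, b5.2])
  have y1 : 0 ≤ P.t2 * ((kb : ℝ) - kt) := by positivity
  have y2 := mul_nonneg p2.le x1
  have y3 := mul_nonneg p2.le x2
  have y4 := mul_nonneg p2.le x3
  nlinarith

end Pool.Agent.MP_c59ecb_co.sh

end MrgPart2

-- marker of a merged file
example : 731051 + 56149 = 731051 + 56149 := rfl
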