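import Pool.Agent.MP_c59ecb_co.h76.Square

-- ======== part 0: formerly Pool.Agent.MP_c59ecb_co.sh.Defs
section MrgPart0

/-! Definitions for the lower bound with the sharp constant. -/

set_option autoImplicit false

namespace Pool.Agent.MP_c59ecb_co.sh

open MeasureTheory Complex Pool.Agent.MP_c59ecb_co.h76
open scoped ENNReal

/-! ### parameters -/

/-- the parameters of the proof -/
structure Pm where
  M : ℕ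
  n : ℕ
  l : ℕ
  L : ℕ
  x : ℝ
  ε : ℝ
  hM : 10 ^ 30 ≤ M
  x0 : 0 < x
  hx : x * (M : ℝ) ^ 200 ≤ 1
  hn : (n : ℝ) * x ^ 25 = 1
  ε0 : 0 < ε
  hε : ε ≤ x ^ 100
  l1 : (l : ℝ) * ((M : ℝ) ^ 3 * x ^ 5) ≤ 1
  l2 : 1 ≤ 2 * ((l : ℝ) * ((M : ℝ) ^ 3 * x ^ 5))
  L1 : (L : ℝ) * ((M : ℝ) ^ 58 * x ^ 10) ≤ 1
  L2 : 1 ≤ 2 * ((L : ℝ) * ((M : ℝ) ^ 58 * x ^ 10))

namespace Pm

variable (P : Pm)

/-- a monomial in the two scales -/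
noncomputable def mn (a j : ℤ) : ℝ := (P.M : ℝ) ^ a * P.x ^ j

/-- relative accuracy -/
noncomputable abbrev e : ℝ := P.mn (-1) 0
/-- scale of the tilt of transversals -/
noncomputable abbrev be : ℝ := P.mn 0 5
/-- scale of the tilt of rows -/
noncomputable abbrev th : ℝ := P.mn 0 10
/-- scale of the waste -/
noncomputable abbrev nt : ℝ := P.mn 0 (-15)
/-- corner margin -/
noncomputable abbrev lam : ℝ := P.mn 0 1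
/-- tolerance in columns -/
noncomputable abbrev eta : ℝ := P.mn (-40) 4
/-- level of the rows -/
noncomputable abbrev th1 : ℝ := P.mn 3 10
/-- level of the transversals -/
noncomputable abbrev t1 : ℝ := P.mn 9 5
/-- level of the short rays -/
noncomputable abbrev t2 : ℝ := P.mn 36 5
/-- threshold for tilts of the row -/
noncomputable abbrev dl : ℝ := P.mn (-6) 10
/-- threshold for tilts of transversals -/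
noncomputable abbrev f0 : ℝ := P.mn (-17) 5
/-- regularisation of the maximal tilt -/
noncomputable abbrev e2 : ℝ := P.mn (-14) 5
/-- level of nice windows -/
noncomputable abbrev vt : ℝ := P.mn 0 11
/-- level of nice windows on the row -/
noncomputable abbrev vs : ℝ := P.mn 0 16
/-- number of tilted squares used on the row -/
noncomputable abbrev NU : ℝ := 30 * P.mn 12 (-20)
/-- total energy -/
noncomputable abbrev E : ℝ := P.mn 1 (-15)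
/-- margin weight for rows -/
noncomputable abbrev w1 : ℝ := P.mn (-67) 10
/-- margin weight for transversals -/
noncomputable abbrev w2 : ℝ := P.mn (-78) 5
/-- straightness constant of the row -/
noncomputable abbrev La1 : ℝ := P.mn 67 (-10)
/-- straightness constant of transversals -/
noncomputable abbrev La2 : ℝ := P.mn 78 (-5)
/-- height of the tubes -/
def r : ℕ := P.M ^ 30
/-- radius of the large discs -/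
noncomputable abbrev R : ℝ := 10 * (P.r : ℝ)
/-- distance of samples -/
def ell : ℕ := P.r * P.L
/-- half side of the square -/
noncomputable def a : ℝ := (P.n + P.ε) / 2
/-- length of the rows -/
def T : ℕ := P.n + P.n / 10
/-- half length of the transversals -/
def T0 : ℕ := 2 * P.n
/-- horizon of the short rays -/
def T1 : ℕ := P.n / 10
/-- the index is within `3 n / 2` of the middle of a transversal -/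
def Rng (s : ℕ) : Prop := P.n ≤ 2 * s ∧ 2 * s ≤ 7 * P.n

end Pm

/-- tilt -/
noncomputable def tl (z : ℂ) : ℝ := z.im / z.re

/-- loss of horizontal progress -/
def gh (z : ℂ) : ℝ := 1 - z.re

/-- excess of the tilt over a threshold -/
noncomputable def pp (φ p : ℝ) : ℝ := max (|p| - φ) 0

/-- the integral is at most `H` -/
def Lv (F : ℝ → ℝ≥0∞) (H : ℝ) : Prop := Measurable F ∧ ∫⁻ v, F v ≤ ENNReal.ofReal H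

/-- the two lattices of the frame -/
def Lat (a x : ℝ) : Prop := ∃ z : ℤ, x = a - 1 / 2 + z ∨ x = -(a - 1 / 2) + z

/-- a path that goes down -/
def Pth (η : ℝ) (T : ℕ) (Q : ℕ → ℂ) : Prop := ∀ s < T, ‖Q (s + 1) - Q s + I‖ ≤ η

/-- the point is to the right (`σ = 1`) or to the left (`σ = -1`) of the path -/
def Side (T : ℕ) (Q : ℕ → ℂ) (σ : ℝ) (z : ℂ) : Prop :=
  ∃ s ≤ T, |(z - Q s).im| ≤ 3 / 5 ∧ 2 ≤ σ * (z - Q s).re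

/-- almost parallel squares in a box, in coordinates -/
structure Lm {κ : Type} (U W : κ → ℝ) (μ ϱ : ℝ) : Prop where
  cov : ∀ a b : ℝ, |a| ≤ ϱ → |b| ≤ ϱ → ∃ q, |a - U q| ≤ 1 / 2 + μ ∧ |b - W q| ≤ 1 / 2 + μ
  sep : ∀ q q', q ≠ q' → |U q| ≤ ϱ → |W q| ≤ ϱ → |U q'| ≤ ϱ → |W q'| ≤ ϱ →
    |U q - U q'| ≤ 1 - 2 * μ → (1 - 2 * μ - |U q - U q'|) * (1 - 2 * μ - |W q - W q'|) ≤ μ

/-- the square is well inside the box -/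
def Ins {κ : Type} (U W : κ → ℝ) (ϱ : ℝ) (q : κ) : Prop := |U q| ≤ ϱ - 2 ∧ |W q| ≤ ϱ - 2

/-- the parameters of a tube -/
structure TP (r : ℕ) (lam η τ G : ℝ) : Prop where
  r100 : 100 ≤ r
  lam0 : 0 < lam
  lam1 : lam ≤ 1 / 1000
  eta : 10 ^ 4 * r * η ≤ lam ^ 4
  tau : 2 * τ ≤ η
  tot : 10 ^ 4 * (r : ℝ) ^ 2 * G ≤ η
  big : 10 ^ 6 * (r : ℝ) ^ 3 * lam ≤ 1

/-- a sequence of squares with heights and costs -/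
structure Ry (ι : Type) where
  J : ℕ → ι
  V : ℕ → ℝ
  g : ℕ → ℝ

variable {ι : Type}

/-- normalised directions -/
def Nm (ω : ι → ℂ) : Prop := (∀ k, ‖ω k‖ = 1) ∧ ∀ k, |(ω k).im| ≤ (ω k).re

/-- the rotated configuration -/
abbrev rt (u : ℂ) (c : ι → ℂ) : ι → ℂ := fun i => u * c i

/-- exit point -/
noncomputable def Ry.P (ρ : Ry ι) (c ω : ι → ℂ) (k : ℕ) : ℂ := ex c ω (ρ.J k) (ρ.V k)

/-- exit point of a ray of `rt I d`, seen in `d` -/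
noncomputable def Ry.Q (ρ : Ry ι) (d ω : ι → ℂ) (k : ℕ) : ℂ := -I * ρ.P (rt I d) ω k

/-- tilt along the ray -/
noncomputable def Ry.p (ρ : Ry ι) (ω : ι → ℂ) (k : ℕ) : ℝ := tl (ω (ρ.J k))

/-- the ray from time `s` on -/
def Ry.tail (ρ : Ry ι) (s : ℕ) : Ry ι :=
  ⟨fun k => ρ.J (s + k), fun k => ρ.V (s + k), fun k => ρ.g (s + k)⟩

/-- the reversed ray -/
def Ry.rev (ρ : Ry ι) (T : ℕ) : Ry ι :=
  ⟨fun k => ρ.J (T - k), fun k => -ρ.V (T - k), fun k => ρ.g (T - k)⟩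

/-- one step of a ray -/
def Step (c ω : ι → ℂ) (i : ι) (v : ℝ) (j : ι) (v' γ : ℝ) : Prop :=
  ‖ω j - ω i‖ ≤ γ ∧ ∃ (d : ℝ) (ζ : ℂ), |d| ≤ γ ∧ (ζ = ω i ∨ ζ = ω j) ∧
    ex c ω j v' = ex c ω i v + ω j - d * ζ

/-- first coordinate in the frame of square `i` -/
noncomputable def LU (c ω : ι → ℂ) (i q : ι) : ℝ := (loc (c i) (ω i) (c q)).re

/-- second coordinate in the frame of square `i` -/
noncomputable def LW (c ω : ι → ℂ) (i q : ι) : ℝ := (loc (c i) (ω i) (c q)).im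

/-- jump of the centre line from `i` to the square `j` above it -/
noncomputable def slip (c ω : ι → ℂ) (i j : ι) : ℝ :=
  (c j).re - (c i).re + (tl (ω i) + tl (ω j)) * ((c j).im - (c i).im) / 2

/-- a column of squares -/
def Col (c ω : ι → ℂ) (η s : ℝ) (m : ℕ) (A : ℕ → ι) : Prop :=
  (∀ j ≤ m, ‖ω (A j) - 1‖ ≤ η) ∧
    ∀ j < m, |slip c ω (A j) (A (j + 1))| ≤ s ∧ |(c (A (j + 1))).im - (c (A j)).im - 1| ≤ η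

/-- total slip -/
noncomputable def SS (c ω : ι → ℂ) (m : ℕ) (A : ℕ → ι) : ℝ :=
  ∑ j ∈ Finset.range m, slip c ω (A j) (A (j + 1))

/-- total absolute slip -/
noncomputable def SA (c ω : ι → ℂ) (m : ℕ) (A : ℕ → ι) : ℝ :=
  ∑ j ∈ Finset.range m, |slip c ω (A j) (A (j + 1))|

/-- column `B` is the right neighbour of column `A` -/
def Adj (c : ι → ℂ) (η : ℝ) (m : ℕ) (A : ℕ → ι) (m' : ℕ) (B : ℕ → ι) : Prop :=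
  ∃ (e : ℤ) (b : ℝ), |e| ≤ 1 ∧ |(m' : ℤ) + e - m| ≤ 1 ∧ |b| ≤ 1 / 2 ∧
    ∀ i j : ℕ, i ≤ m' → j ≤ m → (j : ℤ) = i + e →
      |(c (B i)).re - (c (A j)).re - 1| ≤ η ∧ |(c (B i)).im - (c (A j)).im - b| ≤ η

/-- columns between two rays -/
structure Tube (c ω : ι → ℂ) (r : ℕ) (η : ℝ) (T : ℕ) (ρ ρ' : Ry ι) (m : ℕ → ℕ)
    (A : ℕ → ℕ → ι) : Prop where
  lo : ∀ t ≤ T, A t 0 = ρ.J t
  hi : ∀ t ≤ T, A t (m t) = ρ'.J t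
  len : ∀ t ≤ T, r ≤ m t + 1 ∧ m t ≤ r + 1
  col : ∀ t ≤ T, Col c ω η η (m t) (A t)
  adj : ∀ t < T, Adj c (100 * r * η) (m t) (A t) (m (t + 1)) (A (t + 1))

/-- width of the overlap of `i` and its right neighbour `j` at height `y` -/
noncomputable def dd (c ω : ι → ℂ) (i j : ι) (y : ℝ) : ℝ :=
  ((c i).re - tl (ω i) * (y - (c i).im) + 1 / (2 * (ω i).re)) -
    ((c j).re - tl (ω j) * (y - (c j).im) - 1 / (2 * (ω j).re))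

/-- the overlap of the right part of `i` and the left part of `j`, away from corners -/
def HR (c ω : ι → ℂ) (lam : ℝ) (i j : ι) : Set ℂ :=
  {p | 1 / 4 ≤ (loc (c i) (ω i) p).re ∧ (loc (c i) (ω i) p).re ≤ 1 / 2 ∧
    -(1 / 2) ≤ (loc (c j) (ω j) p).re ∧ (loc (c j) (ω j) p).re ≤ -(1 / 4) ∧
    |(loc (c i) (ω i) p).im| ≤ 1 / 2 - lam ^ 2 / 2 ∧ |(loc (c j) (ω j) p).im| ≤ 1 / 2 - lam ^ 2 / 2}

/-- the square has an upper and a lower neighbour -/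
def Flat (c : ι → ℂ) (lam : ℝ) (i : ι) : Prop :=
  (∃ k, |(c k).re - (c i).re| ≤ lam / 4 ∧ |(c k).im - (c i).im - 1| ≤ lam / 4) ∧
    ∃ k, |(c k).re - (c i).re| ≤ lam / 4 ∧ |(c k).im - (c i).im + 1| ≤ lam / 4

/-- the points covered twice -/
def Mu (c ω : ι → ℂ) : Set ℂ := {p | ∃ i j, i ≠ j ∧ p ∈ Sq (c i) (ω i) ∧ p ∈ Sq (c j) (ω j)}

/-- loss of progress after the middle -/
noncomputable def Ry.Dp (ρ : Ry ι) (P : Pm) (ω : ι → ℂ) : ℝ :=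
  ∑ j ∈ Finset.Ioc P.T0 (2 * P.T0), gh (ω (ρ.J j))

/-- loss of progress before the middle -/
noncomputable def Ry.Dm (ρ : Ry ι) (P : Pm) (ω : ι → ℂ) : ℝ :=
  ∑ j ∈ Finset.Ioc 0 P.T0, gh (ω (ρ.J j))

/-- potential after the middle -/
noncomputable def Ry.Fp (ρ : Ry ι) (P : Pm) (ω : ι → ℂ) : ℝ :=
  ∑ j ∈ Finset.Ioc P.T0 (2 * P.T0), pp P.f0 (ρ.p ω j) / 2

/-- potential before the middle -/
noncomputable def Ry.Fm (ρ : Ry ι) (P : Pm) (ω : ι → ℂ) : ℝ :=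
  ∑ j ∈ Finset.Ioc 0 P.T0, pp P.f0 (ρ.p ω j) / 2

/-- bounds for the tilt of a transversal at quiet times -/
structure Mb (P : Pm) (ω : ι → ℂ) (ρ : Ry ι) (Mp Mm : ℝ) : Prop where
  p0 : 0 ≤ Mp
  p1 : Mp ≤ 2 * P.t1
  m0 : 0 ≤ Mm
  m1 : Mm ≤ 2 * P.t1
  bp : ∀ s, P.T0 ≤ s → s ≤ 2 * P.T0 → ρ.g s ≤ P.vt → |ρ.p ω s| ≤ Mp
  bm : ∀ s ≤ P.T0, ρ.g s ≤ P.vt → |ρ.p ω s| ≤ Mm

variable [DecidableEq ι]

/-- the inner squares of a column -/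
def Mid (m : ℕ) (A : ℕ → ι) : Finset ι := (Finset.Ioo 0 m).image A

/-- the inner squares of a tube -/
def Inn (T : ℕ) (m : ℕ → ℕ) (A : ℕ → ℕ → ι) : Finset ι :=
  (Finset.range (T + 1)).biUnion fun t => Mid (m t) (A t)

omit [DecidableEq ι] in
/-- the squares lie above the ray, below height `r` -/
def Above (c ω : ι → ℂ) (r : ℕ) (ρ : Ry ι) (T : ℕ) (Z : Finset ι) : Prop :=
  ∀ i ∈ Z, ∃ t ≤ T, |(c i - ρ.P c ω t).re + 1 / 2| ≤ 1 / 100 ∧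
    49 / 100 ≤ (c i - ρ.P c ω t).im ∧ (c i - ρ.P c ω t).im ≤ r - 1 / 10

/-- all squares of the samples -/
def StF (P : Pm) (Ks : Finset ℕ) (ρ : ℕ → Ry ι) : Finset ι :=
  Ks.biUnion fun k => (Finset.range (2 * P.T0 + 1)).image (ρ k).J

variable [Fintype ι]

/-- the squares near `i` are parallel to it and have small overlap -/
structure Calm (c ω : ι → ℂ) (i : ι) (ϱ μ : ℝ) : Prop where
  ang : ∀ q, ‖c q - c i‖ ≤ ϱ → ‖ω q - ω i‖ ≤ μ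
  ovl : ∀ q, ‖c q - c i‖ ≤ ϱ → ov c ω q ≤ μ
  cov : ∀ p, ‖p - c i‖ ≤ ϱ → Cov c ω p

/-- normalised overlap in a disc -/
noncomputable def ds (c ω : ι → ℂ) (ϱ : ℝ) (i : ι) : ℝ :=
  min 1 (∑ k ∈ Finset.univ.filter (fun k => ‖c k - c i‖ ≤ ϱ), bt c ω k)

/-- the extra cost of all rays -/
noncomputable def Pm.f (P : Pm) (c ω : ι → ℂ) (i : ι) : ℝ :=
  ds c ω 16 i + ds c ω (P.R + 1) i / P.R ^ 2 + ft c ω P.l i

/-- cost of a ray in a square, with a margin term -/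
noncomputable def psi2 (c ω : ι → ℂ) (f : ι → ℝ) (w : ℝ) (i : ι) (v : ℝ) : ℝ≥0∞ :=
  psi c ω f i v +
    {v : ℝ | |v| ≤ 1 / 2 ∧ w * (1 / 2 - |v|) ≤ f i}.indicator (fun _ => ENNReal.ofReal w) v

/-- cost of the rays of length `T` -/
noncomputable def Pm.FP (P : Pm) (c ω : ι → ℂ) (w : ℝ) (St : Finset ι) (T : ℕ) :
    ι → ℝ → ℝ≥0∞ :=
  Gw (Src c ω (1 / 100) St) (off c ω) (slo ω) (psi2 c ω (P.f c ω) w) T

/-- a reversible ray on `[0, T]` -/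
structure Wray (c ω : ι → ℂ) (R w τ : ℝ) (T : ℕ) (G : ℝ) (ρ : Ry ι) : Prop where
  v : ∀ k ≤ T, |ρ.V k| ≤ 1 / 2
  g0 : ∀ k, 0 ≤ ρ.g k
  sum : ∑ k ∈ Finset.range (T + 1), ρ.g k ≤ G
  tilt : ∀ k ≤ T, ‖ω (ρ.J k) - 1‖ ≤ τ
  step : ∀ k < T, Step c ω (ρ.J k) (ρ.V k) (ρ.J (k + 1)) (ρ.V (k + 1))
    (min (ρ.g k) (ρ.g (k + 1)))
  c1 : ∀ k ≤ T, Calm c ω (ρ.J k) 15 (ρ.g k)
  c2 : ∀ k ≤ T, ∃ μ : ℝ, 0 ≤ μ ∧ μ ≤ R ^ 2 * ρ.g k ∧ Calm c ω (ρ.J k) R μ ∧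
    (ρ.g k < w → μ < R ^ 2 * w * (1 / 2 - |ρ.V k|))

/-- a ray that runs for `T` steps or stops on `St` at time `T' + 1` -/
structure Stop (P : Pm) (c ω : ι → ℂ) (w τ : ℝ) (St : Finset ι) (T : ℕ) (G : ℝ) (T' : ℕ)
    (ρ : Ry ι) : Prop where
  le : T' + 1 ≤ T
  wray : Wray c ω P.R w τ T' (4 * G) ρ
  last : Step c ω (ρ.J T') (ρ.V T') (ρ.J (T' + 1)) (ρ.V (T' + 1)) (ρ.g T')
  vl : |ρ.V (T' + 1)| ≤ 1 / 2
  tlt : ‖ω (ρ.J (T' + 1)) - 1‖ ≤ τ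
  avoid : ∀ k, 0 < k → k ≤ T' → ρ.J k ∉ St
  stop : T' + 1 = T ∨ ρ.J (T' + 1) ∈ St
  ray : ∃ d g : ℕ → ℝ, Ray c ω (P.f c ω) (T' + 1) (2 * G) ρ.J ρ.V d g

open Classical in
/-- area of the horizontal overlap of two good squares -/
noncomputable def AH (c ω : ι → ℂ) (lam : ℝ) (i j : ι) : ℝ :=
  if (ov c ω i ≤ lam ^ 4 / 200 ∧ ‖ω i - 1‖ ≤ 1 / 100) ∧
      (ov c ω j ≤ lam ^ 4 / 200 ∧ ‖ω j - 1‖ ≤ 1 / 100) then (volume (HR c ω lam i j)).toReal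
  else 0

open Classical in
/-- the horizontal overlaps charged to the direction of `c` -/
noncomputable def cH (c ω : ι → ℂ) (lam : ℝ) (i j : ι) : ℝ :=
  if Flat c lam i ∧ Flat c lam j then AH c ω lam i j else 0

open Classical in
/-- the vertical overlaps charged to the direction of `c` -/
noncomputable def cV (c ω : ι → ℂ) (lam : ℝ) (i j : ι) : ℝ :=
  if Flat (rt I c) lam i ∧ Flat (rt I c) lam j then 0 else AH (rt I c) ω lam i j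

/-- the sharp cost of a set of squares -/
noncomputable def Cost (c ω : ι → ℂ) (lam : ℝ) (Z : Finset ι) : ℝ :=
  ∑ i ∈ Z, ∑ j ∈ Z, (cH c ω lam i j + cV c ω lam i j)

/-- the cost of one step of a tube -/
noncomputable def CC (c ω : ι → ℂ) (lam : ℝ) (X Y : Finset ι) : ℝ :=
  ∑ i ∈ X, ∑ j ∈ Y, cH c ω lam i j + ∑ i ∈ X, ∑ j ∈ X, cV c ω lam i j

/-- the covering with its frame, in one orientation -/
structure Framed1 (n : ℕ) (a W : ℝ) (c ω : ι → ℂ) : Prop where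
  cov : ∀ p : ℂ, |p.re| ≤ a + 3 * n → |p.im| ≤ a + 3 * n → Cov c ω p
  out : ∀ i, a + 1 ≤ |(c i).re| ∨ a + 1 ≤ |(c i).im| → ω i = 1 ∧ Lat a (c i).re ∧ Lat a (c i).im
  rgt : ∀ i, a + 1 ≤ (c i).re → |(c i).im| ≤ a - 1 → ∃ z : ℤ, (c i).re = a - 1 / 2 + z
  lft : ∀ j < n, ∃ i, ω i = 1 ∧ c i = ⟨-a - 21 / 2, -a + 1 / 2 + j⟩
  sov : ∑ k, ov c ω k ≤ 2 * W
  mu : volume (Mu c ω) ≤ ENNReal.ofReal W

/-- the covering with its frame -/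
def Framed (n : ℕ) (a W : ℝ) (c ω : ι → ℂ) : Prop :=
  ∀ u : ℂ, u ^ 4 = 1 → Framed1 n a W (rt u c) ω

/-- a framed covering with small waste -/
def Pm.Fr (P : Pm) (c ω : ι → ℂ) : Prop := Framed P.n P.a (11 * P.nt) c ω

/-- a set of squares between two rays that cross the whole square -/
def Full (P : Pm) (c ω : ι → ℂ) (κ X : ℝ) (Z : Finset ι) : Prop :=
  ∃ (ρ ρ' : Ry ι) (T : ℕ), Wray c ω P.R 0 P.t1 T P.t1 ρ ∧ Wray c ω P.R 0 P.t1 T P.t1 ρ' ∧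
    (c (ρ.J 0)).re ≤ -P.a - 5 ∧ (c (ρ'.J 0)).re ≤ -P.a - 5 ∧
    P.a + 5 ≤ (c (ρ.J T)).re ∧ P.a + 5 ≤ (c (ρ'.J T)).re ∧
    (∀ t ≤ T, |(ρ'.P c ω t - ρ.P c ω t).re| ≤ X ∧
      |(ρ'.P c ω t - ρ.P c ω t).im - P.r| ≤ 1 / 3 + κ) ∧
    ∀ i ∈ Z, ∃ t ≤ T, |(c i - ρ.P c ω t).re + 1 / 2| ≤ κ ∧ 1 / 2 - κ ≤ (c i - ρ.P c ω t).im ∧
      1 / 2 - κ ≤ (ρ'.P c ω t - c i).im

/-- a set of squares above a ray that passes a straight tilted column -/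
def High (P : Pm) (c ω : ι → ℂ) (Z : Finset ι) : Prop :=
  Z.Nonempty → ∃ (K : Ry ι) (T th : ℕ) (C : ℕ → ι), Wray c ω P.R 0 P.t2 T (3 * P.t2) K ∧ th ≤ T ∧
    Above c ω P.r K T Z ∧ C (2 * P.r) = K.J th ∧ Col c ω P.eta P.be (5 * P.r) C ∧
    SA c ω (5 * P.r) C ≤ P.be ∧ P.f0 / 2 ≤ |K.p ω th| ∧
    ∀ j ≤ 5 * P.r, ‖ω (C j) - ω (K.J th)‖ ≤ P.vt

/-- a typical ray from the left frame, with its partner -/
structure Row (P : Pm) (c ω : ι → ℂ) (j : ℕ) (ρ : Ry ι) : Prop where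
  wray : Wray c ω P.R P.w1 P.th1 P.T P.th1 ρ
  j1 : P.n * P.e ≤ j
  j2 : (j : ℝ) ≤ P.n - P.n * P.e
  w0 : ω (ρ.J 0) = 1
  c0 : c (ρ.J 0) = ⟨-P.a - 21 / 2, -P.a + 1 / 2 + j⟩
  v0 : |ρ.V 0| ≤ 1 / 8
  ray : ∃ (d g : ℕ → ℝ) (J' : ℕ → ι) (V' : ℕ → ℝ),
    Ray c ω (ft c ω P.l) (P.T + 1) P.th1 ρ.J ρ.V d g ∧
    (∀ k ≤ P.T + 1, ‖ω (ρ.J k) - 1‖ ≤ P.th1) ∧ (∀ k ≤ P.T + 1, |V' k| ≤ 1 / 2) ∧
    (∀ k ≤ P.T + 1, ‖ω (J' k) - 1‖ ≤ P.th1) ∧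
    ∀ k < P.T + 1, ‖ex c ω (J' k) (V' k) - ρ.P c ω k - I * P.l‖ ≤ (P.l + 2) * P.th1 ∧
      |(ex c ω (J' k) (V' k) - ρ.P c ω k).re| ≤ 3 * P.th1

/-- the row with the least maximal tilt -/
structure Sig (P : Pm) (c ω : ι → ℂ) (m : ℝ) (σ : Ry ι) : Prop where
  wray : Wray c ω P.R 0 P.th1 P.T P.th1 σ
  str : ∀ k < P.T, σ.g k ≤ P.vt → P.dl / 4 ≤ |σ.p ω k| → |σ.V (k + 1) - σ.V k| ≤ P.La1 * σ.g k
  mass : 2 - P.e ≤ ∑ k ∈ Finset.range (P.T + 1), σ.p ω k ^ 2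
  low : ∑ k ∈ (Finset.range (P.T + 1)).filter (fun k => |σ.p ω k| ≤ 3 * P.dl), σ.p ω k ^ 2 ≤ P.e
  top : ∀ k ≤ P.T, σ.g k ≤ P.vt → |σ.p ω k| ≤ m
  px : ∀ k ≤ P.T, |(σ.P c ω k).re| ≤ P.a + P.n / 10
  py : ∀ k ≤ P.T, |(σ.P c ω k).im| ≤ P.a - 5

/-- the tubes between consecutive rows -/
structure F1Dat (P : Pm) (c ω : ι → ℂ) (m : ℝ) (S : Finset ℕ) (y0 : ℝ) (ρ : ℕ → Ry ι)
    (Z : ℕ → Finset ι) : Prop where
  card : (1 - 4 * P.e) * P.n ≤ P.r * S.card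
  full : ∀ s ∈ S, Full P c ω (1 / 100) (4 * P.t1) (Z s)
  cost : ∀ s ∈ S, (1 - P.e) * P.r * m - P.e * P.r * P.th ≤ Cost c ω P.lam (Z s)
  wray : ∀ s ∈ S, Wray c ω P.R 0 P.t1 P.T P.t1 (ρ s)
  above : ∀ s ∈ S, Above c ω P.r (ρ s) P.T (Z s)
  x0 : ∀ s ∈ S, ((ρ s).P c ω 0).re = -P.a - 10
  y0 : ∀ s ∈ S, |((ρ s).P c ω 0).im - (y0 + s * P.r)| ≤ 1 / 8

/-- a typical transversal through the square `k` of the row -/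
structure Trans (P : Pm) (c ω : ι → ℂ) (σ : Ry ι) (k : ℕ) (ρ : Ry ι) : Prop where
  wray : Wray c ω P.R P.w2 P.t1 (2 * P.T0) P.t1 ρ
  mid : ρ.J P.T0 = σ.J k
  v0 : |ρ.V P.T0| ≤ 1 / 8

/-- a straight transversal, a ray of `rt I d` -/
structure Base (P : Pm) (d ω : ι → ℂ) (ρ : Ry ι) : Prop where
  wray : Wray (rt I d) ω P.R 0 P.t1 (2 * P.T0) P.t1 ρ
  str : ∀ s < 2 * P.T0, ρ.g s ≤ P.vt → P.f0 / 2 ≤ |ρ.p ω s| →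
    |ρ.V (s + 1) - ρ.V s| ≤ P.La2 * ρ.g s
  px : |(ρ.P (rt I d) ω P.T0).re| ≤ P.a
  py : |(ρ.P (rt I d) ω P.T0).im| ≤ P.a + P.n / 9
  fr : ∀ s ≤ 2 * P.T0, 5 * s ≤ 4 * P.n ∨ 16 * P.n ≤ 5 * s → ω (ρ.J s) = 1

/-- the offset of the middles of two transversals -/
def Off (P : Pm) (c ω : ι → ℂ) (k k' : ℕ) (ρ ρ' : Ry ι) : Prop :=
  |(ρ.P c ω P.T0 - ρ'.P c ω P.T0).im - ((k' : ℝ) - k)| ≤ 2 * P.th1 * ((k' : ℝ) - k) + 1 / 2 ∧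
    |(ρ.P c ω P.T0 - ρ'.P c ω P.T0).re| ≤ 2 * P.th1 * ((k' : ℝ) - k) + 2

/-- a well separated family of transversals -/
structure Fam (P : Pm) (d ω : ι → ℂ) (Ks : Finset ℕ) (ρ : ℕ → Ry ι) : Prop where
  base : ∀ k ∈ Ks, Base P d ω (ρ k)
  le : ∀ k ∈ Ks, k ≤ P.T
  off : ∀ k ∈ Ks, ∀ k' ∈ Ks, k < k' → k + P.ell ≤ k' ∧ Off P (rt I d) ω k k' (ρ k) (ρ k')

/-- a short ray from the square `s` of sample `kb` towards sample `kt` -/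
structure Shot (P : Pm) (d ω : ι → ℂ) (Ks : Finset ℕ) (ρ : ℕ → Ry ι) (kb kt s : ℕ) (G : ℝ)
    (K : Ry ι) (T' Ts h : ℕ) : Prop where
  rng : P.Rng s
  G0 : 0 ≤ G
  G1 : 4 * G ≤ P.t2
  stop : Stop P d ω 0 P.t2 (StF P Ks ρ) P.T1 G T' K
  st : K.J 0 = (ρ kb).J s
  v0 : |K.V 0| ≤ 1 / 8
  lt : Ts < T'
  hor : Ts + 11 ≤ P.T1
  h1 : 2 * P.n ≤ 5 * h
  h2 : 5 * h ≤ 18 * P.n
  im : |(K.P d ω Ts - (ρ kt).Q d ω h).im| ≤ 3 / 5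
  re1 : -(21 / 5) ≤ (K.P d ω Ts - (ρ kt).Q d ω h).re
  re2 : (K.P d ω Ts - (ρ kt).Q d ω h).re ≤ -(12 / 5)
  far : ∀ k ∈ Ks, k ≠ kb → ∀ t ≤ Ts, ∀ j ≤ 2 * P.T0, 3 < ‖K.P d ω t - (ρ k).Q d ω j‖

/-- the usable and the good transversals of a row with tilts `p` -/
structure Samp (P : Pm) (d ω : ι → ℂ) (o k1 : ℕ) (U Gd : Finset ℕ) (p : ℕ → ℝ) (ρ : ℕ → Ry ι)
    (Mp Mm : ℕ → ℝ) : Prop where
  k1T : k1 ≤ P.T
  base : ∀ k ∈ U, Base P d ω (ρ k) ∧ Mb P ω (ρ k) (Mp k) (Mm k) ∧ k ≤ k1 ∧ k % P.r = o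
  off : ∀ k ∈ U, ∀ k' ∈ U, k < k' → Off P (rt I d) ω k k' (ρ k) (ρ k')
  cnt : (((Finset.range (k1 + 1)).filter (fun j => P.dl / 3 ≤ |p j|)).card : ℝ) ≤ P.NU
  tv : ∑ j ∈ Finset.range P.T, |p (j + 1) - p j| ≤ 2 * P.th1
  gd : ∀ k ∈ Gd, k ∈ U ∧ k + P.ell ∈ U ∧ 2 * P.dl ≤ |p k| ∧ |p k| ≤ 2 * P.th1 ∧
    (∀ j, k ≤ j → j ≤ k + P.ell → |p j - p k| ≤ P.dl) ∧
    (∃ z : ℤ, |(ρ (k + P.ell)).Dp P ω - (ρ k).Dp P ω - P.ell * p k - z| ≤ P.e * (P.ell * |p k|)) ∧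
    ∃ z : ℤ, |(ρ (k + P.ell)).Dm P ω - (ρ k).Dm P ω + P.ell * p k - z| ≤ P.e * (P.ell * |p k|)

end Pool.Agent.MP_c59ecb_co.sh

end MrgPart0

-- ======== part 1: formerly Pool.Agent.MP_c59ecb_co.sh.Spec
section MrgPart1

/-! Statements for the lower bound with the sharp constant. -/

set_option autoImplicit false

namespace Pool.Agent.MP_c59ecb_co.sh

open MeasureTheory Complex Pool.Agent.MP_c59ecb_co.h76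
open scoped ENNReal

/-! ### statements without squares -/

/-- choice of a height -/
def PickS : Prop :=
  ∀ (F F' : ℝ → ℝ≥0∞) (H H' : ℝ), 0 ≤ H → 0 ≤ H' → Lv F H → Lv F' H' →
    (∃ v : ℝ, |v| ≤ 1 / 8 ∧ F v ≤ ENNReal.ofReal (4 * H)) ∧
    (∃ v : ℝ, |v| ≤ 1 / 8 ∧ F v ≤ ENNReal.ofReal (4 * (H + H')) ∧
      F' v ≤ ENNReal.ofReal (4 * (H + H'))) ∧
    ∃ v : ℝ, |v| ≤ 1 / 8 ∧ F v ≤ ENNReal.ofReal (4 * (H + H')) ∧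
      F' (-v) ≤ ENNReal.ofReal (4 * (H + H'))

/-- elementary sums -/
structure SumS : Prop where
  cls : ∀ (L : ℕ) (S : Finset ℕ) (H : ℕ → ℝ) (cl : ℕ → ℕ), 0 < L → (∀ s ∈ S, cl s < L) →
    (∃ o < L, L * ∑ s ∈ S.filter (fun s => cl s = o), H s ≤ ∑ s ∈ S, H s) ∧
      ∃ o < L, ∑ s ∈ S, H s ≤ L * ∑ s ∈ S.filter (fun s => cl s = o), H s
  markov : ∀ (S : Finset ℕ) (H : ℕ → ℝ) (τ : ℝ), (∀ s ∈ S, 0 ≤ H s) →
    ((S.filter (fun s => τ < H s)).card : ℝ) * τ ≤ ∑ s ∈ S, H s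
  nbr : ∀ (S : Finset ℕ) (h : ℕ → ℕ) (g : ℕ → ℝ) (E N mult : ℕ), (∀ j, 0 ≤ g j) →
    (∀ j, (S.filter (fun s => h s = j)).card ≤ mult) →
    ∑ s ∈ S, ∑ j ∈ (Finset.Icc (h s - E) (h s + E)).filter (fun j => j ≤ N), g j ≤
      mult * (2 * E + 1) * ∑ j ∈ Finset.range (N + 1), g j
  win : ∀ (r o lo hi N E : ℕ) (W : Finset ℕ) (a g : ℕ → ℝ) (h : ℕ → ℕ) (κ α Γ Nb : ℝ), 0 < r →
    hi ≤ N → 0 ≤ κ → (∀ j ≤ N, 0 ≤ a j ∧ a j ≤ α) → (∀ j, 0 ≤ g j) →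
    (∀ j < N, |a (j + 1) - a j| ≤ κ * g j) → ∑ j ∈ Finset.range (N + 1), g j ≤ Γ →
    (∀ s ∈ W, lo + r ≤ s ∧ s ≤ hi ∧ s % r = o ∧ h s ≤ N ∧ h s ≤ s + E ∧ s ≤ h s + E) →
    (∀ B : Finset ℕ, (∀ j ∈ B, lo < j ∧ j ≤ hi ∧ a j ≠ 0 ∧ ∀ s ∈ W, ¬ (s < j + r ∧ j ≤ s)) →
      (B.card : ℝ) ≤ Nb) →
    |∑ j ∈ Finset.Ioc lo hi, a j - ∑ s ∈ W, r * a (h s)| ≤ κ * Γ * (2 * (E + r) + 1) + Nb * α
  amgm : ∀ (U Gd : Finset ℕ) (u : ℕ → ℕ) (Mt p : ℕ → ℝ) (r e z : ℝ), 0 ≤ r → 0 ≤ e → e ≤ 1 →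
    0 < z → (∀ k ∈ U, 0 < Mt k) → (∀ k ∈ Gd, u k ∈ U ∧ |p k| ≤ z ^ 2 / 2) → Set.InjOn u Gd →
    8 * (1 - e) ^ 2 * (∑ k ∈ Gd, r * p k ^ 2) / z ^ 3 ≤
      ∑ k ∈ U, (1 - e) * r * Mt k + (1 - e) ^ 3 * ∑ k ∈ Gd, 2 * r * |p k| / Mt (u k)

/-- summation along a chain of samples -/
def ChainS : Prop :=
  ∀ (N : ℕ) (act good : Finset ℕ) (A B Φ c er eD ΔD Ma Mb y : ℕ → ℝ) (e Φ0 tv μ0 μ1 : ℝ),
    0 ≤ e → e ≤ 1 / 10 → 0 < μ0 → good ⊆ act → act ⊆ Finset.range N →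
    (∀ i ≤ N, 0 ≤ Φ i ∧ Φ i ≤ Φ0) → (∀ i, |c i| ≤ 1) → (∀ i < N, i ∉ act → c i = 0) →
    ∑ i ∈ Finset.range (N - 1), |c (i + 1) - c i| ≤ tv →
    (∀ i ∈ act, 0 ≤ A i ∧ 0 ≤ B i ∧ 0 ≤ eD i ∧ |Φ i - Φ (i + 1) - (A i - B i)| ≤ er i) →
    (∀ i ∈ good, (c i = 1 ∨ c i = -1) ∧ ΔD i ≤ Ma i * A i + eD i ∧ -ΔD i ≤ Mb i * B i + eD i ∧
      μ0 ≤ Ma i ∧ Ma i ≤ μ1 ∧ μ0 ≤ Mb i ∧ Mb i ≤ μ1 ∧ 0 ≤ y i ∧ y i ≤ 1 / 10 ∧
      5 * y i * μ1 ≤ 2 * e * μ0 ∧ ∃ z : ℤ, |ΔD i + c i * y i - z| ≤ e * y i) →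
    ∑ i ∈ good, 2 * (1 - e) ^ 2 * y i / (if c i = 1 then Mb i else Ma i) - (tv + 2) * Φ0 -
      ∑ i ∈ act, er i - 2 * (∑ i ∈ act, eD i) / μ0 ≤ ∑ i ∈ act, (A i + B i)

/-- usable and good indices of the row -/
def CountS : Prop :=
  ∀ (P : Pm) (p g : ℕ → ℝ) (o : ℕ) (Ty : Finset ℕ), o < P.r → (∀ k, 0 ≤ g k) →
    ∑ k ∈ Finset.range (P.T + 1), g k ≤ P.th1 → (∀ k < P.T, |p (k + 1) - p k| ≤ 2 * g k) →
    (∀ k ≤ P.T, |p k| ≤ 2 * P.th1) → 2 - P.e ≤ ∑ k ∈ Finset.range (P.T + 1), p k ^ 2 →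
    ∑ k ∈ (Finset.range (P.T + 1)).filter (fun k => |p k| ≤ 3 * P.dl), p k ^ 2 ≤ P.e →
    (((Finset.range (P.T + 1)).filter (fun k => k % P.r = o ∧ k ∉ Ty)).card : ℝ) ≤
      100 * P.mn (-38) (-20) →
    ∃ (k1 : ℕ) (U Gd : Finset ℕ), k1 ≤ P.T ∧
      (∀ k ∈ U, k % P.r = o ∧ P.r ≤ k ∧ k ≤ k1 ∧ k ∈ Ty ∧ k - P.r ∈ Ty ∧
        ∑ j ∈ Finset.Icc (k - P.r) k, g j ≤ P.vs ∧ P.dl / 2 ≤ |p k|) ∧
      (P.r : ℝ) * U.card ≤ P.NU ∧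
      (((Finset.range (k1 + 1)).filter (fun j => P.dl / 3 ≤ |p j|)).card : ℝ) ≤ P.NU ∧
      (∀ k ∈ Gd, k ∈ U ∧ k + P.ell ∈ U ∧ ∑ j ∈ Finset.Icc k (k + P.ell), g j ≤ P.vt ∧
        2 * P.dl ≤ |p k|) ∧
      2 - 12 * P.e ≤ ∑ k ∈ Gd, P.r * p k ^ 2

/-- tilts of unit vectors -/
structure TiltS : Prop where
  lip : ∀ u v : ℂ, ‖u‖ = 1 → ‖v‖ = 1 → ‖u - 1‖ ≤ 1 / 100 → ‖v - 1‖ ≤ 1 / 100 →
    |tl u - tl v| ≤ 101 / 100 * ‖u - v‖ ∧ ‖u - v‖ ≤ |tl u - tl v|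
  one : ∀ u : ℂ, ‖u‖ = 1 → ‖u - 1‖ ≤ 1 / 100 →
    |tl u| ≤ 101 / 100 * ‖u - 1‖ ∧ ‖u - 1‖ ≤ |tl u| ∧ |u.im| ≤ |tl u| ∧
      |tl u - u.im| ≤ |tl u| ^ 3 ∧ 0 ≤ gh u ∧ gh u ≤ tl u ^ 2 / 2 ∧ 9999 / 10000 ≤ u.re
  mono : ∀ u v : ℂ, ‖u‖ = 1 → ‖v‖ = 1 → ‖u - 1‖ ≤ 1 / 100 → ‖v - 1‖ ≤ 1 / 100 →
    |tl v| ≤ |tl u| → gh v ≤ gh u ∧ gh u - gh v ≤ (tl u ^ 2 - tl v ^ 2) / 2
  half : ∀ (u v : ℂ) (τ : ℝ), ‖u‖ = 1 → ‖v‖ = 1 → ‖u - 1‖ ≤ τ → ‖v - 1‖ ≤ τ → τ ≤ 1 / 100 →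
    |1 / (2 * u.re) - 1 / (2 * v.re)| ≤ τ * ‖u - v‖

/-- contacts of almost parallel squares -/
structure LocS : Prop where
  negU : ∀ (κ : Type) (U W : κ → ℝ) (μ ϱ : ℝ), Lm U W μ ϱ → Lm (fun q => -U q) W μ ϱ
  negW : ∀ (κ : Type) (U W : κ → ℝ) (μ ϱ : ℝ), Lm U W μ ϱ → Lm U (fun q => -W q) μ ϱ
  swap : ∀ (κ : Type) (U W : κ → ℝ) (μ ϱ : ℝ), 0 ≤ μ → Lm U W μ ϱ → Lm W U μ ϱ
  hc : ∀ (κ : Type) (U W : κ → ℝ) (μ ϱ : ℝ) (A B : κ), 0 ≤ μ → μ ≤ 1 / 1000 → Lm U W μ ϱ →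
    Ins U W ϱ A → Ins U W ϱ B → |W B - W A| ≤ 4 / 5 → 1 / 5 ≤ U B - U A → U B - U A ≤ 8 / 5 →
    |U B - U A - 1| ≤ 10 * μ
  vc : ∀ (κ : Type) (U W : κ → ℝ) (μ ϱ : ℝ) (A B : κ), 0 ≤ μ → μ ≤ 1 / 1000 → Lm U W μ ϱ →
    Ins U W ϱ A → Ins U W ϱ B → |U B - U A| ≤ 4 / 5 → 1 / 5 ≤ W B - W A → W B - W A ≤ 8 / 5 →
    |W B - W A - 1| ≤ 10 * μ
  same : ∀ (κ : Type) (U W : κ → ℝ) (μ ϱ : ℝ) (A B : κ), 0 ≤ μ → μ ≤ 1 / 1000 → Lm U W μ ϱ →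
    Ins U W ϱ A → Ins U W ϱ B → |U B - U A| ≤ 4 / 5 → |W B - W A| ≤ 4 / 5 → A = B
  corner : ∀ (κ : Type) (U W : κ → ℝ) (μ ϱ : ℝ) (A A' B B' : κ), 0 ≤ μ → μ ≤ 1 / 1000 →
    Lm U W μ ϱ → Ins U W ϱ A → Ins U W ϱ A' → Ins U W ϱ B → Ins U W ϱ B' →
    |U A' - U A| ≤ 1 / 100 → |W B - W A| ≤ 11 / 20 → |W A' - W A - 1| ≤ 10 * μ →
    |W B' - W B - 1| ≤ 10 * μ → |U B - U A - 1| ≤ 10 * μ → |U B' - U A' - 1| ≤ 10 * μ →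
    |(U A' - U A) * (W B - W A)| ≤ 30 * μ ∧ (30 * μ < W B - W A → -(30 * μ) ≤ U A' - U A) ∧
      (W B - W A < -(30 * μ) → U A' - U A ≤ 30 * μ)

/-- the next column -/
def ColStepS : Prop :=
  ∀ (κ : Type) (U W : κ → ℝ) (μ δ s ϱ : ℝ) (m : ℕ) (A : ℕ → κ) (Q0 Q1 : κ), Lm U W μ ϱ →
    0 ≤ μ → 0 ≤ δ → 0 ≤ s → 10 ≤ m → 1000 * (m + 3) * (μ + s) ≤ 1 → δ ≤ 1 / 100 →
    2 * (m : ℝ) + 10 ≤ ϱ → U (A 0) = 0 → W (A 0) = 0 →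
    (∀ j < m, |U (A (j + 1)) - U (A j)| ≤ s ∧ |W (A (j + 1)) - W (A j) - 1| ≤ 1 / 10) →
    |U Q0 - U (A 0) - 1| ≤ δ → |W Q0 - W (A 0)| ≤ 1 + δ →
    |U Q1 - U (A m) - 1| ≤ δ → |W Q1 - W (A m)| ≤ 1 + δ →
    ∃ (m' : ℕ) (B : ℕ → κ) (e : ℤ) (b : ℝ), B 0 = Q0 ∧ B m' = Q1 ∧ |e| ≤ 1 ∧
      |(m' : ℤ) + e - m| ≤ 1 ∧ |b| ≤ 1 / 2 ∧
      (∀ i < m', |W (B (i + 1)) - W (B i) - 1| ≤ 10 * μ) ∧
      (∀ i j : ℕ, i ≤ m' → j ≤ m → (j : ℤ) = i + e →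
        |U (B i) - U (A j) - 1| ≤ 10 * μ ∧ |W (B i) - W (A j) - b| ≤ 20 * (m + 2) * μ) ∧
      ∀ i < m', |U (B (i + 1)) - U (B i)| ≤ 10 * μ + δ ∨
        ∃ j < m, |U (B (i + 1)) - U (B i) - (U (A (j + 1)) - U (A j))| ≤ 20 * μ

/-- paths that go down -/
structure PthS : Prop where
  geo : ∀ (η : ℝ) (T : ℕ) (Q : ℕ → ℂ) (a b : ℕ), Pth η T Q → a ≤ b → b ≤ T →
    |(Q b - Q a).re| ≤ η * (b - a) ∧ |(Q b - Q a).im + (b - a)| ≤ η * (b - a)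
  ivt : ∀ (η : ℝ) (T : ℕ) (Q : ℕ → ℂ) (y : ℝ), Pth η T Q → 0 ≤ η → (Q T).im ≤ y → y ≤ (Q 0).im →
    ∃ s ≤ T, |y - (Q s).im| ≤ (1 + η) / 2
  cross : ∀ (η σ : ℝ) (T : ℕ) (Q : ℕ → ℂ) (z z' : ℂ), Pth η T Q → 0 ≤ η → η ≤ 1 / 1000 →
    (σ = 1 ∨ σ = -1) → Side T Q σ z → ‖z' - z‖ ≤ 3 / 2 → (∀ s ≤ T, 3 < ‖z' - Q s‖) →
    (Q T).im ≤ z'.im → z'.im ≤ (Q 0).im → Side T Q σ z'

/-! ### statements about configurations -/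

variable {ι : Type} [Fintype ι] [DecidableEq ι]

/-- calm discs -/
structure CalmS (ω : ι → ℂ) : Prop where
  of_ds : ∀ (c : ι → ℂ) (i : ι) (ϱ μ : ℝ), 0 ≤ ϱ → ds c ω (ϱ + 1) i ≤ μ → μ ≤ 1 / 10 →
    ‖ω i - 1‖ ≤ 1 / 200 → (∀ p, ‖p - c i‖ ≤ ϱ + 5 → Cov c ω p) → Calm c ω i ϱ μ
  sum_ds : ∀ (c : ι → ℂ) (ϱ : ℝ), 0 ≤ ϱ →
    ∑ i, ds c ω ϱ i ≤ 2 * (2 * ϱ + 2) ^ 2 * ∑ i, bt c ω i + 2 * ∑ i, ov c ω i
  lm : ∀ (c : ι → ℂ) (i : ι) (ϱ ϱ' μ : ℝ), Calm c ω i ϱ' μ → 9 ≤ ϱ → 3 / 2 * ϱ ≤ ϱ' →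
    Lm (LU c ω i) (LW c ω i) μ ϱ

/-- launching rays -/
structure LaunchS (ω : ι → ℂ) : Prop where
  energy : ∀ (P : Pm) (c : ι → ℂ) (w : ℝ) (St : Finset ι) (T : ℕ), P.Fr c ω → 0 ≤ w →
    ∃ H : ι → ℝ, (∀ i, 0 ≤ H i) ∧ ∑ i ∈ St, H i ≤ P.E ∧ ∀ i ∈ St, Lv (P.FP c ω w St T i) (H i)
  launch : ∀ (P : Pm) (c : ι → ℂ) (w G τ v : ℝ) (St : Finset ι) (T : ℕ) (i : ι), P.Fr c ω →
    0 ≤ w → 1 ≤ T → 0 ≤ G → ‖ω i - 1‖ + 2 * G ≤ τ → τ ≤ P.t2 → |v| ≤ 1 / 2 →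
    |(ex c ω i v).im| ≤ P.a + 5 / 2 * P.n → -P.a - 5 / 2 * P.n ≤ (ex c ω i v).re →
    (ex c ω i v).re + T ≤ P.a + 5 / 2 * P.n → P.FP c ω w St T i v ≤ ENNReal.ofReal G →
    ∃ (T' : ℕ) (ρ : Ry ι), ρ.J 0 = i ∧ ρ.V 0 = v ∧ Stop P c ω w τ St T G T' ρ

/-- operations on rays and their geometry -/
structure WS (ω : ι → ℂ) : Prop where
  rev : ∀ (c : ι → ℂ) (R w τ G : ℝ) (T : ℕ) (ρ : Ry ι), Wray c ω R w τ T G ρ →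
    Wray (rt (-1) c) ω R w τ T G (ρ.rev T)
  revP : ∀ (c : ι → ℂ) (T k : ℕ) (ρ : Ry ι),
    (ρ.rev T).P (rt (-1) c) ω k = -ρ.P c ω (T - k) + ω (ρ.J (T - k))
  cat : ∀ (c : ι → ℂ) (R w τ G G' : ℝ) (T T' : ℕ) (ρ ρ' : Ry ι), Wray c ω R w τ T G ρ →
    Wray c ω R w τ T' G' ρ' → ρ.J T = ρ'.J 0 → ρ.V T = ρ'.V 0 →
    ∃ ρ'' : Ry ι, Wray c ω R w τ (T + T') (G + G') ρ'' ∧
      (∀ k ≤ T, ρ''.J k = ρ.J k ∧ ρ''.V k = ρ.V k) ∧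
      ∀ k, ρ''.J (T + k) = ρ'.J k ∧ ρ''.V (T + k) = ρ'.V k
  snoc : ∀ (P : Pm) (c : ι → ℂ) (w τ G γ : ℝ) (St : Finset ι) (T T' : ℕ) (ρ : Ry ι),
    Stop P c ω w τ St T G T' ρ → 0 ≤ γ → Calm c ω (ρ.J (T' + 1)) 15 γ →
    Calm c ω (ρ.J (T' + 1)) P.R (P.R ^ 2 * γ) →
    ∃ g' : ℕ → ℝ, Wray c ω P.R 0 τ (T' + 1) (8 * G + γ) ⟨ρ.J, ρ.V, g'⟩
  ang : ∀ (c : ι → ℂ) (R w τ G : ℝ) (T : ℕ) (ρ : Ry ι) (a b : ℕ), Wray c ω R w τ T G ρ →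
    a ≤ b → b ≤ T → ‖ω (ρ.J b) - ω (ρ.J a)‖ ≤ ∑ k ∈ Finset.Ico a b, ρ.g k
  pos : ∀ (c : ι → ℂ) (R w τ G : ℝ) (T : ℕ) (ρ : Ry ι) (a b : ℕ), Wray c ω R w τ T G ρ →
    a ≤ b → b ≤ T →
    ‖ρ.P c ω b - ρ.P c ω a - ∑ j ∈ Finset.Ioc a b, ω (ρ.J j)‖ ≤ ∑ k ∈ Finset.Ico a b, ρ.g k
  geo : ∀ (c : ι → ℂ) (R w τ G : ℝ) (T : ℕ) (ρ : Ry ι) (a b : ℕ), Wray c ω R w τ T G ρ →
    a ≤ b → b ≤ T → ((b : ℝ) - a) * (1 - τ ^ 2) - G ≤ (ρ.P c ω b - ρ.P c ω a).re ∧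
      (ρ.P c ω b - ρ.P c ω a).re ≤ b - a + G ∧ |(ρ.P c ω b - ρ.P c ω a).im| ≤ τ * (b - a) + G
  cen : ∀ (c : ι → ℂ) (i : ι) (v τ : ℝ), ‖ω i - 1‖ ≤ τ → |v| ≤ 1 / 2 →
    |(c i - ex c ω i v).re + 1 / 2| ≤ τ ∧ |(c i - ex c ω i v).im + v| ≤ τ ∧
      ‖c i - ex c ω i v‖ ≤ 3 / 4
  inj : ∀ (c : ι → ℂ) (R w τ G : ℝ) (T : ℕ) (ρ : Ry ι) (a b : ℕ), Wray c ω R w τ T G ρ →
    τ ≤ 1 / 100 → G ≤ 1 / 100 → a ≤ T → b ≤ T → ρ.J a = ρ.J b → a = b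
  pair : ∀ (c : ι → ℂ) (R R' w w' τ G G' : ℝ) (T T' : ℕ) (ρ ρ' : Ry ι) (t t' s s' : ℕ),
    Wray c ω R w τ T G ρ → Wray c ω R' w' τ T' G' ρ' → τ ≤ 1 / 100 → τ * R ^ 2 ≤ 1 →
    R ^ 2 * G + G + G' ≤ 1 / 2 → t ≤ T → t' ≤ T' → s ≤ T → s' ≤ T' → s + t' = s' + t →
    ‖ρ'.P c ω t' - ρ.P c ω t‖ ≤ R - 4 →
    ‖ρ'.P c ω s' - ρ.P c ω s - (ρ'.P c ω t' - ρ.P c ω t)‖ ≤ R ^ 2 * G + G + G' ∧
      |(ρ'.P c ω s' - ρ.P c ω s).re - (ρ'.P c ω t' - ρ.P c ω t).re| ≤ 2 * G + G'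

/-- geometry of columns -/
structure ColS (ω : ι → ℂ) : Prop where
  geo : ∀ (c : ι → ℂ) (η s : ℝ) (m : ℕ) (A : ℕ → ι) (a b : ℕ), Col c ω η s m A → η ≤ 1 / 100 →
    a ≤ b → b ≤ m → |(c (A b)).re - (c (A a)).re| ≤ (b - a) * (s + 2 * η) ∧
      |(c (A b)).im - (c (A a)).im - (b - a)| ≤ (b - a) * η
  frame : ∀ (c : ι → ℂ) (O i j : ι) (μ : ℝ), ‖ω O - 1‖ ≤ 1 / 100 → ‖ω i - 1‖ ≤ 1 / 100 →
    ‖ω j - 1‖ ≤ 1 / 100 → ‖ω i - ω O‖ ≤ μ → ‖ω j - ω O‖ ≤ μ → |(c j).im - (c i).im| ≤ 2 →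
    |slip c ω i j - (LU c ω O j - LU c ω O i) / (ω O).re| ≤ 3 * μ
  coord : ∀ (c : ι → ℂ) (O i j : ι) (τ : ℝ), ‖ω O - 1‖ ≤ τ →
    |LU c ω O j - LU c ω O i - ((c j).re - (c i).re)| ≤ τ * ‖c j - c i‖ ∧
      |LW c ω O j - LW c ω O i - ((c j).im - (c i).im)| ≤ τ * ‖c j - c i‖
  approx : ∀ (c : ι → ℂ) (η s o v v' : ℝ) (m : ℕ) (A : ℕ → ι) (ζ : ℂ), Col c ω η s m A →
    η ≤ 1 / 100 → ‖ζ‖ = 1 → ‖ζ - 1‖ ≤ 1 / 100 → (∀ j ≤ m, ‖ω (A j) - ζ‖ ≤ o) → |v| ≤ 1 / 2 →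
    |v'| ≤ 1 / 2 → |SS c ω m A - (ex c ω (A m) v' - ex c ω (A 0) v).re -
      tl ζ * (ex c ω (A m) v' - ex c ω (A 0) v).im| ≤ 2 * (m + 2) * o
  inn : ∀ (c : ι → ℂ) (r : ℕ) (lam η τ G : ℝ) (T : ℕ) (ρ ρ' : Ry ι) (m : ℕ → ℕ)
    (A : ℕ → ℕ → ι) (t j : ℕ), TP r lam η τ G → Tube c ω r η T ρ ρ' m A → t ≤ T →
    |ρ.V t| ≤ 1 / 2 → |ρ'.V t| ≤ 1 / 2 → j ≤ m t → ‖c (A t j) - c (ρ.J t)‖ ≤ r + 2 ∧
      |(c (A t j) - ρ.P c ω t).re + 1 / 2| ≤ 1 / 100 ∧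
      (0 < j → 49 / 100 ≤ (c (A t j) - ρ.P c ω t).im) ∧
      (j < m t → 49 / 100 ≤ (ρ'.P c ω t - c (A t j)).im)

/-- existence of the tube through a given column -/
def TubeS (ω : ι → ℂ) : Prop :=
  ∀ (c : ι → ℂ) (r : ℕ) (lam η τ w w' G G' : ℝ) (T t0 m0 : ℕ) (ρ ρ' : Ry ι) (A0 : ℕ → ι),
    TP r lam η τ (G + G') → Wray c ω (10 * r) w τ T G ρ → Wray c ω (10 * r) w' τ T G' ρ' →
    t0 ≤ T → |(ρ'.P c ω t0 - ρ.P c ω t0).im - r| ≤ 3 / 10 → Col c ω η (η / 2) m0 A0 →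
    A0 0 = ρ.J t0 → A0 m0 = ρ'.J t0 →
    ∃ (m : ℕ → ℕ) (A : ℕ → ℕ → ι), Tube c ω r η T ρ ρ' m A ∧ m t0 = m0 ∧ A t0 = A0 ∧
      (∀ t ≤ T, |(ρ'.P c ω t - ρ.P c ω t).im - r| ≤ 1 / 3 ∧
        ‖ρ'.P c ω t - ρ.P c ω t - (ρ'.P c ω t0 - ρ.P c ω t0)‖ ≤ (10 * r) ^ 2 * G + G + G' ∧
        |(ρ'.P c ω t - ρ.P c ω t).re - (ρ'.P c ω t0 - ρ.P c ω t0).re| ≤ 2 * G + G') ∧
      ∀ T' ≤ T, Above c ω r ρ T' (Inn T' m A)

/-- the sharp cost -/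
structure CostS (ω : ι → ℂ) : Prop where
  add : ∀ (c : ι → ℂ) (lam : ℝ) (A B : Finset ι), Disjoint A B →
    Cost c ω lam A + Cost c ω lam B ≤ Cost c ω lam (A ∪ B)
  sum : ∀ (c : ι → ℂ) (lam : ℝ) (κ : Type) (S : Finset κ) (Z : κ → Finset ι),
    (∀ a ∈ S, ∀ b ∈ S, a ≠ b → Disjoint (Z a) (Z b)) →
    ∑ a ∈ S, Cost c ω lam (Z a) ≤ Cost c ω lam (S.biUnion Z)
  mono : ∀ (c : ι → ℂ) (lam : ℝ) (A B : Finset ι), A ⊆ B → Cost c ω lam A ≤ Cost c ω lam B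
  neg : ∀ (c : ι → ℂ) (lam : ℝ) (A : Finset ι), Cost (rt (-1) c) ω lam A = Cost c ω lam A
  master : ∀ (c : ι → ℂ) (lam W : ℝ), 0 < lam → lam ≤ 1 / 1000 → 0 ≤ W →
    volume (Mu c ω) ≤ ENNReal.ofReal W →
    Cost c ω lam Finset.univ + Cost (rt I c) ω lam Finset.univ ≤ W

/-- the overlap of two neighbours -/
structure PieceS (ω : ι → ℂ) : Prop where
  piece : ∀ (c : ι → ℂ) (O i j : ι) (ϱ μ lam y1 y2 : ℝ), Calm c ω O ϱ μ → 0 < lam →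
    lam ≤ 1 / 1000 → μ ≤ lam ^ 4 / 1000 → ‖c i - c O‖ ≤ ϱ - 3 → ‖c j - c O‖ ≤ ϱ - 3 →
    ‖ω i - 1‖ ≤ lam ^ 4 / 1000 → ‖ω j - 1‖ ≤ lam ^ 4 / 1000 →
    |(c j).re - (c i).re - 1| ≤ lam ^ 4 → y1 ≤ y2 →
    |y1 - (c i).im| ≤ 1 / 2 - lam ^ 2 → |y2 - (c i).im| ≤ 1 / 2 - lam ^ 2 →
    |y1 - (c j).im| ≤ 1 / 2 - lam ^ 2 → |y2 - (c j).im| ≤ 1 / 2 - lam ^ 2 →
    0 ≤ dd c ω i j y1 ∧ 0 ≤ dd c ω i j y2 ∧
      (y2 - y1) * (dd c ω i j y1 + dd c ω i j y2) / 2 ≤ AH c ω lam i j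
  vert : ∀ (c : ι → ℂ) (O i j : ι) (ϱ μ lam : ℝ), Calm c ω O ϱ μ → 0 < lam →
    lam ≤ 1 / 1000 → μ ≤ lam ^ 4 / 1000 → ‖c i - c O‖ ≤ ϱ - 3 → ‖c j - c O‖ ≤ ϱ - 3 →
    ‖ω i - 1‖ ≤ lam ^ 4 / 1000 → ‖ω j - 1‖ ≤ lam ^ 4 / 1000 →
    |(c j).re - (c i).re| ≤ lam ^ 4 → |(c j).im - (c i).im - 1| ≤ lam ^ 4 →
    |tl (ω j) - tl (ω i)| ≤ 21 / 10 * AH (rt I c) ω lam j i

/-- the change of the total slip in one step of a tube -/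
def StepS (ω : ι → ℂ) : Prop :=
  ∀ (c : ι → ℂ) (r : ℕ) (lam η τ w w' G G' : ℝ) (T t : ℕ) (ρ ρ' : Ry ι) (m : ℕ → ℕ)
    (A : ℕ → ℕ → ι), TP r lam η τ (G + G') → Wray c ω (10 * r) w τ T G ρ →
    Wray c ω (10 * r) w' τ T G' ρ' → Tube c ω r η T ρ ρ' m A → t < T →
    |(|SS c ω (m (t + 1)) (A (t + 1))| - |SS c ω (m t) (A t)|)| ≤
      2 * (1 + 10 * lam) * CC c ω lam (Mid (m t) (A t)) (Mid (m (t + 1)) (A (t + 1))) +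
        10 ^ 4 * (ρ.g t + ρ'.g t)

/-- the variation of the total slip along a tube -/
def TVS (ω : ι → ℂ) : Prop :=
  ∀ (c : ι → ℂ) (r : ℕ) (lam η τ w w' G G' : ℝ) (T T' t1 t2 t3 : ℕ) (ρ ρ' : Ry ι) (m : ℕ → ℕ)
    (A : ℕ → ℕ → ι), TP r lam η τ (G + G') → Wray c ω (10 * r) w τ T G ρ →
    Wray c ω (10 * r) w' τ T G' ρ' → Tube c ω r η T ρ ρ' m A → t1 ≤ t2 → t2 ≤ t3 → t3 ≤ T' →
    T' ≤ T →
    |(|SS c ω (m t1) (A t1)| - |SS c ω (m 0) (A 0)|)| +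
      |(|SS c ω (m t2) (A t2)| - |SS c ω (m t1) (A t1)|)| +
      |(|SS c ω (m t3) (A t3)| - |SS c ω (m t2) (A t2)|)| +
      |(|SS c ω (m T') (A T')| - |SS c ω (m t3) (A t3)|)| ≤
      2 * (1 + 10 * lam) * Cost c ω lam (Inn T' m A) + 10 ^ 4 * (G + G')

/-- a tilted lower ray of a tube is straight -/
def StraightS (ω : ι → ℂ) : Prop :=
  ∀ (c : ι → ℂ) (r : ℕ) (lam η τ w w' G G' X φ : ℝ) (T t : ℕ) (ρ ρ' : Ry ι) (m : ℕ → ℕ)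
    (A : ℕ → ℕ → ι), TP r lam η τ (G + G') → Wray c ω (10 * r) w τ T G ρ →
    Wray c ω (10 * r) w' τ T G' ρ' → Tube c ω r η T ρ ρ' m A → t < T →
    |(ρ'.P c ω t - ρ.P c ω t).re| ≤ X → 0 < φ → φ ≤ |ρ.p ω t| →
    X + 100 * (G + G') ≤ φ * r / 10 → 10 ^ 5 * (r : ℝ) ^ 2 * ρ.g t ≤ φ → ρ.g t < w →
    10 ^ 6 * (r : ℝ) ^ 2 * w ≤ φ → r * φ ≤ 1 →
    φ * |ρ.V (t + 1) - ρ.V t| ≤ 10 ^ 6 * (r : ℝ) ^ 2 * ρ.g t

/-- rays of `rt I d` as vertical paths of `d` -/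
structure PathS (ω : ι → ℂ) : Prop where
  pth : ∀ (d : ι → ℂ) (R w τ G : ℝ) (T : ℕ) (ρ : Ry ι), Wray (rt I d) ω R w τ T G ρ →
    Pth (τ + G) T (ρ.Q d ω)
  cen : ∀ (d : ι → ℂ) (R w τ G : ℝ) (T s : ℕ) (ρ : Ry ι), Wray (rt I d) ω R w τ T G ρ → s ≤ T →
    |(d (ρ.J s) - ρ.Q d ω s).re + ρ.V s| ≤ τ ∧ |(d (ρ.J s) - ρ.Q d ω s).im - 1 / 2| ≤ τ
  start : ∀ (d : ι → ℂ) (R w τ G v : ℝ) (T s : ℕ) (ρ : Ry ι), Wray (rt I d) ω R w τ T G ρ →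
    s ≤ T → |v| ≤ 1 / 8 → |(ex d ω (ρ.J s) v - ρ.Q d ω s).re - (1 / 2 - ρ.V s)| ≤ 2 * τ ∧
      |(ex d ω (ρ.J s) v - ρ.Q d ω s).im - (1 / 2 + v)| ≤ 2 * τ
  wincol : ∀ (d : ι → ℂ) (R w τ G Λ γ η s0 : ℝ) (T s m : ℕ) (ρ : Ry ι),
    Wray (rt I d) ω R w τ T G ρ → τ ≤ 1 / 100 → G ≤ 1 / 100 → m ≤ s → s ≤ T → 0 ≤ Λ →
    (∀ k, s - m ≤ k → k < s → |ρ.V (k + 1) - ρ.V k| ≤ Λ * ρ.g k) →
    ∑ k ∈ Finset.Ico (s - m) s, ρ.g k ≤ γ → (2 * Λ + 5) * γ ≤ s0 → 2 * τ + 3 * G ≤ η →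
    Col d ω η s0 m (fun j => ρ.J (s - j)) ∧ SA d ω m (fun j => ρ.J (s - j)) ≤ (2 * Λ + 5) * γ
  nomeet : ∀ (P : Pm) (d : ι → ℂ) (R w τ G w' τ' G' : ℝ) (St : Finset ι) (T T1 T' s : ℕ)
    (ρ K : Ry ι), Wray (rt I d) ω R w τ T G ρ → Stop P d ω w' τ' St T1 G' T' K →
    τ + G ≤ 1 / 1000 → τ' + 4 * G' ≤ 1 / 1000 → s ≤ T → K.J 0 = ρ.J s → |K.V 0| ≤ 1 / 8 →
    ∀ t, 0 < t → t ≤ T' + 1 → ∀ h ≤ T, K.J t ≠ ρ.J h
  startgeo : ∀ (d : ι → ℂ) (R w τ G R' w' τ' G' η v Y : ℝ) (T T' s s' t : ℕ) (ρ K : Ry ι),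
    Wray (rt I d) ω R w τ T G ρ → Wray d ω R' w' τ' T' G' K → τ + G ≤ η → τ' + G' ≤ η →
    η ≤ 1 / 1000 → s ≤ T → s' ≤ T → t ≤ T' → K.J 0 = ρ.J s' → |K.V 0| ≤ 1 / 8 → |v| ≤ 1 / 8 →
    |(K.P d ω t - ex d ω (ρ.J s) v).re| ≤ 2 → |(K.P d ω t - ex d ω (ρ.J s) v).im| ≤ Y →
    |(s : ℝ) - s'| * (1 - 2 * η) ≤ Y + 1 / 4 + 8 * η
  sep : ∀ (c : ι → ℂ) (R R' w w' τ G G' : ℝ) (T0 : ℕ) (ρ ρ' : Ry ι),
    Wray c ω R w τ (2 * T0) G ρ → Wray c ω R' w' τ (2 * T0) G' ρ' → 10 ≤ R → τ * R ^ 2 ≤ 1 →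
    R ^ 2 * G + G + G' ≤ 1 / 2 → τ + G ≤ 1 / 1000 → τ + G' ≤ 1 / 1000 →
    2 * R ≤ |(ρ'.P c ω T0 - ρ.P c ω T0).im| → |(ρ'.P c ω T0 - ρ.P c ω T0).im| ≤ T0 →
    10 * |(ρ'.P c ω T0 - ρ.P c ω T0).re| ≤ |(ρ'.P c ω T0 - ρ.P c ω T0).im| →
    ∀ s ≤ 2 * T0, ∀ s' ≤ 2 * T0, R - 4 < ‖ρ'.P c ω s' - ρ.P c ω s‖

/-- a ray stops on a column of stopping squares -/
def HitS (ω : ι → ℂ) : Prop :=
  ∀ (P : Pm) (d : ι → ℂ) (w τ G η s : ℝ) (St : Finset ι) (T T' m t j0 : ℕ) (K : Ry ι)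
    (C : ℕ → ι), Stop P d ω w τ St T G T' K → τ + 4 * G ≤ 1 / 1000 → Col d ω η s m C →
    η ≤ 1 / 1000 → s ≤ 1 / 1000 → (∀ j ≤ m, C j ∈ St) → t ≤ T' → t + 10 ≤ T → 3 ≤ j0 →
    j0 + 3 ≤ m → -7 ≤ (K.P d ω t - d (C j0)).re → (K.P d ω t - d (C j0)).re ≤ -(11 / 20) →
    |(K.P d ω t - d (C j0)).im| ≤ 3 / 2 →
    (∀ i ∈ St, ‖d i - d (C j0)‖ ≤ 12 → ∃ j ≤ m, i = C j) →
    T' + 1 ≤ t + 9 ∧ ∃ j ≤ m, K.J (T' + 1) = C j ∧ j ≤ j0 + 3 ∧ j0 ≤ j + 3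

/-- the samples keep their order -/
structure SideS (ω : ι → ℂ) : Prop where
  far : ∀ (P : Pm) (d : ι → ℂ) (Ks : Finset ℕ) (ρ : ℕ → Ry ι) (k k' : ℕ), Fam P d ω Ks ρ →
    k ∈ Ks → k' ∈ Ks → k ≠ k' → ∀ j ≤ 2 * P.T0, ∀ s ≤ 2 * P.T0,
      P.R - 4 < ‖(ρ k').Q d ω j - (ρ k).Q d ω s‖
  side : ∀ (P : Pm) (d : ι → ℂ) (Ks : Finset ℕ) (ρ : ℕ → Ry ι) (k k' j : ℕ), Fam P d ω Ks ρ →
    k ∈ Ks → k' ∈ Ks → k ≠ k' → P.n ≤ 5 * j → 5 * j ≤ 19 * P.n →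
    ∃ s ≤ 2 * P.T0, |((ρ k').Q d ω j - (ρ k).Q d ω s).im| ≤ 3 / 5 ∧
      P.R - 5 ≤ (if k' < k then 1 else -1) * ((ρ k').Q d ω j - (ρ k).Q d ω s).re

/-- existence of the short rays -/
def ShotS (ω : ι → ℂ) : Prop :=
  ∀ (P : Pm) (d : ι → ℂ) (Ks : Finset ℕ) (ρ : ℕ → Ry ι) (kb kt s : ℕ) (H : ℝ), P.Fr d ω →
    Fam P d ω Ks ρ → kb ∈ Ks → kt ∈ Ks → kt < kb → (∀ k ∈ Ks, ¬ (kt < k ∧ k < kb)) →
    (kb : ℝ) - kt ≤ P.NU → P.Rng s → 0 ≤ H → 16 * H ≤ P.t2 →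
    Lv (P.FP d ω 0 (StF P Ks ρ) P.T1 ((ρ kb).J s)) H →
    ∃ (K : Ry ι) (T' Ts h : ℕ), Shot P d ω Ks ρ kb kt s (4 * H) K T' Ts h

/-- separation of short rays -/
structure DisjS (ω : ι → ℂ) : Prop where
  inj : ∀ (P : Pm) (d : ι → ℂ) (Ks : Finset ℕ) (ρ : ℕ → Ry ι) (kb kt s s' : ℕ) (G G' : ℝ)
    (K K' : Ry ι) (T1 T2 Ts Ts' h : ℕ), Fam P d ω Ks ρ → kb ∈ Ks →
    Shot P d ω Ks ρ kb kt s G K T1 Ts h → Shot P d ω Ks ρ kb kt s' G' K' T2 Ts' h →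
    s % P.r = s' % P.r → s = s'
  disj : ∀ (P : Pm) (d : ι → ℂ) (Ks : Finset ℕ) (ρ : ℕ → Ry ι) (kb kt kb' kt' s s' : ℕ)
    (G G' : ℝ) (K K' : Ry ι) (T1 T2 Ts Ts' h h' : ℕ) (Z Z' : Finset ι), Fam P d ω Ks ρ →
    kb ∈ Ks → kb' ∈ Ks → Shot P d ω Ks ρ kb kt s G K T1 Ts h →
    Shot P d ω Ks ρ kb' kt' s' G' K' T2 Ts' h' → (kb = kb' → s % P.r = s' % P.r ∧ s ≠ s') →
    Above d ω P.r K Ts Z → Above d ω P.r K' Ts' Z' → Disjoint Z Z'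
  jinj : ∀ (P : Pm) (d : ι → ℂ) (Ks : Finset ℕ) (ρ : ℕ → Ry ι) (k k' s s' : ℕ), Fam P d ω Ks ρ →
    k ∈ Ks → k' ∈ Ks → s ≤ 2 * P.T0 → s' ≤ 2 * P.T0 → (ρ k).J s = (ρ k').J s' → k = k' ∧ s = s'

/-- one window between two samples -/
def WinS (ω : ι → ℂ) : Prop :=
  ∀ (P : Pm) (d : ι → ℂ) (Ks : Finset ℕ) (ρ : ℕ → Ry ι) (kb kt s : ℕ) (G G' γ : ℝ)
    (K K' : Ry ι) (T1 T2 Ts Ts' h h' hw : ℕ), Fam P d ω Ks ρ → kb ∈ Ks → kt ∈ Ks →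
    kt < kb → P.r ≤ s → Shot P d ω Ks ρ kb kt s G K T1 Ts h →
    Shot P d ω Ks ρ kb kt (s - P.r) G' K' T2 Ts' h' → hw = (if Ts ≤ Ts' then h else h') →
    ∑ j ∈ Finset.Icc (s - 4 * P.r) (s + 4 * P.r), (ρ kb).g j +
      ∑ j ∈ Finset.Icc (hw - 4 * P.r) (hw + 4 * P.r), (ρ kt).g j ≤ γ → γ ≤ P.vt →
    ∃ (A B : ℝ) (Z : Finset ι), 0 ≤ A ∧ 0 ≤ B ∧ Above d ω P.r K Ts Z ∧ High P d ω Z ∧
      (1 - P.e) * (A + B) - 10 ^ 6 * (G + G' + P.La2 * γ) ≤ Cost d ω P.lam Z ∧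
      |P.r * (pp P.f0 ((ρ kt).p ω hw) / 2) - P.r * (pp P.f0 ((ρ kb).p ω s) / 2) - (A - B)| ≤
        10 ^ 6 * (G + G' + P.La2 * γ) ∧
      P.r * gh (ω ((ρ kt).J hw)) - P.r * gh (ω ((ρ kb).J s)) ≤ (|(ρ kt).p ω hw| + P.f0) * A +
        2 * P.t1 * (10 ^ 6 * (G + G' + P.La2 * γ)) + 10 * P.r * P.f0 * (G + G' + γ) ∧
      P.r * gh (ω ((ρ kb).J s)) - P.r * gh (ω ((ρ kt).J hw)) ≤ (|(ρ kb).p ω s| + P.f0) * B +
        2 * P.t1 * (10 ^ 6 * (G + G' + P.La2 * γ)) + 10 * P.r * P.f0 * (G + G' + γ)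

/-- the short rays are almost horizontal -/
def BootS (ω : ι → ℂ) : Prop :=
  ∀ (P : Pm) (d : ι → ℂ) (Ks : Finset ℕ) (ρ : ℕ → Ry ι) (kb kt o : ℕ) (Ty : Finset ℕ)
    (G : ℕ → ℝ) (K : ℕ → Ry ι) (T' Ts h : ℕ → ℕ) (H Nn : ℝ), Fam P d ω Ks ρ → kb ∈ Ks →
    kt ∈ Ks → kt < kb → o < P.r →
    (∀ s ∈ Ty, s % P.r = o ∧ Shot P d ω Ks ρ kb kt s (G s) (K s) (T' s) (Ts s) (h s)) →
    ∑ s ∈ Ty, G s ≤ H →
    (∀ B : Finset ℕ, (∀ s ∈ B, s % P.r = o ∧ P.Rng s ∧ s ∉ Ty) → (B.card : ℝ) ≤ Nn) →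
    ∀ s ∈ Ty, |(h s : ℝ) - s| ≤
      30 + 10 * P.t2 * ((kb : ℝ) - kt + 4 * P.r * H + 2 * P.t1 * P.r * Nn + 7 * P.r * P.t1)

/-- the error of one pair of samples -/
noncomputable def Pm.er (P : Pm) (Ei Λ : ℝ) : ℝ :=
  P.mn (-26) 0 * Ei + P.mn 0 9 * Λ + P.mn 0 (-2)

/-- all windows between two consecutive samples -/
def PairS (ω : ι → ℂ) : Prop :=
  ∀ (P : Pm) (d : ι → ℂ) (Ks : Finset ℕ) (ρ : ℕ → Ry ι) (kb kt : ℕ) (H : ι → ℝ)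
    (Ei Mpb Mmb Mpt Mmt : ℝ), P.Fr d ω → Fam P d ω Ks ρ → kb ∈ Ks → kt ∈ Ks → kt < kb →
    (∀ k ∈ Ks, ¬ (kt < k ∧ k < kb)) → (kb : ℝ) - kt ≤ P.NU → (∀ i, 0 ≤ H i) →
    (∀ i ∈ StF P Ks ρ, Lv (P.FP d ω 0 (StF P Ks ρ) P.T1 i) (H i)) →
    ∑ s ∈ Finset.range (2 * P.T0 + 1), H ((ρ kb).J s) ≤ Ei →
    Mb P ω (ρ kb) Mpb Mmb → Mb P ω (ρ kt) Mpt Mmt →
    ∃ (W : Finset ℕ) (Z : ℕ → Finset ι) (o : ℕ) (Ap Bp Am Bm : ℝ),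
      0 ≤ Ap ∧ 0 ≤ Bp ∧ 0 ≤ Am ∧ 0 ≤ Bm ∧
      (∀ s ∈ W, s % P.r = o ∧ High P d ω (Z s) ∧ ∃ (G : ℝ) (K : Ry ι) (T' Ts h : ℕ),
        Shot P d ω Ks ρ kb kt s G K T' Ts h ∧ Above d ω P.r K Ts (Z s)) ∧
      (1 - P.e) * (Ap + Bp + Am + Bm) - P.er Ei (kb - kt) ≤ ∑ s ∈ W, Cost d ω P.lam (Z s) ∧
      |(ρ kt).Fp P ω - (ρ kb).Fp P ω - (Ap - Bp)| ≤ P.er Ei (kb - kt) ∧
      |(ρ kt).Fm P ω - (ρ kb).Fm P ω - (Am - Bm)| ≤ P.er Ei (kb - kt) ∧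
      (ρ kt).Dp P ω - (ρ kb).Dp P ω ≤
        (Mpt + P.f0) * Ap + (4 * P.t1 * P.er Ei (kb - kt) + 100 * P.f0 * Ei) ∧
      (ρ kb).Dp P ω - (ρ kt).Dp P ω ≤
        (Mpb + P.f0) * Bp + (4 * P.t1 * P.er Ei (kb - kt) + 100 * P.f0 * Ei) ∧
      (ρ kt).Dm P ω - (ρ kb).Dm P ω ≤
        (Mmt + P.f0) * Am + (4 * P.t1 * P.er Ei (kb - kt) + 100 * P.f0 * Ei) ∧
      (ρ kb).Dm P ω - (ρ kt).Dm P ω ≤
        (Mmb + P.f0) * Bm + (4 * P.t1 * P.er Ei (kb - kt) + 100 * P.f0 * Ei)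

/-- the potential of a transversal is small -/
def CapS (ω : ι → ℂ) : Prop :=
  ∀ (P : Pm) (d : ι → ℂ) (ρ : Ry ι), P.Fr d ω → Base P d ω ρ →
    ρ.Fp P ω ≤ P.mn (-20) (-15) ∧ ρ.Fm P ω ≤ P.mn (-20) (-15)

/-- most rows are typical -/
def RowsS (ω : ι → ℂ) : Prop :=
  ∀ (P : Pm) (c : ι → ℂ), P.Fr c ω → ∃ (o : ℕ) (S : Finset ℕ) (ρ : ℕ → Ry ι),
    (1 - 4 * P.e) * P.n ≤ P.r * S.card ∧
      ∀ s ∈ S, Row P c ω (o + s * P.r) (ρ s) ∧ Row P c ω (o + s * P.r + P.r) (ρ (s + 1))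

/-- the tube between two rows -/
def RowTubeS (ω : ι → ℂ) : Prop :=
  ∀ (P : Pm) (c : ι → ℂ) (j : ℕ) (ρ ρ' : Ry ι), P.Fr c ω → Row P c ω j ρ →
    Row P c ω (j + P.r) ρ' →
    (∀ k < P.T, ρ.g k ≤ P.vt → P.dl / 4 ≤ |ρ.p ω k| → |ρ.V (k + 1) - ρ.V k| ≤ P.La1 * ρ.g k) ∧
      ∃ Z : Finset ι, Full P c ω (1 / 100) (4 * P.t1) Z ∧ Above c ω P.r ρ P.T Z ∧
        ∀ k ≤ P.T, ρ.g k ≤ P.vt →
          (1 - P.e) * P.r * |ρ.p ω k| - P.e * P.r * P.th ≤ Cost c ω P.lam Z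

/-- a row is tilted -/
def MassS (ω : ι → ℂ) : Prop :=
  ∀ (P : Pm) (c : ι → ℂ) (j : ℕ) (ρ : Ry ι), P.Fr c ω → Row P c ω j ρ →
    2 - P.e ≤ ∑ k ∈ Finset.range (P.T + 1), ρ.p ω k ^ 2 ∧
      (∀ k ≤ P.T, |(ρ.P c ω k).re| ≤ P.a + P.n / 10) ∧ ∀ k ≤ P.T, |(ρ.P c ω k).im| ≤ P.a - 5

/-- small tilts carry little mass -/
def LowS (ω : ι → ℂ) : Prop :=
  ∀ (P : Pm) (c : ι → ℂ) (j : ℕ) (ρ : Ry ι), P.Fr c ω → Row P c ω j ρ →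
    ∑ k ∈ (Finset.range (P.T + 1)).filter (fun k => |ρ.p ω k| ≤ 3 * P.dl), ρ.p ω k ^ 2 ≤ P.e

/-- the first family -/
def F1S (ω : ι → ℂ) : Prop :=
  ∀ (P : Pm) (c : ι → ℂ), P.Fr c ω → ∃ (m : ℝ) (σ : Ry ι) (S : Finset ℕ) (y0 : ℝ)
    (ρ : ℕ → Ry ι) (Z : ℕ → Finset ι), Sig P c ω m σ ∧ F1Dat P c ω m S y0 ρ Z

/-- most transversals are typical -/
def TransS (ω : ι → ℂ) : Prop :=
  ∀ (P : Pm) (c : ι → ℂ) (m : ℝ) (σ : Ry ι), P.Fr c ω → Sig P (rt I c) ω m σ →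
    ∃ (o : ℕ) (Ty : Finset ℕ) (ρ : ℕ → Ry ι), o < P.r ∧
      (∀ k ∈ Ty, k ≤ P.T ∧ Trans P c ω σ k (ρ k)) ∧
      (((Finset.range (P.T + 1)).filter (fun k => k % P.r = o ∧ k ∉ Ty)).card : ℝ) ≤
        100 * P.mn (-38) (-20)

/-- the tube between two transversals -/
def TransTubeS (ω : ι → ℂ) : Prop :=
  ∀ (P : Pm) (d : ι → ℂ) (m : ℝ) (σ ρ ρ' : Ry ι) (k : ℕ), P.Fr d ω →
    Sig P (rt I (rt I d)) ω m σ → P.r ≤ k → k ≤ P.T → Trans P (rt I d) ω σ k ρ →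
    Trans P (rt I d) ω σ (k - P.r) ρ' → ∑ j ∈ Finset.Icc (k - P.r) k, σ.g j ≤ P.vs →
    P.dl / 2 ≤ |σ.p ω k| →
    Base P d ω ρ ∧ ∃ (Z : Finset ι) (Mp Mm : ℝ), Full P (rt I d) ω (1 / 100) (4 * P.t1) Z ∧
      Above (rt I d) ω P.r ρ (2 * P.T0) Z ∧ Mb P ω ρ Mp Mm ∧
      (1 - P.e) * P.r * (Mp + Mm) - 10 ^ 5 * P.t1 ≤ Cost (rt I d) ω P.lam Z

/-- relative position of transversals -/
structure OffS (ω : ι → ℂ) : Prop where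
  off : ∀ (P : Pm) (c : ι → ℂ) (m : ℝ) (σ ρ ρ' : Ry ι) (k k' : ℕ), Sig P (rt I c) ω m σ →
    k < k' → k' ≤ P.T → Trans P c ω σ k ρ → Trans P c ω σ k' ρ' → Off P c ω k k' ρ ρ'
  cong : ∀ (P : Pm) (c : ι → ℂ) (m : ℝ) (σ ρ ρ' : Ry ι) (k : ℕ), P.Fr c ω →
    Sig P (rt I c) ω m σ → k + P.ell ≤ P.T → Trans P c ω σ k ρ → Trans P c ω σ (k + P.ell) ρ' →
    ∑ j ∈ Finset.Icc k (k + P.ell), σ.g j ≤ P.vt → 2 * P.dl ≤ |σ.p ω k| →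
    (∃ z : ℤ, |ρ'.Dp P ω - ρ.Dp P ω - P.ell * σ.p ω k - z| ≤ P.e * (P.ell * |σ.p ω k|)) ∧
      ∃ z : ℤ, |ρ'.Dm P ω - ρ.Dm P ω + P.ell * σ.p ω k - z| ≤ P.e * (P.ell * |σ.p ω k|)
  disj : ∀ (P : Pm) (c : ι → ℂ) (m : ℝ) (σ ρ ρ' : Ry ι) (k k' : ℕ) (Z Z' : Finset ι),
    Sig P (rt I c) ω m σ → k + P.r ≤ k' → k' ≤ P.T → Trans P c ω σ k ρ → Trans P c ω σ k' ρ' →
    Above c ω P.r ρ (2 * P.T0) Z → Above c ω P.r ρ' (2 * P.T0) Z' → Disjoint Z Z'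

/-- the third family -/
def Dir3S (ω : ι → ℂ) : Prop :=
  ∀ (P : Pm) (d : ι → ℂ) (o k1 : ℕ) (U Gd : Finset ℕ) (p : ℕ → ℝ) (ρ : ℕ → Ry ι)
    (Mp Mm : ℕ → ℝ), P.Fr d ω → Samp P d ω o k1 U Gd p ρ Mp Mm →
    ∃ (W : Finset (ℕ × ℕ)) (Z : ℕ × ℕ → Finset ι), (∀ a ∈ W, High P d ω (Z a)) ∧
      (∀ a ∈ W, ∀ b ∈ W, a ≠ b → Disjoint (Z a) (Z b)) ∧
      (1 - P.e) ^ 3 * (∑ k ∈ Gd, 2 * P.r * |p k| /
          (Mp (if 0 < p k then k + P.ell else k) + P.f0 + P.e2)) +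
        (1 - P.e) ^ 3 * (∑ k ∈ Gd, 2 * P.r * |p k| /
          (Mm (if 0 < p k then k else k + P.ell) + P.f0 + P.e2)) - P.e * P.nt ≤
        ∑ a ∈ W, Cost d ω P.lam (Z a)

/-- one direction -/
def DirS (ω : ι → ℂ) : Prop :=
  ∀ (P : Pm) (d : ι → ℂ), P.Fr d ω → ∃ (z : ℝ) (S : Finset ℕ) (y0 : ℝ) (ρ : ℕ → Ry ι)
    (Z1 : ℕ → Finset ι) (U : Finset ℕ) (Z2 : ℕ → Finset ι) (W : Finset (ℕ × ℕ))
    (Z3 : ℕ × ℕ → Finset ι), 0 < z ∧ F1Dat P (rt I (rt I d)) ω (z ^ 2 / 2) S y0 ρ Z1 ∧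
      (P.r : ℝ) * U.card ≤ P.NU ∧ (∀ k ∈ U, Full P (rt I d) ω (1 / 100) (4 * P.t1) (Z2 k)) ∧
      (∀ a ∈ U, ∀ b ∈ U, a ≠ b → Disjoint (Z2 a) (Z2 b)) ∧ (∀ a ∈ W, High P d ω (Z3 a)) ∧
      (∀ a ∈ W, ∀ b ∈ W, a ≠ b → Disjoint (Z3 a) (Z3 b)) ∧
      (1 - 10 * P.e) * 32 / z ^ 3 - 3 * P.e * P.nt ≤
        ∑ k ∈ U, Cost (rt I d) ω P.lam (Z2 k) + ∑ a ∈ W, Cost d ω P.lam (Z3 a)

/-- conflicts between the families -/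
structure ConfS (ω : ι → ℂ) : Prop where
  wide : ∀ (P : Pm) (c : ι → ℂ) (Z : Finset ι), Full P c ω (1 / 100) (4 * P.t1) Z →
    Full P c ω (1 / 50) (8 * P.t1) Z ∧ Full P (rt (-1) c) ω (1 / 50) (8 * P.t1) Z
  high : ∀ (P : Pm) (c : ι → ℂ) (Z Z' : Finset ι), P.Fr c ω → Full P c ω (1 / 50) (8 * P.t1) Z →
    High P c ω Z' → Disjoint Z Z'
  rows : ∀ (P : Pm) (c : ι → ℂ) (m y0 : ℝ) (S : Finset ℕ) (ρ : ℕ → Ry ι) (Z : ℕ → Finset ι),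
    F1Dat P c ω m S y0 ρ Z → ∀ a ∈ S, ∀ b ∈ S, a ≠ b → Disjoint (Z a) (Z b)
  five : ∀ (P : Pm) (c : ι → ℂ) (m y0 : ℝ) (S : Finset ℕ) (ρ : ℕ → Ry ι) (Z : ℕ → Finset ι)
    (Y : Finset ι), F1Dat P c ω m S y0 ρ Z → Full P c ω (1 / 50) (8 * P.t1) Y →
    (S.filter (fun s => ¬ Disjoint (Z s) Y)).card ≤ 5

/-- both directions -/
def MainS (ω : ι → ℂ) : Prop :=
  ∀ (P : Pm) (c : ι → ℂ), P.Fr c ω → ∃ z z' : ℝ, 0 < z ∧ 0 < z' ∧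
    (1 - 10 * P.e) * (P.n * z ^ 2 / 2 + 32 / z ^ 3) +
      (1 - 10 * P.e) * (P.n * z' ^ 2 / 2 + 32 / z' ^ 3) - 8 * P.e * P.nt ≤
      Cost c ω P.lam Finset.univ + Cost (rt I c) ω P.lam Finset.univ

/-- some `N` unit squares cover the square of side `L` -/
def Cover (N : ℕ) (L : ℝ) (a ω : Fin N → ℂ) : Prop :=
  (∀ k, ‖ω k‖ = 1) ∧ ∀ x ∈ Set.Icc (0 : ℝ) L, ∀ y ∈ Set.Icc (0 : ℝ) L, ∃ k,
    ∃ s ∈ Set.Icc (0 : ℝ) 1, ∃ t ∈ Set.Icc (0 : ℝ) 1, (x : ℂ) + y * I = a k + ω k * (s + t * I)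

/-- the frame -/
def FrameS : Prop :=
  ∀ (n N : ℕ) (ε : ℝ) (a ω : Fin N → ℂ), 10 ≤ n → 0 < ε → ε ≤ 1 → Cover N (n + ε) a ω →
    0 ≤ (N : ℝ) - n ^ 2 ∧ ∃ (κ : Type) (_ : Fintype κ) (_ : DecidableEq κ) (c ζ : κ → ℂ),
      Nm ζ ∧ Framed n ((n + ε) / 2) (N - n ^ 2) c ζ

/-- the lower bound -/
def LowerStmt : Prop :=
  ∀ δ : ℝ, 0 < δ → ∃ b0 : ℝ, 0 < b0 ∧ ∀ (b : ℝ) (n : ℕ), 0 < b → b ≤ b0 → n * b ^ 5 = 96 →
    ∀ (ε : ℝ) (N : ℕ) (a ω : Fin N → ℂ), 0 < ε → Cover N (n + ε) a ω →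
      (n : ℝ) ^ 2 + (160 - δ) / b ^ 3 ≤ N

end Pool.Agent.MP_c59ecb_co.sh

end MrgPart1

-- ======== part 2: formerly Pool.Agent.MP_c59ecb_co.sh.Base
section MrgPart2

/-! Basic facts about the parameters, rotations and rays. -/

set_option autoImplicit false

namespace Pool.Agent.MP_c59ecb_co.sh

open MeasureTheory Complex Pool.Agent.MP_c59ecb_co.h76
open scoped ENNReal

namespace Pm

variable (P : Pm)

lemma M_ge : (10 : ℝ) ^ 30 ≤ P.M := by exact_mod_cast P.hM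

lemma M_one : (1 : ℝ) ≤ P.M := le_trans (by norm_num) P.M_ge

lemma M_pos : (0 : ℝ) < P.M := lt_of_lt_of_le one_pos P.M_one

lemma mn_pos (a j : ℤ) : 0 < P.mn a j := mul_pos (zpow_pos P.M_pos _) (zpow_pos P.x0 _)

lemma mn_nonneg (a j : ℤ) : 0 ≤ P.mn a j := (P.mn_pos a j).le

lemma mn_mul (a j b k : ℤ) : P.mn a j * P.mn b k = P.mn (a + b) (j + k) := by
  unfold mn
  rw [zpow_add₀ P.M_pos.ne', zpow_add₀ P.x0.ne']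
  ring

/-- product of monomials with the exponents given -/
lemma mn_mul' {a j b k c l : ℤ} (h1 : a + b = c) (h2 : j + k = l) :
    P.mn a j * P.mn b k = P.mn c l := by rw [mn_mul, h1, h2]

lemma mn_zero : P.mn 0 0 = 1 := by simp [mn]

lemma mn_sq (a j : ℤ) : P.mn a j ^ 2 = P.mn (2 * a) (2 * j) := by
  rw [sq, mn_mul, two_mul, two_mul]

lemma mn_pow (a j : ℤ) (k : ℕ) : P.mn a j ^ k = P.mn (k * a) (k * j) := by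
  induction k with
  | zero => simp [mn]
  | succ k ih => rw [pow_succ, ih, mn_mul]; push_cast; ring_nf

lemma mn_inv (a j : ℤ) : (P.mn a j)⁻¹ = P.mn (-a) (-j) :=
  inv_eq_of_mul_eq_one_right (by rw [mn_mul, add_neg_cancel, add_neg_cancel, mn_zero])

lemma mn_div (a j b k : ℤ) : P.mn a j / P.mn b k = P.mn (a - b) (j - k) := by
  rw [div_eq_mul_inv, mn_inv, mn_mul, sub_eq_add_neg, sub_eq_add_neg]

/-- comparison of monomials -/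
lemma mn_mono {a j b k : ℤ} (h1 : k ≤ j) (h2 : a ≤ b + 200 * (j - k)) : P.mn a j ≤ P.mn b k := by
  have hx : P.x ≤ (P.M : ℝ) ^ (-200 : ℤ) := by
    rw [zpow_neg, ← one_div, le_div_iff₀ (zpow_pos P.M_pos _)]
    exact_mod_cast P.hx
  obtain ⟨i, rfl⟩ := Int.le.dest h1
  have h3 : P.x ^ (i : ℤ) ≤ (P.M : ℝ) ^ (-200 * (i : ℤ)) := by
    rw [zpow_mul, zpow_natCast, zpow_natCast]
    exact pow_le_pow_left₀ P.x0.le hx i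
  unfold mn
  rw [zpow_add₀ P.x0.ne', mul_comm (P.x ^ k), ← mul_assoc]
  refine mul_le_mul_of_nonneg_right ?_ (zpow_pos P.x0 _).le
  calc (P.M : ℝ) ^ a * P.x ^ (i : ℤ) ≤ (P.M : ℝ) ^ a * (P.M : ℝ) ^ (-200 * (i : ℤ)) :=
        mul_le_mul_of_nonneg_left h3 (zpow_pos P.M_pos _).le
    _ = (P.M : ℝ) ^ (a + -200 * (i : ℤ)) := (zpow_add₀ P.M_pos.ne' _ _).symm
    _ ≤ _ := zpow_le_zpow_right₀ P.M_one (by omega)

/-- THE comparison of monomials: a factor `10 ^ 30` is gained -/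
lemma mn_le {a j b k : ℤ} (h1 : k ≤ j) (h2 : a + 1 ≤ b + 200 * (j - k)) :
    10 ^ 30 * P.mn a j ≤ P.mn b k := by
  have h3 : P.mn 1 0 = P.M := by simp [mn]
  calc 10 ^ 30 * P.mn a j ≤ P.mn 1 0 * P.mn a j := by
        rw [h3]; exact mul_le_mul_of_nonneg_right P.M_ge (P.mn_nonneg _ _)
    _ = P.mn (a + 1) j := P.mn_mul' (by ring) (by ring)
    _ ≤ _ := P.mn_mono h1 h2

/-- a monomial is tiny -/
lemma mn_small {a j : ℤ} (h1 : 0 ≤ j) (h2 : a + 1 ≤ 200 * j) : 10 ^ 30 * P.mn a j ≤ 1 := by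
  rw [← P.mn_zero]
  exact P.mn_le h1 (by omega)

/-- a monomial is huge -/
lemma mn_big {a j : ℤ} (h1 : j ≤ 0) (h2 : 1 + 200 * j ≤ a) : 10 ^ 30 ≤ P.mn a j := by
  have := P.mn_le (a := 0) (j := 0) (b := a) (k := j) h1 (by omega)
  rwa [mn_zero, mul_one] at this

lemma r_eq : (P.r : ℝ) = P.mn 30 0 := by
  simp only [r, mn, Nat.cast_pow, zpow_zero, mul_one]
  rfl

lemma n_eq : (P.n : ℝ) = P.mn 0 (-25) := by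
  rw [← neg_zero, ← mn_inv]
  refine eq_inv_of_mul_eq_one_left ?_
  simp only [mn, zpow_zero, one_mul]
  exact P.hn

lemma eps_le : P.ε ≤ P.mn 0 100 := by
  simp only [mn, zpow_zero, one_mul]
  exact P.hε

lemma eps_small : 10 ^ 30 * P.ε ≤ 1 :=
  le_trans (by linarith [P.eps_le]) (P.mn_small (a := 0) (j := 100) (by norm_num) (by norm_num))

lemma two_a : 2 * P.a = P.n + P.ε := by unfold a; ring

lemma l_le : (P.l : ℝ) ≤ P.mn (-3) (-5) := by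
  rw [← mn_inv, ← one_div, le_div_iff₀ (P.mn_pos _ _)]
  exact P.l1

lemma l_ge : P.mn (-3) (-5) ≤ 2 * P.l := by
  rw [← mn_inv, ← one_div, div_le_iff₀ (P.mn_pos _ _), mul_assoc]
  exact P.l2

lemma L_le : (P.L : ℝ) ≤ P.mn (-58) (-10) := by
  rw [← mn_inv, ← one_div, le_div_iff₀ (P.mn_pos _ _)]
  exact P.L1

lemma L_ge : P.mn (-58) (-10) ≤ 2 * P.L := by
  rw [← mn_inv, ← one_div, div_le_iff₀ (P.mn_pos _ _), mul_assoc]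
  exact P.L2

lemma ell_le : (P.ell : ℝ) ≤ P.mn (-28) (-10) := by
  rw [ell, Nat.cast_mul, r_eq,
    ← P.mn_mul' (a := 30) (j := 0) (b := -58) (k := -10) (c := -28) (l := -10) rfl rfl]
  exact mul_le_mul_of_nonneg_left P.L_le (P.mn_nonneg _ _)

lemma ell_ge : P.mn (-28) (-10) ≤ 2 * P.ell := by
  rw [ell, Nat.cast_mul, r_eq,
    ← P.mn_mul' (a := 30) (j := 0) (b := -58) (k := -10) (c := -28) (l := -10) rfl rfl]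
  linarith [mul_le_mul_of_nonneg_left P.L_ge (P.mn_nonneg 30 0)]

lemma r_big : (10 : ℝ) ^ 30 ≤ P.r := P.r_eq ▸ P.mn_big le_rfl (by norm_num)

lemma r_big' : 10 ^ 30 ≤ P.r := by exact_mod_cast P.r_big

lemma l_big' : 10 ^ 29 ≤ P.l := by
  have := P.mn_big (a := -3) (j := -5) (by norm_num) (by norm_num)
  exact_mod_cast (show (10 : ℝ) ^ 29 ≤ P.l by linarith [P.l_ge])

lemma L_pos : 0 < P.L := by
  have := P.mn_pos (-58) (-10)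
  exact_mod_cast (show (0 : ℝ) < P.L by linarith [P.L_ge])

lemma r_le_ell : 10 ^ 29 * (P.r : ℝ) ≤ P.ell := by
  have := P.mn_le (a := 30) (j := 0) (b := -28) (k := -10) (by norm_num) (by norm_num)
  rw [r_eq]
  linarith [P.ell_ge]

lemma r_le_ell' : 10 ^ 29 * P.r ≤ P.ell := by exact_mod_cast P.r_le_ell

lemma ell_le_n : 10 ^ 30 * (P.ell : ℝ) ≤ P.n := by
  have := P.mn_le (a := -28) (j := -10) (b := 0) (k := -25) (by norm_num) (by norm_num)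
  rw [n_eq]
  linarith [P.ell_le]

lemma ell_le_n' : 10 ^ 30 * P.ell ≤ P.n := by exact_mod_cast P.ell_le_n

lemma r_le_n : 10 ^ 30 * (P.r : ℝ) ≤ P.n := by
  rw [r_eq, n_eq]
  exact P.mn_le (by norm_num) (by norm_num)

lemma r_le_n' : 10 ^ 30 * P.r ≤ P.n := by exact_mod_cast P.r_le_n

lemma l_le_n : 10 ^ 30 * (P.l : ℝ) ≤ P.n := by
  have := P.mn_le (a := -3) (j := -5) (b := 0) (k := -25) (by norm_num) (by norm_num)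
  rw [n_eq]
  linarith [P.l_le]

lemma l_le_n' : 10 ^ 30 * P.l ≤ P.n := by exact_mod_cast P.l_le_n

lemma T0_eq : (P.T0 : ℝ) = 2 * P.n := by simp [T0]

lemma T1_le : (P.T1 : ℝ) ≤ P.n / 10 := by
  have : 10 * P.T1 ≤ P.n := by unfold T1; omega
  have : 10 * (P.T1 : ℝ) ≤ P.n := by exact_mod_cast this
  linarith

lemma T1_ge : (P.n : ℝ) / 10 - 1 ≤ P.T1 := by
  have : P.n ≤ 10 * P.T1 + 10 := by unfold T1; omega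
  have : (P.n : ℝ) ≤ 10 * P.T1 + 10 := by exact_mod_cast this
  linarith

lemma T_eq : (P.T : ℝ) = P.n + P.T1 := by simp [T, T1]

lemma R_sq : P.R ^ 2 = 100 * P.mn 60 0 := by
  rw [mul_pow, r_eq, mn_sq]
  norm_num

lemma r_sq : (P.r : ℝ) ^ 2 = P.mn 60 0 := by
  rw [r_eq, mn_sq]
  norm_num

/-- the parameters of all tubes -/
lemma tp {τ G : ℝ} (h1 : τ ≤ P.t2) (h2 : G ≤ 100 * P.t2) : TP P.r P.lam P.eta τ G where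
  r100 := le_trans (by norm_num) P.r_big'
  lam0 := P.mn_pos _ _
  lam1 := by linarith [P.mn_small (a := 0) (j := 1) (by norm_num) (by norm_num)]
  eta := by
    rw [r_eq, mul_assoc, mn_mul, mn_pow]
    have := P.mn_le (a := 30 + -40) (j := 0 + 4) (b := (4 : ℕ) * 0) (k := (4 : ℕ) * 1)
      (by norm_num) (by norm_num)
    linarith [P.mn_pos (30 + -40) (0 + 4)]
  tau := by
    linarith [P.mn_le (a := 36) (j := 5) (b := -40) (k := 4) (by norm_num) (by norm_num),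
      P.mn_pos 36 5]
  tot := by
    have h3 := mul_le_mul_of_nonneg_left h2 (P.mn_nonneg 60 0)
    have h4 := P.mn_mul' (a := 60) (j := 0) (b := 36) (k := 5) (c := 96) (l := 5) rfl rfl
    have := P.mn_le (a := 96) (j := 5) (b := -40) (k := 4) (by norm_num) (by norm_num)
    rw [r_sq]
    linarith [P.mn_pos 96 5]
  big := by
    rw [r_eq, mn_pow, mul_assoc, mn_mul]
    have := P.mn_small (a := (3 : ℕ) * 30 + 0) (j := (3 : ℕ) * 0 + 1) (by norm_num) (by norm_num)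
    linarith [P.mn_pos ((3 : ℕ) * 30 + 0) ((3 : ℕ) * 0 + 1)]

end Pm

variable {ι : Type}

lemma rt_rt (u v : ℂ) (c : ι → ℂ) : rt u (rt v c) = rt (u * v) c := by
  funext i; simp only [mul_assoc]

lemma rt_one (c : ι → ℂ) : rt 1 c = c := by funext i; simp

lemma rt_I_I (c : ι → ℂ) : rt I (rt I c) = rt (-1) c := by rw [rt_rt, I_mul_I]

lemma rt_neg_neg (c : ι → ℂ) : rt (-1) (rt (-1) c) = c := by funext i; simp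

lemma rt_neg_I (c : ι → ℂ) : rt (-1) (rt I c) = rt I (rt (-1) c) := by
  funext i; simp only [rt]; ring

lemma fourth {u : ℂ} (h : u ^ 4 = 1) : u = 1 ∨ u = I ∨ u = -1 ∨ u = -I := by
  have : (u - 1) * ((u - I) * ((u + 1) * (u + I))) = 0 := by
    linear_combination h + (1 - u ^ 2) * I_mul_I
  simp only [mul_eq_zero, sub_eq_zero, add_eq_zero_iff_eq_neg] at this
  exact this

lemma norm_fourth {u : ℂ} (h : u ^ 4 = 1) : ‖u‖ = 1 := by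
  rcases fourth h with rfl | rfl | rfl | rfl <;> simp

lemma mem_rt {u : ℂ} (h : u ^ 4 = 1) {c ω p : ℂ} : u * p ∈ Sq (u * c) ω ↔ p ∈ Sq c ω := by
  rcases fourth h with rfl | rfl | rfl | rfl
  · simp
  · exact mem_rot
  · rw [← I_mul_I, mul_assoc, mul_assoc, mem_rot, mem_rot]
  · rw [show -I = I * (I * I) by simp, mul_assoc, mul_assoc, mul_assoc, mul_assoc, mem_rot, mem_rot,
      mem_rot]

lemma norm_rt {u : ℂ} (h : u ^ 4 = 1) (z w : ℂ) : ‖u * z - u * w‖ = ‖z - w‖ := by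
  rw [← mul_sub, norm_mul, norm_fourth h, one_mul]

lemma Step.mono {c ω : ι → ℂ} {i j : ι} {v v' γ γ' : ℝ} (h : Step c ω i v j v' γ) (h' : γ ≤ γ') :
    Step c ω i v j v' γ' := by
  obtain ⟨h1, d, ζ, h2, h3⟩ := h
  exact ⟨h1.trans h', d, ζ, h2.trans h', h3⟩

lemma Step.norm {c ω : ι → ℂ} (hω : Nm ω) {i j : ι} {v v' γ : ℝ} (h : Step c ω i v j v' γ) :
    ‖ex c ω j v' - ex c ω i v - ω j‖ ≤ γ := by
  obtain ⟨-, d, ζ, h2, h3, h4⟩ := h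
  have h5 : ‖ζ‖ = 1 := by rcases h3 with rfl | rfl <;> exact hω.1 _
  rw [h4, show ∀ a b c : ℂ, a + b - c - a - b = -c from fun _ _ _ => by ring, norm_neg, norm_mul,
    h5, mul_one, norm_real]
  exact h2

lemma Col.mono {c ω : ι → ℂ} {η s η' s' : ℝ} {m : ℕ} {A : ℕ → ι} (h : Col c ω η s m A)
    (h1 : η ≤ η') (h2 : s ≤ s') : Col c ω η' s' m A :=
  ⟨fun j hj => (h.1 j hj).trans h1, fun j hj => ⟨(h.2 j hj).1.trans h2, (h.2 j hj).2.trans h1⟩⟩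

lemma Col.sub {c ω : ι → ℂ} {η s : ℝ} {m : ℕ} {A : ℕ → ι} (h : Col c ω η s m A) {a m' : ℕ}
    (h1 : a + m' ≤ m) : Col c ω η s m' (fun j => A (a + j)) :=
  ⟨fun j hj => h.1 _ (by omega), fun j hj => h.2 (a + j) (by omega)⟩

lemma SS_le_SA (c ω : ι → ℂ) (m : ℕ) (A : ℕ → ι) : |SS c ω m A| ≤ SA c ω m A :=
  Finset.abs_sum_le_sum_abs _ _

lemma SA_sub (c ω : ι → ℂ) {m : ℕ} (A : ℕ → ι) {a m' : ℕ} (h1 : a + m' ≤ m) :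
    SA c ω m' (fun j => A (a + j)) ≤ SA c ω m A := by
  have h := sum_shift (g := fun j => |slip c ω (A j) (A (j + 1))|) (fun _ => abs_nonneg _)
    (S := Finset.range m') (i := a) (t := m) (fun k hk => by simp at hk; omega)
  simpa only [SA, add_comm a, add_right_comm _ a 1] using h

lemma Above.mono {c ω : ι → ℂ} {r T T' : ℕ} {ρ : Ry ι} {Z : Finset ι} (h : Above c ω r ρ T Z)
    (h' : T ≤ T') : Above c ω r ρ T' Z := fun i hi => by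
  obtain ⟨t, h1, h2⟩ := h i hi
  exact ⟨t, h1.trans h', h2⟩

lemma Tube.mono {c ω : ι → ℂ} {r T T' : ℕ} {η : ℝ} {ρ ρ' : Ry ι} {m : ℕ → ℕ} {A : ℕ → ℕ → ι}
    (h : Tube c ω r η T ρ ρ' m A) (h' : T' ≤ T) : Tube c ω r η T' ρ ρ' m A :=
  ⟨fun t ht => h.lo t (ht.trans h'), fun t ht => h.hi t (ht.trans h'),
    fun t ht => h.len t (ht.trans h'), fun t ht => h.col t (ht.trans h'),
    fun t ht => h.adj t (ht.trans_le h')⟩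

lemma cov_rt {u : ℂ} (h : u ^ 4 = 1) {c ω : ι → ℂ} {p : ℂ} : Cov (rt u c) ω (u * p) ↔ Cov c ω p :=
  exists_congr fun _ => mem_rt h

variable [Fintype ι] [DecidableEq ι] {c ω : ι → ℂ}

lemma ov_rt {u : ℂ} (h : u ^ 4 = 1) (k : ι) : ov (rt u c) ω k = ov c ω k := by
  rcases fourth h with rfl | rfl | rfl | rfl
  · rw [rt_one]
  · exact ov_rot k
  · rw [← rt_I_I, ov_rot, ov_rot]
  · rw [show -I = I * (I * I) by simp, ← rt_rt, ← rt_rt, ov_rot, ov_rot, ov_rot]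

lemma Calm.mono {i : ι} {ϱ μ ϱ' μ' : ℝ} (h : Calm c ω i ϱ μ) (h1 : ϱ' ≤ ϱ) (h2 : μ ≤ μ') :
    Calm c ω i ϱ' μ' :=
  ⟨fun q hq => (h.ang q (hq.trans h1)).trans h2, fun q hq => (h.ovl q (hq.trans h1)).trans h2,
    fun p hp => h.cov p (hp.trans h1)⟩

lemma Calm.rot {i : ι} {ϱ μ : ℝ} (h : Calm c ω i ϱ μ) {u : ℂ} (hu : u ^ 4 = 1) :
    Calm (rt u c) ω i ϱ μ where
  ang q hq := h.ang q (by rwa [norm_rt hu] at hq)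
  ovl q hq := by rw [ov_rt hu]; exact h.ovl q (by rwa [norm_rt hu] at hq)
  cov p hp := by
    have e : p = u * (u ^ 3 * p) := by linear_combination (-p) * hu
    rw [e] at hp ⊢
    exact (cov_rt hu).2 (h.cov _ (by rwa [norm_rt hu] at hp))

/-- calm discs of `rt I d` are calm discs of `d` -/
lemma Calm.unrot {i : ι} {ϱ μ : ℝ} {u : ℂ} (hu : u ^ 4 = 1) (h : Calm (rt u c) ω i ϱ μ) :
    Calm c ω i ϱ μ := by
  have := h.rot (u := u ^ 3) (by rw [← pow_mul, mul_comm, pow_mul, hu, one_pow])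
  rwa [rt_rt, ← pow_succ, hu, rt_one] at this

lemma Framed.one {n : ℕ} {a W : ℝ} (h : Framed n a W c ω) : Framed1 n a W c ω := by
  simpa only [rt_one] using h 1 (by simp)

lemma Framed.rot {n : ℕ} {a W : ℝ} (h : Framed n a W c ω) {u : ℂ} (hu : u ^ 4 = 1) :
    Framed n a W (rt u c) ω := fun v hv => by
  rw [rt_rt]
  exact h _ (by rw [mul_pow, hu, hv, mul_one])

lemma Framed.mono {n : ℕ} {a W W' : ℝ} (h : Framed n a W c ω) (h' : W ≤ W') :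
    Framed n a W' c ω := fun u hu =>
  ⟨(h u hu).cov, (h u hu).out, (h u hu).rgt, (h u hu).lft, (h u hu).sov.trans (by linarith),
    (h u hu).mu.trans (ENNReal.ofReal_le_ofReal h')⟩

lemma Pm.Fr.one {P : Pm} (h : P.Fr c ω) : Framed1 P.n P.a (11 * P.nt) c ω := Framed.one h

lemma Pm.Fr.rot {P : Pm} (h : P.Fr c ω) {u : ℂ} (hu : u ^ 4 = 1) : P.Fr (rt u c) ω :=
  Framed.rot h hu

lemma Pm.Fr.rotI {P : Pm} (h : P.Fr c ω) : P.Fr (rt I c) ω := h.rot I_pow_four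

lemma Pm.Fr.neg {P : Pm} (h : P.Fr c ω) : P.Fr (rt (-1) c) ω := h.rot (by norm_num)

lemma Lat.sub {P : Pm} {x y : ℝ} (hx : Lat P.a x) (hy : Lat P.a y) :
    ∃ z : ℤ, |x - y - z| ≤ P.ε := by
  have h := P.two_a
  have h0 := P.ε0
  obtain ⟨z, hx | hx⟩ := hx <;> obtain ⟨z', hy | hy⟩ := hy
  · exact ⟨z - z', by rw [hx, hy]; push_cast; exact abs_le.2 ⟨by linarith, by linarith⟩⟩
  · exact ⟨z - z' + P.n - 1, by rw [hx, hy]; push_cast; exact abs_le.2 ⟨by linarith, by linarith⟩⟩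
  · exact ⟨z - z' - P.n + 1, by rw [hx, hy]; push_cast; exact abs_le.2 ⟨by linarith, by linarith⟩⟩
  · exact ⟨z - z', by rw [hx, hy]; push_cast; exact abs_le.2 ⟨by linarith, by linarith⟩⟩

lemma ds_nonneg (ϱ : ℝ) (i : ι) : 0 ≤ ds c ω ϱ i :=
  le_min zero_le_one (Finset.sum_nonneg fun k _ => bt_nonneg k)

lemma Pm.ft_le_f (P : Pm) (i : ι) : ft c ω P.l i ≤ P.f c ω i := by
  have h1 := ds_nonneg (c := c) (ω := ω) 16 i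
  have h2 := div_nonneg (ds_nonneg (c := c) (ω := ω) (P.R + 1) i) (sq_nonneg P.R)
  unfold Pm.f
  linarith

lemma Pm.f_nonneg (P : Pm) (i : ι) : 0 ≤ P.f c ω i := (ft_nonneg _ i).trans (P.ft_le_f i)

namespace Wray

variable {R w τ G : ℝ} {T : ℕ} {ρ : Ry ι}

lemma sub (h : Wray c ω R w τ T G ρ) {s : Finset ℕ} (hs : ∀ k ∈ s, k ≤ T) :
    ∑ k ∈ s, ρ.g k ≤ G :=
  (Finset.sum_le_sum_of_subset_of_nonneg
    (fun k hk => Finset.mem_range.2 (Nat.lt_succ_of_le (hs k hk))) fun k _ _ => h.g0 k).trans h.sum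

lemma le (h : Wray c ω R w τ T G ρ) {k : ℕ} (hk : k ≤ T) : ρ.g k ≤ G := by
  simpa using h.sub (s := {k}) (by simpa)

lemma G0 (h : Wray c ω R w τ T G ρ) : 0 ≤ G := (h.g0 0).trans (h.le (Nat.zero_le _))

lemma τ0 (h : Wray c ω R w τ T G ρ) : 0 ≤ τ := (norm_nonneg _).trans (h.tilt 0 (Nat.zero_le _))

lemma mono (h : Wray c ω R w τ T G ρ) {τ' G' : ℝ} {T' : ℕ} (h1 : τ ≤ τ') (h2 : T' ≤ T)
    (h3 : G ≤ G') : Wray c ω R w τ' T' G' ρ :=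
  ⟨fun k hk => h.v k (hk.trans h2), h.g0,
    (h.sub fun k hk => by simp at hk; omega).trans h3, fun k hk => (h.tilt k (hk.trans h2)).trans h1,
    fun k hk => h.step k (hk.trans_le h2), fun k hk => h.c1 k (hk.trans h2),
    fun k hk => h.c2 k (hk.trans h2)⟩

lemma w0 (h : Wray c ω R w τ T G ρ) : Wray c ω R 0 τ T G ρ :=
  ⟨h.v, h.g0, h.sum, h.tilt, h.step, h.c1, fun k hk => by
    obtain ⟨μ, h1, h2, h3, -⟩ := h.c2 k hk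
    exact ⟨μ, h1, h2, h3, fun h4 => absurd h4 (not_lt.2 (h.g0 k))⟩⟩

lemma tail (h : Wray c ω R w τ T G ρ) {s T' : ℕ} (hs : s + T' ≤ T) :
    Wray c ω R w τ T' G (ρ.tail s) :=
  ⟨fun k hk => h.v (s + k) (by omega), fun k => h.g0 _, by
    have := sum_shift h.g0 (S := Finset.range (T' + 1)) (i := s) (t := T + 1)
      (fun k hk => by simp at hk; omega)
    simpa only [Ry.tail, add_comm s] using this.trans h.sum,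
    fun k hk => h.tilt (s + k) (by omega), fun k hk => h.step (s + k) (by omega),
    fun k hk => h.c1 (s + k) (by omega), fun k hk => h.c2 (s + k) (by omega)⟩

lemma calm (h : Wray c ω R w τ T G ρ) {k : ℕ} (hk : k ≤ T) :
    Calm c ω (ρ.J k) R (R ^ 2 * ρ.g k) := by
  obtain ⟨μ, -, h2, h3, -⟩ := h.c2 k hk
  exact h3.mono le_rfl h2

lemma step' (h : Wray c ω R w τ T G ρ) {k : ℕ} (hk : k < T) :
    Step c ω (ρ.J k) (ρ.V k) (ρ.J (k + 1)) (ρ.V (k + 1)) (ρ.g k) :=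
  (h.step k hk).mono (min_le_left _ _)

end Wray

lemma AH_nonneg (lam : ℝ) (i j : ι) : 0 ≤ AH c ω lam i j := by
  unfold AH
  split_ifs
  exacts [ENNReal.toReal_nonneg, le_rfl]

lemma cH_nonneg (lam : ℝ) (i j : ι) : 0 ≤ cH c ω lam i j := by
  unfold cH
  split_ifs
  exacts [AH_nonneg _ _ _, le_rfl]

lemma cV_nonneg (lam : ℝ) (i j : ι) : 0 ≤ cV c ω lam i j := by
  unfold cV
  split_ifs
  exacts [le_rfl, AH_nonneg _ _ _]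

lemma Cost_nonneg (lam : ℝ) (Z : Finset ι) : 0 ≤ Cost c ω lam Z :=
  Finset.sum_nonneg fun i _ => Finset.sum_nonneg fun j _ =>
    add_nonneg (cH_nonneg _ i j) (cV_nonneg _ i j)

end Pool.Agent.MP_c59ecb_co.sh

end MrgPart2

-- ======== part 3: formerly Pool.Agent.MP_c59ecb_co.sh.Lib
section MrgPart3

/-! The statements, bundled by level. -/

set_option autoImplicit false

namespace Pool.Agent.MP_c59ecb_co.sh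

/-- level 0 -/
structure L0 : Prop where
  pick : PickS
  sum : SumS
  tilt : TiltS
  loc : LocS
  pth : PthS

variable {ι : Type} [Fintype ι] [DecidableEq ι]

/-- level 1 -/
structure L1 (ω : ι → ℂ) : Prop extends L0 where
  chain : ChainS
  count : CountS
  colstep : ColStepS
  calm : CalmS ω
  w : WS ω
  col : ColS ω
  cost : CostS ω
  piece : PieceS ω

/-- level 2 -/
structure L2 (ω : ι → ℂ) : Prop extends L1 ω where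
  launch : LaunchS ω
  path : PathS ω
  tube : TubeS ω
  step : StepS ω
  straight : StraightS ω
  hit : HitS ω

/-- level 3 -/
structure L3 (ω : ι → ℂ) : Prop extends L2 ω where
  tv : TVS ω
  side : SideS ω
  disj : DisjS ω
  conf : ConfS ω
  mass : MassS ω
  low : LowS ω
  rows : RowsS ω
  trans : TransS ω
  off : OffS ω

/-- level 4 -/
structure L4 (ω : ι → ℂ) : Prop extends L3 ω where
  shot : ShotS ω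
  win : WinS ω
  boot : BootS ω
  cap : CapS ω
  rowtube : RowTubeS ω
  transtube : TransTubeS ω

end Pool.Agent.MP_c59ecb_co.sh

end MrgPart3

-- ======== part 4: formerly Pool.Agent.MP_c59ecb_co.sh.PthA
section MrgPart4

/-! Paths that go down. -/

set_option autoImplicit false

namespace Pool.Agent.MP_c59ecb_co.sh

open Complex

namespace PthA

/-- a walk with almost constant steps -/
lemma walk {z : ℕ → ℂ} {u : ℂ} {η : ℝ} {T : ℕ} (h : ∀ k < T, ‖z (k + 1) - z k - u‖ ≤ η)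
    {a b : ℕ} (hab : a ≤ b) (hb : b ≤ T) :
    ‖z b - z a - (((b : ℝ) - a : ℝ) : ℂ) * u‖ ≤ η * ((b : ℝ) - a) := by
  induction b, hab using Nat.le_induction with
  | base => simp
  | succ b hab ih =>
    have h1 := ih (by omega)
    have h2 := h b (by omega)
    have e : z (b + 1) - z a - ((((b + 1 : ℕ) : ℝ) - a : ℝ) : ℂ) * u =
        (z b - z a - (((b : ℝ) - a : ℝ) : ℂ) * u) + (z (b + 1) - z b - u) := by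
      push_cast
      ring
    rw [e]
    refine (norm_add_le _ _).trans ?_
    push_cast at h1 ⊢
    linarith

/-- the same for any two times -/
lemma walk' {z : ℕ → ℂ} {u : ℂ} {η : ℝ} {T : ℕ} (h : ∀ k < T, ‖z (k + 1) - z k - u‖ ≤ η)
    {a b : ℕ} (ha : a ≤ T) (hb : b ≤ T) :
    ‖z b - z a - (((b : ℝ) - a : ℝ) : ℂ) * u‖ ≤ η * |(b : ℝ) - a| := by
  rcases le_total a b with hab | hab
  · rw [abs_of_nonneg (sub_nonneg.2 (by exact_mod_cast hab))]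
    exact walk h hab hb
  · have e : -(z b - z a - (((b : ℝ) - a : ℝ) : ℂ) * u) =
        z a - z b - (((a : ℝ) - b : ℝ) : ℂ) * u := by
      push_cast
      ring
    rw [abs_sub_comm, abs_of_nonneg (sub_nonneg.2 (by exact_mod_cast hab)), ← norm_neg, e]
    exact walk h hab ha

lemma geo' {η : ℝ} {T : ℕ} {Q : ℕ → ℂ} (h : Pth η T Q) {a b : ℕ} (ha : a ≤ T) (hb : b ≤ T) :
    |(Q b - Q a).re| ≤ η * |(b : ℝ) - a| ∧ |(Q b - Q a).im + ((b : ℝ) - a)| ≤ η * |(b : ℝ) - a| := by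
  have h1 := walk' (z := Q) (u := -I) (η := η) (T := T)
    (fun k hk => by simpa only [sub_neg_eq_add] using h k hk) ha hb
  have h2 := (abs_re_le_norm _).trans h1
  have h3 := (abs_im_le_norm _).trans h1
  generalize (b : ℝ) - a = k at h2 h3 ⊢
  have e1 : (Q b - Q a - (k : ℂ) * -I).re = (Q b - Q a).re := by simp
  have e2 : (Q b - Q a - (k : ℂ) * -I).im = (Q b - Q a).im + k := by simp
  rw [e1] at h2
  rw [e2] at h3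
  exact ⟨h2, h3⟩

lemma ivt (η : ℝ) (T : ℕ) (Q : ℕ → ℂ) (y : ℝ) (h : Pth η T Q) (h0 : 0 ≤ η) (h1 : (Q T).im ≤ y)
    (h2 : y ≤ (Q 0).im) : ∃ s ≤ T, |y - (Q s).im| ≤ (1 + η) / 2 := by
  induction T with
  | zero => exact ⟨0, le_rfl, abs_le.2 ⟨by linarith, by linarith⟩⟩
  | succ T ih =>
    rcases le_total (Q T).im y with h3 | h3
    · obtain ⟨s, hs, h4⟩ := ih (fun s hs => h s (by omega)) h3
      exact ⟨s, by omega, h4⟩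
    · have h4 := (abs_im_le_norm _).trans (h T (by omega))
      simp only [add_im, sub_im, I_im] at h4
      have h5 := abs_le.1 h4
      rcases le_total ((Q T).im - y) ((1 + η) / 2) with h6 | h6
      · exact ⟨T, by omega, abs_le.2 ⟨by linarith, by linarith⟩⟩
      · exact ⟨T + 1, le_rfl, abs_le.2 ⟨by linarith, by linarith⟩⟩

end PthA

theorem pthS : PthS where
  geo η T Q a b h hab hb := by
    have := PthA.geo' h (hab.trans hb) hb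
    rwa [abs_of_nonneg (a := (b : ℝ) - a) (sub_nonneg.2 (by exact_mod_cast hab))] at this
  ivt := PthA.ivt
  cross η σ T Q z z' h h0 h1 hσ hz hzz hfar h2 h3 := by
    obtain ⟨s, hs, h4, h5⟩ := hz
    obtain ⟨s', hs', h6⟩ := PthA.ivt η T Q z'.im h h0 h2 h3
    obtain ⟨h7, h8⟩ := PthA.geo' h hs hs'
    have h9 := abs_le.1 ((abs_re_le_norm _).trans hzz)
    have h10 := abs_le.1 ((abs_im_le_norm _).trans hzz)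
    have h11 := (hfar s' hs').trans_le (norm_le_abs_re_add_abs_im _)
    have h12 : η * |(s' : ℝ) - s| ≤ 1 / 1000 * |(s' : ℝ) - s| :=
      mul_le_mul_of_nonneg_right h1 (abs_nonneg _)
    simp only [sub_re, sub_im] at h4 h5 h7 h8 h9 h10 h11
    have h13 := abs_le.1 h4
    have h14 := abs_le.1 h6
    have h15 := abs_le.1 h7
    have h16 := abs_le.1 h8
    have h17 : |(s' : ℝ) - s| ≤ 3 := by
      rcases abs_cases ((s' : ℝ) - s) with h18 | h18 <;> linarith [h18.1]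
    refine ⟨s', hs', ?_, ?_⟩
    · simp only [sub_im]
      exact h6.trans (by linarith)
    · simp only [sub_re]
      have h18 : 2 ≤ |z'.re - (Q s').re| := by linarith
      rcases hσ with rfl | rfl <;> rcases abs_cases (z'.re - (Q s').re) with h19 | h19 <;>
        linarith [h19.1]

end Pool.Agent.MP_c59ecb_co.sh

end MrgPart4

-- ======== part 5: formerly Pool.Agent.MP_c59ecb_co.sh.Side
section MrgPart5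

/-! The samples keep their order. -/

set_option autoImplicit false

namespace Pool.Agent.MP_c59ecb_co.sh

open MeasureTheory Complex Pool.Agent.MP_c59ecb_co.h76

variable {ι : Type} [Fintype ι] [DecidableEq ι] {ω : ι → ℂ}

namespace SideA

lemma t1_small (P : Pm) : 10 ^ 30 * P.t1 ≤ 1 := P.mn_small (by norm_num) (by norm_num)

lemma t2_small (P : Pm) : 10 ^ 30 * P.t2 ≤ 1 := P.mn_small (by norm_num) (by norm_num)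

lemma th1_small (P : Pm) : 10 ^ 30 * P.th1 ≤ 1 := P.mn_small (by norm_num) (by norm_num)

lemma t1_le_t2 (P : Pm) : P.t1 ≤ P.t2 := P.mn_mono (by norm_num) (by norm_num)

lemma t2_R (P : Pm) : 10 ^ 28 * (P.R ^ 2 * P.t2) ≤ 1 := by
  have h1 : P.mn 60 0 * P.mn 36 5 = P.mn 96 5 := P.mn_mul' rfl rfl
  have h2 := P.mn_small (a := 96) (j := 5) (by norm_num) (by norm_num)
  rw [P.R_sq, mul_assoc 100, h1]
  linarith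

lemma t1_R (P : Pm) : 10 ^ 28 * (P.R ^ 2 * P.t1) ≤ 1 := by
  linarith [t2_R P, mul_le_mul_of_nonneg_left (t1_le_t2 P) (sq_nonneg P.R)]

lemma t2_r (P : Pm) : 10 ^ 30 * (P.t2 * P.r) ≤ 1 := by
  have h1 : P.mn 36 5 * P.mn 30 0 = P.mn 66 5 := P.mn_mul' rfl rfl
  rw [P.r_eq, h1]
  exact P.mn_small (by norm_num) (by norm_num)

omit [Fintype ι] [DecidableEq ι] in
lemma Q_sub (d : ι → ℂ) (ρ ρ' : Ry ι) (j s : ℕ) :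
    ρ'.Q d ω j - ρ.Q d ω s = -I * (ρ'.P (rt I d) ω j - ρ.P (rt I d) ω s) := by
  simp only [Ry.Q]
  ring

/-- the offset of two samples -/
lemma offs {P : Pm} {d : ι → ℂ} {Ks : Finset ℕ} {ρ : ℕ → Ry ι} {k k' : ℕ} (h : Fam P d ω Ks ρ)
    (hk : k ∈ Ks) (hk' : k' ∈ Ks) (hne : k ≠ k') :
    ∃ Δ : ℝ, 10 ^ 29 * (P.r : ℝ) ≤ Δ ∧ Δ ≤ 11 / 10 * P.n ∧
      |((ρ k').P (rt I d) ω P.T0 - (ρ k).P (rt I d) ω P.T0).re| ≤ Δ / 1000 ∧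
      |(if k' < k then 1 else -1) * ((ρ k').P (rt I d) ω P.T0 - (ρ k).P (rt I d) ω P.T0).im - Δ| ≤
        Δ / 1000 := by
  have key : ∀ a ∈ Ks, ∀ b ∈ Ks, a < b → 10 ^ 29 * (P.r : ℝ) ≤ (b : ℝ) - a ∧
      (b : ℝ) - a ≤ 11 / 10 * P.n ∧
      |((ρ a).P (rt I d) ω P.T0 - (ρ b).P (rt I d) ω P.T0).re| ≤ ((b : ℝ) - a) / 1000 ∧
      |((ρ a).P (rt I d) ω P.T0 - (ρ b).P (rt I d) ω P.T0).im - ((b : ℝ) - a)| ≤
        ((b : ℝ) - a) / 1000 := fun a ha b hb hab => by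
    obtain ⟨h1, h2, h3⟩ := h.off a ha b hb hab
    have h4 : (a : ℝ) + P.ell ≤ b := by exact_mod_cast h1
    have h5 : (b : ℝ) ≤ P.T := by exact_mod_cast h.le b hb
    have h6 := P.r_le_ell
    have h7 := P.r_big
    have h8 : 10 ^ 30 * P.th1 * ((b : ℝ) - a) ≤ 1 * ((b : ℝ) - a) :=
      mul_le_mul_of_nonneg_right (th1_small P) (by linarith)
    rw [P.T_eq] at h5
    exact ⟨by linarith, by linarith [P.T1_le, Nat.cast_nonneg (α := ℝ) a], by linarith, by linarith⟩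
  rcases lt_or_gt_of_ne hne with h1 | h1
  · obtain ⟨h2, h3, h4, h5⟩ := key k hk k' hk' h1
    refine ⟨_, h2, h3, ?_, ?_⟩
    · rwa [sub_re, abs_sub_comm, ← sub_re]
    · rw [if_neg (by omega)]
      convert h5 using 3
      simp only [sub_im]
      ring
  · obtain ⟨h2, h3, h4, h5⟩ := key k' hk' k hk h1
    exact ⟨_, h2, h3, h4, by rwa [if_pos h1, one_mul]⟩

lemma far (L : L2 ω) (P : Pm) (d : ι → ℂ) (Ks : Finset ℕ) (ρ : ℕ → Ry ι) (k k' : ℕ)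
    (h : Fam P d ω Ks ρ) (hk : k ∈ Ks) (hk' : k' ∈ Ks) (hne : k ≠ k') (j : ℕ) (hj : j ≤ 2 * P.T0)
    (s : ℕ) (hs : s ≤ 2 * P.T0) : P.R - 4 < ‖(ρ k').Q d ω j - (ρ k).Q d ω s‖ := by
  obtain ⟨Δ, h1, h2, h3, h4⟩ := offs h hk hk' hne
  have h5 : |(|((ρ k').P (rt I d) ω P.T0 - (ρ k).P (rt I d) ω P.T0).im| - Δ)| ≤ Δ / 1000 := by
    have h6 := P.r_big
    generalize ((ρ k').P (rt I d) ω P.T0 - (ρ k).P (rt I d) ω P.T0).im = y at h4 ⊢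
    rw [abs_le] at h4 ⊢
    split_ifs at h4 <;> rcases abs_cases y with h7 | h7 <;>
      exact ⟨by linarith [h4.1, h4.2, h7.1, h7.2], by linarith [h4.1, h4.2, h7.1, h7.2]⟩
  have h6 := P.r_big
  have h7 := t1_small P
  have h8 := t1_R P
  rw [abs_le] at h5
  rw [Q_sub, norm_mul, norm_neg, norm_I, one_mul]
  exact L.path.sep (rt I d) P.R P.R 0 0 P.t1 P.t1 P.t1 P.T0 (ρ k) (ρ k') (h.base k hk).wray
    (h.base k' hk').wray (by linarith) (by linarith) (by linarith) (by linarith) (by linarith)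
    (by linarith [h5.1]) (by rw [P.T0_eq]; linarith [h5.2]) (by linarith [h5.1]) s hs j hj

lemma side (L : L2 ω) (P : Pm) (d : ι → ℂ) (Ks : Finset ℕ) (ρ : ℕ → Ry ι) (k k' j : ℕ)
    (h : Fam P d ω Ks ρ) (hk : k ∈ Ks) (hk' : k' ∈ Ks) (hne : k ≠ k') (j1 : P.n ≤ 5 * j)
    (j2 : 5 * j ≤ 19 * P.n) :
    ∃ s ≤ 2 * P.T0, |((ρ k').Q d ω j - (ρ k).Q d ω s).im| ≤ 3 / 5 ∧
      P.R - 5 ≤ (if k' < k then 1 else -1) * ((ρ k').Q d ω j - (ρ k).Q d ω s).re := by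
  obtain ⟨Δ, h1, h2, h3, h4⟩ := offs h hk hk' hne
  have hf := far L P d Ks ρ k k' h hk hk' hne
  have hσ : (if k' < k then (1 : ℝ) else -1) = 1 ∨ (if k' < k then (1 : ℝ) else -1) = -1 := by
    split_ifs <;> simp
  have h6 := P.r_big
  have p1 : Pth (1 / 1000) (2 * P.T0) ((ρ k).Q d ω) := fun s hs =>
    (L.path.pth d _ _ _ _ _ _ (h.base k hk).wray s hs).trans (by linarith [t1_small P])
  have p2 : Pth (1 / 1000) (2 * P.T0) ((ρ k').Q d ω) := fun s hs =>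
    (L.path.pth d _ _ _ _ _ _ (h.base k' hk').wray s hs).trans (by linarith [t1_small P])
  have e1 : ((ρ k').P (rt I d) ω P.T0 - (ρ k).P (rt I d) ω P.T0).re =
      -((ρ k').Q d ω P.T0 - (ρ k).Q d ω P.T0).im := by rw [Q_sub]; simp
  have e2 : ((ρ k').P (rt I d) ω P.T0 - (ρ k).P (rt I d) ω P.T0).im =
      ((ρ k').Q d ω P.T0 - (ρ k).Q d ω P.T0).re := by rw [Q_sub]; simp
  rw [e1, abs_neg] at h3
  rw [e2] at h4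
  generalize (if k' < k then (1 : ℝ) else -1) = σ at *
  generalize (ρ k).Q d ω = Q at *
  generalize (ρ k').Q d ω = Q' at *
  have hT0 : P.T0 = 2 * P.n := rfl
  have hT := P.T0_eq
  have hn : (0 : ℝ) ≤ P.n := Nat.cast_nonneg _
  simp only [sub_re, sub_im] at h3 h4
  rw [abs_le] at h3 h4
  have rng : ∀ i, P.n ≤ 5 * i → 5 * i ≤ 19 * P.n →
      (Q (2 * P.T0)).im ≤ (Q' i).im ∧ (Q' i).im ≤ (Q 0).im := fun i i1 i2 => by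
    have a1 := abs_le.1 (PthA.geo' p2 (a := P.T0) (b := i) (by omega) (by omega)).2
    have a2 := abs_le.1 (L.pth.geo _ _ _ 0 P.T0 p1 (by omega) (by omega)).2
    have a3 := abs_le.1 (L.pth.geo _ _ _ P.T0 (2 * P.T0) p1 (by omega) le_rfl).2
    have a4 : (P.n : ℝ) ≤ 5 * i := by exact_mod_cast i1
    have a5 : 5 * (i : ℝ) ≤ 19 * P.n := by exact_mod_cast i2
    have a6 : |(i : ℝ) - P.T0| ≤ 2 * P.n := abs_le.2 ⟨by linarith, by linarith⟩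
    simp only [sub_im, Nat.cast_mul, Nat.cast_ofNat, Nat.cast_zero] at a1 a2 a3
    exact ⟨by linarith [a1.1, a3.2, h3.1], by linarith [a1.2, a2.2, h3.2]⟩
  have base : Side (2 * P.T0) Q σ (Q' P.T0) := by
    obtain ⟨a1, a2⟩ := rng P.T0 (by omega) (by omega)
    obtain ⟨s, hs, a3⟩ := L.pth.ivt _ _ _ _ p1 (by norm_num) a1 a2
    obtain ⟨a4, a5⟩ := PthA.geo' p1 (a := P.T0) (b := s) (by omega) hs
    refine ⟨s, hs, by rw [sub_im]; exact a3.trans (by norm_num), ?_⟩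
    simp only [sub_re, sub_im] at a4 a5 ⊢
    rw [abs_le] at a3 a4 a5
    have a6 : |(s : ℝ) - P.T0| ≤ Δ := by
      rcases abs_cases ((s : ℝ) - P.T0) with a7 | a7 <;>
        linarith [a7.1, a3.1, a3.2, a5.1, a5.2, h3.1, h3.2]
    rcases hσ with rfl | rfl <;> linarith [a4.1, a4.2, h4.1]
  have step : ∀ i i', P.n ≤ 5 * i' → 5 * i' ≤ 19 * P.n → ‖Q' i' - Q' i‖ ≤ 3 / 2 →
      Side (2 * P.T0) Q σ (Q' i) → Side (2 * P.T0) Q σ (Q' i') := fun i i' i1 i2 h5 h7 =>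
    L.pth.cross _ σ _ Q _ _ p1 (by norm_num) le_rfl hσ h7 h5
      (fun s hs => lt_of_le_of_lt (by linarith) (hf i' (by omega) s hs)) (rng i' i1 i2).1
      (rng i' i1 i2).2
  have one : ∀ i < 2 * P.T0, ‖Q' (i + 1) - Q' i‖ ≤ 3 / 2 := fun i hi => by
    have a1 := norm_sub_le (Q' (i + 1) - Q' i + I) I
    rw [add_sub_cancel_right, norm_I] at a1
    linarith [p2 i hi]
  have up : ∀ i, 5 * (P.T0 + i) ≤ 19 * P.n → Side (2 * P.T0) Q σ (Q' (P.T0 + i)) := fun i => by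
    induction i with
    | zero => exact fun _ => base
    | succ i ih =>
      exact fun hi => step (P.T0 + i) (P.T0 + i + 1) (by omega) (by omega)
        (one (P.T0 + i) (by omega)) (ih (by omega))
  have down : ∀ i, P.n + 5 * i ≤ 5 * P.T0 → Side (2 * P.T0) Q σ (Q' (P.T0 - i)) := fun i => by
    induction i with
    | zero => exact fun _ => base
    | succ i ih =>
      refine fun hi => step (P.T0 - i) _ (by omega) (by omega) ?_ (ih (by omega))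
      rw [norm_sub_rev, show P.T0 - i = P.T0 - (i + 1) + 1 by omega]
      exact one _ (by omega)
  obtain ⟨s, hs, a1, a2⟩ : Side (2 * P.T0) Q σ (Q' j) := by
    rcases le_total P.T0 j with h5 | h5
    · have := up (j - P.T0) (by omega)
      rwa [show P.T0 + (j - P.T0) = j by omega] at this
    · have := down (P.T0 - j) (by omega)
      rwa [show P.T0 - (P.T0 - j) = j by omega] at this
  refine ⟨s, hs, a1, ?_⟩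
  have a3 := (hf j (by omega) s hs).trans_le (norm_le_abs_re_add_abs_im _)
  rcases hσ with rfl | rfl <;> rcases abs_cases (Q' j - Q s).re with a4 | a4 <;>
    linarith [a4.1, a4.2]

end SideA

theorem sideS (hω : Nm ω) (L : L2 ω) : SideS ω :=
  have _ := hω
  ⟨SideA.far L, SideA.side L⟩

end Pool.Agent.MP_c59ecb_co.sh

end MrgPart5

-- marker of a merged file
example : 731051 + 18035 = 731051 + 18035 := rfl
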