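import Mathlib.Order.BourbakiWitt
import Mathlib.Order.CompletePartialOrder
import Pool.Agent.MP_c59ecb_co.sh.Side

-- ======== part 0: formerly Pool.Agent.MP_c59ecb_co.sh.Cost
section MrgPart0

/-! The sharp cost: additivity, symmetry and the bound by the area covered twice. -/

set_option autoImplicit false

namespace Pool.Agent.MP_c59ecb_co.sh

open MeasureTheory Complex Pool.Agent.MP_c59ecb_co.h76

variable {ι : Type} [Fintype ι] [DecidableEq ι] {ω : ι → ℂ}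

namespace CostP

open scoped ComplexConjugate ENNReal

omit [Fintype ι] [DecidableEq ι] in
lemma closed_HR (c : ι → ℂ) (lam : ℝ) (i j : ι) : IsClosed (HR c ω lam i j) := by
  have h1 := continuous_re.comp (continuous_loc (c i) (ω i))
  have h2 := continuous_re.comp (continuous_loc (c j) (ω j))
  have h3 := continuous_im.comp (continuous_loc (c i) (ω i))
  have h4 := continuous_im.comp (continuous_loc (c j) (ω j))
  exact (isClosed_le continuous_const h1).inter ((isClosed_le h1 continuous_const).inter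
    ((isClosed_le continuous_const h2).inter ((isClosed_le h2 continuous_const).inter
      ((isClosed_le h3.abs continuous_const).inter (isClosed_le h4.abs continuous_const)))))

omit [Fintype ι] [DecidableEq ι] in
lemma HR_sub {c : ι → ℂ} {lam : ℝ} {i j : ι} {p : ℂ} (hp : p ∈ HR c ω lam i j) :
    p ∈ Sq (c i) (ω i) ∧ p ∈ Sq (c j) (ω j) := by
  obtain ⟨h1, h2, h3, h4, h5, h6⟩ := hp
  have := sq_nonneg lam
  exact ⟨⟨abs_le.2 ⟨by linarith, h2⟩, by linarith⟩, ⟨abs_le.2 ⟨h3, by linarith⟩, by linarith⟩⟩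

omit [Fintype ι] [DecidableEq ι] in
lemma HR_ne {c : ι → ℂ} {lam : ℝ} {i j : ι} {p : ℂ} (hp : p ∈ HR c ω lam i j) : i ≠ j := by
  rintro rfl
  obtain ⟨h1, -, -, h4, -⟩ := hp
  linarith

omit [Fintype ι] [DecidableEq ι] in
lemma HR_swap {c : ι → ℂ} {lam : ℝ} {i j : ι} {p : ℂ} (hp : p ∈ HR c ω lam i j)
    (hq : p ∈ HR c ω lam j i) : False := by
  obtain ⟨h1, -, -, -, -⟩ := hp
  obtain ⟨-, -, -, h4, -⟩ := hq
  linarith

lemma vol_mul {u : ℂ} (hu : ‖u‖ = 1) {S : Set ℂ} (hS : MeasurableSet S) :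
    volume ((fun p => u * p) ⁻¹' S) = volume S := by
  let v : Circle := ⟨u, by simp [Submonoid.unitSphere, hu]⟩
  exact (rotation v).measurePreserving.measure_preimage hS.nullMeasurableSet

/-- the two parts of a short displacement -/
lemma parts {ζ z : ℂ} (h : ‖ζ‖ = 1) {r : ℝ} (hz : ‖z‖ ≤ r) :
    |(z * conj ζ).re| ≤ r ∧ |(z * conj ζ).im| ≤ r := by
  have h1 : ‖z * conj ζ‖ ≤ r := by rwa [norm_mul, Complex.norm_conj, h, mul_one]
  exact ⟨(abs_re_le_norm _).trans h1, (abs_im_le_norm _).trans h1⟩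

lemma near {ζ z : ℂ} (h : ‖ζ - 1‖ ≤ 1 / 100) {r : ℝ} (hz : ‖z‖ ≤ r) :
    |(z * conj ζ).re - z.re| ≤ r / 100 := by
  have e : (z * conj ζ).re - z.re = (z * conj (ζ - 1)).re := by
    rw [← sub_re, map_sub, map_one]
    congr 1
    ring
  rw [e]
  refine (abs_re_le_norm _).trans ?_
  rw [norm_mul, Complex.norm_conj]
  have := mul_le_mul hz h (norm_nonneg _) ((norm_nonneg _).trans hz)
  linarith

lemma loc_add' (c ζ p z : ℂ) : loc c ζ (p + z) = loc c ζ p + z * conj ζ := by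
  unfold loc
  ring

/-- an interval of length `u` that starts at distance `a` from a point of the side -/
lemma side {x u a : ℝ} (hx : |x| ≤ 1 / 2) (ha : 0 ≤ a) (h : a + u ≤ 1 / 2) :
    ∃ x1 σ : ℝ, (σ = 1 ∨ σ = -1) ∧ ∀ s ∈ Set.Icc x1 (x1 + u),
      a ≤ σ * s ∧ σ * s ≤ a + u ∧ |x + s| ≤ 1 / 2 := by
  have h1 := abs_le.1 hx
  rcases le_total x 0 with h2 | h2
  · exact ⟨a, 1, Or.inl rfl, fun s hs => ⟨by linarith [hs.1], by linarith [hs.2],
      abs_le.2 ⟨by linarith [hs.1], by linarith [hs.2]⟩⟩⟩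
  · exact ⟨-a - u, -1, Or.inr rfl, fun s hs => ⟨by linarith [hs.2], by linarith [hs.1],
      abs_le.2 ⟨by linarith [hs.1], by linarith [hs.2]⟩⟩⟩

/-- a point of the region of a good pair lies in no third square -/
lemma third (hω : Nm ω) {c : ι → ℂ} {lam : ℝ} (h0 : 0 < lam) (h1 : lam ≤ 1 / 1000) {i j k : ι}
    (oi : ov c ω i ≤ lam ^ 4 / 200) (ti : ‖ω i - 1‖ ≤ 1 / 100) (oj : ov c ω j ≤ lam ^ 4 / 200)
    (tj : ‖ω j - 1‖ ≤ 1 / 100) {p : ℂ} (hp : p ∈ HR c ω lam i j) (hk : p ∈ Sq (c k) (ω k)) :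
    k = i ∨ k = j := by
  by_contra hne
  obtain ⟨ki, kj⟩ := not_or.1 hne
  obtain ⟨u, hu⟩ : ∃ u : ℝ, u = lam ^ 2 / 10 := ⟨_, rfl⟩
  have u0 : 0 < u := by rw [hu]; positivity
  have u1 : u ≤ 1 / 1000 := by rw [hu]; nlinarith
  have u2 : lam ^ 4 / 200 = u ^ 2 / 2 := by rw [hu]; ring
  have u3 : lam ^ 2 / 2 = 5 * u := by rw [hu]; ring
  obtain ⟨p1, p2, p3, p4, p5, p6⟩ := hp
  rw [u3] at p5 p6
  rw [u2] at oi oj
  obtain ⟨x1, σ, hσ, hx⟩ := side (u := u) (a := 2 * u) hk.1 (by linarith) (by linarith)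
  obtain ⟨y1, τ, hτ, hy⟩ := side (u := u) (a := 0) hk.2 le_rfl (by linarith)
  have hA : (ω k).re ^ 2 + (ω k).im ^ 2 = 1 := by
    have h2 := Complex.normSq_eq_norm_sq (ω k)
    rw [hω.1 k, Complex.normSq_apply] at h2
    nlinarith
  have hB := abs_le.1 (hω.2 k)
  have hC : 7 / 10 ≤ (ω k).re := by nlinarith [abs_nonneg (ω k).im, hω.2 k]
  have key : ∀ s ∈ Set.Icc x1 (x1 + u), ∀ t ∈ Set.Icc y1 (y1 + u),
      p + ω k * ⟨s, t⟩ ∈ Sq (c k) (ω k) ∧ ‖ω k * (⟨s, t⟩ : ℂ)‖ ≤ 4 * u ∧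
        7 / 10 * u ≤ σ * (ω k * (⟨s, t⟩ : ℂ)).re := by
    intro s hs t ht
    obtain ⟨a1, a2, a3⟩ := hx s hs
    obtain ⟨b1, b2, b3⟩ := hy t ht
    have t1 : |t| ≤ u := by
      rcases hτ with rfl | rfl <;> exact abs_le.2 ⟨by linarith, by linarith⟩
    have t2 := abs_le.1 t1
    refine ⟨?_, ?_, ?_⟩
    · simp only [Sq, Set.mem_ofPred_eq, loc_shift, mul_conj_unit (hω.1 k), one_mul, add_re, add_im]
      exact ⟨a3, b3⟩
    · rw [norm_mul, hω.1 k, one_mul]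
      refine norm_mk_le (by linarith) ?_
      rcases hσ with rfl | rfl <;> nlinarith
    · have t3 : |(ω k).im * t| ≤ (ω k).re * u := by
        rw [abs_mul]
        exact mul_le_mul (hω.2 k) t1 (abs_nonneg _) (by linarith)
      have t4 := abs_le.1 t3
      simp only [mul_re]
      rcases hσ with rfl | rfl <;> nlinarith
  have fin : ∀ l, l ≠ k → ov c ω l ≤ u ^ 2 / 2 →
      (∀ s ∈ Set.Icc x1 (x1 + u), ∀ t ∈ Set.Icc y1 (y1 + u),
        p + ω k * ⟨s, t⟩ ∈ Sq (c l) (ω l)) → False := by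
    intro l hl ol hS
    have h3 := box_le (hω.1 k) p (x1 := x1) (x2 := x1 + u) (y1 := y1) (y2 := y1 + u)
      (by linarith) (ov_nonneg c ω l) (fun s t hs ht => Set.mem_inter (hS s hs t ht) (key s hs t ht).1)
      (inter_le hω.1 hl.symm)
    nlinarith
  rcases hσ with rfl | rfl
  · refine fin j (Ne.symm kj) oj fun s hs t ht => ?_
    obtain ⟨-, k2, k3⟩ := key s hs t ht
    obtain ⟨m1, m2⟩ := parts (hω.1 j) k2
    have m3 := abs_le.1 (near tj k2)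
    have m4 := abs_le.1 m1
    have m5 := abs_le.1 m2
    have m6 := abs_le.1 p6
    simp only [Sq, Set.mem_ofPred_eq, loc_add', add_re, add_im]
    exact ⟨abs_le.2 ⟨by linarith, by linarith⟩, abs_le.2 ⟨by linarith, by linarith⟩⟩
  · refine fin i (Ne.symm ki) oi fun s hs t ht => ?_
    obtain ⟨-, k2, k3⟩ := key s hs t ht
    obtain ⟨m1, m2⟩ := parts (hω.1 i) k2
    have m3 := abs_le.1 (near ti k2)
    have m4 := abs_le.1 m1
    have m5 := abs_le.1 m2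
    have m6 := abs_le.1 p5
    simp only [Sq, Set.mem_ofPred_eq, loc_add', add_re, add_im]
    exact ⟨abs_le.2 ⟨by linarith, by linarith⟩, abs_le.2 ⟨by linarith, by linarith⟩⟩

/-- a point that is deep in two squares forces an overlap -/
lemma both (hω : Nm ω) {c : ι → ℂ} {lam : ℝ} (h0 : 0 < lam) {i j : ι} (hij : i ≠ j)
    (oi : ov c ω i ≤ lam ^ 4 / 200) {p : ℂ}
    (a1 : |(loc (c i) (ω i) p).re| ≤ 1 / 2 - lam ^ 2 / 2)
    (a2 : |(loc (c i) (ω i) p).im| ≤ 1 / 2 - lam ^ 2 / 2)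
    (b1 : |(loc (c j) (ω j) p).re| ≤ 1 / 2 - lam ^ 2 / 2)
    (b2 : |(loc (c j) (ω j) p).im| ≤ 1 / 2 - lam ^ 2 / 2) : False := by
  obtain ⟨u, hu⟩ : ∃ u : ℝ, u = lam ^ 2 / 10 := ⟨_, rfl⟩
  have u0 : 0 < u := by rw [hu]; positivity
  have u2 : lam ^ 4 / 200 = u ^ 2 / 2 := by rw [hu]; ring
  have u3 : lam ^ 2 / 2 = 5 * u := by rw [hu]; ring
  rw [u3] at a1 a2 b1 b2
  rw [u2] at oi
  have key : ∀ l, |(loc (c l) (ω l) p).re| ≤ 1 / 2 - 5 * u →
      |(loc (c l) (ω l) p).im| ≤ 1 / 2 - 5 * u → ∀ s ∈ Set.Icc 0 u, ∀ t ∈ Set.Icc 0 u,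
      p + 1 * (⟨s, t⟩ : ℂ) ∈ Sq (c l) (ω l) := by
    intro l e1 e2 s hs t ht
    have k2 : ‖1 * (⟨s, t⟩ : ℂ)‖ ≤ 2 * u := by
      rw [one_mul]
      exact norm_mk_le (by linarith) (by nlinarith [hs.1, hs.2, ht.1, ht.2])
    obtain ⟨m1, m2⟩ := parts (hω.1 l) k2
    have m4 := abs_le.1 m1
    have m5 := abs_le.1 m2
    have m6 := abs_le.1 e1
    have m7 := abs_le.1 e2
    simp only [Sq, Set.mem_ofPred_eq, loc_add', add_re, add_im]
    exact ⟨abs_le.2 ⟨by linarith, by linarith⟩, abs_le.2 ⟨by linarith, by linarith⟩⟩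
  have h3 := box_le norm_one p (x1 := 0) (x2 := u) (y1 := 0) (y2 := u) u0.le (ov_nonneg c ω i)
    (fun s t hs ht => Set.mem_inter (key i a1 a2 s hs t ht) (key j b1 b2 s hs t ht))
    (inter_le hω.1 hij.symm)
  nlinarith

/-- the square has small overlap and small tilt -/
def Gd (c ω : ι → ℂ) (lam : ℝ) (i : ι) : Prop :=
  ov c ω i ≤ lam ^ 4 / 200 ∧ ‖ω i - 1‖ ≤ 1 / 100

open Classical in
/-- the regions that are counted -/
noncomputable def Rg (c ω : ι → ℂ) (lam : ℝ) (a : Bool × ι × ι) : Set ℂ :=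
  if Gd c ω lam a.2.1 ∧ Gd c ω lam a.2.2 then
    (if a.1 then HR c ω lam a.2.1 a.2.2 else (fun p => I * p) ⁻¹' HR (rt I c) ω lam a.2.1 a.2.2)
  else ∅

lemma meas_Rg (c : ι → ℂ) (lam : ℝ) (a : Bool × ι × ι) : MeasurableSet (Rg c ω lam a) := by
  unfold Rg
  split_ifs
  · exact (closed_HR _ _ _ _).measurableSet
  · exact ((closed_HR _ _ _ _).preimage (by fun_prop)).measurableSet
  · exact MeasurableSet.empty

lemma mem_Rg {c : ι → ℂ} {lam : ℝ} {b : Bool} {i j : ι} {p : ℂ} (h : p ∈ Rg c ω lam (b, i, j)) :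
    Gd c ω lam i ∧ Gd c ω lam j ∧
      (b = true ∧ p ∈ HR c ω lam i j ∨ b = false ∧ I * p ∈ HR (rt I c) ω lam i j) := by
  unfold Rg at h
  split_ifs at h with h1 h2
  · exact ⟨h1.1, h1.2, Or.inl ⟨h2, h⟩⟩
  · exact ⟨h1.1, h1.2, Or.inr ⟨by simpa using h2, h⟩⟩
  · exact h.elim

lemma Rg_sq {c : ι → ℂ} {lam : ℝ} {b : Bool} {i j : ι} {p : ℂ} (h : p ∈ Rg c ω lam (b, i, j)) :
    i ≠ j ∧ p ∈ Sq (c i) (ω i) ∧ p ∈ Sq (c j) (ω j) := by
  obtain ⟨-, -, ⟨-, h⟩ | ⟨-, h⟩⟩ := mem_Rg h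
  · exact ⟨HR_ne h, HR_sub h⟩
  · exact ⟨HR_ne h, mem_rot.1 (HR_sub h).1, mem_rot.1 (HR_sub h).2⟩

lemma Rg_third (hω : Nm ω) {c : ι → ℂ} {lam : ℝ} (h0 : 0 < lam) (h1 : lam ≤ 1 / 1000) {b : Bool}
    {i j k : ι} {p : ℂ} (h : p ∈ Rg c ω lam (b, i, j)) (hk : p ∈ Sq (c k) (ω k)) :
    k = i ∨ k = j := by
  obtain ⟨gi, gj, ⟨-, h⟩ | ⟨-, h⟩⟩ := mem_Rg h
  · exact third hω h0 h1 gi.1 gi.2 gj.1 gj.2 h hk
  · exact third hω h0 h1 ((ov_rot i).trans_le gi.1) gi.2 ((ov_rot j).trans_le gj.1) gj.2 h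
      (mem_rot.2 hk)

omit [Fintype ι] [DecidableEq ι] in
lemma V_re {c : ι → ℂ} {lam : ℝ} {i j : ι} {p : ℂ} (h : I * p ∈ HR (rt I c) ω lam i j) :
    |(loc (c i) (ω i) p).re| ≤ 1 / 2 - lam ^ 2 / 2 ∧
      |(loc (c j) (ω j) p).re| ≤ 1 / 2 - lam ^ 2 / 2 := by
  have e : ∀ l, (loc (rt I c l) (ω l) (I * p)).im = (loc (c l) (ω l) p).re := fun l => by
    have : loc (rt I c l) (ω l) (I * p) = I * loc (c l) (ω l) p := by unfold loc rt; ring
    rw [this]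
    simp
  obtain ⟨-, -, -, -, h5, h6⟩ := h
  rw [e] at h5 h6
  exact ⟨h5, h6⟩

lemma mixed (hω : Nm ω) {c : ι → ℂ} {lam : ℝ} (h0 : 0 < lam) {i j : ι} (gi : Gd c ω lam i) {p : ℂ}
    (h : p ∈ HR c ω lam i j)
    (h' : I * p ∈ HR (rt I c) ω lam i j ∨ I * p ∈ HR (rt I c) ω lam j i) : False := by
  have hij := HR_ne h
  obtain ⟨-, -, -, -, h5, h6⟩ := h
  rcases h' with h' | h'
  · exact both hω h0 hij gi.1 (V_re h').1 h5 (V_re h').2 h6
  · exact both hω h0 hij gi.1 (V_re h').2 h5 (V_re h').1 h6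

lemma Rg_disj (hω : Nm ω) {c : ι → ℂ} {lam : ℝ} (h0 : 0 < lam) (h1 : lam ≤ 1 / 1000)
    {a a' : Bool × ι × ι} (hne : a ≠ a') : Disjoint (Rg c ω lam a) (Rg c ω lam a') := by
  obtain ⟨b, i, j⟩ := a
  obtain ⟨b', i', j'⟩ := a'
  refine Set.disjoint_left.2 fun p hp hq => hne ?_
  obtain ⟨n', si, sj⟩ := Rg_sq hq
  have e1 := Rg_third hω h0 h1 hp si
  have e2 := Rg_third hω h0 h1 hp sj
  obtain ⟨gi, gj, kp⟩ := mem_Rg hp
  obtain ⟨-, -, kq⟩ := mem_Rg hq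
  clear hp hq
  rcases e1 with rfl | rfl <;> rcases e2 with rfl | rfl
  · exact (n' rfl).elim
  · rcases kp with ⟨rfl, kp⟩ | ⟨rfl, kp⟩ <;> rcases kq with ⟨rfl, kq⟩ | ⟨rfl, kq⟩
    · rfl
    · exact (mixed hω h0 gi kp (Or.inl kq)).elim
    · exact (mixed hω h0 gi kq (Or.inl kp)).elim
    · rfl
  · rcases kp with ⟨rfl, kp⟩ | ⟨rfl, kp⟩ <;> rcases kq with ⟨rfl, kq⟩ | ⟨rfl, kq⟩
    · exact (HR_swap kp kq).elim
    · exact (mixed hω h0 gi kp (Or.inr kq)).elim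
    · exact (mixed hω h0 gj kq (Or.inr kp)).elim
    · exact (HR_swap kp kq).elim
  · exact (n' rfl).elim

lemma vol_true (c : ι → ℂ) (lam : ℝ) (i j : ι) :
    (volume (Rg c ω lam (true, i, j))).toReal = AH c ω lam i j := by
  unfold Rg AH Gd
  split_ifs with h1 h2 <;> simp_all

lemma vol_false (c : ι → ℂ) (lam : ℝ) (i j : ι) :
    (volume (Rg c ω lam (false, i, j))).toReal = AH (rt I c) ω lam i j := by
  unfold Rg AH Gd
  simp only [ov_rt I_pow_four, Bool.false_eq_true, if_false]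
  split_ifs with h1
  · rw [vol_mul norm_I (closed_HR _ _ _ _).measurableSet]
  · simp

lemma total (hω : Nm ω) {c : ι → ℂ} {lam W : ℝ} (h0 : 0 < lam) (h1 : lam ≤ 1 / 1000) (hW : 0 ≤ W)
    (hM : volume (Mu c ω) ≤ ENNReal.ofReal W) :
    ∑ i, ∑ j, AH c ω lam i j + ∑ i, ∑ j, AH (rt I c) ω lam i j ≤ W := by
  have e1 : volume (⋃ a ∈ (Finset.univ : Finset (Bool × ι × ι)), Rg c ω lam a) =
      ∑ a, volume (Rg c ω lam a) :=
    measure_biUnion_finset (fun a _ b _ hab => Rg_disj hω h0 h1 hab) fun a _ => meas_Rg c lam a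
  have e2 : (⋃ a ∈ (Finset.univ : Finset (Bool × ι × ι)), Rg c ω lam a) ⊆ Mu c ω := by
    intro p hp
    simp only [Set.mem_iUnion] at hp
    obtain ⟨⟨b, i, j⟩, -, hp⟩ := hp
    exact ⟨i, j, Rg_sq hp⟩
  have e3 : ∑ a, volume (Rg c ω lam a) ≤ ENNReal.ofReal W := e1 ▸ (measure_mono e2).trans hM
  have e4 : ∀ a, volume (Rg c ω lam a) ≠ ⊤ := fun a =>
    ne_top_of_le_ne_top ENNReal.ofReal_ne_top
      ((Finset.single_le_sum (f := fun a => volume (Rg c ω lam a)) (fun _ _ => zero_le)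
        (Finset.mem_univ a)).trans e3)
  have e5 := ENNReal.toReal_le_of_le_ofReal hW e3
  rw [ENNReal.toReal_sum fun a _ => e4 a] at e5
  simpa only [Fintype.sum_prod_type, Fintype.sum_bool, vol_true, vol_false] using e5

lemma AH_neg (c : ι → ℂ) (lam : ℝ) (i j : ι) : AH (rt (-1) c) ω lam i j = AH c ω lam j i := by
  have e : HR (rt (-1) c) ω lam i j = (fun p => -1 * p) ⁻¹' HR c ω lam j i := by
    have e1 : ∀ l p, loc (rt (-1) c l) (ω l) p = -loc (c l) (ω l) (-1 * p) := fun l p => by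
      unfold loc rt
      ring
    ext p
    simp only [HR, Set.mem_preimage, Set.mem_ofPred_eq, e1, neg_re, neg_im, abs_neg]
    constructor <;> rintro ⟨h1, h2, h3, h4, h5, h6⟩ <;>
      exact ⟨by linarith, by linarith, by linarith, by linarith, h6, h5⟩
  unfold AH
  simp only [ov_rt (u := -1) (by norm_num)]
  rw [e, vol_mul (by simp) (closed_HR _ _ _ _).measurableSet]
  simp only [and_comm]

omit [Fintype ι] [DecidableEq ι] in
lemma Flat_neg (c : ι → ℂ) (lam : ℝ) (i : ι) : Flat (rt (-1) c) lam i ↔ Flat c lam i := by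
  have e1 : ∀ k, |(rt (-1) c k).re - (rt (-1) c i).re| = |(c k).re - (c i).re| := fun k => by
    rw [← abs_neg]
    congr 1
    simp [rt]
    ring
  have e2 : ∀ k, |(rt (-1) c k).im - (rt (-1) c i).im - 1| = |(c k).im - (c i).im + 1| :=
    fun k => by
      rw [← abs_neg]
      congr 1
      simp [rt]
      ring
  have e3 : ∀ k, |(rt (-1) c k).im - (rt (-1) c i).im + 1| = |(c k).im - (c i).im - 1| :=
    fun k => by
      rw [← abs_neg]
      congr 1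
      simp [rt]
      ring
  unfold Flat
  simp only [e1, e2, e3]
  exact and_comm

omit [Fintype ι] [DecidableEq ι] in
lemma Flat_neg2 (c : ι → ℂ) (lam : ℝ) (i j : ι) :
    (Flat (rt (-1) c) lam i ∧ Flat (rt (-1) c) lam j) ↔ (Flat c lam j ∧ Flat c lam i) := by
  rw [Flat_neg, Flat_neg, and_comm]

lemma cH_neg (c : ι → ℂ) (lam : ℝ) (i j : ι) : cH (rt (-1) c) ω lam i j = cH c ω lam j i := by
  unfold cH
  rw [AH_neg]
  have e := Flat_neg2 c lam i j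
  by_cases h : Flat c lam j ∧ Flat c lam i
  · rw [if_pos h, if_pos (e.2 h)]
  · rw [if_neg h, if_neg (mt e.1 h)]

lemma cV_neg (c : ι → ℂ) (lam : ℝ) (i j : ι) : cV (rt (-1) c) ω lam i j = cV c ω lam j i := by
  unfold cV
  rw [← rt_neg_I, AH_neg]
  have e := Flat_neg2 (rt I c) lam i j
  by_cases h : Flat (rt I c) lam j ∧ Flat (rt I c) lam i
  · rw [if_pos h, if_pos (e.2 h)]
  · rw [if_neg h, if_neg (mt e.1 h)]

lemma split1 (c : ι → ℂ) (lam : ℝ) (i j : ι) :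
    cH (rt I c) ω lam i j + cV c ω lam i j = AH (rt I c) ω lam i j := by
  unfold cH cV
  split_ifs <;> simp

lemma split2 (c : ι → ℂ) (lam : ℝ) (i j : ι) :
    cH c ω lam i j + cV (rt I c) ω lam j i = AH c ω lam i j := by
  unfold cH cV
  rw [rt_I_I, AH_neg]
  have e := Flat_neg2 c lam j i
  by_cases h : Flat c lam i ∧ Flat c lam j
  · rw [if_pos h, if_pos (e.2 h), add_zero]
  · rw [if_neg h, if_neg (mt e.1 h), zero_add]

lemma mono (c : ι → ℂ) (lam : ℝ) {A B : Finset ι} (h : A ⊆ B) :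
    Cost c ω lam A ≤ Cost c ω lam B :=
  (Finset.sum_le_sum fun i _ => Finset.sum_le_sum_of_subset_of_nonneg h fun j _ _ =>
    add_nonneg (cH_nonneg _ i j) (cV_nonneg _ i j)).trans
    (Finset.sum_le_sum_of_subset_of_nonneg h fun i _ _ => Finset.sum_nonneg fun j _ =>
      add_nonneg (cH_nonneg _ i j) (cV_nonneg _ i j))

lemma add (c : ι → ℂ) (lam : ℝ) {A B : Finset ι} (h : Disjoint A B) :
    Cost c ω lam A + Cost c ω lam B ≤ Cost c ω lam (A ∪ B) := by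
  unfold Cost
  rw [Finset.sum_union h]
  exact add_le_add
    (Finset.sum_le_sum fun i _ => Finset.sum_le_sum_of_subset_of_nonneg Finset.subset_union_left
      fun j _ _ => add_nonneg (cH_nonneg _ i j) (cV_nonneg _ i j))
    (Finset.sum_le_sum fun i _ => Finset.sum_le_sum_of_subset_of_nonneg Finset.subset_union_right
      fun j _ _ => add_nonneg (cH_nonneg _ i j) (cV_nonneg _ i j))

end CostP

theorem costS (hω : Nm ω) (L : L0) : CostS ω where
  add c lam A B h := CostP.add c lam h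
  sum c lam κ S Z h := by
    unfold Cost
    rw [Finset.sum_biUnion fun a ha b hb hab => h a ha b hb hab]
    exact Finset.sum_le_sum fun a ha => Finset.sum_le_sum fun i _ =>
      Finset.sum_le_sum_of_subset_of_nonneg (Finset.subset_biUnion_of_mem Z ha)
        fun j _ _ => add_nonneg (cH_nonneg _ i j) (cV_nonneg _ i j)
  mono c lam A B h := CostP.mono c lam h
  neg c lam A := by
    unfold Cost
    simp only [CostP.cH_neg, CostP.cV_neg]
    exact Finset.sum_comm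
  master c lam W h0 h1 hW hM := by
    refine le_trans (le_of_eq ?_) (CostP.total hω h0 h1 hW hM)
    simp only [Cost, ← CostP.split1 c, ← CostP.split2 c, Finset.sum_add_distrib]
    rw [Finset.sum_comm (f := fun i j => cV (rt I c) ω lam j i)]
    ring

end Pool.Agent.MP_c59ecb_co.sh

end MrgPart0

-- ======== part 1: formerly Pool.Agent.MP_c59ecb_co.sh.Low
section MrgPart1

/-! Small tilts carry little mass. -/

set_option autoImplicit false

namespace Pool.Agent.MP_c59ecb_co.sh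

open MeasureTheory Complex Pool.Agent.MP_c59ecb_co.h76

variable {ι : Type} [Fintype ι] [DecidableEq ι] {ω : ι → ℂ}

namespace Low

/-- two transversal rays end in the frame, so their offset is almost an integer -/
lemma second (hω : Nm ω) {c : ι → ℂ} {t n l k : ℕ} {θ a ε : ℝ} {J : ℕ → ι} {V d g : ℕ → ℝ}
    {f : ι → ℝ} (h : Ray c ω f t θ J V d g) (ht : ∀ k ≤ t, ‖ω (J k) - 1‖ ≤ θ)
    (hθ : θ ≤ 1 / 1000) (hl : 10 ≤ l) (hl' : θ * (l + 5) ≤ 1 / 200) (hn : 1000 * l ≤ n)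
    (ha1 : n ≤ 2 * a) (ha2 : 2 * a ≤ n + 1) (hnt : (t : ℝ) ≤ 2 * n)
    (z1 : (ex c ω (J 0) (V 0)).re = -a - 10) (z2 : |(ex c ω (J 0) (V 0)).im| ≤ a + 1)
    (c1 : ∀ p : ℂ, |p.re| ≤ a + 3 * n → |p.im| ≤ a + 3 * n → Cov (rt I c) ω p)
    (c2 : ∀ i, a + 1 ≤ (rt I c i).re → ω i = 1)
    (c3 : ∀ i j, a + 1 ≤ (rt I c i).re → a + 1 ≤ (rt I c j).re →
      ∃ z : ℤ, |(rt I c i).re - (rt I c j).re - z| ≤ ε)
    (hkl : k + l ≤ t) {u v : ℝ} (hu0 : 0 ≤ u) (hu : u * l ≤ 1 / 4000)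
    (hv : |v| ≤ 1 / 4) {St : Finset ι} (hSt : ∀ j ∈ St, ∃ m ≤ t, J m = j)
    (hF : FF (rt I c) ω (ft (rt I c) ω l) St (2 * n) (J k) v ≤ ENNReal.ofReal (2 * u))
    (hF' : FF (rt I c) ω (ft (rt I c) ω l) St (2 * n) (J (k + l)) v ≤ ENNReal.ofReal (2 * u)) :
    ∃ z : ℤ, |V (k + l) - V k - l * (ω (J k)).im - z| ≤
      12 * u + (l + 2) * ∑ j ∈ Finset.Ico k (k + l), g j + θ ^ 2 + ε := by
  have hθ0 := (norm_nonneg _).trans (ht 0 (Nat.zero_le _))
  have l1 : (10 : ℝ) ≤ l := by exact_mod_cast hl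
  have l2 : 1000 * (l : ℝ) ≤ n := by exact_mod_cast hn
  have l4 : 10 * u ≤ u * l := by nlinarith
  have l5 : (θ + 4 * u) * l ≤ 6 / 1000 := by nlinarith
  have l6 : (θ + 4 * u) * (2 * n) ≤ 1 / 200 * (2 * n) := by gcongr; linarith
  have hk : k ≤ t := by omega
  have hk' : (k : ℝ) ≤ 2 * n := le_trans (by exact_mod_cast hk) hnt
  obtain ⟨o1, o2⟩ := offset hω.1 h ht hθ hkl hl' hv
  set c' : ι → ℂ := fun i => I * c i with hc'
  have st : -a - n / 500 - 4 ≤ (ex c' ω (J k) v).re ∧ (ex c' ω (J k) v).re ≤ a + n / 500 + 4 ∧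
      -a - 12 ≤ (ex c' ω (J k) v).im ∧ (ex c' ω (J k) v).im ≤ -a + 2 * n := by
    obtain ⟨a1, a2, a3⟩ := h.geo hω.1 ht le_rfl (by linarith) (Nat.zero_le k) hk
    have v1 := abs_le.1 (h.v k hk)
    have v3 := abs_le.1 hv
    have n2 : ‖ω (J k) * ⟨v - 1 / 2, -(V k + 1 / 2)⟩‖ ≤ 2 := by
      rw [norm_mul, hω.1, one_mul]
      exact norm_mk_le (by norm_num) (by nlinarith only [v1.1, v1.2, v3.1, v3.2])
    have a4 := abs_le.1 ((abs_re_le_norm _).trans n2)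
    have a5 := abs_le.1 ((abs_im_le_norm _).trans n2)
    have a0 : (0 : ℝ) ≤ k := by positivity
    have a6 : θ * k ≤ 1 / 1000 * k := by gcongr
    have a7 : 0 ≤ (k : ℝ) * (1 - 2 * θ) := mul_nonneg a0 (by linarith)
    rw [Nat.cast_zero, sub_zero] at a1 a2 a3
    rw [abs_le] at a3 z2
    rw [hc', ex_rot _ v (V k)]
    simp only [I_mul_re, I_mul_im, add_re, add_im]
    exact ⟨by linarith, by linarith, by linarith, by linarith⟩
  obtain ⟨s1, s2, s3, s4⟩ := st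
  obtain ⟨K, K', U, e, y, U', e', y', e1, e2, e3, e4, r, r', t1, t2, -, t4⟩ :=
    two_rays (c := c') hω.1 hω.2 (l := l) (T := 2 * n) (by omega) (St := St) (G := 2 * u)
    (P := θ + 4 * u) (p₀ := θ) (v := v) (by linarith) (by linarith) (ht k hk) (ht _ hkl)
    (by linarith) (by linarith) (by linarith) o1 (fun p k1 k2 k3 => by
      rw [abs_le] at k3
      push_cast at k2 k3
      exact c1 p (abs_le.2 ⟨by linarith, by linarith⟩) (abs_le.2 ⟨by linarith, by linarith⟩))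
    (fun i₀ hi j hj s z k1 k2 k3 k4 => by
      obtain ⟨m, hm, rfl⟩ := hSt j hj
      rcases hi with rfl | rfl
      · exact no_meet hω.1 h ht hθ hk hm hv (by linarith) k1 k2 k3 k4
      · exact no_meet hω.1 h ht hθ hkl hm hv (by linarith) k1 k2 k3 k4) hF hF'
  obtain ⟨n', hn'⟩ : ∃ n', 2 * n = n' + 1 := ⟨2 * n - 1, by omega⟩
  have hn'' : 2 * (n : ℝ) = n' + 1 := by exact_mod_cast hn'
  rw [hn'] at r r' t1 t2 t4
  have fin : ∀ (K : ℕ → ι) (U e y : ℕ → ℝ), Ray c' ω (ft c' ω l) (n' + 1) (2 * (2 * u)) K U e y →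
      (∀ j ≤ n' + 1, ‖ω (K j) - 1‖ ≤ θ + 4 * u) →
      |(ex c' ω (K 0) (U 0)).re - (ex c' ω (J k) v).re| ≤ 2 →
      a + 1 ≤ (c' (K n')).re ∧ (ex c' ω (K n') (U n')).re = (c' (K n')).re + 1 / 2 := by
    intro K U e y r t1 k1
    obtain ⟨a1, -, -⟩ :=
      r.geo hω.1 t1 (by linarith) (by linarith) (Nat.zero_le n') (Nat.le_succ _)
    have b4 := norm_le_of_mem (hω.1 _)
      (ex_mem (c := c') (i := K n') hω.1 (r.v n' (Nat.le_succ _)))
    have b5 := abs_le.1 ((abs_re_le_norm _).trans b4)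
    have b7 : (θ + 4 * u) * n' ≤ 1 / 200 * n' := by gcongr; linarith
    rw [Nat.cast_zero, sub_zero] at a1
    rw [abs_le] at k1
    simp only [sub_re] at b5
    have b8 : a + 1 ≤ (c' (K n')).re := by linarith
    refine ⟨b8, ?_⟩
    rw [ex, c2 _ b8, one_mul, add_re]
  have a1 := abs_le.1 ((abs_re_le_norm _).trans o1)
  simp only [sub_re, mul_re, I_re, I_im, natCast_re, natCast_im, zero_mul,
    mul_zero, sub_zero] at a1
  obtain ⟨b1, hz⟩ := fin K U e y r t1 (by simp [e1, e2])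
  obtain ⟨b2, hz'⟩ := fin K' U' e' y' r' t2
    (by rw [e3, e4]; exact abs_le.2 ⟨by linarith, by linarith⟩)
  obtain ⟨z, b3⟩ := c3 _ _ b2 b1
  have a3 := (t4 n' (Nat.lt_succ_self _)).2
  rw [sub_re, hz, hz'] at a3
  have a4 : ((θ + 4 * u) * l + 2) * (2 * (2 * u)) ≤ 3 * (2 * (2 * u)) := by gcongr; linarith
  refine ⟨z, ?_⟩
  change |(c' (K' n')).re - (c' (K n')).re - z| ≤ ε at b3
  rw [abs_le] at a3 o2 b3
  exact abs_le.2 ⟨by linarith, by linarith⟩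

lemma arith {l m s u γ θ δ ε : ℝ} (hl : 10 ≤ l) (m0 : 0 ≤ m) (m1 : l * m ≤ 1)
    (m2 : 1 ≤ 2 * (l * m)) (hu : 0 ≤ u) (hγ : 0 ≤ γ) (θ0 : 0 ≤ θ) (θ1 : θ ≤ 1 / 2)
    (hε : ε ≤ θ / 2) (hs : |s| ≤ δ) (h : u * l ≤ 1 / 4000 → s ^ 2 ≤ 4 * l * γ ∨
      l * |s| ≤ 42 * θ + 2 * (12 * u + (l + 2) * γ + θ ^ 2 + ε)) :
    s ^ 2 ≤ (4 * l + 12 * δ) * γ + 4 * (88 * m * θ) ^ 2 + (96 * δ * m + 4000 * δ ^ 2 * l) * u := by
  rw [← sq_abs] at h ⊢
  have a4 := abs_nonneg s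
  generalize |s| = σ at *
  have δ0 : 0 ≤ δ := a4.trans hs
  have l0 : 0 ≤ l := by linarith
  have p1 : 0 ≤ l * γ := by positivity
  have p2 : 0 ≤ δ * γ := by positivity
  have p3 : 0 ≤ (88 * m * θ) ^ 2 := by positivity
  have p4 : 0 ≤ δ * m * u := by positivity
  have p5 : 0 ≤ δ ^ 2 * l * u := by positivity
  by_cases hu' : u * l ≤ 1 / 4000
  · rcases h hu' with h | h
    · linarith
    · have b1 : l * σ ≤ 44 * θ + 24 * u + 3 * (l * γ) := by nlinarith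
      have b2 : σ * 1 ≤ σ * (2 * (l * m)) := by gcongr
      have b3 : m * (l * σ) ≤ m * (44 * θ + 24 * u + 3 * (l * γ)) := by gcongr
      have b4 : l * m * γ ≤ 1 * γ := by gcongr
      have b5 : σ ≤ 88 * m * θ + (48 * m * u + 6 * γ) := by linarith
      by_cases b6 : σ ≤ 2 * (88 * m * θ)
      · have : σ ^ 2 ≤ (2 * (88 * m * θ)) ^ 2 := by gcongr
        linarith
      · have b7 : σ ≤ 2 * (48 * m * u + 6 * γ) := by linarith
        have : σ * σ ≤ δ * (2 * (48 * m * u + 6 * γ)) := mul_le_mul hs b7 a4 δ0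
        linarith
  · have b1 : σ ^ 2 ≤ δ ^ 2 := by gcongr
    have b2 : δ ^ 2 * 1 ≤ δ ^ 2 * (4000 * (u * l)) := by gcongr; linarith
    linarith

/-- the final count -/
lemma count (P : Pm) {l : ℝ} (l0 : 0 ≤ l) (l1 : l ≤ P.mn (-3) (-5)) :
    2 * ((4 * l + 12 * (3 * P.dl)) * (l * P.th1) + 2 * P.mn 0 (-25) *
      (4 * (88 * P.mn 3 5 * P.th1) ^ 2) + (96 * (3 * P.dl) * P.mn 3 5 + 4000 * (3 * P.dl) ^ 2 * l) *
        (2 * (10 ^ 24 * (22 * P.nt)))) + l * (3 * P.dl) ^ 2 ≤ P.e := by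
  have q0 := P.mn_pos (-3) (-5)
  have q1 := P.mn_pos (-6) 10
  have q2 := P.mn_pos 3 10
  have q3 := P.mn_pos 0 (-15)
  have a1 : l * l * P.mn 3 10 ≤ P.mn (-3) 0 := by
    calc l * l * P.mn 3 10 ≤ P.mn (-3) (-5) * P.mn (-3) (-5) * P.mn 3 10 := by gcongr
      _ = _ := by rw [P.mn_mul, P.mn_mul]; norm_num
  have a2 : P.mn (-6) 10 * l * P.mn 3 10 ≤ P.mn (-6) 15 := by
    calc P.mn (-6) 10 * l * P.mn 3 10 ≤ P.mn (-6) 10 * P.mn (-3) (-5) * P.mn 3 10 := by gcongr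
      _ = _ := by rw [P.mn_mul, P.mn_mul]; norm_num
  have a3 : P.mn 0 (-25) * (P.mn 3 5 * P.mn 3 10) ^ 2 = P.mn 12 5 := by
    rw [P.mn_mul, P.mn_sq, P.mn_mul]; norm_num
  have a4 : P.mn (-6) 10 * P.mn 3 5 * P.mn 0 (-15) = P.mn (-3) 0 := by
    rw [P.mn_mul, P.mn_mul]; norm_num
  have a5 : P.mn (-6) 10 ^ 2 * l * P.mn 0 (-15) ≤ P.mn (-15) 0 := by
    calc P.mn (-6) 10 ^ 2 * l * P.mn 0 (-15) ≤
        P.mn (-6) 10 ^ 2 * P.mn (-3) (-5) * P.mn 0 (-15) := by gcongr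
      _ = _ := by rw [P.mn_sq, P.mn_mul, P.mn_mul]; norm_num
  have a6 : l * P.mn (-6) 10 ^ 2 ≤ P.mn (-15) 15 := by
    calc l * P.mn (-6) 10 ^ 2 ≤ P.mn (-3) (-5) * P.mn (-6) 10 ^ 2 := by gcongr
      _ = _ := by rw [P.mn_sq, P.mn_mul]; norm_num
  have b1 := P.mn_le (a := -3) (j := 0) (b := -2) (k := 0) (by norm_num) (by norm_num)
  have b2 := P.mn_le (a := -2) (j := 0) (b := -1) (k := 0) (by norm_num) (by norm_num)
  have b3 := P.mn_le (a := -6) (j := 15) (b := -1) (k := 0) (by norm_num) (by norm_num)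
  have b4 := P.mn_le (a := 12) (j := 5) (b := -1) (k := 0) (by norm_num) (by norm_num)
  have b5 := P.mn_le (a := -15) (j := 0) (b := -3) (k := 0) (by norm_num) (by norm_num)
  have b6 := P.mn_le (a := -15) (j := 15) (b := -1) (k := 0) (by norm_num) (by norm_num)
  have b7 := P.mn_pos (-1) 0
  simp only [Pm.dl, Pm.th1, Pm.nt, Pm.e]
  linarith

end Low

theorem lowS (hω : Nm ω) (L : L2 ω) : LowS ω := by
  intro P c j ρ hF hR
  obtain ⟨d, g, J', V', R, t1, v', t2, hD⟩ := hR.ray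
  have F1 := hF.one
  have F2 := hF.rotI.one
  have hl : 10 ≤ P.l := le_trans (by norm_num) P.l_big'
  have l1 : (10 : ℝ) ≤ P.l := by exact_mod_cast hl
  have ln := P.l_le_n
  have ln' := P.l_le_n'
  have θ0 : 0 < P.th1 := P.mn_pos _ _
  have θ1 : 10 ^ 30 * P.th1 ≤ 1 := P.mn_small (by norm_num) (by norm_num)
  have θ2 : P.th1 * P.l ≤ 1 / 1000 := by
    have h1 : P.th1 * P.l ≤ P.mn 3 10 * P.mn (-3) (-5) := mul_le_mul_of_nonneg_left P.l_le θ0.le
    have h2 : P.mn 3 10 * P.mn (-3) (-5) = P.mn 0 5 := P.mn_mul' rfl rfl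
    linarith [P.mn_small (a := 0) (j := 5) (by norm_num) (by norm_num), P.mn_pos 0 5]
  have θ3 : P.th1 * (P.l + 5) ≤ 1 / 200 := by linarith
  have θ4 : P.ε ≤ P.th1 / 2 := by
    linarith [P.eps_le, P.mn_le (a := 0) (j := 100) (b := 3) (k := 10) (by norm_num) (by norm_num),
      P.mn_pos 0 100]
  have a1 := P.two_a
  have a2 := P.ε0
  have a3 := P.eps_small
  have hT : P.T + 1 ≤ 2 * P.n := by unfold Pm.T; omega
  have hT' : ((P.T + 1 : ℕ) : ℝ) ≤ 2 * P.n := by exact_mod_cast hT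
  have m0 := P.mn_pos 3 5
  have m3 : P.mn (-3) (-5) * P.mn 3 5 = 1 := by rw [P.mn_mul]; exact P.mn_zero
  have m1 : P.l * P.mn 3 5 ≤ 1 := m3 ▸ mul_le_mul_of_nonneg_right P.l_le m0.le
  have m2 : 1 ≤ 2 * (P.l * P.mn 3 5) := by
    have := mul_le_mul_of_nonneg_right P.l_ge m0.le
    linarith
  have z0 : ex c ω (ρ.J 0) (ρ.V 0) = ⟨-P.a - 10, -P.a + 1 / 2 + j + ρ.V 0⟩ := by
    rw [ex, hR.w0, hR.c0]
    apply Complex.ext <;> simp
    ring
  have z2 : |(ex c ω (ρ.J 0) (ρ.V 0)).im| ≤ P.a + 1 := by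
    have b1 := abs_le.1 hR.v0
    have b2 := hR.j2
    have b3 : 0 ≤ P.n * P.e := mul_nonneg (by positivity) (P.mn_nonneg _ _)
    have b4 : (0 : ℝ) ≤ j := by positivity
    rw [z0]
    exact abs_le.2 ⟨by linarith, by linarith⟩
  have t3 : ∀ k ≤ P.T + 1, ∀ m < P.l + 5, ∀ p, ‖p - (c (ρ.J k) + I * m)‖ ≤ 4 → Cov c ω p := by
    intro k hk m hm p hp
    obtain ⟨b1, b2, b3⟩ := R.geo hω.1 t1 le_rfl (by linarith) (Nat.zero_le k) hk
    have b4 := norm_le_of_mem (hω.1 _) (ex_mem (c := c) (i := ρ.J k) hω.1 (R.v k hk))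
    have b5 := abs_le.1 ((abs_re_le_norm _).trans b4)
    have b6 := abs_le.1 ((abs_im_le_norm _).trans b4)
    have b7 := abs_le.1 ((abs_re_le_norm _).trans hp)
    have b8 := abs_le.1 ((abs_im_le_norm _).trans hp)
    have b9 : (m : ℝ) ≤ P.l + 5 := by exact_mod_cast hm.le
    have b10 : (k : ℝ) ≤ 2 * P.n := le_trans (by exact_mod_cast hk) hT'
    have b11 : (0 : ℝ) ≤ k := by positivity
    have b12 : (0 : ℝ) ≤ m := by positivity
    have b13 : P.th1 * k ≤ 1 / 1000 * k := by gcongr; linarith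
    have b14 : 0 ≤ (k : ℝ) * (1 - 2 * P.th1) := mul_nonneg b11 (by linarith)
    have b15 : (ex c ω (ρ.J 0) (ρ.V 0)).re = -P.a - 10 := by rw [z0]
    rw [Nat.cast_zero, sub_zero] at b1 b2 b3
    rw [abs_le] at b3 z2
    simp only [sub_re, sub_im, add_re, add_im, mul_re, mul_im, I_re, I_im, natCast_re, natCast_im,
      zero_mul, mul_zero, one_mul, sub_zero, zero_add, add_zero] at b5 b6 b7 b8
    exact F1.cov p (abs_le.2 ⟨by linarith, by linarith⟩) (abs_le.2 ⟨by linarith, by linarith⟩)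
  have E0 : 0 ≤ 10 ^ 24 * (22 * P.nt) := by have := P.mn_pos 0 (-15); positivity
  obtain ⟨u, u0, us, uv⟩ := select (measurable_FF (c := rt I c) (ω := ω)
    (f := ft (rt I c) ω P.l) ((Finset.range (P.T + 2)).image ρ.J) (2 * P.n)) ρ.J (P.T + 2)
    (fun k hk k' hk' e => ray_inj hω.1 R t1 (by linarith) (by omega) (by omega) e) E0
    ((sum_FF hω.1 hω.2 (ft_nonneg P.l) _ _).trans (ENNReal.ofReal_le_ofReal (by
      linarith [energy (c := rt I c) hω.1 hl, F2.sov])))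
  set S := (Finset.range (P.T + 1)).filter (fun k => |ρ.p ω k| ≤ 3 * P.dl) with hS
  have mid : ∀ k ∈ S.filter (fun k => k + P.l ≤ P.T + 1), ρ.p ω k ^ 2 ≤
      2 * ((4 * P.l + 12 * (3 * P.dl)) * ∑ j ∈ Finset.range P.l, g (k + j) +
        4 * (88 * P.mn 3 5 * P.th1) ^ 2 + (96 * (3 * P.dl) * P.mn 3 5 +
          4000 * (3 * P.dl) ^ 2 * P.l) * (u k + u (k + P.l))) := by
    intro k hk
    obtain ⟨k1, k2⟩ := Finset.mem_filter.1 hk
    obtain ⟨-, k3⟩ := Finset.mem_filter.1 k1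
    have k4 : k ≤ P.T + 1 := by omega
    obtain ⟨-, -, b1, -, -, -, b2⟩ := L.tilt.one (ω (ρ.J k)) (hω.1 _) ((t1 k k4).trans (by linarith))
    have b3 : ρ.p ω k ^ 2 ≤ 2 * (ω (ρ.J k)).im ^ 2 := by
      have b4 : ρ.p ω k * (ω (ρ.J k)).re = (ω (ρ.J k)).im := div_mul_cancel₀ _ (by linarith)
      have b5 : 1 ≤ 2 * (ω (ρ.J k)).re ^ 2 := by nlinarith
      have b6 : ρ.p ω k ^ 2 * 1 ≤ ρ.p ω k ^ 2 * (2 * (ω (ρ.J k)).re ^ 2) := by gcongr
      rw [← b4]
      linarith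
    have e1 : ∑ j ∈ Finset.range P.l, g (k + j) = ∑ j ∈ Finset.Ico k (k + P.l), g j := by
      rw [Finset.sum_Ico_eq_sum_range, Nat.add_sub_cancel_left]
    rw [e1]
    refine b3.trans (mul_le_mul_of_nonneg_left (Low.arith l1 m0.le m1 m2 (add_nonneg (u0 _) (u0 _))
      (Finset.sum_nonneg fun j _ => R.g0 j) θ0.le (by linarith) θ4 (b1.trans k3) fun hu => ?_)
      (by norm_num))
    obtain ⟨w, w1, w2, w3⟩ := uv k (by omega) (k + P.l) (by omega)
    obtain ⟨z, hz⟩ := Low.second hω R t1 (by linarith) hl θ3 (n := P.n) (a := P.a) (ε := P.ε)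
      (by omega) (by linarith) (by linarith) hT' (by rw [z0]) z2 F2.cov
      (fun i hi => (F2.out i (Or.inl (hi.trans (le_abs_self _)))).1)
      (fun i j hi hj => Lat.sub (F2.out i (Or.inl (hi.trans (le_abs_self _)))).2.1
        (F2.out j (Or.inl (hj.trans (le_abs_self _)))).2.1) k2
      (add_nonneg (u0 _) (u0 _)) hu w1 (fun j hj => by
        obtain ⟨m, hm, rfl⟩ := Finset.mem_image.1 hj
        exact ⟨m, Nat.lt_succ_iff.1 (Finset.mem_range.1 hm), rfl⟩) w2 w3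
    exact tilt_bd hω.1 hω.2 R t1 hl θ3 v' t2 hD t3 k2 hz
  have out : ∑ k ∈ S.filter (fun k => ¬ k + P.l ≤ P.T + 1), ρ.p ω k ^ 2 ≤
      P.l * (3 * P.dl) ^ 2 := by
    refine (Finset.sum_le_card_nsmul _ _ ((3 * P.dl) ^ 2) fun k hk => ?_).trans ?_
    · rw [← sq_abs]
      exact pow_le_pow_left₀ (abs_nonneg _) (Finset.mem_filter.1 (Finset.mem_filter.1 hk).1).2 2
    · rw [nsmul_eq_mul]
      refine mul_le_mul_of_nonneg_right ?_ (sq_nonneg _)
      have : (S.filter (fun k => ¬ k + P.l ≤ P.T + 1)).card ≤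
          (Finset.Ico (P.T + 1 - P.l) (P.T + 1)).card := Finset.card_le_card fun k hk => by
        obtain ⟨k1, k2⟩ := Finset.mem_filter.1 hk
        have := Finset.mem_range.1 (Finset.mem_filter.1 k1).1
        exact Finset.mem_Ico.2 ⟨by omega, this⟩
      rw [Nat.card_Ico] at this
      exact_mod_cast (show _ ≤ P.l by omega)
  have s1 := Finset.sum_le_sum mid
  set S' := S.filter (fun k => k + P.l ≤ P.T + 1) with hS'
  have mS : ∀ k ∈ S', k + P.l ≤ P.T + 1 := fun k hk => (Finset.mem_filter.1 hk).2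
  have s2 := sum_shift u0 (S := S') (i := 0) (t := P.T + 2) fun k hk => by have := mS k hk; omega
  have s3 := sum_shift u0 (S := S') (i := P.l) (t := P.T + 2) fun k hk => by have := mS k hk; omega
  have s4 : ∑ k ∈ S', ∑ j ∈ Finset.range P.l, g (k + j) ≤ P.l * P.th1 := by
    rw [Finset.sum_comm]
    refine (Finset.sum_le_card_nsmul _ _ P.th1 fun j hj => ?_).trans (by simp)
    exact (sum_shift R.g0 fun k hk => by
      have := mS k hk
      have := Finset.mem_range.1 hj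
      omega).trans R.sum
  have s5 : (S'.card : ℝ) ≤ 2 * P.mn 0 (-25) := by
    have : S'.card ≤ (Finset.range (P.T + 1)).card :=
      Finset.card_le_card ((Finset.filter_subset _ _).trans (Finset.filter_subset _ _))
    rw [Finset.card_range] at this
    rw [← P.n_eq]
    exact_mod_cast this.trans hT
  have δ0 : 0 < P.dl := P.mn_pos _ _
  simp only [add_zero] at s2
  rw [← Finset.mul_sum, Finset.sum_add_distrib, Finset.sum_add_distrib, ← Finset.mul_sum,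
    ← Finset.mul_sum (s := S') (f := fun k => u k + u (k + P.l)), Finset.sum_add_distrib,
    Finset.sum_const, nsmul_eq_mul] at s1
  rw [← Finset.sum_filter_add_sum_filter_not S (fun k => k + P.l ≤ P.T + 1)]
  refine le_trans (add_le_add (s1.trans ?_) out) (Low.count P (by positivity) P.l_le)
  gcongr
  linarith

end Pool.Agent.MP_c59ecb_co.sh

end MrgPart1

-- ======== part 2: formerly Pool.Agent.MP_c59ecb_co.sh.Cap
section MrgPart2

/-! The potential of a transversal is small. -/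

set_option autoImplicit false

namespace Pool.Agent.MP_c59ecb_co.sh

open MeasureTheory Complex Pool.Agent.MP_c59ecb_co.h76

variable {ι : Type} [Fintype ι] [DecidableEq ι] {ω : ι → ℂ}

namespace Cap

section Num

variable (P : Pm)

lemma t1s : 10 ^ 30 * P.t1 ≤ 1 := P.mn_small (by norm_num) (by norm_num)

lemma t2s : 10 ^ 30 * P.t2 ≤ 1 := P.mn_small (by norm_num) (by norm_num)

lemma t12 : 10 ^ 30 * P.t1 ≤ P.t2 := P.mn_le (by norm_num) (by norm_num)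

lemma vtf : 10 ^ 30 * P.vt ≤ P.f0 := P.mn_le (by norm_num) (by norm_num)

lemma vts : 10 ^ 30 * P.vt ≤ 1 := P.mn_small (by norm_num) (by norm_num)

lemma rLa : 10 ^ 30 * (P.r : ℝ) ≤ P.La2 := by
  rw [P.r_eq]
  exact P.mn_le (by norm_num) (by norm_num)

lemma rt1 : 10 ^ 30 * (P.t1 * P.r) ≤ 1 := by
  rw [P.r_eq, P.mn_mul]
  exact P.mn_small (by norm_num) (by norm_num)

lemma Rt2 : 10 ^ 28 * (P.t2 * P.R ^ 2) ≤ 1 := by
  have h1 : P.mn 36 5 * P.mn 60 0 = P.mn 96 5 := P.mn_mul' rfl rfl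
  have h2 := P.mn_small (a := 96) (j := 5) (by norm_num) (by norm_num)
  rw [P.R_sq]
  linarith

lemma Lavt : 10 ^ 30 * (P.La2 * P.vt) ≤ 1 := by
  rw [P.mn_mul]
  exact P.mn_small (by norm_num) (by norm_num)

lemma nbig : (10 : ℝ) ^ 30 ≤ P.n := by linarith [P.r_le_n, P.r_big]

lemma fin {X Y Nb : ℝ} (hX0 : 0 ≤ X) (hX : P.r * X ≤ P.E) (hY : Y ≤ 5 * P.n)
    (hN : Nb = P.r * (32 / P.t2 * X + (2 * P.r + 1) * P.t1 / P.vt)) :
    3 * P.La2 * ((2 * P.r + 1) * P.t1) + Y * P.ε + 48 * X +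
      (P.t1 * (2 * P.r + 1) + Nb * P.t1) ≤ P.mn (-20) (-15) := by
  have r1 : (1 : ℝ) ≤ P.r := le_trans (by norm_num) P.r_big
  have hX' : X ≤ P.mn (-29) (-15) := by
    have h1 : P.mn 30 0 * P.mn (-29) (-15) = P.mn 1 (-15) := P.mn_mul' rfl rfl
    rw [P.r_eq] at hX
    exact le_of_mul_le_mul_left (by linarith) (P.mn_pos 30 0)
  have e3 : (2 * P.r + 1) * P.t1 ≤ 3 * P.mn 39 5 := by
    have h1 : P.mn 30 0 * P.mn 9 5 = P.mn 39 5 := P.mn_mul' rfl rfl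
    rw [← h1, ← P.r_eq]
    nlinarith [P.mn_pos 9 5]
  have a1 : P.La2 * ((2 * P.r + 1) * P.t1) ≤ 3 * P.mn 117 0 := by
    have h1 : P.mn 78 (-5) * P.mn 39 5 = P.mn 117 0 := P.mn_mul' rfl rfl
    have := mul_le_mul_of_nonneg_left e3 (P.mn_nonneg 78 (-5))
    linarith
  have a2 : Y * P.ε ≤ 5 * P.mn 0 75 := by
    have h1 : P.mn 0 (-25) * P.mn 0 100 = P.mn 0 75 := P.mn_mul' rfl rfl
    have h2 := mul_le_mul_of_nonneg_right hY P.ε0.le
    have h3 := mul_le_mul_of_nonneg_left P.eps_le (P.mn_nonneg 0 (-25))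
    rw [P.n_eq] at h2
    linarith
  have a3 : Nb * P.t1 ≤ 32 * P.mn (-26) (-15) + 3 * P.mn 78 (-1) := by
    have h1 : P.mn 1 (-15) * P.mn (-27) 0 = P.mn (-26) (-15) := P.mn_mul' rfl rfl
    have h2 : P.mn 39 5 * P.mn 39 (-6) = P.mn 78 (-1) := P.mn_mul' rfl rfl
    have h3 : P.t1 / P.t2 = P.mn (-27) 0 := by rw [P.mn_div]; rfl
    have h4 : P.r * P.t1 / P.vt = P.mn 39 (-6) := by rw [P.r_eq, P.mn_mul, P.mn_div]; rfl
    have h5 := mul_le_mul_of_nonneg_right hX (P.mn_nonneg (-27) 0)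
    have h6 := mul_le_mul_of_nonneg_right e3 (P.mn_nonneg 39 (-6))
    have h7 : Nb * P.t1 = 32 * (P.r * X * (P.t1 / P.t2)) +
        (2 * P.r + 1) * P.t1 * (P.r * P.t1 / P.vt) := by rw [hN]; ring
    rw [h7, h3, h4]
    linarith
  have b1 := P.mn_le (a := 117) (j := 0) (b := -20) (k := -15) (by norm_num) (by norm_num)
  have b2 := P.mn_le (a := 0) (j := 75) (b := -20) (k := -15) (by norm_num) (by norm_num)
  have b3 := P.mn_le (a := -29) (j := -15) (b := -20) (k := -15) (by norm_num) (by norm_num)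
  have b4 := P.mn_le (a := 39) (j := 5) (b := -20) (k := -15) (by norm_num) (by norm_num)
  have b5 := P.mn_le (a := -26) (j := -15) (b := -20) (k := -15) (by norm_num) (by norm_num)
  have b6 := P.mn_le (a := 78) (j := -1) (b := -20) (k := -15) (by norm_num) (by norm_num)
  linarith [P.mn_pos (-20) (-15)]

end Num

variable {P : Pm} {d : ι → ℂ} {ρ : Ry ι}

lemma qpos (L : L3 ω) (hB : Base P d ω ρ) {s : ℕ} (hs : P.Rng s) :
    |(ρ.Q d ω s).re| ≤ P.a + P.n / 8 ∧ |(ρ.Q d ω s).im| ≤ P.a + 2 * P.n := by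
  have hp := L.path.pth d _ _ _ _ _ ρ hB.wray
  have h1 : (ρ.Q d ω P.T0).re = (ρ.P (rt I d) ω P.T0).im := by simp [Ry.Q]
  have h2 : (ρ.Q d ω P.T0).im = -(ρ.P (rt I d) ω P.T0).re := by simp [Ry.Q]
  have h3 := abs_le.1 hB.px
  have h4 := abs_le.1 hB.py
  have h5 := P.T0_eq
  have h6 : (P.n : ℝ) ≤ 2 * s := by exact_mod_cast hs.1
  have h7 : 2 * (s : ℝ) ≤ 7 * P.n := by exact_mod_cast hs.2
  have h8 := t1s P
  have h9 := P.mn_pos 9 5
  have hn := nbig P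
  rcases le_total s P.T0 with h | h
  · obtain ⟨g1, g2⟩ := L.pth.geo _ _ _ s P.T0 hp h (by omega)
    have h' : (s : ℝ) ≤ P.T0 := by exact_mod_cast h
    have g3 : (P.t1 + P.t1) * ((P.T0 : ℝ) - s) ≤ P.n / 100 := by nlinarith
    rw [sub_re] at g1
    rw [sub_im] at g2
    have g1 := abs_le.1 g1
    have g2 := abs_le.1 g2
    exact ⟨abs_le.2 ⟨by linarith, by linarith⟩, abs_le.2 ⟨by linarith, by linarith⟩⟩
  · obtain ⟨g1, g2⟩ := L.pth.geo _ _ _ P.T0 s hp h (by have := hs.2; unfold Pm.T0; omega)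
    have h' : (P.T0 : ℝ) ≤ s := by exact_mod_cast h
    have g3 : (P.t1 + P.t1) * ((s : ℝ) - P.T0) ≤ P.n / 100 := by nlinarith
    rw [sub_re] at g1
    rw [sub_im] at g2
    have g1 := abs_le.1 g1
    have g2 := abs_le.1 g2
    exact ⟨abs_le.2 ⟨by linarith, by linarith⟩, abs_le.2 ⟨by linarith, by linarith⟩⟩

/-- a ray from the square `s` that ends in the frame -/
structure Out (P : Pm) (d ω : ι → ℂ) (ρ : Ry ι) (s : ℕ) (H : ℝ) (K : Ry ι) : Prop where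
  st : K.J 0 = ρ.J s
  v0 : |K.V 0| ≤ 1 / 8
  wray : Wray d ω P.R 0 P.t2 (P.T0 - 1) (16 * H) K
  lat : Lat P.a ((K.P d ω (P.T0 - 1)).re - 1 / 2)

lemma shot (L : L3 ω) (hF : P.Fr d ω) (hB : Base P d ω ρ) {s : ℕ} (hs : P.Rng s) {H : ℝ}
    (h0 : 0 ≤ H) (h1 : 16 * H ≤ P.t2)
    (hL : Lv (P.FP d ω 0 ((Finset.range (2 * P.T0 + 1)).image ρ.J) P.T0 (ρ.J s)) H) :
    ∃ K : Ry ι, Out P d ω ρ s H K := by
  obtain ⟨v, hv, hFv⟩ := (L.pick _ _ H H h0 h0 hL hL).1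
  have hsT : s ≤ 2 * P.T0 := by have := hs.2; unfold Pm.T0; omega
  obtain ⟨q1, q2⟩ := qpos L hB hs
  obtain ⟨s1, s2⟩ := L.path.start d _ _ _ _ v _ s ρ hB.wray hsT hv
  rw [sub_re] at s1
  rw [sub_im] at s2
  have hn := nbig P
  have a1 := t1s P
  have a2 := t2s P
  have a3 := t12 P
  have a4 := P.mn_pos 9 5
  have a5 := P.T0_eq
  have a6 := P.two_a
  have a7 := P.eps_small
  have hV := abs_le.1 (hB.wray.v s hsT)
  have hv' := abs_le.1 hv
  have q1 := abs_le.1 q1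
  have q2 := abs_le.1 q2
  have s1 := abs_le.1 s1
  have s2 := abs_le.1 s2
  have hT1 : 1 ≤ P.T0 := by
    have : (1 : ℝ) ≤ P.T0 := by linarith
    exact_mod_cast this
  obtain ⟨T', K, k1, k2, hS⟩ := L.launch.launch P d 0 (4 * H) P.t2 v _ P.T0 (ρ.J s) hF le_rfl hT1
    (by linarith) (by linarith [hB.wray.tilt s hsT]) le_rfl (by linarith)
    (abs_le.2 ⟨by linarith, by linarith⟩) (by linarith) (by linarith) hFv
  have hno := L.path.nomeet P d _ _ _ _ _ _ _ _ _ _ T' s ρ K hB.wray hS (by linarith) (by linarith)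
    hsT k1 (k2 ▸ hv) (T' + 1) (Nat.succ_pos _) le_rfl
  have hT : T' + 1 = P.T0 := hS.stop.resolve_right fun h => by
    obtain ⟨j, hj, e⟩ := Finset.mem_image.1 h
    exact hno j (by simp at hj; omega) e.symm
  obtain rfl : T' = P.T0 - 1 := by omega
  have hw := hS.wray.mono le_rfl le_rfl (show 4 * (4 * H) ≤ 16 * H by linarith)
  have g1 := (L.w.geo d _ _ _ _ _ K 0 (P.T0 - 1) hw (Nat.zero_le _) le_rfl).1
  have g2 := abs_le.1 (L.w.cen d _ _ _ (hw.tilt _ le_rfl) (hw.v _ le_rfl)).1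
  have e0 : K.P d ω 0 = ex d ω (ρ.J s) v := by rw [Ry.P, k1, k2]
  have e1 : ((P.T0 - 1 : ℕ) : ℝ) = 2 * P.n - 1 := by rw [Nat.cast_sub hT1, a5]; simp
  rw [sub_re, e0, e1, Nat.cast_zero, sub_zero] at g1
  rw [sub_re] at g2
  have a8 : P.t2 ^ 2 ≤ 1 / 100 := by nlinarith [P.mn_pos 36 5]
  have g3 : (2 * P.n - 1) * (99 / 100) ≤ (2 * (P.n : ℝ) - 1) * (1 - P.t2 ^ 2) :=
    mul_le_mul_of_nonneg_left (by linarith) (by linarith)
  have g4 : P.a + 1 ≤ |(d (K.J (P.T0 - 1))).re| := by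
    refine le_trans ?_ (le_abs_self _)
    unfold Ry.P at g1
    generalize (2 * (P.n : ℝ) - 1) * (1 - P.t2 ^ 2) = Z at g1 g3
    linarith [g2.1, s1.1, q1.1, hV.2]
  obtain ⟨o1, o2, -⟩ := hF.one.out _ (Or.inl g4)
  refine ⟨K, k1, k2 ▸ hv, hw, ?_⟩
  have e2 : (K.P d ω (P.T0 - 1)).re - 1 / 2 = (d (K.J (P.T0 - 1))).re := by
    simp [Ry.P, ex, o1]
  rwa [e2]

lemma p_lip (hω : Nm ω) (L : L3 ω) (hB : Base P d ω ρ) {a b : ℕ} (hab : a ≤ b)
    (hb : b ≤ 2 * P.T0) : |ρ.p ω b - ρ.p ω a| ≤ 101 / 100 * ∑ k ∈ Finset.Ico a b, ρ.g k := by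
  have a1 := t1s P
  have h1 := (L.tilt.lip _ _ (hω.1 (ρ.J b)) (hω.1 (ρ.J a)) (by linarith [hB.wray.tilt b hb])
    (by linarith [hB.wray.tilt a (hab.trans hb)])).1
  have h2 := L.w.ang _ _ _ _ _ _ ρ a b hB.wray hab hb
  unfold Ry.p
  linarith

lemma p_le (hω : Nm ω) (L : L3 ω) (hB : Base P d ω ρ) {b : ℕ} (hb : b ≤ 2 * P.T0) :
    |ρ.p ω b| ≤ 2 * P.t1 := by
  have a1 := t1s P
  have h0 := hB.wray.tilt b hb
  have h1 := (L.tilt.one _ (hω.1 (ρ.J b)) (by linarith)).1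
  unfold Ry.p
  linarith [P.mn_pos 9 5]

lemma window (hω : Nm ω) (L : L3 ω) (hB : Base P d ω ρ) {s : ℕ} (hr : P.r ≤ s)
    (hs : s ≤ 2 * P.T0) {H H' γ : ℝ} {K K' : Ry ι} (hK : Out P d ω ρ s H K)
    (hK' : Out P d ω ρ (s - P.r) H' K') (h1 : 16 * H ≤ P.t2) (h1' : 16 * H' ≤ P.t2)
    (hγ : ∑ k ∈ Finset.Icc (s - P.r) s, ρ.g k ≤ γ) (hv : γ ≤ P.vt) :
    P.r * (pp P.f0 (ρ.p ω s) / 2) ≤ 3 * P.La2 * γ + P.ε + 32 * H + 16 * H' := by
  have g0 := hB.wray.g0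
  have hγ0 : 0 ≤ γ := (Finset.sum_nonneg fun k _ => g0 k).trans hγ
  have hH := hK.wray.G0
  have hH' := hK'.wray.G0
  have hLa := P.mn_pos 78 (-5)
  have hLγ : 0 ≤ P.La2 * γ := mul_nonneg hLa.le hγ0
  have hε := P.ε0
  rcases le_or_gt |ρ.p ω s| P.f0 with hp | hp
  · rw [pp, max_eq_right (by linarith)]
    linarith
  have a1 := t1s P
  have a2 := t2s P
  have a3 := vtf P
  have a4 := P.mn_pos 9 5
  have a5 := P.mn_pos 0 11
  have a6 := rt1 P
  have a7 := Rt2 P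
  have a8 := Lavt P
  have a9 := rLa P
  have a10 := P.r_big
  have a11 := P.eps_small
  have hsub : ∀ k, s - P.r ≤ k → ∑ i ∈ Finset.Ico k s, ρ.g i ≤ γ := fun k hk =>
    (Finset.sum_le_sum_of_subset_of_nonneg
      (fun i hi => by simp only [Finset.mem_Ico, Finset.mem_Icc] at hi ⊢; omega)
      fun i _ _ => g0 i).trans hγ
  obtain ⟨c1, c2⟩ := L.path.wincol d _ _ _ _ P.La2 γ (5 * P.t1) _ _ s P.r ρ hB.wray (by linarith)
    (by linarith) hr hs hLa.le (fun k hk hk' => hB.str k (by omega)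
      (le_trans (Finset.single_le_sum (fun i _ => g0 i) (by simp [hk, hk'.le])) (hγ.trans hv)) (by
        have h2 := p_lip hω L hB hk'.le hs
        have h3 := abs_sub_abs_le_abs_sub (ρ.p ω s) (ρ.p ω k)
        linarith [hsub k hk])) (hsub _ le_rfl) le_rfl (by linarith)
  have c3 := L.col.approx d _ _ γ (K.V 0) (K'.V 0) _ _ (ω (ρ.J s)) c1 (by linarith) (hω.1 _)
    (by linarith [hB.wray.tilt s hs]) (fun j hj => by
      rw [norm_sub_rev]
      exact (L.w.ang _ _ _ _ _ _ ρ (s - j) s hB.wray (Nat.sub_le _ _) hs).trans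
        (hsub _ (by omega))) (by linarith [hK.v0]) (by linarith [hK'.v0])
  have c4 := (SS_le_SA d ω P.r fun j => ρ.J (s - j)).trans c2
  have e0 : K.P d ω 0 = ex d ω (ρ.J s) (K.V 0) := by rw [Ry.P, hK.st]
  have e0' : K'.P d ω 0 = ex d ω (ρ.J (s - P.r)) (K'.V 0) := by rw [Ry.P, hK'.st]
  simp only [Nat.sub_zero, ← e0, ← e0'] at c3
  obtain ⟨s1, s2⟩ := L.path.start d _ _ _ _ _ _ s ρ hB.wray hs hK.v0
  obtain ⟨s3, s4⟩ := L.path.start d _ _ _ _ _ _ (s - P.r) ρ hB.wray (by omega) hK'.v0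
  obtain ⟨s5, s6⟩ := L.pth.geo _ _ _ (s - P.r) s (L.path.pth d _ _ _ _ _ ρ hB.wray)
    (Nat.sub_le _ _) hs
  rw [← e0] at s1 s2
  rw [← e0'] at s3 s4
  rw [Nat.cast_sub hr, sub_sub_cancel] at s5 s6
  simp only [sub_re, sub_im] at s1 s2 s3 s4 s5 s6
  have v1 := abs_le.1 (hB.wray.v s hs)
  have v2 := abs_le.1 (hB.wray.v (s - P.r) (by omega))
  have v3 := abs_le.1 hK.v0
  have v4 := abs_le.1 hK'.v0
  have s1 := abs_le.1 s1
  have s2 := abs_le.1 s2
  have s3 := abs_le.1 s3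
  have s4 := abs_le.1 s4
  have s5 := abs_le.1 s5
  have s6 := abs_le.1 s6
  have d1 : |(K'.P d ω 0 - K.P d ω 0).re| ≤ 2 := by
    rw [sub_re]
    exact abs_le.2 ⟨by linarith, by linarith⟩
  have d2 : P.r - 1 / 3 ≤ (K'.P d ω 0 - K.P d ω 0).im ∧
      (K'.P d ω 0 - K.P d ω 0).im ≤ P.r + 1 / 3 := by
    rw [sub_im]
    exact ⟨by linarith, by linarith⟩
  have d3 : ‖K'.P d ω 0 - K.P d ω 0‖ ≤ P.R - 4 := by
    refine (norm_le_abs_re_add_abs_im _).trans ?_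
    rw [abs_of_nonneg (a := (K'.P d ω 0 - K.P d ω 0).im) (by linarith)]
    linarith
  have d4 : P.R ^ 2 * (16 * H) ≤ P.R ^ 2 * P.t2 := mul_le_mul_of_nonneg_left h1 (sq_nonneg _)
  have d5 := (L.w.pair d _ _ _ _ _ _ _ _ _ K K' 0 0 (P.T0 - 1) (P.T0 - 1) hK.wray hK'.wray
    (by linarith) (by linarith) (by linarith) (Nat.zero_le _) (Nat.zero_le _) le_rfl le_rfl rfl
    d3).2
  obtain ⟨z, hz⟩ := Lat.sub hK'.lat hK.lat
  rw [sub_sub_sub_cancel_right, ← sub_re] at hz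
  have p1 := p_le hω L hB hs
  change |_ - _ - ρ.p ω s * _| ≤ _ at c3
  generalize (K'.P d ω (P.T0 - 1) - K.P d ω (P.T0 - 1)).re = X1 at hz d5
  generalize (K'.P d ω 0 - K.P d ω 0).re = X0 at c3 d5
  generalize (K'.P d ω 0 - K.P d ω 0).im = Y0 at c3 d2
  generalize SS d ω P.r _ = S at c3 c4
  have m1 : |ρ.p ω s * Y0| = |ρ.p ω s| * Y0 := by
    rw [abs_mul, abs_of_nonneg (a := Y0) (by linarith)]
  have m2 : |ρ.p ω s| * Y0 ≤ 2 * P.t1 * (2 * P.r) :=
    mul_le_mul p1 (by linarith) (by linarith) (by linarith)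
  have m3 : |ρ.p ω s| * (P.r / 2) ≤ |ρ.p ω s| * Y0 :=
    mul_le_mul_of_nonneg_left (by linarith) (abs_nonneg _)
  have m4 : (2 * P.La2 + 5) * γ + 2 * (P.r + 2) * γ ≤ 3 * P.La2 * γ := by
    rw [← add_mul]
    exact mul_le_mul_of_nonneg_right (by linarith) hγ0
  have m5 : P.La2 * γ ≤ P.La2 * P.vt := mul_le_mul_of_nonneg_left hv hLa.le
  have m6 := abs_le.1 c3
  have m7 := abs_le.1 c4
  have m8 := abs_le.1 d5
  have m9 := abs_le.1 hz
  have m10 := le_abs_self (ρ.p ω s * Y0)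
  have m11 := neg_abs_le (ρ.p ω s * Y0)
  have hz0 : z = 0 := by
    have z1 : (z : ℝ) < 1 := by linarith
    have z2 : (-1 : ℝ) < z := by linarith
    have z3 : z < 1 := by exact_mod_cast z1
    have z4 : -1 < z := by exact_mod_cast z2
    omega
  rw [hz0, Int.cast_zero] at m9
  have m12 : |ρ.p ω s * Y0| ≤ 3 * P.La2 * γ + P.ε + 32 * H + 16 * H' :=
    abs_le.2 ⟨by linarith, by linarith⟩
  have m13 : pp P.f0 (ρ.p ω s) ≤ |ρ.p ω s| :=
    max_le (by linarith [P.mn_pos (-17) 5]) (abs_nonneg _)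
  have m14 := mul_le_mul_of_nonneg_left m13 (show (0 : ℝ) ≤ P.r by linarith)
  linarith

lemma cls_mem (r o j : ℕ) (ho : o < r) : ∃ s, s % r = o ∧ j ≤ s ∧ s < j + r := by
  induction j with
  | zero => exact ⟨o, Nat.mod_eq_of_lt ho, Nat.zero_le _, by omega⟩
  | succ j ih =>
    obtain ⟨s, h1, h2, h3⟩ := ih
    rcases h2.eq_or_lt with rfl | h
    · exact ⟨j + r, by simpa using h1, by omega, by omega⟩
    · exact ⟨s, h1, h, by omega⟩

lemma total (hω : Nm ω) (L : L3 ω) (hF : P.Fr d ω) (hB : Base P d ω ρ) :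
    ∑ j ∈ Finset.Ioc 0 (2 * P.T0), pp P.f0 (ρ.p ω j) / 2 ≤ P.mn (-20) (-15) := by
  classical
  obtain ⟨H, H0, H1, H2⟩ := L.launch.energy P d 0 ((Finset.range (2 * P.T0 + 1)).image ρ.J) P.T0
    hF le_rfl
  have a1 := t1s P
  have t2p := P.mn_pos 36 5
  have vtp := P.mn_pos 0 11
  have g0 := hB.wray.g0
  have hr := P.r_big'
  have hrn := P.r_le_n'
  have hr0 : 0 < P.r := by omega
  have hT0 : P.T0 = 2 * P.n := rfl
  rw [Finset.sum_image fun a ha b hb e => L.w.inj _ _ _ _ _ _ ρ a b hB.wray (by linarith)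
    (by linarith) (by simp at ha; omega) (by simp at hb; omega) e] at H1
  obtain ⟨o, ho, hcl⟩ := (L.sum.cls P.r (Finset.range (2 * P.T0 + 1)) (fun s => H (ρ.J s))
    (fun s => s % P.r) hr0 fun s _ => Nat.mod_lt _ hr0).1
  set X := ∑ s ∈ (Finset.range (2 * P.T0 + 1)).filter (fun s => s % P.r = o), H (ρ.J s) with hX
  set C := (Finset.range (2 * P.T0 + 1)).filter
    (fun s => s % P.r = o ∧ P.n + 2 * P.r ≤ 2 * s ∧ 2 * s ≤ 7 * P.n ∧ P.r ≤ s) with hC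
  have mC : ∀ s, s ∈ C ↔ s % P.r = o ∧ P.n + 2 * P.r ≤ 2 * s ∧ 2 * s ≤ 7 * P.n ∧ P.r ≤ s := by
    intro s
    simp only [hC, Finset.mem_filter, Finset.mem_range]
    omega
  set γ : ℕ → ℝ := fun s => ∑ k ∈ Finset.Icc (s - P.r) s, ρ.g k with hγ
  have γ0 : ∀ s, 0 ≤ γ s := fun s => Finset.sum_nonneg fun k _ => g0 k
  have b1 : ∑ s ∈ C, H (ρ.J s) ≤ X :=
    Finset.sum_le_sum_of_subset_of_nonneg (fun s hs => by
      have := (mC s).1 hs
      simp only [Finset.mem_filter, Finset.mem_range]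
      omega) fun s _ _ => H0 _
  have b2 : ∑ s ∈ C, H (ρ.J (s - P.r)) ≤ X := by
    rw [← Finset.sum_image (g := fun s => s - P.r) (f := fun s => H (ρ.J s)) fun a ha b hb e => by
      have h1 := (mC a).1 ha
      have h2 := (mC b).1 hb
      simp only at e
      omega]
    refine Finset.sum_le_sum_of_subset_of_nonneg (fun s hs => ?_) fun s _ _ => H0 _
    obtain ⟨k, hk, rfl⟩ := Finset.mem_image.1 hs
    have h1 := (mC k).1 hk
    have h2 := Nat.mod_eq_sub_mod h1.2.2.2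
    simp only [Finset.mem_filter, Finset.mem_range]
    omega
  have b3 : ∑ s ∈ C, γ s ≤ (2 * P.r + 1) * P.t1 := by
    have h1 := L.sum.nbr C id ρ.g P.r (2 * P.T0) 1 g0 fun j =>
      Finset.card_le_one.2 fun a ha b hb =>
        (Finset.mem_filter.1 ha).2.trans (Finset.mem_filter.1 hb).2.symm
    rw [Nat.cast_one, one_mul] at h1
    refine le_trans (Finset.sum_le_sum fun s hs => ?_) (h1.trans
      (mul_le_mul_of_nonneg_left hB.wray.sum (by positivity)))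
    refine Finset.sum_le_sum_of_subset_of_nonneg (fun k hk => ?_) fun k _ _ => g0 k
    have := (mC s).1 hs
    simp only [Finset.mem_filter, Finset.mem_Icc, id] at hk ⊢
    omega
  set F : ℕ → ℝ := fun s => 16 / P.t2 * H (ρ.J s) + 16 / P.t2 * H (ρ.J (s - P.r)) + γ s / P.vt
    with hFd
  have q0 : 0 < 16 / P.t2 := by positivity
  have F1 : ∀ s, 0 ≤ 16 / P.t2 * H (ρ.J s) := fun s => mul_nonneg q0.le (H0 _)
  have F2 : ∀ s, 0 ≤ γ s / P.vt := fun s => div_nonneg (γ0 s) vtp.le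
  have b4 : ((C.filter fun s => 1 < F s).card : ℝ) ≤
      32 / P.t2 * X + (2 * P.r + 1) * P.t1 / P.vt := by
    have h1 := L.sum.markov C F 1 fun s _ => add_nonneg (add_nonneg (F1 _) (F1 _)) (F2 s)
    rw [mul_one, hFd, Finset.sum_add_distrib, Finset.sum_add_distrib, ← Finset.mul_sum,
      ← Finset.mul_sum, ← Finset.sum_div] at h1
    have h2 := mul_le_mul_of_nonneg_left b1 q0.le
    have h3 := mul_le_mul_of_nonneg_left b2 q0.le
    have h4 := div_le_div_of_nonneg_right b3 vtp.le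
    have h5 : 32 / P.t2 * X = 16 / P.t2 * X + 16 / P.t2 * X := by ring
    linarith
  set W := C.filter fun s => F s ≤ 1 with hW
  have F3 : ∀ s, 16 / P.t2 * H (ρ.J s) ≤ 1 → 16 * H (ρ.J s) ≤ P.t2 := fun s h => by
    rwa [div_mul_eq_mul_div, div_le_one t2p] at h
  have b5 : ∀ s ∈ W, P.r * (pp P.f0 (ρ.p ω s) / 2) ≤
      3 * P.La2 * γ s + P.ε + 32 * H (ρ.J s) + 16 * H (ρ.J (s - P.r)) := by
    intro s hs
    obtain ⟨h1, h2⟩ := Finset.mem_filter.1 hs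
    have h1 := (mC s).1 h1
    have h3 := F3 s (by linarith [F1 (s - P.r), F2 s])
    have h4 := F3 (s - P.r) (by linarith [F1 s, F2 s])
    have h5 : γ s ≤ P.vt := (div_le_one vtp).1 (by linarith [F1 s, F1 (s - P.r)])
    obtain ⟨K, hK⟩ := shot L hF hB (s := s) ⟨by omega, by omega⟩ (H0 _) h3
      (H2 _ (Finset.mem_image_of_mem _ (Finset.mem_range.2 (by omega))))
    obtain ⟨K', hK'⟩ := shot L hF hB (s := s - P.r) ⟨by omega, by omega⟩ (H0 _) h4
      (H2 _ (Finset.mem_image_of_mem _ (Finset.mem_range.2 (by omega))))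
    exact window hω L hB h1.2.2.2 (by omega) hK hK' h3 h4 le_rfl h5
  have b6 : ∑ s ∈ W, P.r * (pp P.f0 (ρ.p ω s) / 2) ≤
      3 * P.La2 * ((2 * P.r + 1) * P.t1) + C.card * P.ε + 48 * X := by
    refine (Finset.sum_le_sum b5).trans (le_trans (Finset.sum_le_sum_of_subset_of_nonneg
      (Finset.filter_subset _ _) fun s _ _ => ?_) ?_)
    · have := mul_nonneg (P.mn_nonneg 78 (-5)) (γ0 s)
      linarith [H0 (ρ.J s), H0 (ρ.J (s - P.r)), P.ε0]
    · rw [Finset.sum_add_distrib, Finset.sum_add_distrib, Finset.sum_add_distrib, ← Finset.mul_sum,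
        ← Finset.mul_sum, ← Finset.mul_sum, Finset.sum_const, nsmul_eq_mul]
      have := mul_le_mul_of_nonneg_left b3 (P.mn_nonneg 78 (-5))
      linarith
  have b7 : (C.card : ℝ) ≤ 5 * P.n := by
    have h1 : C.card ≤ 2 * P.T0 + 1 := (Finset.card_filter_le _ _).trans (Finset.card_range _).le
    have h2 : C.card ≤ 5 * P.n := by omega
    exact_mod_cast h2
  have b8 := L.sum.win P.r o 0 (2 * P.T0) (2 * P.T0) 0 W (fun j => pp P.f0 (ρ.p ω j) / 2) ρ.g id 1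
    P.t1 P.t1 (P.r * (32 / P.t2 * X + (2 * P.r + 1) * P.t1 / P.vt)) hr0 le_rfl zero_le_one
    (fun j hj => ?_) g0 (fun j hj => ?_) hB.wray.sum (fun s hs => ?_) fun B hBm => ?_
  · have b9 := fin P (Finset.sum_nonneg fun s _ => H0 _) (hcl.trans H1) b7 rfl
    have b10 := (abs_le.1 b8).2
    simp only [id, Nat.cast_zero, zero_add, one_mul] at b10
    linarith
  · have h1 := p_le hω L hB hj
    have h2 : pp P.f0 (ρ.p ω j) ≤ |ρ.p ω j| :=
      max_le (by linarith [P.mn_pos (-17) 5]) (abs_nonneg _)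
    have h3 : 0 ≤ pp P.f0 (ρ.p ω j) := le_max_right _ _
    exact ⟨by linarith, by linarith⟩
  · have h1 := p_lip hω L hB (Nat.le_succ j) hj
    rw [Nat.Ico_succ_singleton, Finset.sum_singleton] at h1
    have h2 := abs_max_sub_max_le_abs (|ρ.p ω (j + 1)| - P.f0) (|ρ.p ω j| - P.f0) 0
    have h3 := abs_abs_sub_abs_le_abs_sub (ρ.p ω (j + 1)) (ρ.p ω j)
    rw [sub_sub_sub_cancel_right] at h2
    rw [← sub_div, abs_div, abs_two]
    unfold pp
    linarith [g0 j]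
  · have := (mC s).1 (Finset.mem_filter.1 hs).1
    simp only [id]
    omega
  · have h1 : B ⊆ (C.filter fun s => 1 < F s).biUnion fun s => Finset.Ioc (s - P.r) s := by
      intro j hj
      obtain ⟨h1, h2, h3, h4⟩ := hBm j hj
      have h5 : ¬ (5 * j ≤ 4 * P.n ∨ 16 * P.n ≤ 5 * j) := fun h => h3 (by
        have := P.mn_pos (-17) 5
        simp [Ry.p, hB.fr j h2 h, tl, pp, this.le])
      obtain ⟨s, k1, k2, k3⟩ := cls_mem P.r o j ho
      have k4 : s ∈ C := (mC s).2 ⟨k1, by omega, by omega, by omega⟩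
      refine Finset.mem_biUnion.2 ⟨s, Finset.mem_filter.2 ⟨k4, ?_⟩, Finset.mem_Ioc.2 (by omega)⟩
      by_contra k5
      exact h4 s (Finset.mem_filter.2 ⟨k4, not_lt.1 k5⟩) ⟨k3, k2⟩
    have h2 : B.card ≤ (C.filter fun s => 1 < F s).card * P.r :=
      (Finset.card_le_card h1).trans (Finset.card_biUnion_le_card_mul _ _ _ fun s _ => by
        rw [Nat.card_Ioc]; omega)
    have h3 : (B.card : ℝ) ≤ (C.filter fun s => 1 < F s).card * P.r := by exact_mod_cast h2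
    rw [mul_comm] at h3
    exact h3.trans (mul_le_mul_of_nonneg_left b4 (Nat.cast_nonneg _))

end Cap

theorem capS (hω : Nm ω) (L : L3 ω) : CapS ω := by
  intro P d ρ hF hB
  have h := Cap.total hω L hF hB
  have h0 : ∀ j, 0 ≤ pp P.f0 (ρ.p ω j) / 2 := fun j => div_nonneg (le_max_right _ _) zero_le_two
  exact ⟨(Finset.sum_le_sum_of_subset_of_nonneg (Finset.Ioc_subset_Ioc_left (Nat.zero_le _))
    fun j _ _ => h0 j).trans h, (Finset.sum_le_sum_of_subset_of_nonneg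
      (Finset.Ioc_subset_Ioc_right (by omega)) fun j _ _ => h0 j).trans h⟩

end Pool.Agent.MP_c59ecb_co.sh

end MrgPart2

-- marker of a merged file
example : 731051 + 115732 = 731051 + 115732 := rfl
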