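import Pool.Agent.MP_c59ecb_co.sh.Rect

/-! One cell in one frame, with the estimates. -/

set_option autoImplicit false

namespace Pool.Agent.MP_c59ecb_co.sh

open Pool.Agent.MP_c59ecb_co.h76

namespace CellQ

variable {b S C c g t κ q n K p x δ ω L u L' e : ℝ}

theorem e1 (b0 : 0 < b) (b1 : b ≤ 1 / 10 ^ 6) (hS : S = b ^ 2 / 2) (g0 : -1 < g)
    (hg : g * (2 + g) = t ^ 2) (t1 : (b - b ^ 2) ^ 2 ≤ t ^ 2) (t2 : t ^ 2 ≤ (b + 2 * b ^ 2) ^ 2) :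
    S * (1 - 2.1 * b) ≤ g ∧ g ≤ S * (1 + 4.1 * b) := by
  have g1 : 0 ≤ g := by nlinarith [sq_nonneg t]
  have h3 : b ^ 4 ≤ b ^ 3 / 10 ^ 6 := by nlinarith [pow_pos b0 3]
  have h2 : b ^ 3 ≤ b ^ 2 / 10 ^ 6 := by nlinarith [pow_pos b0 2]
  have h4 : g ≤ S * (1 + 4.1 * b) := by nlinarith [sq_nonneg g, pow_pos b0 3]
  have h5 : g ≤ b ^ 2 := by nlinarith [pow_pos b0 2]
  have h6 : g ^ 2 ≤ (b ^ 2) ^ 2 := pow_le_pow_left₀ g1 h5 2
  exact ⟨by nlinarith [pow_pos b0 3, pow_pos b0 4], h4⟩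

theorem e2 (b0 : 0 < b) (b1 : b ≤ 1 / 10 ^ 6) (hS : S = b ^ 2 / 2) (C0 : 0 < C)
    (hC : C ^ 2 + S ^ 2 = 1) (t1 : -(2 * b) ≤ t) (t2 : t ≤ 2 * b) :
    1 - b ^ 2 ≤ C ∧ C ≤ 1 ∧ 1 - 2 * b ^ 2 ≤ C - S * t ∧ C - S * t ≤ 1 + b ^ 2 := by
  have h2 : b ^ 2 ≤ b / 10 ^ 6 := by nlinarith
  have h0 := pow_pos b0 2
  have S0 : 0 < S := by linarith
  have c1 : C ≤ 1 := by nlinarith [sq_nonneg S]
  have c2 : 1 - b ^ 2 ≤ C := by nlinarith
  have h3 : S * t ≤ b ^ 2 := by nlinarith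
  have h4 : -b ^ 2 ≤ S * t := by nlinarith
  exact ⟨c2, c1, by linarith, by linarith⟩

theorem e3 (b0 : 0 < b) (b1 : b ≤ 1 / 10 ^ 6) (S0 : 0 < S) (k1 : 1 - 2 * b ^ 2 ≤ κ)
    (k2 : κ ≤ 1 + b ^ 2) (t2 : t ^ 2 ≤ 4 * b ^ 2) (hq : q * κ = S * (1 + t ^ 2)) :
    S * (1 - b / 100) ≤ q ∧ q ≤ S * (1 + b / 100) := by
  have h2 : b ^ 2 ≤ b / 10 ^ 6 := by nlinarith
  have k0 : 0 < κ := by linarith
  constructor
  · refine le_of_mul_le_mul_right ?_ k0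
    rw [hq, mul_assoc]
    refine mul_le_mul_of_nonneg_left ?_ S0.le
    nlinarith [sq_nonneg t]
  · refine le_of_mul_le_mul_right ?_ k0
    rw [hq, mul_assoc]
    refine mul_le_mul_of_nonneg_left ?_ S0.le
    nlinarith

theorem e4 (b0 : 0 < b) (b1 : b ≤ 1 / 10 ^ 6) (n0 : 0 ≤ n) (n1 : 1 + 10 * b ≤ n * S)
    (n2 : n * S ≤ 1 + 10.01 * b) (g1 : S * (1 - 2.1 * b) ≤ g) (g2 : g ≤ S * (1 + 4.1 * b)) :
    1 + 7.8 * b ≤ n * g ∧ n * g ≤ 1 + 14.2 * b := by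
  have h1 := mul_le_mul_of_nonneg_left g1 n0
  have h2 := mul_le_mul_of_nonneg_left g2 n0
  have h3 := mul_le_mul_of_nonneg_right n1 (show 0 ≤ 1 - 2.1 * b by linarith)
  have h4 := mul_le_mul_of_nonneg_right n2 (show 0 ≤ 1 + 4.1 * b by linarith)
  constructor <;> nlinarith

theorem e6 (b0 : 0 < b) (b1 : b ≤ 1 / 10 ^ 6) (S0 : 0 < S) (K0 : 0 ≤ K)
    (q1 : S * (1 - b / 100) ≤ q) (q2 : q ≤ S * (1 + b / 100)) (k1 : 1 - 12.3 * b ≤ K * q)
    (k2 : K * q ≤ 1 + 14.2 * b) : 1 - 12.4 * b ≤ K * S ∧ K * S ≤ 1 + 14.3 * b := by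
  have h1 := mul_le_mul_of_nonneg_left q1 K0
  have h2 := mul_le_mul_of_nonneg_left q2 K0
  have h0 := mul_nonneg K0 S0.le
  have h3 : K * S ≤ 2 := by nlinarith
  have h4 := mul_le_mul_of_nonneg_right h3 b0.le
  constructor <;> nlinarith

theorem e7 (b0 : 0 < b) (b1 : b ≤ 1 / 10 ^ 6) (S0 : 0 < S) (g0 : 0 ≤ g) (g2 : g ≤ S * (1 + 4.1 * b))
    (q1 : S * (1 - b / 100) ≤ q) (hx : x * q = g) :
    0 ≤ x ∧ x ≤ 1 + 4.2 * b ∧ g * x ≤ S * (1 + 10 * b) := by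
  have q0 : 0 < q := lt_of_lt_of_le (mul_pos S0 (by linarith)) q1
  have x0 : 0 ≤ x := le_of_mul_le_mul_right (by rw [hx, zero_mul]; exact g0) q0
  have x1 : x ≤ 1 + 4.2 * b := by
    refine le_of_mul_le_mul_right ?_ q0
    have h1 := mul_le_mul_of_nonneg_left q1 (show 0 ≤ 1 + 4.2 * b by linarith)
    have h2 : S * (1 + 4.1 * b) ≤ S * ((1 + 4.2 * b) * (1 - b / 100)) :=
      mul_le_mul_of_nonneg_left (by nlinarith) S0.le
    linarith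
  refine ⟨x0, x1, (mul_le_mul g2 x1 x0 (by positivity)).trans ?_⟩
  rw [mul_assoc]
  exact mul_le_mul_of_nonneg_left (by nlinarith) S0.le

theorem e10 (b0 : 0 < b) (b1 : b ≤ 1 / 10 ^ 6) (hS : S = b ^ 2 / 2) (c0 : 0 < c) (g0 : 0 ≤ g)
    (hc : c * (1 + g) = 1) (hg : g * (2 + g) = t ^ 2) (u0 : 0 < u) (hu : u ^ 2 = 1 + (t + δ) ^ 2)
    (t1 : -(b + 2 * b ^ 2) ≤ t) (t2 : t ≤ b) (d0 : 0 ≤ δ) (d1 : δ ≤ S * (1 + 10 * b)) :
    |u * c - 1| ≤ 1.01 * b * S := by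
  have h2 : b ^ 2 ≤ b / 10 ^ 6 := by nlinarith
  have h0 := pow_pos b0 2
  have S0 : 0 < S := by linarith
  have u1 : 1 ≤ u := by nlinarith [sq_nonneg (t + δ)]
  have c1 : c ≤ 1 := by nlinarith
  have d2 : δ ≤ 1.001 * S := by nlinarith
  have h3 : (u - (1 + g)) * (u + (1 + g)) = δ * (2 * t + δ) := by linear_combination hu - hg
  have h4 : |δ * (2 * t + δ)| ≤ 1.001 * S * (2.001 * b) := by
    rw [abs_mul, abs_of_nonneg d0]
    exact mul_le_mul d2 (abs_le.2 ⟨by linarith, by linarith⟩) (abs_nonneg _) (by positivity)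
  rw [← h3, abs_mul, abs_of_pos (show 0 < u + (1 + g) by linarith)] at h4
  have h5 := mul_le_mul_of_nonneg_left (show 2 ≤ u + (1 + g) by linarith) (abs_nonneg (u - (1 + g)))
  rw [show u * c - 1 = (u - (1 + g)) * c by linear_combination hc, abs_mul, abs_of_pos c0]
  have h6 := mul_le_mul_of_nonneg_left c1 (abs_nonneg (u - (1 + g)))
  have h7 := mul_pos b0 S0
  linarith

theorem e11 {w Z : ℝ} (b0 : 0 < b) (b1 : b ≤ 1 / 10 ^ 6) (hS : S = b ^ 2 / 2) (e0 : 0 ≤ e)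
    (e1 : e ≤ 1.1 * S ^ 2) (hw : |w - 1| ≤ 1.01 * b * S) (Z0 : 0 ≤ Z) (Z1 : Z * S ≤ 1.001)
    (hL : L' * (1 - e) = w * Z) : Z - 1.02 * b ≤ L' ∧ L' ≤ Z + 1.03 * b := by
  have h2 : b ^ 2 ≤ b / 10 ^ 6 := by nlinarith
  have h0 := pow_pos b0 2
  have S0 : 0 < S := by linarith
  have S1 : S ≤ 1 / 10 ^ 6 := by linarith
  obtain ⟨w1, w2⟩ := abs_le.1 hw
  have h3 : b * S ≤ 1 / 10 ^ 6 := by nlinarith
  have e2 : e ≤ 1 / 10 := by nlinarith
  have L0 : 0 ≤ L' := by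
    refine le_of_mul_le_mul_right ?_ (show 0 < 1 - e by linarith)
    rw [hL, zero_mul]
    exact mul_nonneg (by linarith) Z0
  have a1 := mul_le_mul_of_nonneg_right w1 Z0
  have a2 := mul_le_mul_of_nonneg_right w2 Z0
  have a3 := mul_le_mul_of_nonneg_left Z1 b0.le
  have a4 : L' * S ≤ 2 := by
    have a5 : L' * S * (1 - e) = w * (Z * S) := by linear_combination S * hL
    have a6 : w * (Z * S) ≤ 1.1 * 1.001 :=
      mul_le_mul (by linarith) Z1 (mul_nonneg Z0 S0.le) (by norm_num)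
    nlinarith [mul_nonneg L0 S0.le]
  have a7 := mul_le_mul_of_nonneg_left e1 L0
  have a8 := mul_le_mul_of_nonneg_right a4 S0.le
  have a9 := mul_nonneg L0 e0
  constructor <;> nlinarith

theorem exact_ {τ Y A' : ℝ} (c0 : 0 < c) (q0 : 0 < q) (g0 : 0 ≤ g) (hc : c * (1 + g) = 1)
    (hx : x * q = g) (hω : ω = p * x + τ) (hL : L = c * q * Y) (hn : n = L + τ - p) (Y0 : 0 ≤ Y)
    (M0 : 0 ≤ K - ω) (K0 : 0 ≤ K) (p0 : 0 ≤ p) (τ0 : 0 ≤ τ) (ω0 : 0 ≤ ω) (A0 : 0 ≤ A')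
    (hA : A' * (1 - c ^ 2 * g ^ 2) = c ^ 2 * q * (Y + (K - ω)) ^ 2 / 2) :
    n * K - (A' - c ^ 2 * q * Y ^ 2 / 2) ≤
      τ * (K + L) + p ^ 2 / (2 * q) + g ^ 2 * L * K + q * K * ω := by
  have c1 : c ≤ 1 := by nlinarith
  have c2 : c ^ 2 ≤ 1 := by nlinarith
  have L0 : 0 ≤ L := by rw [hL]; positivity
  have h1 : c ^ 2 * q * (Y + (K - ω)) ^ 2 / 2 * (1 + c ^ 2 * g ^ 2) ≤ A' := by
    rw [← hA]
    nlinarith [mul_nonneg A0 (sq_nonneg (c ^ 2 * g ^ 2))]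
  have h2 : c ^ 2 * q / 2 * (c ^ 2 * g ^ 2) * Y ^ 2 ≤
      c ^ 2 * q / 2 * (c ^ 2 * g ^ 2) * (Y + (K - ω)) ^ 2 :=
    mul_le_mul_of_nonneg_left (pow_le_pow_left₀ Y0 (by linarith) 2) (by positivity)
  obtain ⟨r, hr⟩ : ∃ r, p = r * q := ⟨p / q, by field_simp⟩
  have h3 : p ^ 2 / (2 * q) = q * r ^ 2 / 2 := by rw [hr]; field_simp
  have h4 : 0 ≤ q * (c * K - c ^ 2 * g * Y + r) ^ 2 := by positivity
  have h5 : ω = r * g + τ := by rw [hω, hr, ← hx]; ring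
  have h6 : 0 ≤ c ^ 2 * q * ω ^ 2 := by positivity
  have h7 := mul_le_mul_of_nonneg_right c1 (mul_nonneg L0 τ0)
  have h8 := mul_le_mul_of_nonneg_right c2 (mul_nonneg (mul_nonneg q0.le K0) ω0)
  have h9 := mul_le_mul_of_nonneg_right c2 (mul_nonneg (mul_nonneg (sq_nonneg g) L0) K0)
  have h10 := mul_le_mul_of_nonneg_right c1 (mul_nonneg p0 K0)
  have key : n * K - (c ^ 2 * q * (Y + (K - ω)) ^ 2 / 2 +
      c ^ 2 * q / 2 * (c ^ 2 * g ^ 2) * Y ^ 2 - c ^ 2 * q * Y ^ 2 / 2) =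
      τ * K + c * (L * τ) + q * r ^ 2 / 2 + c ^ 2 * (g ^ 2 * L * K) + c ^ 2 * (q * K * ω) -
        c ^ 2 * q * ω ^ 2 / 2 - q * (c * K - c ^ 2 * g * Y + r) ^ 2 / 2 - (p * K - c * (p * K)) := by
    have h11 : c * L * ω = c * L * (r * g + τ) := by rw [← h5]
    rw [hn, hr]
    rw [hL] at h11 ⊢
    linear_combination h11 - (c * q * Y * K * (1 + c * g)) * hc
  rw [h3]
  nlinarith

theorem e12 (b0 : 0 < b) (b1 : b ≤ 1 / 10 ^ 6) (hS : S = b ^ 2 / 2) (q1 : S * (1 - b / 100) ≤ q)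
    (g0 : 0 ≤ g) (g2 : g ≤ S * (1 + 4.1 * b)) (K0 : 0 ≤ K) (k1 : 1 - 12.4 * b ≤ K * S)
    (k2 : K * S ≤ 1 + 14.3 * b) (k3 : K * q ≤ 1 + 14.2 * b) (L0 : 0 ≤ L)
    (l1 : L * S ≤ 1 + 10.02 * b) (p0 : 0 ≤ p) (p1 : p ≤ 20 * b) (ω0 : 0 ≤ ω) (ω1 : ω ≤ 22 * b) :
    (b + 2 * b ^ 2) * (K + L) + p ^ 2 / (2 * q) + g ^ 2 * L * K + q * K * ω ≤
      (2 * b + 300 * b ^ 2) * (K - ω) - 3 := by
  have h2 : b ^ 2 ≤ b / 10 ^ 6 := by nlinarith
  have h0 := pow_pos b0 2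
  have S0 : 0 < S := by linarith
  have q2 : 0.999 * S ≤ q := by nlinarith
  have q0 : 0 < q := by linarith
  have a1 : p ^ 2 / (2 * q) ≤ 401 := by
    rw [div_le_iff₀ (by positivity)]
    nlinarith [pow_le_pow_left₀ p0 p1 2]
  have a2 : g ^ 2 * L * K ≤ 2 := by
    have g3 : g ≤ 1.01 * S := by nlinarith
    have h3 := mul_le_mul_of_nonneg_right (pow_le_pow_left₀ g0 g3 2) (mul_nonneg L0 K0)
    have h4 : L * S * (K * S) ≤ 1.01 * 1.01 :=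
      mul_le_mul (by linarith) (by linarith) (mul_nonneg K0 S0.le) (by norm_num)
    nlinarith
  have a3 : q * K * ω ≤ 1 := by
    have := mul_le_mul (show K * q ≤ 2 by linarith) ω1 ω0 (by norm_num)
    nlinarith
  have a4 : b * (L - K) ≤ 45 := by
    refine le_of_mul_le_mul_right ?_ S0
    have := mul_le_mul_of_nonneg_left (show L * S - K * S ≤ 22.42 * b by linarith) b0.le
    nlinarith
  have a5 : (2 * b + 300 * b ^ 2) * ω ≤ 1 := by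
    have := mul_le_mul (show 2 * b + 300 * b ^ 2 ≤ 1 by linarith) ω1 ω0 (by norm_num)
    linarith
  have a6 : b ^ 2 * K = 2 * (K * S) := by rw [hS]; ring
  have a7 : b ^ 2 * L = 2 * (L * S) := by rw [hS]; ring
  nlinarith

theorem cond (b0 : 0 < b) (b1 : b ≤ 1 / 10 ^ 6) (hS : S = b ^ 2 / 2) (C1 : 1 - b ^ 2 ≤ C)
    (C2 : C ≤ 1) (k1 : 1 - 2 * b ^ 2 ≤ C - S * t)
    (ht : b - b ^ 2 ≤ t ∧ t ≤ b ∨ -(b + 2 * b ^ 2) ≤ t ∧ t ≤ -b) (_d0 : 0 ≤ δ)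
    (d1 : δ ≤ S * (1 + 10 * b)) :
    max ((C * t + S) / (C - S * t)) 0 + max (-t) 0 ≤ b + 2 * b ^ 2 ∧
      max (t + δ) 0 + max (-t) 0 ≤ b + 2 * b ^ 2 := by
  have h2 : b ^ 2 ≤ b / 10 ^ 6 := by nlinarith
  have h0 := pow_pos b0 2
  have k0 : 0 < C - S * t := by linarith
  have d2 : δ ≤ b ^ 2 := by nlinarith
  rcases ht with ⟨t1, t2⟩ | ⟨t1, t2⟩
  · rw [max_eq_right (show -t ≤ 0 by linarith), add_zero, add_zero]
    refine ⟨max_le ?_ (by linarith), max_le (by linarith) (by linarith)⟩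
    rw [div_le_iff₀ k0]
    have h3 : C * t ≤ b := by nlinarith
    have h4 := mul_le_mul_of_nonneg_left k1 (show 0 ≤ b + 2 * b ^ 2 by linarith)
    have h5 : b ^ 3 ≤ b ^ 2 / 10 ^ 6 := by nlinarith
    have h6 : b ^ 4 ≤ b ^ 2 / 10 ^ 6 := by nlinarith
    nlinarith
  · have h3 : C * t + S ≤ 0 := by nlinarith
    rw [max_eq_right (div_nonpos_of_nonpos_of_nonneg h3 k0.le),
      max_eq_right (show t + δ ≤ 0 by linarith), zero_add]
    exact ⟨max_le (by linarith) (by linarith), max_le (by linarith) (by linarith)⟩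

end CellQ

open CellQ in
theorem cellq (h : CellStmt) : CellQStmt := by
  intro b C S c s h0 N P cs c0 ht p1 p2
  obtain ⟨b0, b1, hS, C0, hC, N1, N2⟩ := P
  obtain ⟨t, rfl⟩ : ∃ t, s = t * c := ⟨s / c, by field_simp⟩
  obtain ⟨g, hg'⟩ : ∃ g, 1 / c - 1 = g := ⟨_, rfl⟩
  have hc : c * (1 + g) = 1 := by rw [← hg']; field_simp; ring
  have h2 : b ^ 2 ≤ b / 10 ^ 6 := by nlinarith
  have hb2 := pow_pos b0 2
  have S0 : 0 < S := by linarith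
  have hg : g * (2 + g) = t ^ 2 := by
    have : c ^ 2 * (g * (2 + g)) = c ^ 2 * t ^ 2 := by
      linear_combination (c * (1 + g) + 1) * hc - cs
    exact mul_left_cancel₀ (pow_pos c0 2).ne' this
  have ht' : b - b ^ 2 ≤ t ∧ t ≤ b ∨ -(b + 2 * b ^ 2) ≤ t ∧ t ≤ -b :=
    ht.imp (fun a => ⟨le_of_mul_le_mul_right a.1 c0, le_of_mul_le_mul_right a.2 c0⟩)
      fun a => ⟨le_of_mul_le_mul_right a.1 c0, le_of_mul_le_mul_right a.2 c0⟩
  have t1 : -(b + 2 * b ^ 2) ≤ t := by rcases ht' with a | a <;> linarith [a.1]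
  have t2 : t ≤ b := by rcases ht' with a | a <;> linarith [a.2]
  have t3 : t ^ 2 ≤ (b + 2 * b ^ 2) ^ 2 := sq_le_sq' t1 (by linarith)
  have t4 : (b - b ^ 2) ^ 2 ≤ t ^ 2 := by
    rcases ht' with a | a
    · exact pow_le_pow_left₀ (by linarith) a.1 2
    · rw [← neg_sq t]
      exact pow_le_pow_left₀ (by linarith) (by linarith [a.2]) 2
  have t5 : t ^ 2 ≤ 4 * b ^ 2 := by
    have : t ^ 2 ≤ (2 * b) ^ 2 := sq_le_sq' (by linarith) (by linarith)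
    linarith
  obtain ⟨g1, g2⟩ := e1 b0 b1 hS (by rw [← hg']; have := one_div_pos.2 c0; linarith) hg t4 t3
  have g0 : 0 < g := lt_of_lt_of_le (mul_pos S0 (by linarith)) g1
  have g3 : g ≤ 1.01 * S := g2.trans (by
    have := mul_le_mul_of_nonneg_left (show 1 + 4.1 * b ≤ 1.01 by linarith) S0.le
    linarith)
  have c1 : c < 1 := by have := mul_pos c0 g0; linarith
  obtain ⟨C1, C2, k1, k2⟩ := e2 b0 b1 hS C0 hC (t := t) (by linarith) (by linarith)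
  have k0 : 0 < C - S * t := by linarith
  have hD : C * c - S * (t * c) = c * (C - S * t) := by ring
  have htc : t * c / c = t := by field_simp
  obtain ⟨q, hq'⟩ : ∃ q, qq C S c (t * c) = q := ⟨_, rfl⟩
  have hq0 : q * (c ^ 2 * (C - S * t)) = S := by rw [← hq', qq, hD]; field_simp
  have hq : q * (C - S * t) = S * (1 + t ^ 2) := by
    linear_combination (1 + t ^ 2) * hq0 - q * (C - S * t) * cs
  obtain ⟨q1, q2⟩ := e3 b0 b1 S0 k1 k2 t5 hq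
  have q0 : 0 < q := lt_of_lt_of_le (mul_pos S0 (by linarith)) q1
  have q3 : q ≤ b ^ 2 := q2.trans (by
    have := mul_le_mul_of_nonneg_left (show 1 + b / 100 ≤ 2 by linarith) S0.le
    linarith)
  have n0 : (0 : ℝ) ≤ N := Nat.cast_nonneg N
  have n1 : 1 + 10 * b ≤ N * S := by rw [hS]; linarith
  have n2 : N * S ≤ 1 + 10.01 * b := by rw [hS]; linarith
  obtain ⟨m1, m2⟩ := e4 b0 b1 n0 n1 n2 g1 g2
  rw [hq'] at p1 p2
  obtain ⟨p, hp⟩ : ∃ p, p = q * h0 + (b + 2 * b ^ 2) - N := ⟨_, rfl⟩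
  have p0 : 0 ≤ p := by linarith
  have p3 : p ≤ 20 * b := by linarith
  have f0 : 0 ≤ (N * g - p) / q := div_nonneg (by linarith) q0.le
  obtain ⟨K, hK⟩ : ∃ K, K = ⌊(N * g - p) / q⌋₊ := ⟨_, rfl⟩
  have f1 : K * q ≤ N * g - p := (le_div_iff₀ q0).1 (hK ▸ Nat.floor_le f0)
  have f2 : N * g - p < (K + 1) * q := (div_lt_iff₀ q0).1 (hK ▸ Nat.lt_floor_add_one _)
  have K0 : (0 : ℝ) ≤ K := Nat.cast_nonneg K
  have f3 : 1 - 12.3 * b ≤ K * q := by linarith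
  have f4 : K * q ≤ 1 + 14.2 * b := by linarith
  obtain ⟨f5, f6⟩ := e6 b0 b1 S0 K0 q1 q2 f3 f4
  have K1 : 0 < K := by
    rcases Nat.eq_zero_or_pos K with a | a
    · rw [a] at f3
      simp only [Nat.cast_zero, zero_mul] at f3
      linarith
    · exact a
  obtain ⟨x, hx'⟩ : ∃ x, g / q = x := ⟨_, rfl⟩
  have hx : x * q = g := by rw [← hx']; field_simp
  obtain ⟨x0, x1, d1⟩ := e7 b0 b1 S0 g0.le g2 q1 hx
  have d0 : 0 ≤ g * x := mul_nonneg g0.le x0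
  obtain ⟨ω, hω⟩ : ∃ ω, ω = p * x + (b + 2 * b ^ 2) := ⟨_, rfl⟩
  have ω0 : 0 ≤ ω := by have := mul_nonneg p0 x0; linarith
  have ω1 : ω ≤ 22 * b := by
    have := mul_le_mul p3 (show x ≤ 1.01 by linarith) x0 (by linarith)
    linarith
  obtain ⟨u, hu'⟩ : ∃ u, √(1 + (t + g * x) ^ 2) = u := ⟨_, rfl⟩
  have u0 : 0 < u := hu' ▸ Real.sqrt_pos.2 (by positivity)
  have hu : u ^ 2 = 1 + (t + g * x) ^ 2 := hu' ▸ Real.sq_sqrt (by positivity)
  obtain ⟨Y, rfl⟩ : ∃ Y, h0 = Y * c := ⟨h0 / c, by field_simp⟩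
  have hY : Y * c / c = Y := by field_simp
  have s1 : (t + g * x) / u / (1 / u) = t + g * x := by field_simp
  have s2 : (Y + (K - ω)) / u / (1 / u) = Y + (K - ω) := by field_simp
  have s3 : (1 / u) ^ 2 + ((t + g * x) / u) ^ 2 = 1 := by field_simp; linarith
  have Sb : S ≤ b / 10 ^ 6 := by linarith
  have N3 : (1 : ℝ) ≤ N := by
    by_contra a
    have := mul_le_mul_of_nonneg_right (not_le.1 a).le S0.le
    linarith
  have L0 : 0 ≤ q * (Y * c) := by linarith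
  have Y0 : 0 ≤ Y := nonneg_of_mul_nonneg_left (nonneg_of_mul_nonneg_right L0 q0) c0
  have w1 : ω * S ≤ b / 100 := by
    have := mul_le_mul ω1 (show S ≤ 1 / 10 ^ 6 by linarith) S0.le (by linarith)
    linarith
  have w2 := mul_nonneg ω0 S0.le
  have M0 : 0 ≤ K - ω := le_of_mul_le_mul_right (by linarith) S0
  have l1 : q * (Y * c) * S ≤ 1 + 10.02 * b := by
    have a1 := mul_le_mul_of_nonneg_right (show q * (Y * c) ≤ N + 20 * b by linarith) S0.le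
    have a2 := mul_le_mul_of_nonneg_left (show S ≤ 1 / 10 ^ 6 by linarith) b0.le
    linarith
  have ee : c ^ 2 * g ^ 2 ≤ 1.1 * S ^ 2 := by
    have a1 := mul_le_mul (pow_le_one₀ (n := 2) c0.le c1.le) (pow_le_pow_left₀ g0.le g3 2)
      (sq_nonneg g) zero_le_one
    have a2 := sq_nonneg S
    linarith
  have e0 : 0 < 1 - c ^ 2 * g ^ 2 := by
    have := pow_le_pow_left₀ S0.le (show S ≤ 1 / 2 by linarith) 2
    linarith
  have hκ : C - S * (t + g * x) = (C - S * t) * (1 - c ^ 2 * g ^ 2) := by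
    linear_combination g * x * hq0 - g * c ^ 2 * (C - S * t) * hx
  obtain ⟨q', hq1⟩ : ∃ q', qq C S (1 / u) ((t + g * x) / u) = q' := ⟨_, rfl⟩
  have hq2 : q' * (1 - c ^ 2 * g ^ 2) = q * c ^ 2 * u ^ 2 := by
    have a1 : C * (1 / u) - S * ((t + g * x) / u) = (C - S * t) * (1 - c ^ 2 * g ^ 2) / u := by
      rw [← hκ]; ring
    rw [← hq1, qq, a1]
    field_simp
    linear_combination -hq0
  have q4 : 0 ≤ q' := le_of_mul_le_mul_right (by rw [hq2, zero_mul]; positivity) e0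
  have z1 : c * q * (K - ω) ≤ K * q := by
    have a1 := mul_le_mul_of_nonneg_right c1.le (mul_nonneg q0.le M0)
    have a2 := mul_nonneg q0.le ω0
    linarith
  have c2 : 1 - c ≤ b ^ 2 := by
    have := mul_le_mul_of_nonneg_right c1.le g0.le
    linarith
  have z2 : K * q - 3 * b ^ 2 ≤ c * q * (K - ω) := by
    have a1 := mul_le_mul c2 (show K * q ≤ 2 by linarith) (mul_nonneg K0 q0.le) hb2.le
    have a2 := mul_le_mul q3 (show ω ≤ 1 by linarith) ω0 hb2.le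
    have a3 := mul_le_mul_of_nonneg_right c1.le (mul_nonneg q0.le ω0)
    linarith
  obtain ⟨z3, z4⟩ := e11 (L' := q' * ((Y + (K - ω)) / u)) (Z := q * (Y * c) + c * q * (K - ω))
    b0 b1 hS (by positivity) ee (e10 b0 b1 hS c0 g0.le hc hg u0 hu t1 t2 d0 d1) (by linarith)
    (by
      have := mul_le_mul (show c * q * (K - ω) ≤ 2 by linarith) Sb S0.le (by norm_num)
      linarith)
    (by rw [mul_right_comm, hq2]; field_simp)
  obtain ⟨y1, y2⟩ := cond b0 b1 hS C1 C2 k1 ht' d0 d1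
  refine ⟨1 / u, (t + g * x) / u, (Y + (K - ω)) / u, s3, by positivity, ?_⟩
  rw [s1, s2, htc, hY, hq1]
  refine ⟨by linarith, by linarith, by linarith, by linarith, by linarith, by linarith, ?_⟩
  refine (h C S c (t * c) (Y * c) (1 / u) ((t + g * x) / u) ((Y + (K - ω)) / u) (b + 2 * b ^ 2) p N K
    hC S0 C0 cs c0 c1 s3 (by positivity) (by rw [hD]; positivity) ?_ (by rwa [s1, htc])
    (by linarith) (by rw [hq', hp]) p0 K1 (by rwa [hq', hg']) (by rwa [hq', hg'])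
    (by rw [s1, htc, hq', hg', ← hx']; ring) (by rw [s2, hY, hq', hg', hω, ← hx']; ring)).mono ?_
    fun _ _ a => a
  · rwa [htc, show (C * (t * c) + S * c) / (C * c - S * (t * c)) = (C * t + S) / (C - S * t) by
      rw [hD]; field_simp]
  · have a1 := exact_ (n := N) (L := q * (Y * c)) (A' := q' * ((Y + (K - ω)) / u) ^ 2 / 2) c0 q0
      g0.le hc hx hω (by ring) (by linarith) Y0 M0 K0 p0 (by linarith) ω0 (by positivity) (by
        rw [show q' * ((Y + (K - ω)) / u) ^ 2 / 2 * (1 - c ^ 2 * g ^ 2) =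
          q' * (1 - c ^ 2 * g ^ 2) * ((Y + (K - ω)) / u) ^ 2 / 2 by ring, hq2]
        field_simp)
    have a2 := e12 b0 b1 hS q1 g0.le g2 K0 f5 f6 f4 L0 l1 p0 p3 ω0 ω1
    rw [Ar, Ar, hq1, hq']
    linarith

end Pool.Agent.MP_c59ecb_co.sh
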