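import Pool.Agent.MP_c59ecb_co.sh.Side

/-! The column to the right of a given column. -/

set_option autoImplicit false

namespace Pool.Agent.MP_c59ecb_co.sh

open MeasureTheory Complex Pool.Agent.MP_c59ecb_co.h76

namespace ColStep

lemma tele (f : ℕ → ℝ) (a t : ℝ) (m : ℕ) (h0 : f 0 = 0)
    (h : ∀ j < m, |f (j + 1) - f j - a| ≤ t) : ∀ j ≤ m, |f j - j * a| ≤ j * t := by
  intro j
  induction j with
  | zero => simp [h0]
  | succ j ih =>
    intro hj
    have h1 := abs_le.1 (ih (by omega))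
    have h2 := abs_le.1 (h j (by omega))
    push_cast
    rw [abs_le]
    constructor <;> linarith [h1.1, h1.2, h2.1, h2.2]

end ColStep

open ColStep in
theorem colStepS (L : L0) : ColStepS := by
  intro κ U W μ δ s ϱ m A Q0 Q1 hL hμ hδ hs hm hsm hδ1 hϱ hU0 hW0 hA q1 q2 q3 q4
  have hm' : (10 : ℝ) ≤ m := by exact_mod_cast hm
  have m1 : (m + 3) * μ ≤ 1 / 1000 := by nlinarith
  have m2 : (m + 3) * s ≤ 1 / 1000 := by nlinarith
  have m3 : μ ≤ 1 / 13000 := by nlinarith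
  have m3' : μ ≤ 1 / 1000 := by linarith
  have s1 : s ≤ 1 / 1000 := by nlinarith
  have iμ : ∀ i : ℕ, (i : ℝ) ≤ m + 3 → 0 ≤ (i : ℝ) * μ ∧ (i : ℝ) * μ ≤ 1 / 1000 := fun i hi =>
    ⟨by positivity, by nlinarith⟩
  have aU : ∀ j ≤ m, |U (A j)| ≤ 1 / 1000 := fun j hj => by
    have := tele (fun j => U (A j)) 0 s m hU0 (fun j hj => by simpa using (hA j hj).1) j hj
    have h2 : (j : ℝ) ≤ m := by exact_mod_cast hj
    simp only [mul_zero, sub_zero] at this
    nlinarith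
  have aI : ∀ j ≤ m, Ins U W ϱ (A j) := fun j hj => by
    have h1 := abs_le.1 (tele (fun j => W (A j)) 1 (1 / 10) m hW0 (fun j hj => (hA j hj).2) j hj)
    have h2 : (j : ℝ) ≤ m := by exact_mod_cast hj
    have h3 : (0 : ℝ) ≤ j := by positivity
    refine ⟨by linarith [aU j hj], abs_le.2 ⟨?_, ?_⟩⟩ <;> linarith [h1.1, h1.2]
  have aW : ∀ j ≤ m, |W (A j) - j * 1| ≤ j * (10 * μ) :=
    tele (fun j => W (A j)) 1 (10 * μ) m hW0 fun j hj => by
      have h1 := abs_le.1 (hA j hj).2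
      exact L.loc.vc κ U W μ ϱ _ _ hμ m3' hL (aI j hj.le) (aI (j + 1) hj)
        (by linarith [(hA j hj).1]) (by linarith [h1.1]) (by linarith [h1.2])
  rw [hU0] at q1
  rw [hW0] at q2
  have q1' := abs_le.1 q1
  have q2' := abs_le.1 q2
  have q3' := abs_le.1 q3
  have q4' := abs_le.1 q4
  obtain ⟨e, hb⟩ : ∃ e : ℤ, |W Q0 - e| ≤ 1 / 2 := ⟨round (W Q0), abs_sub_round _⟩
  have hb' := abs_le.1 hb
  have e1 : -1 ≤ e := by
    have : (-2 : ℝ) < e := by linarith [hb'.2]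
    have : (-2 : ℤ) < e := by exact_mod_cast this
    omega
  have e2 : e ≤ 1 := by
    have : (e : ℝ) < 2 := by linarith [hb'.1]
    have : e < (2 : ℤ) := by exact_mod_cast this
    omega
  have : Nonempty κ := ⟨Q0⟩
  choose! nx n1 n2 using fun (q : κ) (h1 : |U q - 1 / 4| ≤ ϱ) (h2 : |W q + 3 / 4| ≤ ϱ) =>
    hL.cov _ _ h1 h2
  have ins : ∀ (q : κ) (i : ℕ), (i : ℝ) ≤ m + 3 → |W q - W Q0 - i| ≤ 1 / 2 → |U q| ≤ 2 →
      Ins U W ϱ q := fun q i hi h1 h2 => by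
    have h3 := abs_le.1 h1
    have h4 : (0 : ℝ) ≤ i := by positivity
    exact ⟨by linarith, abs_le.2 ⟨by linarith [h3.1], by linarith [h3.2]⟩⟩
  have step : ∀ (q : κ) (i : ℕ), (i : ℝ) ≤ m + 2 → |W q - W Q0 - i| ≤ i * (10 * μ) →
      |U q - 1| ≤ 1 / 50 → -(3 / 4) - μ ≤ U (nx q) - U q ∧ U (nx q) - U q ≤ 1 / 4 + μ ∧
      |W (nx q) - W q - 1| ≤ 10 * μ := fun q i hi h1 h2 => by
    have h3 := abs_le.1 h1
    have h4 := abs_le.1 h2
    have h5 := iμ i (by linarith)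
    have h6 : (0 : ℝ) ≤ i := by positivity
    have c1 : |U q - 1 / 4| ≤ ϱ := abs_le.2 ⟨by linarith [h4.1], by linarith [h4.2]⟩
    have c2 : |W q + 3 / 4| ≤ ϱ := abs_le.2 ⟨by linarith [h3.1], by linarith [h3.2]⟩
    have d1 := abs_le.1 (n1 q c1 c2)
    have d2 := abs_le.1 (n2 q c1 c2)
    refine ⟨by linarith [d1.2], by linarith [d1.1], L.loc.vc κ U W μ ϱ _ _ hμ m3' hL
      (ins q i (by linarith) (abs_le.2 ⟨by linarith, by linarith⟩)
        (abs_le.2 ⟨by linarith, by linarith⟩))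
      ⟨abs_le.2 ⟨by linarith, by linarith⟩, abs_le.2 ⟨by linarith, by linarith⟩⟩
      (abs_le.2 ⟨by linarith, by linarith⟩) (by linarith) (by linarith)⟩
  have off : ∀ (q : κ) (i j : ℕ), j ≤ m → (j : ℤ) = i + e → |W q - W Q0 - i| ≤ i * (10 * μ) →
      |W q - W (A j) - (W Q0 - e)| ≤ 20 * (m + 2) * μ := fun q i j hj hij h1 => by
    have h2 := abs_le.1 h1
    have h3 := abs_le.1 (aW j hj)
    have h4 : (j : ℝ) = i + e := by exact_mod_cast hij
    have h5 : (j : ℝ) ≤ m := by exact_mod_cast hj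
    have h6 : (i : ℝ) ≤ m + 1 := by exact_mod_cast (by omega : i ≤ m + 1)
    have h7 : (j : ℝ) * μ ≤ m * μ := by gcongr
    have h8 : (i : ℝ) * μ ≤ (m + 1) * μ := by gcongr
    exact abs_le.2 ⟨by linarith [h2.1, h3.2], by linarith [h2.2, h3.1]⟩
  have mat : ∀ (q : κ) (i j : ℕ), j ≤ m → (j : ℤ) = i + e → |W q - W Q0 - i| ≤ i * (10 * μ) →
      21 / 100 ≤ U q → U q ≤ 3 / 2 → |U q - U (A j) - 1| ≤ 10 * μ := fun q i j hj hij h1 h2 h3 => by
    have h4 := abs_le.1 (off q i j hj hij h1)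
    have h5 := abs_le.1 (aU j hj)
    have h6 : (i : ℝ) ≤ m + 1 := by exact_mod_cast (by omega : i ≤ m + 1)
    have h7 := iμ i (by linarith)
    exact L.loc.hc κ U W μ ϱ _ _ hμ m3' hL (aI j hj)
      (ins q i (by linarith) (by linarith) (abs_le.2 ⟨by linarith, by linarith⟩))
      (abs_le.2 ⟨by linarith, by linarith⟩) (by linarith) (by linarith)
  let B : ℕ → κ := fun i => nx^[i] Q0
  have hB : ∀ i, B (i + 1) = nx (B i) := fun i => Function.iterate_succ_apply' _ _ _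
  have hB0 : B 0 = Q0 := rfl
  have H : ∀ i : ℕ, (i : ℤ) + e ≤ m → |W (B i) - W Q0 - i| ≤ i * (10 * μ) ∧
      |U (B i) - 1| ≤ 1 / 50 := by
    intro i
    induction i with
    | zero =>
      intro _
      rw [hB0]
      exact ⟨by simp, abs_le.2 ⟨by linarith, by linarith⟩⟩
    | succ i ih =>
      intro hi
      obtain ⟨h1, h2⟩ := ih (by omega)
      obtain ⟨t1, t2, t3⟩ := step (B i) i (by exact_mod_cast (by omega : i ≤ m + 2)) h1 h2
      rw [← hB] at t1 t2 t3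
      have h3 : |W (B (i + 1)) - W Q0 - ((i + 1 : ℕ) : ℝ)| ≤ ((i + 1 : ℕ) : ℝ) * (10 * μ) := by
        have := abs_le.1 h1
        have := abs_le.1 t3
        push_cast
        exact abs_le.2 ⟨by linarith, by linarith⟩
      obtain ⟨j, hj⟩ : ∃ j : ℕ, (j : ℤ) = ((i + 1 : ℕ) : ℤ) + e :=
        ⟨(((i + 1 : ℕ) : ℤ) + e).toNat, by omega⟩
      have h4 := abs_le.1 h2
      have h5 := abs_le.1 (mat (B (i + 1)) (i + 1) j (by omega) hj h3 (by linarith) (by linarith))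
      have h6 := abs_le.1 (aU j (by omega))
      exact ⟨h3, abs_le.2 ⟨by linarith, by linarith⟩⟩
  have M : ∀ i j : ℕ, j ≤ m → (j : ℤ) = i + e → |U (B i) - U (A j) - 1| ≤ 10 * μ :=
    fun i j hj hij => by
      obtain ⟨h1, h2⟩ := H i (by omega)
      have := abs_le.1 h2
      exact mat (B i) i j hj hij h1 (by linarith) (by linarith)
  have S : ∀ i : ℕ, (i : ℤ) + e ≤ m → -(3 / 4) - μ ≤ U (B (i + 1)) - U (B i) ∧
      U (B (i + 1)) - U (B i) ≤ 1 / 4 + μ ∧ |W (B (i + 1)) - W (B i) - 1| ≤ 10 * μ := fun i hi => by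
    rw [hB]
    exact step (B i) i (by exact_mod_cast (by omega : i ≤ m + 2)) (H i hi).1 (H i hi).2
  have aUm := abs_le.1 (aU m le_rfl)
  have aWm := abs_le.1 (aW m le_rfl)
  have mμ := iμ m (by linarith)
  have I1 : Ins U W ϱ Q1 :=
    ⟨abs_le.2 ⟨by linarith, by linarith⟩, abs_le.2 ⟨by linarith, by linarith⟩⟩
  obtain ⟨k, k1, k2, k3⟩ : ∃ k : ℤ, -1 ≤ k ∧ k ≤ 1 ∧
      |W Q1 - W (A m) - (W Q0 - e) - k| ≤ 52 / 100 := by
    rcases le_total (W Q1 - W (A m) - (W Q0 - e)) (-(1 / 2)) with h | h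
    · exact ⟨-1, le_rfl, by norm_num, abs_le.2 ⟨by push_cast; linarith, by push_cast; linarith⟩⟩
    · rcases le_total (W Q1 - W (A m) - (W Q0 - e)) (1 / 2) with h' | h'
      · exact ⟨0, by norm_num, by norm_num,
          abs_le.2 ⟨by push_cast; linarith, by push_cast; linarith⟩⟩
      · exact ⟨1, by norm_num, le_rfl, abs_le.2 ⟨by push_cast; linarith, by push_cast; linarith⟩⟩
  obtain ⟨n, hn⟩ : ∃ n : ℕ, (n : ℤ) + 1 + e = m + k := ⟨((m : ℤ) + k - e - 1).toNat, by omega⟩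
  have hE : B (n + 1) = Q1 := by
    obtain ⟨h1, h2⟩ := H n (by omega)
    obtain ⟨t1, t2, t3⟩ := S n (by omega)
    have h3 := abs_le.1 h1
    have h4 := abs_le.1 h2
    have h5 := abs_le.1 t3
    have h6 := abs_le.1 k3
    have h7 : (n : ℝ) + 1 + e = m + k := by exact_mod_cast hn
    have h8 : (n : ℝ) ≤ m + 1 := by exact_mod_cast (by omega : n ≤ m + 1)
    have h9 := iμ n (by linarith)
    refine L.loc.same κ U W μ ϱ _ _ hμ m3' hL
      (ins _ (n + 1) (by push_cast; linarith)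
        (by push_cast; exact abs_le.2 ⟨by linarith, by linarith⟩)
        (abs_le.2 ⟨by linarith, by linarith⟩)) I1 ?_ (abs_le.2 ⟨by linarith, by linarith⟩)
    obtain ⟨j, hj⟩ : ∃ j : ℕ, (j : ℤ) = n + e := ⟨((n : ℤ) + e).toNat, by omega⟩
    have g1 := abs_le.1 (M n j (by omega) hj)
    have g2 := abs_le.1 (aU j (by omega))
    exact abs_le.2 ⟨by linarith, by linarith⟩
  refine ⟨n + 1, B, e, W Q0 - e, hB0, hE, abs_le.2 ⟨e1, e2⟩, abs_le.2 ⟨by omega, by omega⟩, hb,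
    fun i hi => (S i (by omega)).2.2,
    fun i j _ hj hij => ⟨M i j hj hij, off _ i j hj hij (H i (by omega)).1⟩, fun i hi => ?_⟩
  by_cases c1 : (i : ℤ) + e < 0
  · obtain rfl : i = 0 := by omega
    have g1 := abs_le.1 (M 1 0 (by omega) (by omega))
    rw [hU0] at g1
    rw [hB0]
    exact Or.inl (abs_le.2 ⟨by linarith, by linarith⟩)
  · by_cases c2 : (i : ℤ) + e < m
    · obtain ⟨j, hj⟩ : ∃ j : ℕ, (j : ℤ) = i + e := ⟨((i : ℤ) + e).toNat, by omega⟩
      have g1 := abs_le.1 (M i j (by omega) hj)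
      have g2 := abs_le.1 (M (i + 1) (j + 1) (by omega) (by push_cast; omega))
      exact Or.inr ⟨j, by omega, abs_le.2 ⟨by linarith, by linarith⟩⟩
    · obtain rfl : i = n := by omega
      have g1 := abs_le.1 (M i m le_rfl (by omega))
      rw [hE]
      exact Or.inl (abs_le.2 ⟨by linarith, by linarith⟩)

end Pool.Agent.MP_c59ecb_co.sh
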