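import Mathlib.Data.Finset.Functor
import Pool.Agent.MP_c59ecb_co.sh.Side

-- ======== part 0: formerly Pool.Agent.MP_c59ecb_co.sh.Chain
section MrgPart0

/-! Summation along a chain of samples; usable and good indices of the row. -/

set_option autoImplicit false

namespace Pool.Agent.MP_c59ecb_co.sh

open Finset

namespace Chain

lemma abel (c Φ : ℕ → ℝ) (n : ℕ) : ∑ i ∈ range (n + 1), c i * (Φ i - Φ (i + 1)) =
    c 0 * Φ 0 - c n * Φ (n + 1) + ∑ i ∈ range n, (c (i + 1) - c i) * Φ (i + 1) := by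
  induction n with
  | zero => simp [mul_sub]
  | succ n ih => rw [sum_range_succ, ih, sum_range_succ]; ring

lemma mul_ge {a b B : ℝ} (h0 : 0 ≤ b) (h1 : b ≤ B) : -(|a| * B) ≤ a * b := by
  nlinarith [neg_abs_le a, abs_nonneg a]

lemma abel_ge {N : ℕ} {c Φ : ℕ → ℝ} {Φ0 tv : ℝ} (hΦ : ∀ i ≤ N, 0 ≤ Φ i ∧ Φ i ≤ Φ0)
    (hc : ∀ i, |c i| ≤ 1) (ht : ∑ i ∈ range (N - 1), |c (i + 1) - c i| ≤ tv) :
    0 ≤ (tv + 2) * Φ0 ∧ -((tv + 2) * Φ0) ≤ ∑ i ∈ range N, c i * (Φ i - Φ (i + 1)) := by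
  have h0 : 0 ≤ Φ0 := (hΦ 0 N.zero_le).1.trans (hΦ 0 N.zero_le).2
  have h1 : 0 ≤ tv := (sum_nonneg fun _ _ => abs_nonneg _).trans ht
  have h2 : 0 ≤ (tv + 2) * Φ0 := by positivity
  refine ⟨h2, ?_⟩
  cases N with
  | zero => simpa using h2
  | succ n =>
    rw [abel]
    have h3 := mul_ge (a := c 0) (hΦ 0 (Nat.zero_le _)).1 (hΦ 0 (Nat.zero_le _)).2
    have h4 := mul_ge (a := -c n) (hΦ _ le_rfl).1 (hΦ _ le_rfl).2
    have h5 : ∑ i ∈ range n, -(|c (i + 1) - c i| * Φ0) ≤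
        ∑ i ∈ range n, (c (i + 1) - c i) * Φ (i + 1) := sum_le_sum fun i hi =>
      have := hΦ (i + 1) (by have := mem_range.1 hi; omega)
      mul_ge this.1 this.2
    rw [sum_neg_distrib, ← sum_mul] at h5
    rw [abs_neg] at h4
    have h6 := mul_le_mul_of_nonneg_right ht h0
    rw [Nat.add_sub_cancel] at h6
    nlinarith [hc 0, hc n]

lemma zero_case {B eD M y e μ0 : ℝ} (he : 0 ≤ e) (he' : e ≤ 1 / 10) (h0 : 0 < μ0) (hM : μ0 ≤ M)
    (hD : 0 ≤ eD) (h : (1 - e) * y ≤ M * B + eD) :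
    2 * (1 - e) ^ 2 * y / M - 2 * eD / μ0 ≤ 2 * (1 - e) * B := by
  have hM0 : 0 < M := h0.trans_le hM
  have h1 : 2 * eD / M ≤ 2 * eD / μ0 := by gcongr
  have h2 : 2 * (1 - e) ^ 2 * y / M - 2 * eD / M ≤ 2 * (1 - e) * B := by
    rw [← sub_div, div_le_iff₀ hM0]
    nlinarith [mul_le_mul_of_nonneg_left h (by linarith : 0 ≤ 1 - e), mul_nonneg he hD]
  linarith

lemma big_case {S eD M y e μ0 μ1 : ℝ} (he : 0 ≤ e) (he' : e ≤ 1 / 10) (h0 : 0 < μ0) (hM : μ0 ≤ M)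
    (h1 : μ0 ≤ μ1) (hD : 0 ≤ eD) (hy : 0 ≤ y) (h5 : 5 * y * μ1 ≤ 2 * e * μ0)
    (h : 89 / 100 ≤ μ1 * S + eD) : 2 * (1 - e) ^ 2 * y / M - 2 * eD / μ0 ≤ e * S := by
  have hμ : 0 < μ1 := h0.trans_le h1
  have h2 : 2 * (1 - e) ^ 2 * y / M ≤ 2 * y / μ0 := by
    have : (1 - e) ^ 2 ≤ 1 := by nlinarith
    gcongr
    linarith
  have h3 : 2 * y / μ0 - 2 * eD / μ0 ≤ e * S := by
    rw [← sub_div, div_le_iff₀ h0]
    refine le_of_mul_le_mul_left ?_ hμ
    have h4 := mul_le_mul_of_nonneg_left h (mul_nonneg he h0.le)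
    have h6 : e * μ0 * eD ≤ μ1 * eD := by
      refine mul_le_mul_of_nonneg_right ?_ hD
      nlinarith
    nlinarith [mul_nonneg hy hμ.le, mul_nonneg hμ.le hD]
  linarith

lemma good_case {A B c eD ΔD Ma Mb y e μ0 μ1 : ℝ} (he : 0 ≤ e) (he' : e ≤ 1 / 10) (h0 : 0 < μ0)
    (hA : 0 ≤ A) (hB : 0 ≤ B) (hD : 0 ≤ eD)
    (h : (c = 1 ∨ c = -1) ∧ ΔD ≤ Ma * A + eD ∧ -ΔD ≤ Mb * B + eD ∧ μ0 ≤ Ma ∧ Ma ≤ μ1 ∧ μ0 ≤ Mb ∧
      Mb ≤ μ1 ∧ 0 ≤ y ∧ y ≤ 1 / 10 ∧ 5 * y * μ1 ≤ 2 * e * μ0 ∧ ∃ z : ℤ, |ΔD + c * y - z| ≤ e * y) :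
    (1 - e) * (c * (A - B)) + 2 * (1 - e) ^ 2 * y / (if c = 1 then Mb else Ma) - 2 * eD / μ0 ≤
      A + B := by
  obtain ⟨hc, h1, h2, h3, h4, h5, h6, h7, h8, h9, z, hz⟩ := h
  obtain ⟨z1, z2⟩ := abs_le.1 hz
  have hS := mul_nonneg he (add_nonneg hA hB)
  have hy : e * y ≤ 1 / 100 := by nlinarith
  have hμ : 0 < μ1 := h0.trans_le (h3.trans h4)
  have hbig : z ≠ 0 → 89 / 100 ≤ μ1 * (A + B) + eD := fun hz0 => by
    have a1 := mul_le_mul_of_nonneg_right h4 hA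
    have a2 := mul_le_mul_of_nonneg_right h6 hB
    have a3 := mul_nonneg hμ.le hA
    have a4 := mul_nonneg hμ.le hB
    rcases lt_or_gt_of_ne hz0 with h | h
    · have : (z : ℝ) ≤ -1 := by exact_mod_cast (by omega : z ≤ -1)
      rcases hc with rfl | rfl <;> linarith
    · have : (1 : ℝ) ≤ z := by exact_mod_cast (by omega : 1 ≤ z)
      rcases hc with rfl | rfl <;> linarith
  have he1 : 0 ≤ 1 - e := by linarith
  have a1 := mul_nonneg he1 hA
  have a2 := mul_nonneg he1 hB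
  rcases hc with rfl | rfl
  · rw [if_pos rfl]
    rcases eq_or_ne z 0 with rfl | hz0
    · have := zero_case (B := B) (y := y) he he' h0 h5 hD (by push_cast at z2; linarith)
      linarith
    · have := big_case he he' h0 h5 (h3.trans h4) hD h7 h9 (hbig hz0)
      linarith
  · rw [if_neg (by norm_num)]
    rcases eq_or_ne z 0 with rfl | hz0
    · have := zero_case (B := A) (y := y) he he' h0 h3 hD (by push_cast at z1; linarith)
      linarith
    · have := big_case he he' h0 h3 (h3.trans h4) hD h7 h9 (hbig hz0)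
      linarith

end Chain

open Chain in
theorem chainS : ChainS := by
  intro N act good A B Φ c er eD ΔD Ma Mb y e Φ0 tv μ0 μ1 he he' h0 hga hact hΦ hc hc0 ht h1 h2
  obtain ⟨a1, a2⟩ := abel_ge hΦ hc ht
  have a3 : ∑ i ∈ act, c i * (Φ i - Φ (i + 1)) = ∑ i ∈ range N, c i * (Φ i - Φ (i + 1)) :=
    sum_subset hact fun i hi hn => by rw [hc0 i (mem_range.1 hi) hn, zero_mul]
  have a4 : ∑ i ∈ act, ((1 - e) * (c i * (Φ i - Φ (i + 1))) - er i - 2 * eD i / μ0 +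
      if i ∈ good then 2 * (1 - e) ^ 2 * y i / (if c i = 1 then Mb i else Ma i) else 0) ≤
      ∑ i ∈ act, (A i + B i) := by
    refine sum_le_sum fun i hi => ?_
    obtain ⟨hA, hB, hD, hE⟩ := h1 i hi
    have b1 : (1 - e) * (c i * (Φ i - Φ (i + 1) - (A i - B i))) ≤ er i := by
      refine (le_abs_self _).trans ?_
      rw [abs_mul, abs_mul, abs_of_nonneg (by linarith : 0 ≤ 1 - e)]
      have := mul_le_mul (hc i) hE (abs_nonneg _) zero_le_one
      have b2 : 0 ≤ |c i| * |Φ i - Φ (i + 1) - (A i - B i)| := by positivity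
      nlinarith
    split_ifs with hg hc1
    · have := good_case he he' h0 hA hB hD (h2 i hg)
      rw [if_pos hc1] at this
      linarith
    · have := good_case he he' h0 hA hB hD (h2 i hg)
      rw [if_neg hc1] at this
      linarith
    · obtain ⟨c1, c2⟩ := abs_le.1 (hc i)
      have b2 : c i * (A i - B i) ≤ A i + B i := by nlinarith
      have b3 : 0 ≤ 2 * eD i / μ0 := by positivity
      have b4 := mul_le_mul_of_nonneg_left b2 (by linarith : 0 ≤ 1 - e)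
      nlinarith [mul_nonneg he (add_nonneg hA hB)]
  rw [sum_add_distrib, sum_sub_distrib, sum_sub_distrib, ← mul_sum, a3, ← sum_div, ← mul_sum,
    sum_ite_mem, inter_eq_right.2 hga] at a4
  nlinarith [mul_le_mul_of_nonneg_left a2 (by linarith : 0 ≤ 1 - e), mul_nonneg he a1]

namespace Chain

lemma lip {T : ℕ} {p g : ℕ → ℝ} (hg : ∀ k, 0 ≤ g k) (hp : ∀ k < T, |p (k + 1) - p k| ≤ 2 * g k)
    {a b : ℕ} (hab : a ≤ b) (hb : b ≤ T) {S : Finset ℕ} (hS : ∀ j, a ≤ j → j < b → j ∈ S) :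
    |p b - p a| ≤ 2 * ∑ j ∈ S, g j := by
  have h1 : |p b - p a| ≤ 2 * ∑ j ∈ Ico a b, g j := by
    clear hS
    induction b, hab using Nat.le_induction with
    | base => simp
    | succ b hab ih =>
      rw [sum_Ico_succ_top hab]
      have := abs_sub_le (p (b + 1)) (p b) (p a)
      linarith [hp b hb, ih (by omega)]
  have h2 : ∑ j ∈ Ico a b, g j ≤ ∑ j ∈ S, g j := sum_le_sum_of_subset_of_nonneg
    (fun j hj => hS j (mem_Ico.1 hj).1 (mem_Ico.1 hj).2) fun j _ _ => hg j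
  linarith

lemma exists_cls {r o : ℕ} (ho : o < r) (j : ℕ) : ∃ k, k % r = o ∧ j ≤ k ∧ k < j + r := by
  induction j with
  | zero => exact ⟨o, Nat.mod_eq_of_lt ho, o.zero_le, by omega⟩
  | succ j ih =>
    obtain ⟨k, h1, h2, h3⟩ := ih
    rcases eq_or_lt_of_le h2 with rfl | h
    · exact ⟨j + r, by rw [Nat.add_mod_right, h1], by omega, by omega⟩
    · exact ⟨k, h1, h, by omega⟩

lemma cls_eq {r k k' : ℕ} (h : k % r = k' % r) (h1 : k < k' + r) (h2 : k' < k + r) : k = k' := by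
  rcases le_total k k' with h3 | h3
  · have := Nat.eq_zero_of_dvd_of_lt ((Nat.modEq_iff_dvd' h3).1 h) (by omega)
    omega
  · have := Nat.eq_zero_of_dvd_of_lt ((Nat.modEq_iff_dvd' h3).1 h.symm) (by omega)
    omega

lemma fiber {r : ℕ} {κ : ℕ → ℕ} (hκ : ∀ j, j ≤ κ j ∧ κ j < j + r) {S K : Finset ℕ}
    (h : ∀ j ∈ S, κ j ∈ K) {f : ℕ → ℝ} (hf : ∀ k, 0 ≤ f k) :
    ∑ j ∈ S, f (κ j) ≤ ∑ k ∈ K, r * f k := by
  rw [← sum_fiberwise_of_maps_to h]
  refine sum_le_sum fun k _ => ?_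
  rw [sum_congr rfl fun j hj => by rw [(mem_filter.1 hj).2], sum_const, nsmul_eq_mul]
  refine mul_le_mul_of_nonneg_right ?_ (hf k)
  have : (S.filter fun j => κ j = k).card ≤ (Icc (k + 1 - r) k).card := card_le_card fun j hj => by
    have := hκ j
    rw [(mem_filter.1 hj).2] at this
    exact mem_Icc.2 (by omega)
  rw [Nat.card_Icc] at this
  exact_mod_cast (by omega : (S.filter fun j => κ j = k).card ≤ r)

/-- The sum over a window. -/
def ws (g : ℕ → ℝ) (T E j : ℕ) : ℝ := ∑ i ∈ (Icc (j - E) (j + E)).filter (fun i => i ≤ T), g i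

lemma le_ws {g : ℕ → ℝ} (hg : ∀ k, 0 ≤ g k) {T E j a b : ℕ} (h1 : j ≤ a + E) (h2 : b ≤ j + E)
    (h3 : b ≤ T) : ∑ i ∈ Icc a b, g i ≤ ws g T E j :=
  sum_le_sum_of_subset_of_nonneg (fun i hi => by
    have := mem_Icc.1 hi
    exact mem_filter.2 ⟨mem_Icc.2 (by omega), by omega⟩) fun j _ _ => hg j

lemma card_ws (L : L0) {g : ℕ → ℝ} (hg : ∀ k, 0 ≤ g k) {T E : ℕ} {th v y : ℝ} (hv : 0 < v)
    (h : ∑ k ∈ range (T + 1), g k ≤ th) (hy : (2 * E + 1) * th ≤ y * v) :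
    (((range (T + 1)).filter fun j => v < ws g T E j).card : ℝ) ≤ y := by
  have h1 := L.sum.markov (range (T + 1)) (ws g T E) v fun _ _ => sum_nonneg fun _ _ => hg _
  have h2 := L.sum.nbr (range (T + 1)) id g E T 1 hg fun j =>
    card_le_one.2 fun a ha b hb => (mem_filter.1 ha).2.trans (mem_filter.1 hb).2.symm
  have h3 := mul_le_mul_of_nonneg_left h (by positivity : (0 : ℝ) ≤ 2 * E + 1)
  refine le_of_mul_le_mul_right ?_ hv
  have h4 : ∑ s ∈ range (T + 1), ws g T E s ≤ (1 : ℕ) * (2 * E + 1) * ∑ j ∈ range (T + 1), g j := h2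
  push_cast at h4
  linarith

lemma cut {T : ℕ} {p : ℕ → ℝ} {th dl e NU : ℝ} (hd : 0 < dl) (he : 0 ≤ e) (he' : e ≤ 1 / 10)
    (hth : (2 * th) ^ 2 ≤ 1 / 2) (hN : 3 ≤ NU * (dl / 3) ^ 2) (h1 : ∀ k ≤ T, |p k| ≤ 2 * th)
    (h2 : 2 - e ≤ ∑ k ∈ range (T + 1), p k ^ 2)
    (h3 : ∑ k ∈ (range (T + 1)).filter (fun k => |p k| ≤ 3 * dl), p k ^ 2 ≤ e) :
    ∃ k1 ≤ T, (((range (k1 + 1)).filter fun j => dl / 3 ≤ |p j|).card : ℝ) ≤ NU ∧
      2 - 2 * e ≤ ∑ k ∈ (range (k1 + 1)).filter (fun k => ¬|p k| ≤ 3 * dl), p k ^ 2 := by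
  classical
  have hex : ∃ m, m = T + 1 ∨
      5 / 2 < ∑ k ∈ (range m).filter (fun j => dl / 3 ≤ |p j|), p k ^ 2 := ⟨_, Or.inl rfl⟩
  have a1 := Nat.find_spec hex
  have a2 := Nat.find_min' hex (Or.inl rfl)
  have a3 := fun m => Nat.find_min hex (m := m)
  generalize Nat.find hex = m at a1 a2 a3
  obtain rfl | ⟨k1, rfl⟩ := m.eq_zero_or_eq_succ_pred.imp id fun h => (⟨_, h⟩ : ∃ k, m = k + 1)
  · norm_num at a1
  have a4 := (not_or.1 (a3 k1 (Nat.lt_succ_self _))).2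
  have hk : k1 ≤ T := by omega
  refine ⟨k1, hk, ?_, ?_⟩
  · have b1 : ∑ k ∈ (range (k1 + 1)).filter (fun j => dl / 3 ≤ |p j|), p k ^ 2 ≤ 3 := by
      have := sq_le_sq' (abs_le.1 (h1 k1 hk)).1 (abs_le.1 (h1 k1 hk)).2
      rw [sum_filter] at a4 ⊢
      rw [sum_range_succ]
      split_ifs <;> linarith
    have b2 := card_nsmul_le_sum ((range (k1 + 1)).filter fun j => dl / 3 ≤ |p j|)
      (fun k => p k ^ 2) ((dl / 3) ^ 2) fun k hk => by
        rw [← sq_abs (p k)]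
        exact pow_le_pow_left₀ (by positivity) (mem_filter.1 hk).2 2
    rw [nsmul_eq_mul] at b2
    exact le_of_mul_le_mul_right (by linarith) (by positivity : 0 < (dl / 3) ^ 2)
  · have b1 := sum_filter_add_sum_filter_not (range (k1 + 1)) (fun k => |p k| ≤ 3 * dl)
      fun k => p k ^ 2
    have b2 : ∑ k ∈ (range (k1 + 1)).filter (fun k => |p k| ≤ 3 * dl), p k ^ 2 ≤ e :=
      (sum_le_sum_of_subset_of_nonneg (filter_subset_filter _ (range_mono a2))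
        fun _ _ _ => sq_nonneg _).trans h3
    rcases a1 with a1 | a1
    · rw [← a1] at h2
      linarith
    · have := sum_le_sum_of_subset_of_nonneg (filter_subset (fun j => dl / 3 ≤ |p j|)
        (range (k1 + 1))) (f := fun k => p k ^ 2) fun _ _ _ => sq_nonneg _
      linarith

lemma core (L0 : L0) {T r L o : ℕ} {p g : ℕ → ℝ} {Ty : Finset ℕ} {th dl vs vt e NU nx y1 y2 : ℝ}
    (hd : 0 < dl) (he : 0 ≤ e) (he' : e ≤ 1 / 10) (hth : (2 * th) ^ 2 ≤ 1 / 2)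
    (hN : 3 ≤ NU * (dl / 3) ^ 2) (hs : 0 < vs) (ht : 0 < vt) (n1 : 12 * vs ≤ dl) (n2 : 2 * vt ≤ dl)
    (n3 : NU * (8 * th * vs) ≤ e) (n4 : (2 * r + 1) * th ≤ y1 * vs)
    (n5 : (2 * (r * L + r : ℕ) + 1) * th ≤ y2 * vt)
    (n6 : (r + (r * L + r + 1 : ℕ) + r * (4 * nx) + 2 * y1 + y2) * (2 * th) ^ 2 ≤ e)
    (ho : o < r) (hg : ∀ k, 0 ≤ g k) (hG : ∑ k ∈ range (T + 1), g k ≤ th)
    (hp : ∀ k < T, |p (k + 1) - p k| ≤ 2 * g k) (h1 : ∀ k ≤ T, |p k| ≤ 2 * th)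
    (h2 : 2 - e ≤ ∑ k ∈ range (T + 1), p k ^ 2)
    (h3 : ∑ k ∈ (range (T + 1)).filter (fun k => |p k| ≤ 3 * dl), p k ^ 2 ≤ e)
    (h4 : (((range (T + 1)).filter (fun k => k % r = o ∧ k ∉ Ty)).card : ℝ) ≤ nx) :
    ∃ (k1 : ℕ) (U Gd : Finset ℕ), k1 ≤ T ∧
      (∀ k ∈ U, k % r = o ∧ r ≤ k ∧ k ≤ k1 ∧ k ∈ Ty ∧ k - r ∈ Ty ∧
        ∑ j ∈ Icc (k - r) k, g j ≤ vs ∧ dl / 2 ≤ |p k|) ∧
      (r : ℝ) * U.card ≤ NU ∧
      (((range (k1 + 1)).filter (fun j => dl / 3 ≤ |p j|)).card : ℝ) ≤ NU ∧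
      (∀ k ∈ Gd, k ∈ U ∧ k + r * L ∈ U ∧ ∑ j ∈ Icc k (k + r * L), g j ≤ vt ∧ 2 * dl ≤ |p k|) ∧
      2 - 12 * e ≤ ∑ k ∈ Gd, r * p k ^ 2 := by
  classical
  obtain ⟨k1, hk, c1, c2⟩ := cut hd he he' hth hN h1 h2 h3
  choose κ κ1 κ2 using exists_cls ho
  obtain ⟨U, hU⟩ : ∃ U : Finset ℕ, ∀ k, k ∈ U ↔ k % r = o ∧ r ≤ k ∧ k ≤ k1 ∧ k ∈ Ty ∧ k - r ∈ Ty ∧
      ∑ j ∈ Icc (k - r) k, g j ≤ vs ∧ dl / 2 ≤ |p k| :=
    ⟨(range (k1 + 1)).filter _, fun k => mem_filter.trans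
      (and_iff_right_of_imp fun h => mem_range.2 (Nat.lt_succ_of_le h.2.2.1))⟩
  obtain ⟨Gd, hGd⟩ : ∃ Gd : Finset ℕ, ∀ k, k ∈ Gd ↔ k ∈ U ∧ k + r * L ∈ U ∧
      ∑ j ∈ Icc k (k + r * L), g j ≤ vt ∧ 2 * dl ≤ |p k| := ⟨U.filter _, fun k => mem_filter⟩
  have near : ∀ k j, k ≤ T → j ≤ k → k < j + r → ∑ j ∈ Icc (k - r) k, g j ≤ vs →
      |p k - p j| ≤ 2 * vs := fun k j a1 a2 a3 a4 =>
    (lip hg hp a2 a1 (S := Icc (k - r) k) fun i b1 b2 => mem_Icc.2 (by omega)).trans (by linarith)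
  refine ⟨k1, U, Gd, hk, fun k h => (hU k).1 h, le_trans ?_ c1, c1, fun k h => (hGd k).1 h, ?_⟩
  · have := card_le_card_of_injOn (s := range r ×ˢ U)
      (t := (range (k1 + 1)).filter fun j => dl / 3 ≤ |p j|) (fun x => x.2 - x.1) ?_ ?_
    · rw [card_product, card_range] at this
      exact_mod_cast this
    · intro x hx
      obtain ⟨a1, a2⟩ := mem_product.1 hx
      obtain ⟨-, b2, b3, -, -, b6, b7⟩ := (hU _).1 a2
      have a3 := mem_range.1 a1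
      have := near x.2 (x.2 - x.1) (by omega) (by omega) (by omega) b6
      have a4 := abs_sub_abs_le_abs_sub (p x.2) (p (x.2 - x.1))
      exact mem_filter.2 ⟨mem_range.2 (by dsimp only; omega), by dsimp only; linarith⟩
    · intro x hx x' hx' h
      obtain ⟨a1, a2⟩ := mem_product.1 hx
      obtain ⟨a3, a4⟩ := mem_product.1 hx'
      obtain ⟨b1, b2, -⟩ := (hU _).1 a2
      obtain ⟨b3, b4, -⟩ := (hU _).1 a4
      have a5 := mem_range.1 a1
      have a6 := mem_range.1 a3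
      dsimp only at h
      have := cls_eq (b1.trans b3.symm) (by omega) (by omega)
      exact Prod.ext (by omega) this
  set J := (range (k1 + 1)).filter fun k => ¬|p k| ≤ 3 * dl with hJ
  set X := (range (T + 1)).filter fun k => k % r = o ∧ k ∉ Ty with hX
  set X' := X ∪ X.image (· + r) ∪ X.image (· - r * L) ∪ X.image (· + r - r * L) with hX'
  set Y1 := (range (T + 1)).filter fun j => vs < ws g T r j with hY1
  set Y2 := (range (T + 1)).filter fun j => vt < ws g T (r * L + r) j with hY2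
  have d1 : (Y1.card : ℝ) ≤ y1 := card_ws L0 hg hs hG n4
  have d2 : (Y2.card : ℝ) ≤ y2 := card_ws L0 hg ht hG n5
  have d3 : (X'.card : ℝ) ≤ 4 * nx := by
    have : X'.card ≤ X.card + X.card + X.card + X.card :=
      (card_union_le _ _).trans (add_le_add ((card_union_le _ _).trans (add_le_add
        ((card_union_le _ _).trans (add_le_add le_rfl card_image_le)) card_image_le)) card_image_le)
    have a : (X'.card : ℝ) ≤ X.card + X.card + X.card + X.card := by exact_mod_cast this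
    linarith
  have d4 : ((J.filter fun j => κ j ∈ X').card : ℝ) ≤ r * (4 * nx) := by
    have := fiber κ2 (S := J.filter fun j => κ j ∈ X') (K := X') (fun j hj => (mem_filter.1 hj).2)
      (f := fun _ => 1) fun _ => zero_le_one
    simp only [sum_const, nsmul_eq_mul, mul_one] at this
    nlinarith [(Nat.cast_nonneg r : (0 : ℝ) ≤ r)]
  have d5 : (J.filter fun j => ¬κ j ∈ Gd) ⊆ range r ∪ Icc (k1 - (r * L + r)) k1 ∪
      (J.filter fun j => κ j ∈ X') ∪ Y1 ∪ Y1.image (· - r * L) ∪ Y2 := by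
    intro j hj
    obtain ⟨a1, a2⟩ := mem_filter.1 hj
    obtain ⟨a3, a4⟩ := mem_filter.1 a1
    have a5 := mem_range.1 a3
    obtain ⟨a6, a7⟩ := κ2 j
    have a8 := κ1 j
    by_contra hn
    simp only [mem_union, not_or] at hn
    obtain ⟨⟨⟨⟨⟨b1, b2⟩, b3⟩, b4⟩, b5⟩, b6⟩ := hn
    rw [mem_range] at b1
    rw [mem_Icc] at b2
    have b7 : κ j ∉ X' := fun h => b3 (mem_filter.2 ⟨a1, h⟩)
    generalize κ j = k at a2 a6 a7 a8 b7
    simp only [hX', mem_union, not_or] at b7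
    obtain ⟨⟨⟨e1, e2⟩, e3⟩, e4⟩ := b7
    have f0 : k + r * L ≤ k1 := by omega
    have f1 : ∀ i ≤ T, i % r = o → i ∉ X → i ∈ Ty := fun i i1 i2 i3 => by
      by_contra i4
      exact i3 (mem_filter.2 ⟨mem_range.2 (by omega), i2, i4⟩)
    have f2 : ∀ i, r ≤ i → i % r = o → (i - r) % r = o := fun i i1 i2 => by
      rw [← Nat.add_mod_right, Nat.sub_add_cancel i1, i2]
    have f3 : (k + r * L) % r = o := by rw [Nat.add_mul_mod_self_left, a8]
    have g1 : ∑ i ∈ Icc (k - r) k, g i ≤ vs :=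
      (le_ws hg (T := T) (E := r) (j := j) (by omega) (by omega) (by omega)).trans
        (not_lt.1 fun h => b4 (mem_filter.2 ⟨mem_range.2 (by omega), h⟩))
    have g2 : ∑ i ∈ Icc (k + r * L - r) (k + r * L), g i ≤ vs :=
      (le_ws hg (T := T) (E := r) (j := j + r * L) (by omega) (by omega) (by omega)).trans
        (not_lt.1 fun h => b5 (mem_image.2
          ⟨_, mem_filter.2 ⟨mem_range.2 (by omega), h⟩, by omega⟩))
    have g3 : ∑ i ∈ Icc k (k + r * L), g i ≤ vt :=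
      (le_ws hg (T := T) (E := r * L + r) (j := j) (by omega) (by omega) (by omega)).trans
        (not_lt.1 fun h => b6 (mem_filter.2 ⟨mem_range.2 (by omega), h⟩))
    have g4 := near k j (by omega) a6 a7 g1
    have g5 := abs_sub_abs_le_abs_sub (p j) (p k)
    rw [abs_sub_comm] at g4
    have g6 := lip hg hp (a := k) (b := k + r * L) (by omega) (by omega)
      (S := Icc k (k + r * L)) fun i i1 i2 => mem_Icc.2 (by omega)
    have g7 := abs_sub_abs_le_abs_sub (p k) (p (k + r * L))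
    rw [abs_sub_comm] at g6
    rw [not_le] at a4
    refine a2 ((hGd k).2 ⟨(hU _).2 ⟨a8, by omega, by omega, f1 k (by omega) a8 e1,
      f1 _ (by omega) (f2 k (by omega) a8) fun h => e2 (mem_image.2 ⟨_, h, by omega⟩), g1,
      by linarith⟩, (hU _).2 ⟨f3, by omega, f0,
      f1 _ (by omega) f3 fun h => e3 (mem_image.2 ⟨_, h, by omega⟩),
      f1 _ (by omega) (f2 _ (by omega) f3) fun h => e4 (mem_image.2 ⟨_, h, by omega⟩), g2,
      by linarith⟩, g3, by linarith⟩)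
  have d6 : ((J.filter fun j => ¬κ j ∈ Gd).card : ℝ) ≤
      r + (r * L + r + 1 : ℕ) + r * (4 * nx) + 2 * y1 + y2 := by
    have a1 : (Icc (k1 - (r * L + r)) k1).card ≤ r * L + r + 1 := by rw [Nat.card_Icc]; omega
    have : (J.filter fun j => ¬κ j ∈ Gd).card ≤ r + (r * L + r + 1) +
        (J.filter fun j => κ j ∈ X').card + Y1.card + Y1.card + Y2.card :=
      (card_le_card d5).trans ((card_union_le _ _).trans (add_le_add ((card_union_le _ _).trans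
        (add_le_add ((card_union_le _ _).trans (add_le_add ((card_union_le _ _).trans
          (add_le_add ((card_union_le _ _).trans (add_le_add (card_range r).le a1)) le_rfl))
          le_rfl)) card_image_le)) le_rfl))
    have a2 : ((J.filter fun j => ¬κ j ∈ Gd).card : ℝ) ≤ r + (r * L + r + 1 : ℕ) +
        (J.filter fun j => κ j ∈ X').card + Y1.card + Y1.card + Y2.card := by exact_mod_cast this
    linarith
  have d7 := sum_le_card_nsmul (J.filter fun j => ¬κ j ∈ Gd) (fun j => p j ^ 2) ((2 * th) ^ 2)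
    fun j hj => by
      have := h1 j (by have := mem_range.1 (mem_filter.1 (mem_filter.1 hj).1).1; omega)
      exact sq_le_sq' (abs_le.1 this).1 (abs_le.1 this).2
  have d8 := fiber κ2 (S := J.filter fun j => κ j ∈ Gd) (K := Gd) (fun j hj => (mem_filter.1 hj).2)
    (f := fun k => p k ^ 2) fun _ => sq_nonneg _
  have hth0 : 0 ≤ th := by linarith [h1 0 T.zero_le, abs_nonneg (p 0)]
  have d9 := sum_le_card_nsmul (J.filter fun j => κ j ∈ Gd) (fun j => p j ^ 2 - p (κ j) ^ 2)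
    (8 * th * vs) fun j hj => by
      obtain ⟨-, -, a1, -, -, a2, -⟩ := (hU _).1 ((hGd _).1 (mem_filter.1 hj).2).1
      obtain ⟨a6, a7⟩ := κ2 j
      have a3 := near _ j (by omega) a6 a7 a2
      have a4 := (abs_add_le (p (κ j)) (p j)).trans
        (add_le_add (h1 _ (by omega)) (h1 j (by omega)))
      have a5 := mul_le_mul a3 a4 (abs_nonneg _) (by positivity)
      rw [← abs_mul] at a5
      nlinarith [(abs_le.1 a5).1]
  have d10 : ((J.filter fun j => κ j ∈ Gd).card : ℝ) ≤ NU := by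
    refine le_trans ?_ c1
    exact_mod_cast card_le_card fun j hj => by
      obtain ⟨a1, a2⟩ := mem_filter.1 (mem_filter.1 hj).1
      exact mem_filter.2 ⟨a1, by linarith [not_le.1 a2]⟩
  rw [nsmul_eq_mul] at d7 d9
  rw [sum_sub_distrib] at d9
  have d11 := sum_filter_add_sum_filter_not J (fun j => κ j ∈ Gd) fun j => p j ^ 2
  have d12 := mul_le_mul_of_nonneg_right d6 (sq_nonneg (2 * th))
  have d13 := mul_le_mul_of_nonneg_right d10 (by positivity : 0 ≤ 8 * th * vs)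
  linarith

end Chain

theorem countS (L : L0) : CountS := by
  intro P p g o Ty
  have e1 : (P.r * P.L : ℕ) = P.ell := rfl
  have hr := P.r_big
  have hl := P.r_le_ell
  have hl' := P.ell_le
  have ht := P.mn_pos 3 10
  have s1 : P.th1 ^ 2 = P.mn 6 20 := P.mn_sq 3 10
  have s2 := P.mn_pos 6 20
  refine Chain.core L (y1 := 3 * P.mn 33 (-6)) (y2 := 5 * P.mn (-25) (-11)) (P.mn_pos _ _)
    (P.mn_nonneg _ _) ?_ ?_ ?_ (P.mn_pos _ _) (P.mn_pos _ _) ?_ ?_ ?_ ?_ ?_ ?_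
  · linarith [P.mn_small (a := -1) (j := 0) (by norm_num) (by norm_num)]
  · rw [mul_pow, s1]
    linarith [P.mn_small (a := 6) (j := 20) (by norm_num) (by norm_num)]
  · have h1 : P.dl ^ 2 = P.mn (-12) 20 := P.mn_sq (-6) 10
    have h2 : P.mn 12 (-20) * P.mn (-12) 20 = P.mn 0 0 := P.mn_mul' rfl rfl
    rw [P.mn_zero] at h2
    rw [div_pow, h1]
    linarith
  · linarith [P.mn_le (a := 0) (j := 16) (b := -6) (k := 10) (by norm_num) (by norm_num),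
      P.mn_pos 0 16]
  · linarith [P.mn_le (a := 0) (j := 11) (b := -6) (k := 10) (by norm_num) (by norm_num),
      P.mn_pos 0 11]
  · have h1 : P.mn 3 10 * P.mn 0 16 = P.mn 3 26 := P.mn_mul' rfl rfl
    have h2 : P.mn 12 (-20) * P.mn 3 26 = P.mn 15 6 := P.mn_mul' rfl rfl
    have h3 : P.NU * (8 * P.th1 * P.vs) = 240 * P.mn 15 6 := by rw [← h2, ← h1]; ring
    linarith [P.mn_le (a := 15) (j := 6) (b := -1) (k := 0) (by norm_num) (by norm_num),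
      P.mn_pos 15 6]
  · have h1 : P.mn 33 (-6) * P.mn 0 16 = P.mn 33 10 := P.mn_mul' rfl rfl
    have h2 : P.mn 30 0 * P.mn 3 10 = P.mn 33 10 := P.mn_mul' rfl rfl
    rw [← P.r_eq] at h2
    have h3 := mul_le_mul_of_nonneg_right (by linarith : 2 * (P.r : ℝ) + 1 ≤ 3 * P.r) ht.le
    linarith
  · have h1 : P.mn (-25) (-11) * P.mn 0 11 = P.mn (-25) 0 := P.mn_mul' rfl rfl
    have h2 : P.mn (-28) (-10) * P.mn 3 10 = P.mn (-25) 0 := P.mn_mul' rfl rfl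
    rw [e1]
    push_cast
    have h3 := mul_le_mul_of_nonneg_right
      (by linarith : 2 * ((P.ell : ℝ) + P.r) + 1 ≤ 5 * P.mn (-28) (-10)) ht.le
    linarith
  · have h1 : P.mn (-28) (-10) * P.mn 6 20 = P.mn (-22) 10 := P.mn_mul' rfl rfl
    have h2 : P.mn 30 0 * P.mn (-38) (-20) = P.mn (-8) (-20) := P.mn_mul' rfl rfl
    have h3 : P.mn (-8) (-20) * P.mn 6 20 = P.mn (-2) 0 := P.mn_mul' rfl rfl
    have h4 : P.mn 33 (-6) * P.mn 6 20 = P.mn 39 14 := P.mn_mul' rfl rfl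
    have h5 : P.mn (-25) (-11) * P.mn 6 20 = P.mn (-19) 9 := P.mn_mul' rfl rfl
    rw [← P.r_eq] at h2
    rw [e1, mul_pow, s1]
    push_cast
    have h6 := mul_le_mul_of_nonneg_right
      (by linarith : (P.r : ℝ) + (P.ell + P.r + 1) ≤ 4 * P.mn (-28) (-10)) s2.le
    have h7 : (P.r : ℝ) * (4 * (100 * P.mn (-38) (-20))) = 400 * P.mn (-8) (-20) := by
      rw [← h2]; ring
    rw [h7]
    linarith [P.mn_le (a := -22) (j := 10) (b := -1) (k := 0) (by norm_num) (by norm_num),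
      P.mn_le (a := -2) (j := 0) (b := -1) (k := 0) (by norm_num) (by norm_num),
      P.mn_le (a := 39) (j := 14) (b := -1) (k := 0) (by norm_num) (by norm_num),
      P.mn_le (a := -19) (j := 9) (b := -1) (k := 0) (by norm_num) (by norm_num),
      P.mn_pos (-1) 0]

end Pool.Agent.MP_c59ecb_co.sh

end MrgPart0

-- ======== part 1: formerly Pool.Agent.MP_c59ecb_co.sh.Loc
section MrgPart1

/-! Row LOC: contacts of almost parallel squares. -/

set_option autoImplicit false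

namespace Pool.Agent.MP_c59ecb_co.sh

namespace Loc

variable {κ : Type} {U W : κ → ℝ} {μ ϱ : ℝ}

theorem swap (h0 : 0 ≤ μ) (h : Lm U W μ ϱ) : Lm W U μ ϱ := by
  refine ⟨fun a b ha hb => ?_, fun q q' e h1 h2 h3 h4 h5 => ?_⟩
  · obtain ⟨q, h1, h2⟩ := h.cov b a hb ha
    exact ⟨q, h2, h1⟩
  · rcases le_total |U q - U q'| (1 - 2 * μ) with c | c
    · rw [mul_comm]
      exact h.sep q q' e h2 h1 h4 h3 c
    · exact (mul_nonpos_of_nonneg_of_nonpos (by linarith) (by linarith)).trans h0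

/-- the separation property with upper bounds for the offsets -/
theorem sep (h : Lm U W μ ϱ) {q q' : κ} (e : q ≠ q') (h1 : |U q| ≤ ϱ) (h2 : |W q| ≤ ϱ)
    (h3 : |U q'| ≤ ϱ) (h4 : |W q'| ≤ ϱ) {x y : ℝ} (hx : 0 ≤ x) (hy : 0 ≤ y)
    (a : |U q - U q'| ≤ 1 - 2 * μ - x) (b : |W q - W q'| ≤ 1 - 2 * μ - y) : x * y ≤ μ :=
  (mul_le_mul (by linarith) (by linarith) hy (by linarith)).trans
    (h.sep q q' e h1 h2 h3 h4 (by linarith))

theorem same (h1 : μ ≤ 1 / 1000) (h : Lm U W μ ϱ) {q q' : κ} (a1 : |U q| ≤ ϱ) (a2 : |W q| ≤ ϱ)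
    (a3 : |U q'| ≤ ϱ) (a4 : |W q'| ≤ ϱ) (a : |U q - U q'| ≤ 4 / 5)
    (b : |W q - W q'| ≤ 91 / 100) : q = q' := by
  by_contra e
  have := sep h e a1 a2 a3 a4 (x := 1 / 10) (y := 1 / 20) (by norm_num) (by norm_num)
    (by linarith) (by linarith)
  linarith

theorem hc {A B : κ} (h0 : 0 ≤ μ) (h1 : μ ≤ 1 / 1000) (h : Lm U W μ ϱ) (hA : Ins U W ϱ A)
    (hB : Ins U W ϱ B) (a : |W B - W A| ≤ 4 / 5) (b : 1 / 5 ≤ U B - U A)
    (c : U B - U A ≤ 8 / 5) : |U B - U A - 1| ≤ 10 * μ := by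
  obtain ⟨A1, A2⟩ := hA
  obtain ⟨B1, B2⟩ := hB
  have e : B ≠ A := fun e => by
    rw [e, sub_self] at b
    linarith
  refine abs_le.2 ⟨not_lt.1 fun d => ?_, not_lt.1 fun d => ?_⟩
  · have := sep h e (by linarith) (by linarith) (by linarith) (by linarith)
      (x := 1 - 2 * μ - (U B - U A)) (y := 1 / 8) (by linarith) (by norm_num)
      (by rw [abs_of_nonneg (by linarith)]; linarith) (by linarith)
    linarith
  · rw [abs_le] at A1 A2 B1 B2 a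
    obtain ⟨C, c1, c2⟩ := h.cov ((U A + U B) / 2) ((W A + W B) / 2)
      (abs_le.2 ⟨by linarith, by linarith⟩) (abs_le.2 ⟨by linarith, by linarith⟩)
    rw [abs_le] at c1 c2
    have k1 : |U C| ≤ ϱ := abs_le.2 ⟨by linarith, by linarith⟩
    have k2 : |W C| ≤ ϱ := abs_le.2 ⟨by linarith, by linarith⟩
    rcases le_total (U C) ((U A + U B) / 2) with s | s
    · have := same h1 h k1 k2 (q' := A) (abs_le.2 ⟨by linarith, by linarith⟩)
        (abs_le.2 ⟨by linarith, by linarith⟩) (abs_le.2 ⟨by linarith, by linarith⟩)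
        (abs_le.2 ⟨by linarith, by linarith⟩)
      rw [this] at c1
      linarith
    · have := same h1 h k1 k2 (q' := B) (abs_le.2 ⟨by linarith, by linarith⟩)
        (abs_le.2 ⟨by linarith, by linarith⟩) (abs_le.2 ⟨by linarith, by linarith⟩)
        (abs_le.2 ⟨by linarith, by linarith⟩)
      rw [this] at c1
      linarith

/-- four squares around a hole -/
theorem hole {A A' B B' : κ} (h0 : 0 ≤ μ) (h1 : μ ≤ 1 / 1000) (h : Lm U W μ ϱ)
    (hA : Ins U W ϱ A) (hA' : Ins U W ϱ A') (hB : Ins U W ϱ B) (hB' : Ins U W ϱ B')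
    (a : -(11 / 20) ≤ U A' - U A) (b : W B - W A ≤ 11 / 20) (e1 : |W A' - W A - 1| ≤ 10 * μ)
    (e2 : |W B' - W B - 1| ≤ 10 * μ) (e3 : |U B - U A - 1| ≤ 10 * μ)
    (e4 : |U B' - U A' - 1| ≤ 10 * μ) (c : 30 * μ < W B - W A) : -(30 * μ) ≤ U A' - U A := by
  refine not_lt.1 fun d => ?_
  have i : ∀ q, Ins U W ϱ q → |U q| ≤ ϱ ∧ |W q| ≤ ϱ := fun q hq =>
    ⟨by linarith [hq.1], by linarith [hq.2]⟩
  obtain ⟨A1, A2⟩ := id hA
  rw [abs_le] at A1 A2 e1 e2 e3 e4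
  obtain ⟨C, c1, c2⟩ := h.cov ((U A + U A' + 1) / 2) ((W A + W B + 1) / 2)
    (abs_le.2 ⟨by linarith, by linarith⟩) (abs_le.2 ⟨by linarith, by linarith⟩)
  rw [abs_le] at c1 c2
  have k1 : |U C| ≤ ϱ := abs_le.2 ⟨by linarith, by linarith⟩
  have k2 : |W C| ≤ ϱ := abs_le.2 ⟨by linarith, by linarith⟩
  rcases le_total (U C - U A) (6 / 25) with s | s
  · rcases le_total (W C - W A) (4 / 5) with t | t
    · have := same h1 h k1 k2 (i A hA).1 (i A hA).2 (abs_le.2 ⟨by linarith, by linarith⟩)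
        (abs_le.2 ⟨by linarith, by linarith⟩)
      rw [this] at c2
      linarith
    · have := same h1 h k1 k2 (i A' hA').1 (i A' hA').2 (abs_le.2 ⟨by linarith, by linarith⟩)
        (abs_le.2 ⟨by linarith, by linarith⟩)
      rw [this] at c1
      linarith
  · rcases le_total (W C - W B) (4 / 5) with t | t
    · have := same h1 h k1 k2 (i B hB).1 (i B hB).2 (abs_le.2 ⟨by linarith, by linarith⟩)
        (abs_le.2 ⟨by linarith, by linarith⟩)
      rw [this] at c1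
      linarith
    · have := same h1 h k1 k2 (i B' hB').1 (i B' hB').2 (abs_le.2 ⟨by linarith, by linarith⟩)
        (abs_le.2 ⟨by linarith, by linarith⟩)
      rw [this] at c2
      linarith

/-- two diagonal squares -/
theorem diag {P Q : κ} (h0 : 0 ≤ μ) (h1 : μ ≤ 1 / 1000) (h : Lm U W μ ϱ) (hP : Ins U W ϱ P)
    (hQ : Ins U W ϱ Q) {u b : ℝ} (u0 : 0 ≤ u) (u1 : u ≤ 1 / 100) (b0 : 0 ≤ b) (b1 : b ≤ 11 / 20)
    (a : |U Q - U P - (1 - u)| ≤ 10 * μ) (c : |W Q - W P| ≤ 1 - b + 10 * μ) :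
    u * b ≤ 30 * μ := by
  rw [abs_le] at a
  rcases le_total u (12 * μ) with s | s
  · nlinarith
  rcases le_total b (12 * μ) with t | t
  · nlinarith
  have e : Q ≠ P := fun e => by
    rw [e, sub_self] at a
    linarith
  have := sep h e (by linarith [hQ.1]) (by linarith [hQ.2]) (by linarith [hP.1])
    (by linarith [hP.2]) (x := u - 12 * μ) (y := b - 12 * μ) (by linarith) (by linarith)
    (abs_le.2 ⟨by linarith, by linarith⟩) (by linarith)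
  nlinarith

end Loc

theorem locS : LocS where
  negU κ U W μ ϱ h := by
    refine ⟨fun a b ha hb => ?_, fun q q' e h1 h2 h3 h4 h5 => ?_⟩
    · obtain ⟨q, h1, h2⟩ := h.cov (-a) b (by rwa [abs_neg]) hb
      exact ⟨q, by rwa [← abs_neg, neg_sub, sub_eq_neg_add, ← sub_eq_add_neg], h2⟩
    · rw [abs_neg] at h1 h3
      rw [neg_sub_neg, abs_sub_comm] at h5 ⊢
      exact h.sep q q' e h1 h2 h3 h4 h5
  negW κ U W μ ϱ h := by
    refine ⟨fun a b ha hb => ?_, fun q q' e h1 h2 h3 h4 h5 => ?_⟩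
    · obtain ⟨q, h1, h2⟩ := h.cov a (-b) ha (by rwa [abs_neg])
      exact ⟨q, h1, by rwa [← abs_neg, neg_sub, sub_eq_neg_add, ← sub_eq_add_neg]⟩
    · rw [abs_neg] at h2 h4
      rw [neg_sub_neg, abs_sub_comm (W q')]
      exact h.sep q q' e h1 h2 h3 h4 h5
  swap κ U W μ ϱ h0 h := Loc.swap h0 h
  hc κ U W μ ϱ A B h0 h1 h hA hB a b c := Loc.hc h0 h1 h hA hB a b c
  vc κ U W μ ϱ A B h0 h1 h hA hB a b c :=
    Loc.hc h0 h1 (Loc.swap h0 h) ⟨hA.2, hA.1⟩ ⟨hB.2, hB.1⟩ a b c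
  same κ U W μ ϱ A B h0 h1 h hA hB a b :=
    (Loc.same h1 h (by linarith [hB.1]) (by linarith [hB.2]) (by linarith [hA.1])
      (by linarith [hA.2]) a (by linarith)).symm
  corner κ U W μ ϱ A A' B B' h0 h1 h hA hA' hB hB' a b e1 e2 e3 e4 := by
    obtain ⟨a1, a2⟩ := abs_le.1 a
    obtain ⟨b1, b2⟩ := abs_le.1 b
    have k1 := Loc.hole h0 h1 h hA hA' hB hB' (by linarith) b2 e1 e2 e3 e4
    have k2 := Loc.hole h0 h1 (Loc.swap h0 h) (A := A) (A' := B) (B := A') (B' := B')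
      ⟨hA.2, hA.1⟩ ⟨hB.2, hB.1⟩ ⟨hA'.2, hA'.1⟩ ⟨hB'.2, hB'.1⟩ b1 (by linarith) e3 e4 e1 e2
    refine ⟨?_, k1, fun c => not_lt.1 fun d => by linarith [k2 d]⟩
    rw [abs_le] at e1 e2 e3 e4
    rcases le_total 0 (U A' - U A) with s | s <;> rcases le_total 0 (W B - W A) with t | t
    · rw [abs_of_nonneg (mul_nonneg s t)]
      exact Loc.diag h0 h1 h hA' hB s a2 t b2 (abs_le.2 ⟨by linarith, by linarith⟩)
        (abs_le.2 ⟨by linarith, by linarith⟩)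
    · rw [abs_of_nonpos (mul_nonpos_of_nonneg_of_nonpos s t)]
      rcases le_or_gt (U A' - U A) (30 * μ) with c | c
      · nlinarith
      · nlinarith [k2 c]
    · rw [abs_of_nonpos (mul_nonpos_of_nonpos_of_nonneg s t)]
      rcases le_or_gt (W B - W A) (30 * μ) with c | c
      · nlinarith
      · nlinarith [k1 c]
    · rw [abs_of_nonneg (mul_nonneg_of_nonpos_of_nonpos s t), ← neg_mul_neg]
      exact Loc.diag h0 h1 h hA hB' (by linarith) (by linarith) (by linarith) (by linarith)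
        (abs_le.2 ⟨by linarith, by linarith⟩) (abs_le.2 ⟨by linarith, by linarith⟩)

end Pool.Agent.MP_c59ecb_co.sh

end MrgPart1

-- ======== part 2: formerly Pool.Agent.MP_c59ecb_co.sh.Path
section MrgPart2

/-! Rays of the rotated configuration as vertical paths. -/

set_option autoImplicit false

namespace Pool.Agent.MP_c59ecb_co.sh

open MeasureTheory Complex Pool.Agent.MP_c59ecb_co.h76

variable {ι : Type} [Fintype ι] [DecidableEq ι] {ω : ι → ℂ}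

namespace Path

omit [Fintype ι] [DecidableEq ι] in
lemma step_one (hω : Nm ω) {c : ι → ℂ} {i j : ι} {v v' γ τ : ℝ} (h : Step c ω i v j v' γ)
    (hj : ‖ω j - 1‖ ≤ τ) : ‖ex c ω j v' - ex c ω i v - 1‖ ≤ τ + γ := by
  have e : ex c ω j v' - ex c ω i v - 1 = (ω j - 1) + (ex c ω j v' - ex c ω i v - ω j) := by ring
  rw [e]
  exact (norm_add_le _ _).trans (add_le_add hj (h.norm hω))

lemma wstep (hω : Nm ω) {c : ι → ℂ} {R w τ G : ℝ} {T : ℕ} {ρ : Ry ι}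
    (h : Wray c ω R w τ T G ρ) : ∀ k < T, ‖ρ.P c ω (k + 1) - ρ.P c ω k - 1‖ ≤ τ + G :=
  fun k hk => (step_one hω (h.step k hk) (h.tilt _ hk)).trans
    (add_le_add le_rfl ((min_le_left _ _).trans (h.le hk.le)))

/-- a walk to the right, in coordinates -/
lemma hor {z : ℕ → ℂ} {η : ℝ} {T : ℕ} (h : ∀ k < T, ‖z (k + 1) - z k - 1‖ ≤ η) {a b : ℕ}
    (ha : a ≤ T) (hb : b ≤ T) :
    |(z b).re - (z a).re - ((b : ℝ) - a)| ≤ η * |(b : ℝ) - a| ∧
      |(z b).im - (z a).im| ≤ η * |(b : ℝ) - a| := by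
  have h1 := PthA.walk' h ha hb
  have h2 := (abs_re_le_norm _).trans h1
  have h3 := (abs_im_le_norm _).trans h1
  generalize (b : ℝ) - a = k at h2 h3 ⊢
  have e1 : (z b - z a - (k : ℂ) * 1).re = (z b).re - (z a).re - k := by simp
  have e2 : (z b - z a - (k : ℂ) * 1).im = (z b).im - (z a).im := by simp
  rw [e1] at h2
  rw [e2] at h3
  exact ⟨h2, h3⟩

lemma pth (hω : Nm ω) {d : ι → ℂ} {R w τ G : ℝ} {T : ℕ} {ρ : Ry ι}
    (h : Wray (rt I d) ω R w τ T G ρ) : Pth (τ + G) T (ρ.Q d ω) := fun s hs => by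
  have e : ρ.Q d ω (s + 1) - ρ.Q d ω s + I =
      -I * (ρ.P (rt I d) ω (s + 1) - ρ.P (rt I d) ω s - 1) := by
    simp only [Ry.Q]
    ring
  rw [e, norm_mul, norm_neg, norm_I, one_mul]
  exact wstep hω h s hs

lemma cen (L : L1 ω) {d : ι → ℂ} {R w τ G : ℝ} {T s : ℕ} {ρ : Ry ι}
    (h : Wray (rt I d) ω R w τ T G ρ) (hs : s ≤ T) :
    |(d (ρ.J s) - ρ.Q d ω s).re + ρ.V s| ≤ τ ∧ |(d (ρ.J s) - ρ.Q d ω s).im - 1 / 2| ≤ τ := by
  obtain ⟨h1, h2, -⟩ := L.w.cen (rt I d) (ρ.J s) (ρ.V s) τ (h.tilt s hs) (h.v s hs)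
  have e : d (ρ.J s) - ρ.Q d ω s = -I * (rt I d (ρ.J s) - ex (rt I d) ω (ρ.J s) (ρ.V s)) := by
    simp only [Ry.Q, Ry.P, rt]
    linear_combination (d (ρ.J s)) * I_mul_I
  rw [e]
  generalize rt I d (ρ.J s) - ex (rt I d) ω (ρ.J s) (ρ.V s) = z at h1 h2 ⊢
  have e1 : (-I * z).re = z.im := by simp
  have e2 : (-I * z).im = -z.re := by simp
  rw [e1, e2, ← abs_neg (-z.re - 1 / 2)]
  exact ⟨h2, by convert h1 using 2; ring⟩

lemma start (L : L1 ω) {d : ι → ℂ} {R w τ G v : ℝ} {T s : ℕ} {ρ : Ry ι}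
    (h : Wray (rt I d) ω R w τ T G ρ) (hs : s ≤ T) (hv : |v| ≤ 1 / 8) :
    |(ex d ω (ρ.J s) v - ρ.Q d ω s).re - (1 / 2 - ρ.V s)| ≤ 2 * τ ∧
      |(ex d ω (ρ.J s) v - ρ.Q d ω s).im - (1 / 2 + v)| ≤ 2 * τ := by
  obtain ⟨h1, h2⟩ := cen L h hs
  obtain ⟨h3, h4, -⟩ := L.w.cen d (ρ.J s) v τ (h.tilt s hs) (hv.trans (by norm_num))
  simp only [sub_re, sub_im] at h1 h2 h3 h4 ⊢
  rw [abs_le] at h1 h2 h3 h4 ⊢
  rw [abs_le]
  exact ⟨⟨by linarith [h1.1, h3.2], by linarith [h1.2, h3.1]⟩,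
    ⟨by linarith [h2.1, h4.2], by linarith [h2.2, h4.1]⟩⟩

/-- the algebra of one step seen as a piece of a column -/
lemma alg {u u' ζ Δ : ℂ} {V V' e g τ p : ℝ} (hu : ‖u‖ = 1) (hζ : ‖ζ‖ = 1) (h1 : ‖u - 1‖ ≤ τ)
    (hτ : τ ≤ 1 / 100) (h2 : ‖u' - u‖ ≤ g) (he : |e| ≤ g) (hV : |V| ≤ 1 / 2) (hV' : |V'| ≤ 1 / 2)
    (hp : |p| ≤ 1 / 50) (hp' : |p - tl u| ≤ g) (hre : 9999 / 10000 ≤ u.re)
    (hΔ : Δ = u * ⟨1 / 2, V⟩ + u' - e * ζ - u' * ⟨1 / 2, V'⟩) :
    |p * Δ.re - Δ.im| ≤ 2 * |V' - V| + 5 * g ∧ |Δ.re - 1| ≤ 2 * τ + 2 * g := by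
  obtain ⟨w, hw⟩ : ∃ w, w = (u' - u) * ⟨1 / 2, -V'⟩ - e * ζ := ⟨_, rfl⟩
  have hw1 : ‖w‖ ≤ 2 * g := by
    have h3 : ‖(⟨1 / 2, -V'⟩ : ℂ)‖ ≤ 1 :=
      (norm_le_abs_re_add_abs_im _).trans (by
        simp only [abs_neg]
        rw [abs_of_pos (by norm_num)]
        linarith)
    have h4 : ‖(u' - u) * ⟨1 / 2, -V'⟩‖ ≤ g := by
      rw [norm_mul]
      exact (mul_le_of_le_one_right (norm_nonneg _) h3).trans h2
    have h5 : ‖(e : ℂ) * ζ‖ ≤ g := by rw [norm_mul, hζ, mul_one, norm_real]; exact he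
    rw [hw]
    linarith [norm_sub_le ((u' - u) * ⟨1 / 2, -V'⟩) (e * ζ)]
  have e1 : Δ.re = u.re - (V - V') * u.im + w.re := by
    rw [hΔ, hw]
    simp only [add_re, sub_re, mul_re, sub_im]
    ring
  have e2 : Δ.im = u.im + (V - V') * u.re + w.im := by
    rw [hΔ, hw]
    simp only [add_im, sub_re, mul_im, sub_im]
    ring
  have h6 := (abs_re_le_norm w).trans hw1
  have h7 := (abs_im_le_norm w).trans hw1
  have h8 : |u.re - 1| ≤ τ := by simpa using (abs_re_le_norm _).trans h1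
  have h9 : |u.im| ≤ τ := by simpa using (abs_im_le_norm _).trans h1
  have h10 : |u.re| ≤ 1 := hu ▸ abs_re_le_norm u
  have h11 : |V - V'| ≤ 1 := (abs_sub _ _).trans (by linarith)
  have hg : 0 ≤ g := (abs_nonneg _).trans he
  have e3 : u.im = tl u * u.re := by
    rw [tl, div_mul_cancel₀ _ (by linarith : (0 : ℝ) < u.re).ne']
  constructor
  · have e4 : p * Δ.re - Δ.im =
        (p - tl u) * u.re - (V - V') * (u.re + p * u.im) + (p * w.re - w.im) := by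
      rw [e1, e2]
      linear_combination (-1 : ℝ) * e3
    have h12 : |(p - tl u) * u.re| ≤ g := by
      rw [abs_mul]
      exact (mul_le_of_le_one_right (abs_nonneg _) h10).trans hp'
    have h13 : |p * u.im| ≤ 1 := by
      rw [abs_mul]
      exact mul_le_one₀ (by linarith) (abs_nonneg _) (by linarith)
    have h14 : |(V - V') * (u.re + p * u.im)| ≤ 2 * |V' - V| := by
      rw [abs_mul, abs_sub_comm, mul_comm]
      exact mul_le_mul_of_nonneg_right ((abs_add_le _ _).trans (by linarith)) (abs_nonneg _)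
    have h15 : |p * w.re| ≤ 2 * g := by
      rw [abs_mul]
      exact (mul_le_of_le_one_left (abs_nonneg _) (by linarith)).trans h6
    rw [e4]
    rw [abs_le] at h12 h14 h15 h7 ⊢
    constructor <;> linarith [h12.1, h12.2, h14.1, h14.2, h15.1, h15.2, h7.1, h7.2]
  · have h12 : |(V - V') * u.im| ≤ τ := by
      rw [abs_mul]
      exact (mul_le_of_le_one_left (abs_nonneg _) h11).trans h9
    rw [e1]
    rw [abs_le] at h12 h8 h6 ⊢
    constructor <;> linarith [h12.1, h12.2, h8.1, h8.2, h6.1, h6.2]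

lemma wstep_col (hω : Nm ω) (L : L1 ω) {d : ι → ℂ} {R w τ G : ℝ} {T k : ℕ} {ρ : Ry ι}
    (h : Wray (rt I d) ω R w τ T G ρ) (hτ : τ ≤ 1 / 100) (hk : k < T) :
    |slip d ω (ρ.J (k + 1)) (ρ.J k)| ≤ 2 * |ρ.V (k + 1) - ρ.V k| + 5 * ρ.g k ∧
      |(d (ρ.J k)).im - (d (ρ.J (k + 1))).im - 1| ≤ 2 * τ + 2 * ρ.g k := by
  obtain ⟨h1, e, ζ, h2, h3, h4⟩ := (h.step k hk).mono (min_le_left _ _)
  have h5 := h.tilt k hk.le
  have h6 := h.tilt (k + 1) hk
  have hV := h.v k hk.le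
  have hV' := h.v (k + 1) hk
  have hg := h.g0 k
  generalize ρ.J k = i at *
  generalize ρ.J (k + 1) = j at *
  have h7 := L.tilt.one (ω i) (hω.1 i) (h5.trans hτ)
  have h8 := L.tilt.one (ω j) (hω.1 j) (h6.trans hτ)
  have h9 := (L.tilt.lip (ω j) (ω i) (hω.1 j) (hω.1 i) (h6.trans hτ) (h5.trans hτ)).1
  have h10 := alg (u := ω i) (u' := ω j) (ζ := ζ) (Δ := I * d j - I * d i) (V := ρ.V k)
    (V' := ρ.V (k + 1)) (e := e) (g := ρ.g k) (τ := τ) (p := (tl (ω j) + tl (ω i)) / 2) (hω.1 i)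
    (by rcases h3 with rfl | rfl <;> exact hω.1 _) h5 hτ h1 h2 hV hV'
    (by
      have h11 := abs_le.1 (h7.1.trans (mul_le_mul_of_nonneg_left (h5.trans hτ) (by norm_num)))
      have h12 := abs_le.1 (h8.1.trans (mul_le_mul_of_nonneg_left (h6.trans hτ) (by norm_num)))
      exact abs_le.2 ⟨by linarith [h11.1, h12.1], by linarith [h11.2, h12.2]⟩)
    (by
      have h11 := abs_le.1 (h9.trans (mul_le_mul_of_nonneg_left h1 (by norm_num)))
      exact abs_le.2 ⟨by linarith [h11.1], by linarith [h11.2]⟩)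
    h7.2.2.2.2.2.2
    (by
      simp only [ex, rt] at h4
      linear_combination h4)
  have e1 : (I * d j - I * d i).re = (d i).im - (d j).im := by simp; ring
  have e2 : (I * d j - I * d i).im = (d j).re - (d i).re := by simp
  rw [e1, e2] at h10
  refine ⟨?_, h10.2⟩
  convert h10.1 using 2
  unfold slip
  ring

lemma wincol (hω : Nm ω) (L : L1 ω) (d : ι → ℂ) (R w τ G Λ γ η s0 : ℝ) (T s m : ℕ) (ρ : Ry ι)
    (h : Wray (rt I d) ω R w τ T G ρ) (hτ : τ ≤ 1 / 100) (hms : m ≤ s) (hs : s ≤ T) (hΛ : 0 ≤ Λ)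
    (hstr : ∀ k, s - m ≤ k → k < s → |ρ.V (k + 1) - ρ.V k| ≤ Λ * ρ.g k)
    (hγ : ∑ k ∈ Finset.Ico (s - m) s, ρ.g k ≤ γ) (hs0 : (2 * Λ + 5) * γ ≤ s0)
    (hη : 2 * τ + 3 * G ≤ η) :
    Col d ω η s0 m (fun j => ρ.J (s - j)) ∧
      SA d ω m (fun j => ρ.J (s - j)) ≤ (2 * Λ + 5) * γ := by
  have hG := h.G0
  have hτ0 := h.τ0
  have key : ∀ j < m, |slip d ω (ρ.J (s - j)) (ρ.J (s - (j + 1)))| ≤
      (2 * Λ + 5) * ρ.g (s - (j + 1)) ∧
      |(d (ρ.J (s - (j + 1)))).im - (d (ρ.J (s - j))).im - 1| ≤ η := fun j hj => by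
    have h1 := wstep_col hω L h hτ (k := s - (j + 1)) (by omega)
    have h2 := hstr (s - (j + 1)) (by omega) (by omega)
    have h3 := h.le (k := s - (j + 1)) (by omega)
    rw [show s - j = s - (j + 1) + 1 by omega]
    exact ⟨by linarith [h1.1], by linarith [h1.2]⟩
  have h5 : 0 ≤ 2 * Λ + 5 := by linarith
  refine ⟨⟨fun j _ => (h.tilt _ (by omega)).trans (by linarith), fun j hj =>
    ⟨(key j hj).1.trans (le_trans (mul_le_mul_of_nonneg_left (le_trans ?_ hγ) h5) hs0),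
      (key j hj).2⟩⟩, ?_⟩
  · exact Finset.single_le_sum (f := ρ.g) (fun k _ => h.g0 k)
      (Finset.mem_Ico.2 ⟨by omega, by omega⟩)
  · refine (Finset.sum_le_sum fun j hj => (key j (Finset.mem_range.1 hj)).1).trans ?_
    rw [← Finset.mul_sum]
    refine mul_le_mul_of_nonneg_left (le_of_eq_of_le ?_ hγ) h5
    rw [Finset.sum_Ico_eq_sum_range, show s - (s - m) = m by omega, ← Finset.sum_range_reflect]
    exact Finset.sum_congr rfl fun j hj => by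
      have := Finset.mem_range.1 hj
      congr 1
      omega

lemma nomeet (hω : Nm ω) (L : L1 ω) (P : Pm) (d : ι → ℂ) (R w τ G w' τ' G' : ℝ) (St : Finset ι)
    (T T1 T' s : ℕ) (ρ K : Ry ι) (h : Wray (rt I d) ω R w τ T G ρ)
    (hK : Stop P d ω w' τ' St T1 G' T' K) (h1 : τ + G ≤ 1 / 1000) (h2 : τ' + 4 * G' ≤ 1 / 1000)
    (hs : s ≤ T) (h0 : K.J 0 = ρ.J s) (hv : |K.V 0| ≤ 1 / 8) (t : ℕ) (ht0 : 0 < t)
    (ht : t ≤ T' + 1) (k : ℕ) (hk : k ≤ T) : K.J t ≠ ρ.J k := by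
  intro he
  have hG := h.G0
  have hG' := hK.wray.G0
  have hst : ∀ j < T' + 1, ‖K.P d ω (j + 1) - K.P d ω j - 1‖ ≤ τ' + 4 * G' := fun j hj => by
    rcases Nat.lt_succ_iff_lt_or_eq.1 hj with h3 | rfl
    · exact wstep hω hK.wray j h3
    · exact (step_one hω hK.last hK.tlt).trans (add_le_add le_rfl (hK.wray.le le_rfl))
  have hVt : |K.V t| ≤ 1 / 2 ∧ ‖ω (K.J t) - 1‖ ≤ τ' := by
    rcases Nat.le_succ_iff.1 ht with h3 | rfl
    exacts [⟨hK.wray.v t h3, hK.wray.tilt t h3⟩, ⟨hK.vl, hK.tlt⟩]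
  obtain ⟨a1, a2⟩ := hor hst (Nat.zero_le _) ht
  obtain ⟨a3, a4, -⟩ := L.w.cen d (K.J t) (K.V t) τ' hVt.2 hVt.1
  obtain ⟨a5, a6, -⟩ := L.w.cen d (K.J 0) (K.V 0) τ' (hK.wray.tilt 0 (Nat.zero_le _))
    (hv.trans (by norm_num))
  obtain ⟨b1, b2⟩ := PthA.geo' (pth hω h) hs hk
  obtain ⟨b3, b4⟩ := cen L h hs
  obtain ⟨b5, b6⟩ := cen L h hk
  have ht1 : (1 : ℝ) ≤ t := by exact_mod_cast ht0
  rw [Nat.cast_zero, sub_zero, abs_of_nonneg (a := (t : ℝ)) (by linarith)] at a1 a2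
  have a7 : (τ' + 4 * G') * t ≤ 1 / 1000 * t := mul_le_mul_of_nonneg_right h2 (by linarith)
  have b7 : (τ + G) * |(k : ℝ) - s| ≤ 1 / 1000 * |(k : ℝ) - s| :=
    mul_le_mul_of_nonneg_right h1 (abs_nonneg _)
  rw [← he] at b5 b6
  rw [← h0] at b3 b4
  simp only [Ry.P, sub_re, sub_im] at a1 a2 a3 a4 a5 a6 b1 b2 b3 b4 b5 b6
  have c1 := abs_le.1 hVt.1
  have c2 := abs_le.1 hv
  have c3 := abs_le.1 (h.v s hs)
  have c4 := abs_le.1 (h.v k hk)
  rw [abs_le] at a1 a2 a3 a4 a5 a6 b1 b2 b3 b4 b5 b6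
  have h3 : |(k : ℝ) - s| < 1 := by
    rcases abs_cases ((k : ℝ) - s) with h4 | h4 <;>
      linarith [h4.1, a1.1, a1.2, a2.1, a2.2, a3.1, a3.2, a4.1, a4.2, a5.1, a5.2, a6.1, a6.2, b1.1,
        b1.2, b2.1, b2.2, b3.1, b3.2, b4.1, b4.2, b5.1, b5.2, b6.1, b6.2, c1.1, c1.2, c2.1, c2.2,
        c3.1, c3.2, c4.1, c4.2]
  have h4 : k = s := by
    rw [abs_lt] at h3
    have h5 : (k : ℝ) < s + 1 := by linarith [h3.2]
    have h6 : (s : ℝ) < k + 1 := by linarith [h3.1]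
    have h7 : k < s + 1 := by exact_mod_cast h5
    have h8 : s < k + 1 := by exact_mod_cast h6
    omega
  subst h4
  have h5 : d (K.J t) = d (K.J 0) := by rw [he, h0]
  rw [h5] at a3
  linarith [a1.1, a3.1, a3.2, a5.1, a5.2]

lemma startgeo (hω : Nm ω) (L : L1 ω) (d : ι → ℂ) (R w τ G R' w' τ' G' η v Y : ℝ)
    (T T' s s' t : ℕ) (ρ K : Ry ι) (h : Wray (rt I d) ω R w τ T G ρ)
    (hK : Wray d ω R' w' τ' T' G' K) (h1 : τ + G ≤ η) (h2 : τ' + G' ≤ η) (hη : η ≤ 1 / 1000)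
    (hs : s ≤ T) (hs' : s' ≤ T) (ht : t ≤ T') (h0 : K.J 0 = ρ.J s') (hv0 : |K.V 0| ≤ 1 / 8)
    (hv : |v| ≤ 1 / 8) (hx : |(K.P d ω t - ex d ω (ρ.J s) v).re| ≤ 2)
    (hy : |(K.P d ω t - ex d ω (ρ.J s) v).im| ≤ Y) :
    |(s : ℝ) - s'| * (1 - 2 * η) ≤ Y + 1 / 4 + 8 * η := by
  have hG := h.G0
  have hτ := h.τ0
  obtain ⟨a1, a2⟩ := hor (wstep hω hK) (Nat.zero_le _) ht
  obtain ⟨b1, b2⟩ := PthA.geo' (pth hω h) hs' hs
  obtain ⟨b3, b4⟩ := start L h hs hv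
  obtain ⟨b5, b6⟩ := start L h hs' hv0
  have ht0 : (0 : ℝ) ≤ t := Nat.cast_nonneg t
  have hN := abs_nonneg ((s : ℝ) - s')
  rw [Nat.cast_zero, sub_zero, abs_of_nonneg ht0] at a1 a2
  have a7 : (τ' + G') * t ≤ η * t := mul_le_mul_of_nonneg_right h2 ht0
  have a8 : η * t ≤ 1 / 1000 * t := mul_le_mul_of_nonneg_right hη ht0
  have b7 : (τ + G) * |(s : ℝ) - s'| ≤ η * |(s : ℝ) - s'| := mul_le_mul_of_nonneg_right h1 hN
  have b8 : η * |(s : ℝ) - s'| ≤ 1 / 1000 * |(s : ℝ) - s'| := mul_le_mul_of_nonneg_right hη hN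
  rw [← h0] at b5 b6
  simp only [Ry.P, sub_re, sub_im] at a1 a2 b1 b2 b3 b4 b5 b6 hx hy
  have c2 := abs_le.1 hv
  have c2' := abs_le.1 hv0
  have c3 := abs_le.1 (h.v s hs)
  have c4 := abs_le.1 (h.v s' hs')
  rw [abs_le] at a1 a2 b1 b2 b3 b4 b5 b6 hx hy
  have h3 : (t : ℝ) ≤ |(s : ℝ) - s'| + 4 := by
    linarith [a1.1, b1.1, b1.2, b3.1, b3.2, b5.1, b5.2, hx.1, hx.2, c3.1, c3.2, c4.1, c4.2]
  have h4 : η * t ≤ η * (|(s : ℝ) - s'| + 4) := mul_le_mul_of_nonneg_left h3 (by linarith)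
  rcases abs_cases ((s : ℝ) - s') with h5 | h5 <;>
    linarith [h5.1, a2.1, a2.2, b2.1, b2.2, b4.1, b4.2, b6.1, b6.2, hy.1, hy.2, c2.1, c2.2, c2'.1,
      c2'.2]

lemma sep (hω : Nm ω) (L : L1 ω) (c : ι → ℂ) (R R' w w' τ G G' : ℝ) (T0 : ℕ) (ρ ρ' : Ry ι)
    (h : Wray c ω R w τ (2 * T0) G ρ) (h' : Wray c ω R' w' τ (2 * T0) G' ρ') (hR : 10 ≤ R)
    (h1 : τ * R ^ 2 ≤ 1) (h2 : R ^ 2 * G + G + G' ≤ 1 / 2) (h3 : τ + G ≤ 1 / 1000)
    (h4 : τ + G' ≤ 1 / 1000) (h5 : 2 * R ≤ |(ρ'.P c ω T0 - ρ.P c ω T0).im|)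
    (h6 : |(ρ'.P c ω T0 - ρ.P c ω T0).im| ≤ T0)
    (h7 : 10 * |(ρ'.P c ω T0 - ρ.P c ω T0).re| ≤ |(ρ'.P c ω T0 - ρ.P c ω T0).im|)
    (s : ℕ) (hs : s ≤ 2 * T0) (s' : ℕ) (hs' : s' ≤ 2 * T0) :
    R - 4 < ‖ρ'.P c ω s' - ρ.P c ω s‖ := by
  by_contra hc
  rw [not_lt] at hc
  have hG := h.G0
  have hT : T0 ≤ 2 * T0 := by omega
  have w1 : ∀ k < 2 * T0, ‖ρ.P c ω (k + 1) - ρ.P c ω k - 1‖ ≤ 1 / 1000 :=
    fun k hk => (wstep hω h k hk).trans h3
  have w2 : ∀ k < 2 * T0, ‖ρ'.P c ω (k + 1) - ρ'.P c ω k - 1‖ ≤ 1 / 1000 :=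
    fun k hk => (wstep hω h' k hk).trans h4
  have r1 : ∀ k ≤ 2 * T0, |(k : ℝ) - T0| ≤ T0 := fun k hk => by
    have h8 : (k : ℝ) ≤ 2 * T0 := by exact_mod_cast hk
    exact abs_le.2 ⟨by linarith [Nat.cast_nonneg (α := ℝ) k], by linarith⟩
  have hre := abs_le.1 (le_refl |(ρ'.P c ω T0 - ρ.P c ω T0).re|)
  have hk : s' ≤ s + T0 ∧ s ≤ s' + T0 := by
    have a1 := abs_le.1 (hor w1 hT hs).1
    have a2 := abs_le.1 (hor w2 hT hs').1
    have a3 := abs_le.1 ((abs_re_le_norm _).trans hc)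
    have a4 := r1 s hs
    have a5 := r1 s' hs'
    generalize |(ρ'.P c ω T0 - ρ.P c ω T0).re| = X at *
    simp only [sub_re] at a3 hre
    have a6 : (s' : ℝ) ≤ s + T0 := by linarith [a1.1, a1.2, a2.1, a2.2, a3.1, a3.2, hre.1, hre.2]
    have a7 : (s : ℝ) ≤ s' + T0 := by linarith [a1.1, a1.2, a2.1, a2.2, a3.1, a3.2, hre.1, hre.2]
    exact ⟨by exact_mod_cast a6, by exact_mod_cast a7⟩
  obtain ⟨a, a', ha, ha', e, hor0⟩ : ∃ a a' : ℕ, a ≤ 2 * T0 ∧ a' ≤ 2 * T0 ∧ a + s' = a' + s ∧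
      (a = T0 ∨ a' = T0) := by
    rcases le_total s s' with h8 | h8
    · exact ⟨T0, T0 + (s' - s), hT, by omega, by omega, Or.inl rfl⟩
    · exact ⟨T0 + (s - s'), T0, by omega, hT, by omega, Or.inr rfl⟩
  have hp := (L.w.pair c R R' w w' τ G G' _ _ ρ ρ' s s' a a' h h' (by linarith) h1 h2 hs hs' ha ha'
    e hc).1
  have hn : ‖ρ'.P c ω a' - ρ.P c ω a‖ ≤ R := by
    linarith [norm_sub_norm_le (ρ'.P c ω a' - ρ.P c ω a) (ρ'.P c ω s' - ρ.P c ω s)]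
  have b1 := abs_le.1 ((abs_re_le_norm _).trans hn)
  have b2 := abs_le.1 ((abs_im_le_norm _).trans hn)
  obtain ⟨b3, b4⟩ := hor w1 hT ha
  obtain ⟨b5, b6⟩ := hor w2 hT ha'
  rw [abs_le] at b3 b4 b5 b6
  generalize |(ρ'.P c ω T0 - ρ.P c ω T0).re| = X at *
  simp only [sub_re, sub_im] at b1 b2 hre h5 h7
  rcases hor0 with rfl | rfl
  · rcases abs_cases ((a' : ℝ) - a) with h8 | h8 <;>
      rcases abs_cases ((ρ'.P c ω a).im - (ρ.P c ω a).im) with h9 | h9 <;>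
      linarith [h8.1, h9.1, b1.1, b1.2, b2.1, b2.2, b5.1, b5.2, b6.1, b6.2, hre.1, hre.2]
  · rcases abs_cases ((a : ℝ) - a') with h8 | h8 <;>
      rcases abs_cases ((ρ'.P c ω a').im - (ρ.P c ω a').im) with h9 | h9 <;>
      linarith [h8.1, h9.1, b1.1, b1.2, b2.1, b2.2, b3.1, b3.2, b4.1, b4.2, hre.1, hre.2]

end Path

theorem pathS (hω : Nm ω) (L : L1 ω) : PathS ω where
  pth _ _ _ _ _ _ _ h := Path.pth hω h
  cen _ _ _ _ _ _ _ _ h hs := Path.cen L h hs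
  start _ _ _ _ _ _ _ _ _ h hs hv := Path.start L h hs hv
  wincol d R w τ G Λ γ η s0 T s m ρ h hτ _ := Path.wincol hω L d R w τ G Λ γ η s0 T s m ρ h hτ
  nomeet := Path.nomeet hω L
  startgeo := Path.startgeo hω L
  sep := Path.sep hω L

end Pool.Agent.MP_c59ecb_co.sh

end MrgPart2

-- ======== part 3: formerly Pool.Agent.MP_c59ecb_co.sh.TV
section MrgPart3

/-! The variation of the total slip along a tube. -/

set_option autoImplicit false

namespace Pool.Agent.MP_c59ecb_co.sh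

open MeasureTheory Complex Pool.Agent.MP_c59ecb_co.h76

namespace TV

lemma tele (s d : ℕ → ℝ) {a b : ℕ} (hab : a ≤ b) (h : ∀ t < b, |s (t + 1) - s t| ≤ d t) :
    |s b - s a| ≤ ∑ t ∈ Finset.range b, d t - ∑ t ∈ Finset.range a, d t := by
  induction b, hab using Nat.le_induction with
  | base => simp
  | succ k hk ih =>
    have h1 := ih fun t ht => h t (by omega)
    have h2 := h k (by omega)
    rw [Finset.sum_range_succ]
    have h3 := abs_sub_le (s (k + 1)) (s k) (s a)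
    linarith

lemma small {r : ℕ} {lam η τ G : ℝ} (h : TP r lam η τ G) (h0 : 0 ≤ τ) :
    0 ≤ η ∧ r * η ≤ 1 / 10 ^ 16 ∧ η ≤ 1 / 10 ^ 18 ∧ τ ≤ 1 / 10 ^ 18 ∧ G ≤ 1 / 10 ^ 18 := by
  have hr : (100 : ℝ) ≤ r := by exact_mod_cast h.r100
  have h1 : lam ^ 4 ≤ (1 / 1000) ^ 4 := pow_le_pow_left₀ h.lam0.le h.lam1 4
  have h2 := h.eta
  have h3 := h.tau
  have h4 := h.tot
  have h5 : 0 ≤ η := by linarith
  have h6 : r * η ≤ 1 / 10 ^ 16 := by linarith
  have h7 : η ≤ 1 / 10 ^ 18 := by nlinarith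
  refine ⟨h5, h6, h7, by linarith, ?_⟩
  by_contra h8
  have h9 : (1 : ℝ) ≤ (r : ℝ) ^ 2 := by nlinarith
  have := mul_le_mul_of_nonneg_right h9 (show 0 ≤ G by linarith)
  linarith

end TV

variable {ι : Type} [Fintype ι] [DecidableEq ι] {ω : ι → ℂ}

theorem tvS (hω : Nm ω) (L : L2 ω) : TVS ω := by
  intro c r lam η τ w w' G G' T T' t1 t2 t3 ρ ρ' m A hP h h' hT h12 h23 h3 hT'
  obtain ⟨-, -, -, hτ, hG⟩ := TV.small hP h.τ0
  have hG0 := h.G0
  have hG0' := h'.G0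
  have hτ0 := h.τ0
  set s : ℕ → ℝ := fun t => |SS c ω (m t) (A t)| with hs
  set C : ℕ → ℝ := fun t => CC c ω lam (Mid (m t) (A t)) (Mid (m (t + 1)) (A (t + 1))) with hC
  set d : ℕ → ℝ := fun t => 2 * (1 + 10 * lam) * C t + 10 ^ 4 * (ρ.g t + ρ'.g t) with hd
  have hst : ∀ t < T', |s (t + 1) - s t| ≤ d t := fun t ht =>
    L.step c r lam η τ w w' G G' T t ρ ρ' m A hP h h' hT (by omega)
  have e1 := TV.tele s d (Nat.zero_le t1) fun t ht => hst t (by omega)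
  have e2 := TV.tele s d h12 fun t ht => hst t (by omega)
  have e3 := TV.tele s d h23 fun t ht => hst t (by omega)
  have e4 := TV.tele s d h3 hst
  have hsub : ∀ t ≤ T', Mid (m t) (A t) ⊆ Inn T' m A := fun t ht =>
    Finset.subset_biUnion_of_mem (fun t => Mid (m t) (A t)) (Finset.mem_range.2 (by omega))
  have hre : ∀ t ≤ T, ∀ i ∈ Mid (m t) (A t), |(c i - ρ.P c ω t).re + 1 / 2| ≤ 1 / 100 := by
    intro t ht i hi
    obtain ⟨j, hj, rfl⟩ := Finset.mem_image.1 hi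
    exact (L.col.inn c r lam η τ _ T ρ ρ' m A t j hP hT ht (h.v t ht) (h'.v t ht)
      (Finset.mem_Ioo.1 hj).2.le).2.1
  have hlt : ∀ a b, a < b → b ≤ T → Disjoint (Mid (m a) (A a)) (Mid (m b) (A b)) := by
    intro a b hab hb
    rw [Finset.disjoint_left]
    intro i ha' hb'
    have f1 := abs_le.1 (hre a (by omega) i ha')
    have f2 := abs_le.1 (hre b hb i hb')
    have f3 := (L.w.geo c _ w τ G T ρ a b h hab.le hb).1
    have f4 : (a : ℝ) + 1 ≤ b := by exact_mod_cast hab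
    have f5 : τ ^ 2 ≤ 1 / 100 := by nlinarith
    have f6 : 1 * (99 / 100 : ℝ) ≤ ((b : ℝ) - a) * (1 - τ ^ 2) :=
      mul_le_mul (by linarith) (by linarith) (by norm_num) (by linarith)
    simp only [sub_re] at f1 f2 f3
    linarith [f1.1, f1.2, f2.1, f2.2]
  set F : ι → ℝ := fun i => ∑ j ∈ Inn T' m A, (cH c ω lam i j + cV c ω lam i j) with hF
  have hF0 : ∀ i, 0 ≤ F i := fun i =>
    Finset.sum_nonneg fun j _ => add_nonneg (cH_nonneg _ _ _) (cV_nonneg _ _ _)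
  have hCF : ∀ t < T', C t ≤ ∑ i ∈ Mid (m t) (A t), F i := by
    intro t ht
    simp only [hC, hF, CC, Finset.sum_add_distrib]
    exact add_le_add
      (Finset.sum_le_sum fun i _ => Finset.sum_le_sum_of_subset_of_nonneg (hsub (t + 1) ht)
        fun j _ _ => cH_nonneg _ _ _)
      (Finset.sum_le_sum fun i _ => Finset.sum_le_sum_of_subset_of_nonneg (hsub t ht.le)
        fun j _ _ => cV_nonneg _ _ _)
  have hsum : ∑ t ∈ Finset.range T', C t ≤ Cost c ω lam (Inn T' m A) := by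
    refine (Finset.sum_le_sum fun t ht => hCF t (Finset.mem_range.1 ht)).trans ?_
    rw [← Finset.sum_biUnion]
    · refine Finset.sum_le_sum_of_subset_of_nonneg ?_ fun i _ _ => hF0 i
      exact Finset.biUnion_subset.2 fun t ht => hsub t (Finset.mem_range.1 ht).le
    · intro a ha b hb hab
      have ha' : a < T' := by simpa using ha
      have hb' : b < T' := by simpa using hb
      rcases lt_or_gt_of_ne hab with h1 | h1
      · exact hlt a b h1 (by omega)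
      · exact (hlt b a h1 (by omega)).symm
  have g1 : ∑ t ∈ Finset.range T', ρ.g t ≤ G := h.sub fun k hk => by simp at hk; omega
  have g2 : ∑ t ∈ Finset.range T', ρ'.g t ≤ G' := h'.sub fun k hk => by simp at hk; omega
  have e5 : ∑ t ∈ Finset.range T', d t = 2 * (1 + 10 * lam) * ∑ t ∈ Finset.range T', C t +
      10 ^ 4 * (∑ t ∈ Finset.range T', ρ.g t + ∑ t ∈ Finset.range T', ρ'.g t) := by
    simp only [hd, Finset.sum_add_distrib, ← Finset.mul_sum]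
  have e6 := mul_le_mul_of_nonneg_left hsum
    (show 0 ≤ 2 * (1 + 10 * lam) by linarith [hP.lam0])
  rw [Finset.range_zero, Finset.sum_empty] at e1
  show |s t1 - s 0| + |s t2 - s t1| + |s t3 - s t2| + |s T' - s t3| ≤ _
  linarith

end Pool.Agent.MP_c59ecb_co.sh

end MrgPart3

-- ======== part 4: formerly Pool.Agent.MP_c59ecb_co.sh.Dir3
section MrgPart4

/-! The third family of tubes. -/

set_option autoImplicit false

namespace Pool.Agent.MP_c59ecb_co.sh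

open MeasureTheory Complex Pool.Agent.MP_c59ecb_co.h76 Finset

namespace Dir3

lemma enum (K : Finset ℕ) (h : K.Nonempty) : ∃ (N : ℕ) (k : ℕ → ℕ), (∀ i ≤ N, k i ∈ K) ∧
    (∀ i j, i < j → j ≤ N → k i < k j) ∧ ∀ x ∈ K, ∃ i ≤ N, k i = x := by
  obtain ⟨N, hN⟩ : ∃ N, K.card = N + 1 := ⟨K.card - 1, by have := h.card_pos; omega⟩
  refine ⟨N, fun i => K.orderEmbOfFin hN ⟨min i N, by omega⟩, fun i _ => K.orderEmbOfFin_mem _ _,
    fun i j h1 h2 => (K.orderEmbOfFin hN).strictMono (Fin.mk_lt_mk.2 (by omega)), fun x hx => ?_⟩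
  obtain ⟨i, hi⟩ : x ∈ Set.range (K.orderEmbOfFin hN) := by rw [range_orderEmbOfFin]; exact hx
  exact ⟨i, by omega, Eq.trans (congrArg (K.orderEmbOfFin hN)
    (Fin.ext (min_eq_left (Nat.lt_succ_iff.1 i.2)))) hi⟩

lemma space {r L k k' : ℕ} (h1 : k % r = k' % r) (h2 : k / r % L = k' / r % L) (h : k < k') :
    k + r * L ≤ k' := by
  have a1 := Nat.div_add_mod k r
  have a2 := Nat.div_add_mod k' r
  have a3 : k / r < k' / r := Nat.lt_of_mul_lt_mul_left (a := r) (by omega)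
  have a4 : L ≤ k' / r - k / r := Nat.le_of_dvd (by omega) ((Nat.modEq_iff_dvd' a3.le).1 h2)
  have a5 := Nat.mul_le_mul_left r (by omega : k / r + L ≤ k' / r)
  rw [mul_add] at a5
  omega

/-- A clamp. -/
noncomputable def cl (x : ℝ) : ℝ := max 0 (min 1 x)

lemma cl_lip (x y : ℝ) : |cl x - cl y| ≤ |x - y| := by
  unfold cl
  refine (abs_max_sub_max_le_max _ _ _ _).trans (max_le (by simp) ?_)
  exact (abs_min_sub_min_le_max _ _ _ _).trans (max_le (by simp) le_rfl)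

lemma cl_zero {x : ℝ} (h : x ≤ 0) : cl x = 0 := max_eq_left ((min_le_right _ _).trans h)

lemma cl_one {x : ℝ} (h : 1 ≤ x) : cl x = 1 := by rw [cl, min_eq_left h, max_eq_right zero_le_one]

/-- A Lipschitz sign. -/
noncomputable def chi (δ t : ℝ) : ℝ := cl (t / δ - 1) - cl (-t / δ - 1)

lemma chi_abs (δ t : ℝ) : |chi δ t| ≤ 1 := by
  have h : ∀ x, 0 ≤ cl x ∧ cl x ≤ 1 := fun x =>
    ⟨le_max_left _ _, max_le zero_le_one (min_le_left _ _)⟩
  rw [chi, abs_le]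
  constructor <;> linarith [h (t / δ - 1), h (-t / δ - 1)]

lemma chi_lip {δ : ℝ} (h : 0 < δ) (s t : ℝ) : |chi δ s - chi δ t| ≤ 2 / δ * |s - t| := by
  have h1 := cl_lip (s / δ - 1) (t / δ - 1)
  have h2 := cl_lip (-t / δ - 1) (-s / δ - 1)
  rw [show s / δ - 1 - (t / δ - 1) = (s - t) / δ by ring, abs_div, abs_of_pos h] at h1
  rw [show -t / δ - 1 - (-s / δ - 1) = (s - t) / δ by ring, abs_div, abs_of_pos h] at h2
  have h3 := abs_add_le (cl (s / δ - 1) - cl (t / δ - 1)) (cl (-t / δ - 1) - cl (-s / δ - 1))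
  rw [show chi δ s - chi δ t = cl (s / δ - 1) - cl (t / δ - 1) +
    (cl (-t / δ - 1) - cl (-s / δ - 1)) by unfold chi; ring, div_mul_eq_mul_div, two_mul, add_div]
  linarith

lemma chi_zero {δ t : ℝ} (h : 0 < δ) (ht : |t| ≤ δ) : chi δ t = 0 := by
  obtain ⟨h1, h2⟩ := abs_le.1 ht
  rw [chi, cl_zero (sub_nonpos.2 ((div_le_one h).2 h2)),
    cl_zero (sub_nonpos.2 ((div_le_one h).2 (by linarith))), sub_zero]

lemma chi_big {δ t : ℝ} (h : 0 < δ) (ht : 2 * δ ≤ |t|) :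
    (0 < t ∧ chi δ t = 1) ∨ (¬0 < t ∧ chi δ t = -1) := by
  rcases le_abs.1 ht with h1 | h1
  · refine Or.inl ⟨by linarith, ?_⟩
    rw [chi, cl_one (le_sub_iff_add_le.2 ((le_div_iff₀ h).2 (by linarith))),
      cl_zero (sub_nonpos.2 ((div_le_one h).2 (by linarith))), sub_zero]
  · refine Or.inr ⟨by linarith, ?_⟩
    rw [chi, cl_one (x := -t / δ - 1) (le_sub_iff_add_le.2 ((le_div_iff₀ h).2 (by linarith))),
      cl_zero (sub_nonpos.2 ((div_le_one h).2 (by linarith))), zero_sub]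

lemma tele (p : ℕ → ℝ) {a b : ℕ} (h : a ≤ b) :
    |p b - p a| ≤ ∑ j ∈ Ico a b, |p (j + 1) - p j| := by
  induction b, h using Nat.le_induction with
  | base => simp
  | succ b h ih =>
    rw [sum_Ico_succ_top h]
    linarith [abs_sub_le (p (b + 1)) (p b) (p a)]

lemma tv_sub (p : ℕ → ℝ) {j : ℕ → ℕ} (n : ℕ) (h : ∀ i < n, j i ≤ j (i + 1)) :
    ∑ i ∈ range n, |p (j (i + 1)) - p (j i)| ≤ ∑ x ∈ range (j n), |p (x + 1) - p x| := by
  induction n with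
  | zero => exact (sum_range_zero _).trans_le (sum_nonneg fun _ _ => abs_nonneg _)
  | succ n ih =>
    rw [sum_range_succ, ← sum_range_add_sum_Ico _ (h n n.lt_succ_self)]
    exact add_le_add (ih fun i hi => h i (by omega)) (tele p (h n n.lt_succ_self))

lemma oneSide (hc : ChainS) (P : Pm) {N : ℕ} {act good : Finset ℕ} {A B F D M c er eD y : ℕ → ℝ}
    (h1 : good ⊆ act) (h2 : act ⊆ range N) (hF : ∀ i ≤ N, 0 ≤ F i ∧ F i ≤ P.mn (-20) (-15))
    (hM : ∀ i ≤ N, 0 ≤ M i ∧ M i ≤ 2 * P.t1) (c1 : ∀ i, |c i| ≤ 1)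
    (c2 : ∀ i < N, i ∉ act → c i = 0)
    (c3 : ∑ i ∈ range (N - 1), |c (i + 1) - c i| ≤ 4 * P.mn 9 0)
    (ha : ∀ i ∈ act, 0 ≤ A i ∧ 0 ≤ B i ∧ 0 ≤ eD i ∧ |F i - F (i + 1) - (A i - B i)| ≤ er i ∧
      D i - D (i + 1) ≤ (M i + P.f0) * A i + eD i ∧
      D (i + 1) - D i ≤ (M (i + 1) + P.f0) * B i + eD i)
    (hg : ∀ i ∈ good, (c i = 1 ∨ c i = -1) ∧ 0 ≤ y i ∧ y i ≤ 2 * P.mn (-25) 0 ∧
      ∃ z : ℤ, |D i - D (i + 1) + c i * y i - z| ≤ P.e * y i)
    (s1 : ∑ i ∈ act, er i ≤ 2 * P.mn (-25) (-15)) (s2 : ∑ i ∈ act, eD i ≤ 108 * P.mn (-16) (-10)) :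
    ∑ i ∈ good, 2 * (1 - P.e) ^ 2 * y i /
      (if c i = 1 then M (i + 1) + P.f0 + P.e2 else M i + P.f0 + P.e2) - P.mn (-1) (-15) / 4 ≤
      ∑ i ∈ act, (A i + B i) := by
  have p1 := P.mn_pos (-17) 5
  have p2 := P.mn_pos (-14) 5
  have p3 := P.mn_pos 9 5
  have q1 := P.mn_le (a := -17) (j := 5) (b := 9) (k := 5) (by norm_num) (by norm_num)
  have q2 := P.mn_le (a := -14) (j := 5) (b := 9) (k := 5) (by norm_num) (by norm_num)
  have := hc N act good A B F c er eD (fun i => D i - D (i + 1)) (fun i => M i + P.f0 + P.e2)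
    (fun i => M (i + 1) + P.f0 + P.e2) y P.e _ _ P.e2 (3 * P.t1) (P.mn_nonneg _ _)
    (by linarith [P.mn_small (a := -1) (j := 0) (by norm_num) (by norm_num)]) p2 h1 h2 hF c1 c2 c3
    (fun i hi => ⟨(ha i hi).1, (ha i hi).2.1, (ha i hi).2.2.1, (ha i hi).2.2.2.1⟩) fun i hi => by
      obtain ⟨a1, a2, -, -, a3, a4⟩ := ha i (h1 hi)
      obtain ⟨b1, b2, b3, b4⟩ := hg i hi
      have hi' := mem_range.1 (h2 (h1 hi))
      obtain ⟨m1, m2⟩ := hM i hi'.le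
      obtain ⟨m3, m4⟩ := hM (i + 1) hi'
      have e1 : P.mn (-25) 0 * P.mn 9 5 = P.mn (-16) 5 := P.mn_mul' rfl rfl
      have e2 : P.mn (-1) 0 * P.mn (-14) 5 = P.mn (-15) 5 := P.mn_mul' rfl rfl
      refine ⟨b1, by linarith [mul_nonneg p2.le a1], by linarith [mul_nonneg p2.le a2],
        by linarith, by linarith, by linarith, by linarith, b2,
        by linarith [P.mn_small (a := -25) (j := 0) (by norm_num) (by norm_num)], ?_, b4⟩
      linarith [mul_le_mul_of_nonneg_right b3 p3.le, P.mn_pos (-16) 5,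
        P.mn_le (a := -16) (j := 5) (b := -15) (k := 5) (by norm_num) (by norm_num)]
  have e1 : P.mn 9 0 * P.mn (-20) (-15) = P.mn (-11) (-15) := P.mn_mul' rfl rfl
  have e2 : P.mn (-2) (-15) * P.mn (-14) 5 = P.mn (-16) (-10) := P.mn_mul' rfl rfl
  have e3 : 2 * (∑ i ∈ act, eD i) / P.e2 ≤ 216 * P.mn (-2) (-15) := by
    rw [div_le_iff₀ p2]
    linarith
  linarith [P.mn_pos (-1) (-15),
    P.mn_le (a := -11) (j := -15) (b := -1) (k := -15) (by norm_num) (by norm_num),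
    P.mn_le (a := -20) (j := -15) (b := -1) (k := -15) (by norm_num) (by norm_num),
    P.mn_le (a := -25) (j := -15) (b := -1) (k := -15) (by norm_num) (by norm_num),
    P.mn_le (a := -2) (j := -15) (b := -1) (k := -15) (by norm_num) (by norm_num)]

lemma errs (P : Pm) {act : Finset ℕ} {Ei Λ : ℕ → ℝ} (h1 : ∑ i ∈ act, Ei i ≤ P.E)
    (h2 : ∑ i ∈ act, Λ i ≤ P.NU) (h3 : ∀ i ∈ act, (P.ell : ℝ) ≤ Λ i) :
    ∑ i ∈ act, P.er (Ei i) (Λ i) ≤ 2 * P.mn (-25) (-15) ∧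
      ∑ i ∈ act, (4 * P.t1 * P.er (Ei i) (Λ i) + 100 * P.f0 * Ei i) ≤ 108 * P.mn (-16) (-10) := by
  have a1 := card_nsmul_le_sum act Λ _ h3
  rw [nsmul_eq_mul] at a1
  have a2 : (act.card : ℝ) ≤ 60 * P.mn 40 (-10) := by
    have e1 : P.mn 40 (-10) * P.mn (-28) (-10) = P.mn 12 (-20) := P.mn_mul' rfl rfl
    have := mul_le_mul_of_nonneg_left P.ell_ge (Nat.cast_nonneg act.card : (0 : ℝ) ≤ _)
    exact le_of_mul_le_mul_right (by linarith) (P.mn_pos (-28) (-10))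
  have a3 : ∑ i ∈ act, P.er (Ei i) (Λ i) ≤ 2 * P.mn (-25) (-15) := by
    have e1 : P.mn (-26) 0 * P.mn 1 (-15) = P.mn (-25) (-15) := P.mn_mul' rfl rfl
    have e2 : P.mn 0 9 * P.mn 12 (-20) = P.mn 12 (-11) := P.mn_mul' rfl rfl
    have e3 : P.mn 40 (-10) * P.mn 0 (-2) = P.mn 40 (-12) := P.mn_mul' rfl rfl
    simp only [Pm.er, sum_add_distrib, ← mul_sum, sum_const, nsmul_eq_mul]
    linarith [mul_le_mul_of_nonneg_left h1 (P.mn_nonneg (-26) 0),
      mul_le_mul_of_nonneg_left h2 (P.mn_nonneg 0 9),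
      mul_le_mul_of_nonneg_right a2 (P.mn_nonneg 0 (-2)), P.mn_pos (-25) (-15),
      P.mn_le (a := 12) (j := -11) (b := -25) (k := -15) (by norm_num) (by norm_num),
      P.mn_le (a := 40) (j := -12) (b := -25) (k := -15) (by norm_num) (by norm_num)]
  refine ⟨a3, ?_⟩
  have e1 : P.mn 9 5 * P.mn (-25) (-15) = P.mn (-16) (-10) := P.mn_mul' rfl rfl
  have e2 : P.mn (-17) 5 * P.mn 1 (-15) = P.mn (-16) (-10) := P.mn_mul' rfl rfl
  rw [sum_add_distrib, ← mul_sum, ← mul_sum]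
  linarith [mul_le_mul_of_nonneg_left a3 (P.mn_nonneg 9 5),
    mul_le_mul_of_nonneg_left h1 (P.mn_nonneg (-17) 5)]

lemma gaps {N : ℕ} {k : ℕ → ℕ} (hk : ∀ i j, i < j → j ≤ N → k i < k j) {act S : Finset ℕ}
    (h1 : act ⊆ range N) (h2 : ∀ i ∈ act, ∀ j, k i ≤ j → j < k (i + 1) → j ∈ S) :
    ∑ i ∈ act, ((k (i + 1) : ℝ) - k i) ≤ S.card := by
  have hm : ∀ i j, i ≤ j → j ≤ N → k i ≤ k j := fun i j a b =>
    a.eq_or_lt.elim (fun e => e ▸ le_rfl) fun a => (hk i j a b).le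
  have a1 : (act.biUnion fun i => Ico (k i) (k (i + 1))).card ≤ S.card :=
    card_le_card (biUnion_subset.2 fun i hi j hj => h2 i hi j (mem_Ico.1 hj).1 (mem_Ico.1 hj).2)
  rw [card_biUnion] at a1
  · refine le_trans (le_of_eq ?_) (Nat.cast_le.2 a1)
    rw [Nat.cast_sum]
    refine sum_congr rfl fun i hi => ?_
    rw [Nat.card_Ico, Nat.cast_sub (hm i _ i.le_succ (mem_range.1 (h1 hi)))]
  · intro i hi j hj hij
    have b1 := mem_range.1 (h1 hi)
    have b2 := mem_range.1 (h1 hj)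
    refine disjoint_left.2 fun x h3 h4 => ?_
    rw [mem_Ico] at h3 h4
    rcases lt_or_gt_of_ne hij with h | h
    · have := hm (i + 1) j h b2.le
      omega
    · have := hm (j + 1) i h b1.le
      omega

end Dir3

variable {ι : Type} [Fintype ι] [DecidableEq ι] {ω : ι → ℂ}

open Dir3 in
theorem dir3S (hω : Nm ω) (L : L4 ω) (h : PairS ω) : Dir3S ω := by
  classical
  intro P d o k1 U Gd p ρ Mp Mm hF hS
  have he0 := P.mn_pos (-1) 0
  have he1 : P.e ≤ 1 / 10 := by linarith [P.mn_small (a := -1) (j := 0) (by norm_num) (by norm_num)]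
  have hen : P.e * P.nt = P.mn (-1) (-15) := P.mn_mul' rfl rfl
  have hdl := P.mn_pos (-6) 10
  have hr : 0 < P.r := lt_of_lt_of_le (by norm_num) P.r_big'
  have hell : 0 < P.ell := Nat.mul_pos hr P.L_pos
  have he3 : 0 ≤ (1 - P.e) ^ 3 := pow_nonneg (by linarith) 3
  obtain ⟨-, o2, -, hcls⟩ := L.sum.cls P.L Gd
    (fun k => 2 * P.r * |p k| / (Mp (if 0 < p k then k + P.ell else k) + P.f0 + P.e2) +
      2 * P.r * |p k| / (Mm (if 0 < p k then k else k + P.ell) + P.f0 + P.e2))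
    (fun k => k / P.r % P.L) P.L_pos fun s _ => Nat.mod_lt _ P.L_pos
  rw [sum_add_distrib] at hcls
  rw [← mul_add, hen]
  obtain ⟨Ks, hKs⟩ : ∃ Ks : Finset ℕ, ∀ k, k ∈ Ks ↔ k ∈ U ∧ k / P.r % P.L = o2 :=
    ⟨U.filter _, fun _ => mem_filter⟩
  have hGK : ∀ k ∈ Gd, k / P.r % P.L = o2 → k ∈ Ks ∧ k + P.ell ∈ Ks := fun k hk e =>
    ⟨(hKs _).2 ⟨(hS.gd k hk).1, e⟩, (hKs _).2 ⟨(hS.gd k hk).2.1, by
      rw [Pm.ell, Nat.add_mul_div_left _ _ hr, Nat.add_mod_right, e]⟩⟩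
  rcases Ks.eq_empty_or_nonempty with rfl | hne
  · refine ⟨∅, fun _ => ∅, by simp, by simp, ?_⟩
    rw [filter_eq_empty_iff.2 fun k hk e => notMem_empty _ (hGK k hk e).1, sum_empty,
      mul_zero] at hcls
    rw [sum_empty]
    linarith [mul_nonpos_of_nonneg_of_nonpos he3 hcls, P.mn_pos (-1) (-15)]
  have hU : ∀ k ∈ Ks, k ∈ U := fun k hk => ((hKs k).1 hk).1
  have hfam : Fam P d ω Ks ρ := ⟨fun k hk => (hS.base k (hU k hk)).1,
    fun k hk => (hS.base k (hU k hk)).2.2.1.trans hS.k1T, fun k hk k' hk' hl =>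
      ⟨space ((hS.base k (hU k hk)).2.2.2.trans (hS.base k' (hU k' hk')).2.2.2.symm)
        (((hKs k).1 hk).2.trans ((hKs k').1 hk').2.symm) hl, hS.off k (hU k hk) k' (hU k' hk') hl⟩⟩
  obtain ⟨N, k, k0, kl, ks⟩ := enum Ks hne
  have km : ∀ i j, i ≤ j → j ≤ N → k i ≤ k j := fun i j a b =>
    a.eq_or_lt.elim (fun e => e ▸ le_rfl) fun a => (kl i j a b).le
  have ki : ∀ i j, i ≤ N → j ≤ N → k i < k j → i < j := fun i j a b c =>
    not_le.1 fun e => not_le.2 c (km j i e a)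
  have kj : ∀ i j, i ≤ N → j ≤ N → k i = k j → i = j := fun i j a b c =>
    le_antisymm (not_lt.1 fun e => (kl j i e a).ne' c) (not_lt.1 fun e => (kl i j e b).ne c)
  have kk : ∀ i ≤ N, k i ≤ k1 := fun i hi => (hS.base _ (hU _ (k0 i hi))).2.2.1
  obtain ⟨H, H0, HE, HL⟩ := L.launch.energy P d 0 (StF P Ks ρ) P.T1 hF le_rfl
  obtain ⟨act, hact⟩ : ∃ act : Finset ℕ, ∀ i, i ∈ act ↔
      i < N ∧ ∀ j, k i ≤ j → j < k (i + 1) → P.dl / 3 ≤ |p j| :=
    ⟨(range N).filter _, fun _ => mem_filter.trans (and_congr_left' mem_range)⟩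
  have aN : act ⊆ range N := fun i hi => mem_range.2 ((hact i).1 hi).1
  have hΛ : ∑ i ∈ act, ((k (i + 1) : ℝ) - k i) ≤ P.NU :=
    (gaps kl aN fun i hi j a b => mem_filter.2 ⟨mem_range.2 (by
      have := kk (i + 1) ((hact i).1 hi).1; omega), ((hact i).1 hi).2 j a b⟩).trans hS.cnt
  have hΛ' : ∀ i ∈ act, (P.ell : ℝ) ≤ (k (i + 1) : ℝ) - k i := fun i hi => by
    have a := ((hact i).1 hi).1
    have := (hfam.off _ (k0 i a.le) _ (k0 (i + 1) a) (kl i _ i.lt_succ_self a)).1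
    exact le_sub_iff_add_le'.2 (by exact_mod_cast this)
  obtain ⟨Ei, hEi⟩ : ∃ Ei : ℕ → ℝ,
      ∀ i, Ei i = ∑ s ∈ range (2 * P.T0 + 1), H ((ρ (k (i + 1))).J s) := ⟨_, fun _ => rfl⟩
  have hE : ∑ i ∈ act, Ei i ≤ P.E := by
    simp only [hEi]
    rw [← sum_product' act (range (2 * P.T0 + 1)) fun i s => H ((ρ (k (i + 1))).J s),
      ← sum_image (g := fun x : ℕ × ℕ => (ρ (k (x.1 + 1))).J x.2)]
    · refine (sum_le_sum_of_subset_of_nonneg (image_subset_iff.2 fun x hx => ?_)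
        fun i _ _ => H0 i).trans HE
      exact mem_biUnion.2 ⟨_, k0 _ ((hact _).1 (mem_product.1 hx).1).1,
        mem_image_of_mem _ (mem_product.1 hx).2⟩
    · intro x hx x' hx' e
      obtain ⟨a1, a2⟩ := mem_product.1 hx
      obtain ⟨a3, a4⟩ := mem_product.1 hx'
      have a5 := ((hact _).1 a1).1
      have a6 := ((hact _).1 a3).1
      obtain ⟨b1, b2⟩ := L.disj.jinj P d Ks ρ _ _ _ _ hfam (k0 _ a5) (k0 _ a6)
        (Nat.lt_succ_iff.1 (mem_range.1 a2)) (Nat.lt_succ_iff.1 (mem_range.1 a4)) e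
      exact Prod.ext (Nat.succ_injective (kj _ _ a5 a6 b1)) b2
  obtain ⟨s1, s2⟩ := errs P hE hΛ hΛ'
  have hp := fun i (hi : i ∈ act) => h P d Ks ρ (k (i + 1)) (k i) H (Ei i) _ _ _ _ hF hfam
    (k0 _ ((hact i).1 hi).1) (k0 _ ((hact i).1 hi).1.le) (kl _ _ i.lt_succ_self ((hact i).1 hi).1)
    (fun x hx ⟨a1, a2⟩ => by
      obtain ⟨j, hj, rfl⟩ := ks x hx
      have b1 := ki _ _ ((hact i).1 hi).1.le hj a1
      have b2 := ki _ _ hj ((hact i).1 hi).1 a2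
      omega)
    ((single_le_sum (f := fun i => (k (i + 1) : ℝ) - k i)
      (fun j hj => (Nat.cast_nonneg _).trans (hΛ' j hj)) hi).trans hΛ) H0 HL (hEi i).ge
    (hS.base _ (hU _ (k0 _ ((hact i).1 hi).1))).2.1
    (hS.base _ (hU _ (k0 _ ((hact i).1 hi).1.le))).2.1
  choose! W Z oo Ap Bp Am Bm p1 p2 p3 p4 p5 p6 p7 p8 p9 p10 p11 p12 using hp
  obtain ⟨good, hgood⟩ : ∃ good : Finset ℕ, ∀ i, i ∈ good ↔ i < N ∧ k i ∈ Gd :=
    ⟨(range N).filter _, fun _ => mem_filter.trans (and_congr_left' mem_range)⟩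
  have gs : ∀ i ∈ good, k (i + 1) = k i + P.ell := fun i hi => by
    obtain ⟨a1, a2⟩ := (hgood i).1 hi
    obtain ⟨j, hj, e⟩ := ks _ (hGK _ a2 ((hKs _).1 (k0 i a1.le)).2).2
    have b1 := (hfam.off _ (k0 i a1.le) _ (k0 (i + 1) a1) (kl i _ i.lt_succ_self a1)).1
    have b2 := km (i + 1) j (ki i j a1.le hj (by omega)) hj
    omega
  have ga : good ⊆ act := fun i hi => (hact i).2 ⟨((hgood i).1 hi).1, fun j a b => by
    obtain ⟨-, -, a1, -, a2, -⟩ := hS.gd _ ((hgood i).1 hi).2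
    have a3 := a2 j a (by rw [← gs i hi]; exact b.le)
    have a4 := abs_sub_abs_le_abs_sub (p (k i)) (p j)
    rw [abs_sub_comm] at a4
    linarith⟩
  obtain ⟨jp, j1, j2, j3⟩ : ∃ jp : ℕ → ℕ, (∀ i < N, k i ≤ jp i ∧ jp i < k (i + 1)) ∧
      (∀ i ∈ act, jp i = k i) ∧ ∀ i < N, i ∉ act → |p (jp i)| ≤ P.dl := by
    have : ∀ i, ∃ j, (i < N → k i ≤ j ∧ j < k (i + 1)) ∧ (i ∈ act → j = k i) ∧
        (i < N → i ∉ act → |p j| ≤ P.dl) := fun i => by
      by_cases hi : i < N ∧ i ∉ act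
      · obtain ⟨j, hj⟩ := not_forall.1 fun a => hi.2 ((hact i).2 ⟨hi.1, a⟩)
        push Not at hj
        exact ⟨j, fun _ => ⟨hj.1, hj.2.1⟩, fun a => absurd a hi.2, fun _ _ => by linarith [hj.2.2]⟩
      · exact ⟨k i, fun a => ⟨le_rfl, kl _ _ i.lt_succ_self a⟩, fun _ => rfl,
          fun a b => absurd ⟨a, b⟩ hi⟩
    choose jp a b c using this
    exact ⟨jp, a, b, c⟩
  have htv : ∑ i ∈ range (N - 1), |chi P.dl (p (jp (i + 1))) - chi P.dl (p (jp i))| ≤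
      4 * P.mn 9 0 := by
    rcases N.eq_zero_or_pos with rfl | hN
    · simpa using P.mn_nonneg 9 0
    have a1 := tv_sub p (j := jp) (N - 1) fun i hi =>
      (j1 i (by omega)).2.le.trans (j1 (i + 1) (by omega)).1
    have a2 : jp (N - 1) ≤ P.T := (j1 _ (by omega)).2.le.trans ((kk _ (by omega)).trans hS.k1T)
    have a3 := (a1.trans (sum_le_sum_of_subset_of_nonneg (range_mono a2)
      fun _ _ _ => abs_nonneg _)).trans hS.tv
    refine (sum_le_sum fun i _ => chi_lip hdl _ _).trans ?_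
    rw [← mul_sum]
    refine (mul_le_mul_of_nonneg_left a3 (by positivity)).trans (le_of_eq ?_)
    have e1 : P.mn 9 0 * P.mn (-6) 10 = P.mn 3 10 := P.mn_mul' rfl rfl
    rw [div_mul_eq_mul_div, div_eq_iff hdl.ne']
    linarith
  have hy : ∀ i ∈ good, 0 ≤ P.ell * |p (k i)| ∧ P.ell * |p (k i)| ≤ 2 * P.mn (-25) 0 :=
    fun i hi => ⟨by positivity, by
      have e1 : P.mn (-28) (-10) * P.mn 3 10 = P.mn (-25) 0 := P.mn_mul' rfl rfl
      linarith [mul_le_mul P.ell_le (hS.gd _ ((hgood i).1 hi).2).2.2.2.1 (abs_nonneg _)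
        (P.mn_nonneg _ _)]⟩
  have hχ : ∀ i ∈ good, (0 < p (k i) ∧ chi P.dl (p (jp i)) = 1) ∨
      (¬0 < p (k i) ∧ chi P.dl (p (jp i)) = -1) := fun i hi => by
    rw [j2 i (ga hi)]
    exact chi_big hdl (hS.gd _ ((hgood i).1 hi).2).2.2.1
  have hsg : ∀ i ∈ good, chi P.dl (p (jp i)) * (P.ell * |p (k i)|) = P.ell * p (k i) :=
    fun i hi => by
      rcases hχ i hi with ⟨a, b⟩ | ⟨a, b⟩
      · rw [b, abs_of_pos a, one_mul]
      · rw [b, abs_of_nonpos (not_lt.1 a)]; ring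
  have hb : ∀ i ≤ N, Base P d ω (ρ (k i)) ∧ Mb P ω (ρ (k i)) (Mp (k i)) (Mm (k i)) :=
    fun i hi => ⟨(hS.base _ (hU _ (k0 i hi))).1, (hS.base _ (hU _ (k0 i hi))).2.1⟩
  have hpp : ∀ (S : Finset ℕ) (q : ℕ → ℝ), 0 ≤ ∑ j ∈ S, pp P.f0 (q j) / 2 := fun S q =>
    sum_nonneg fun _ _ => div_nonneg (le_max_right _ _) zero_le_two
  have heD : ∀ i ∈ act,
      0 ≤ 4 * P.t1 * P.er (Ei i) (k (i + 1) - k i) + 100 * P.f0 * Ei i := fun i hi => by
    have a1 := (abs_nonneg _).trans (p7 i hi)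
    have a2 : 0 ≤ Ei i := (hEi i).symm ▸ sum_nonneg fun _ _ => H0 _
    have a3 := P.mn_pos 9 5
    have a4 := P.mn_pos (-17) 5
    positivity
  have o1 := oneSide L.chain P (A := Ap) (B := Bp) (F := fun i => (ρ (k i)).Fp P ω)
    (D := fun i => (ρ (k i)).Dp P ω) (M := fun i => Mp (k i)) (c := fun i => chi P.dl (p (jp i)))
    (y := fun i => P.ell * |p (k i)|) ga aN
    (fun i hi => ⟨hpp _ _, (L.cap P d _ hF (hb i hi).1).1⟩)
    (fun i hi => ⟨(hb i hi).2.p0, (hb i hi).2.p1⟩) (fun i => chi_abs _ _)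
    (fun i a b => chi_zero hdl (j3 i a b)) htv
    (fun i hi => ⟨p1 i hi, p2 i hi, heD i hi, p7 i hi, p9 i hi, p10 i hi⟩)
    (fun i hi => ⟨(hχ i hi).imp And.right And.right, (hy i hi).1, (hy i hi).2, by
      obtain ⟨z, hz⟩ := (hS.gd _ ((hgood i).1 hi).2).2.2.2.2.2.1
      refine ⟨-z, le_of_eq_of_le ?_ hz⟩
      rw [hsg i hi, gs i hi, ← abs_neg]
      congr 1
      push_cast
      ring⟩) s1 s2
  have o2' := oneSide L.chain P (A := Am) (B := Bm) (F := fun i => (ρ (k i)).Fm P ω)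
    (D := fun i => (ρ (k i)).Dm P ω) (M := fun i => Mm (k i)) (c := fun i => -chi P.dl (p (jp i)))
    (y := fun i => P.ell * |p (k i)|) ga aN
    (fun i hi => ⟨hpp _ _, (L.cap P d _ hF (hb i hi).1).2⟩)
    (fun i hi => ⟨(hb i hi).2.m0, (hb i hi).2.m1⟩) (fun i => (abs_neg _).trans_le (chi_abs _ _))
    (fun i a b => neg_eq_zero.2 (chi_zero hdl (j3 i a b)))
    (le_of_eq_of_le (sum_congr rfl fun i _ => by rw [neg_sub_neg, abs_sub_comm]) htv)
    (fun i hi => ⟨p3 i hi, p4 i hi, heD i hi, p8 i hi, p11 i hi, p12 i hi⟩)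
    (fun i hi => ⟨(hχ i hi).symm.imp (fun a => by rw [a.2, neg_neg]) fun a => by rw [a.2],
      (hy i hi).1, (hy i hi).2, by
      obtain ⟨z, hz⟩ := (hS.gd _ ((hgood i).1 hi).2).2.2.2.2.2.2
      refine ⟨-z, le_of_eq_of_le ?_ hz⟩
      rw [neg_mul, hsg i hi, gs i hi, ← abs_neg]
      congr 1
      push_cast
      ring⟩) s1 s2
  obtain ⟨W', hW'⟩ : ∃ W' : Finset (ℕ × ℕ), ∀ a, a ∈ W' ↔ a.1 ∈ act ∧ a.2 ∈ W a.1 :=
    ⟨act.biUnion fun i => {i} ×ˢ W i, fun a => by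
      simp only [mem_biUnion, mem_product, mem_singleton]
      exact ⟨fun ⟨i, a1, a2, a3⟩ => a2 ▸ ⟨a1, a3⟩, fun a1 => ⟨_, a1.1, rfl, a1.2⟩⟩⟩
  refine ⟨W', fun a => Z a.1 a.2, fun a ha => (p5 _ ((hW' a).1 ha).1 _ ((hW' a).1 ha).2).2.1,
    fun a ha b hb hab => ?_, ?_⟩
  · obtain ⟨a1, a2⟩ := (hW' a).1 ha
    obtain ⟨b1, b2⟩ := (hW' b).1 hb
    obtain ⟨a3, -, _, _, _, _, _, a4, a5⟩ := p5 _ a1 _ a2
    obtain ⟨b3, -, _, _, _, _, _, b4, b5⟩ := p5 _ b1 _ b2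
    have a6 := ((hact _).1 a1).1
    have b6 := ((hact _).1 b1).1
    refine L.disj.disj P d Ks ρ _ _ _ _ _ _ _ _ _ _ _ _ _ _ _ _ _ _ hfam (k0 _ a6) (k0 _ b6) a4 b4
      (fun e => ?_) a5 b5
    have e1 : a.1 = b.1 := Nat.succ_injective (kj _ _ a6 b6 e)
    exact ⟨by rw [a3, b3, e1], fun e2 => hab (Prod.ext e1 e2)⟩
  rw [sum_finset_product W' act W hW']
  have f1 := sum_le_sum p6
  have f2 : ∑ i ∈ act, ((1 - P.e) * (Ap i + Bp i + Am i + Bm i) - P.er (Ei i) (k (i + 1) - k i)) =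
      (1 - P.e) * (∑ i ∈ act, (Ap i + Bp i) + ∑ i ∈ act, (Am i + Bm i)) -
        ∑ i ∈ act, P.er (Ei i) (k (i + 1) - k i) := by
    rw [sum_sub_distrib, ← mul_sum, ← sum_add_distrib]
    simp only [add_assoc]
  have f3 := mul_le_mul_of_nonneg_left hcls (sq_nonneg (1 - P.e))
  rw [mul_sum, mul_sum, ← sum_nbij (s := good) k (fun i hi => mem_filter.2
    ⟨((hgood i).1 hi).2, ((hKs _).1 (k0 i ((hgood i).1 hi).1.le)).2⟩)
    (fun i hi j hj e => kj i j ((hgood i).1 hi).1.le ((hgood j).1 hj).1.le e) (fun x hx => by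
      obtain ⟨a1, a2⟩ := mem_filter.1 hx
      obtain ⟨i, hi, rfl⟩ := ks x (hGK x a1 a2).1
      obtain ⟨j, hj, e⟩ := ks _ (hGK _ a1 a2).2
      exact ⟨i, (hgood i).2 ⟨(ki i j hi hj (by omega)).trans_le hj, a1⟩, rfl⟩)
    (f := fun i => 2 * (1 - P.e) ^ 2 * (P.ell * |p (k i)|) / (if chi P.dl (p (jp i)) = 1 then
        Mp (k (i + 1)) + P.f0 + P.e2 else Mp (k i) + P.f0 + P.e2) +
      2 * (1 - P.e) ^ 2 * (P.ell * |p (k i)|) / (if -chi P.dl (p (jp i)) = 1 then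
        Mm (k (i + 1)) + P.f0 + P.e2 else Mm (k i) + P.f0 + P.e2)) (fun i hi => by
      rw [gs i hi, show (P.ell : ℝ) = P.r * P.L from Nat.cast_mul _ _]
      rcases hχ i hi with ⟨a, b⟩ | ⟨a, b⟩
      · rw [b, if_pos rfl, if_neg (by norm_num), if_pos a, if_pos a]; ring
      · rw [b, if_neg (by norm_num), if_pos (neg_neg _), if_neg a, if_neg a]; ring),
    sum_add_distrib] at f3
  have f4 := mul_le_mul_of_nonneg_left (add_le_add o1 o2') (by linarith : 0 ≤ 1 - P.e)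
  have f5 := mul_le_mul_of_nonneg_left f3 (by linarith : 0 ≤ 1 - P.e)
  have f6 := mul_pos he0 (P.mn_pos (-1) (-15))
  rw [f2] at f1
  linarith [P.mn_pos (-25) (-15),
    P.mn_le (a := -25) (j := -15) (b := -1) (k := -15) (by norm_num) (by norm_num)]

end Pool.Agent.MP_c59ecb_co.sh

end MrgPart4

-- ======== part 5: formerly Pool.Agent.MP_c59ecb_co.sh.Disj
section MrgPart5

/-! Separation of the short rays. -/

set_option autoImplicit false

namespace Pool.Agent.MP_c59ecb_co.sh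

open MeasureTheory Complex Pool.Agent.MP_c59ecb_co.h76

variable {ι : Type} [Fintype ι] [DecidableEq ι] {ω : ι → ℂ}

namespace Disj

open SideA

variable {P : Pm} {d : ι → ℂ} {Ks : Finset ℕ} {ρ : ℕ → Ry ι} {kb kt kb' kt' s s' : ℕ} {G G' : ℝ}
  {K K' : Ry ι} {T1 T2 Ts Ts' h h' : ℕ}

lemma rng_le (h : P.Rng s) : s ≤ 2 * P.T0 := by
  have h1 : P.T0 = 2 * P.n := rfl
  have := h.2
  omega

/-- two close points of short rays, moved back to the start of one of them -/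
lemma back (L : L2 ω) (S : Shot P d ω Ks ρ kb kt s G K T1 Ts h)
    (S' : Shot P d ω Ks ρ kb' kt' s' G' K' T2 Ts' h') {t t' : ℕ} (ht : t ≤ Ts) (ht' : t' ≤ Ts')
    (htt : t ≤ t') {X Y : ℝ} (hX : |(K'.P d ω t' - K.P d ω t).re| ≤ X)
    (hY : |(K'.P d ω t' - K.P d ω t).im| ≤ Y) (hXY : X + Y ≤ 2 * P.r) :
    |(K'.P d ω (t' - t) - ex d ω ((ρ kb).J s) (K.V 0)).re| ≤ X + 1 / 100 ∧
      |(K'.P d ω (t' - t) - ex d ω ((ρ kb).J s) (K.V 0)).im| ≤ Y + 1 / 100 := by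
  have h1 := t2_small P
  have h2 := t2_R P
  have h3 := P.r_big
  have h4 := mul_le_mul_of_nonneg_left S.G1 (sq_nonneg P.R)
  have h5 := S.G1
  have h6 := S'.G1
  have h7 := S.lt
  have h8 := S'.lt
  have h9 := (L.w.pair d P.R P.R 0 0 P.t2 (4 * G) (4 * G') T1 T2 K K' t t' 0 (t' - t) S.stop.wray
    S'.stop.wray (by linarith) (by linarith) (by linarith) (by omega) (by omega) (by omega)
    (by omega) (by omega)
    ((norm_le_abs_re_add_abs_im _).trans (by linarith))).1.trans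
      (show _ ≤ (1 : ℝ) / 100 by linarith)
  have a1 := abs_le.1 ((abs_re_le_norm _).trans h9)
  have a2 := abs_le.1 ((abs_im_le_norm _).trans h9)
  have e : K.P d ω 0 = ex d ω ((ρ kb).J s) (K.V 0) := by rw [← S.st]; rfl
  rw [← e]
  rw [sub_re] at a1
  rw [sub_im] at a2
  rw [abs_le] at hX hY
  exact ⟨abs_le.2 ⟨by linarith [a1.1, hX.1], by linarith [a1.2, hX.2]⟩,
    abs_le.2 ⟨by linarith [a2.1, hY.1], by linarith [a2.2, hY.2]⟩⟩

/-- two short rays from the same sample -/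
lemma same (L : L2 ω) (F : Fam P d ω Ks ρ) (hk : kb ∈ Ks)
    (S : Shot P d ω Ks ρ kb kt s G K T1 Ts h) (S' : Shot P d ω Ks ρ kb kt' s' G' K' T2 Ts' h')
    {t t' : ℕ} (ht : t ≤ Ts) (ht' : t' ≤ Ts') (htt : t ≤ t') {X Y : ℝ}
    (hX : |(K'.P d ω t' - K.P d ω t).re| ≤ X) (hY : |(K'.P d ω t' - K.P d ω t).im| ≤ Y)
    (hX1 : X ≤ 19 / 10) (hY1 : Y ≤ P.r - 1 / 2) (hm : s % P.r = s' % P.r) : s = s' := by
  have h1 := t2_small P
  have h2 := t2_r P
  have h3 := P.r_big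
  have h4 := S'.lt
  have h0 := P.mn_pos 36 5
  obtain ⟨a1, a2⟩ := back L S S' ht ht' htt hX hY (by linarith)
  have h5 := L.path.startgeo d _ _ _ _ _ _ _ _ (2 * P.t2) (K.V 0) (Y + 1 / 100) _ _ s s' (t' - t)
    (ρ kb) K' (F.base kb hk).wray S'.stop.wray (by linarith [t1_le_t2 P]) (by linarith [S'.G1])
    (by linarith) (rng_le S.rng) (rng_le S'.rng) (by omega) S'.st S'.v0 S.v0 (by linarith) a2
  by_contra hne
  have h6 : (P.r : ℝ) ≤ |(s : ℝ) - s'| := by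
    have h7 : (P.r : ℤ) ∣ (s' : ℤ) - s := (Nat.modEq_iff_dvd).1 hm
    have h8 : (P.r : ℤ) ≤ |(s' : ℤ) - s| :=
      Int.le_of_dvd (abs_pos.2 (by omega)) ((dvd_abs _ _).2 h7)
    rw [abs_sub_comm]
    exact_mod_cast h8
  have h7 := mul_le_mul_of_nonneg_right h6 (show 0 ≤ 1 - 2 * (2 * P.t2) by linarith)
  linarith

/-- two short rays from different samples -/
lemma other (L : L2 ω) (F : Fam P d ω Ks ρ) (hk : kb ∈ Ks)
    (S : Shot P d ω Ks ρ kb kt s G K T1 Ts h) (S' : Shot P d ω Ks ρ kb' kt' s' G' K' T2 Ts' h')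
    {t t' : ℕ} (ht : t ≤ Ts) (ht' : t' ≤ Ts') (htt : t ≤ t')
    (hX : |(K'.P d ω t' - K.P d ω t).re| ≤ 1 / 50)
    (hY : |(K'.P d ω t' - K.P d ω t).im| ≤ P.r - 1 / 2) : kb = kb' := by
  by_contra hne
  have h1 := t2_small P
  have h2 := t2_r P
  have h3 := P.r_big
  have h4 := t1_le_t2 P
  have h0 := P.mn_pos 36 5
  have hs := rng_le S.rng
  have W := (F.base kb hk).wray
  obtain ⟨a1, a2⟩ := back L S S' ht ht' htt hX hY (by linarith)
  obtain ⟨a3, a4⟩ := L.path.start d _ _ _ _ (K.V 0) _ s (ρ kb) W hs S.v0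
  have hf := S'.far kb hk hne (t' - t) (by omega)
  have p1 : Pth (2 * P.t2) (2 * P.T0) ((ρ kb).Q d ω) := fun j hj =>
    (L.path.pth d _ _ _ _ _ _ W j hj).trans (by linarith)
  have p2 : Pth (1 / 1000) (2 * P.T0) ((ρ kb).Q d ω) := fun j hj => (p1 j hj).trans (by linarith)
  have c1 := abs_le.1 (W.v s hs)
  have c2 := abs_le.1 S.v0
  generalize K'.P d ω (t' - t) = z at *
  generalize ex d ω ((ρ kb).J s) (K.V 0) = y at *
  generalize (ρ kb).Q d ω = Q at *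
  have b1 := abs_le.1 (L.pth.geo _ _ _ 0 s p2 (by omega) hs).2
  have b2 := abs_le.1 (L.pth.geo _ _ _ s (2 * P.T0) p2 hs le_rfl).2
  have b3 : (P.n : ℝ) ≤ 2 * s := by exact_mod_cast S.rng.1
  have b4 : 2 * (s : ℝ) ≤ 7 * P.n := by exact_mod_cast S.rng.2
  have b5 := P.r_le_n
  have b6 := P.T0_eq
  simp only [sub_re, sub_im, Nat.cast_mul, Nat.cast_ofNat, Nat.cast_zero] at a1 a2 a3 a4 b1 b2
  rw [abs_le] at a1 a2 a3 a4
  obtain ⟨j, hj, b7⟩ := L.pth.ivt _ _ _ z.im p2 (by norm_num)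
    (by linarith [b2.2, a2.1, a4.1, c2.1]) (by linarith [b1.2, a2.2, a4.2, c2.2])
  have b8 := (PthA.geo' p1 hs hj).1
  have b9 := (PthA.geo' p2 hs hj).2
  simp only [sub_re, sub_im] at b8 b9
  have b10 : |(j : ℝ) - s| ≤ 2 * P.r := by
    rw [abs_le] at b7 b9
    rcases abs_cases ((j : ℝ) - s) with b11 | b11 <;>
      linarith [b11.1, b7.1, b7.2, b9.1, b9.2, a2.1, a2.2, a4.1, a4.2, c2.1, c2.2]
  have b11 := mul_le_mul_of_nonneg_left b10 (show 0 ≤ 2 * P.t2 by linarith)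
  have b12 := (hf j hj).trans_le (norm_le_abs_re_add_abs_im _)
  rw [abs_le] at b8
  have b13 : |z.re - (Q j).re| ≤ 2 := abs_le.2
    ⟨by linarith [a1.1, a3.1, b8.2, c1.2], by linarith [a1.2, a3.2, b8.1, c1.1]⟩
  simp only [sub_re, sub_im] at b12
  linarith

lemma disj (L : L2 ω) (F : Fam P d ω Ks ρ) (hk : kb ∈ Ks)
    (S : Shot P d ω Ks ρ kb kt s G K T1 Ts h) (S' : Shot P d ω Ks ρ kb' kt' s' G' K' T2 Ts' h')
    (hm : kb = kb' → s % P.r = s' % P.r ∧ s ≠ s') {t t' : ℕ} (ht : t ≤ Ts) (ht' : t' ≤ Ts')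
    (htt : t ≤ t') {z : ℂ}
    (h1 : |(z - K.P d ω t).re + 1 / 2| ≤ 1 / 100 ∧ 49 / 100 ≤ (z - K.P d ω t).im ∧
      (z - K.P d ω t).im ≤ P.r - 1 / 10)
    (h2 : |(z - K'.P d ω t').re + 1 / 2| ≤ 1 / 100 ∧ 49 / 100 ≤ (z - K'.P d ω t').im ∧
      (z - K'.P d ω t').im ≤ P.r - 1 / 10) : False := by
  obtain ⟨a1, a2, a3⟩ := h1
  obtain ⟨a4, a5, a6⟩ := h2
  simp only [sub_re, sub_im] at a1 a2 a3 a4 a5 a6
  rw [abs_le] at a1 a4
  have hX : |(K'.P d ω t' - K.P d ω t).re| ≤ 1 / 50 := by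
    rw [sub_re]
    exact abs_le.2 ⟨by linarith [a1.1, a4.2], by linarith [a1.2, a4.1]⟩
  have hY : |(K'.P d ω t' - K.P d ω t).im| ≤ P.r - 1 / 2 := by
    rw [sub_im]
    exact abs_le.2 ⟨by linarith, by linarith⟩
  obtain rfl := other L F hk S S' ht ht' htt hX hY
  exact (hm rfl).2 (same L F hk S S' ht ht' htt hX hY (by norm_num) le_rfl (hm rfl).1)

end Disj

theorem disjS (hω : Nm ω) (L : L2 ω) (h : SideS ω) : DisjS ω where
  inj P d Ks ρ kb kt s s' G G' K K' T1 T2 Ts Ts' h F hk S S' hm := by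
    have h3 := P.r_big
    have a1 := abs_le.1 S.im
    have a2 := abs_le.1 S'.im
    have a3 := S.re1
    have a4 := S.re2
    have a5 := S'.re1
    have a6 := S'.re2
    simp only [sub_re, sub_im] at a1 a2 a3 a4 a5 a6
    have hX : |(K'.P d ω Ts' - K.P d ω Ts).re| ≤ 19 / 10 := by
      rw [sub_re]
      exact abs_le.2 ⟨by linarith, by linarith⟩
    have hY : |(K'.P d ω Ts' - K.P d ω Ts).im| ≤ P.r - 1 / 2 := by
      rw [sub_im]
      exact abs_le.2 ⟨by linarith [a1.2, a2.1], by linarith [a1.1, a2.2]⟩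
    rcases le_total Ts Ts' with h1 | h1
    · exact Disj.same L F hk S S' le_rfl le_rfl h1 hX hY le_rfl le_rfl hm
    · rw [sub_re, abs_sub_comm, ← sub_re] at hX
      rw [sub_im, abs_sub_comm, ← sub_im] at hY
      exact (Disj.same L F hk S' S le_rfl le_rfl h1 hX hY le_rfl le_rfl hm.symm).symm
  disj P d Ks ρ kb kt kb' kt' s s' G G' K K' T1 T2 Ts Ts' h h' Z Z' F hk hk' S S' hm hZ hZ' := by
    rw [Finset.disjoint_left]
    intro i hi hi'
    obtain ⟨t, ht, h1⟩ := hZ i hi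
    obtain ⟨t', ht', h2⟩ := hZ' i hi'
    rcases le_total t t' with h3 | h3
    · exact Disj.disj L F hk S S' hm ht ht' h3 h1 h2
    · exact Disj.disj L F hk' S' S (fun e => ⟨(hm e.symm).1.symm, (hm e.symm).2.symm⟩) ht' ht h3
        h2 h1
  jinj P d Ks ρ k k' s s' F hk hk' hs hs' e := by
    have _ := hω
    have h1 := SideA.t1_small P
    have h3 := P.r_big
    obtain rfl : k = k' := by
      by_contra hne
      have a1 := (h.far P d Ks ρ k k' F hk hk' hne s' hs' s hs).trans_le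
        (norm_le_abs_re_add_abs_im _)
      obtain ⟨a2, a3⟩ := L.path.cen d _ _ _ _ _ s (ρ k) (F.base k hk).wray hs
      obtain ⟨a4, a5⟩ := L.path.cen d _ _ _ _ _ s' (ρ k') (F.base k' hk').wray hs'
      have a6 := abs_le.1 ((F.base k hk).wray.v s hs)
      have a7 := abs_le.1 ((F.base k' hk').wray.v s' hs')
      rw [← e] at a4 a5
      simp only [sub_re, sub_im] at a1 a2 a3 a4 a5
      rw [abs_le] at a2 a3 a4 a5
      have a8 : |((ρ k').Q d ω s').re - ((ρ k).Q d ω s).re| ≤ 2 := abs_le.2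
        ⟨by linarith [a2.1, a4.2, a6.2, a7.1], by linarith [a2.2, a4.1, a6.1, a7.2]⟩
      have a9 : |((ρ k').Q d ω s').im - ((ρ k).Q d ω s).im| ≤ 2 := abs_le.2
        ⟨by linarith [a3.1, a5.2], by linarith [a3.2, a5.1]⟩
      linarith
    exact ⟨rfl, L.w.inj _ _ _ _ _ _ (ρ k) s s' (F.base k hk).wray (by linarith) (by linarith) hs hs'
      e⟩

end Pool.Agent.MP_c59ecb_co.sh

end MrgPart5

-- ======== part 6: formerly Pool.Agent.MP_c59ecb_co.sh.RowTube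
section MrgPart6

/-! The tube between two rows. -/

set_option autoImplicit false

namespace Pool.Agent.MP_c59ecb_co.sh

open MeasureTheory Complex Pool.Agent.MP_c59ecb_co.h76

namespace RowTube

section num

variable (P : Pm)

lemma th1_t1 : P.th1 ≤ P.t1 := P.mn_mono (by norm_num) (by norm_num)

lemma th1_t2 : P.th1 ≤ P.t2 := P.mn_mono (by norm_num) (by norm_num)

lemma th1_small : 10 ^ 30 * P.th1 ≤ 1 := P.mn_small (by norm_num) (by norm_num)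

lemma eta_small : P.eta ≤ 1 / 100 := by
  linarith [P.mn_small (a := -40) (j := 4) (by norm_num) (by norm_num), P.mn_pos (-40) 4]

lemma tp' : TP P.r P.lam P.eta P.th1 (P.th1 + P.th1) :=
  P.tp (th1_t2 P) (by linarith [th1_t2 P, P.mn_pos 36 5])

lemma n_big : (10 : ℝ) ^ 30 ≤ P.n := by
  rw [P.n_eq]
  exact P.mn_big (by norm_num) (by norm_num)

lemma dl_r : P.dl * P.r = P.mn 24 10 := by
  rw [P.r_eq]
  exact P.mn_mul' rfl rfl

lemma s1 : 3 * P.th1 + 100 * (P.th1 + P.th1) ≤ P.dl / 4 * P.r / 10 := by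
  have h1 := dl_r P
  have h2 := P.mn_le (a := 3) (j := 10) (b := 24) (k := 10) (by norm_num) (by norm_num)
  have h3 := P.mn_pos 3 10
  have : P.dl / 4 * P.r / 10 = P.dl * P.r / 40 := by ring
  rw [this, h1]
  linarith

lemma s2 {g : ℝ} (hg : g ≤ P.vt) : 10 ^ 5 * (P.r : ℝ) ^ 2 * g ≤ P.dl / 4 := by
  have h1 : P.mn 60 0 * P.mn 0 11 = P.mn 60 11 := P.mn_mul' rfl rfl
  have h2 := P.mn_le (a := 60) (j := 11) (b := -6) (k := 10) (by norm_num) (by norm_num)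
  have h3 := mul_le_mul_of_nonneg_left hg (P.mn_nonneg 60 0)
  have h4 := P.mn_pos 60 11
  rw [P.r_sq]
  linarith

lemma s3 : P.vt < P.w1 := by
  linarith [P.mn_le (a := 0) (j := 11) (b := -67) (k := 10) (by norm_num) (by norm_num),
    P.mn_pos 0 11]

lemma s4 : 10 ^ 6 * (P.r : ℝ) ^ 2 * P.w1 ≤ P.dl / 4 := by
  have h1 : P.mn 60 0 * P.mn (-67) 10 = P.mn (-7) 10 := P.mn_mul' rfl rfl
  have h2 := P.mn_le (a := -7) (j := 10) (b := -6) (k := 10) (by norm_num) (by norm_num)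
  have h4 := P.mn_pos (-7) 10
  rw [P.r_sq]
  linarith

lemma s5 : (P.r : ℝ) * (P.dl / 4) ≤ 1 := by
  have h1 := dl_r P
  have h2 := P.mn_small (a := 24) (j := 10) (by norm_num) (by norm_num)
  have h3 := P.mn_pos 24 10
  linarith

lemma s6 {g u : ℝ} (hg : 0 ≤ g) (h : P.dl / 4 * u ≤ 10 ^ 6 * (P.r : ℝ) ^ 2 * g) :
    u ≤ P.La1 * g := by
  have h1 : P.mn (-6) 10 * P.mn 67 (-10) = P.mn 61 0 := P.mn_mul' rfl rfl
  have h2 := P.mn_le (a := 60) (j := 0) (b := 61) (k := 0) (by norm_num) (by norm_num)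
  have h3 := P.mn_pos 60 0
  have h4 : 0 < P.dl / 4 := by linarith [P.mn_pos (-6) 10]
  refine le_of_mul_le_mul_left (h.trans ?_) h4
  rw [P.r_sq]
  have h5 : P.dl / 4 * (P.La1 * g) = P.mn 61 0 / 4 * g := by rw [← h1]; ring
  rw [h5]
  exact mul_le_mul_of_nonneg_right (by linarith) hg

lemma err : 6 * P.th1 + 10 ^ 4 * P.th1 + 2 * (P.r + 3) * (P.R ^ 2 * P.vt) ≤ P.e * P.r * P.th := by
  have h1 : P.e * P.r * P.th = P.mn 29 10 := by
    rw [P.r_eq, P.mn_mul' (c := 29) (l := 0) rfl rfl]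
    exact P.mn_mul' rfl rfl
  have h2 : P.mn 60 0 * P.mn 0 11 = P.mn 60 11 := P.mn_mul' rfl rfl
  have h3 : P.mn 30 0 * P.mn 60 11 = P.mn 90 11 := P.mn_mul' rfl rfl
  have h4 : 2 * (P.r + 3) * (P.R ^ 2 * P.vt) = 200 * P.mn 90 11 + 600 * P.mn 60 11 := by
    rw [P.R_sq, mul_assoc 100, h2, P.r_eq, ← h3]
    ring
  have h5 := P.mn_le (a := 3) (j := 10) (b := 29) (k := 10) (by norm_num) (by norm_num)
  have h6 := P.mn_le (a := 90) (j := 11) (b := 29) (k := 10) (by norm_num) (by norm_num)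
  have h7 := P.mn_le (a := 60) (j := 11) (b := 29) (k := 10) (by norm_num) (by norm_num)
  rw [h1, h4]
  linarith [P.mn_pos 3 10, P.mn_pos 90 11, P.mn_pos 60 11]

lemma fac : (1 + 10 * P.lam) * ((1 - P.e) * P.r) ≤ P.r - 1 / 3 := by
  have h1 : P.e * P.r = P.mn 29 0 := by
    rw [P.r_eq]
    exact P.mn_mul' rfl rfl
  have h2 := P.mn_big (a := 29) (j := 0) (by norm_num) (by norm_num)
  have h3 := P.mn_le (a := 0) (j := 1) (b := -1) (k := 0) (by norm_num) (by norm_num)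
  have h4 := P.mn_pos 0 1
  have h5 := P.mn_pos (-1) 0
  have h6 : (0 : ℝ) ≤ P.r := Nat.cast_nonneg _
  have h7 : P.lam * P.r ≤ P.e / 20 * P.r := mul_le_mul_of_nonneg_right (by linarith) h6
  have h8 : 0 ≤ P.lam * (P.e * P.r) := by positivity
  nlinarith

/-- the final comparison -/
lemma fin {lam e r th p C E S : ℝ} (h0 : 0 ≤ lam) (hp : 0 ≤ p) (he : 0 ≤ e * r * th)
    (h1 : (1 + 10 * lam) * ((1 - e) * r) ≤ r - 1 / 3) (h2 : E ≤ e * r * th)
    (h3 : p * (r - 1 / 3) - E ≤ S) (h4 : S ≤ (1 + 10 * lam) * C) :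
    (1 - e) * r * p - e * r * th ≤ C := by
  have h5 : 0 < 1 + 10 * lam := by linarith
  refine le_of_mul_le_mul_left ?_ h5
  have h6 := mul_le_mul_of_nonneg_left h1 hp
  have h7 := mul_nonneg h0 he
  nlinarith

end num

variable {ι : Type} [Fintype ι] [DecidableEq ι] {ω : ι → ℂ}

lemma P0 {P : Pm} {c : ι → ℂ} {j : ℕ} {ρ : Ry ι} (h : Row P c ω j ρ) :
    (ρ.P c ω 0).re = -P.a - 10 ∧ (ρ.P c ω 0).im = -P.a + 1 / 2 + j + ρ.V 0 := by
  simp only [Ry.P, ex, h.w0, h.c0, one_mul, add_re, add_im]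
  constructor
  · ring
  · trivial

/-- the row ends in the right frame -/
lemma PT (L : L3 ω) {P : Pm} {c : ι → ℂ} {j : ℕ} {ρ : Ry ι} (h : Row P c ω j ρ) :
    P.a + 6 ≤ (ρ.P c ω P.T).re := by
  have h1 := (L.w.geo c _ _ _ _ _ ρ 0 P.T h.wray (Nat.zero_le _) le_rfl).1
  have h2 := (P0 h).1
  have h3 := th1_small P
  have h4 := P.mn_pos 3 10
  have h5 : P.th1 ^ 2 ≤ 1 / 1000 := by nlinarith
  have h6 : (0 : ℝ) ≤ P.T := Nat.cast_nonneg _
  have h7 := mul_le_mul_of_nonneg_left h5 h6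
  have h8 := P.T_eq
  have h9 := P.T1_ge
  have h10 := n_big P
  have h11 := P.two_a
  have h12 := P.eps_small
  rw [sub_re, h2] at h1
  simp only [Nat.cast_zero, sub_zero] at h1
  nlinarith

lemma cT (L : L3 ω) {P : Pm} {c : ι → ℂ} {j : ℕ} {ρ : Ry ι} (h : Row P c ω j ρ) :
    P.a + 5 ≤ (c (ρ.J P.T)).re := by
  have h1 := (L.w.cen c (ρ.J P.T) (ρ.V P.T) P.th1 (h.wray.tilt _ le_rfl) (h.wray.v _ le_rfl)).1
  have h2 := PT L h
  have h3 := th1_small P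
  rw [sub_re] at h1
  have h4 := (abs_le.1 h1).1
  unfold Ry.P at h2
  linarith

/-- the column at the start -/
lemma start {P : Pm} {c : ι → ℂ} {j : ℕ} {ρ ρ' : Ry ι} (hF : P.Fr c ω) (h : Row P c ω j ρ)
    (h' : Row P c ω (j + P.r) ρ') :
    ∃ A : ℕ → ι, A 0 = ρ.J 0 ∧ A P.r = ρ'.J 0 ∧ (∀ i ≤ P.r, ω (A i) = 1) ∧
      Col c ω P.eta (P.eta / 2) P.r A := by
  have hr : P.r ≠ 0 := by have := P.r_big'; omega
  have hn : j + P.r < P.n := by
    have h1 := h'.j2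
    have h2 : 0 < (P.n : ℝ) * P.e := mul_pos (by linarith [n_big P]) (P.mn_pos _ _)
    exact_mod_cast (show ((j + P.r : ℕ) : ℝ) < P.n by linarith)
  have key : ∀ i : ℕ, ∃ q : ι, (i = 0 → q = ρ.J 0) ∧ (i = P.r → q = ρ'.J 0) ∧
      (i ≤ P.r → ω q = 1 ∧ c q = ⟨-P.a - 21 / 2, -P.a + 1 / 2 + (j + i : ℕ)⟩) := by
    intro i
    by_cases h0 : i = 0
    · subst h0
      exact ⟨ρ.J 0, fun _ => rfl, fun h1 => absurd h1.symm hr, fun _ => ⟨h.w0, h.c0⟩⟩
    by_cases h1 : i = P.r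
    · subst h1
      exact ⟨ρ'.J 0, fun h2 => absurd h2 h0, fun _ => rfl, fun _ => ⟨h'.w0, h'.c0⟩⟩
    by_cases h2 : i ≤ P.r
    · obtain ⟨q, hq⟩ := hF.one.lft (j + i) (by omega)
      exact ⟨q, fun h3 => absurd h3 h0, fun h3 => absurd h3 h1, fun _ => hq⟩
    · exact ⟨ρ.J 0, fun _ => rfl, fun h3 => absurd h3 h1, fun h3 => absurd h3 h2⟩
  choose A hA using key
  have he := P.mn_pos (-40) 4
  refine ⟨A, (hA 0).1 rfl, (hA _).2.1 rfl, fun i hi => ((hA i).2.2 hi).1, fun i hi => ?_,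
    fun i hi => ?_⟩
  · rw [((hA i).2.2 hi).1, sub_self, norm_zero]
    exact he.le
  · obtain ⟨h1, h2⟩ := (hA i).2.2 hi.le
    obtain ⟨h3, h4⟩ := (hA (i + 1)).2.2 hi
    constructor
    · simp only [slip, h1, h2, h3, h4, tl, one_im, one_re, zero_div, add_zero, zero_mul, sub_self,
        abs_zero]
      linarith
    · simp only [h2, h4]
      push_cast
      rw [show -P.a + 1 / 2 + ((j : ℝ) + (i + 1)) - (-P.a + 1 / 2 + (j + i)) - 1 = 0 by ring,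
        abs_zero]
      exact he.le

/-- the total slip of a column of the tube -/
lemma slipT (L : L3 ω) {P : Pm} {c : ι → ℂ} {ρ ρ' : Ry ι} {m : ℕ → ℕ} {A : ℕ → ℕ → ι} {t : ℕ}
    {ζ : ℂ} {o : ℝ} (hT : Tube c ω P.r P.eta P.T ρ ρ' m A) (ht : t ≤ P.T)
    (hv : |ρ.V t| ≤ 1 / 2) (hv' : |ρ'.V t| ≤ 1 / 2) (h1 : ‖ζ‖ = 1) (h2 : ‖ζ - 1‖ ≤ 1 / 100)
    (h3 : ∀ i ≤ m t, ‖ω (A t i) - ζ‖ ≤ o) :
    |SS c ω (m t) (A t) - (ρ'.P c ω t - ρ.P c ω t).re - tl ζ * (ρ'.P c ω t - ρ.P c ω t).im| ≤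
      2 * (m t + 2) * o := by
  have h := L.col.approx c _ _ o (ρ.V t) (ρ'.V t) _ _ ζ (hT.col t ht) (eta_small P) h1 h2 h3 hv hv'
  rwa [hT.lo t ht, hT.hi t ht] at h

lemma slipF (L : L3 ω) {P : Pm} {c : ι → ℂ} {ρ ρ' : Ry ι} {m : ℕ → ℕ} {A : ℕ → ℕ → ι} {t : ℕ}
    (hT : Tube c ω P.r P.eta P.T ρ ρ' m A) (ht : t ≤ P.T)
    (hv : |ρ.V t| ≤ 1 / 2) (hv' : |ρ'.V t| ≤ 1 / 2) (h3 : ∀ i ≤ m t, ω (A t i) = 1) :
    |SS c ω (m t) (A t)| = |(ρ'.P c ω t - ρ.P c ω t).re| := by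
  have h := slipT L (ζ := 1) (o := 0) hT ht hv hv' norm_one (by simp)
    (fun i hi => by rw [h3 i hi, sub_self, norm_zero])
  simp only [tl, one_im, zero_div, zero_mul, sub_zero, mul_zero, abs_nonpos_iff] at h
  rw [sub_eq_zero.1 h]

end RowTube

open RowTube

variable {ι : Type} [Fintype ι] [DecidableEq ι] {ω : ι → ℂ}

theorem rowTubeS (hω : Nm ω) (L : L3 ω) : RowTubeS ω := by
  intro P c j ρ ρ' hF h h'
  obtain ⟨A0, a0, a1, a2, a3⟩ := start hF h h'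
  have hp := P0 h
  have hp' := P0 h'
  have hth := P.mn_pos 3 10
  have hsm := th1_small P
  have hD : |(ρ'.P c ω 0 - ρ.P c ω 0).im - P.r| ≤ 3 / 10 := by
    rw [sub_im, hp.2, hp'.2]
    push_cast
    have h1 := abs_le.1 h.v0
    have h2 := abs_le.1 h'.v0
    exact abs_le.2 ⟨by linarith, by linarith⟩
  obtain ⟨m, A, hT, m0, A0e, hb, hab⟩ := L.tube c P.r P.lam P.eta P.th1 P.w1 P.w1 P.th1 P.th1
    P.T 0 P.r ρ ρ' A0 (tp' P) h.wray h'.wray (Nat.zero_le _) hD a3 a0 a1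
  have hre : ∀ t ≤ P.T, |(ρ'.P c ω t - ρ.P c ω t).re| ≤ 3 * P.th1 := by
    intro t ht
    have h1 := (hb t ht).2.2
    rw [sub_re (ρ'.P c ω 0), hp.1, hp'.1, sub_self, sub_zero] at h1
    linarith
  have hin := fun t i (ht : t ≤ P.T) (hi : i ≤ m t) =>
    L.col.inn c P.r P.lam P.eta P.th1 _ P.T ρ ρ' m A t i (tp' P) hT ht (h.wray.v t ht)
      (h'.wray.v t ht) hi
  refine ⟨fun k hk hg hpk => ?_, Inn P.T m A, ?_, hab _ le_rfl, fun k hk hg => ?_⟩
  · refine s6 P (h.wray.g0 k) ?_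
    exact L.straight c P.r P.lam P.eta P.th1 P.w1 P.w1 P.th1 P.th1 (3 * P.th1) (P.dl / 4) P.T k
      ρ ρ' m A (tp' P) h.wray h'.wray hT hk (hre k hk.le) (by linarith [P.mn_pos (-6) 10]) hpk
      (s1 P) (s2 P hg) (hg.trans_lt (s3 P)) (s4 P) (s5 P)
  · refine ⟨ρ, ρ', P.T, h.wray.w0.mono (th1_t1 P) le_rfl (th1_t1 P),
      h'.wray.w0.mono (th1_t1 P) le_rfl (th1_t1 P), ?_, ?_, cT L h, cT L h', fun t ht => ?_,
      fun i hi => ?_⟩
    · rw [h.c0]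
      linarith
    · rw [h'.c0]
      linarith
    · exact ⟨by linarith [hre t ht, th1_t1 P], by linarith [(hb t ht).1]⟩
    · simp only [Inn, Mid, Finset.mem_biUnion, Finset.mem_image, Finset.mem_range,
        Finset.mem_Ioo] at hi
      obtain ⟨t, ht, i', ⟨h1, h2⟩, rfl⟩ := hi
      have ht' : t ≤ P.T := by omega
      obtain ⟨-, h3, h4, h5⟩ := hin t i' ht' h2.le
      exact ⟨t, ht', h3, by linarith [h4 h1], by linarith [h5 h2]⟩
  · have e0 : |SS c ω (m 0) (A 0)| ≤ 3 * P.th1 := by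
      rw [slipF L hT (Nat.zero_le _) (h.wray.v 0 (Nat.zero_le _)) (h'.wray.v 0 (Nat.zero_le _))
        (fun i hi => by rw [A0e]; exact a2 i (m0 ▸ hi))]
      exact hre 0 (Nat.zero_le _)
    have eT : |SS c ω (m P.T) (A P.T)| ≤ 3 * P.th1 := by
      rw [slipF L hT le_rfl (h.wray.v _ le_rfl) (h'.wray.v _ le_rfl) (fun i hi => ?_)]
      · exact hre _ le_rfl
      · have h1 := (abs_le.1 (hin P.T i le_rfl hi).2.1).1
        have h2 := PT L h
        rw [sub_re] at h1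
        exact (hF.one.out _ (Or.inl (le_trans (by linarith) (le_abs_self _)))).1
    have hr := P.r_big
    have ek := slipT L (ζ := ω (ρ.J k)) (o := P.R ^ 2 * ρ.g k) hT hk (h.wray.v k hk)
      (h'.wray.v k hk) (hω.1 _) ((h.wray.tilt k hk).trans (by linarith))
      (fun i hi => (h.wray.calm hk).ang _ ((hin k i hk hi).1.trans (by unfold Pm.R; linarith)))
    have hm : (m k : ℝ) ≤ P.r + 1 := by exact_mod_cast (hT.len k hk).2
    have ho : 2 * (m k + 2) * (P.R ^ 2 * ρ.g k) ≤ 2 * (P.r + 3) * (P.R ^ 2 * P.vt) :=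
      mul_le_mul (by linarith) (mul_le_mul_of_nonneg_left hg (sq_nonneg _))
        (mul_nonneg (sq_nonneg _) (h.wray.g0 k)) (by linarith)
    have him : P.r - 1 / 3 ≤ |(ρ'.P c ω k - ρ.P c ω k).im| :=
      le_trans (by linarith [(abs_le.1 (hb k hk).1).1]) (le_abs_self _)
    have hk1 : |ρ.p ω k| * (P.r - 1 / 3) ≤ |tl (ω (ρ.J k)) * (ρ'.P c ω k - ρ.P c ω k).im| := by
      rw [abs_mul]
      exact mul_le_mul_of_nonneg_left him (abs_nonneg _)
    have hk2 : |tl (ω (ρ.J k)) * (ρ'.P c ω k - ρ.P c ω k).im| ≤ |SS c ω (m k) (A k)| +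
        3 * P.th1 + 2 * (P.r + 3) * (P.R ^ 2 * P.vt) := by
      have h1 := abs_le.1 (ek.trans ho)
      have h2 := abs_le.1 (hre k hk)
      have h3 := le_abs_self (SS c ω (m k) (A k))
      have h4 := neg_abs_le (SS c ω (m k) (A k))
      exact abs_le.2 ⟨by linarith, by linarith⟩
    have htv := L.tv c P.r P.lam P.eta P.th1 P.w1 P.w1 P.th1 P.th1 P.T P.T k k k ρ ρ' m A
      (tp' P) h.wray h'.wray hT le_rfl le_rfl hk le_rfl
    rw [sub_self, abs_zero, add_zero, add_zero] at htv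
    have h1 := le_abs_self (|SS c ω (m k) (A k)| - |SS c ω (m 0) (A 0)|)
    have h2 := neg_abs_le (|SS c ω (m P.T) (A P.T)| - |SS c ω (m k) (A k)|)
    refine fin (S := |SS c ω (m k) (A k)| - 3 * P.th1 - 10 ^ 4 * P.th1) (P.mn_nonneg 0 1)
      (abs_nonneg _) ?_ (fac P) (err P) (by linarith) (by linarith)
    exact mul_nonneg (mul_nonneg (P.mn_nonneg _ _) (Nat.cast_nonneg _)) (P.mn_nonneg _ _)

end Pool.Agent.MP_c59ecb_co.sh

end MrgPart6

-- ======== part 7: formerly Pool.Agent.MP_c59ecb_co.sh.F1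
section MrgPart7

/-! The first family. -/

set_option autoImplicit false

namespace Pool.Agent.MP_c59ecb_co.sh

open MeasureTheory Complex Pool.Agent.MP_c59ecb_co.h76

namespace F1

/-- the maximum over quiet times -/
lemma top (T : ℕ) (q : ℕ → Prop) (p : ℕ → ℝ) :
    ∃ m : ℝ, (∀ k ≤ T, q k → p k ≤ m) ∧ (m = 0 ∨ ∃ k ≤ T, q k ∧ m = p k) := by
  classical
  rcases ((Finset.range (T + 1)).filter q).eq_empty_or_nonempty with h | h
  · refine ⟨0, fun k hk hq => ?_, Or.inl rfl⟩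
    have : k ∈ (Finset.range (T + 1)).filter q :=
      Finset.mem_filter.2 ⟨Finset.mem_range.2 (by omega), hq⟩
    rw [h] at this
    exact absurd this (Finset.notMem_empty _)
  · obtain ⟨k, hk, h1⟩ := Finset.exists_max_image _ p h
    obtain ⟨h2, h3⟩ := Finset.mem_filter.1 hk
    have h4 := Finset.mem_range.1 h2
    exact ⟨p k, fun i hi hq => h1 i (Finset.mem_filter.2 ⟨Finset.mem_range.2 (by omega), hq⟩),
      Or.inr ⟨k, by omega, h3, rfl⟩⟩

end F1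

open RowTube

variable {ι : Type} [Fintype ι] [DecidableEq ι] {ω : ι → ℂ}

theorem f1S (hω : Nm ω) (L : L4 ω) : F1S ω := by
  intro P c hF
  obtain ⟨o, S, ρ, hc, hr⟩ := L.rows P c hF
  have he : 10 ^ 30 * P.e ≤ 1 := P.mn_small (by norm_num) (by norm_num)
  have he0 := P.mn_pos (-1) 0
  have hr0 : (0 : ℝ) ≤ P.r := Nat.cast_nonneg _
  have hS : S.Nonempty := by
    rw [Finset.nonempty_iff_ne_empty]
    rintro rfl
    have h1 : 0 < (1 - 4 * P.e) * P.n := mul_pos (by linarith) (by linarith [n_big P])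
    rw [Finset.card_empty, Nat.cast_zero, mul_zero] at hc
    linarith
  have hZ : ∀ s : ℕ, ∃ Z : Finset ι, s ∈ S → Full P c ω (1 / 100) (4 * P.t1) Z ∧
      Above c ω P.r (ρ s) P.T Z ∧ ∀ k ≤ P.T, (ρ s).g k ≤ P.vt →
        (1 - P.e) * P.r * |(ρ s).p ω k| - P.e * P.r * P.th ≤ Cost c ω P.lam Z := by
    intro s
    by_cases hs : s ∈ S
    · obtain ⟨-, Z, h⟩ := L.rowtube P c _ _ _ hF (hr s hs).1 (hr s hs).2
      exact ⟨Z, fun _ => h⟩
    · exact ⟨∅, fun h => absurd h hs⟩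
  choose Z hZ using hZ
  choose ms hm using fun s : ℕ =>
    F1.top P.T (fun k => (ρ s).g k ≤ P.vt) (fun k => |(ρ s).p ω k|)
  obtain ⟨s0, hs0, hmin⟩ := Finset.exists_min_image S ms hS
  have h0 := (hr s0 hs0).1
  obtain ⟨m1, m2, m3⟩ := L.mass P c _ _ hF h0
  refine ⟨ms s0, ρ s0, S, -P.a + 1 / 2 + o, ρ, Z,
    ⟨h0.wray.w0, (L.rowtube P c _ _ _ hF h0 (hr s0 hs0).2).1, m1, L.low P c _ _ hF h0,
      (hm s0).1, m2, m3⟩,
    ⟨hc, fun s hs => (hZ s hs).1, fun s hs => ?_,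
      fun s hs => (hr s hs).1.wray.w0.mono (th1_t1 P) le_rfl (th1_t1 P), fun s hs => (hZ s hs).2.1,
      fun s hs => (P0 (hr s hs).1).1, fun s hs => ?_⟩⟩
  · have h1 : (1 - P.e) * P.r * ms s0 ≤ (1 - P.e) * P.r * ms s :=
      mul_le_mul_of_nonneg_left (hmin s hs) (mul_nonneg (by linarith) hr0)
    rcases (hm s).2 with h2 | ⟨k, hk, h2, h3⟩
    · have h3 : 0 ≤ P.e * P.r * P.th := mul_nonneg (mul_nonneg he0.le hr0) (P.mn_nonneg _ _)
      rw [h2, mul_zero] at h1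
      linarith [Cost_nonneg (c := c) (ω := ω) P.lam (Z s)]
    · rw [h3] at h1
      linarith [(hZ s hs).2.2 k hk h2]
  · rw [(P0 (hr s hs).1).2]
    push_cast
    rw [show -P.a + 1 / 2 + ((o : ℝ) + s * P.r) + (ρ s).V 0 - (-P.a + 1 / 2 + o + s * P.r) =
      (ρ s).V 0 by ring]
    exact (hr s hs).1.v0

end Pool.Agent.MP_c59ecb_co.sh

end MrgPart7

-- marker of a merged file
example : 731051 + 633171 = 731051 + 633171 := rfl
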