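import Pool.Agent.MP_c59ecb_co.sh.Side

/-! A ray stops on a column of stopping squares. -/

set_option autoImplicit false

namespace Pool.Agent.MP_c59ecb_co.sh

open MeasureTheory Complex Pool.Agent.MP_c59ecb_co.h76

namespace Hit

lemma last {x y : ℕ → ℝ} {T : ℕ}
    (h : ∀ k ≤ T, |x (k + 1) - x k - 1| ≤ 1 / 1000 ∧ |y (k + 1) - y k| ≤ 1 / 1000) (i : ℕ) :
    ∀ t ≤ T, -(11 / 20) < x t + i * (999 / 1000) → x t ≤ -(11 / 20) →
      ∃ u, t ≤ u ∧ u + 1 ≤ t + i ∧ u ≤ T ∧ x t ≤ x u ∧ x u ≤ -(11 / 20) ∧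
        |y u - y t| ≤ i / 1000 ∧ (u = T ∨ -(11 / 20) < x (u + 1)) := by
  induction i with
  | zero => intro t _ h1 h2; simp only [Nat.cast_zero, zero_mul, add_zero] at h1; linarith
  | succ i ih =>
    intro t ht h1 h2
    by_cases h3 : t = T ∨ -(11 / 20) < x (t + 1)
    · exact ⟨t, le_rfl, by omega, ht, le_rfl, h2, by rw [sub_self, abs_zero]; positivity, h3⟩
    · obtain ⟨h4, h5⟩ := not_or.1 h3
      obtain ⟨a1, a2⟩ := h t ht
      rw [abs_le] at a1 a2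
      push_cast at h1 ⊢
      obtain ⟨u, b1, b2, b3, b4, b5, b6, b7⟩ :=
        ih (t + 1) (by omega) (by linarith [a1.1]) (not_lt.1 h5)
      rw [abs_le] at b6
      exact ⟨u, by omega, by omega, b3, by linarith [a1.1], b5,
        abs_le.2 ⟨by linarith [a2.1, b6.1], by linarith [a2.2, b6.2]⟩, b7⟩

variable {ι : Type} [Fintype ι] [DecidableEq ι] {ω : ι → ℂ}

lemma geo (L : L1 ω) {d : ι → ℂ} {η s : ℝ} {m : ℕ} {C : ℕ → ι} (hC : Col d ω η s m C)
    (h1 : η ≤ 1 / 1000) (h2 : s ≤ 1 / 1000) (a k : ℕ) (hk : a + k ≤ m) :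
    |(d (C (a + k))).re - (d (C a)).re| ≤ k * (3 / 1000) ∧
      |(d (C (a + k))).im - (d (C a)).im - k| ≤ k * (1 / 1000) := by
  have h := L.col.geo d η s m C a (a + k) hC (by linarith) (by omega) hk
  have e : ((a + k : ℕ) : ℝ) - a = k := by push_cast; ring
  rw [e] at h
  have k0 : (0 : ℝ) ≤ k := Nat.cast_nonneg k
  exact ⟨h.1.trans (mul_le_mul_of_nonneg_left (by linarith) k0),
    h.2.trans (mul_le_mul_of_nonneg_left h1 k0)⟩

lemma near (L : L1 ω) {d : ι → ℂ} {η s : ℝ} {m i : ℕ} {C : ℕ → ι} (hC : Col d ω η s m C)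
    (h1 : η ≤ 1 / 1000) (h2 : s ≤ 1 / 1000) (hi : i + 4 ≤ m) {y : ℝ}
    (hy : |y - (d (C (i + 2))).im| ≤ 21 / 10) : ∃ j, i ≤ j ∧ j ≤ i + 4 ∧
      |(d (C j)).re - (d (C (i + 2))).re| ≤ 1 / 100 ∧ |(d (C j)).im - y| ≤ 51 / 100 := by
  obtain ⟨a1, a2⟩ := geo L hC h1 h2 i 2 (by omega)
  obtain ⟨b1, b2⟩ := geo L hC h1 h2 (i + 1) 1 (by omega)
  obtain ⟨c1, c2⟩ := geo L hC h1 h2 (i + 2) 1 (by omega)
  obtain ⟨d1, d2⟩ := geo L hC h1 h2 (i + 2) 2 (by omega)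
  rw [show i + 1 + 1 = i + 2 from rfl] at b1 b2
  push_cast at a1 a2 b1 b2 c1 c2 d1 d2
  rw [abs_le] at hy a1 a2 b1 b2 c1 c2 d1 d2
  rcases le_total (y - (d (C (i + 2))).im) (-(3 / 2)) with e1 | e1
  · exact ⟨i, by omega, by omega, abs_le.2 ⟨by linarith, by linarith⟩,
      abs_le.2 ⟨by linarith, by linarith⟩⟩
  rcases le_total (y - (d (C (i + 2))).im) (-(1 / 2)) with e2 | e2
  · exact ⟨i + 1, by omega, by omega, abs_le.2 ⟨by linarith, by linarith⟩,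
      abs_le.2 ⟨by linarith, by linarith⟩⟩
  rcases le_total (y - (d (C (i + 2))).im) (1 / 2) with e3 | e3
  · exact ⟨i + 2, by omega, by omega, abs_le.2 ⟨by linarith, by linarith⟩,
      abs_le.2 ⟨by linarith, by linarith⟩⟩
  rcases le_total (y - (d (C (i + 2))).im) (3 / 2) with e4 | e4
  · exact ⟨i + 2 + 1, by omega, by omega, abs_le.2 ⟨by linarith, by linarith⟩,
      abs_le.2 ⟨by linarith, by linarith⟩⟩
  · exact ⟨i + 2 + 2, by omega, by omega, abs_le.2 ⟨by linarith, by linarith⟩,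
      abs_le.2 ⟨by linarith, by linarith⟩⟩

omit [Fintype ι] [DecidableEq ι] in
lemma nrm {d : ι → ℂ} {O q : ι} {a b : ℝ} (h1 : |(d q).re - (d O).re| ≤ a)
    (h2 : |(d q).im - (d O).im| ≤ b) : ‖d q - d O‖ ≤ a + b :=
  (norm_le_abs_re_add_abs_im _).trans (add_le_add h1 h2)

omit [Fintype ι] [DecidableEq ι] in
lemma ins (hω : Nm ω) {d : ι → ℂ} {O q : ι} (h : ‖d q - d O‖ ≤ 8) :
    Ins (LU d ω O) (LW d ω O) 10 q := by
  have e : ‖loc (d O) (ω O) (d q)‖ ≤ 10 - 2 := by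
    rw [loc, norm_mul, Complex.norm_conj, hω.1, mul_one]
    linarith
  exact ⟨(abs_re_le_norm _).trans e, (abs_im_le_norm _).trans e⟩

lemma coord (L : L1 ω) {d : ι → ℂ} {O i j : ι} (h0 : ‖ω O - 1‖ ≤ 1 / 1000)
    (h : ‖d j - d i‖ ≤ 5) :
    |LU d ω O j - LU d ω O i - ((d j).re - (d i).re)| ≤ 1 / 200 ∧
      |LW d ω O j - LW d ω O i - ((d j).im - (d i).im)| ≤ 1 / 200 := by
  have := L.col.coord d O i j _ h0
  exact ⟨this.1.trans (by linarith), this.2.trans (by linarith)⟩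

end Hit

variable {ι : Type} [Fintype ι] [DecidableEq ι] {ω : ι → ℂ}

theorem hitS (hω : Nm ω) (L : L1 ω) : HitS ω := by
  intro P d w τ G η s St T T' m t j0 K C hS hτ hC hη hs hSt ht hT hj hjm x1 x2 y1 hN
  obtain ⟨i, rfl⟩ : ∃ i, j0 = i + 2 := ⟨j0 - 2, by omega⟩
  have hW := hS.wray
  have τ0 := hW.τ0
  have G0 := hW.G0
  have tl : ∀ k ≤ T' + 1, ‖ω (K.J k) - 1‖ ≤ τ := fun k hk => by
    rcases hk.eq_or_lt with rfl | hk
    · exact hS.tlt
    · exact hW.tilt k (by omega)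
  have vl : ∀ k ≤ T' + 1, |K.V k| ≤ 1 / 2 := fun k hk => by
    rcases hk.eq_or_lt with rfl | hk
    · exact hS.vl
    · exact hW.v k (by omega)
  have st : ∀ k ≤ T', |(K.P d ω (k + 1)).re - (K.P d ω k).re - 1| ≤ 1 / 1000 ∧
      |(K.P d ω (k + 1)).im - (K.P d ω k).im| ≤ 1 / 1000 := fun k hk => by
    have h1 : ‖K.P d ω (k + 1) - K.P d ω k - ω (K.J (k + 1))‖ ≤ K.g k := by
      rcases hk.eq_or_lt with rfl | hk
      · exact hS.last.norm hω
      · exact (hW.step' hk).norm hω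
    have h2 : ‖K.P d ω (k + 1) - K.P d ω k - 1‖ ≤ 1 / 1000 := by
      have := norm_sub_le_norm_sub_add_norm_sub (K.P d ω (k + 1) - K.P d ω k) (ω (K.J (k + 1))) 1
      linarith [hW.le hk, tl (k + 1) (by omega)]
    exact ⟨by simpa using (abs_re_le_norm _).trans h2, by simpa using (abs_im_le_norm _).trans h2⟩
  have cn : ∀ k ≤ T' + 1, |(d (K.J k)).re - (K.P d ω k).re + 1 / 2| ≤ 1 / 1000 ∧
      |(d (K.J k)).im - (K.P d ω k).im| ≤ 501 / 1000 := fun k hk => by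
    obtain ⟨h1, h2, -⟩ := L.w.cen d (K.J k) (K.V k) τ (tl k hk) (vl k hk)
    have h3 := vl k hk
    rw [sub_re] at h1
    rw [sub_im] at h2
    rw [abs_le] at h2 h3
    exact ⟨h1.trans (by linarith), abs_le.2 ⟨by unfold Ry.P; linarith, by unfold Ry.P; linarith⟩⟩
  rw [sub_re] at x1 x2
  rw [sub_im, abs_le] at y1
  obtain ⟨u, u1, u2, u3, u4, u5, u6, u7⟩ := Hit.last
    (x := fun k => (K.P d ω k).re - (d (C (i + 2))).re) (y := fun k => (K.P d ω k).im) (T := T')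
    (fun k hk => ⟨by rw [sub_sub_sub_cancel_right]; exact (st k hk).1, (st k hk).2⟩) 7 t ht
    (by push_cast; linarith) x2
  push_cast at u6
  obtain ⟨s1, s2⟩ := st u u3
  obtain ⟨c1, c2⟩ := cn (u + 1) (by omega)
  rw [abs_le] at u6 s1 s2 c1 c2
  rcases u3.eq_or_lt with rfl | u3
  · have hy : |(d (K.J (u + 1))).im - (d (C (i + 2))).im| ≤ 21 / 10 :=
      abs_le.2 ⟨by linarith, by linarith⟩
    have hx : |(d (K.J (u + 1))).re - (d (C (i + 2))).re| ≤ 8 :=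
      abs_le.2 ⟨by linarith, by linarith⟩
    obtain ⟨j, j1, j2⟩ := hN _ (hS.stop.resolve_left (by omega)) ((Hit.nrm hx hy).trans (by norm_num))
    refine ⟨by omega, j, j1, j2, ?_, ?_⟩
    · by_contra hc
      obtain ⟨k, rfl⟩ : ∃ k, j = i + 2 + (k + 3) := ⟨j - (i + 5), by omega⟩
      have h1 := (Hit.geo L hC hη hs (i + 2) (k + 3) j1).2
      rw [← j2, abs_le] at h1
      rw [abs_le] at hy
      push_cast at h1
      linarith [h1.1, hy.2, (Nat.cast_nonneg k : (0 : ℝ) ≤ k)]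
    · by_contra hc
      obtain ⟨k, e⟩ : ∃ k, i + 2 = j + (k + 3) := ⟨i + 2 - (j + 3), by omega⟩
      have h1 := (Hit.geo L hC hη hs j (k + 3) (by omega)).2
      rw [← e, ← j2, abs_le] at h1
      rw [abs_le] at hy
      push_cast at h1
      linarith [h1.1, hy.1, (Nat.cast_nonneg k : (0 : ℝ) ≤ k)]
  · have u8 := u7.resolve_left u3.ne
    obtain ⟨s3, s4⟩ := st (u + 1) u3
    obtain ⟨c3, c4⟩ := cn (u + 1 + 1) (by omega)
    rw [abs_le] at s3 s4 c3 c4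
    have hμ : K.g (u + 1) ≤ 1 / 1000 := by linarith [hW.le (k := u + 1) u3]
    have hL := L.calm.lm d _ 10 15 _ (hW.c1 (u + 1) u3) (by norm_num) (by norm_num)
    have hO : ‖ω (K.J (u + 1)) - 1‖ ≤ 1 / 1000 := by linarith [tl (u + 1) (by omega)]
    obtain ⟨j, j1, j2, j3, j4⟩ := Hit.near L hC hη hs (i := i) (by omega)
      (y := (d (K.J (u + 1))).im) (abs_le.2 ⟨by linarith, by linarith⟩)
    obtain ⟨j', k1, k2, k3, k4⟩ := Hit.near L hC hη hs (i := i) (by omega)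
      (y := (d (K.J (u + 1 + 1))).im) (abs_le.2 ⟨by linarith, by linarith⟩)
    rw [abs_le] at j3 j4 k3 k4
    have n0 : ‖d (K.J (u + 1)) - d (K.J (u + 1))‖ ≤ 8 := by simp
    have n1 : ‖d (C j) - d (K.J (u + 1))‖ ≤ 2 + 1 :=
      Hit.nrm (abs_le.2 ⟨by linarith, by linarith⟩) (abs_le.2 ⟨by linarith, by linarith⟩)
    have n2 : ‖d (K.J (u + 1 + 1)) - d (K.J (u + 1))‖ ≤ 2 + 2 :=
      Hit.nrm (abs_le.2 ⟨by linarith, by linarith⟩) (abs_le.2 ⟨by linarith, by linarith⟩)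
    have n3 : ‖d (C j') - d (K.J (u + 1))‖ ≤ 2 + 2 :=
      Hit.nrm (abs_le.2 ⟨by linarith, by linarith⟩) (abs_le.2 ⟨by linarith, by linarith⟩)
    have n4 : ‖d (C j') - d (K.J (u + 1 + 1))‖ ≤ 2 + 1 :=
      Hit.nrm (abs_le.2 ⟨by linarith, by linarith⟩) (abs_le.2 ⟨by linarith, by linarith⟩)
    obtain ⟨e1, e2⟩ := Hit.coord L hO (n1.trans (by norm_num))
    obtain ⟨e3, e4⟩ := Hit.coord L hO (n4.trans (by norm_num))
    rw [abs_le] at e1 e2 e3 e4
    have i0 := Hit.ins hω n0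
    have i1 := Hit.ins hω (n1.trans (by norm_num))
    have i2 := Hit.ins hω (n2.trans (by norm_num))
    have i3 := Hit.ins hω (n3.trans (by norm_num))
    have hWd : |LW d ω (K.J (u + 1)) (C j) - LW d ω (K.J (u + 1)) (K.J (u + 1))| ≤ 4 / 5 :=
      abs_le.2 ⟨by linarith, by linarith⟩
    have hU : 4 / 5 < LU d ω (K.J (u + 1)) (C j) - LU d ω (K.J (u + 1)) (K.J (u + 1)) := by
      by_contra hc
      have := L.loc.same _ _ _ _ _ _ _ (hW.g0 _) hμ hL i0 i1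
        (abs_le.2 ⟨by linarith, not_lt.1 hc⟩) hWd
      exact hS.avoid (u + 1) (by omega) u3 (this ▸ hSt j (by omega))
    have h1 := L.loc.hc _ _ _ _ _ _ _ (hW.g0 _) hμ hL i0 i1 hWd (by linarith) (by linarith)
    rw [abs_le] at h1
    have h2 := L.loc.same _ _ _ _ _ _ _ (hW.g0 _) hμ hL i2 i3
      (abs_le.2 ⟨by linarith, by linarith⟩) (abs_le.2 ⟨by linarith, by linarith⟩)
    have h3 : u + 1 = T' := by
      by_contra hc
      exact hS.avoid (u + 1 + 1) (by omega) (by omega) (h2 ▸ hSt j' (by omega))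
    subst h3
    exact ⟨by omega, j', by omega, h2, by omega, by omega⟩

end Pool.Agent.MP_c59ecb_co.sh
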