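import Pool.Agent.MP_c59ecb_co.sh.Side

-- ======== part 0: formerly Pool.Agent.MP_c59ecb_co.sh.Tilt
section MrgPart0

/-! Tilts of unit vectors and the geometry of columns. -/

set_option autoImplicit false

namespace Pool.Agent.MP_c59ecb_co.sh

open MeasureTheory Complex Pool.Agent.MP_c59ecb_co.h76

namespace TiltP

lemma unit {u : ℂ} (h : ‖u‖ = 1) : u.re ^ 2 + u.im ^ 2 = 1 := by
  have := Complex.sq_norm u
  rw [h, normSq_apply] at this
  linarith

lemma sq_sub (u v : ℂ) : ‖u - v‖ ^ 2 = (u.re - v.re) ^ 2 + (u.im - v.im) ^ 2 := by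
  rw [Complex.sq_norm, normSq_apply, sub_re, sub_im]
  ring

lemma re_ge {u : ℂ} (h : ‖u‖ = 1) (h1 : ‖u - 1‖ ≤ 1 / 100) : 9999 / 10000 ≤ u.re := by
  have e := sq_sub u 1
  have := unit h
  simp only [one_re, one_im, sub_zero] at e
  nlinarith [norm_nonneg (u - 1)]

lemma re_le {u : ℂ} (h : ‖u‖ = 1) : u.re ≤ 1 := h ▸ re_le_norm u

lemma im_le (u : ℂ) : |u.im| ≤ ‖u - 1‖ := by simpa using abs_im_le_norm (u - 1)

lemma re_sub_le (u : ℂ) : |u.re - 1| ≤ ‖u - 1‖ := by simpa using abs_re_le_norm (u - 1)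

lemma lip {u v : ℂ} (hu : ‖u‖ = 1) (hv : ‖v‖ = 1) (h1 : ‖u - 1‖ ≤ 1 / 100)
    (h2 : ‖v - 1‖ ≤ 1 / 100) :
    |tl u - tl v| ≤ 101 / 100 * ‖u - v‖ ∧ ‖u - v‖ ≤ |tl u - tl v| := by
  have a1 := unit hu
  have a2 := unit hv
  have b1 := re_ge hu h1
  have b2 := re_ge hv h2
  have c1 := re_le hu
  have c2 := re_le hv
  have e := sq_sub u v
  have n := norm_nonneg (u - v)
  have p : 9998 / 10000 ≤ u.re * v.re := by nlinarith
  have p1 : u.re * v.re ≤ 1 := by nlinarith
  have t : tl u - tl v = (u.im * v.re - v.im * u.re) / (u.re * v.re) := by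
    unfold tl
    rw [div_sub_div _ _ (by linarith) (by linarith)]
    ring
  have d : ‖u - v‖ ^ 2 = 2 * (1 - (u.re * v.re + u.im * v.im)) := by linarith
  have x : (u.im * v.re - v.im * u.re) ^ 2 =
      (1 - (u.re * v.re + u.im * v.im)) * (1 + (u.re * v.re + u.im * v.im)) := by
    linear_combination (v.re ^ 2 + v.im ^ 2) * a1 + a2
  have l : 2 * (u.re * v.re) ≤ 1 + (u.re * v.re + u.im * v.im) := by
    nlinarith [sq_nonneg (u.im + v.im), sq_nonneg (u.re - v.re)]
  rw [t, abs_div, abs_of_pos (by linarith : 0 < u.re * v.re), div_le_iff₀ (by linarith),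
    le_div_iff₀ (by linarith)]
  generalize u.re * v.re = P at *
  generalize u.im * v.im = Q at *
  generalize u.im * v.re - v.im * u.re = X at *
  generalize ‖u - v‖ = N at *
  have q : 0 ≤ 1 - (P + Q) := by nlinarith
  constructor
  · have : |X| ≤ N := abs_le_of_sq_le_sq' (by nlinarith) n |> abs_le.2
    nlinarith
  · refine (sq_le_sq₀ (by positivity) (abs_nonneg _)).1 ?_
    rw [sq_abs, mul_pow, d, x]
    have : 2 * P ^ 2 ≤ 1 + (P + Q) := by nlinarith
    nlinarith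

lemma tl_one : tl 1 = 0 := by simp [tl]

lemma tl_sq {u : ℂ} (hu : ‖u‖ = 1) (h : 0 < u.re) : tl u ^ 2 = 1 / u.re ^ 2 - 1 := by
  have := unit hu
  unfold tl
  field_simp
  linarith

lemma tl_le {u : ℂ} (hu : ‖u‖ = 1) (h1 : ‖u - 1‖ ≤ 1 / 100) : |tl u| ≤ 101 / 100 * ‖u - 1‖ := by
  simpa [tl_one] using (lip hu norm_one h1 (by simp)).1

lemma half {u v : ℂ} {τ : ℝ} (hu : ‖u‖ = 1) (hv : ‖v‖ = 1) (h1 : ‖u - 1‖ ≤ τ) (h2 : ‖v - 1‖ ≤ τ)
    (h : τ ≤ 1 / 100) : |1 / (2 * u.re) - 1 / (2 * v.re)| ≤ τ * ‖u - v‖ := by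
  have a1 := unit hu
  have a2 := unit hv
  have b1 := re_ge hu (h1.trans h)
  have b2 := re_ge hv (h2.trans h)
  have n := norm_nonneg (u - v)
  have t0 : 0 ≤ τ := (norm_nonneg _).trans h1
  have s1 : |u.im - v.im| ≤ ‖u - v‖ := by simpa using abs_im_le_norm (u - v)
  have s2 : |u.im + v.im| ≤ 2 * τ := by
    linarith [abs_add_le u.im v.im, im_le u, im_le v]
  have e : 1 / (2 * u.re) - 1 / (2 * v.re) =
      (u.im - v.im) * (u.im + v.im) / (2 * (u.re * v.re * (u.re + v.re))) := by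
    have : u.re ≠ 0 := by linarith
    have : v.re ≠ 0 := by linarith
    have : u.re + v.re ≠ 0 := by linarith
    field_simp
    linarith
  have p : 9998 / 10000 ≤ u.re * v.re := by nlinarith
  have p' : 1 ≤ u.re * v.re * (u.re + v.re) := by nlinarith
  rw [e, abs_div, abs_mul, abs_of_pos (by linarith : 0 < 2 * (u.re * v.re * (u.re + v.re))),
    div_le_iff₀ (by linarith)]
  calc |u.im - v.im| * |u.im + v.im| ≤ ‖u - v‖ * (2 * τ) := by gcongr
    _ = τ * ‖u - v‖ * (2 * 1) := by ring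
    _ ≤ _ := by gcongr

lemma ex_re {ι : Type} (c ω : ι → ℂ) (i : ι) (v : ℝ) :
    (ex c ω i v).re = (c i).re + (ω i).re / 2 - (ω i).im * v := by
  simp only [ex, add_re, mul_re]
  ring

lemma ex_im {ι : Type} (c ω : ι → ℂ) (i : ι) (v : ℝ) :
    (ex c ω i v).im = (c i).im + (ω i).im / 2 + (ω i).re * v := by
  simp only [ex, add_im, mul_im]
  ring

lemma mul_le {a b A B : ℝ} (ha : |a| ≤ A) (hb : |b| ≤ B) : |a * b| ≤ A * B := by
  rw [abs_mul]
  exact mul_le_mul ha hb (abs_nonneg _) ((abs_nonneg _).trans ha)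

variable {ι : Type} {ω : ι → ℂ}

lemma geo (hω : Nm ω) {c : ι → ℂ} {η s : ℝ} {m : ℕ} {A : ℕ → ι} {a b : ℕ} (h : Col c ω η s m A)
    (hη : η ≤ 1 / 100) (hab : a ≤ b) (hb : b ≤ m) :
    |(c (A b)).re - (c (A a)).re| ≤ (b - a) * (s + 2 * η) ∧
      |(c (A b)).im - (c (A a)).im - (b - a)| ≤ (b - a) * η := by
  induction b, hab using Nat.le_induction with
  | base => simp
  | succ b _ ih =>
    obtain ⟨i1, i2⟩ := ih (by omega)
    obtain ⟨j1, j2⟩ := h.2 b hb
    have k1 := h.1 b (by omega)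
    have k2 := h.1 (b + 1) hb
    have t1 := tl_le (hω.1 _) (k1.trans hη)
    have t2 := tl_le (hω.1 _) (k2.trans hη)
    have h0 : 0 ≤ η := (norm_nonneg _).trans k1
    have m1 := mul_le (A := 3 * η) (B := 4 / 3)
      (a := tl (ω (A b)) + tl (ω (A (b + 1)))) (b := (c (A (b + 1))).im - (c (A b)).im)
      ((abs_add_le _ _).trans (by linarith)) (by rw [abs_le] at j2 ⊢; constructor <;> linarith)
    unfold slip at j1
    push_cast
    simp only [abs_le] at i1 i2 j1 j2 m1 ⊢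
    constructor <;> constructor <;>
      linarith [i1.1, i1.2, i2.1, i2.2, j1.1, j1.2, j2.1, j2.2, m1.1, m1.2]

lemma tele {c : ι → ℂ} {η s o : ℝ} {m : ℕ} {A : ℕ → ι} {ζ : ℂ} (h : Col c ω η s m A)
    (hη : η ≤ 1 / 100) (hp : ∀ j ≤ m, |tl (ω (A j)) - tl ζ| ≤ 101 / 100 * o) (k : ℕ)
    (hk : k ≤ m) : |SS c ω k A - ((c (A k)).re - (c (A 0)).re) -
      tl ζ * ((c (A k)).im - (c (A 0)).im)| ≤ 2 * k * o := by
  induction k with
  | zero => simp [SS]
  | succ k ih =>
    have i := ih (by omega)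
    have j2 := (h.2 k hk).2
    have h0 : 0 ≤ o := by linarith [abs_nonneg (tl (ω (A 0)) - tl ζ), hp 0 (Nat.zero_le _)]
    have m1 := mul_le (A := 3 * o) (B := 4 / 3)
      (a := (tl (ω (A k)) - tl ζ) + (tl (ω (A (k + 1))) - tl ζ))
      (b := (c (A (k + 1))).im - (c (A k)).im)
      ((abs_add_le _ _).trans (by linarith [hp k (by omega), hp (k + 1) hk]))
      (by rw [abs_le] at j2 ⊢; constructor <;> linarith)
    unfold SS at i ⊢
    rw [Finset.sum_range_succ, slip]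
    push_cast
    rw [abs_le] at *
    constructor <;> linarith

lemma exit (hω : Nm ω) (c : ι → ℂ) (i : ι) {v : ℝ} (h : ‖ω i - 1‖ ≤ 1 / 100) (hv : |v| ≤ 1 / 2) :
    (ex c ω i v).re = (c i).re + 1 / (2 * (ω i).re) - tl (ω i) * ((ex c ω i v).im - (c i).im) ∧
      |(ex c ω i v).im - (c i).im| ≤ 1 := by
  have a := unit (hω.1 i)
  have b := re_ge (hω.1 i) h
  have b' := re_le (hω.1 i)
  rw [ex_re, ex_im]
  constructor
  · have : (ω i).re ≠ 0 := by linarith
    unfold tl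
    field_simp
    linarith
  · have m := mul_le (a := (ω i).re) (A := 1) (abs_le.2 ⟨by linarith, b'⟩) hv
    have := (im_le (ω i)).trans h
    rw [abs_le] at *
    constructor <;> linarith

end TiltP

open TiltP

theorem tiltS : TiltS := by
  refine ⟨fun u v => lip, fun u hu h => ?_, fun u v hu hv h1 h2 h => ?_, fun u v τ => half⟩
  · have a := unit hu
    have b := re_ge hu h
    have c := re_le hu
    have p : 0 < u.re := by linarith
    have e : |tl u| = |u.im| / u.re := by rw [tl, abs_div, abs_of_pos p]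
    refine ⟨tl_le hu h, by simpa [tl_one] using (lip hu norm_one h (by simp)).2, ?_, ?_,
      by unfold gh; linarith, ?_, b⟩
    · rw [e, le_div_iff₀ p]
      exact mul_le_of_le_one_right (abs_nonneg _) c
    · have e' : tl u - u.im = tl u * (1 - u.re) := by
        unfold tl
        field_simp
      rw [e', abs_mul, abs_of_nonneg (sub_nonneg.2 c), pow_succ', sq_abs, tl_sq hu p]
      refine mul_le_mul_of_nonneg_left ?_ (abs_nonneg _)
      rw [le_sub_iff_add_le, le_div_iff₀ (by positivity)]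
      nlinarith [mul_nonneg (sub_nonneg.2 c) (by nlinarith : 0 ≤ 1 + u.re - u.re ^ 2)]
    · rw [tl_sq hu p, gh, le_div_iff₀ two_pos, le_sub_iff_add_le, le_div_iff₀ (by positivity)]
      nlinarith [mul_nonneg (sq_nonneg (1 - u.re)) (by linarith : 0 ≤ 1 + 2 * u.re)]
  · have b1 := re_ge hu h1
    have b2 := re_ge hv h2
    have c1 := re_le hu
    have c2 := re_le hv
    have p1 : 0 < u.re := by linarith
    have p2 : 0 < v.re := by linarith
    have s := sq_le_sq.2 h
    rw [tl_sq hu p1, tl_sq hv p2] at s ⊢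
    have l : u.re ≤ v.re := by
      have := (one_div_le_one_div (by positivity) (by positivity)).1 (sub_le_sub_iff_right _ |>.1 s)
      exact (sq_le_sq₀ p1.le p2.le).1 this
    unfold gh
    refine ⟨by linarith, ?_⟩
    have e : (1 / u.re ^ 2 - 1 - (1 / v.re ^ 2 - 1)) / 2 =
        (v.re - u.re) * ((u.re + v.re) / (2 * (u.re * v.re) ^ 2)) := by
      field_simp
      ring
    have q : u.re * v.re ≤ u.re := mul_le_of_le_one_right p1.le c2
    have q' : 0 < u.re * v.re := by positivity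
    have : 1 ≤ (u.re + v.re) / (2 * (u.re * v.re) ^ 2) := by
      rw [le_div_iff₀ (by positivity)]
      nlinarith
    rw [e]
    nlinarith

variable {ι : Type} [Fintype ι] [DecidableEq ι] {ω : ι → ℂ}

theorem colS (hω : Nm ω) (L : L0) : ColS ω := by
  refine ⟨fun c η s m A a b => geo hω, fun c O i j μ hO hi hj h1 h2 hy => ?_,
    fun c O i j τ h => ?_, fun c η s o v v' m A ζ h hη z1 z2 ho hv hv' => ?_,
    fun c r lam η τ G T ρ ρ' m A t j tp tb ht hv hv' hj => ?_⟩
  · have b := re_ge (hω.1 O) hO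
    have l1 := (L.tilt.lip _ _ (hω.1 i) (hω.1 O) hi hO).1
    have l2 := (L.tilt.lip _ _ (hω.1 j) (hω.1 O) hj hO).1
    have h0 : 0 ≤ μ := (norm_nonneg _).trans h1
    have m1 := mul_le (A := 3 * μ) (a := (tl (ω i) - tl (ω O)) + (tl (ω j) - tl (ω O)))
      ((abs_add_le _ _).trans (by linarith)) hy
    have e : (LU c ω O j - LU c ω O i) / (ω O).re =
        (c j).re - (c i).re + tl (ω O) * ((c j).im - (c i).im) := by
      have : (ω O).re ≠ 0 := by linarith
      simp only [LU, loc, tl, mul_re, sub_re, sub_im, conj_re, conj_im]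
      field_simp
      ring
    rw [e, slip]
    rw [abs_le] at *
    constructor <;> linarith
  · have n : ‖(c j - c i) * (starRingEnd ℂ (ω O) - 1)‖ ≤ τ * ‖c j - c i‖ := by
      rw [norm_mul, mul_comm, ← map_one (starRingEnd ℂ), ← map_sub, Complex.norm_conj]
      gcongr
    refine ⟨le_trans (le_of_eq ?_) ((abs_re_le_norm _).trans n),
      le_trans (le_of_eq ?_) ((abs_im_le_norm _).trans n)⟩
    · simp only [LU, loc, mul_re, sub_re, sub_im, conj_re, conj_im, one_re, one_im]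
      congr 1
      ring
    · simp only [LW, loc, mul_im, sub_re, sub_im, conj_re, conj_im, one_re, one_im]
      congr 1
      ring
  · have hp : ∀ j ≤ m, |tl (ω (A j)) - tl ζ| ≤ 101 / 100 * o := fun j hj =>
      (lip (hω.1 _) z1 ((h.1 j hj).trans hη) z2).1.trans (by linarith [ho j hj])
    have t := tele h hη hp m le_rfl
    have k0 := (h.1 0 (Nat.zero_le _)).trans hη
    have km := (h.1 m le_rfl).trans hη
    obtain ⟨e0, f0⟩ := exit hω c (A 0) k0 hv
    obtain ⟨em, fm⟩ := exit hω c (A m) km hv'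
    have m0 := mul_le (hp 0 (Nat.zero_le _)) f0
    have mm := mul_le (hp m le_rfl) fm
    have hh := half (hω.1 _) (hω.1 _) km k0 le_rfl
    have d : ‖ω (A m) - ω (A 0)‖ ≤ 2 * o := by
      have := norm_sub_le_norm_sub_add_norm_sub (ω (A m)) ζ (ω (A 0))
      rw [norm_sub_rev ζ] at this
      linarith [ho 0 (Nat.zero_le _), ho m le_rfl]
    have h0 : 0 ≤ o := (norm_nonneg _).trans (ho 0 (Nat.zero_le _))
    rw [sub_re, sub_im, e0, em]
    rw [abs_le] at *
    constructor <;> linarith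
  · have col := tb.col t ht
    have k0 := col.1 0 (Nat.zero_le _)
    have km := col.1 _ le_rfl
    have h0 : 0 ≤ η := (norm_nonneg _).trans k0
    have hr : (100 : ℝ) ≤ r := by exact_mod_cast tp.r100
    have hl : lam ^ 4 ≤ (1 / 1000) ^ 4 := pow_le_pow_left₀ tp.lam0.le tp.lam1 4
    have hs : r * η ≤ 1 / 10000 := by linarith [tp.eta]
    have hη : η ≤ 1 / 10000 := by nlinarith
    have hm : (m t : ℝ) ≤ r + 1 := by exact_mod_cast (tb.len t ht).2
    have hj' : (j : ℝ) ≤ m t := by exact_mod_cast hj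
    have j0 : (0 : ℝ) ≤ j := Nat.cast_nonneg _
    obtain ⟨g1, g2⟩ := geo hω col (by linarith) (Nat.zero_le j) hj
    obtain ⟨-, g3⟩ := geo hω col (by linarith) hj le_rfl
    have s1 : (j : ℝ) * η ≤ 2 / 10000 := by nlinarith
    have s2 : ((m t : ℝ) - j) * η ≤ 2 / 10000 := by nlinarith
    rw [tb.lo t ht] at g1 g2 k0
    rw [tb.hi t ht] at g3 km
    rw [Nat.cast_zero, sub_zero] at g1 g2
    have a1 := (re_sub_le _).trans k0
    have a2 := (im_le _).trans k0
    have a3 := (im_le _).trans km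
    have r0 : ∀ i, |(ω i).re| ≤ 1 := fun i => hω.1 i ▸ abs_re_le_norm (ω i)
    have b1 := mul_le a2 hv
    have b2 := mul_le (r0 (ρ.J t)) hv
    have b3 := mul_le (r0 (ρ'.J t)) hv'
    refine ⟨(norm_le_abs_re_add_abs_im _).trans ?_, ?_, fun hj0 => ?_, fun hj1 => ?_⟩
    · have : |(c (A t j)).im - (c (ρ.J t)).im| ≤ r + 3 / 2 := by
        rw [abs_le] at *
        constructor <;> linarith
      rw [sub_re, sub_im]
      linarith
    · rw [sub_re, Ry.P, ex_re]
      rw [abs_le] at *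
      constructor <;> linarith
    · have : (1 : ℝ) ≤ j := by exact_mod_cast hj0
      rw [sub_im, Ry.P, ex_im]
      rw [abs_le] at *
      linarith
    · have : (j : ℝ) + 1 ≤ m t := by exact_mod_cast hj1
      rw [sub_im, Ry.P, ex_im]
      rw [abs_le] at *
      linarith

end Pool.Agent.MP_c59ecb_co.sh

end MrgPart0

-- ======== part 1: formerly Pool.Agent.MP_c59ecb_co.sh.Launch
section MrgPart1

/-! Launching rays: the total energy, and the ray with a given budget. -/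

set_option autoImplicit false

namespace Pool.Agent.MP_c59ecb_co.sh

open MeasureTheory Complex Pool.Agent.MP_c59ecb_co.h76
open scoped ENNReal ComplexConjugate

variable {ι : Type} [Fintype ι] [DecidableEq ι] {ω : ι → ℂ}

namespace Launch

variable {c : ι → ℂ} {f : ι → ℝ} {w : ℝ}

lemma meas_mg (w y : ℝ) : MeasurableSet {v : ℝ | |v| ≤ 1 / 2 ∧ w * (1 / 2 - |v|) ≤ y} :=
  (measurableSet_le measurable_abs measurable_const).inter
    (measurableSet_le ((measurable_abs.const_sub _).const_mul _) measurable_const)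

lemma meas_psi2 (i : ι) : Measurable (psi2 c ω f w i) :=
  (measurable_psi i).add (measurable_const.indicator (meas_mg _ _))

lemma vol_mg {w y : ℝ} (hw : 0 ≤ w) (hy : 0 ≤ y) :
    ENNReal.ofReal w * volume {v : ℝ | |v| ≤ 1 / 2 ∧ w * (1 / 2 - |v|) ≤ y} ≤
      ENNReal.ofReal (2 * y) := by
  rcases hw.eq_or_lt with rfl | hw'
  · simp
  have h1 : {v : ℝ | |v| ≤ 1 / 2 ∧ w * (1 / 2 - |v|) ≤ y} ⊆
      Set.Icc (-(1 / 2)) (-(1 / 2) + y / w) ∪ Set.Icc (1 / 2 - y / w) (1 / 2) := by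
    rintro v ⟨h2, h3⟩
    have h4 : 1 / 2 - |v| ≤ y / w := by rw [le_div_iff₀ hw']; linarith
    have h5 := abs_le.1 h2
    rcases le_total 0 v with h | h
    · rw [abs_of_nonneg h] at h4
      exact Or.inr ⟨by linarith, h5.2⟩
    · rw [abs_of_nonpos h] at h4
      exact Or.inl ⟨h5.1, by linarith⟩
  have h0 : 0 ≤ y / w := div_nonneg hy hw
  calc _ ≤ ENNReal.ofReal w * (ENNReal.ofReal (y / w) + ENNReal.ofReal (y / w)) := by
        gcongr
        refine (measure_mono h1).trans ((measure_union_le _ _).trans_eq ?_)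
        rw [Real.volume_Icc, Real.volume_Icc]
        congr 2 <;> ring
    _ = _ := by
        rw [← ENNReal.ofReal_add h0 h0, ← ENNReal.ofReal_mul hw]
        congr 1
        field_simp
        ring

lemma lint_psi2 (hω : Nm ω) (hf : ∀ i, 0 ≤ f i) (hw : 0 ≤ w) (i : ι) :
    ∫⁻ v, psi2 c ω f w i v ≤ ENNReal.ofReal (22 * bt c ω i + 3 * f i) := by
  have hb := bt_nonneg (c := c) (ω := ω) i
  have hfi := hf i
  unfold psi2
  rw [lintegral_add_left (measurable_psi i)]
  unfold psi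
  rw [lintegral_add_left (measurable_cost c ω _ i),
    lintegral_indicator_const measurableSet_Icc, lintegral_indicator_const (meas_mg _ _),
    Real.volume_Icc, show 22 * bt c ω i + 3 * f i = 22 * bt c ω i + f i + 2 * f i by ring,
    ENNReal.ofReal_add (by linarith) (by linarith), ENNReal.ofReal_add (by linarith) hfi]
  refine add_le_add (add_le_add (lint_cost hω.1 hω.2 (by norm_num) le_rfl i) ?_) (vol_mg hw hfi)
  norm_num

lemma sum_G (hω : Nm ω) (hf : ∀ i, 0 ≤ f i) (hw : 0 ≤ w) (St : Finset ι) (t : ℕ) :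
    ∑ i ∈ St, ∫⁻ v, Gw (Src c ω (1 / 100) St) (off c ω) (slo ω) (psi2 c ω f w) t i v ≤
      ENNReal.ofReal (22 * ∑ i, bt c ω i + 3 * ∑ i, f i) := by
  refine (h76.flux (measurableSet_Src c ω _ St)
    (fun i j h => ⟨(src_slope hω.1 hω.2 le_rfl i j h).1, (src_slope hω.1 hω.2 le_rfl i j h).2.2⟩)
    (src_inj hω.1 hω.2 le_rfl) t _ meas_psi2).trans ?_
  rw [Finset.mul_sum, Finset.mul_sum, ← Finset.sum_add_distrib, ENNReal.ofReal_sum_of_nonneg
    (fun i _ => by linarith [bt_nonneg (c := c) (ω := ω) i, hf i])]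
  exact Finset.sum_le_sum fun i _ => lint_psi2 hω hf hw i

lemma total (hω : Nm ω) (L : CalmS ω) (P : Pm) (h : P.Fr c ω) :
    22 * ∑ i, bt c ω i + 3 * ∑ i, P.f c ω i ≤ P.E := by
  have hr := P.r_big
  have hR : 4 ≤ P.R := by unfold Pm.R; linarith
  have h1 := L.sum_ds c 16 (by norm_num)
  have h2 := L.sum_ds c (P.R + 1) (by linarith)
  have h3 := energy (c := c) hω.1 (l := P.l) (le_trans (by norm_num) P.l_big')
  have h4 := sum_bt (c := c) hω.1
  have h5 := h.one.sov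
  have h6 : 0 ≤ ∑ k, ov c ω k := Finset.sum_nonneg fun k _ => ov_nonneg c ω k
  have h7 : 0 ≤ ∑ i, bt c ω i := Finset.sum_nonneg fun k _ => bt_nonneg k
  have h8 := P.mn_le (a := 0) (j := -15) (b := 1) (k := -15) le_rfl (by norm_num)
  have h9 : (∑ i, ds c ω (P.R + 1) i) / P.R ^ 2 ≤ 18 * ∑ i, bt c ω i + 2 * ∑ k, ov c ω k := by
    rw [div_le_iff₀ (by positivity)]
    refine h2.trans ?_
    generalize P.R = R at hR
    have a1 : (2 * (R + 1) + 2) ^ 2 ≤ 9 * R ^ 2 := by nlinarith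
    have a2 : 1 ≤ R ^ 2 := by nlinarith
    nlinarith [mul_le_mul_of_nonneg_right a1 h7, mul_le_mul_of_nonneg_right a2 h6]
  rw [Finset.sum_div] at h9
  simp only [Pm.f, Finset.sum_add_distrib]
  linarith [P.mn_pos 0 (-15)]

lemma energy' (hω : Nm ω) (L : CalmS ω) (P : Pm) (St : Finset ι) (T : ℕ) (h : P.Fr c ω)
    (hw : 0 ≤ w) : ∃ H : ι → ℝ, (∀ i, 0 ≤ H i) ∧ ∑ i ∈ St, H i ≤ P.E ∧
      ∀ i ∈ St, Lv (P.FP c ω w St T i) (H i) := by
  have h1 : ∑ i ∈ St, ∫⁻ v, P.FP c ω w St T i v ≤ ENNReal.ofReal P.E :=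
    (sum_G hω P.f_nonneg hw St T).trans (ENNReal.ofReal_le_ofReal (total hω L P h))
  have fin : ∀ i ∈ St, ∫⁻ v, P.FP c ω w St T i v ≠ ⊤ := fun i hi =>
    ne_top_of_le_ne_top ENNReal.ofReal_ne_top ((Finset.single_le_sum
      (f := fun i => ∫⁻ v, P.FP c ω w St T i v) (fun _ _ => zero_le) hi).trans h1)
  refine ⟨fun i => (∫⁻ v, P.FP c ω w St T i v).toReal, fun _ => ENNReal.toReal_nonneg, ?_,
    fun i hi => ⟨measurable_Gw (measurableSet_Src c ω _ St) meas_psi2 T i, ?_⟩⟩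
  · rw [← ENNReal.toReal_sum fin]
    exact ENNReal.toReal_le_of_le_ofReal (P.mn_nonneg _ _) h1
  · rw [ENNReal.ofReal_toReal (fin i hi)]

/-- one step of a ray -/
lemma one_step (hω : Nm ω) (hf : ∀ i, 0 ≤ f i) (hw : 0 ≤ w) (St : Finset ι) {i : ι} {v : ℝ}
    (h1 : |v| ≤ 1 / 2) (h2 : ‖ω i - 1‖ ≤ 1 / 100) (hc : ∀ p, ‖p - c i‖ ≤ 16 / 5 → Cov c ω p)
    (key : ∀ x : ℝ, 0 ≤ x → ENNReal.ofReal x ≤ psi2 c ω f w i v → x ≤ 1 / 100) :
    ∃ (j : ι) (v' d k : ℝ), j ≠ i ∧ |v'| ≤ 1 / 2 ∧ bt c ω i + f i ≤ k ∧ ‖ω j - ω i‖ ≤ k ∧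
      (0 ≤ d ∧ d ≤ k) ∧ ex c ω j v' = ex c ω i v + ω j * ((1 - d : ℝ) : ℂ) ∧
      ENNReal.ofReal k ≤ psi2 c ω f w i v ∧ (k < w → f i < w * (1 / 2 - |v|)) ∧
      (j ∉ St → v ∈ Src c ω (1 / 100) St i j) ∧ v' = off c ω i j + slo ω i j * v ∧
      1 - k ≤ slo ω i j ∧ slo ω i j ≤ 1 := by
  classical
  obtain ⟨hω, hn⟩ := hω
  have hβ := bt_nonneg (c := c) (ω := ω) i
  have hI : v ∈ Set.Icc (-(1 / 2) : ℝ) (1 / 2) := Set.mem_Icc.2 (abs_le.1 h1)
  have k0 : bt c ω i < 1 := by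
    have := key _ hβ (by
      refine le_trans ?_ (le_self_add.trans (le_self_add.trans (le_self_add.trans le_self_add)))
      rw [Set.indicator_of_mem hI])
    linarith
  have hV : VG c ω (1 / 100) i := ⟨bb_le_of_beta (by norm_num) k0, hc, h2⟩
  obtain ⟨j, hj, hp⟩ := exists_next hω hV.2.1 h1
  change ex c ω i v ∈ _ at hp
  have hβ' := beta_eq (by norm_num) hV.1
  set m : ℝ := if w * (1 / 2 - |v|) ≤ f i then w else 0 with hm
  have hm0 : 0 ≤ m := by rw [hm]; split_ifs <;> linarith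
  set k := bt c ω i + max (dep c ω i j) 0 + f i + m with hk
  have hk0 : 0 ≤ max (dep c ω i j) 0 := le_max_right _ _
  have hfi := hf i
  have k1 : ENNReal.ofReal k ≤ psi2 c ω f w i v := by
    rw [hk, ENNReal.ofReal_add (by linarith) hm0, ENNReal.ofReal_add (by linarith) hfi,
      ENNReal.ofReal_add hβ hk0, ENNReal.ofReal_max, ENNReal.ofReal_zero, max_eq_left zero_le]
    refine add_le_add (add_le_add (add_le_add (le_trans ?_ le_self_add) (le_trans ?_
      (Finset.single_le_sum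
      (f := fun j => (Con c ω (1 / 100) i j).indicator (fun _ => ENNReal.ofReal (dep c ω i j)) v)
      (fun _ _ => zero_le) (Finset.mem_univ j)))) ?_) ?_
    · rw [Set.indicator_of_mem hI]
    · rw [Set.indicator_of_mem (show v ∈ Con c ω (1 / 100) i j from ⟨⟨hV, hj⟩, h1, hp⟩)]
    · rw [Set.indicator_of_mem hI]
    · rw [hm]
      split_ifs with h
      · rw [Set.indicator_of_mem (show v ∈ {v : ℝ | |v| ≤ 1 / 2 ∧ w * (1 / 2 - |v|) ≤ f i} from
          ⟨h1, h⟩)]
      · simp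
  have k2 := key k (by linarith) k1
  have k3 : |v| < 1 / 2 - 4 * (10 ^ 17 * bb c ω i) := by
    by_contra k4
    have := key 1 zero_le_one (by
      refine le_trans ?_ (le_add_self.trans (le_self_add.trans (le_self_add.trans le_self_add)))
      rw [Set.indicator_of_mem (show v ∈ Cor c ω (1 / 100) i from ⟨hV.1, not_lt.1 k4, h1⟩),
        Pi.one_apply, ENNReal.ofReal_one])
    linarith
  have k4 := align hω hn le_rfl hV (near_of_mem hω (ex_mem (i := i) hω h1) hp (by simp))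
  rw [hβ'] at k4
  change _ ≤ 1 / 100 * bt c ω i at k4
  set z := loc (c j) (ω j) (ex c ω i v) with hz
  have k5 : z.re + 1 / 2 ≤ k := by
    have k6 : |(ω i * conj (ω j)).im * v| ≤ 1 / 100 * bt c ω i * (1 / 2) := by
      rw [abs_mul]
      exact mul_le_mul ((rel_im (hω j)).trans k4) h1 (abs_nonneg _) (by positivity)
    rw [hz, loc_ex]
    have k7 := le_max_left (dep c ω i j) 0
    have k8 := (abs_le.1 k6).1
    simp only
    linarith
  have k6 := abs_le.1 hp.1
  refine ⟨j, z.im, z.re + 1 / 2, k, hj, hp.2, by linarith, by rw [norm_sub_rev]; linarith,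
    ⟨by linarith, k5⟩, ?_, k1, fun h => ?_, fun h => ⟨⟨hV, hj, h⟩, k3, hp, by linarith⟩,
    by rw [hz, loc_ex], ?_, re_le_of_unit (norm_rel_unit (hω i) (hω j))⟩
  · rw [ex, eq_loc (hω j) (c j) (ex c ω i v), ← hz, add_assoc, ← mul_add]
    congr 2
    apply Complex.ext
    · simp; ring
    · simp
  · by_contra h'
    rw [if_pos (not_lt.1 h')] at hm
    linarith
  · have := re_ge_of_unit (norm_rel_unit (hω i) (hω j)) ((norm_rel (hω j)).le.trans k4)
    change _ ≤ slo ω i j at this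
    nlinarith

lemma aux (hω : Nm ω) (hf : ∀ i, 0 ≤ f i) (hw : 0 ≤ w) {St : Finset ι} {T : ℕ} {G τ p₀ : ℝ}
    {z₀ : ℂ} (hP : p₀ + 2 * G ≤ τ) (hp : 0 ≤ p₀) (hP' : τ ≤ 1 / 200)
    (hc : ∀ p : ℂ, z₀.re - 4 ≤ p.re → p.re ≤ z₀.re + T + 4 → |p.im - z₀.im| ≤ τ * T + 4 →
      Cov c ω p) (t : ℕ) :
    ∀ (s : ℕ) (i : ι) (v W q : ℝ), s + t ≤ T → |v| ≤ 1 / 2 → ‖ω i - 1‖ ≤ p₀ + 2 * q →
      0 ≤ (ex c ω i v - z₀).re → (ex c ω i v - z₀).re ≤ s →
      |(ex c ω i v - z₀).im| ≤ τ * s → 0 ≤ q → q ≤ G → 1 - q ≤ W → W ≤ 1 →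
      ENNReal.ofReal q + ENNReal.ofReal W *
        Gw (Src c ω (1 / 100) St) (off c ω) (slo ω) (psi2 c ω f w) t i v ≤ ENNReal.ofReal G →
      ∃ (T' : ℕ) (J : ℕ → ι) (V d g : ℕ → ℝ), T' ≤ t ∧ (0 < t → 0 < T') ∧ J 0 = i ∧ V 0 = v ∧
        Ray c ω f T' (2 * (G - q)) J V d g ∧
        (∀ k < T', g k < w → f (J k) < w * (1 / 2 - |V k|)) ∧
        (∀ k, 0 < k → k < T' → J k ∉ St) ∧ (T' = t ∨ J T' ∈ St) := by
  have triv : ∀ (i : ι) (v x : ℝ), |v| ≤ 1 / 2 → 0 ≤ x →
      Ray c ω f 0 x (fun _ => i) (fun _ => v) (fun _ => 0) (fun _ => 0) := fun i v x h1 h2 =>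
    ⟨fun _ _ => h1, fun _ => le_rfl, by simpa, by simp, by simp, by simp, by simp, by simp⟩
  induction t with
  | zero =>
    intro s i v W q _ h1 _ _ _ _ _ h8 _ _ _
    exact ⟨0, _, _, _, _, le_rfl, id, rfl, rfl, triv i v _ h1 (by linarith), by simp, by simp,
      Or.inl rfl⟩
  | succ t ih =>
    intro s i v W q hs h1 h2 h3 h4 h5 h7 h8 h9 h10 hG
    have hG0 : 0 ≤ G := h7.trans h8
    have hW : 1 / 2 ≤ W := by linarith
    have hP0 : 0 ≤ τ := by linarith
    have hsT : (s : ℝ) ≤ T := by exact_mod_cast (show s ≤ T by omega)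
    have key : ∀ x : ℝ, 0 ≤ x → ENNReal.ofReal x ≤ psi2 c ω f w i v → q + W * x ≤ G := by
      intro x hx h
      rw [← ENNReal.ofReal_le_ofReal_iff hG0, ENNReal.ofReal_add h7 (by positivity),
        ENNReal.ofReal_mul (by linarith)]
      refine le_trans ?_ hG
      gcongr
      exact h.trans (le_Gw _ _ _ _ _ _ _)
    obtain ⟨j, v', d, k, a1, a2, a3, a4, a5, a6, a7, a8, a9, a10, a11, a12⟩ :=
      one_step (c := c) (i := i) hω hf hw St h1 (by linarith) (fun p hp => by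
        have k1 := norm_le_of_mem (hω.1 i) (ex_mem (c := c) (i := i) hω.1 h1)
        rw [norm_sub_rev] at k1
        have k2 : ‖p - ex c ω i v‖ ≤ 79 / 20 := by
          linarith [norm_sub_le_norm_sub_add_norm_sub p (c i) (ex c ω i v)]
        have k3 := abs_le.1 ((abs_re_le_norm _).trans k2)
        have k4 := abs_le.1 ((abs_im_le_norm _).trans k2)
        have k5 := abs_le.1 h5
        have k6 : τ * s ≤ τ * T := by gcongr
        simp only [sub_re, sub_im] at k3 k4 k5 h3 h4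
        exact hc p (by linarith) (by linarith) (abs_le.2 ⟨by linarith, by linarith⟩))
        (fun x hx h => by nlinarith [key x hx h])
    have k0 : 0 ≤ k := a5.1.trans a5.2
    have k2 := key k k0 a7
    have k2' : k ≤ 2 * (W * k) := by nlinarith
    have k22 : 0 ≤ W * k := mul_nonneg (by linarith) k0
    have rest : ∃ (T' : ℕ) (J : ℕ → ι) (V d g : ℕ → ℝ), T' ≤ t ∧ J 0 = j ∧ V 0 = v' ∧
        Ray c ω f T' (2 * (G - (q + W * k))) J V d g ∧
        (∀ k < T', g k < w → f (J k) < w * (1 / 2 - |V k|)) ∧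
        (∀ k, k < T' → J k ∉ St) ∧ (T' = t ∨ J T' ∈ St) := by
      by_cases hj : j ∈ St
      · exact ⟨0, _, _, _, _, Nat.zero_le _, rfl, rfl, triv j v' _ a2 (by linarith), by simp,
          by simp, Or.inr hj⟩
      have k8 : ‖ω j - 1‖ ≤ p₀ + 2 * (q + W * k) := by
        linarith [norm_sub_le_norm_sub_add_norm_sub (ω j) (ω i) 1]
      have k8' : ‖ω j - 1‖ ≤ τ := by linarith
      have k10 := re_ge_of_unit (hω.1 j) (k8'.trans hP')
      have k11 := re_le_of_unit (hω.1 j)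
      have k12 : |(ω j).im| ≤ τ := by simpa using (abs_im_le_norm _).trans k8'
      have k13 : (ex c ω j v' - z₀).re = (ex c ω i v - z₀).re + (ω j).re * (1 - d) := by
        rw [a6, sub_re, add_re, mul_re, ofReal_re, ofReal_im, mul_zero, sub_zero, sub_re]
        ring
      have k14 : (ex c ω j v' - z₀).im = (ex c ω i v - z₀).im + (ω j).im * (1 - d) := by
        rw [a6, sub_im, add_im, mul_im, ofReal_re, ofReal_im, mul_zero, zero_add, sub_im]
        ring
      have k15 : 0 ≤ (ω j).re * (1 - d) := mul_nonneg (by linarith) (by linarith [a5.2])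
      have k16 : (ω j).re * (1 - d) ≤ 1 := by nlinarith [a5.1, a5.2]
      have k17 : |(ω j).im * (1 - d)| ≤ τ * 1 := by
        rw [abs_mul]
        exact mul_le_mul k12 (abs_le.2 ⟨by linarith [a5.2], by linarith [a5.1]⟩) (abs_nonneg _) hP0
      obtain ⟨T', J, V, d', g, e0, -, e1, e2, hR, e3, e4, e5⟩ :=
        ih (s + 1) j v' (W * slo ω i j) (q + W * k) (by omega) a2 k8 (by rw [k13]; linarith)
          (by rw [k13]; push_cast; linarith) (by
            rw [k14]
            have := abs_le.1 h5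
            have := abs_le.1 k17
            push_cast
            exact abs_le.2 ⟨by linarith, by linarith⟩) (by linarith) k2 (by nlinarith)
          (by nlinarith) (by
            refine le_trans ?_ hG
            rw [ENNReal.ofReal_add h7 k22, add_assoc, ENNReal.ofReal_mul (by linarith),
              ENNReal.ofReal_mul (by linarith), mul_assoc, ← mul_add, a10]
            gcongr
            exact (add_le_add a7 le_rfl).trans (step_le_Gw _ _ _ _ t (a9 hj)))
      refine ⟨T', J, V, d', g, e0, e1, e2, hR, e3, fun k hk => ?_, e5⟩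
      rcases Nat.eq_zero_or_pos k with rfl | h0
      · rwa [e1]
      · exact e4 k h0 hk
    obtain ⟨T', J, V, d', g, e0, e1, e2, hR, e3, e4, e5⟩ := rest
    refine ⟨T' + 1, _, _, _, _, by omega, fun _ => Nat.succ_pos _, rfl, rfl,
      hR.cons (i := i) (v := v) (d₀ := d) (g₀ := k) h1 (by linarith) a3 (by rw [e1]; exact a4) a5
        (by rw [e1, e2]; exact a6) (by rw [e1]; exact a1), fun m hm => ?_, fun m h0 hm => ?_, ?_⟩
    · cases m with
      | zero => exact a8
      | succ m => exact e3 m (by omega)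
    · cases m with
      | zero => omega
      | succ m => exact e4 m (by omega)
    · exact e5.imp (fun h => by rw [h]) id

lemma step_of {t : ℕ} {G γ : ℝ} {J : ℕ → ι} {V d g : ℕ → ℝ} (h : Ray c ω f t G J V d g) {k : ℕ}
    (hk : k < t) (hγ : g k ≤ γ) : Step c ω (J k) (V k) (J (k + 1)) (V (k + 1)) γ :=
  ⟨(h.ang k hk).trans hγ, d k, ω (J (k + 1)), by
    rw [abs_of_nonneg (h.d0 k hk).1]; exact (h.d0 k hk).2.trans hγ, Or.inr rfl, by
    rw [h.nxt k hk]; push_cast; ring⟩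

lemma launch (hω : Nm ω) (L : CalmS ω) (P : Pm) {G τ v : ℝ} (St : Finset ι) {T : ℕ} {i : ι}
    (hF : P.Fr c ω) (hw : 0 ≤ w) (hT : 1 ≤ T) (hG : 0 ≤ G) (h1 : ‖ω i - 1‖ + 2 * G ≤ τ)
    (h2 : τ ≤ P.t2) (hv : |v| ≤ 1 / 2) (h3 : |(ex c ω i v).im| ≤ P.a + 5 / 2 * P.n)
    (h4 : -P.a - 5 / 2 * P.n ≤ (ex c ω i v).re) (h5 : (ex c ω i v).re + T ≤ P.a + 5 / 2 * P.n)
    (h6 : P.FP c ω w St T i v ≤ ENNReal.ofReal G) :
    ∃ (T' : ℕ) (ρ : Ry ι), ρ.J 0 = i ∧ ρ.V 0 = v ∧ Stop P c ω w τ St T G T' ρ := by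
  have n0 := norm_nonneg (ω i - 1)
  have r1 := P.r_big
  have r2 := P.r_le_n
  have hR : P.R = 10 * (P.r : ℝ) := rfl
  have t1 := P.mn_small (a := 36) (j := 5) (by norm_num) (by norm_num)
  have t2 : P.R ^ 2 * τ ≤ 1 / 10 := by
    have a1 := P.mn_small (a := 96) (j := 5) (by norm_num) (by norm_num)
    have a2 : P.mn 60 0 * P.mn 36 5 = P.mn 96 5 := P.mn_mul' rfl rfl
    have a3 := mul_le_mul_of_nonneg_left h2 (P.mn_nonneg 60 0)
    rw [P.R_sq]
    linarith
  have hτ : τ ≤ 1 / 200 := by linarith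
  have hτT : τ * T ≤ P.n / 10 := by
    have a1 : (T : ℝ) ≤ 7 * P.n := by linarith [P.two_a, P.eps_small]
    have a2 : τ * T ≤ 1 / 200 * (7 * P.n) := by gcongr
    linarith
  have hc : ∀ p : ℂ, (ex c ω i v).re - (P.R + 6) ≤ p.re → p.re ≤ (ex c ω i v).re + T + (P.R + 6) →
      |p.im - (ex c ω i v).im| ≤ τ * T + (P.R + 6) → Cov c ω p := fun p a1 a2 a3 => by
    have a4 := abs_le.1 a3
    have a5 := abs_le.1 h3
    exact hF.one.cov p (abs_le.2 ⟨by linarith, by linarith⟩) (abs_le.2 ⟨by linarith, by linarith⟩)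
  obtain ⟨T', J, V, d, g, e0, e0', e1, e2, hR', e3, e4, e5⟩ :=
    aux (c := c) (f := P.f c ω) hω P.f_nonneg hw (St := St) (T := T) (G := G)
      (z₀ := ex c ω i v) h1 n0 hτ
      (fun p a1 a2 a3 => hc p (by linarith) (by linarith) (by linarith)) T 0 i v 1 0 (by simp) hv
      (by simp) (by simp) (by simp) (by simp) le_rfl hG (by simp) le_rfl
      (by rw [ENNReal.ofReal_zero, ENNReal.ofReal_one, zero_add, one_mul]; exact h6)
  obtain ⟨T', rfl⟩ : ∃ S, T' = S + 1 := ⟨T' - 1, by have := e0' hT; omega⟩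
  rw [sub_zero] at hR'
  have tl : ∀ k ≤ T' + 1, ‖ω (J k) - 1‖ ≤ τ := fun k hk =>
    (hR'.tilt (p := ‖ω i - 1‖) (by rw [e1]) hk).trans h1
  have cov : ∀ k ≤ T', ∀ p, ‖p - c (J k)‖ ≤ P.R + 5 → Cov c ω p := fun k hk p hp => by
    obtain ⟨b1, b2, b3⟩ := hR'.geo hω.1 tl (by linarith) hτ (Nat.zero_le k) (by omega)
    rw [e1, e2] at b1 b2 b3
    have k1 := norm_le_of_mem (hω.1 _) (ex_mem (c := c) (i := J k) hω.1 (hR'.v k (by omega)))
    rw [norm_sub_rev] at k1
    have k2 : ‖p - ex c ω (J k) (V k)‖ ≤ P.R + 6 := by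
      linarith [norm_sub_le_norm_sub_add_norm_sub p (c (J k)) (ex c ω (J k) (V k))]
    have k3 := abs_le.1 ((abs_re_le_norm _).trans k2)
    have k4 := abs_le.1 ((abs_im_le_norm _).trans k2)
    have k5 := abs_le.1 b3
    have k6 : (k : ℝ) ≤ T := by exact_mod_cast (show k ≤ T by omega)
    have k7 : τ * k ≤ τ * T := by gcongr; linarith
    have k8 : 0 ≤ (k : ℝ) * (1 - 2 * τ) := mul_nonneg (by positivity) (by linarith)
    simp only [sub_re, sub_im, Nat.cast_zero, sub_zero] at k3 k4 k5 b1 b2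
    exact hc p (by linarith) (by linarith) (abs_le.2 ⟨by linarith, by linarith⟩)
  set g' : ℕ → ℝ := fun k => Nat.casesOn k 0 g with hg'
  have g0 : ∀ k, 0 ≤ g' k := fun k => by
    cases k with
    | zero => exact le_rfl
    | succ k => exact hR'.g0 k
  have fg : ∀ k ≤ T', P.f c ω (J k) ≤ g k := fun k hk => by
    linarith [hR'.ext k (by omega), bt_nonneg (c := c) (ω := ω) (J k)]
  have gG : ∀ k ≤ T', g k ≤ 2 * G := fun k hk => hR'.le (by omega)
  have R2 : 0 < P.R ^ 2 := by positivity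
  refine ⟨T', ⟨J, V, fun k => g k + g' k⟩, e1, e2, e0, ⟨fun k hk => hR'.v k (by omega),
    fun k => add_nonneg (hR'.g0 k) (g0 k), ?_, fun k hk => tl k (by omega), fun k hk => ?_,
    fun k hk => ?_, fun k hk => ?_⟩, ?_, hR'.v _ le_rfl, tl _ le_rfl,
    fun k h0 hk => e4 k h0 (by omega), e5, d, g, hR'⟩
  · have a1 := hR'.sum
    have a2 := hR'.sub (s := Finset.range T') (fun k hk => by simp at hk; omega)
    have a3 : ∑ k ∈ Finset.range (T' + 1), g' k = ∑ k ∈ Finset.range T', g k := by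
      rw [Finset.sum_range_succ']
      exact add_zero _
    simp only [Finset.sum_add_distrib]
    linarith
  · exact step_of hR' (by omega) (le_min (le_add_of_nonneg_right (g0 k))
      (le_add_of_nonneg_left (hR'.g0 (k + 1))))
  · have a1 : ds c ω (15 + 1) (J k) ≤ g k := by
      have a2 := fg k hk
      have a3 := div_nonneg (ds_nonneg (c := c) (ω := ω) (P.R + 1) (J k)) R2.le
      have a4 := ft_nonneg (c := c) (ω := ω) P.l (J k)
      rw [show (15 : ℝ) + 1 = 16 by norm_num]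
      unfold Pm.f at a2
      linarith
    exact (L.of_ds c (J k) 15 (g k) (by norm_num) a1 (by linarith [gG k hk])
      ((tl k (by omega)).trans hτ) fun p hp => cov k hk p (by linarith)).mono le_rfl
      (le_add_of_nonneg_right (g0 k))
  · have a1 : ds c ω (P.R + 1) (J k) ≤ P.R ^ 2 * P.f c ω (J k) := by
      have a3 := ds_nonneg (c := c) (ω := ω) 16 (J k)
      have a4 := ft_nonneg (c := c) (ω := ω) P.l (J k)
      rw [← div_le_iff₀' R2]
      unfold Pm.f
      linarith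
    have a2 := mul_le_mul_of_nonneg_left (fg k hk) R2.le
    have a3 : P.R ^ 2 * g k ≤ P.R ^ 2 * τ :=
      mul_le_mul_of_nonneg_left (by linarith [gG k hk]) R2.le
    refine ⟨ds c ω (P.R + 1) (J k), ds_nonneg _ _, ?_, L.of_ds c (J k) P.R _ (by linarith) le_rfl
      (by linarith) ((tl k (by omega)).trans hτ) (cov k hk), fun h => ?_⟩
    · have := mul_nonneg R2.le (g0 k)
      simp only [mul_add]
      linarith
    · have a4 := e3 k (by omega) (lt_of_le_of_lt (le_add_of_nonneg_right (g0 k)) h)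
      rw [mul_assoc]
      exact a1.trans_lt (mul_lt_mul_of_pos_left a4 R2)
  · exact step_of hR' (by omega) (le_add_of_nonneg_right (g0 T'))

end Launch

theorem launchS (hω : Nm ω) (L : L1 ω) : LaunchS ω where
  energy P _ _ St T h hw := Launch.energy' hω L.calm P St T h hw
  launch P _ _ _ _ _ St _ _ hF hw hT hG h1 h2 hv h3 h4 h5 h6 :=
    Launch.launch hω L.calm P St hF hw hT hG h1 h2 hv h3 h4 h5 h6

end Pool.Agent.MP_c59ecb_co.sh

end MrgPart1

-- marker of a merged file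
example : 731051 + 166106 = 731051 + 166106 := rfl
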