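import Pool.Agent.MP_c59ecb_co.h76.Square

-- ======== part 0: formerly Pool.Agent.MP_c59ecb_co.sh.USpec
section MrgPart0

/-! Statements for the upper bound with the sharp constant. -/

set_option autoImplicit false

namespace Pool.Agent.MP_c59ecb_co.sh

open Pool.Agent.MP_c59ecb_co.h76

/-- the parameters of the wedge `0 ≤ x`, `C x ≤ S y` -/
structure UP (b C S : ℝ) (N : ℕ) : Prop where
  b0 : 0 < b
  b1 : b ≤ 1 / 10 ^ 6
  hS : S = b ^ 2 / 2
  C0 : 0 < C
  hC : C ^ 2 + S ^ 2 = 1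
  N1 : 2 * (1 + 10 * b) ≤ N * b ^ 2
  N2 : N * b ^ 2 ≤ 2 * (1 + 10 * b) + b ^ 2

/-- growth of the length of the tilted rows in the wedge -/
noncomputable def qq (C S c s : ℝ) : ℝ := S / (c * (C * c - S * s))

/-- area of the part of the wedge below the line `- s x + c y = h` -/
noncomputable def Ar (C S c s h : ℝ) : ℝ := qq C S c s * h ^ 2 / 2

/-- the part of the wedge between two lines -/
def Btw (C S c s h c' s' h' x y : ℝ) : Prop :=
  0 ≤ x ∧ C * x ≤ S * y ∧ h ≤ -s * x + c * y ∧ -s' * x + c' * y ≤ h'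

/-- the state of the recursion -/
structure USt (b C S : ℝ) (N : ℕ) (c s h : ℝ) : Prop where
  cs : c ^ 2 + s ^ 2 = 1
  c0 : 0 < c
  t1 : (b - b ^ 2) * c ≤ s
  t2 : s ≤ (b + b ^ 2) * c
  p1 : (N : ℝ) ≤ qq C S c s * h + (b + 2 * b ^ 2)
  p2 : qq C S c s * h + (b + 2 * b ^ 2) ≤ N + 20 * b

/-- the cell: tilted rows flush right and plain columns flush with the upper line -/
def CellStmt : Prop :=
  ∀ (C S c s h c' s' h' τ p0 : ℝ) (N K : ℕ), C ^ 2 + S ^ 2 = 1 → 0 < S → 0 < C →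
    c ^ 2 + s ^ 2 = 1 → 0 < c → c < 1 → c' ^ 2 + s' ^ 2 = 1 → 0 < c' → 0 < C * c - S * s →
    max ((C * s + S * c) / (C * c - S * s)) 0 + max (-(s / c)) 0 ≤ τ →
    max (s' / c') 0 + max (-(s / c)) 0 ≤ τ → 1 - c ≤ τ →
    p0 = qq C S c s * h + τ - N → 0 ≤ p0 → 0 < K →
    K * qq C S c s ≤ N * (1 / c - 1) - p0 → N * (1 / c - 1) - p0 < (K + 1) * qq C S c s →
    s' / c' - s / c = (1 / c - 1) ^ 2 / qq C S c s →
    h' / c' - h / c = K - p0 * (1 / c - 1) / qq C S c s - τ →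
    Cv (Btw C S c s h c' s' h') (N * K)

/-- one cell in one frame, with the estimates -/
def CellQStmt : Prop :=
  ∀ (b C S c s h : ℝ) (N : ℕ), UP b C S N → c ^ 2 + s ^ 2 = 1 → 0 < c →
    ((b - b ^ 2) * c ≤ s ∧ s ≤ b * c ∨ -(b + 2 * b ^ 2) * c ≤ s ∧ s ≤ -b * c) →
    (N : ℝ) ≤ qq C S c s * h + (b + 2 * b ^ 2) → qq C S c s * h + (b + 2 * b ^ 2) ≤ N + 20 * b →
    ∃ c' s' h' : ℝ, c' ^ 2 + s' ^ 2 = 1 ∧ 0 < c' ∧ s / c ≤ s' / c' ∧
      s' / c' ≤ s / c + S * (1 + 10 * b) ∧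
      N + 1 + 6 * b ≤ qq C S c' s' * h' + (b + 2 * b ^ 2) ∧
      qq C S c' s' * h' + (b + 2 * b ^ 2) ≤ N + 1 + 16 * b ∧
      1 - 15 * b ≤ S * (h' / c' - h / c) ∧ S * (h' / c' - h / c) ≤ 1 + 15 * b ∧
      Cv (Btw C S c s h c' s' h')
        (Ar C S c' s' h' - Ar C S c s h + (2 * b + 300 * b ^ 2) * (h' / c' - h / c) - 3)

/-- one step of the recursion, of either type -/
def StepUStmt : Prop :=
  ∀ (b C S c s h : ℝ) (N : ℕ), UP b C S N → USt b C S N c s h →
    ∃ c' s' h' : ℝ, USt b C S N c' s' (h' - (C * c' - S * s') / S) ∧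
      1 / 2 ≤ S * (h' / c' - h / c) ∧ S * (h' / c' - h / c) ≤ 6 / 5 ∧
      Cv (Btw C S c s h c' s' h')
        (Ar C S c' s' h' - Ar C S c s h + 2 * b * (1 + 200 * b) * (h' / c' - h / c) - 2)

/-- the part of the wedge above a line and below a height -/
def StripStmt : Prop :=
  ∀ (b C S c s h G : ℝ) (N : ℕ), UP b C S N → USt b C S N c s h → 3 / 2 ≤ S * (G - h / c) →
    Cv (fun x y => 0 ≤ x ∧ C * x ≤ S * y ∧ h ≤ -s * x + c * y ∧ y ≤ G)
      (S * G ^ 2 / (2 * C) - Ar C S c s h + 2 * b * (1 + 200 * b) * (G - h / c) + 30 / S)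

/-- the trapezoid -/
def TrapStmt : Prop :=
  ∀ (b C S : ℝ) (N : ℕ), UP b C S N → ∃ W : ℝ, 1 / 2 ≤ S * W ∧ S * W ≤ 2 ∧
    ∀ ρ H : ℝ, W - 1 ≤ ρ → ρ ≤ W → 3 ≤ S * H →
      Cv (fun x y => 0 ≤ x ∧ 0 ≤ y ∧ y ≤ H ∧ C * x - S * y ≤ ρ)
        ((ρ * H + S * H ^ 2 / 2) / C + 2 * b * (1 + 200 * b) * H + 100 / S)

/-- the rectangle -/
def RectStmt : Prop :=
  ∀ (b C S h Λ : ℝ) (N m : ℕ), UP b C S N → (m : ℝ) ≤ h → h + S ≤ C * (m + 1) →
    C - S ≤ (m + 1) * (1 - C) → 3 ≤ S * h → S ^ 2 * h ≤ 3 → 10 ≤ S * Λ →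
    Cv (fun x y => 0 ≤ x ∧ x ≤ Λ ∧ 0 ≤ y ∧ y ≤ h)
      (h * Λ + (S + 2 * S ^ 2) * Λ + 4 * b * (1 + 200 * b) * h + 200 / S)

/-- the upper bound -/
def UpperStmt : Prop :=
  ∀ (b : ℝ) (n : ℕ), 0 < b → b ≤ 1 / 10 ^ 6 → n * b ^ 5 = 96 →
    ∃ ε : ℝ, 0 < ε ∧ ∃ (N : ℕ) (a ω : Fin N → ℂ), (∀ k, ‖ω k‖ = 1) ∧
      (∀ x ∈ Set.Icc (0 : ℝ) (n + ε), ∀ y ∈ Set.Icc (0 : ℝ) (n + ε), ∃ k, ∃ s ∈ Set.Icc (0 : ℝ) 1,
        ∃ t ∈ Set.Icc (0 : ℝ) 1, (x : ℂ) + y * Complex.I = a k + ω k * (s + t * Complex.I)) ∧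
      (N : ℝ) ≤ (n : ℝ) ^ 2 + (160 + 10 ^ 5 * b) / b ^ 3

end Pool.Agent.MP_c59ecb_co.sh

end MrgPart0

-- ======== part 1: formerly Pool.Agent.MP_c59ecb_co.sh.Cell
section MrgPart1

/-! The cell: tilted rows flush right and plain columns flush with the upper line. -/

set_option autoImplicit false

namespace Pool.Agent.MP_c59ecb_co.sh

open Pool.Agent.MP_c59ecb_co.h76

namespace Cell

/-- every point of the cell lies in one of the rows -/
lemma step1 {c g q w h η x p0 τ N K : ℝ} (hc : c * (1 + g) = 1) (c0 : 0 < c) (g0 : 0 < g)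
    (w0 : 0 < w) (hw : w * q = g) (hx : x ≤ c * q * η)
    (hη : (η - h) * (1 + g) ≤ (x * g - p0) * w + K - τ) (hp : p0 = q * h + τ - N)
    (hN : N * g - p0 < (K + 1) * q) (hτ : 1 - c ≤ τ) : η ≤ h + K := by
  have cg : c * g = 1 - c := by linarith
  have cg0 : 0 < c * g := mul_pos c0 g0
  have τ0 : 0 ≤ τ := by linarith
  have e1 : x * (g * w) ≤ c * q * η * (g * w) :=
    mul_le_mul_of_nonneg_right hx (mul_pos g0 w0).le
  have e2 : c * q * η * (g * w) = c * g ^ 2 * η := by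
    linear_combination (c * η * g) * hw
  have e3 : c * w * (N * g - p0) ≤ c * w * ((K + 1) * q) :=
    mul_le_mul_of_nonneg_left hN.le (mul_pos c0 w0).le
  have e4 : c * g ^ 2 * h = c * w * (N * g - p0) + w * p0 - c * g * w * τ := by
    linear_combination (-c * g * h) * hw - (c * g * w) * hp + (w * p0) * hc
  have e5 : c * w * ((K + 1) * q) = c * g * (K + 1) := by
    linear_combination (c * (K + 1)) * hw
  have e6 : 0 ≤ c * g * w * τ := by positivity
  have e7 : (η - h) * (1 + g) = (η - h) * (1 + c * g) + c * g ^ 2 * (η - h) := by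
    linear_combination (-(η - h) * g) * hc
  have e8 : (η - h - K) * (1 + c * g) ≤ 0 := by nlinarith
  by_contra hh
  have : 0 < (η - h - K) * (1 + c * g) := mul_pos (by linarith) (by linarith)
  linarith

lemma cv_if {k l : ℕ} (a b : ℝ) :
    Cv (fun x y => (0 < k ∧ 0 < l) ∧ a ≤ x ∧ x ≤ a + k ∧ b ≤ y ∧ y ≤ b + l) (k * l) := by
  by_cases h : 0 < k ∧ 0 < l
  · exact (Cv.box h.1 h.2 a b).mono le_rfl fun x y hp => hp.2
  · exact ⟨[], by simp; positivity, by simp, fun x y hp => absurd hp.1 h⟩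

lemma count (N K : ℕ) (j : ℕ → ℕ) (hj : ∀ r < K, j r ≤ N) :
    ∑ r ∈ Finset.range K, (N - j r) +
      ∑ i ∈ Finset.range N, ((Finset.range K).filter fun r => i < j r).card = N * K := by
  have e : ∑ i ∈ Finset.range N, ((Finset.range K).filter fun r => i < j r).card =
      ∑ r ∈ Finset.range K, j r := by
    simp only [Finset.card_filter]
    rw [Finset.sum_comm]
    refine Finset.sum_congr rfl fun r hr => ?_
    rw [← Finset.card_filter]
    have : (Finset.range N).filter (fun i => i < j r) = Finset.range (j r) := by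
      ext i
      have := hj r (Finset.mem_range.1 hr)
      simp only [Finset.mem_filter, Finset.mem_range]
      omega
    rw [this, Finset.card_range]
  rw [e, ← Finset.sum_add_distrib,
    Finset.sum_congr rfl fun r hr => Nat.sub_add_cancel (hj r (Finset.mem_range.1 hr))]
  simp [mul_comm]

lemma max_lo {t u v : ℝ} (h0 : u ≤ v) (h1 : v ≤ u + 1) : t * u - max (-t) 0 ≤ t * v := by
  rcases le_total 0 t with h | h
  · rw [max_eq_right (by linarith)]; nlinarith
  · rw [max_eq_left (by linarith)]; nlinarith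

lemma max_hi {t u v : ℝ} (h0 : u ≤ v) (h1 : v ≤ u + 1) : t * v ≤ t * u + max t 0 := by
  rcases le_total 0 t with h | h
  · rw [max_eq_left h]; nlinarith
  · rw [max_eq_right h]; nlinarith

/-- the cell in normalised coordinates -/
lemma core {c s g q w a t t' h Y' τ p0 : ℝ} {N K : ℕ} (hcs : c ^ 2 + s ^ 2 = 1)
    (hc : c * (1 + g) = 1) (c0 : 0 < c) (g0 : 0 < g) (q0 : 0 < q) (hw : w * q = g)
    (ht : s = t * c) (ha : a - t = q) (τ1 : max a 0 + max (-t) 0 ≤ τ)
    (τ2 : max t' 0 + max (-t) 0 ≤ τ) (τ3 : 1 - c ≤ τ) (hp : p0 = q * h + τ - N)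
    (K0 : 0 < K) (K1 : K * q ≤ N * g - p0) (K2 : N * g - p0 < (K + 1) * q)
    (ht' : t' - t = g * w) (hY : Y' - h * (1 + g) = K - p0 * w - τ) :
    Cv (fun x y => 0 ≤ x ∧ c * x + s * y ≤ a * (-s * x + c * y) ∧ h ≤ -s * x + c * y ∧
      y ≤ t' * x + Y') (N * K) := by
  classical
  have w0 : 0 < w := by
    by_contra hh
    have : w * q ≤ 0 := mul_nonpos_of_nonpos_of_nonneg (not_lt.1 hh) q0.le
    linarith
  let j : ℕ → ℕ := fun r => ⌈(p0 + r * q) / g⌉₊
  have jmono : ∀ r r', r ≤ r' → j r ≤ j r' := by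
    intro r r' hr
    refine Nat.ceil_mono (div_le_div_of_nonneg_right ?_ g0.le)
    have : (r : ℝ) ≤ r' := by exact_mod_cast hr
    nlinarith
  have jlo : ∀ r, p0 + r * q ≤ j r * g := fun r =>
    (div_le_iff₀ g0).1 (Nat.le_ceil _)
  have jlt : ∀ r (i : ℕ), i < j r → i * g < p0 + r * q := fun r i hi =>
    (lt_div_iff₀ g0).1 (Nat.lt_ceil.1 hi)
  have rK : ∀ r < K, p0 + r * q ≤ N * g - q := by
    intro r hr
    have : (r : ℝ) + 1 ≤ K := by exact_mod_cast hr
    nlinarith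
  have jN : ∀ r < K, j r ≤ N := fun r hr =>
    Nat.ceil_le.2 ((div_le_iff₀ g0).2 (by linarith [rK r hr]))
  let len : ℕ → ℕ := fun i => ((Finset.range K).filter fun r => i < j r).card
  have rows := Cv.sum K fun r _ => (cv_if (k := N - j r) (l := 1)
    (a * (h + r) + max a 0 - (N - j r : ℕ)) (h + r)).rot hcs 0 0
  have cols := Cv.sum N fun i _ => cv_if (k := 1) (l := len i) i
    (t' * i + Y' + max t' 0 - len i)
  refine (rows.or cols).mono (le_of_eq ?_) ?_
  · have := count N K j jN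
    simp only [Nat.cast_one, mul_one, one_mul]
    exact_mod_cast this
  rintro x y ⟨x0, hwall, hlo, hhi⟩
  set η := -s * x + c * y with hη
  set ξ := c * x + s * y with hξ
  have eξ : ξ = x * (1 + g) + t * η := by
    have h1 : c * ξ = c * (x * (1 + g) + t * η) := by
      rw [hξ, hη]
      linear_combination x * hcs - x * hc + (-s * x + c * y) * ht
    exact mul_left_cancel₀ c0.ne' h1
  have ey : y = η * (1 + g) + t * x := by
    have h1 : c * y = c * (η * (1 + g) + t * x) := by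
      rw [hη]
      linear_combination x * ht - (-s * x + c * y) * hc
    exact mul_left_cancel₀ c0.ne' h1
  have hx : x ≤ c * q * η := by
    have h1 : x * (1 + g) ≤ q * η := by rw [← ha]; linarith
    have h2 := mul_le_mul_of_nonneg_left h1 c0.le
    have h3 : c * (x * (1 + g)) = x := by linear_combination x * hc
    linarith
  have hK : η ≤ h + K := by
    refine step1 hc c0 g0 w0 hw hx ?_ hp K2 τ3
    have : t' * x = t * x + g * w * x := by linear_combination x * ht'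
    linarith
  obtain ⟨r, hr, r1, r2⟩ := exists_int K0 (x := η - h) (by linarith) (by linarith)
  have b1 := max_hi (t := a) (u := h + r) (v := η) (by linarith) (by linarith)
  have b2 := max_lo (t := t) (u := h + r) (v := η) (by linarith) (by linarith)
  have b3 : a * (h + r) = t * (h + r) + q * h + r * q := by linear_combination (h + r) * ha
  by_cases hxj : (j r : ℝ) ≤ x
  · have b4 : (j r : ℝ) * (1 + g) ≤ x * (1 + g) := mul_le_mul_of_nonneg_right hxj (by linarith)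
    have hlt : j r < N := by
      refine lt_of_le_of_ne (jN r hr) fun e => ?_
      rw [e] at b4
      have := rK r hr
      linarith
    refine Or.inl ⟨r, hr, ⟨by omega, one_pos⟩, ?_, ?_, ?_, ?_⟩
    · rw [Nat.cast_sub hlt.le]
      have := jlo r
      linarith
    · linarith
    · linarith
    · push_cast; linarith
  · have hxj' : x < j r := not_le.1 hxj
    have i1 : ⌊x⌋₊ < j r := (Nat.floor_lt x0).2 hxj'
    have i2 := Nat.floor_le x0
    have i3 := (Nat.lt_floor_add_one x).le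
    set i := ⌊x⌋₊
    have hex : ∃ ρ, i < j ρ := ⟨r, i1⟩
    have ρ1 : Nat.find hex ≤ r := Nat.find_min' hex i1
    have ρ2 : i < j (Nat.find hex) := Nat.find_spec hex
    have hlen : len i = K - Nat.find hex := by
      have : ((Finset.range K).filter fun r => i < j r) = Finset.Ico (Nat.find hex) K := by
        ext r'
        simp only [Finset.mem_filter, Finset.mem_range, Finset.mem_Ico]
        exact ⟨fun h => ⟨Nat.find_min' hex h.2, h.1⟩,
          fun h => ⟨h.2, lt_of_lt_of_le ρ2 (jmono _ _ h.1)⟩⟩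
      simp only [len, this, Nat.card_Ico]
    set ρ := Nat.find hex
    have c1 := max_hi (t := t') i2 i3
    have c2 := max_lo (t := t) i2 i3
    have c3 := mul_le_mul_of_nonneg_left (jlt ρ i ρ2).le w0.le
    have c4 : w * (p0 + ρ * q) = p0 * w + ρ * g := by linear_combination (ρ : ℝ) * hw
    have c5 : t' * i = t * i + w * (i * g) := by linear_combination (i : ℝ) * ht'
    have c6 : (ρ : ℝ) ≤ r := by exact_mod_cast ρ1
    have c7 : (h + ρ) * (1 + g) ≤ η * (1 + g) :=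
      mul_le_mul_of_nonneg_right (by linarith) (by linarith)
    refine Or.inr ⟨i, lt_of_lt_of_le i1 (jN r hr), ⟨one_pos, by omega⟩, i2, by simpa using i3,
      ?_, ?_⟩
    · rw [hlen, Nat.cast_sub (by omega)]
      linarith
    · linarith

end Cell

theorem cell : CellStmt := by
  intro C S c s h c' s' h' τ p0 N K _ S0 _ hcs c0 c1 _ c0' D0 τ1 τ2 τ3 hp _ K0 K1 K2 ht' hY
  have q0 : 0 < qq C S c s := div_pos S0 (mul_pos c0 D0)
  have g0 : 0 < 1 / c - 1 := by
    rw [sub_pos, lt_div_iff₀ c0]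
    linarith
  have hc : c * (1 + (1 / c - 1)) = 1 := by field_simp; ring
  have ha : (C * s + S * c) / (C * c - S * s) - s / c = qq C S c s := by
    rw [qq, div_sub_div _ _ D0.ne' c0.ne', mul_comm c (C * c - S * s)]
    congr 1
    linear_combination S * hcs
  refine (Cell.core (w := (1 / c - 1) / qq C S c s) (t := s / c) (t' := s' / c') (Y' := h' / c')
    hcs hc c0 g0 q0 (div_mul_cancel₀ _ q0.ne') (div_mul_cancel₀ _ c0.ne').symm ha τ1 τ2 τ3 hp
    K0 K1 K2 (by rw [ht']; ring) ?_).mono le_rfl ?_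
  · have : h * (1 + (1 / c - 1)) = h / c := by ring
    rw [this, hY]
    ring
  · rintro x y ⟨x0, h1, h2, h3⟩
    refine ⟨x0, ?_, h2, ?_⟩
    · rw [div_mul_eq_mul_div, le_div_iff₀ D0]
      have : (C * s + S * c) * (-s * x + c * y) - (c * x + s * y) * (C * c - S * s) =
          S * y - C * x := by linear_combination (S * y - C * x) * hcs
      linarith
    · rw [div_mul_eq_mul_div, ← add_div, le_div_iff₀ c0']
      linarith

end Pool.Agent.MP_c59ecb_co.sh

end MrgPart1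

-- ======== part 2: formerly Pool.Agent.MP_c59ecb_co.sh.Strip
section MrgPart2

/-! One step of the recursion and the covering of the strip. -/

set_option autoImplicit false

namespace Pool.Agent.MP_c59ecb_co.sh

open Pool.Agent.MP_c59ecb_co.h76

namespace Strip

variable {b C S c s h : ℝ} {N : ℕ}

lemma S0 (u : UP b C S N) : 0 < S := by
  rw [u.hS]
  have := u.b0
  positivity

lemma S1 (u : UP b C S N) : S ≤ b / 10 ^ 6 := by
  rw [u.hS]
  nlinarith [u.b0, u.b1]

lemma C1 (u : UP b C S N) : C ≤ 1 := by nlinarith [u.hC, u.C0, sq_nonneg S]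

lemma C2 (u : UP b C S N) : 999 / 1000 ≤ C := by
  have h0 := S0 u
  have h1 := S1 u
  have h2 := u.b1
  have h3 : S ≤ 1 / 100 := by linarith
  by_contra hh
  nlinarith [u.hC, u.C0, not_le.1 hh]

lemma NS (u : UP b C S N) : N * S ≤ 1 + 11 * b := by
  rw [u.hS]
  nlinarith [u.N2, u.b0, u.b1]

lemma NS' (u : UP b C S N) : 1 ≤ N * S := by
  rw [u.hS]
  nlinarith [u.N1, u.b0]

lemma c_le (hcs : c ^ 2 + s ^ 2 = 1) : c ≤ 1 := by nlinarith [sq_nonneg s, sq_nonneg (c - 1)]

lemma D_pos (u : UP b C S N) (hc : 0 < c) (t2 : s ≤ (b + b ^ 2) * c) : 0 < C * c - S * s := by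
  have h0 := S0 u
  have h1 := S1 u
  have h2 := u.b1
  have h3 := u.b0
  have h4 := C2 u
  have h5 : S * s ≤ S * ((b + b ^ 2) * c) := by gcongr
  have h6 : S * (b + b ^ 2) ≤ 1 / 2 := by nlinarith
  nlinarith

/-- removing the first column -/
lemma peel (u : UP b C S N) (hcs : c ^ 2 + s ^ 2 = 1) (hc : 0 < c) (t1 : (b - b ^ 2) * c ≤ s)
    (t2 : s ≤ (b + b ^ 2) * c) (p1 : N + 1 + 6 * b ≤ qq C S c s * h + (b + 2 * b ^ 2))
    (p2 : qq C S c s * h + (b + 2 * b ^ 2) ≤ N + 1 + 16 * b) :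
    USt b C S N c s (h - (C * c - S * s) / S) := by
  have h0 := S0 u
  have hD := D_pos u hc t2
  have b0 := u.b0
  have b1 := u.b1
  have hc1 := c_le hcs
  have e : qq C S c s * (h - (C * c - S * s) / S) = qq C S c s * h - 1 / c := by
    unfold qq
    generalize C * c - S * s = D at hD
    field_simp
  have s0 : 0 ≤ s := le_trans (mul_nonneg (by nlinarith) hc.le) t1
  have s1 : s ≤ 2 * b * c := t2.trans (by gcongr; nlinarith)
  have s2 : s ^ 2 ≤ (2 * b * c) ^ 2 := by gcongr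
  have k1 : 1 ≤ 1 / c := by rw [le_div_iff₀ hc]; linarith
  have k2 : 1 / c ≤ 1 + 6 * b := by
    rw [div_le_iff₀ hc]
    have a1 : c ^ 2 ≤ c := by nlinarith
    have a2 : b ^ 2 * c ^ 2 ≤ b * c := by
      have : b * c ≤ 1 := by nlinarith
      have : 0 < b * c := by positivity
      nlinarith
    nlinarith [mul_pos b0 hc]
  exact ⟨hcs, hc, t1, t2, by rw [e]; linarith, by rw [e]; linarith⟩

/-- bounds for the length of the lower edge -/
lemma len (u : UP b C S N) (w : USt b C S N c s h) :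
    2 ≤ S * h / (C * c - S * s) ∧ S * (S * h / (C * c - S * s)) ≤ 101 / 100 := by
  have h0 := S0 u
  have h1 := S1 u
  have hD := D_pos u w.c0 w.t2
  have b0 := u.b0
  have b1 := u.b1
  have hc := w.c0
  have hc1 := c_le w.cs
  have e : S * h / (C * c - S * s) = c * (qq C S c s * h) := by
    unfold qq
    field_simp
  have n1 := NS u
  have n2 := NS' u
  have p1 := w.p1
  have p2 := w.p2
  have s0 : 0 ≤ s := le_trans (mul_nonneg (by nlinarith) hc.le) w.t1
  have s1 : s ≤ 1 / 100 := w.t2.trans (by nlinarith)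
  have c1 : 1 / 2 ≤ c := by
    by_contra hh
    nlinarith [w.cs, not_le.1 hh]
  have n3 : (10 : ℝ) ≤ N := by
    by_contra hh
    nlinarith [not_le.1 hh]
  rw [e]
  set L := qq C S c s * h
  have l1 : 5 ≤ L := by nlinarith
  have l2 : L ≤ N + 1 := by nlinarith
  have l3 : c * L ≤ N + 1 := by nlinarith
  have l4 : S * (c * L) ≤ S * (N + 1) := by gcongr
  exact ⟨by nlinarith, by nlinarith⟩

lemma heights {Y0 Y1 k0 k1 : ℝ} (b0 : 0 < b) (b1 : b ≤ 1 / 10 ^ 6) (h0 : 0 < S)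
    (h1 : S ≤ b / 10 ^ 6) (y0 : 0 ≤ Y0) (y1 : S * (S * Y0) ≤ 2) (a1 : 999 / 1000 ≤ k1)
    (a2 : k1 ≤ k0) (a3 : k0 - k1 ≤ 2 * S ^ 2) (a4 : k1 ≤ 1 + b)
    (d1 : 1 - 15 * b ≤ S * (Y1 - Y0)) (d2 : S * (Y1 - Y0) ≤ 1 + 15 * b) :
    1 / 2 ≤ S * (Y1 / k1 - Y0 / k0) ∧ S * (Y1 / k1 - Y0 / k0) ≤ 6 / 5 ∧
      (2 * b + 300 * b ^ 2) * (Y1 - Y0) ≤ 2 * b * (1 + 200 * b) * (Y1 / k1 - Y0 / k0) := by
  have k10 : 0 < k1 := by linarith
  have k00 : 0 < k0 := by linarith
  obtain ⟨A, rfl⟩ : ∃ A, Y1 = A * k1 := ⟨Y1 / k1, by field_simp⟩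
  obtain ⟨B, rfl⟩ : ∃ B, Y0 = B * k0 := ⟨Y0 / k0, by field_simp⟩
  rw [mul_div_cancel_right₀ _ k10.ne', mul_div_cancel_right₀ _ k00.ne']
  have B0 : 0 ≤ B := by
    by_contra hh
    nlinarith [mul_pos (neg_pos.2 (not_le.1 hh)) k00]
  have B1 : B * S ^ 2 ≤ 3 := by
    have : 0 ≤ B * S ^ 2 := by positivity
    nlinarith
  have m0 : 0 ≤ B * (k0 - k1) := mul_nonneg B0 (by linarith)
  have m1 : B * (k0 - k1) ≤ 6 := by
    have : B * (k0 - k1) ≤ B * (2 * S ^ 2) := by gcongr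
    linarith
  have e : (A - B) * k1 = (A * k1 - B * k0) + B * (k0 - k1) := by ring
  have m2 : 0 ≤ S * (B * (k0 - k1)) := by positivity
  have m3 : S * (B * (k0 - k1)) ≤ S * 6 := by gcongr
  have e' : S * (A - B) * k1 = S * (A * k1 - B * k0) + S * (B * (k0 - k1)) := by ring
  have r1 : 1 / 2 ≤ S * (A - B) := by
    by_contra hh
    nlinarith [not_le.1 hh]
  have r2 : S * (A - B) ≤ 6 / 5 := by
    by_contra hh
    nlinarith [not_le.1 hh]
  have r3 : 0 ≤ A - B := by
    by_contra hh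
    nlinarith [mul_pos h0 (neg_pos.2 (not_le.1 hh))]
  refine ⟨r1, r2, ?_⟩
  have r4 : A * k1 - B * k0 ≤ (A - B) * (1 + b) := by nlinarith
  have r5 : (2 * b + 300 * b ^ 2) * (1 + b) ≤ 2 * b * (1 + 200 * b) := by
    have : b ^ 3 ≤ b ^ 2 / 10 := by nlinarith [sq_nonneg b]
    nlinarith [sq_nonneg b]
  calc (2 * b + 300 * b ^ 2) * (A * k1 - B * k0)
      ≤ (2 * b + 300 * b ^ 2) * ((A - B) * (1 + b)) := by gcongr
    _ = (2 * b + 300 * b ^ 2) * (1 + b) * (A - B) := by ring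
    _ ≤ _ := by gcongr

lemma qq_refl (hC : C ^ 2 + S ^ 2 = 1) :
    qq C S (C * c - S * s) (-(C * s + S * c)) = qq C S c s := by
  have e : C * (C * c - S * s) - S * -(C * s + S * c) = c := by linear_combination c * hC
  unfold qq
  rw [e, mul_comm]

/-- the reflection in the bisector of the wedge -/
lemma btw_refl {c1 s1 h' M : ℝ} (hC : C ^ 2 + S ^ 2 = 1)
    (hv : Cv (Btw C S (C * c - S * s) (-(C * s + S * c)) h c1 s1 h') M) :
    Cv (Btw C S c s h (C * c1 - S * s1) (-(C * s1 + S * c1)) h') M := by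
  refine (hv.refl.rot (c := C) (s := -S) (by linarith) 0 0).mono le_rfl ?_
  rintro x y ⟨k1, k2, k3, k4⟩
  refine ⟨by linarith, ?_, ?_, ?_⟩
  · have e : S * (- -S * x + C * y + 0) - C * -(C * x + -S * y + 0) = x := by
      linear_combination x * hC
    linarith
  · have e : - -(C * s + S * c) * -(C * x + -S * y + 0) + (C * c - S * s) * (- -S * x + C * y + 0)
        = -s * x + c * y := by linear_combination (-s * x + c * y) * hC
    linarith
  · linarith

lemma slope_in (u : UP b C S N) (w : USt b C S N c s h) (hs : b * c ≤ s) :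
    (b + S) * (C * c - S * s) ≤ C * s + S * c ∧
      C * s + S * c ≤ (b + 2 * b ^ 2) * (C * c - S * s) := by
  have h0 := S0 u
  have b0 := u.b0
  have b1 := u.b1
  have hc := w.c0
  have C1 := C1 u
  have C2 := C2 u
  have hS := u.hS
  have s0 : 0 ≤ s := le_trans (by positivity) hs
  have t2 := w.t2
  constructor
  · have e1 : 0 ≤ C * (s - b * c) := mul_nonneg u.C0.le (by linarith)
    have e2 : 0 ≤ S * c * (1 - C) := mul_nonneg (by positivity) (by linarith)
    have e3 : 0 ≤ (b + S) * S * s := by positivity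
    linarith
  · have e1 : 0 ≤ C * ((b + b ^ 2) * c - s) := mul_nonneg u.C0.le (by linarith)
    have e2 : (b + 2 * b ^ 2) * s ≤ c / 2 := by
      have i1 : (b + 2 * b ^ 2) * s ≤ (b + 2 * b ^ 2) * ((b + b ^ 2) * c) := by gcongr
      have i2 : b + 2 * b ^ 2 ≤ 1 / 2 := by nlinarith
      have i3 : b + b ^ 2 ≤ 1 := by nlinarith
      have i4 : (b + 2 * b ^ 2) * ((b + b ^ 2) * c) ≤ 1 / 2 * (1 * c) := by gcongr
      linarith
    have e3 : S * ((b + 2 * b ^ 2) * s) ≤ S * (c / 2) := by gcongr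
    have e4 : 0 ≤ S * c * (C - 999 / 1000) := mul_nonneg (by positivity) (by linarith)
    have e5 : 0 < S * c := by positivity
    have e6 : b ^ 2 = 2 * S := by linarith
    have e7 : b ^ 2 * (C * c) = 2 * (S * c * C) := by rw [e6]; ring
    linarith

lemma slope_out {v v1 : ℝ} (u : UP b C S N) (f1 : b + S ≤ v) (f2 : v ≤ b + 2 * b ^ 2)
    (f3 : v1 ≤ v) (f4 : v - S * (1 + 10 * b) ≤ v1) (i1 : C * v - S ≤ (b + b ^ 2) * (C + S * v)) :
    (b - b ^ 2) * (C + S * v1) ≤ C * v1 - S ∧ C * v1 - S ≤ (b + b ^ 2) * (C + S * v1) ∧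
      999 / 1000 ≤ C + S * v1 ∧ C + S * v1 ≤ C + S * v ∧
      C + S * v - (C + S * v1) ≤ 2 * S ^ 2 ∧ C + S * v1 ≤ 1 + b := by
  have h0 := S0 u
  have h1 := S1 u
  have b0 := u.b0
  have b1 := u.b1
  have C0 := u.C0
  have C1 := C1 u
  have C2 := C2 u
  have hS := u.hS
  have hb : b ^ 2 ≤ b / 10 ^ 6 := by nlinarith
  have f5 : b - 10 * b * S ≤ v1 := by linarith
  have g : b * S ≤ 1 / 10 ^ 6 * S := by gcongr
  have f6 : 0 ≤ v1 := by linarith
  have g0 : 0 ≤ S * v1 := by positivity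
  have g1 : S * v1 ≤ S * (2 * b) := by gcongr; linarith
  have g2 : S * v1 ≤ S * v := by gcongr
  refine ⟨?_, ?_, by linarith, by linarith, ?_, by linarith⟩
  · have j1 : C * (b - 10 * b * S) ≤ C * v1 := by gcongr
    have j2 : (b - b ^ 2) * (S * v1) ≤ 1 * (S * v1) := by
      gcongr
      nlinarith [sq_nonneg b]
    have j3 : b ^ 2 * C = 2 * (C * S) := by rw [hS]; ring
    have j4 : C * (b * S) ≤ 1 * (b * S) := by gcongr
    have j5 : 999 / 1000 * S ≤ C * S := by gcongr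
    linarith
  · have j1 : (b + b ^ 2) * S ≤ 1 * S := by gcongr; linarith
    have j2 : 0 ≤ (C - (b + b ^ 2) * S) * (v - v1) := mul_nonneg (by linarith) (by linarith)
    linarith
  · have j1 : S * (v - v1) ≤ S * (S * 2) := by
      gcongr
      linarith
    linarith

lemma sum_lin (Z t : ℝ) (J : ℕ) :
    ∑ j ∈ Finset.range J, ((1 : ℕ) : ℝ) * (Z - t * j + 1) = J * (Z + 1) - t * (J * (J - 1)) / 2 := by
  induction J with
  | zero => simp
  | succ J ih =>
    rw [Finset.sum_range_succ, ih]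
    push_cast
    ring

lemma slope (u : UP b C S N) (w : USt b C S N c s h) : 0 ≤ s / c ∧ s / c ≤ 1 / 1000 := by
  have b0 := u.b0
  have b1 := u.b1
  have a1 : b - b ^ 2 ≤ s / c := (le_div_iff₀ w.c0).2 w.t1
  have a2 : s / c ≤ b + b ^ 2 := (div_le_iff₀ w.c0).2 w.t2
  exact ⟨by nlinarith, by nlinarith⟩

lemma cap_count {x X J Y Z G t : ℝ} (h0 : 0 < S) (h1 : S ≤ 1 / 1000) (C2 : 999 / 1000 ≤ C)
    (t0 : 0 ≤ t) (t1 : t ≤ 1 / 1000) (x0 : 2 ≤ x) (x1 : S * x ≤ 101 / 100)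
    (ex : x * (C - S * t) = S * Y) (eX : C * X = S * G) (eZ : Z = G - Y) (g1 : 3 / 2 ≤ S * Z)
    (g2 : S * Z ≤ 3) (j1 : X ≤ J) (j2 : J ≤ X + 1) :
    t * J ≤ Z ∧ J * (Z + 1) - t * (J * (J - 1)) / 2 ≤ X * G / 2 - x * Y / 2 + 30 / S := by
  have e1 : C * (X - x) = S * Z - t * (S * x) := by rw [eZ]; linarith
  have m0 : 0 ≤ t * (S * x) := by positivity
  have m1 : t * (S * x) ≤ 1 / 1000 * (101 / 100) := by gcongr
  have C0 : 0 < C := by linarith
  have a1 : 0 ≤ X - x := le_of_mul_le_mul_left (by linarith) C0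
  have a2 : X - x ≤ 4 := le_of_mul_le_mul_left (by linarith) C0
  have Z0 : 0 ≤ Z := le_of_mul_le_mul_left (by linarith) h0
  have a3 : S * J ≤ S * (x + 5) := by gcongr; linarith
  have a4 : t * (S * J) ≤ 1 / 1000 * 2 := by
    have : 0 ≤ S * J := mul_nonneg h0.le (by linarith)
    gcongr
    linarith
  refine ⟨le_of_mul_le_mul_left (by linarith) h0, ?_⟩
  have a5 : x * Z - t * x ^ 2 / 2 ≤ X * G / 2 - x * Y / 2 := by
    refine le_of_mul_le_mul_left ?_ h0
    have e2 : S * (X * G / 2 - x * Y / 2) - S * (x * Z - t * x ^ 2 / 2) = C * (X - x) ^ 2 / 2 := by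
      rw [eZ]
      linear_combination (x - X / 2) * eX - x / 2 * ex
    have : 0 ≤ C * (X - x) ^ 2 / 2 := by positivity
    linarith
  have a6 : t * (x * (x - 1)) ≤ t * (J * (J - 1)) := by
    gcongr <;> linarith
  have a7 : J * (Z + 1) ≤ (x + 5) * (Z + 1) := by gcongr; linarith
  have a8 : 5 * Z + x + 5 + t * x / 2 ≤ 30 / S := by
    rw [le_div_iff₀ h0]
    linarith
  linarith

/-- the last piece is covered by plain columns -/
lemma cap {G : ℝ} (u : UP b C S N) (w : USt b C S N c s h) (g1 : 3 / 2 ≤ S * (G - h / c))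
    (g2 : S * (G - h / c) ≤ 3) :
    Cv (fun x y => 0 ≤ x ∧ C * x ≤ S * y ∧ h ≤ -s * x + c * y ∧ y ≤ G)
      (S * G ^ 2 / (2 * C) - Ar C S c s h + 30 / S) := by
  have h0 := S0 u
  have h1 := S1 u
  have b1 := u.b1
  have hc := w.c0
  have C0 := u.C0
  have hD := D_pos u hc w.t2
  obtain ⟨t0, t1⟩ := slope u w
  obtain ⟨x0, x1⟩ := len u w
  have ex : S * h / (C * c - S * s) * (C - S * (s / c)) = S * (h / c) := by
    have : C - S * (s / c) = (C * c - S * s) / c := by field_simp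
    rw [this]
    generalize C * c - S * s = D at hD
    field_simp
  have eX : C * (S * G / C) = S * G := by field_simp
  have eA : Ar C S c s h = S * h / (C * c - S * s) * (h / c) / 2 := by
    unfold Ar qq
    generalize C * c - S * s = D at hD
    field_simp
  have eG : S * G ^ 2 / (2 * C) = S * G / C * G / 2 := by field_simp
  have Y0 : 0 ≤ S * (h / c) := by
    rw [← ex]
    have : S * (s / c) ≤ 1 / 1000 * (1 / 1000) := by gcongr; linarith
    exact mul_nonneg (by linarith) (by linarith [C2 u])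
  have X0 : 0 < S * G / C := div_pos (by linarith) C0
  obtain ⟨r1, r2⟩ := cap_count h0 (by linarith) (C2 u) t0 t1 x0 x1 ex eX rfl g1 g2
    (Nat.le_ceil _) (Nat.ceil_lt_add_one X0.le).le
  have hJ : 0 < ⌈S * G / C⌉₊ := Nat.ceil_pos.2 X0
  refine (Cv.sum ⌈S * G / C⌉₊ fun j hj => Cv.box' (k := 1) one_pos j (h / c + s / c * j)
    (g := G - h / c - s / c * j) ?_).mono ?_ ?_
  · have : s / c * j ≤ s / c * ⌈S * G / C⌉₊ := by gcongr
    linarith
  · rw [sum_lin, eA, eG]
    exact r2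
  · rintro x y ⟨k1, k2, k3, k4⟩
    have k5 : S * y ≤ S * G := by gcongr
    have k6 : x ≤ S * G / C := by rw [le_div_iff₀ C0]; linarith
    obtain ⟨j, hj, k7, k8⟩ := exists_int hJ k1 (k6.trans (Nat.le_ceil _))
    have k9 : s / c * j ≤ s / c * x := by gcongr
    have k10 : h / c + s / c * x ≤ y := by
      rw [div_mul_eq_mul_div, ← add_div, div_le_iff₀ hc]
      linarith
    exact ⟨j, hj, k7, by push_cast; linarith, by linarith, by linarith⟩

end Strip

open Strip

theorem stepU (hQ : CellQStmt) : StepUStmt := by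
  intro b C S c s h N u w
  have h0 := S0 u
  have h1 := S1 u
  have b0 := u.b0
  have b1 := u.b1
  have hc := w.c0
  rcases le_total s (b * c) with hs | hs
  · obtain ⟨c', s', h', k1, k2, k3, k4, k5, k6, k7, k8, k9⟩ :=
      hQ b C S c s h N u w.cs hc (Or.inl ⟨w.t1, hs⟩) w.p1 w.p2
    have a1 : b - b ^ 2 ≤ s / c := (le_div_iff₀ hc).2 w.t1
    have a2 : s / c ≤ b := (div_le_iff₀ hc).2 hs
    have a3 : S * (1 + 10 * b) ≤ b ^ 2 := by
      have : S * (1 + 10 * b) ≤ S * 2 := by gcongr; linarith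
      linarith [u.hS]
    have a4 : 0 ≤ h' / c' - h / c := le_of_mul_le_mul_left (by linarith) h0
    refine ⟨c', s', h', peel u k1 k2 ((le_div_iff₀ k2).1 (by linarith))
      ((div_le_iff₀ k2).1 (by linarith)) k5 k6, by linarith, by linarith,
      k9.mono ?_ fun _ _ hp => hp⟩
    linarith [mul_nonneg (sq_nonneg b) a4]
  · have hD := D_pos u hc w.t2
    obtain ⟨a1, a2⟩ := slope_in u w hs
    have hcs : (C * c - S * s) ^ 2 + (-(C * s + S * c)) ^ 2 = 1 := by
      linear_combination (C ^ 2 + S ^ 2) * w.cs + u.hC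
    obtain ⟨c1, s1, h', k1, k2, k3, k4, k5, k6, k7, k8, k9⟩ :=
      hQ b C S (C * c - S * s) (-(C * s + S * c)) h N u hcs hD
        (Or.inr ⟨by linarith, by linarith [mul_pos h0 hD]⟩)
        (by rw [qq_refl u.hC]; exact w.p1) (by rw [qq_refl u.hC]; exact w.p2)
    obtain ⟨l1, l2⟩ := len u w
    have eA : Ar C S (C * c - S * s) (-(C * s + S * c)) h = Ar C S c s h := by
      unfold Ar
      rw [qq_refl u.hC]
    have eA' : Ar C S (C * c1 - S * s1) (-(C * s1 + S * c1)) h' = Ar C S c1 s1 h' := by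
      unfold Ar
      rw [qq_refl u.hC]
    obtain ⟨v, hv⟩ : ∃ v, v = -(-(C * s + S * c) / (C * c - S * s)) := ⟨_, rfl⟩
    obtain ⟨v1, hv1⟩ : ∃ v1, v1 = -(s1 / c1) := ⟨_, rfl⟩
    have e0 : C * s + S * c = v * (C * c - S * s) := by
      rw [hv, neg_div, neg_neg, div_mul_cancel₀ _ hD.ne']
    have e1 : s1 = -v1 * c1 := by rw [hv1, neg_neg, div_mul_cancel₀ _ k2.ne']
    have ec : c = (C * c - S * s) * (C + S * v) := by
      linear_combination (-c) * u.hC + S * e0
    have es : s = (C * c - S * s) * (C * v - S) := by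
      linear_combination (-s) * u.hC + C * e0
    have ec' : C * c1 - S * s1 = c1 * (C + S * v1) := by rw [e1]; ring
    have es' : -(C * s1 + S * c1) = c1 * (C * v1 - S) := by rw [e1]; ring
    obtain ⟨g3, g4, g5, g6, g7, g8⟩ := slope_out (v := v) (v1 := v1) u
      (le_of_mul_le_mul_right (by rw [← e0]; exact a1) hD)
      (le_of_mul_le_mul_right (by rw [← e0]; exact a2) hD) (by linarith) (by linarith)
      (le_of_mul_le_mul_left (a := C * c - S * s)
        (by rw [← es, mul_left_comm, ← ec]; exact w.t2) hD)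
    have c'0 : 0 < C * c1 - S * s1 := by
      rw [ec']
      exact mul_pos k2 (by linarith)
    have hcs' : (C * c1 - S * s1) ^ 2 + (-(C * s1 + S * c1)) ^ 2 = 1 := by
      linear_combination (C ^ 2 + S ^ 2) * k1 + u.hC
    rw [mul_div_assoc] at l1 l2
    have g9 := heights (Y0 := h / (C * c - S * s)) (Y1 := h' / c1) b0 b1 h0 h1
      (le_of_mul_le_mul_left (by linarith) h0) (by linarith) g5 g6 g7 g8 k7 k8
    rw [div_div, div_div, ← ec, ← ec'] at g9
    refine ⟨C * c1 - S * s1, -(C * s1 + S * c1), h', peel u hcs' c'0 ?_ ?_ ?_ ?_, g9.1, g9.2.1,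
      (btw_refl u.hC k9).mono ?_ fun _ _ hp => hp⟩
    · rw [ec', es', mul_left_comm]
      exact mul_le_mul_of_nonneg_left g3 k2.le
    · rw [ec', es', mul_left_comm]
      exact mul_le_mul_of_nonneg_left g4 k2.le
    · rw [qq_refl u.hC]
      exact k5
    · rw [qq_refl u.hC]
      exact k6
    · rw [eA, eA']
      linarith [g9.2.2]

theorem strip (hU : StepUStmt) : StripStmt := by
  intro b C S c s h G N u w g1
  have h0 := S0 u
  have h1 := S1 u
  have b0 := u.b0
  have b1 := u.b1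
  have C0 := u.C0
  have β0 : 0 ≤ 2 * b * (1 + 200 * b) := by positivity
  obtain ⟨J, hJ⟩ : ∃ J : ℕ, S * (G - h / c) ≤ J / 2 + 3 :=
    ⟨⌈2 * (S * (G - h / c))⌉₊, by linarith [Nat.le_ceil (2 * (S * (G - h / c)))]⟩
  have base : ∀ c s h G : ℝ, USt b C S N c s h → 3 / 2 ≤ S * (G - h / c) → S * (G - h / c) ≤ 3 →
      Cv (fun x y => 0 ≤ x ∧ C * x ≤ S * y ∧ h ≤ -s * x + c * y ∧ y ≤ G)
        (S * G ^ 2 / (2 * C) - Ar C S c s h + 2 * b * (1 + 200 * b) * (G - h / c) + 30 / S) := by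
    intro c s h G w g1 g2
    have Z0 : 0 ≤ G - h / c := le_of_mul_le_mul_left (by linarith) h0
    exact (cap u w g1 g2).mono (by linarith [mul_nonneg β0 Z0]) fun _ _ hp => hp
  induction J generalizing c s h G with
  | zero => exact base c s h G w g1 (by simpa using hJ)
  | succ J ih =>
    rcases le_total (S * (G - h / c)) 3 with g2 | g2
    · exact base c s h G w g1 g2
    obtain ⟨c', s', h', w', k1, k2, k3⟩ := hU b C S c s h N u w
    have hc := w'.c0
    have hD := D_pos u hc w'.t2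
    obtain ⟨t0, t1⟩ := slope u w'
    have e1 : G - C / S - (h' - (C * c' - S * s') / S) / c' = G - h' / c' - s' / c' := by
      field_simp
      ring
    have e2 : Ar C S c' s' (h' - (C * c' - S * s') / S)
        = Ar C S c' s' h' - h' / c' + C / (2 * S) - s' / c' / 2 := by
      have : C / (2 * S) - s' / c' / 2 = (C * c' - S * s') / (2 * S * c') := by field_simp
      rw [add_sub_assoc, this]
      unfold Ar qq
      generalize C * c' - S * s' = D at hD
      field_simp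
      ring
    have e3 : S * (G - C / S) ^ 2 / (2 * C) = S * G ^ 2 / (2 * C) - G + C / (2 * S) := by
      field_simp
      ring
    have m0 : 0 ≤ S * (s' / c') := by positivity
    have m1 : S * (s' / c') ≤ 1 / 1000 * (1 / 1000) := by gcongr; linarith
    push_cast at hJ
    have hI := ih c' s' (h' - (C * c' - S * s') / S) (G - C / S) w' (by rw [e1]; linarith)
      (by rw [e1]; linarith)
    rw [e1, e2, e3] at hI
    have Z0 : 0 ≤ G - h' / c' := le_of_mul_le_mul_left (by linarith) h0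
    refine ((k3.or (Cv.box' (k := 1) one_pos 0 (h' / c') Z0)).or
      (hI.shift (-1) (-(C / S)))).mono ?_ ?_
    · push_cast
      linarith [mul_nonneg β0 t0]
    · rintro x y ⟨p1, p2, p3, p4⟩
      rcases le_total (-s' * x + c' * y) h' with p5 | p5
      · exact Or.inl (Or.inl ⟨p1, p2, p3, p5⟩)
      rcases le_total x 1 with p6 | p6
      · refine Or.inl (Or.inr ⟨p1, by simpa using p6, ?_, by linarith⟩)
        have s0 : 0 ≤ s' := by simpa using (le_div_iff₀ hc).1 t0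
        rw [div_le_iff₀ hc]
        linarith [mul_nonneg s0 p1]
      · have f1 : S * (y + -(C / S)) = S * y - C := by field_simp; ring
        have f2 : (C * c' - S * s') / S = c' * (C / S) - s' := by field_simp
        exact Or.inr ⟨by linarith, by rw [f1]; linarith, by rw [f2]; linarith, by linarith⟩


end Pool.Agent.MP_c59ecb_co.sh

end MrgPart2

-- ======== part 3: formerly Pool.Agent.MP_c59ecb_co.sh.Rect
section MrgPart3

/-! The trapezoid and the rectangle. -/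

set_option autoImplicit false

namespace Pool.Agent.MP_c59ecb_co.sh

open Pool.Agent.MP_c59ecb_co.h76

namespace Rect

lemma basic {b C S : ℝ} {N : ℕ} (hU : UP b C S N) :
    0 < S ∧ S ≤ 1 / 10 ^ 12 ∧ C ≤ 1 ∧ 1 - S ^ 2 ≤ C ∧ 99 / 100 ≤ C ∧ 1 ≤ S * N ∧
      S * N ≤ 101 / 100 := by
  obtain ⟨b0, b1, hS, C0, hC, N1, N2⟩ := hU
  have s0 : 0 < S := by rw [hS]; positivity
  have b2 : b ^ 2 ≤ (1 / 10 ^ 6) ^ 2 := by gcongr
  have s1 : S ≤ 1 / 10 ^ 12 := by rw [hS]; linarith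
  have c1 : C ≤ 1 := by nlinarith
  have c2 : 1 - S ^ 2 ≤ C := by nlinarith
  have s2 : S ^ 2 ≤ (1 / 10 ^ 12) ^ 2 := by gcongr
  refine ⟨s0, s1, c1, c2, by linarith, ?_, ?_⟩ <;> rw [hS] <;> linarith

lemma sum_cap (Z t : ℝ) (J : ℕ) : ∑ j ∈ Finset.range J, ((1 : ℕ) : ℝ) * (Z + t * (j + 1) + 1) =
    J * (Z + 1) + t * (J * (J + 1)) / 2 := by
  induction J with
  | zero => simp
  | succ J ih => rw [Finset.sum_range_succ, ih]; push_cast; ring

lemma count {C S t x Z J : ℝ} (s0 : 0 < S) (s1 : S ≤ 1 / 10 ^ 12) (c1 : 99 / 100 ≤ C)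
    (t0 : 0 ≤ t) (t1 : t ≤ 1 / 10 ^ 6) (x0 : 0 ≤ x) (x1 : S * x ≤ 2) (z0 : 0 ≤ Z) (z1 : S * Z ≤ 1)
    (j0 : 0 ≤ J) (j1 : J ≤ x + 1) :
    J * (Z + 1) + t * (J * (J + 1)) / 2 ≤
      x * Z + t * x ^ 2 / 2 - S * (t * x + Z) ^ 2 / (2 * C) + 70 / S := by
  have c0 : 0 < C := by linarith
  have a1 : J * (Z + 1) ≤ (x + 1) * (Z + 1) := by gcongr
  have a2 : t * (J * (J + 1)) ≤ t * ((x + 1) * (x + 1 + 1)) := by gcongr
  have a3 : t * (S * x) ≤ 1 / 10 ^ 6 * 2 := by gcongr
  have a4 : (S * (t * x + Z)) ^ 2 ≤ 2 ^ 2 := by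
    gcongr
    linarith
  have a5 : S * (t * x + Z) ^ 2 / (2 * C) ≤ 3 / S := by
    rw [div_le_div_iff₀ (by positivity) s0]
    linarith
  have a6 : x + Z + 1 + 3 / 2 * (t * x) + t ≤ 67 / S := by
    rw [le_div_iff₀ s0]
    have : t * S ≤ 1 / 10 ^ 6 * (1 / 10 ^ 12) := by gcongr
    linarith
  have a7 : 70 / S = 3 / S + 67 / S := by ring
  linarith

end Rect

theorem trap (h : StripStmt) : TrapStmt := by
  intro b C S N hU
  obtain ⟨s0, s1, c1, c2, c3, n1, n2⟩ := Rect.basic hU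
  have b0 := hU.b0
  have b1 := hU.b1
  have C0 := hU.C0
  obtain ⟨c, c0, hc⟩ : ∃ c : ℝ, 0 < c ∧ c ^ 2 * (1 + b ^ 2) = 1 :=
    ⟨(√(1 + b ^ 2))⁻¹, by positivity, by
      rw [inv_pow, Real.sq_sqrt (by positivity)]; field_simp⟩
  have b2 : b ^ 2 ≤ b := by nlinarith
  have b3 : 0 < b ^ 2 := by positivity
  have c4 : c ≤ 1 := by nlinarith [sq_nonneg (c * b)]
  have c5 : 9 / 10 ≤ c := by
    by_contra k
    have : c ^ 2 * (1 + b ^ 2) ≤ (9 / 10) ^ 2 * (1 + 1 / 10 ^ 6) := by gcongr <;> linarith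
    linarith
  have sb : S * b ≤ 1 / 10 ^ 12 * (1 / 10 ^ 6) := by gcongr
  have sb0 : 0 < S * b := by positivity
  obtain ⟨κ, hκ⟩ : ∃ κ, κ = C - S * b := ⟨_, rfl⟩
  have k1 : 98 / 100 ≤ κ := by linarith
  have k2 : κ ≤ 1 := by linarith
  obtain ⟨L, hL⟩ : ∃ L : ℝ, L = N - (b + 2 * b ^ 2) + 10 * b := ⟨_, rfl⟩
  have sb2 : S * b ^ 2 ≤ S * b := by gcongr
  have l1 : 1 ≤ S * L := by rw [hL]; linarith
  have l2 : S * L ≤ 102 / 100 := by
    have : 0 < S * b ^ 2 := by positivity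
    rw [hL]; linarith
  obtain ⟨X, hX⟩ : ∃ X, X = c * L := ⟨_, rfl⟩
  have x1 : 9 / 10 ≤ S * X := by
    have : 9 / 10 * 1 ≤ c * (S * L) := by gcongr
    rw [hX]; linarith
  have x2 : S * X ≤ 102 / 100 := by
    have : c * (S * L) ≤ 1 * (102 / 100) := by gcongr
    rw [hX]; linarith
  have x0 : 0 < X := (mul_pos_iff_of_pos_left s0).1 (by linarith)
  obtain ⟨Y, hY⟩ : ∃ Y, S * Y = κ * X := ⟨κ * X / S, by field_simp⟩
  have hq : qq C S c (b * c) * (c * Y) = L := by
    have e : C * c - S * (b * c) = c * κ := by rw [hκ]; ring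
    have k0 : κ ≠ 0 := by linarith
    rw [qq, e]
    field_simp
    linear_combination hY + κ * hX
  have hA : Ar C S c (b * c) (c * Y) = X * Y / 2 := by
    rw [Ar, pow_two, ← mul_assoc, hq, hX]; ring
  have hSt : USt b C S N c (b * c) (c * Y) :=
    ⟨by linarith, c0, by gcongr; linarith, by gcongr; linarith, by rw [hq, hL]; linarith,
      by rw [hq, hL]; linarith⟩
  have w1 : 98 / 100 * (9 / 10) ≤ κ * (S * X) := by gcongr
  have w2 : κ * (S * X) ≤ 1 * (102 / 100) := by gcongr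
  refine ⟨κ * X, by linarith, by linarith, fun ρ H r1 r2 hH => ?_⟩
  obtain ⟨Z, hZ⟩ : ∃ Z, S * Z = κ * X - ρ := ⟨(κ * X - ρ) / S, by field_simp⟩
  have z0 : 0 ≤ Z := le_of_mul_le_mul_left (by linarith) s0
  have eY : c * Y / c = Y := by field_simp
  have hs := h b C S c (b * c) (c * Y) (Y - Z + H) N hU hSt (by rw [eY]; linarith)
  rw [eY, hA] at hs
  have j0 := Nat.ceil_pos.2 x0
  have j1 := Nat.le_ceil X
  have j2 := Nat.ceil_lt_add_one x0.le
  generalize ⌈X⌉₊ = J at *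
  refine ((Cv.sum J fun j _ => Cv.box' (k := 1) one_pos j 0 (g := Z + b * (j + 1))
    (by positivity)).or (hs.shift 0 (Y - Z))).mono ?_ ?_
  · have a1 := Rect.count (C := C) s0 s1 c3 b0.le b1 x0.le (by linarith) z0 (by linarith)
      (Nat.cast_nonneg J) j2.le
    have a2 : S * (Y - Z + H) ^ 2 / (2 * C) - X * Y / 2 + (X * Z + b * X ^ 2 / 2 -
        S * (b * X + Z) ^ 2 / (2 * C)) = (ρ * H + S * H ^ 2 / 2) / C := by
      have e1 : ρ = S * (Y - Z) := by linarith
      have e2 : C * X = S * (Y + b * X) := by rw [hκ] at hY; linarith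
      rw [e1]
      field_simp
      linear_combination (-(Y - 2 * Z - b * X)) * e2
    have a3 : 0 ≤ 2 * b * (1 + 200 * b) * Z := by positivity
    have a4 : 100 / S = 30 / S + 70 / S := by ring
    rw [Rect.sum_cap]
    linarith
  · rintro x y ⟨p1, p2, p3, p4⟩
    rcases le_total (c * Y) (-(b * c) * (x + 0) + c * (y + (Y - Z))) with p5 | p5
    · exact Or.inr ⟨by linarith, by linarith, p5, by linarith⟩
    · have a1 : y ≤ Z + b * x := le_of_mul_le_mul_left (by linarith) c0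
      have a2 : S * y ≤ S * (Z + b * x) := by gcongr
      have a3 : x ≤ X := le_of_mul_le_mul_left (a := κ) (by rw [hκ] at *; linarith) (by linarith)
      obtain ⟨j, hj, q1, q2⟩ := exists_int j0 p1 (a3.trans j1)
      have a4 : b * x ≤ b * (j + 1) := by gcongr
      exact Or.inl ⟨j, hj, q1, by push_cast; linarith, p2, by linarith⟩

theorem rect (h : TrapStmt) : RectStmt := by
  intro b C S H Λ N m hU m1 m2 m3 h1 h2 hΛ
  obtain ⟨s0, s1, c1, c2, c3, -, -⟩ := Rect.basic hU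
  have c0 := hU.C0
  have e0 := hU.hC
  obtain ⟨W, w1, w2, hW⟩ := h b C S N hU
  have a1 : 99 / 100 * 10 ≤ C * (S * Λ) := by gcongr
  have g0 : 0 < C * Λ - S * H - 2 * W := by
    by_contra k
    have := mul_nonpos_of_nonneg_of_nonpos s0.le (not_lt.1 k)
    linarith
  have l0 : 0 ≤ Λ := by
    by_contra k
    have := mul_nonpos_of_nonneg_of_nonpos s0.le (not_le.1 k).le
    linarith
  have w0 : 0 ≤ W := by
    by_contra k
    have := mul_nonpos_of_nonneg_of_nonpos s0.le (not_le.1 k).le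
    linarith
  have a4 : C * Λ ≤ 1 * Λ := by gcongr
  have g1 := Nat.le_ceil (C * Λ - S * H - 2 * W)
  have g2 := Nat.ceil_lt_add_one g0.le
  have g3 := Nat.ceil_pos.2 g0
  generalize ⌈C * Λ - S * H - 2 * W⌉₊ = G at *
  obtain ⟨ρ, hρ⟩ : ∃ ρ : ℝ, 2 * ρ = C * Λ - S * H - G := ⟨(C * Λ - S * H - G) / 2, by ring⟩
  have A := hW ρ H (by linarith) (by linarith) h1
  refine ((A.or (A.rot (c := -1) (s := 0) (by norm_num) Λ H)).or (Cv.sum G fun g _ =>
    (Cv.box (k := 1) (l := m + 1) one_pos (by omega) (ρ + g) (S * (ρ + g) / C)).rot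
    (c := C) (s := -S) (by linarith) 0 0)).mono ?_ ?_
  · have a5 : m + 1 - H / C ≤ S + 2 * S ^ 2 := by
      rw [sub_le_iff_le_add, ← sub_le_iff_le_add', le_div_iff₀ c0]
      have b1 : S * (1 - C) ≤ S * S ^ 2 := by gcongr; linarith
      have b2 : S * S ^ 2 ≤ 1 / 10 ^ 12 * S ^ 2 := by gcongr
      have b3 : S ^ 2 * (99 / 100) ≤ S ^ 2 * C := by gcongr
      have b4 : (1 - C) * (1 + 99 / 100) ≤ (1 - C) * (1 + C) := by gcongr
      have b5 := sq_nonneg S
      linarith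
    have a6 : (G : ℝ) * (m + 1 - H / C) ≤ G * (S + 2 * S ^ 2) := by gcongr
    have a7 : (G : ℝ) * (S + 2 * S ^ 2) ≤ Λ * (S + 2 * S ^ 2) := by gcongr; linarith
    have a8 : 2 * ((ρ * H + S * H ^ 2 / 2) / C) = H * Λ - G * (H / C) := by
      field_simp
      linear_combination H * hρ
    have a9 : 200 / S = 100 / S + 100 / S := by ring
    simp only [Finset.sum_const, Finset.card_range, nsmul_eq_mul]
    push_cast
    linarith
  · rintro x y ⟨k1, k2, k3, k4⟩
    rcases le_total (C * x - S * y) ρ with k5 | k5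
    · exact Or.inl (Or.inl ⟨k1, k3, k4, k5⟩)
    rcases le_total (ρ + G) (C * x - S * y) with k6 | k6
    · exact Or.inl (Or.inr ⟨by linarith, by linarith, by linarith, by linarith⟩)
    obtain ⟨g, hg, k7, k8⟩ := exists_int g3 (x := C * x - S * y - ρ) (by linarith) (by linarith)
    have e : C * (- -S * x + C * y + 0) = y + S * (C * x - S * y) := by linear_combination y * e0
    have a6 : S * (ρ + g) ≤ S * (C * x - S * y) := by gcongr; linarith
    have a7 : S * (C * x - S * y) ≤ S * (ρ + g + 1) := by gcongr; linarith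
    refine Or.inr ⟨g, hg, by linarith, by push_cast; linarith, ?_, ?_⟩
    · rw [div_le_iff₀ c0]
      linarith
    · rw [← sub_le_iff_le_add, le_div_iff₀ c0]
      push_cast
      linarith

end Pool.Agent.MP_c59ecb_co.sh

end MrgPart3

-- marker of a merged file
example : 731051 + 760658 = 731051 + 760658 := rfl
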