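import Mathlib.MeasureTheory.Measure.Haar.Unique
import Pool.Agent.MP_c59ecb_co.sh.Side
import Pool.Agent.MP_c59ecb_co.sh.Rect

-- ======== part 0: formerly Pool.Agent.MP_c59ecb_co.sh.Pick
section MrgPart0

/-! Choice of a height and elementary sums. -/

set_option autoImplicit false

namespace Pool.Agent.MP_c59ecb_co.sh

open MeasureTheory Finset
open scoped ENNReal

namespace Pick

lemma one {F : ℝ → ℝ≥0∞} {H : ℝ} (hH : 0 ≤ H) (h : Lv F H) :
    ∃ v : ℝ, |v| ≤ 1 / 8 ∧ F v ≤ ENNReal.ofReal (4 * H) := by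
  have hv : volume (Set.Icc (-(1 / 8) : ℝ) (1 / 8)) = ENNReal.ofReal (1 / 4) := by
    rw [Real.volume_Icc]
    norm_num
  obtain ⟨v, h1, h2⟩ := exists_le_setLAverage (μ := volume) (s := Set.Icc (-(1 / 8) : ℝ) (1 / 8))
    (f := F) (by rw [hv]; simp) (by rw [hv]; simp) h.1.aemeasurable
  refine ⟨v, abs_le.2 h1, h2.trans ?_⟩
  rw [setLAverage_eq, hv]
  refine ENNReal.div_le_of_le_mul (((setLIntegral_le_lintegral _ _).trans h.2).trans (le_of_eq ?_))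
  rw [← ENNReal.ofReal_mul (by positivity)]
  congr 1
  ring

lemma two {F F' : ℝ → ℝ≥0∞} {H H' : ℝ} (hH : 0 ≤ H) (hH' : 0 ≤ H') (h : Lv F H) (h' : Lv F' H') :
    ∃ v : ℝ, |v| ≤ 1 / 8 ∧ F v ≤ ENNReal.ofReal (4 * (H + H')) ∧
      F' v ≤ ENNReal.ofReal (4 * (H + H')) := by
  obtain ⟨v, h1, h2⟩ := one (F := fun v => F v + F' v) (add_nonneg hH hH') ⟨h.1.add h'.1, by
    rw [lintegral_add_left h.1, ENNReal.ofReal_add hH hH']
    exact add_le_add h.2 h'.2⟩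
  exact ⟨v, h1, le_self_add.trans h2, le_add_self.trans h2⟩

lemma cls (L : ℕ) (S : Finset ℕ) (H : ℕ → ℝ) (cl : ℕ → ℕ) (hL : 0 < L) (h : ∀ s ∈ S, cl s < L) :
    (∃ o < L, L * ∑ s ∈ S.filter (fun s => cl s = o), H s ≤ ∑ s ∈ S, H s) ∧
      ∃ o < L, ∑ s ∈ S, H s ≤ L * ∑ s ∈ S.filter (fun s => cl s = o), H s := by
  have e : ∑ o ∈ range L, (L : ℝ) * ∑ s ∈ S.filter (fun s => cl s = o), H s =
      ∑ _o ∈ range L, ∑ s ∈ S, H s := by
    rw [← mul_sum, sum_fiberwise_of_maps_to (fun s hs => mem_range.2 (h s hs))]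
    simp
  have hn : (range L).Nonempty := nonempty_range_iff.2 hL.ne'
  obtain ⟨o, h1, h2⟩ := exists_le_of_sum_le hn e.le
  obtain ⟨o', h1', h2'⟩ := exists_le_of_sum_le hn e.ge
  exact ⟨⟨o, mem_range.1 h1, h2⟩, o', mem_range.1 h1', h2'⟩

lemma markov (S : Finset ℕ) (H : ℕ → ℝ) (τ : ℝ) (h : ∀ s ∈ S, 0 ≤ H s) :
    ((S.filter (fun s => τ < H s)).card : ℝ) * τ ≤ ∑ s ∈ S, H s := by
  rw [← nsmul_eq_mul]
  exact (card_nsmul_le_sum _ H τ fun s hs => (mem_filter.1 hs).2.le).trans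
    (sum_le_sum_of_subset_of_nonneg (filter_subset _ _) fun s hs _ => h s hs)

lemma nbr (S : Finset ℕ) (h : ℕ → ℕ) (g : ℕ → ℝ) (E N mult : ℕ) (hg : ∀ j, 0 ≤ g j)
    (hm : ∀ j, (S.filter (fun s => h s = j)).card ≤ mult) :
    ∑ s ∈ S, ∑ j ∈ (Icc (h s - E) (h s + E)).filter (fun j => j ≤ N), g j ≤
      mult * (2 * E + 1) * ∑ j ∈ range (N + 1), g j := by
  rw [sum_comm' (t' := range (N + 1))
    (s' := fun j => S.filter fun s => j ∈ Icc (h s - E) (h s + E)) (by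
      intro s j
      simp only [mem_filter, mem_range, Nat.lt_succ_iff]
      tauto), mul_sum]
  refine sum_le_sum fun j _ => ?_
  rw [sum_const, nsmul_eq_mul]
  refine mul_le_mul_of_nonneg_right ?_ (hg j)
  have h1 := card_le_mul_card_image_of_maps_to (f := h)
    (s := S.filter fun s => j ∈ Icc (h s - E) (h s + E)) (t := Icc (j - E) (j + E))
    (fun s hs => by
      have := mem_Icc.1 (mem_filter.1 hs).2
      exact mem_Icc.2 (by omega)) mult fun b _ =>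
    (card_le_card (filter_subset_filter _ (filter_subset _ _))).trans (hm b)
  have h2 : (Icc (j - E) (j + E)).card ≤ 2 * E + 1 := by
    rw [Nat.card_Icc]
    omega
  exact_mod_cast h1.trans (Nat.mul_le_mul_left _ h2)

lemma lip {a g : ℕ → ℝ} {κ : ℝ} {N : ℕ} (h : ∀ j < N, |a (j + 1) - a j| ≤ κ * g j) {p q : ℕ}
    (hpq : p ≤ q) (hq : q ≤ N) : |a q - a p| ≤ κ * ∑ i ∈ Ico p q, g i := by
  induction q, hpq using Nat.le_induction with
  | base => simp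
  | succ q hpq ih =>
    rw [sum_Ico_succ_top hpq, mul_add]
    have h1 := abs_sub_le (a (q + 1)) (a q) (a p)
    linarith [ih (by omega), h q (by omega)]

lemma lip' {a g : ℕ → ℝ} {κ : ℝ} {N : ℕ} (hκ : 0 ≤ κ) (hg : ∀ j, 0 ≤ g j)
    (h : ∀ j < N, |a (j + 1) - a j| ≤ κ * g j) {p q D : ℕ} (hp : p ≤ N) (hq : q ≤ N)
    (h1 : p ≤ q + D) (h2 : q ≤ p + D) :
    |a p - a q| ≤ κ * ∑ i ∈ (Icc (p - D) (p + D)).filter (fun j => j ≤ N), g i := by
  rcases le_total p q with hpq | hpq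
  · rw [abs_sub_comm]
    refine (lip h hpq hq).trans (mul_le_mul_of_nonneg_left
      (sum_le_sum_of_subset_of_nonneg (fun i hi => ?_) fun i _ _ => hg i) hκ)
    have := mem_Ico.1 hi
    exact mem_filter.2 ⟨mem_Icc.2 (by omega), by omega⟩
  · refine (lip h hpq hp).trans (mul_le_mul_of_nonneg_left
      (sum_le_sum_of_subset_of_nonneg (fun i hi => ?_) fun i _ _ => hg i) hκ)
    have := mem_Ico.1 hi
    exact mem_filter.2 ⟨mem_Icc.2 (by omega), by omega⟩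

lemma win (r o lo hi N E : ℕ) (W : Finset ℕ) (a g : ℕ → ℝ) (h : ℕ → ℕ) (κ α Γ Nb : ℝ)
    (hN : hi ≤ N) (hκ : 0 ≤ κ) (ha : ∀ j ≤ N, 0 ≤ a j ∧ a j ≤ α) (hg : ∀ j, 0 ≤ g j)
    (hl : ∀ j < N, |a (j + 1) - a j| ≤ κ * g j) (hΓ : ∑ j ∈ range (N + 1), g j ≤ Γ)
    (hW : ∀ s ∈ W, lo + r ≤ s ∧ s ≤ hi ∧ s % r = o ∧ h s ≤ N ∧ h s ≤ s + E ∧ s ≤ h s + E)
    (hB : ∀ B : Finset ℕ, (∀ j ∈ B, lo < j ∧ j ≤ hi ∧ a j ≠ 0 ∧ ∀ s ∈ W, ¬ (s < j + r ∧ j ≤ s)) →
      (B.card : ℝ) ≤ Nb) :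
    |∑ j ∈ Ioc lo hi, a j - ∑ s ∈ W, r * a (h s)| ≤ κ * Γ * (2 * (E + r) + 1) + Nb * α := by
  have hd : (W : Set ℕ).PairwiseDisjoint fun s => Ioc (s - r) s := by
    have key : ∀ s ∈ W, ∀ s' ∈ W, s < s' → Disjoint (Ioc (s - r) s) (Ioc (s' - r) s') := by
      intro s hs s' hs' hlt
      have e : s % r = s' % r := (hW s hs).2.2.1.trans (hW s' hs').2.2.1.symm
      have := Nat.le_of_dvd (by omega) ((Nat.modEq_iff_dvd' hlt.le).1 e)
      refine disjoint_left.2 fun j h1 h2 => ?_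
      have := mem_Ioc.1 h1
      have := mem_Ioc.1 h2
      omega
    intro s hs s' hs' hne
    rcases lt_or_gt_of_ne hne with h1 | h1
    · exact key s hs s' hs' h1
    · exact (key s' hs' s hs h1).symm
  set C := W.biUnion fun s => Ioc (s - r) s with hC
  have hsub : C ⊆ Ioc lo hi := biUnion_subset.2 fun s hs => by
    have := hW s hs
    exact Ioc_subset_Ioc (by omega) this.2.1
  have hα : 0 ≤ α := (ha 0 (Nat.zero_le _)).1.trans (ha 0 (Nat.zero_le _)).2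
  have h1 : 0 ≤ ∑ j ∈ Ioc lo hi \ C, a j := sum_nonneg fun j hj =>
    (ha j ((mem_Ioc.1 (mem_sdiff.1 hj).1).2.trans hN)).1
  have h2 : ∑ j ∈ Ioc lo hi \ C, a j ≤ Nb * α := by
    rw [← sum_filter_ne_zero]
    refine (sum_le_card_nsmul _ _ α fun j hj =>
      (ha j ((mem_Ioc.1 (mem_sdiff.1 (mem_filter.1 hj).1).1).2.trans hN)).2).trans ?_
    rw [nsmul_eq_mul]
    refine mul_le_mul_of_nonneg_right (hB _ fun j hj => ?_) hα
    obtain ⟨j1, j2⟩ := mem_filter.1 hj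
    obtain ⟨j3, j4⟩ := mem_sdiff.1 j1
    refine ⟨(mem_Ioc.1 j3).1, (mem_Ioc.1 j3).2, j2, fun s hs hj => j4 ?_⟩
    have := hW s hs
    exact mem_biUnion.2 ⟨s, hs, mem_Ioc.2 (by omega)⟩
  have h3 : |∑ j ∈ C, a j - ∑ s ∈ W, r * a (h s)| ≤ κ * Γ * (2 * (E + r) + 1) := by
    have e : ∑ j ∈ C, a j - ∑ s ∈ W, r * a (h s) =
        ∑ s ∈ W, ∑ j ∈ Ioc (s - r) s, (a j - a (h s)) := by
      rw [hC, sum_biUnion hd, ← sum_sub_distrib]
      refine sum_congr rfl fun s hs => ?_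
      have := hW s hs
      rw [sum_sub_distrib, sum_const, Nat.card_Ioc, nsmul_eq_mul, show s - (s - r) = r by omega]
    have b := nbr C id g (E + r) N 1 hg fun j => card_le_one.2 fun x hx y hy =>
      (mem_filter.1 hx).2.trans (mem_filter.1 hy).2.symm
    have b' : |∑ s ∈ W, ∑ j ∈ Ioc (s - r) s, (a j - a (h s))| ≤ κ * ∑ j ∈ C,
        ∑ i ∈ (Icc (id j - (E + r)) (id j + (E + r))).filter (fun j => j ≤ N), g i := by
      rw [mul_sum, hC, sum_biUnion hd]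
      refine (abs_sum_le_sum_abs _ _).trans (sum_le_sum fun s hs =>
        (abs_sum_le_sum_abs _ _).trans (sum_le_sum fun j hj => ?_))
      have := hW s hs
      have := mem_Ioc.1 hj
      exact lip' hκ hg hl (by omega) (by omega) (by omega) (by omega)
    rw [e]
    refine b'.trans ?_
    rw [mul_assoc]
    refine mul_le_mul_of_nonneg_left (b.trans ?_) hκ
    push_cast
    rw [one_mul, mul_comm]
    exact mul_le_mul_of_nonneg_right hΓ (by positivity)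
  rw [← sum_sdiff hsub, add_sub_assoc]
  have := abs_add_le (∑ j ∈ Ioc lo hi \ C, a j) (∑ j ∈ C, a j - ∑ s ∈ W, r * a (h s))
  rw [abs_of_nonneg h1] at this
  linarith

lemma am {M p r e z : ℝ} (hr : 0 ≤ r) (he : e ≤ 1) (hz : 0 < z) (hM : 0 < M)
    (hp : |p| ≤ z ^ 2 / 2) :
    8 * (1 - e) ^ 2 * (r * p ^ 2) / z ^ 3 ≤ (1 - e) * r * M + (1 - e) ^ 3 * (2 * r * |p| / M) := by
  obtain ⟨w, hw0, hw⟩ : ∃ w : ℝ, 0 ≤ w ∧ w ^ 2 = 2 * |p| :=
    ⟨√(2 * |p|), Real.sqrt_nonneg _, Real.sq_sqrt (by positivity)⟩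
  have hwz : w ≤ z := by nlinarith
  have h3 : w ^ 3 ≤ z ^ 3 := pow_le_pow_left₀ hw0 hwz 3
  have hd : 0 ≤ 1 - e := by linarith
  have e1 : 8 * p ^ 2 = 2 * w * w ^ 3 := by
    rw [← sq_abs p]
    linear_combination (-2 * (w ^ 2 + 2 * |p|)) * hw
  have h4 : 8 * (1 - e) ^ 2 * (r * p ^ 2) / z ^ 3 ≤ (1 - e) ^ 2 * r * (2 * w) := by
    rw [div_le_iff₀ (by positivity), show 8 * (1 - e) ^ 2 * (r * p ^ 2) =
      (1 - e) ^ 2 * r * (8 * p ^ 2) by ring, e1, ← mul_assoc]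
    exact mul_le_mul_of_nonneg_left h3 (by positivity)
  refine h4.trans ?_
  have e2 : (1 - e) * r * M + (1 - e) ^ 3 * (2 * r * |p| / M) - (1 - e) ^ 2 * r * (2 * w) =
      (1 - e) * r * (M - (1 - e) * w) ^ 2 / M := by
    rw [show 2 * r * |p| = r * w ^ 2 by rw [hw]; ring]
    field_simp
    ring
  have : 0 ≤ (1 - e) * r * (M - (1 - e) * w) ^ 2 / M := by positivity
  linarith

lemma amgm (U Gd : Finset ℕ) (u : ℕ → ℕ) (Mt p : ℕ → ℝ) (r e z : ℝ) (hr : 0 ≤ r) (he : e ≤ 1)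
    (hz : 0 < z) (hM : ∀ k ∈ U, 0 < Mt k) (hG : ∀ k ∈ Gd, u k ∈ U ∧ |p k| ≤ z ^ 2 / 2)
    (hu : Set.InjOn u Gd) :
    8 * (1 - e) ^ 2 * (∑ k ∈ Gd, r * p k ^ 2) / z ^ 3 ≤
      ∑ k ∈ U, (1 - e) * r * Mt k + (1 - e) ^ 3 * ∑ k ∈ Gd, 2 * r * |p k| / Mt (u k) := by
  have hd : 0 ≤ 1 - e := by linarith
  have h1 : ∑ k ∈ Gd, (1 - e) * r * Mt (u k) ≤ ∑ k ∈ U, (1 - e) * r * Mt k := by
    rw [← sum_image (f := fun k => (1 - e) * r * Mt k) hu]
    refine sum_le_sum_of_subset_of_nonneg (image_subset_iff.2 fun k hk => (hG k hk).1)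
      fun k hk _ => ?_
    have := hM k hk
    positivity
  refine le_trans ?_ (add_le_add h1 le_rfl)
  rw [mul_sum, sum_div, mul_sum, ← sum_add_distrib]
  exact sum_le_sum fun k hk => am hr he hz (hM _ (hG k hk).1) (hG k hk).2

end Pick

theorem pickS : PickS := fun _ F' _ _ hH hH' h h' =>
  ⟨Pick.one hH h, Pick.two hH hH' h h', Pick.two (F' := fun v => F' (-v)) hH hH' h
    ⟨h'.1.comp measurable_neg, (lintegral_neg_eq_self F').trans_le h'.2⟩⟩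

theorem sumS : SumS :=
  ⟨Pick.cls, Pick.markov, Pick.nbr,
    fun r o lo hi N E W a g h κ α Γ Nb _ => Pick.win r o lo hi N E W a g h κ α Γ Nb,
    fun U Gd u Mt p r e z hr _ => Pick.amgm U Gd u Mt p r e z hr⟩

end Pool.Agent.MP_c59ecb_co.sh

end MrgPart0

-- ======== part 1: formerly Pool.Agent.MP_c59ecb_co.sh.Calm
section MrgPart1

/-! Calm discs. -/

set_option autoImplicit false

namespace Pool.Agent.MP_c59ecb_co.sh

open MeasureTheory Complex Set Pool.Agent.MP_c59ecb_co.h76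
open scoped ENNReal

variable {ι : Type} [Fintype ι] [DecidableEq ι] {ω : ι → ℂ}

namespace CalmP

variable {c : ι → ℂ}

lemma pack' (hω : ∀ k, ‖ω k‖ = 1) (z : ℂ) {ϱ : ℝ} (h0 : 0 ≤ ϱ) (T : Finset ι)
    (hT : ∀ k ∈ T, ‖c k - z‖ ≤ ϱ ∧ ov c ω k ≤ 1 / 2) : (T.card : ℝ) ≤ 2 * (2 * ϱ + 2) ^ 2 := by
  have h1 : volume (⋃ k ∈ T, Sq (c k) (ω k) \ Dbl c ω k) =
      ∑ k ∈ T, volume (Sq (c k) (ω k) \ Dbl c ω k) := by
    refine measure_biUnion_finset (fun k _ l _ hkl => ?_)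
      (fun k _ => (isClosed_Sq _ _).measurableSet.diff (measurableSet_Dbl c ω k))
    exact Set.disjoint_left.2 (fun p hp hq => hp.2 ((mem_Dbl c ω).2 ⟨hp.1, l, hkl.symm, hq.1⟩))
  have h2 : (⋃ k ∈ T, Sq (c k) (ω k) \ Dbl c ω k) ⊆
      Box z 1 (-(ϱ + 1)) (ϱ + 1) (-(ϱ + 1)) (ϱ + 1) := by
    intro p hp
    simp only [mem_iUnion] at hp
    obtain ⟨k, hk, hp, -⟩ := hp
    have h3 : ‖loc z 1 p‖ ≤ ϱ + 1 := by
      rw [norm_loc norm_one]
      linarith [norm_sub_le_norm_sub_add_norm_sub p (c k) z, norm_le_of_mem (hω k) hp, (hT k hk).1]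
    exact ⟨abs_le.1 ((abs_re_le_norm _).trans h3), abs_le.1 ((abs_im_le_norm _).trans h3)⟩
  have h3 : ∀ k ∈ T, ENNReal.ofReal (1 / 2) ≤ volume (Sq (c k) (ω k) \ Dbl c ω k) := by
    intro k hk
    have h4 : volume (Dbl c ω k) ≠ ⊤ := by
      rw [volume_Dbl hω]
      exact ENNReal.ofReal_ne_top
    have h5 : Dbl c ω k ⊆ Sq (c k) (ω k) := inter_subset_left
    rw [measure_sdiff h5 (measurableSet_Dbl c ω k).nullMeasurableSet h4,
      volume_Sq (hω k), volume_Dbl hω,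
      ← ENNReal.ofReal_one, ← ENNReal.ofReal_sub _ (ov_nonneg c ω k)]
    exact ENNReal.ofReal_le_ofReal (by linarith [(hT k hk).2])
  have h4 := (Finset.sum_le_sum h3).trans (h1.symm.le.trans (measure_mono h2))
  rw [volume_Box norm_one, ← ENNReal.ofReal_sum_of_nonneg (fun _ _ => by norm_num),
    ← ENNReal.ofReal_mul (by linarith), ENNReal.ofReal_le_ofReal_iff (by nlinarith),
    Finset.sum_const, nsmul_eq_mul] at h4
  nlinarith

lemma sum_ds (hω : ∀ k, ‖ω k‖ = 1) {ϱ : ℝ} (h0 : 0 ≤ ϱ) :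
    ∑ i, ds c ω ϱ i ≤ 2 * (2 * ϱ + 2) ^ 2 * ∑ i, bt c ω i + 2 * ∑ i, ov c ω i := by
  classical
  have h1 : ∀ i, ds c ω ϱ i ≤ 2 * ov c ω i +
      ∑ k, if ‖c k - c i‖ ≤ ϱ ∧ ov c ω i ≤ 1 / 2 then bt c ω k else 0 := by
    intro i
    by_cases hi : ov c ω i ≤ 1 / 2
    · simp only [hi, and_true, ← Finset.sum_filter]
      exact (min_le_right _ _).trans (le_add_of_nonneg_left (by linarith [ov_nonneg c ω i]))
    · simp only [hi, and_false, if_false, Finset.sum_const_zero, add_zero]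
      exact (min_le_left _ _).trans (by linarith)
  refine (Finset.sum_le_sum (fun i _ => h1 i)).trans ?_
  rw [Finset.sum_add_distrib, ← Finset.mul_sum, Finset.sum_comm, add_comm]
  refine add_le_add ?_ le_rfl
  rw [Finset.mul_sum]
  refine Finset.sum_le_sum fun k _ => ?_
  rw [← Finset.sum_filter, Finset.sum_const, nsmul_eq_mul]
  refine mul_le_mul_of_nonneg_right ?_ (bt_nonneg k)
  exact pack' hω (c k) h0 _ fun i hi => by
    have h2 := (Finset.mem_filter.1 hi).2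
    exact ⟨by rw [norm_sub_rev]; exact h2.1, h2.2⟩

/-- A point of a segment at distance two from one end. -/
lemma exists_mid {a b : ℂ} (h : 3 < ‖a - b‖) : ∃ p : ℂ, ‖p - a‖ = 2 ∧ ‖p - b‖ = ‖a - b‖ - 2 := by
  have h0 : 0 < ‖a - b‖ := by linarith
  refine ⟨a - ((2 / ‖a - b‖ : ℝ) : ℂ) * (a - b), ?_, ?_⟩
  · rw [sub_sub_cancel_left, norm_neg, norm_mul, norm_real, Real.norm_of_nonneg (by positivity)]
    field_simp
  · have e : a - ((2 / ‖a - b‖ : ℝ) : ℂ) * (a - b) - b =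
        ((1 - 2 / ‖a - b‖ : ℝ) : ℂ) * (a - b) := by
      push_cast; ring
    have h1 : 2 / ‖a - b‖ ≤ 1 := by rw [div_le_one h0]; linarith
    rw [e, norm_mul, norm_real, Real.norm_of_nonneg (by linarith)]
    field_simp

lemma of_ds (hω : Nm ω) {i : ι} {ϱ μ : ℝ} (h0 : 0 ≤ ϱ) (hd : ds c ω (ϱ + 1) i ≤ μ)
    (hμ : μ ≤ 1 / 10) (ht : ‖ω i - 1‖ ≤ 1 / 200) (hc : ∀ p, ‖p - c i‖ ≤ ϱ + 5 → Cov c ω p) :
    Calm c ω i ϱ μ := by
  classical
  have hβ := bt_nonneg (c := c) (ω := ω)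
  have hS : ∑ k ∈ Finset.univ.filter (fun k => ‖c k - c i‖ ≤ ϱ + 1), bt c ω k ≤ μ := by
    rcases min_le_iff.1 hd with h | h
    · linarith
    · exact h
  set S : ℝ → ℝ := fun d => ∑ k ∈ Finset.univ.filter (fun k => ‖c k - c i‖ < d), bt c ω k with hS'
  have S0 : ∀ d, 0 ≤ S d := fun d => Finset.sum_nonneg fun k _ => hβ k
  have S1 : ∀ d ≤ ϱ, S d ≤ μ := fun d hd =>
    le_trans (Finset.sum_le_sum_of_subset_of_nonneg (fun k hk => by
      have := (Finset.mem_filter.1 hk).2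
      exact Finset.mem_filter.2 ⟨Finset.mem_univ _, by linarith⟩) fun k _ _ => hβ k) hS
  have S2 : ∀ (k : ι) (d : ℝ), ‖c k - c i‖ < d → S ‖c k - c i‖ + bt c ω k ≤ S d := by
    intro k d hk
    have : k ∉ Finset.univ.filter (fun l => ‖c l - c i‖ < ‖c k - c i‖) := by simp
    simp only [hS']
    rw [add_comm, ← Finset.sum_insert this]
    refine Finset.sum_le_sum_of_subset_of_nonneg (fun l hl => ?_) fun k _ _ => hβ k
    rcases Finset.mem_insert.1 hl with rfl | hl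
    · exact Finset.mem_filter.2 ⟨Finset.mem_univ _, hk⟩
    · exact Finset.mem_filter.2 ⟨Finset.mem_univ _, (Finset.mem_filter.1 hl).2.trans hk⟩
  have b1 : ∀ k, ‖c k - c i‖ ≤ ϱ → bt c ω k ≤ μ := fun k hk =>
    le_trans (Finset.single_le_sum (f := bt c ω) (fun k _ => hβ k)
      (Finset.mem_filter.2 ⟨Finset.mem_univ k, by linarith⟩)) hS
  have bi := b1 i (by simpa using h0)
  have al : ∀ k, ‖c k - c i‖ ≤ ϱ → ‖ω k - 1‖ ≤ 1 / 100 → ∀ q, ‖c q - c k‖ ≤ 3 →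
      ‖ω q - ω k‖ ≤ bt c ω k / 100 := by
    intro k h1 h2 q h3
    have a3 : bt c ω k < 1 := by linarith [b1 k h1]
    have a5 : VG c ω (1 / 100) k := ⟨bb_le_of_beta (by norm_num) a3, fun p hp => hc p (by
      linarith [norm_sub_le_norm_sub_add_norm_sub p (c k) (c i)]), h2⟩
    have a6 := align hω.1 hω.2 le_rfl a5 h3
    rw [bb_eq a3, norm_sub_rev] at a6
    linarith
  have key : ∀ n : ℕ, ∀ q, ‖c q - c i‖ ≤ n → ‖c q - c i‖ ≤ ϱ →
      ‖ω q - ω i‖ ≤ (bt c ω i + S ‖c q - c i‖) / 100 := by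
    have base : ∀ q, ‖c q - c i‖ ≤ 3 → ‖ω q - ω i‖ ≤ (bt c ω i + S ‖c q - c i‖) / 100 :=
      fun q hq => by
        have := al i (by simpa using h0) (by linarith) q hq
        linarith [S0 ‖c q - c i‖]
    intro n
    induction n with
    | zero => exact fun q h1 _ => base q (h1.trans (by norm_num))
    | succ n ih =>
      intro q h1 h2
      rcases le_or_gt ‖c q - c i‖ 3 with h3 | h3
      · exact base q h3
      obtain ⟨p, p1, p2⟩ := exists_mid h3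
      obtain ⟨k, hk⟩ := hc p (by linarith)
      have a1 := norm_le_of_mem (hω.1 k) hk
      have a2 : ‖c k - c i‖ ≤ ‖c q - c i‖ - 5 / 4 := by
        have := norm_sub_le_norm_sub_add_norm_sub (c k) p (c i)
        rw [norm_sub_rev (c k) p] at this
        linarith
      have a3 : ‖c q - c k‖ ≤ 3 := by
        have := norm_sub_le_norm_sub_add_norm_sub (c q) p (c k)
        rw [norm_sub_rev (c q) p] at this
        linarith
      push_cast at h1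
      have a4 := ih k (by linarith) (by linarith)
      have a5 := S1 ‖c k - c i‖ (by linarith)
      have a6 := al k (by linarith)
        (by linarith [norm_sub_le_norm_sub_add_norm_sub (ω k) (ω i) 1]) q a3
      have a7 := S2 k ‖c q - c i‖ (by linarith)
      linarith [norm_sub_le_norm_sub_add_norm_sub (ω q) (ω k) (ω i)]
  refine ⟨fun q hq => ?_, fun q hq => ?_, fun p hp => hc p (by linarith)⟩
  · obtain ⟨n, hn⟩ := exists_nat_ge ‖c q - c i‖
    have a1 := key n q hn hq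
    have a2 := S1 _ hq
    linarith [hβ i]
  · have a1 := b1 q hq
    have a2 := bb_eq (c := c) (ω := ω) (i := q) (by linarith)
    have a3 := ov_le_bb_self (c := c) (ω := ω) q
    have a4 := bb_nonneg (c := c) (ω := ω) q
    linarith [hβ q]

lemma lm (hω : ∀ k, ‖ω k‖ = 1) {i : ι} {ϱ ϱ' μ : ℝ} (h : Calm c ω i ϱ' μ) (h9 : 9 ≤ ϱ)
    (h' : 3 / 2 * ϱ ≤ ϱ') : Lm (LU c ω i) (LW c ω i) μ ϱ := by
  have hμ : 0 ≤ μ := (norm_nonneg _).trans (h.ang i (by simp; linarith))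
  have box : ∀ a b : ℝ, |a| ≤ ϱ → |b| ≤ ϱ → ‖(⟨a, b⟩ : ℂ)‖ ≤ 3 / 2 * ϱ - 3 / 4 := by
    intro a b ha hb
    have a1 := sq_le_sq' (abs_le.1 ha).1 (abs_le.1 ha).2
    have a2 := sq_le_sq' (abs_le.1 hb).1 (abs_le.1 hb).2
    exact norm_mk_le (by linarith) (by nlinarith)
  have ins : ∀ q, |LU c ω i q| ≤ ϱ → |LW c ω i q| ≤ ϱ → ‖c q - c i‖ ≤ ϱ' := by
    intro q h1 h2
    have := box _ _ h1 h2
    rw [← norm_loc (hω i)]
    change ‖loc (c i) (ω i) (c q)‖ ≤ _ at this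
    linarith
  refine ⟨fun a b ha hb => ?_, fun q q' hq k1 k2 k3 k4 k5 => ?_⟩
  · have e : loc (c i) (ω i) (c i + ω i * ⟨a, b⟩) = ⟨a, b⟩ := loc_add (hω i) _ _
    have a1 : ‖c i + ω i * ⟨a, b⟩ - c i‖ ≤ 3 / 2 * ϱ - 3 / 4 := by
      rw [← norm_loc (hω i), e]
      exact box a b ha hb
    obtain ⟨q, hq⟩ := h.cov _ (a1.trans (by linarith))
    have a2 := norm_le_of_mem (hω q) hq
    rw [norm_sub_rev] at a2
    have a3 := out_of_mem (hω q) (h.ang q (by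
      linarith [norm_sub_le_norm_sub_add_norm_sub (c q) (c i + ω i * ⟨a, b⟩) (c i)])) hq
    rw [loc_sub (c i), e] at a3
    exact ⟨q, a3⟩
  · exact inter_ge (hω i) (h.ang q (ins q k1 k2)) (h.ang q' (ins q' k3 k4)) hμ
      ((inter_le hω hq.symm).trans (ENNReal.ofReal_le_ofReal (h.ovl q (ins q k1 k2))))
      (sub_nonneg.2 k5)

end CalmP

theorem calmS (hω : Nm ω) : CalmS ω :=
  ⟨fun _ _ _ _ h0 h1 h2 h3 h4 => CalmP.of_ds hω h0 h1 h2 h3 h4, fun _ _ h => CalmP.sum_ds hω.1 h,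
    fun _ _ _ _ _ h h1 h2 => CalmP.lm hω.1 h h1 h2⟩

end Pool.Agent.MP_c59ecb_co.sh

end MrgPart1

-- ======== part 2: formerly Pool.Agent.MP_c59ecb_co.sh.Wray
section MrgPart2

/-! Operations on rays and their geometry. -/

set_option autoImplicit false

namespace Pool.Agent.MP_c59ecb_co.sh

open MeasureTheory Complex Pool.Agent.MP_c59ecb_co.h76

variable {ι : Type} [Fintype ι] [DecidableEq ι] {ω : ι → ℂ}

namespace WrayP

omit [Fintype ι] [DecidableEq ι] in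
lemma ex_neg (c : ι → ℂ) (i : ι) (v : ℝ) :
    ex (rt (-1) c) ω i (-v) = -ex c ω i v + ω i := by
  have e : (⟨1 / 2, -v⟩ : ℂ) = 1 - ⟨1 / 2, v⟩ := by
    apply Complex.ext
    · simp only [sub_re, one_re]
      norm_num
    · simp
  unfold ex
  rw [e]
  ring

omit [Fintype ι] [DecidableEq ι] in
lemma step_rev {c : ι → ℂ} {i j : ι} {v v' γ : ℝ} (h : Step c ω i v j v' γ) :
    Step (rt (-1) c) ω j (-v') i (-v) γ := by
  obtain ⟨h1, d, ζ, h2, h3, h4⟩ := h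
  refine ⟨by rwa [norm_sub_rev], d, ζ, h2, h3.symm, ?_⟩
  rw [ex_neg, ex_neg, h4]
  ring

variable {c : ι → ℂ} {R w τ G : ℝ} {T : ℕ} {ρ : Ry ι}

lemma rev (h : Wray c ω R w τ T G ρ) : Wray (rt (-1) c) ω R w τ T G (ρ.rev T) where
  v k _ := by
    show |-ρ.V (T - k)| ≤ 1 / 2
    rw [abs_neg]
    exact h.v _ (Nat.sub_le _ _)
  g0 k := h.g0 _
  sum := by
    have := Finset.sum_range_reflect ρ.g (T + 1)
    simp only [Nat.add_sub_cancel] at this
    exact (le_of_eq this).trans h.sum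
  tilt k _ := h.tilt _ (Nat.sub_le _ _)
  step k hk := by
    have e : T - k = T - (k + 1) + 1 := by omega
    have := step_rev (h.step (T - (k + 1)) (by omega))
    rw [← e, min_comm] at this
    exact this
  c1 k _ := (h.c1 _ (Nat.sub_le _ _)).rot (by norm_num)
  c2 k _ := by
    obtain ⟨μ, h1, h2, h3, h4⟩ := h.c2 (T - k) (Nat.sub_le _ _)
    refine ⟨μ, h1, h2, h3.rot (by norm_num), fun h5 => ?_⟩
    show μ < R ^ 2 * w * (1 / 2 - |-ρ.V (T - k)|)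
    rw [abs_neg]
    exact h4 h5

lemma sr (h : Wray c ω R w τ T G ρ) {a n : ℕ} (ha : a + n ≤ T + 1) :
    ∑ j ∈ Finset.range n, ρ.g (a + j) ≤ G := by
  have := h.sub (s := Finset.Ico a (a + n)) fun k hk => by
    have := (Finset.mem_Ico.1 hk).2
    omega
  rwa [Finset.sum_Ico_eq_sum_range, Nat.add_sub_cancel_left] at this

lemma cat {G' : ℝ} {T' : ℕ} {ρ' : Ry ι} (h : Wray c ω R w τ T G ρ) (h' : Wray c ω R w τ T' G' ρ')
    (hJ : ρ.J T = ρ'.J 0) (hV : ρ.V T = ρ'.V 0) :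
    ∃ ρ'' : Ry ι, Wray c ω R w τ (T + T') (G + G') ρ'' ∧
      (∀ k ≤ T, ρ''.J k = ρ.J k ∧ ρ''.V k = ρ.V k) ∧
      ∀ k, ρ''.J (T + k) = ρ'.J k ∧ ρ''.V (T + k) = ρ'.V k := by
  obtain ⟨σ, a1, a2, a3, a4, a5, a6⟩ : ∃ σ : Ry ι, (∀ k ≤ T, σ.J k = ρ.J k ∧ σ.V k = ρ.V k) ∧
      (∀ k, σ.J (T + k) = ρ'.J k ∧ σ.V (T + k) = ρ'.V k) ∧ (∀ k ≤ T, ρ.g k ≤ σ.g k) ∧
      (∀ k, ρ'.g k ≤ σ.g (T + k)) ∧ (∀ k, 0 ≤ σ.g k) ∧
      ∑ k ∈ Finset.range (T + T' + 1), σ.g k ≤ G + G' := by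
    refine ⟨⟨fun k => if k ≤ T then ρ.J k else ρ'.J (k - T),
      fun k => if k ≤ T then ρ.V k else ρ'.V (k - T),
      fun k => (if k ≤ T then ρ.g k else 0) + if T ≤ k then ρ'.g (k - T) else 0⟩,
      fun k hk => ⟨if_pos hk, if_pos hk⟩, fun k => ?_, fun k hk => ?_, fun k => ?_, fun k => ?_, ?_⟩
    · rcases Nat.eq_zero_or_pos k with rfl | hk
      · simp [hJ, hV]
      · have : ¬ T + k ≤ T := by omega
        simp only [if_neg this, Nat.add_sub_cancel_left, and_self]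
    · simp only [if_pos hk]
      split_ifs
      · exact le_add_of_nonneg_right (h'.g0 _)
      · simp
    · simp only [if_pos (Nat.le_add_right T k), Nat.add_sub_cancel_left]
      split_ifs
      · exact le_add_of_nonneg_left (h.g0 _)
      · simp
    · refine add_nonneg ?_ ?_ <;> split_ifs
      exacts [h.g0 _, le_rfl, h'.g0 _, le_rfl]
    · simp only [Finset.sum_add_distrib]
      refine add_le_add ?_ ?_
      · rw [← Finset.sum_filter]
        exact h.sub fun k hk => (Finset.mem_filter.1 hk).2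
      · rw [add_assoc, Finset.sum_range_add, Finset.sum_eq_zero fun k hk =>
          if_neg (not_le.2 (Finset.mem_range.1 hk)), zero_add]
        simpa only [if_pos (Nat.le_add_right T _), Nat.add_sub_cancel_left] using h'.sum
  have key : ∀ k ≤ T + T', k ≤ T ∨ ∃ j ≤ T', k = T + j := fun k hk =>
    (le_total k T).imp id fun h1 => ⟨k - T, by omega, by omega⟩
  refine ⟨σ, ⟨fun k hk => ?_, a5, a6, fun k hk => ?_, fun k hk => ?_, fun k hk => ?_,
    fun k hk => ?_⟩, a1, a2⟩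
  · rcases key k hk with h1 | ⟨j, h1, rfl⟩
    · rw [(a1 k h1).2]
      exact h.v k h1
    · rw [(a2 j).2]
      exact h'.v j h1
  · rcases key k hk with h1 | ⟨j, h1, rfl⟩
    · rw [(a1 k h1).1]
      exact h.tilt k h1
    · rw [(a2 j).1]
      exact h'.tilt j h1
  · rcases lt_or_ge k T with h1 | h1
    · rw [(a1 k h1.le).1, (a1 k h1.le).2, (a1 (k + 1) h1).1, (a1 (k + 1) h1).2]
      exact (h.step k h1).mono (min_le_min (a3 k h1.le) (a3 (k + 1) h1))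
    · obtain ⟨j, rfl⟩ := Nat.exists_eq_add_of_le h1
      rw [add_assoc, (a2 j).1, (a2 j).2, (a2 (j + 1)).1, (a2 (j + 1)).2]
      exact (h'.step j (by omega)).mono (min_le_min (a4 j) (a4 (j + 1)))
  · rcases key k hk with h1 | ⟨j, h1, rfl⟩
    · rw [(a1 k h1).1]
      exact (h.c1 k h1).mono le_rfl (a3 k h1)
    · rw [(a2 j).1]
      exact (h'.c1 j h1).mono le_rfl (a4 j)
  · rcases key k hk with h1 | ⟨j, h1, rfl⟩
    · obtain ⟨μ, b1, b2, b3, b4⟩ := h.c2 k h1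
      rw [(a1 k h1).1, (a1 k h1).2]
      exact ⟨μ, b1, b2.trans (mul_le_mul_of_nonneg_left (a3 k h1) (sq_nonneg R)), b3,
        fun h5 => b4 ((a3 k h1).trans_lt h5)⟩
    · obtain ⟨μ, b1, b2, b3, b4⟩ := h'.c2 j h1
      rw [(a2 j).1, (a2 j).2]
      exact ⟨μ, b1, b2.trans (mul_le_mul_of_nonneg_left (a4 j) (sq_nonneg R)), b3,
        fun h5 => b4 ((a4 j).trans_lt h5)⟩

lemma snoc {P : Pm} {γ : ℝ} {St : Finset ι} {T' : ℕ} (h : Stop P c ω w τ St T G T' ρ)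
    (hγ : 0 ≤ γ) (h1 : Calm c ω (ρ.J (T' + 1)) 15 γ)
    (h2 : Calm c ω (ρ.J (T' + 1)) P.R (P.R ^ 2 * γ)) :
    ∃ g' : ℕ → ℝ, Wray c ω P.R 0 τ (T' + 1) (8 * G + γ) ⟨ρ.J, ρ.V, g'⟩ := by
  have hw := h.wray.w0
  have h0 := hw.g0 T'
  obtain ⟨g', a1, a2, a3⟩ : ∃ g' : ℕ → ℝ, (∀ k ≤ T', g' k = ρ.g k) ∧ g' (T' + 1) = ρ.g T' + γ ∧
      ∀ k, 0 ≤ g' k := by
    refine ⟨fun k => if k ≤ T' then ρ.g k else ρ.g T' + γ, fun k hk => if_pos hk,
      if_neg (by omega), fun k => ?_⟩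
    dsimp only
    split_ifs
    exacts [hw.g0 k, add_nonneg h0 hγ]
  have key : ∀ k ≤ T' + 1, k ≤ T' ∨ k = T' + 1 := fun k hk => by omega
  refine ⟨g', fun k hk => ?_, a3, ?_, fun k hk => ?_, fun k hk => ?_, fun k hk => ?_,
    fun k hk => ?_⟩
  · rcases key k hk with h3 | rfl
    exacts [hw.v k h3, h.vl]
  · show ∑ k ∈ Finset.range (T' + 1 + 1), g' k ≤ _
    rw [Finset.sum_range_succ, a2,
      Finset.sum_congr rfl fun k hk => a1 k (Nat.lt_succ_iff.1 (Finset.mem_range.1 hk))]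
    linarith [hw.sum, hw.le (le_refl T')]
  · rcases key k hk with h3 | rfl
    exacts [hw.tilt k h3, h.tlt]
  · show Step c ω (ρ.J k) (ρ.V k) (ρ.J (k + 1)) (ρ.V (k + 1)) (min (g' k) (g' (k + 1)))
    rcases Nat.lt_succ_iff_lt_or_eq.1 hk with h3 | rfl
    · rw [a1 k h3.le, a1 (k + 1) h3]
      exact hw.step k h3
    · rw [a1 k le_rfl, a2]
      exact h.last.mono (le_min le_rfl (le_add_of_nonneg_right hγ))
  · show Calm c ω (ρ.J k) 15 (g' k)
    rcases key k hk with h3 | rfl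
    · rw [a1 k h3]
      exact hw.c1 k h3
    · rw [a2]
      exact h1.mono le_rfl (le_add_of_nonneg_left h0)
  · show ∃ μ : ℝ, 0 ≤ μ ∧ μ ≤ P.R ^ 2 * g' k ∧ Calm c ω (ρ.J k) P.R μ ∧
      (g' k < 0 → μ < P.R ^ 2 * 0 * (1 / 2 - |ρ.V k|))
    rcases key k hk with h3 | rfl
    · rw [a1 k h3]
      exact hw.c2 k h3
    · refine ⟨_, mul_nonneg (sq_nonneg _) hγ, ?_, h2, fun h4 => absurd h4 (not_lt.2 (a3 _))⟩
      rw [a2]
      exact mul_le_mul_of_nonneg_left (le_add_of_nonneg_left h0) (sq_nonneg _)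

lemma ang (h : Wray c ω R w τ T G ρ) {a b : ℕ} (hab : a ≤ b) (hb : b ≤ T) :
    ‖ω (ρ.J b) - ω (ρ.J a)‖ ≤ ∑ k ∈ Finset.Ico a b, ρ.g k := by
  induction b, hab using Nat.le_induction with
  | base => simp
  | succ b hab ih =>
    rw [Finset.sum_Ico_succ_top hab]
    have := (h.step' (k := b) hb).1
    linarith [ih (by omega),
      norm_sub_le_norm_sub_add_norm_sub (ω (ρ.J (b + 1))) (ω (ρ.J b)) (ω (ρ.J a))]

lemma one (hω : Nm ω) (h : Wray c ω R w τ T G ρ) {k : ℕ} (hk : k < T) :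
    ‖ρ.P c ω (k + 1) - ρ.P c ω k - ω (ρ.J (k + 1))‖ ≤ ρ.g k := (h.step' hk).norm hω

lemma pos (hω : Nm ω) (h : Wray c ω R w τ T G ρ) {a b : ℕ} (hab : a ≤ b) (hb : b ≤ T) :
    ‖ρ.P c ω b - ρ.P c ω a - ∑ j ∈ Finset.Ioc a b, ω (ρ.J j)‖ ≤ ∑ k ∈ Finset.Ico a b, ρ.g k := by
  induction b, hab using Nat.le_induction with
  | base => simp
  | succ b hab ih =>
    rw [Finset.sum_Ico_succ_top hab, Finset.sum_Ioc_succ_top hab,
      show ∀ x y z s u : ℂ, x - z - (s + u) = (y - z - s) + (x - y - u) from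
        fun _ _ _ _ _ => by ring]
    exact (norm_add_le _ _).trans (add_le_add (ih (by omega)) (one hω h hb))

lemma unit {z : ℂ} {τ : ℝ} (h1 : ‖z‖ = 1) (h2 : ‖z - 1‖ ≤ τ) :
    1 - τ ^ 2 ≤ z.re ∧ z.re ≤ 1 ∧ |z.im| ≤ τ := by
  have e1 := Complex.normSq_eq_norm_sq z
  have e2 := Complex.normSq_eq_norm_sq (z - 1)
  rw [h1, Complex.normSq_apply] at e1
  rw [Complex.normSq_apply] at e2
  simp only [sub_re, one_re, sub_im, one_im, sub_zero] at e2
  have e3 : ‖z - 1‖ ^ 2 ≤ τ ^ 2 := pow_le_pow_left₀ (norm_nonneg _) h2 2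
  refine ⟨by nlinarith [sq_nonneg τ], (re_le_norm z).trans h1.le, ?_⟩
  simpa using (abs_im_le_norm (z - 1)).trans h2

lemma geo (hω : Nm ω) (h : Wray c ω R w τ T G ρ) {a b : ℕ} (hab : a ≤ b) (hb : b ≤ T) :
    ((b : ℝ) - a) * (1 - τ ^ 2) - G ≤ (ρ.P c ω b - ρ.P c ω a).re ∧
      (ρ.P c ω b - ρ.P c ω a).re ≤ b - a + G ∧ |(ρ.P c ω b - ρ.P c ω a).im| ≤ τ * (b - a) + G := by
  have h1 := (pos hω h hab hb).trans (h.sub fun k hk => ((Finset.mem_Ico.1 hk).2.le.trans hb))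
  have h2 := abs_le.1 ((abs_re_le_norm _).trans h1)
  have h3 := abs_le.1 ((abs_im_le_norm _).trans h1)
  rw [sub_re _ (∑ j ∈ Finset.Ioc a b, ω (ρ.J j)), re_sum] at h2
  rw [sub_im _ (∑ j ∈ Finset.Ioc a b, ω (ρ.J j)), im_sum] at h3
  have hu := fun j (hj : j ∈ Finset.Ioc a b) =>
    unit (hω.1 (ρ.J j)) (h.tilt j ((Finset.mem_Ioc.1 hj).2.trans hb))
  have hc : ((Finset.Ioc a b).card : ℝ) = b - a := by rw [Nat.card_Ioc, Nat.cast_sub hab]
  have s1 := Finset.card_nsmul_le_sum _ _ _ fun j hj => (hu j hj).1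
  have s2 := Finset.sum_le_card_nsmul _ _ _ fun j hj => (hu j hj).2.1
  have s3 := Finset.card_nsmul_le_sum _ _ _ fun j hj => (abs_le.1 (hu j hj).2.2).1
  have s4 := Finset.sum_le_card_nsmul _ _ _ fun j hj => (abs_le.1 (hu j hj).2.2).2
  rw [nsmul_eq_mul, hc] at s1 s2 s3 s4
  exact ⟨by linarith, by linarith, abs_le.2 ⟨by linarith, by linarith⟩⟩

omit [Fintype ι] [DecidableEq ι] in
lemma cen (hω : Nm ω) (c : ι → ℂ) (i : ι) {v τ : ℝ} (h1 : ‖ω i - 1‖ ≤ τ) (h2 : |v| ≤ 1 / 2) :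
    |(c i - ex c ω i v).re + 1 / 2| ≤ τ ∧ |(c i - ex c ω i v).im + v| ≤ τ ∧
      ‖c i - ex c ω i v‖ ≤ 3 / 4 := by
  have hz : ‖(⟨1 / 2, v⟩ : ℂ)‖ ≤ 3 / 4 := by
    refine le_of_sq_le_sq ?_ (by norm_num)
    rw [← Complex.normSq_eq_norm_sq, Complex.normSq_apply]
    nlinarith [sq_abs v, abs_nonneg v]
  have e : c i - ex c ω i v + ⟨1 / 2, v⟩ = -((ω i - 1) * ⟨1 / 2, v⟩) := by
    unfold ex
    ring
  have h3 : ‖c i - ex c ω i v + ⟨1 / 2, v⟩‖ ≤ τ := by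
    rw [e, norm_neg, norm_mul]
    nlinarith [norm_nonneg (ω i - 1), norm_nonneg (⟨1 / 2, v⟩ : ℂ)]
  refine ⟨(abs_re_le_norm _).trans h3, (abs_im_le_norm _).trans h3, ?_⟩
  rw [show c i - ex c ω i v = -(ω i * ⟨1 / 2, v⟩) by unfold ex; ring, norm_neg, norm_mul, hω.1,
    one_mul]
  exact hz

lemma inj (hω : Nm ω) (h : Wray c ω R w τ T G ρ) (h1 : τ ≤ 1 / 100) (h2 : G ≤ 1 / 100) {a b : ℕ}
    (hab : a < b) (hb : b ≤ T) : ρ.J a ≠ ρ.J b := fun e => by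
  have g1 := (geo hω h hab.le hb).1
  have ha : a ≤ T := hab.le.trans hb
  have c1 := abs_le.1 (cen hω c (ρ.J a) (h.tilt a ha) (h.v a ha)).1
  have c2 := abs_le.1 (cen hω c (ρ.J b) (h.tilt b hb) (h.v b hb)).1
  have h3 : (1 : ℝ) ≤ (b : ℝ) - a := by
    have : (a : ℝ) + 1 ≤ b := by exact_mod_cast hab
    linarith
  have h0 := h.τ0
  have h4 : 9 / 10 ≤ 1 - τ ^ 2 := by nlinarith
  have e2 : (c (ρ.J a)).re = (c (ρ.J b)).re := by rw [e]
  rw [sub_re] at g1 c1 c2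
  unfold Ry.P at g1
  nlinarith

section Pair

variable {R' w' G' : ℝ} {T' : ℕ} {ρ' : Ry ι}

/-- The difference of the exit points. -/
noncomputable def D (c ω : ι → ℂ) (ρ ρ' : Ry ι) (k k' : ℕ) : ℂ := ρ'.P c ω k' - ρ.P c ω k

lemma pstep (hω : Nm ω) (h : Wray c ω R w τ T G ρ) (h' : Wray c ω R' w' τ T' G' ρ')
    (h1 : τ ≤ 1 / 100) (h2 : τ * R ^ 2 ≤ 1) (h3 : R ^ 2 * G + G + G' ≤ 1 / 2) {k k' : ℕ}
    (hk : k < T) (hk' : k' < T')
    (hD : ‖D c ω ρ ρ' k k'‖ ≤ R - 7 / 2 ∨ ‖D c ω ρ ρ' (k + 1) (k' + 1)‖ ≤ R - 7 / 2) :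
    ‖D c ω ρ ρ' (k + 1) (k' + 1) - D c ω ρ ρ' k k'‖ ≤ R ^ 2 * ρ.g (k + 1) + ρ.g k + ρ'.g k' ∧
      |(D c ω ρ ρ' (k + 1) (k' + 1)).re - (D c ω ρ ρ' k k').re| ≤
        ρ.g (k + 1) + ρ.g k + ρ'.g k' := by
  have e : D c ω ρ ρ' (k + 1) (k' + 1) - D c ω ρ ρ' k k' -
      (ω (ρ'.J (k' + 1)) - ω (ρ.J (k + 1))) =
      (ρ'.P c ω (k' + 1) - ρ'.P c ω k' - ω (ρ'.J (k' + 1))) -
        (ρ.P c ω (k + 1) - ρ.P c ω k - ω (ρ.J (k + 1))) := by
    unfold D
    ring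
  have a1 : ‖D c ω ρ ρ' (k + 1) (k' + 1) - D c ω ρ ρ' k k' -
      (ω (ρ'.J (k' + 1)) - ω (ρ.J (k + 1)))‖ ≤ ρ'.g k' + ρ.g k := by
    rw [e]
    exact (norm_sub_le _ _).trans (add_le_add (one hω h' hk') (one hω h hk))
  have t1 := h.tilt (k + 1) hk
  have t2 := h'.tilt (k' + 1) hk'
  have a2 : ‖ω (ρ'.J (k' + 1)) - ω (ρ.J (k + 1))‖ ≤ 2 * τ := by
    have := norm_sub_le_norm_sub_add_norm_sub (ω (ρ'.J (k' + 1))) 1 (ω (ρ.J (k + 1)))
    rw [norm_sub_rev 1] at this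
    linarith
  have a3 := norm_le_norm_sub_add (D c ω ρ ρ' (k + 1) (k' + 1) - D c ω ρ ρ' k k')
    (ω (ρ'.J (k' + 1)) - ω (ρ.J (k + 1)))
  have a4 : ‖D c ω ρ ρ' (k + 1) (k' + 1)‖ ≤ R - 3 / 2 := by
    have := norm_le_norm_sub_add (D c ω ρ ρ' (k + 1) (k' + 1)) (D c ω ρ ρ' k k')
    have g1 := h.le hk.le
    have g2 := h'.le hk'.le
    have g3 := mul_nonneg (sq_nonneg R) h.G0
    rcases hD with hD | hD <;> linarith
  have a5 : ‖c (ρ'.J (k' + 1)) - c (ρ.J (k + 1))‖ ≤ R := by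
    have c1 := (cen hω c _ t1 (h.v (k + 1) hk)).2.2
    have c2 := (cen hω c _ t2 (h'.v (k' + 1) hk')).2.2
    rw [show c (ρ'.J (k' + 1)) - c (ρ.J (k + 1)) =
      (c (ρ'.J (k' + 1)) - ex c ω (ρ'.J (k' + 1)) (ρ'.V (k' + 1))) + D c ω ρ ρ' (k + 1) (k' + 1) -
        (c (ρ.J (k + 1)) - ex c ω (ρ.J (k + 1)) (ρ.V (k + 1))) by unfold D Ry.P; ring]
    exact (norm_sub_le _ _).trans
      ((add_le_add ((norm_add_le _ _).trans (add_le_add c2 a4)) c1).trans (by linarith))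
  have a6 := (h.calm (k := k + 1) hk).ang _ a5
  refine ⟨by linarith, ?_⟩
  have a7 := abs_le.1 ((re_diff (hω.1 _) (hω.1 _) t1 t2).trans
    (mul_le_mul_of_nonneg_left a6 h.τ0))
  have a8 := abs_le.1 ((abs_re_le_norm _).trans a1)
  have a9 : τ * (R ^ 2 * ρ.g (k + 1)) ≤ ρ.g (k + 1) := by
    rw [← mul_assoc]
    exact mul_le_of_le_one_left (h.g0 _) h2
  simp only [sub_re] at a8
  exact abs_le.2 ⟨by linarith, by linarith⟩

/-- The bounds on `n` steps. -/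
def Bd (c ω : ι → ℂ) (R : ℝ) (ρ ρ' : Ry ι) (a a' n : ℕ) : Prop :=
  ‖D c ω ρ ρ' (a + n) (a' + n) - D c ω ρ ρ' a a'‖ ≤
      R ^ 2 * ∑ j ∈ Finset.range n, ρ.g (a + 1 + j) + ∑ j ∈ Finset.range n, ρ.g (a + j) +
        ∑ j ∈ Finset.range n, ρ'.g (a' + j) ∧
    |(D c ω ρ ρ' (a + n) (a' + n)).re - (D c ω ρ ρ' a a').re| ≤
      ∑ j ∈ Finset.range n, ρ.g (a + 1 + j) + ∑ j ∈ Finset.range n, ρ.g (a + j) +
        ∑ j ∈ Finset.range n, ρ'.g (a' + j)

lemma Bd.fin (h : Wray c ω R w τ T G ρ) (h' : Wray c ω R' w' τ T' G' ρ') {a a' n : ℕ}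
    (hb : Bd c ω R ρ ρ' a a' n) (ha : a + n ≤ T) (ha' : a' + n ≤ T') :
    ‖D c ω ρ ρ' (a + n) (a' + n) - D c ω ρ ρ' a a'‖ ≤ R ^ 2 * G + G + G' ∧
      |(D c ω ρ ρ' (a + n) (a' + n)).re - (D c ω ρ ρ' a a').re| ≤ 2 * G + G' := by
  have s1 := sr h (a := a + 1) (n := n) (by omega)
  have s2 := sr h (a := a) (n := n) (by omega)
  have s3 := sr h' (a := a') (n := n) (by omega)
  have s4 := mul_le_mul_of_nonneg_left s1 (sq_nonneg R)
  exact ⟨by linarith [hb.1], by linarith [hb.2]⟩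

lemma fwd (hω : Nm ω) (h : Wray c ω R w τ T G ρ) (h' : Wray c ω R' w' τ T' G' ρ')
    (h1 : τ ≤ 1 / 100) (h2 : τ * R ^ 2 ≤ 1) (h3 : R ^ 2 * G + G + G' ≤ 1 / 2) {a a' : ℕ}
    (hD : ‖D c ω ρ ρ' a a'‖ ≤ R - 4) (n : ℕ) (ha : a + n ≤ T) (ha' : a' + n ≤ T') :
    Bd c ω R ρ ρ' a a' n := by
  induction n with
  | zero => simp [Bd]
  | succ n ih =>
    have b := ih (by omega) (by omega)
    have b' := (b.fin h h' (by omega) (by omega)).1
    have s := pstep hω h h' h1 h2 h3 (k := a + n) (k' := a' + n) ha ha' (Or.inl (by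
      linarith [norm_le_norm_sub_add (D c ω ρ ρ' (a + n) (a' + n)) (D c ω ρ ρ' a a')]))
    have t := norm_sub_le_norm_sub_add_norm_sub (D c ω ρ ρ' (a + n + 1) (a' + n + 1))
      (D c ω ρ ρ' (a + n) (a' + n)) (D c ω ρ ρ' a a')
    have s2 := abs_le.1 s.2
    have b2 := abs_le.1 b.2
    unfold Bd
    simp only [Finset.sum_range_succ, ← add_assoc, add_right_comm a 1 n]
    exact ⟨by linarith [s.1, b.1], abs_le.2 ⟨by linarith, by linarith⟩⟩

lemma bwd (hω : Nm ω) (h : Wray c ω R w τ T G ρ) (h' : Wray c ω R' w' τ T' G' ρ')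
    (h1 : τ ≤ 1 / 100) (h2 : τ * R ^ 2 ≤ 1) (h3 : R ^ 2 * G + G + G' ≤ 1 / 2) (n : ℕ) :
    ∀ a a' : ℕ, ‖D c ω ρ ρ' (a + n) (a' + n)‖ ≤ R - 4 → a + n ≤ T → a' + n ≤ T' →
      Bd c ω R ρ ρ' a a' n := by
  induction n with
  | zero => exact fun a a' _ _ _ => by simp [Bd]
  | succ n ih =>
    intro a a' hD ha ha'
    have e : a + (n + 1) = a + 1 + n := by omega
    have e' : a' + (n + 1) = a' + 1 + n := by omega
    rw [e, e'] at hD
    have b := ih (a + 1) (a' + 1) hD (by omega) (by omega)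
    have b' := (b.fin h h' (by omega) (by omega)).1
    have s := pstep hω h h' h1 h2 h3 (k := a) (k' := a') (by omega) (by omega) (Or.inr (by
      have := norm_le_norm_sub_add (D c ω ρ ρ' (a + 1) (a' + 1))
        (D c ω ρ ρ' (a + 1 + n) (a' + 1 + n))
      rw [norm_sub_rev] at this
      linarith))
    have t := norm_sub_le_norm_sub_add_norm_sub (D c ω ρ ρ' (a + 1 + n) (a' + 1 + n))
      (D c ω ρ ρ' (a + 1) (a' + 1)) (D c ω ρ ρ' a a')
    have s2 := abs_le.1 s.2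
    have b1 := b.1
    have b2 := abs_le.1 b.2
    have e2 : ∀ (f : ℕ → ℝ) (x : ℕ), ∑ j ∈ Finset.range (n + 1), f (x + j) =
        ∑ j ∈ Finset.range n, f (x + 1 + j) + f x := fun f x => by
      rw [Finset.sum_range_succ']
      exact congrArg (· + f x) (Finset.sum_congr rfl fun j _ => congrArg f (by omega))
    unfold Bd
    rw [e2, e2, e2, e, e']
    exact ⟨by linarith [s.1], abs_le.2 ⟨by linarith, by linarith⟩⟩

end Pair

end WrayP

open WrayP in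
theorem wS (hω : Nm ω) (_L : L0) : WS ω where
  rev _ _ _ _ _ _ _ h := rev h
  revP c _ _ _ := ex_neg c _ _
  cat _ _ _ _ _ _ _ _ _ _ h h' hJ hV := cat h h' hJ hV
  snoc _ _ _ _ _ _ _ _ _ _ h hγ h1 h2 := snoc h hγ h1 h2
  ang _ _ _ _ _ _ _ _ _ h hab hb := ang h hab hb
  pos _ _ _ _ _ _ _ _ _ h hab hb := pos hω h hab hb
  geo _ _ _ _ _ _ _ _ _ h hab hb := geo hω h hab hb
  cen c i _ _ h1 h2 := cen hω c i h1 h2
  inj _ _ _ _ _ _ _ a b h h1 h2 ha hb e := by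
    rcases lt_trichotomy a b with h3 | h3 | h3
    · exact absurd e (inj hω h h1 h2 h3 hb)
    · exact h3
    · exact absurd e.symm (inj hω h h1 h2 h3 ha)
  pair c R _ _ _ _ _ _ _ _ ρ ρ' t t' s s' h h' h1 h2 h3 ht ht' hs hs' e hD := by
    rcases le_total t s with h4 | h4
    · obtain ⟨n, rfl⟩ := Nat.exists_eq_add_of_le h4
      obtain rfl : s' = t' + n := by omega
      exact (fwd hω h h' h1 h2 h3 hD n hs hs').fin h h' hs hs'
    · obtain ⟨n, rfl⟩ := Nat.exists_eq_add_of_le h4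
      obtain rfl : t' = s' + n := by omega
      have := (bwd hω h h' h1 h2 h3 n s s' hD ht ht').fin h h' ht ht'
      rw [norm_sub_rev, abs_sub_comm] at this
      exact this

end Pool.Agent.MP_c59ecb_co.sh

end MrgPart2

-- ======== part 3: formerly Pool.Agent.MP_c59ecb_co.sh.Frame
section MrgPart3

/-! The frame around the covered square. -/

set_option autoImplicit false

namespace Pool.Agent.MP_c59ecb_co.sh

open MeasureTheory Complex Pool.Agent.MP_c59ecb_co.h76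
open scoped ENNReal

namespace Frame

/-- an open rectangle -/
def OB (x1 x2 y1 y2 : ℝ) : Set ℂ := {p | p.re ∈ Set.Ioo x1 x2 ∧ p.im ∈ Set.Ioo y1 y2}

lemma meas_OB (x1 x2 y1 y2 : ℝ) : MeasurableSet (OB x1 x2 y1 y2) :=
  (measurableSet_Ioo.preimage measurable_re).inter (measurableSet_Ioo.preimage measurable_im)

lemma vol_OB {x1 x2 y1 y2 A : ℝ} (h : x1 ≤ x2) (hA : A = (x2 - x1) * (y2 - y1)) :
    volume (OB x1 x2 y1 y2) = ENNReal.ofReal A := by
  have h3 := volume_preserving_equiv_real_prod.measure_preimage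
    (s := Set.Ioo x1 x2 ×ˢ Set.Ioo y1 y2)
    (measurableSet_Ioo.prod measurableSet_Ioo).nullMeasurableSet
  rw [Measure.volume_eq_prod, Measure.prod_prod, Real.volume_Ioo, Real.volume_Ioo,
    ← ENNReal.ofReal_mul (by linarith), ← hA] at h3
  exact h3

/-- centres in the first piece of the frame -/
noncomputable def ct (a : ℝ) (i j : ℕ) : ℂ := ⟨-a - 1 / 2 - i, -a + 1 / 2 + j⟩

variable {ι : Type} [Fintype ι] [DecidableEq ι] {c ω : ι → ℂ}

/-- a covering of the square together with the four pieces of the frame -/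
structure Fm (n N : ℕ) (a : ℝ) (c ω : ι → ℂ) : Prop where
  typ : ∀ k, (|(c k).re| < a + 1 ∧ |(c k).im| < a + 1) ∨
    (ω k = 1 ∧ ∃ (u : ℂ) (i j : ℕ), u ^ 4 = 1 ∧ c k = u * ct a i j)
  all : ∀ (u : ℂ) (i j : ℕ), u ^ 4 = 1 → i < 3 * n → j < 4 * n + 1 →
    ∃ k, ω k = 1 ∧ c k = u * ct a i j
  cov : ∀ p : ℂ, |p.re| ≤ a → |p.im| ≤ a → Cov c ω p
  card : Fintype.card ι ≤ N + 4 * (3 * n * (4 * n + 1))

lemma cube {u : ℂ} (hu : u ^ 4 = 1) : (u ^ 3) ^ 4 = 1 := by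
  rw [← pow_mul, mul_comm, pow_mul, hu, one_pow]

lemma abs_rot {u : ℂ} (hu : u ^ 4 = 1) (p : ℂ) :
    (|(u * p).re| = |p.re| ∧ |(u * p).im| = |p.im|) ∨
      (|(u * p).re| = |p.im| ∧ |(u * p).im| = |p.re|) := by
  rcases fourth hu with rfl | rfl | rfl | rfl <;> simp

omit [DecidableEq ι] in
lemma Fm.rot {n N : ℕ} {a : ℝ} (h : Fm n N a c ω) {v : ℂ} (hv : v ^ 4 = 1) :
    Fm n N a (rt v c) ω where
  typ k := by
    rcases h.typ k with h1 | ⟨h1, u, i, j, h2, h3⟩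
    · left
      rcases abs_rot hv (c k) with ⟨h2, h3⟩ | ⟨h2, h3⟩ <;> rw [h2, h3]
      exacts [h1, h1.symm]
    · exact Or.inr ⟨h1, v * u, i, j, by rw [mul_pow, hv, h2, mul_one], by
        simp only [rt, h3, mul_assoc]⟩
  all u i j hu hi hj := by
    obtain ⟨k, h1, h2⟩ := h.all (v ^ 3 * u) i j (by rw [mul_pow, cube hv, hu, mul_one]) hi hj
    refine ⟨k, h1, ?_⟩
    simp only [rt, h2]
    linear_combination (u * ct a i j) * hv
  cov p h1 h2 := by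
    have e : p = v * (v ^ 3 * p) := by linear_combination (-p) * hv
    rw [e]
    refine (cov_rt hv).2 ?_
    rcases abs_rot (cube hv) p with ⟨h3, h4⟩ | ⟨h3, h4⟩
    · exact h.cov _ (h3 ▸ h1) (h4 ▸ h2)
    · exact h.cov _ (h3 ▸ h2) (h4 ▸ h1)
  card := h.card

omit [DecidableEq ι] in
lemma Fm.piece {n N : ℕ} {a : ℝ} (h : Fm n N a c ω) (hn : 0 < n) {u : ℂ} (hu : u ^ 4 = 1)
    {p : ℂ} (q : ℂ) (e : p = u * q) (h1 : -a - 3 * n ≤ q.re) (h2 : q.re ≤ -a) (h3 : -a ≤ q.im)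
    (h4 : q.im ≤ -a + (4 * n + 1)) : Cov c ω p := by
  obtain ⟨r, hr⟩ := exists_cell (m := 3 * n) (x := -a - q.re) (by omega) (by linarith)
    (by push_cast; linarith)
  obtain ⟨s, hs⟩ := exists_cell (m := 4 * n + 1) (x := q.im + a) (by omega) (by linarith)
    (by push_cast; linarith)
  obtain ⟨k, h5, h6⟩ := h.all u r s hu r.2 s.2
  refine ⟨k, ?_⟩
  rw [h5, h6, e, mem_rt hu, mem_Sq_one]
  simp only [ct]
  rw [abs_le] at hr hs
  exact ⟨abs_le.2 ⟨by linarith [hr.2], by linarith [hr.1]⟩,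
    abs_le.2 ⟨by linarith [hs.1], by linarith [hs.2]⟩⟩

omit [DecidableEq ι] in
lemma Fm.p0 {n N : ℕ} {a : ℝ} (h : Fm n N a c ω) (hn : 0 < n) {p : ℂ} (h1 : -a - 3 * n ≤ p.re)
    (h2 : p.re ≤ -a) (h3 : -a ≤ p.im) (h4 : p.im ≤ -a + (4 * n + 1)) : Cov c ω p :=
  h.piece hn (u := 1) (by simp) p (by simp) h1 h2 h3 h4

omit [DecidableEq ι] in
lemma Fm.p1 {n N : ℕ} {a : ℝ} (h : Fm n N a c ω) (hn : 0 < n) {p : ℂ}
    (h1 : a - (4 * n + 1) ≤ p.re) (h2 : p.re ≤ a) (h3 : -a - 3 * n ≤ p.im) (h4 : p.im ≤ -a) :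
    Cov c ω p :=
  h.piece hn (u := I) I_pow_four ⟨p.im, -p.re⟩ (by apply Complex.ext <;> simp) h3 h4
    (by simp only; linarith) (by simp only; linarith)

omit [DecidableEq ι] in
lemma Fm.p2 {n N : ℕ} {a : ℝ} (h : Fm n N a c ω) (hn : 0 < n) {p : ℂ} (h1 : a ≤ p.re)
    (h2 : p.re ≤ a + 3 * n) (h3 : a - (4 * n + 1) ≤ p.im) (h4 : p.im ≤ a) : Cov c ω p :=
  h.piece hn (u := -1) (by norm_num) ⟨-p.re, -p.im⟩ (by apply Complex.ext <;> simp)
    (by simp only; linarith) (by simp only; linarith) (by simp only; linarith)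
    (by simp only; linarith)

omit [DecidableEq ι] in
lemma Fm.p3 {n N : ℕ} {a : ℝ} (h : Fm n N a c ω) (hn : 0 < n) {p : ℂ} (h1 : -a ≤ p.re)
    (h2 : p.re ≤ -a + (4 * n + 1)) (h3 : a ≤ p.im) (h4 : p.im ≤ a + 3 * n) : Cov c ω p :=
  h.piece hn (u := -I) (by rw [neg_pow, I_pow_four]; norm_num) ⟨-p.im, p.re⟩
    (by apply Complex.ext <;> simp) (by simp only; linarith) (by simp only; linarith) h1 h2

/-- the total overlap -/
lemma Fm.sov {n N : ℕ} {a : ℝ} (h : Fm n N a c ω) (hω : ∀ k, ‖ω k‖ = 1) (hn : 0 < n)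
    (ha : (n : ℝ) ≤ 2 * a) : ∑ k, ov c ω k ≤ 2 * ((N : ℝ) - n ^ 2) := by
  have hn0 : (0 : ℝ) ≤ n := Nat.cast_nonneg n
  have hB : (0 : ℝ) ≤ 3 * n * (4 * n + 1) := by positivity
  have m0 := meas_OB (-a) a (-a) a
  have m1 := meas_OB (-a - 3 * n) (-a) (-a) (-a + (4 * n + 1))
  have m2 := meas_OB (a - (4 * n + 1)) a (-a - 3 * n) (-a)
  have m3 := meas_OB a (a + 3 * n) (a - (4 * n + 1)) a
  have m4 := meas_OB (-a) (-a + (4 * n + 1)) a (a + 3 * n)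
  have h2 := sum_ov_le (c := c) hω ((((m0.union m1).union m2).union m3).union m4)
    (by
      rintro p ((((hp | hp) | hp) | hp) | hp)
      · exact h.cov p (abs_le.2 ⟨hp.1.1.le, hp.1.2.le⟩) (abs_le.2 ⟨hp.2.1.le, hp.2.2.le⟩)
      · exact h.p0 hn hp.1.1.le hp.1.2.le hp.2.1.le hp.2.2.le
      · exact h.p1 hn hp.1.1.le hp.1.2.le hp.2.1.le hp.2.2.le
      · exact h.p2 hn hp.1.1.le hp.1.2.le hp.2.1.le hp.2.2.le
      · exact h.p3 hn hp.1.1.le hp.1.2.le hp.2.1.le hp.2.2.le)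
    (A := (2 * a) ^ 2 + 4 * (3 * n * (4 * n + 1))) (by
      rw [measure_union _ m4, measure_union _ m3, measure_union _ m2, measure_union _ m1,
        vol_OB (A := (2 * a) ^ 2) (by linarith) (by ring),
        vol_OB (A := 3 * n * (4 * n + 1)) (by linarith) (by ring),
        vol_OB (A := 3 * n * (4 * n + 1)) (by linarith) (by ring),
        vol_OB (A := 3 * n * (4 * n + 1)) (by linarith) (by ring),
        vol_OB (A := 3 * n * (4 * n + 1)) (by linarith) (by ring),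
        ← ENNReal.ofReal_add (by positivity) hB, ← ENNReal.ofReal_add (by positivity) hB,
        ← ENNReal.ofReal_add (by positivity) hB, ← ENNReal.ofReal_add (by positivity) hB]
      · exact ENNReal.ofReal_le_ofReal (by linarith)
      · refine Set.disjoint_left.2 ?_
        rintro p hp hq
        linarith [hp.1.1, hq.1.2]
      · refine Set.disjoint_left.2 ?_
        rintro p (hp | hp) hq <;> linarith [hp.2.1, hq.2.2]
      · refine Set.disjoint_left.2 ?_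
        rintro p ((hp | hp) | hp) hq <;> linarith [hp.1.2, hq.1.1]
      · refine Set.disjoint_left.2 ?_
        rintro p (((hp | hp) | hp) | hp) hq <;> linarith [hp.1.2, hq.1.1, hp.2.2, hq.2.1])
  have h3 : (Fintype.card ι : ℝ) ≤ N + 4 * (3 * n * (4 * n + 1)) := by exact_mod_cast h.card
  nlinarith

/-- points covered twice are counted twice -/
lemma mu_le (hω : ∀ k, ‖ω k‖ = 1) {W : ℝ} (h : ∑ k, ov c ω k ≤ 2 * W) :
    volume (Mu c ω) ≤ ENNReal.ofReal W := by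
  have m1 : ∀ k, Measurable ((Dbl c ω k).indicator (1 : ℂ → ℝ≥0∞)) :=
    fun k => measurable_one.indicator (measurableSet_Dbl c ω k)
  have h1 := mul_meas_ge_le_lintegral (μ := volume)
    (Finset.measurable_fun_sum Finset.univ fun k _ => m1 k) 2
  rw [lintegral_finsetSum _ fun k _ => m1 k] at h1
  simp only [lintegral_indicator_one (measurableSet_Dbl c ω _), volume_Dbl hω] at h1
  rw [← ENNReal.ofReal_sum_of_nonneg fun k _ => ov_nonneg c ω k] at h1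
  have h2 : Mu c ω ⊆ {p | 2 ≤ ∑ k, (Dbl c ω k).indicator (1 : ℂ → ℝ≥0∞) p} := by
    rintro p ⟨i, j, hij, hi, hj⟩
    have h3 := Finset.sum_le_sum_of_subset (f := fun k => (Dbl c ω k).indicator (1 : ℂ → ℝ≥0∞) p)
      (Finset.subset_univ {i, j})
    rw [Finset.sum_pair hij, Set.indicator_of_mem ((mem_Dbl c ω).2 ⟨hi, j, hij.symm, hj⟩),
      Set.indicator_of_mem ((mem_Dbl c ω).2 ⟨hj, i, hij, hi⟩), Pi.one_apply,
      one_add_one_eq_two] at h3
    exact h3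
  have h4 : 2 * volume (Mu c ω) ≤ 2 * ENNReal.ofReal W := by
    refine ((mul_le_mul_right (measure_mono h2) 2).trans h1).trans ?_
    rw [← ENNReal.ofReal_ofNat 2, ← ENNReal.ofReal_mul (by norm_num)]
    exact ENNReal.ofReal_le_ofReal h
  exact (ENNReal.mul_le_mul_iff_right (by norm_num) (by norm_num)).1 h4

lemma Fm.framed {n N : ℕ} {a : ℝ} (h : Fm n N a c ω) (hω : ∀ k, ‖ω k‖ = 1) (hn : 10 ≤ n)
    (ha : (n : ℝ) ≤ 2 * a) (ha' : 2 * a ≤ n + 1) : Framed1 n a (N - n ^ 2) c ω where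
  cov p h1 h2 := by
    have hn0 : 0 < n := by omega
    rw [abs_le] at h1 h2
    by_cases k0 : p.re ≤ -a ∧ -a ≤ p.im
    · exact h.p0 hn0 (by linarith) k0.1 k0.2 (by linarith)
    by_cases k1 : p.re ≤ a ∧ p.im ≤ -a
    · exact h.p1 hn0 (by linarith) k1.1 (by linarith) k1.2
    by_cases k2 : a ≤ p.re ∧ p.im ≤ a
    · exact h.p2 hn0 k2.1 (by linarith) (by linarith) k2.2
    by_cases k3 : -a ≤ p.re ∧ a ≤ p.im
    · exact h.p3 hn0 k3.1 (by linarith) k3.2 (by linarith)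
    have hn1 : (0 : ℝ) ≤ n := Nat.cast_nonneg n
    simp only [not_and_or, not_le] at k0 k1 k2 k3
    refine h.cov p (abs_le.2 ⟨?_, ?_⟩) (abs_le.2 ⟨?_, ?_⟩) <;>
      rcases k0 with k0 | k0 <;> rcases k1 with k1 | k1 <;> rcases k2 with k2 | k2 <;>
        rcases k3 with k3 | k3 <;> linarith
  out k hk := by
    rcases h.typ k with h1 | ⟨h1, u, i, j, h2, h3⟩
    · rcases hk with hk | hk <;> linarith [h1.1, h1.2]
    have l1 : Lat a (-a - 1 / 2 - i) := ⟨-1 - i, Or.inr (by push_cast; ring)⟩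
    have l2 : Lat a (-(-a - 1 / 2 - i)) := ⟨1 + i, Or.inl (by push_cast; ring)⟩
    have l3 : Lat a (-a + 1 / 2 + j) := ⟨j, Or.inr (by push_cast; ring)⟩
    have l4 : Lat a (-(-a + 1 / 2 + j)) := ⟨-j, Or.inl (by push_cast; ring)⟩
    refine ⟨h1, ?_⟩
    rw [h3]
    rcases fourth h2 with rfl | rfl | rfl | rfl <;>
      simp only [ct, mul_re, mul_im, I_re, I_im, neg_re, neg_im, zero_mul, one_mul,
        neg_mul, zero_sub, zero_add, neg_neg]
    exacts [⟨l1, l3⟩, ⟨l4, l1⟩, ⟨l2, l4⟩, ⟨l3, l2⟩]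
  rgt k h4 h5 := by
    have hn1 : (0 : ℝ) ≤ n := Nat.cast_nonneg n
    rcases h.typ k with h1 | ⟨-, u, i, j, h2, h3⟩
    · linarith [h1.1, le_abs_self (c k).re]
    have hi : (0 : ℝ) ≤ i := Nat.cast_nonneg i
    rw [h3] at h4 h5 ⊢
    rw [abs_le] at h5
    rcases fourth h2 with rfl | rfl | rfl | rfl <;>
      simp only [ct, mul_re, mul_im, I_re, I_im, neg_re, neg_im, zero_mul, one_mul,
        neg_mul, zero_sub, zero_add, neg_neg] at h4 h5 ⊢
    · linarith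
    · exact ⟨-j, by push_cast; ring⟩
    · exact ⟨1 + i, by push_cast; ring⟩
    · linarith [h5.2]
  lft j hj := by
    obtain ⟨k, h1, h2⟩ := h.all 1 10 j (by simp) (by omega) (by omega)
    refine ⟨k, h1, ?_⟩
    rw [h2, one_mul, ct]
    congr 1
    push_cast
    ring
  sov := h.sov hω (by omega) ha
  mu := mu_le hω (h.sov hω (by omega) ha)

end Frame

open _root_.Pool.Agent.MP_c59ecb_co.sh.Frame in
theorem frameS : FrameS := by
  classical
  intro n N ε a ω hn hε hε1 ⟨hω, hc⟩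
  obtain ⟨b, hb⟩ : ∃ b : ℝ, b = (n + ε) / 2 := ⟨_, rfl⟩
  rw [← hb]
  let c0 : Fin N → ℂ := fun k => a k + ω k * ⟨1 / 2, 1 / 2⟩ - ⟨b, b⟩
  choose ζ h1 h2 h3 using fun k => exists_normal (c0 k) (hω k)
  let K := {k : Fin N // |(c0 k).re| < b + 1 ∧ |(c0 k).im| < b + 1}
  let c : K ⊕ (Fin 4 × Fin (3 * n) × Fin (4 * n + 1)) → ℂ :=
    Sum.elim (fun k => c0 k.1) fun x => I ^ x.1.val * ct b x.2.1 x.2.2
  let η : K ⊕ (Fin 4 × Fin (3 * n) × Fin (4 * n + 1)) → ℂ :=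
    Sum.elim (fun k => ζ k.1) fun _ => 1
  have hη : Nm η := ⟨by
    rintro (k | k)
    exacts [h1 k.1, norm_one], by
    rintro (k | k)
    · exact h2 k.1
    · simp [η]⟩
  have hF : Fm n N b c η := by
    refine ⟨?_, fun u i j hu hi hj => ?_, fun p k1 k2 => ?_, ?_⟩
    · rintro (k | x)
      · exact Or.inl k.2
      · exact Or.inr ⟨rfl, _, _, _, by rw [← pow_mul, mul_comm, pow_mul, I_pow_four, one_pow], rfl⟩
    · obtain ⟨m, hm⟩ : ∃ m : Fin 4, I ^ m.val = u := by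
        rcases fourth hu with rfl | rfl | rfl | rfl
        exacts [⟨0, by simp⟩, ⟨1, by simp⟩, ⟨2, by simp⟩, ⟨3, I_pow_three⟩]
      exact ⟨Sum.inr (m, ⟨i, hi⟩, ⟨j, hj⟩), rfl, by rw [← hm]; rfl⟩
    · rw [abs_le] at k1 k2
      obtain ⟨k, s, hs, t, ht, e⟩ := hc (p.re + b) ⟨by linarith, by linarith⟩ (p.im + b)
        ⟨by linarith, by linarith⟩
      have e1 : p = c0 k + ω k * ⟨s - 1 / 2, t - 1 / 2⟩ := by
        have e2 : p = ((p.re + b : ℝ) : ℂ) + (p.im + b : ℝ) * I - ⟨b, b⟩ := by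
          apply Complex.ext <;> simp
        have e3 : (s + t * I : ℂ) = ⟨1 / 2, 1 / 2⟩ + ⟨s - 1 / 2, t - 1 / 2⟩ := by
          apply Complex.ext <;> simp
        rw [e2, e, e3]
        simp only [c0]
        ring
      have e4 : p ∈ Sq (c0 k) (ω k) := by
        rw [e1]
        simp only [Sq, Set.mem_ofPred_eq, loc_add (hω k)]
        exact ⟨abs_le.2 ⟨by linarith [hs.1], by linarith [hs.2]⟩,
          abs_le.2 ⟨by linarith [ht.1], by linarith [ht.2]⟩⟩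
      have e5 := norm_le_of_mem (hω k) e4
      have e6 := abs_le.1 ((abs_re_le_norm _).trans e5)
      have e7 := abs_le.1 ((abs_im_le_norm _).trans e5)
      rw [sub_re] at e6
      rw [sub_im] at e7
      refine ⟨Sum.inl ⟨k, abs_lt.2 ⟨by linarith, by linarith⟩,
        abs_lt.2 ⟨by linarith, by linarith⟩⟩, ?_⟩
      rw [← h3] at e4
      exact e4
    · have h4 : Fintype.card K ≤ N := (Fintype.card_subtype_le _).trans (Fintype.card_fin N).le
      simp only [Fintype.card_sum, Fintype.card_prod, Fintype.card_fin]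
      omega
  have h5 : (n : ℝ) ≤ 2 * b := by linarith
  refine ⟨?_, _, inferInstance, inferInstance, c, η, hη, fun u hu =>
    (hF.rot hu).framed hη.1 hn h5 (by linarith)⟩
  have h6 := hF.sov hη.1 (by omega) h5
  linarith [Finset.sum_nonneg fun k (_ : k ∈ Finset.univ) => ov_nonneg c η k]

end Pool.Agent.MP_c59ecb_co.sh

end MrgPart3

-- ======== part 4: formerly Pool.Agent.MP_c59ecb_co.sh.Lower
section MrgPart4

/-! The choice of the parameters and the final inequality. -/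

set_option autoImplicit false

namespace Pool.Agent.MP_c59ecb_co.sh

open MeasureTheory Complex Pool.Agent.MP_c59ecb_co.h76

namespace Lower

lemma amgm {n b z : ℝ} (hb : 0 < b) (hz : 0 < z) (h : n * b ^ 5 = 96) :
    80 / b ^ 3 ≤ n * z ^ 2 / 2 + 32 / z ^ 3 := by
  obtain ⟨s, rfl⟩ : ∃ s, z = s * b := ⟨z / b, by field_simp⟩
  have hs : 0 < s := (mul_pos_iff_of_pos_right hb).1 hz
  obtain rfl : n = 96 / b ^ 5 := by field_simp; exact h
  have e : 96 / b ^ 5 * (s * b) ^ 2 / 2 + 32 / (s * b) ^ 3 = (48 * s ^ 2 + 32 / s ^ 3) / b ^ 3 := by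
    field_simp
    ring
  rw [e]
  refine div_le_div_of_nonneg_right ?_ (by positivity)
  rw [← sub_le_iff_le_add', le_div_iff₀ (by positivity)]
  nlinarith [mul_nonneg (sq_nonneg (s - 1))
    (show 0 ≤ 3 * s ^ 3 + 6 * s ^ 2 + 4 * s + 2 by positivity)]

lemma fl {y : ℝ} (h0 : 0 < y) (h1 : y ≤ 1) :
    (⌊1 / y⌋₊ : ℝ) * y ≤ 1 ∧ 1 ≤ 2 * ((⌊1 / y⌋₊ : ℝ) * y) := by
  have h2 : (⌊1 / y⌋₊ : ℝ) ≤ 1 / y := Nat.floor_le (by positivity)
  have h3 : 1 / y < ⌊1 / y⌋₊ + 1 := Nat.lt_floor_add_one _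
  have h4 : (1 : ℝ) ≤ ⌊1 / y⌋₊ := by
    exact_mod_cast (Nat.one_le_floor_iff _).2 (by rw [le_div_iff₀ h0]; linarith)
  rw [le_div_iff₀ h0] at h2
  rw [div_lt_iff₀ h0] at h3
  exact ⟨h2, by nlinarith⟩

lemma small {M x : ℝ} (hM : 1 ≤ M) (h0 : 0 < x) (hx : x * M ^ 200 ≤ 1) {a j : ℕ} (ha : a ≤ 200) :
    M ^ a * x ^ (j + 1) ≤ 1 := by
  have h1 : x * M ^ a ≤ 1 :=
    (mul_le_mul_of_nonneg_left (pow_le_pow_right₀ hM ha) h0.le).trans hx
  have h2 : x ≤ 1 := (le_mul_of_one_le_right h0.le (one_le_pow₀ hM)).trans hx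
  calc M ^ a * x ^ (j + 1) = x * M ^ a * x ^ j := by ring
    _ ≤ 1 := mul_le_one₀ h1 (by positivity) (pow_le_one₀ h0.le h2)

lemma exP {M n : ℕ} {b ε : ℝ} (hM : 10 ^ 30 ≤ M) (hb : 0 < b) (hb0 : b ≤ 1 / (M : ℝ) ^ 1000)
    (hn : n * b ^ 5 = 96) (hε : 0 < ε) :
    ∃ P : Pm, P.M = M ∧ P.n = n ∧ P.ε ≤ ε ∧ 15 ≤ P.nt * b ^ 3 ∧ P.nt * b ^ 3 ≤ 16 := by
  have hM1 : (1 : ℝ) ≤ M := by exact_mod_cast le_trans (by norm_num) hM
  obtain ⟨x, x0, hx⟩ : ∃ x : ℝ, 0 < x ∧ x ^ 25 = b ^ 5 / 96 :=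
    ⟨(b ^ 5 / 96) ^ ((25 : ℕ)⁻¹ : ℝ), by positivity,
      Real.rpow_inv_natCast_pow (by positivity) (by norm_num)⟩
  have h1 : x * (M : ℝ) ^ 200 ≤ 1 := by
    rw [le_div_iff₀ (by positivity)] at hb0
    have h2 : (b * (M : ℝ) ^ 1000) ^ 5 ≤ 1 := pow_le_one₀ (by positivity) hb0
    rw [← pow_le_one_iff_of_nonneg (by positivity) (show 25 ≠ 0 by norm_num), mul_pow, hx,
      ← pow_mul]
    rw [mul_pow, ← pow_mul] at h2
    calc b ^ 5 / 96 * (M : ℝ) ^ (200 * 25) = b ^ 5 * (M : ℝ) ^ (1000 * 5) / 96 :=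
          div_mul_eq_mul_div _ _ _
      _ ≤ 1 := (div_le_one (by norm_num)).2 (h2.trans (by norm_num))
  have f1 := fl (y := (M : ℝ) ^ 3 * x ^ 5) (by positivity) (small hM1 x0 h1 (by norm_num))
  have f2 := fl (y := (M : ℝ) ^ 58 * x ^ 10) (by positivity) (small hM1 x0 h1 (by norm_num))
  have e : (x ^ (-15 : ℤ) * b ^ 3) ^ 5 = 96 ^ 3 := by
    have : b ^ 5 = 96 * x ^ 25 := by rw [hx]; ring
    rw [mul_pow, ← pow_mul, mul_comm 3 5, pow_mul, this, zpow_neg, zpow_ofNat]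
    field_simp
  have e0 : 0 ≤ x ^ (-15 : ℤ) * b ^ 3 := by positivity
  refine ⟨⟨M, n, _, _, x, min ε (x ^ 100), hM, x0, h1, by rw [hx]; linarith,
    lt_min hε (by positivity), min_le_right _ _, f1.1, f1.2, f2.1, f2.2⟩, rfl, rfl,
    min_le_left _ _, ?_, ?_⟩
  · simp only [Pm.mn, zpow_zero, one_mul]
    exact le_of_pow_le_pow_left₀ (n := 5) (by norm_num) e0 (by rw [e]; norm_num)
  · simp only [Pm.mn, zpow_zero, one_mul]
    exact le_of_pow_le_pow_left₀ (n := 5) (by norm_num) (by norm_num) (by rw [e]; norm_num)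

end Lower

theorem lowerS (hf : FrameS) (h : ∀ (κ : Type) [Fintype κ] [DecidableEq κ] (ζ : κ → ℂ), Nm ζ →
    CostS ζ ∧ MainS ζ) : LowerStmt := by
  intro δ hδ
  obtain ⟨M, hM, hMδ⟩ : ∃ M : ℕ, 10 ^ 30 ≤ M ∧ 2000 / δ ≤ M :=
    ⟨max (10 ^ 30) ⌈2000 / δ⌉₊, le_max_left _ _,
      (Nat.le_ceil _).trans (by exact_mod_cast le_max_right _ _)⟩
  have hM0 : (0 : ℝ) < M := by exact_mod_cast lt_of_lt_of_le (by norm_num) hM
  refine ⟨1 / (M : ℝ) ^ 1000, by positivity, fun b n hb hb0 hn ε N a ω hε hc => ?_⟩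
  obtain ⟨P, rfl, rfl, h1, h2, h3⟩ := Lower.exP hM hb hb0 hn hε
  have hn10 : 10 ≤ P.n := by
    have := P.r_le_n'
    have := P.r_big'
    omega
  have hc' : Cover N (P.n + P.ε) a ω := ⟨hc.1, fun x hx y hy =>
    hc.2 x ⟨hx.1, hx.2.trans (by linarith)⟩ y ⟨hy.1, hy.2.trans (by linarith)⟩⟩
  obtain ⟨w0, κ, _, _, c, ζ, hζ, hF⟩ :=
    hf P.n N P.ε a ω hn10 P.ε0 (by linarith [P.eps_small, P.ε0]) hc'
  have hb3 : 0 < b ^ 3 := by positivity
  rw [← le_sub_iff_add_le', div_le_iff₀ hb3]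
  rcases le_total (11 * P.nt) ((N : ℝ) - P.n ^ 2) with hW | hW
  · nlinarith [mul_le_mul_of_nonneg_right hW hb3.le]
  · obtain ⟨hC, hM'⟩ := h κ ζ hζ
    obtain ⟨z, z', hz, hz', h4⟩ := hM' P c (hF.mono hW)
    have h5 := hC.master c P.lam _ (P.mn_pos _ _)
      (by linarith [P.mn_small (a := 0) (j := 1) (by norm_num) (by norm_num)]) w0 hF.one.mu
    have he : 10 ^ 30 * P.e ≤ 1 := P.mn_small (by norm_num) (by norm_num)
    have he0 : 0 < P.e := P.mn_pos _ _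
    have heδ : 2000 * P.e ≤ δ := by
      have : P.e = (P.M : ℝ)⁻¹ := by simp [Pm.mn]
      rw [this, ← div_eq_mul_inv, div_le_iff₀ hM0]
      rw [div_le_iff₀ hδ] at hMδ
      linarith
    have a1 := Lower.amgm hb hz hn
    have a2 := Lower.amgm hb hz' hn
    rw [div_le_iff₀ hb3] at a1 a2
    have h6 := mul_le_mul_of_nonneg_right (h4.trans h5) hb3.le
    have h7 : 0 ≤ 1 - 10 * P.e := by linarith
    nlinarith [mul_le_mul_of_nonneg_left a1 h7, mul_le_mul_of_nonneg_left a2 h7,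
      mul_le_mul_of_nonneg_left h3 he0.le]

end Pool.Agent.MP_c59ecb_co.sh

end MrgPart4

-- ======== part 5: formerly Pool.Agent.MP_c59ecb_co.sh.Main
section MrgPart5

/-! The families of both directions are disjoint. -/

set_option autoImplicit false

namespace Pool.Agent.MP_c59ecb_co.sh

open MeasureTheory Complex Pool.Agent.MP_c59ecb_co.h76

variable {ι : Type} [Fintype ι] [DecidableEq ι] {ω : ι → ℂ}

namespace MainP

lemma three (hc : CostS ω) (c : ι → ℂ) (lam : ℝ) {A B C : Finset ι} (h1 : Disjoint A B)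
    (h2 : Disjoint A C) (h3 : Disjoint B C) :
    Cost c ω lam A + Cost c ω lam B + Cost c ω lam C ≤ Cost c ω lam Finset.univ := by
  have a := hc.add c lam A B h1
  have b := hc.add c lam (A ∪ B) C (Finset.disjoint_union_left.2 ⟨h2, h3⟩)
  have d := hc.mono c lam _ _ (Finset.subset_univ (A ∪ B ∪ C))
  linarith

omit [Fintype ι] in
lemma disj {α β : Type} {S : Finset α} {U : Finset β} {Z : α → Finset ι} {Y : β → Finset ι}
    (h : ∀ a ∈ S, ∀ b ∈ U, Disjoint (Z a) (Y b)) : Disjoint (S.biUnion Z) (U.biUnion Y) := by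
  rw [Finset.disjoint_biUnion_left]
  intro a ha
  rw [Finset.disjoint_biUnion_right]
  exact h a ha

lemma num {e m th n N X : ℝ} (he : 0 ≤ e) (hm : 0 ≤ m) (hth : 0 ≤ th)
    (hn : 0 ≤ n) (hN : (1 - 5 * e) * n ≤ N) (h0 : 0 ≤ X) (hX : N * ((1 - e) * m - e * th) ≤ X) :
    (1 - 10 * e) * (n * m) - e * (n * th) ≤ X := by
  have a1 : 0 ≤ e * (n * m) := by positivity
  have a2 : 0 ≤ e * (e * (n * m)) := by positivity
  have a3 : 0 ≤ e * (e * (n * th)) := by positivity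
  rcases le_total 0 ((1 - e) * m - e * th) with h | h
  · have := mul_le_mul_of_nonneg_right hN h
    nlinarith
  · have := mul_le_mul_of_nonneg_left h hn
    nlinarith

lemma one (L : L4 ω) {P : Pm} {c : ι → ℂ} (hF : P.Fr c ω) {m y0 : ℝ} (hm : 0 ≤ m)
    {S : Finset ℕ} {ρ : ℕ → Ry ι} {Z1 : ℕ → Finset ι} (h1 : F1Dat P c ω m S y0 ρ Z1)
    {U : Finset ℕ} {Z2 : ℕ → Finset ι} (hU : (P.r : ℝ) * U.card ≤ P.NU)
    (h2 : ∀ k ∈ U, Full P c ω (1 / 50) (8 * P.t1) (Z2 k) ∧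
      Full P (rt (-1) c) ω (1 / 50) (8 * P.t1) (Z2 k))
    (d2 : ∀ a ∈ U, ∀ b ∈ U, a ≠ b → Disjoint (Z2 a) (Z2 b))
    {W : Finset (ℕ × ℕ)} {Z3 : ℕ × ℕ → Finset ι} (h3 : ∀ a ∈ W, High P (rt (-1) c) ω (Z3 a))
    (d3 : ∀ a ∈ W, ∀ b ∈ W, a ≠ b → Disjoint (Z3 a) (Z3 b)) :
    (1 - 10 * P.e) * (P.n * m) - P.e * P.nt + ∑ k ∈ U, Cost c ω P.lam (Z2 k) +
      ∑ a ∈ W, Cost c ω P.lam (Z3 a) ≤ Cost c ω P.lam Finset.univ := by
  obtain ⟨S', s1, s2, s3⟩ : ∃ S' : Finset ℕ, S' ⊆ S ∧ S.card ≤ S'.card + 5 * U.card ∧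
      ∀ s ∈ S', ∀ k ∈ U, Disjoint (Z1 s) (Z2 k) := by
    refine ⟨S \ U.biUnion fun k => S.filter fun s => ¬ Disjoint (Z1 s) (Z2 k),
      Finset.sdiff_subset, ?_, fun s hs k hk => ?_⟩
    · have a := Finset.card_biUnion_le_card_mul U
        (fun k => S.filter fun s => ¬ Disjoint (Z1 s) (Z2 k)) 5
        fun k hk => L.conf.five P c m y0 S ρ Z1 _ h1 (h2 k hk).1
      have b := Finset.card_le_card_sdiff_add_card (s := S)
        (t := U.biUnion fun k => S.filter fun s => ¬ Disjoint (Z1 s) (Z2 k))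
      omega
    · obtain ⟨a, b⟩ := Finset.mem_sdiff.1 hs
      by_contra h
      exact b (Finset.mem_biUnion.2 ⟨k, hk, Finset.mem_filter.2 ⟨a, h⟩⟩)
  have t := three L.cost c P.lam (disj s3)
    (disj (U := W) fun s hs a ha => L.conf.high P _ _ _ hF.neg
      (L.conf.wide P c _ (h1.full s (s1 hs))).2 (h3 a ha))
    (disj (U := W) fun k hk a ha => L.conf.high P _ _ _ hF.neg (h2 k hk).2 (h3 a ha))
  have c1 := L.cost.sum c P.lam ℕ S' Z1 fun a ha b hb =>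
    L.conf.rows P c m y0 S ρ Z1 h1 a (s1 ha) b (s1 hb)
  have c2 := L.cost.sum c P.lam ℕ U Z2 d2
  have c3 := L.cost.sum c P.lam _ W Z3 d3
  have n1 : (P.n : ℝ) * P.th = P.nt := by rw [P.n_eq]; exact P.mn_mul' rfl rfl
  have n2 : P.e * P.n = P.mn (-1) (-25) := by rw [P.n_eq]; exact P.mn_mul' rfl rfl
  have n3 := P.mn_le (a := 12) (j := -20) (b := -1) (k := -25) (by norm_num) (by norm_num)
  have n6 := P.mn_pos 12 (-20)
  have n7 : 0 < P.e := P.mn_pos _ _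
  have k1 : (1 - 5 * P.e) * P.n ≤ P.r * S'.card := by
    have a : (S.card : ℝ) ≤ S'.card + 5 * U.card := by exact_mod_cast s2
    have b := mul_le_mul_of_nonneg_left a (Nat.cast_nonneg (α := ℝ) P.r)
    have d := h1.card
    have e : P.NU = 30 * P.mn 12 (-20) := rfl
    nlinarith
  have k2 : P.r * S'.card * ((1 - P.e) * m - P.e * P.th) ≤ ∑ s ∈ S', Cost c ω P.lam (Z1 s) := by
    have a := Finset.card_nsmul_le_sum S' (fun s => Cost c ω P.lam (Z1 s)) _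
      fun s hs => h1.cost s (s1 hs)
    rw [nsmul_eq_mul] at a
    linarith
  have k3 := num n7.le hm (P.mn_nonneg _ _) (Nat.cast_nonneg _) k1
    (Finset.sum_nonneg fun s _ => Cost_nonneg _ _) k2
  rw [n1] at k3
  linarith

end MainP

theorem mainS (hω : Nm ω) (L : L4 ω) (h : DirS ω) : MainS ω := by
  intro P c hF
  have _ := hω
  obtain ⟨z, S, y0, ρ, Z1, U, Z2, W, Z3, hz, a1, a2, a3, a4, a5, a6, a7⟩ := h P _ hF.neg
  obtain ⟨z', S', y0', ρ', Z1', U', Z2', W', Z3', hz', b1, b2, b3, b4, b5, b6, b7⟩ :=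
    h P _ hF.rotI.neg
  have e1 : rt I (rt (-1) (rt I c)) = c := by
    rw [← rt_neg_I, rt_I_I, rt_neg_neg]
  rw [rt_I_I, rt_neg_neg] at a1 b1
  rw [← rt_neg_I] at a3 a7
  rw [e1] at b3 b7
  simp only [L.cost.neg] at a7 b7
  have k1 := MainP.one L hF (by positivity) a1 b2 (fun k hk => L.conf.wide P c _ (b3 k hk)) b4 a5 a6
  have k2 := MainP.one L hF.rotI (by positivity) b1 a2 (fun k hk => by
    have := L.conf.wide P _ _ (a3 k hk)
    rw [rt_neg_neg] at this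
    exact this.symm) a4 b5 b6
  refine ⟨z, z', hz, hz', ?_⟩
  rw [mul_div_assoc, mul_assoc] at a7 b7
  rw [mul_add, mul_add, mul_div_assoc, mul_div_assoc]
  linarith

end Pool.Agent.MP_c59ecb_co.sh

end MrgPart5

-- ======== part 6: formerly Pool.Agent.MP_c59ecb_co.sh.Rows
section MrgPart6

/-! Most rows are typical. -/

set_option autoImplicit false

namespace Pool.Agent.MP_c59ecb_co.sh

open MeasureTheory Complex Pool.Agent.MP_c59ecb_co.h76

variable {ι : Type} [Fintype ι] [DecidableEq ι] {ω : ι → ℂ}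

namespace Rows

lemma count (n r o N : ℕ) (ho : o < r) (Bad : Finset ℕ) :
    ∃ S : Finset ℕ, n ≤ r * S.card + 2 * N + 4 * r + 2 * (r * Bad.card) ∧
      ∀ s ∈ S, N ≤ o + s * r ∧ o + s * r + r + N ≤ n ∧ o + s * r ∉ Bad ∧ o + s * r + r ∉ Bad := by
  have hr : 0 < r := by omega
  set A := Finset.Ico (N / r + 1) ((n - N) / r - 1) with hA
  have inj : ∀ k, (A.filter fun s => o + s * r + k ∈ Bad).card ≤ Bad.card := fun k =>
    Finset.card_le_card_of_injOn (fun s => o + s * r + k)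
      (fun s hs => (Finset.mem_filter.1 hs).2) fun s _ s' _ e =>
        Nat.eq_of_mul_eq_mul_right hr (by simpa using e)
  refine ⟨A.filter fun s => o + s * r + 0 ∉ Bad ∧ o + s * r + r ∉ Bad, ?_, fun s hs => ?_⟩
  · have h1 := Finset.card_filter_add_card_filter_not (s := A)
      fun s => o + s * r + 0 ∉ Bad ∧ o + s * r + r ∉ Bad
    have h2 : (A.filter fun s => ¬ (o + s * r + 0 ∉ Bad ∧ o + s * r + r ∉ Bad)).card ≤
        2 * Bad.card := by
      simp only [not_and_or, not_not, Finset.filter_or]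
      linarith [Finset.card_union_le (A.filter fun s => o + s * r + 0 ∈ Bad)
        (A.filter fun s => o + s * r + r ∈ Bad), inj 0, inj r]
    have h3 : (n - N) / r ≤ A.card + N / r + 2 := by
      rw [hA, Nat.card_Ico]
      omega
    have h4 := Nat.lt_mul_div_succ (n - N) hr
    have h5 := Nat.mul_div_le N r
    have h6 := Nat.mul_le_mul_left r (show (n - N) / r + 1 ≤ (A.filter fun s =>
      o + s * r + 0 ∉ Bad ∧ o + s * r + r ∉ Bad).card + 2 * Bad.card + N / r + 3 by omega)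
    rw [mul_add, mul_add, mul_add, mul_add, mul_left_comm] at h6
    rw [mul_add] at h4
    omega
  · obtain ⟨h1, h2, h3⟩ := Finset.mem_filter.1 hs
    obtain ⟨h4, h5⟩ := Finset.mem_Ico.1 h1
    have h6 := Nat.lt_mul_div_succ N hr
    have h7 := Nat.mul_le_mul_left r h4
    have h8 := Nat.mul_div_le (n - N) r
    have h9 := Nat.mul_le_mul_left r (show s + 2 ≤ (n - N) / r by omega)
    rw [mul_add, mul_comm r s] at h9
    rw [mul_comm r s] at h7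
    exact ⟨by omega, by omega, h2, h3⟩

lemma nums (P : Pm) : 0 < P.th1 ∧ 10 ^ 30 * P.th1 ≤ 1 ∧ 10 ^ 30 * (P.th1 * P.l) ≤ 1 ∧
    P.th1 ≤ P.t2 ∧ 10 ^ 30 ≤ (P.n : ℝ) ∧ 10 ^ 30 * (P.l : ℝ) ≤ P.n * P.e ∧
    10 ^ 30 * (P.r : ℝ) ≤ P.n * P.e ∧ 10 ^ 30 * P.E ≤ P.n * P.e * P.th1 := by
  have h1 : P.mn 3 10 * P.mn (-3) (-5) = P.mn 0 5 := P.mn_mul' rfl rfl
  have h2 : P.mn 0 (-25) * P.mn (-1) 0 = P.mn (-1) (-25) := P.mn_mul' rfl rfl
  have h3 : P.mn (-1) (-25) * P.mn 3 10 = P.mn 2 (-15) := P.mn_mul' rfl rfl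
  have h4 := P.mn_small (a := 0) (j := 5) (by norm_num) (by norm_num)
  have h5 := mul_le_mul_of_nonneg_left P.l_le (P.mn_nonneg 3 10)
  have h6 := P.mn_le (a := -3) (j := -5) (b := -1) (k := -25) (by norm_num) (by norm_num)
  rw [P.n_eq, P.r_eq, h2, h3]
  exact ⟨P.mn_pos _ _, P.mn_small (by norm_num) (by norm_num), by linarith,
    P.mn_mono (by norm_num) (by norm_num), P.mn_big (by norm_num) (by norm_num),
    by linarith [P.l_le], P.mn_le (by norm_num) (by norm_num), P.mn_le (by norm_num) (by norm_num)⟩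

/-- a ray from the left frame does not stop -/
lemma one (hω : Nm ω) (L : L2 ω) (P : Pm) {c : ι → ℂ} (hF : P.Fr c ω) {St : Finset ι}
    (hSt : ∀ i ∈ St, ω i = 1 ∧ (c i).re = -P.a - 21 / 2) {i : ι} (hi : i ∈ St) {v : ℝ}
    (hy : |(c i).im| ≤ P.a + 1) (hv : |v| ≤ 1 / 8)
    (h : P.FP c ω P.w1 St (P.T + 1) i v ≤ ENNReal.ofReal (P.th1 / 4)) :
    ∃ (ρ : Ry ι) (d g : ℕ → ℝ), ρ.J 0 = i ∧ ρ.V 0 = v ∧ Wray c ω P.R P.w1 P.th1 P.T P.th1 ρ ∧
      Ray c ω (ft c ω P.l) (P.T + 1) P.th1 ρ.J ρ.V d g ∧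
      (∀ k ≤ P.T + 1, ‖ω (ρ.J k) - 1‖ ≤ P.th1) ∧
      ∀ k < P.T + 1, ∀ m < P.l + 5, ∀ p, ‖p - (c (ρ.J k) + I * m)‖ ≤ 4 → Cov c ω p := by
  obtain ⟨n1, n2, -, n4, n5, -⟩ := nums P
  have n6 := P.two_a
  have n7 := P.ε0
  have t1 := P.T1_le
  have t3 := P.T_eq
  have x0 : ∀ j ∈ St, ∀ w, (ex c ω j w).re = -P.a - 10 := fun j hj w => by
    simp only [ex, (hSt j hj).1, one_mul, add_re, (hSt j hj).2]
    ring
  have y0 : (ex c ω i v).im = (c i).im + v := by simp only [ex, (hSt i hi).1, one_mul, add_im]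
  have a1 := abs_le.1 hy
  have a2 := abs_le.1 hv
  obtain ⟨T', ρ, e1, e2, hs⟩ := L.launch.launch P c P.w1 (P.th1 / 4) P.th1 v St (P.T + 1) i hF
    (P.mn_nonneg _ _) (by omega) (by linarith) (by rw [(hSt i hi).1]; simp; linarith) n4
    (by linarith) (by rw [y0]; exact abs_le.2 ⟨by linarith, by linarith⟩)
    (by rw [x0 i hi]; linarith) (by rw [x0 i hi]; push_cast; linarith) h
  obtain ⟨d, g, hr⟩ := hs.ray
  have ht : ∀ k ≤ T' + 1, ‖ω (ρ.J k) - 1‖ ≤ P.th1 := fun k hk => by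
    rcases hk.eq_or_lt with rfl | hk
    · exact hs.tlt
    · exact hs.wray.tilt k (by omega)
  have geo := fun k hk => hr.geo hω.1 ht (by linarith) (by linarith) (Nat.zero_le k) hk
  simp only [Nat.cast_zero, sub_zero, e1, e2, x0 i hi, y0] at geo
  obtain rfl : T' = P.T := by
    rcases hs.stop with e | e
    · omega
    · have := (geo _ le_rfl).1
      rw [x0 _ e, sub_self] at this
      exact absurd this (not_le.2 (mul_pos (by positivity) (by linarith)))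
  refine ⟨ρ, d, g, e1, e2, hs.wray.mono le_rfl le_rfl (by linarith),
    ⟨hr.v, hr.g0, hr.sum.trans (by linarith), fun k hk => le_trans
      (by linarith [P.ft_le_f (c := c) (ω := ω) (ρ.J k)]) (hr.ext k hk), hr.ang, hr.d0, hr.nxt,
      hr.ne⟩, ht, fun k hk m hm p hp => ?_⟩
  obtain ⟨b1, b2, b3⟩ := geo k hk.le
  obtain ⟨-, -, b4⟩ := L.w.cen c (ρ.J k) (ρ.V k) P.th1 (ht k hk.le) (hr.v k hk.le)
  have b5 := abs_le.1 ((abs_re_le_norm _).trans b4)
  have b6 := abs_le.1 ((abs_im_le_norm _).trans b4)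
  have b7 := abs_le.1 ((abs_re_le_norm _).trans hp)
  have b8 := abs_le.1 ((abs_im_le_norm _).trans hp)
  have b9 : (m : ℝ) ≤ P.l + 5 := by exact_mod_cast hm.le
  have b10 : (k : ℝ) ≤ P.T := by exact_mod_cast Nat.lt_succ_iff.1 hk
  have b11 : (0 : ℝ) ≤ k := by positivity
  have b12 : (0 : ℝ) ≤ m := by positivity
  have b13 : P.th1 * k ≤ 1 * k := mul_le_mul_of_nonneg_right (by linarith) b11
  have b14 : 0 ≤ (k : ℝ) * (1 - 2 * P.th1) := mul_nonneg b11 (by linarith)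
  have b15 := P.l_le_n
  rw [abs_le] at b3
  simp only [sub_re, sub_im, add_re, add_im, mul_re, mul_im, I_re, I_im, natCast_re, natCast_im,
    zero_mul, mul_zero, one_mul, sub_zero, zero_add, add_zero] at b5 b6 b7 b8
  exact hF.one.cov p (abs_le.2 ⟨by linarith, by linarith⟩) (abs_le.2 ⟨by linarith, by linarith⟩)

end Rows

theorem rowsS (hω : Nm ω) (L : L2 ω) : RowsS ω := by
  intro P c hF
  obtain ⟨n1, n2, n3, -, n5, n6, n7, n8⟩ := Rows.nums P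
  have hr : 0 < P.r := lt_of_lt_of_le (by norm_num) P.r_big'
  have hl : 1 ≤ P.l := le_trans (by norm_num) P.l_big'
  have hl' : (1 : ℝ) ≤ P.l := by exact_mod_cast hl
  have n9 := P.two_a
  have n10 := P.ε0
  obtain ⟨i₀, -⟩ := hF.one.lft 0 (by exact_mod_cast (by linarith : (0 : ℝ) < P.n))
  have : Nonempty ι := ⟨i₀⟩
  have : Nonempty (Ry ι) := ⟨⟨fun _ => i₀, fun _ => 0, fun _ => 0⟩⟩
  choose! a ha hc using hF.one.lft
  set St := (Finset.range P.n).image a with hSt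
  have mem : ∀ j < P.n, a j ∈ St := fun j hj => Finset.mem_image_of_mem a (Finset.mem_range.2 hj)
  have st : ∀ i ∈ St, ω i = 1 ∧ (c i).re = -P.a - 21 / 2 := fun i hi => by
    obtain ⟨j, hj, rfl⟩ := Finset.mem_image.1 hi
    rw [Finset.mem_range] at hj
    exact ⟨ha j hj, by rw [hc j hj]⟩
  obtain ⟨H, H0, H1, H2⟩ := L.launch.energy P c P.w1 St (P.T + 1) hF (P.mn_nonneg _ _)
  rw [hSt, Finset.sum_image fun j hj j' hj' e => by
    have := congrArg (fun i => (c i).im) e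
    simp only [hc j (Finset.mem_range.1 hj), hc j' (Finset.mem_range.1 hj')] at this
    exact_mod_cast add_left_cancel this] at H1
  have H3 : ∑ j ∈ Finset.range (P.n - P.l), (H (a j) + H (a (j + P.l))) ≤ 2 * P.E := by
    have k1 := sum_shift (g := fun j => H (a j)) (fun _ => H0 _) (S := Finset.range (P.n - P.l))
      (i := 0) (t := P.n) (fun k hk => by simp at hk; omega)
    have k2 := sum_shift (g := fun j => H (a j)) (fun _ => H0 _) (S := Finset.range (P.n - P.l))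
      (i := P.l) (t := P.n) (fun k hk => by simp at hk; omega)
    rw [Finset.sum_add_distrib]
    simp only [add_zero] at k1
    linarith
  obtain ⟨⟨o, ho, H4⟩, -⟩ := L.sum.cls P.r (Finset.range (P.n - P.l))
    (fun j => H (a j) + H (a (j + P.l))) (fun j => j % P.r) hr fun s _ => Nat.mod_lt _ hr
  have H5 := L.sum.markov ((Finset.range (P.n - P.l)).filter fun j => j % P.r = o)
    (fun j => H (a j) + H (a (j + P.l))) (P.th1 / 16) fun s _ => add_nonneg (H0 _) (H0 _)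
  set Bad := ((Finset.range (P.n - P.l)).filter fun j => j % P.r = o).filter
    fun j => P.th1 / 16 < H (a j) + H (a (j + P.l)) with hBad
  have H6 : 2 * ((P.r : ℝ) * Bad.card) ≤ P.n * P.e := by
    refine le_of_mul_le_mul_right ?_ n1
    have := mul_le_mul_of_nonneg_left H5 (Nat.cast_nonneg P.r)
    linarith [P.mn_pos 1 (-15)]
  have N1 := Nat.le_ceil (P.n * P.e)
  have N2 := Nat.ceil_lt_add_one (show 0 ≤ P.n * P.e by linarith)
  set N := ⌈P.n * P.e⌉₊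
  have good : ∀ j, j % P.r = o → N ≤ j → j + N ≤ P.n → j ∉ Bad → ∃ ρ, Row P c ω j ρ := by
    intro j j1 j2 j3 j4
    have j5 : (N : ℝ) ≤ j := by exact_mod_cast j2
    have j6 : (j : ℝ) + N ≤ P.n := by exact_mod_cast j3
    have j7 : j + P.l < P.n := by exact_mod_cast (by linarith : (j : ℝ) + P.l < P.n)
    have j8 : H (a j) + H (a (j + P.l)) ≤ P.th1 / 16 := not_lt.1 fun k => j4 (by
      simp only [hBad, Finset.mem_filter, Finset.mem_range]
      exact ⟨⟨by omega, j1⟩, k⟩)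
    have m1 := mem j (by omega)
    have m2 := mem _ j7
    obtain ⟨-, ⟨v, hv, f1, f2⟩, -⟩ := L.pick _ _ _ _ (H0 _) (H0 _) (H2 _ m1) (H2 _ m2)
    have e : ENNReal.ofReal (4 * (H (a j) + H (a (j + P.l)))) ≤ ENNReal.ofReal (P.th1 / 4) :=
      ENNReal.ofReal_le_ofReal (by linarith)
    have c1 := hc j (by omega)
    have c2 := hc _ j7
    have j9 : (0 : ℝ) ≤ j := Nat.cast_nonneg _
    push_cast at c2
    obtain ⟨ρ, d, g, e1, e2, w, r, t, cv⟩ := Rows.one hω L P hF st m1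
      (by rw [c1]; exact abs_le.2 ⟨by linarith, by linarith⟩) hv (f1.trans e)
    obtain ⟨ρ', d', g', e3, e4, -, r', t', -⟩ := Rows.one hω L P hF st m2
      (by rw [c2]; exact abs_le.2 ⟨by linarith, by linarith⟩) hv (f2.trans e)
    have D0 : ex c ω (ρ'.J 0) (ρ'.V 0) - ex c ω (ρ.J 0) (ρ.V 0) = I * P.l := by
      rw [e1, e2, e3, e4, ex, ex, (st _ m1).1, (st _ m2).1, c1, c2]
      apply Complex.ext <;> simp
    refine ⟨ρ, w, by linarith, by linarith, e1 ▸ (st _ m1).1, e1 ▸ c1, e2 ▸ hv, d, g, ρ'.J, ρ'.V,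
      r, t, r'.v, t', fun k hk => ?_⟩
    have := r.pair hω.1 hω.2 r' hl (M := P.l + 5) (by omega) (tb_le_ft hl) t t' (by linarith)
      (by linarith) cv (by rw [D0]; norm_num) hk
    rw [D0] at this
    refine ⟨this.1, ?_⟩
    have k1 := this.2
    have k2 : (P.th1 * P.l + 2) * P.th1 ≤ 3 * P.th1 :=
      mul_le_mul_of_nonneg_right (by linarith) n1.le
    simp only [mul_re, I_re, I_im, natCast_re, natCast_im, zero_mul, mul_zero, sub_zero] at k1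
    exact k1.trans k2
  choose! ρ hρ using good
  obtain ⟨S, s1, s2⟩ := Rows.count P.n P.r o N ho Bad
  refine ⟨o, S, fun s => ρ (o + s * P.r), ?_, fun s hs => ?_⟩
  · have : (P.n : ℝ) ≤ P.r * S.card + 2 * N + 4 * P.r + 2 * (P.r * Bad.card) := by
      exact_mod_cast s1
    linarith [P.r_big]
  · obtain ⟨k1, k2, k3, k4⟩ := s2 s hs
    have k5 : (o + s * P.r) % P.r = o := by rw [Nat.add_mul_mod_self_right, Nat.mod_eq_of_lt ho]
    refine ⟨hρ _ k5 k1 (by omega) k3, ?_⟩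
    simp only [add_one_mul, ← add_assoc]
    exact hρ _ (by rw [Nat.add_mod_right, k5]) (by omega) k2 k4

end Pool.Agent.MP_c59ecb_co.sh

end MrgPart6

-- ======== part 7: formerly Pool.Agent.MP_c59ecb_co.sh.Mass
section MrgPart7

/-! A typical row is tilted. -/

set_option autoImplicit false

namespace Pool.Agent.MP_c59ecb_co.sh

open MeasureTheory Complex Pool.Agent.MP_c59ecb_co.h76

namespace Mass

lemma nums (P : Pm) : 10 ^ 30 * P.th1 ≤ P.e ∧ 10 ^ 30 * P.ε ≤ P.e ∧ 10 ^ 30 * P.e ≤ 1 ∧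
    10 ^ 30 * (P.th1 * P.n) ≤ P.n * P.e ∧ 10 ^ 30 ≤ P.n * P.e ∧ 0 < P.th1 := by
  have h1 : P.mn 3 10 * P.mn 0 (-25) = P.mn 3 (-15) := P.mn_mul' rfl rfl
  have h2 : P.mn 0 (-25) * P.mn (-1) 0 = P.mn (-1) (-25) := P.mn_mul' rfl rfl
  have h3 := P.mn_le (a := 0) (j := 100) (b := -1) (k := 0) (by norm_num) (by norm_num)
  rw [P.n_eq, h1, h2]
  exact ⟨P.mn_le (by norm_num) (by norm_num), by linarith [P.eps_le],
    P.mn_small (by norm_num) (by norm_num), P.mn_le (by norm_num) (by norm_num),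
    P.mn_big (by norm_num) (by norm_num), P.mn_pos _ _⟩

end Mass

variable {ι : Type} [Fintype ι] [DecidableEq ι] {ω : ι → ℂ}

theorem massS (hω : Nm ω) (L : L2 ω) : MassS ω := by
  intro P c j ρ hF h
  obtain ⟨d, g, -, -, hr, ht, -⟩ := h.ray
  obtain ⟨n1, n2, n3, n4, n5, n6⟩ := Mass.nums P
  have n7 := P.two_a
  have n8 := P.ε0
  have n9 : (P.n : ℝ) * P.e ≤ P.n * (1 / 10 ^ 30) :=
    mul_le_mul_of_nonneg_left (by linarith) (Nat.cast_nonneg _)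
  have t1 := P.T1_le
  have t2 := P.T1_ge
  have t3 := P.T_eq
  have x0 : (ρ.P c ω 0).re = -P.a - 10 := by
    simp only [Ry.P, ex, h.w0, h.c0, one_mul, add_re]
    ring
  have y0 : (ρ.P c ω 0).im = -P.a + 1 / 2 + j + ρ.V 0 := by
    simp only [Ry.P, ex, h.w0, h.c0, one_mul, add_im]
  have geo : ∀ k ≤ P.T, (k : ℝ) * (1 - 2 * P.th1) ≤ (ρ.P c ω k).re - (ρ.P c ω 0).re ∧
      (ρ.P c ω k).re - (ρ.P c ω 0).re ≤ k ∧
      |(ρ.P c ω k).im - (ρ.P c ω 0).im| ≤ P.th1 * k := fun k hk => by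
    have := hr.geo hω.1 ht le_rfl (by linarith) (Nat.zero_le k) (hk.trans (Nat.le_succ _))
    rwa [Nat.cast_zero, sub_zero] at this
  have px : ∀ k ≤ P.T, |(ρ.P c ω k).re| ≤ P.a + P.n / 10 := fun k hk => by
    obtain ⟨a1, a2, -⟩ := geo k hk
    have a3 : (k : ℝ) ≤ P.T := by exact_mod_cast hk
    have a4 : 0 ≤ (k : ℝ) * (1 - 2 * P.th1) := mul_nonneg (Nat.cast_nonneg _) (by linarith)
    exact abs_le.2 ⟨by linarith, by linarith⟩
  have py : ∀ k ≤ P.T, |(ρ.P c ω k).im| ≤ P.a - 6 := fun k hk => by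
    obtain ⟨-, -, a1⟩ := geo k hk
    have a3 : (k : ℝ) ≤ 2 * P.n := by
      have : (k : ℝ) ≤ P.T := by exact_mod_cast hk
      linarith
    have a4 : P.th1 * k ≤ P.th1 * (2 * P.n) := mul_le_mul_of_nonneg_left a3 n6.le
    have a5 := abs_le.1 a1
    have a6 := abs_le.1 h.v0
    exact abs_le.2 ⟨by linarith [h.j1], by linarith [h.j2]⟩
  refine ⟨?_, px, fun k hk => (py k hk).trans (by linarith)⟩
  obtain ⟨a1, a2, -⟩ := geo P.T le_rfl
  have a3 : P.th1 * P.T ≤ P.th1 * (2 * P.n) := mul_le_mul_of_nonneg_left (by linarith) n6.le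
  obtain ⟨-, -, b1⟩ := L.w.cen c (ρ.J P.T) (ρ.V P.T) P.th1 (ht _ (Nat.le_succ _))
    (hr.v _ (Nat.le_succ _))
  have b2 := abs_le.1 ((abs_re_le_norm _).trans b1)
  have b3 := abs_le.1 ((abs_im_le_norm _).trans b1)
  have b4 := abs_le.1 (py P.T le_rfl)
  rw [sub_re] at b2
  rw [sub_im] at b3
  change _ ≤ _ - (ρ.P c ω P.T).re ∧ _ - (ρ.P c ω P.T).re ≤ _ at b2
  change _ ≤ _ - (ρ.P c ω P.T).im ∧ _ - (ρ.P c ω P.T).im ≤ _ at b3
  have b5 : P.a + 1 ≤ (c (ρ.J P.T)).re := by linarith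
  obtain ⟨z, hz⟩ := hF.one.rgt _ b5 (abs_le.2 ⟨by linarith, by linarith⟩)
  have b6 := (hF.one.out _ (Or.inl (b5.trans (le_abs_self _)))).1
  have xT : (ρ.P c ω P.T).re = P.a + z := by
    simp only [Ry.P, ex, b6, one_mul, add_re, hz]
    ring
  have b7 : (1 : ℝ) ≤ ((P.T - z - 10 - P.n : ℤ) : ℝ) := by
    have : (0 : ℝ) < ((P.T - z - 10 - P.n : ℤ) : ℝ) := by
      push_cast
      linarith
    exact_mod_cast this
  have key : ∀ k ≤ P.T, k - ((ρ.P c ω k).re - (ρ.P c ω 0).re) ≤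
      ∑ i ∈ Finset.range (k + 1), ρ.p ω i ^ 2 / 2 + ∑ i ∈ Finset.range k, g i := by
    intro k hk
    induction k with
    | zero => simpa using div_nonneg (sq_nonneg (ρ.p ω 0)) zero_le_two
    | succ k ih =>
      have c1 := ih (by omega)
      have c2 := hr.re_succ (k := k) (by omega)
      obtain ⟨c3, c4⟩ := hr.d0 k (by omega)
      obtain ⟨-, -, -, -, c5, c6, -⟩ := L.tilt.one (ω (ρ.J (k + 1))) (hω.1 _)
        ((ht _ (by omega)).trans (by linarith))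
      have c7 := mul_nonneg c5 c3
      rw [Finset.sum_range_succ _ (k + 1), Finset.sum_range_succ g]
      change (ρ.P c ω (k + 1)).re = (ρ.P c ω k).re + _ at c2
      unfold gh at c6 c7
      change _ ≤ ρ.p ω (k + 1) ^ 2 / 2 at c6
      push_cast
      linarith
  have c1 := key P.T le_rfl
  have c2 := hr.sub (s := Finset.range P.T) fun k hk => by
    rw [Finset.mem_range] at hk
    omega
  rw [← Finset.sum_div] at c1
  push_cast at b7
  linarith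

end Pool.Agent.MP_c59ecb_co.sh

end MrgPart7

-- ======== part 8: formerly Pool.Agent.MP_c59ecb_co.sh.Trans
section MrgPart8

/-! Most transversals are typical. -/

set_option autoImplicit false

namespace Pool.Agent.MP_c59ecb_co.sh

open MeasureTheory Complex Pool.Agent.MP_c59ecb_co.h76

variable {ι : Type} [Fintype ι] [DecidableEq ι] {ω : ι → ℂ}

namespace TransP

lemma th1_t1 (P : Pm) : 10 ^ 30 * P.th1 ≤ P.t1 := P.mn_le (by norm_num) (by norm_num)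

lemma t1_t2 (P : Pm) : P.t1 ≤ P.t2 := P.mn_mono (by norm_num) (by norm_num)

lemma t1_small (P : Pm) : 10 ^ 30 * P.t1 ≤ 1 := P.mn_small (by norm_num) (by norm_num)

lemma n_big (P : Pm) : (100 : ℝ) ≤ P.n := by linarith [P.r_le_n, P.r_big]

lemma near {z w : ℂ} {a : ℝ} (h : ‖z - w‖ ≤ a) : |z.re - w.re| ≤ a ∧ |z.im - w.im| ≤ a :=
  ⟨by rw [← sub_re]; exact (abs_re_le_norm _).trans h,
    by rw [← sub_im]; exact (abs_im_le_norm _).trans h⟩

/-- one half of a transversal -/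
lemma half (L : L2 ω) (P : Pm) (d : ι → ℂ) (σ : Ry ι) (St : Finset ι) (s : ℕ) (v : ℝ)
    (hF : P.Fr d ω) (hσ : Wray (rt I d) ω P.R 0 P.th1 P.T P.th1 σ) (hs : s ≤ P.T)
    (hSt : ∀ i ∈ St, ∃ h ≤ P.T, i = σ.J h) (hx : |(d (σ.J s)).re| ≤ P.a - 4)
    (hy : |(d (σ.J s)).im| ≤ P.a + P.n / 10 + 1) (hv : |v| ≤ 1 / 8)
    (hG : P.FP d ω P.w2 St (P.T0 + 1) (σ.J s) v ≤ ENNReal.ofReal (P.t1 / 8)) :
    ∃ K : Ry ι, K.J 0 = σ.J s ∧ K.V 0 = v ∧ Wray d ω P.R P.w2 P.t1 P.T0 (P.t1 / 2) K := by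
  have h1 := th1_t1 P
  have h2 := t1_small P
  have h3 := n_big P
  have h4 : 0 < P.th1 := P.mn_pos _ _
  have h5 := hσ.tilt s hs
  have hv' : |v| ≤ 1 / 2 := hv.trans (by norm_num)
  obtain ⟨k1, k2⟩ := near (L.w.cen d (σ.J s) v _ h5 hv').2.2
  have hT : ((P.T0 + 1 : ℕ) : ℝ) = 2 * P.n + 1 := by rw [Nat.cast_add, P.T0_eq, Nat.cast_one]
  rw [abs_le] at hx hy k1 k2
  obtain ⟨T', K, e1, e2, hK⟩ := L.launch.launch P d P.w2 (P.t1 / 8) P.t1 v St (P.T0 + 1) (σ.J s) hF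
    (P.mn_nonneg _ _) (Nat.le_add_left _ _) (by linarith) (by linarith) (t1_t2 P) hv'
    (abs_le.2 ⟨by linarith, by linarith⟩) (by linarith) (by rw [hT]; linarith) hG
  have hT' : T' = P.T0 := by
    rcases hK.stop with h | h
    · omega
    · obtain ⟨j, hj, e⟩ := hSt _ h
      exact absurd e (L.path.nomeet P d _ _ _ _ _ _ _ St _ _ T' s σ K hσ hK (by linarith)
        (by linarith) hs e1 (e2 ▸ hv) (T' + 1) (Nat.succ_pos _) le_rfl j hj)
  have := hK.wray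
  rw [hT'] at this
  exact ⟨K, e1, e2, this.mono le_rfl le_rfl (by linarith)⟩

/-- a transversal through a typical square -/
lemma one (L : L2 ω) (P : Pm) (c : ι → ℂ) (m : ℝ) (σ : Ry ι) (k : ℕ) (H H' : ℝ) (hF : P.Fr c ω)
    (hσ : Sig P (rt I c) ω m σ) (hk : k ≤ P.T) (h0 : 0 ≤ H) (h0' : 0 ≤ H')
    (hH : H + H' ≤ P.t1 / 32)
    (l1 : Lv (P.FP c ω P.w2 ((Finset.range (P.T + 1)).image σ.J) (P.T0 + 1) (σ.J k)) H)
    (l2 : Lv (P.FP (rt (-1) c) ω P.w2 ((Finset.range (P.T + 1)).image σ.J) (P.T0 + 1) (σ.J k))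
      H') : ∃ ρ, Trans P c ω σ k ρ := by
  obtain ⟨v, hv, f1, f2⟩ := (L.pick _ _ H H' h0 h0' l1 l2).2.2
  have hb : ENNReal.ofReal (4 * (H + H')) ≤ ENNReal.ofReal (P.t1 / 8) :=
    ENNReal.ofReal_le_ofReal (by linarith)
  obtain ⟨k1, k2⟩ := near (L.w.cen (rt I c) (σ.J k) (σ.V k) _ (hσ.wray.tilt k hk)
    (hσ.wray.v k hk)).2.2
  have p1 := hσ.px k hk
  have p2 := hσ.py k hk
  simp only [I_mul_re, I_mul_im] at k1 k2
  unfold Ry.P at p1 p2
  rw [abs_le] at k1 k2 p1 p2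
  have hx : |(c (σ.J k)).re| ≤ P.a - 4 := abs_le.2 ⟨by linarith, by linarith⟩
  have hy : |(c (σ.J k)).im| ≤ P.a + P.n / 10 + 1 := abs_le.2 ⟨by linarith, by linarith⟩
  obtain ⟨K, a1, a2, a3⟩ := half L P c σ _ k v hF hσ.wray hk (fun i hi => by
    obtain ⟨j, hj, e⟩ := Finset.mem_image.1 hi
    exact ⟨j, Nat.lt_succ_iff.1 (Finset.mem_range.1 hj), e.symm⟩) hx hy hv (f1.trans hb)
  have hr := L.w.rev _ _ _ _ _ _ _ hσ.wray
  rw [rt_neg_I] at hr
  have eJ : ∀ j ≤ P.T, (σ.rev P.T).J (P.T - j) = σ.J j := fun j hj =>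
    congrArg σ.J (Nat.sub_sub_self hj)
  obtain ⟨K', b1, b2, b3⟩ := half L P (rt (-1) c) (σ.rev P.T) ((Finset.range (P.T + 1)).image σ.J)
    (P.T - k) (-v) hF.neg hr (Nat.sub_le _ _) (fun i hi => by
      obtain ⟨j, hj, e⟩ := Finset.mem_image.1 hi
      exact ⟨P.T - j, Nat.sub_le _ _,
        by rw [eJ j (Nat.lt_succ_iff.1 (Finset.mem_range.1 hj)), e]⟩)
    (by rw [eJ k hk]; simpa using hx) (by rw [eJ k hk]; simpa using hy) (by rwa [abs_neg])
    (by rw [eJ k hk]; exact f2.trans hb)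
  have b4 := L.w.rev _ _ _ _ _ _ _ b3
  rw [rt_neg_neg] at b4
  have c1 : (K'.rev P.T0).J P.T0 = σ.J k := by
    show K'.J (P.T0 - P.T0) = _
    rw [Nat.sub_self, b1, eJ k hk]
  have c2 : (K'.rev P.T0).V P.T0 = v := by
    show -K'.V (P.T0 - P.T0) = _
    rw [Nat.sub_self, b2, neg_neg]
  obtain ⟨ρ, r1, r2, -⟩ := L.w.cat _ _ _ _ _ _ _ _ _ _ b4 a3 (c1.trans a1.symm) (c2.trans a2.symm)
  rw [← two_mul, add_halves] at r1
  exact ⟨ρ, r1, (r2 _ le_rfl).1.trans c1, by rw [(r2 _ le_rfl).2, c2]; exact hv⟩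

end TransP

open TransP in
theorem transS (hω : Nm ω) (L : L2 ω) : TransS ω := by
  have _ := hω
  intro P c m σ hF hσ
  obtain ⟨H, h0, hE, hL⟩ := L.launch.energy P c P.w2 ((Finset.range (P.T + 1)).image σ.J)
    (P.T0 + 1) hF (P.mn_nonneg _ _)
  obtain ⟨H', h0', hE', hL'⟩ := L.launch.energy P (rt (-1) c) P.w2
    ((Finset.range (P.T + 1)).image σ.J) (P.T0 + 1) hF.neg (P.mn_nonneg _ _)
  have h1 := th1_t1 P
  have h2 := t1_small P
  have h4 : 0 < P.th1 := P.mn_pos _ _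
  have hinj : Set.InjOn σ.J (Finset.range (P.T + 1) : Finset ℕ) := fun a ha b hb e =>
    L.w.inj _ _ _ _ _ _ _ a b hσ.wray (by linarith) (by linarith)
      (Nat.lt_succ_iff.1 (Finset.mem_range.1 ha)) (Nat.lt_succ_iff.1 (Finset.mem_range.1 hb)) e
  rw [Finset.sum_image hinj] at hE hE'
  have hr : 0 < P.r := lt_of_lt_of_le (by norm_num) P.r_big'
  obtain ⟨o, ho, hcl⟩ := (L.sum.cls P.r (Finset.range (P.T + 1))
    (fun k => H (σ.J k) + H' (σ.J k)) (fun k => k % P.r) hr fun s _ => Nat.mod_lt s hr).1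
  have hm := L.sum.markov ((Finset.range (P.T + 1)).filter fun k => k % P.r = o)
    (fun k => H (σ.J k) + H' (σ.J k)) (P.t1 / 32) fun s _ => add_nonneg (h0 _) (h0' _)
  have hex : ∀ k, ∃ ρ : Ry ι, k ≤ P.T → H (σ.J k) + H' (σ.J k) ≤ P.t1 / 32 →
      Trans P c ω σ k ρ := fun k => by
    by_cases h : k ≤ P.T ∧ H (σ.J k) + H' (σ.J k) ≤ P.t1 / 32
    · have hm : σ.J k ∈ (Finset.range (P.T + 1)).image σ.J :=
        Finset.mem_image_of_mem _ (Finset.mem_range.2 (Nat.lt_succ_of_le h.1))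
      obtain ⟨ρ, hρ⟩ := one L P c m σ k _ _ hF hσ h.1 (h0 _) (h0' _) h.2 (hL _ hm) (hL' _ hm)
      exact ⟨ρ, fun _ _ => hρ⟩
    · exact ⟨σ, fun a b => absurd ⟨a, b⟩ h⟩
  choose ρ hρ using hex
  refine ⟨o, (Finset.range (P.T + 1)).filter fun k => H (σ.J k) + H' (σ.J k) ≤ P.t1 / 32, ρ, ho,
    fun k hk => ?_, ?_⟩
  · obtain ⟨a, b⟩ := Finset.mem_filter.1 hk
    have := Nat.lt_succ_iff.1 (Finset.mem_range.1 a)
    exact ⟨this, hρ k this b⟩
  · have hsub : ((Finset.range (P.T + 1)).filter fun k => k % P.r = o ∧ k ∉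
        (Finset.range (P.T + 1)).filter fun k => H (σ.J k) + H' (σ.J k) ≤ P.t1 / 32) ⊆
        ((Finset.range (P.T + 1)).filter fun k => k % P.r = o).filter
          fun k => P.t1 / 32 < H (σ.J k) + H' (σ.J k) := fun k hk => by
      obtain ⟨a, b, e⟩ := Finset.mem_filter.1 hk
      exact Finset.mem_filter.2 ⟨Finset.mem_filter.2 ⟨a, b⟩,
        not_le.1 fun h => e (Finset.mem_filter.2 ⟨a, h⟩)⟩
    refine (Nat.cast_le.2 (Finset.card_le_card hsub)).trans ?_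
    rw [Finset.sum_add_distrib (s := Finset.range (P.T + 1))] at hcl
    have h5 : P.mn 30 0 * P.t1 = P.mn 39 5 := P.mn_mul' rfl rfl
    have h6 : P.mn (-38) (-20) * P.mn 39 5 = P.E := P.mn_mul' rfl rfl
    have h7 := mul_le_mul_of_nonneg_left hm (P.mn_nonneg 30 0)
    rw [P.r_eq] at hcl
    refine le_of_mul_le_mul_right ?_ (P.mn_pos 39 5)
    have h8 : 0 < P.E := P.mn_pos _ _
    rw [mul_assoc, h6, ← h5]
    linarith

end Pool.Agent.MP_c59ecb_co.sh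

end MrgPart8

-- ======== part 9: formerly Pool.Agent.MP_c59ecb_co.sh.Dir
section MrgPart9

/-! The families of one direction. -/

set_option autoImplicit false

namespace Pool.Agent.MP_c59ecb_co.sh

open MeasureTheory Complex Pool.Agent.MP_c59ecb_co.h76

variable {ι : Type} [Fintype ι] [DecidableEq ι] {ω : ι → ℂ}

namespace Dir

lemma th1_small (P : Pm) : P.th1 ≤ 1 / 100 := by
  linarith [P.mn_small (a := 3) (j := 10) (by norm_num) (by norm_num), P.mn_pos 3 10]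

/-- the tilt along a row varies at most like the costs -/
lemma lip (hω : Nm ω) (L : L4 ω) {P : Pm} {c : ι → ℂ} {σ : Ry ι}
    (h : Wray c ω P.R 0 P.th1 P.T P.th1 σ) {a b : ℕ} (hab : a ≤ b) (hb : b ≤ P.T) :
    |σ.p ω b - σ.p ω a| ≤ 2 * ∑ k ∈ Finset.Ico a b, σ.g k := by
  have h1 := (L.tilt.lip (ω (σ.J b)) (ω (σ.J a)) (hω.1 _) (hω.1 _)
    ((h.tilt b hb).trans (th1_small P)) ((h.tilt a (hab.trans hb)).trans (th1_small P))).1
  have h2 := L.w.ang c _ _ _ _ _ σ a b h hab hb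
  have h3 := norm_nonneg (ω (σ.J b) - ω (σ.J a))
  unfold Ry.p
  linarith

lemma bd (hω : Nm ω) (L : L4 ω) {P : Pm} {c : ι → ℂ} {σ : Ry ι}
    (h : Wray c ω P.R 0 P.th1 P.T P.th1 σ) {a : ℕ} (ha : a ≤ P.T) : |σ.p ω a| ≤ 2 * P.th1 := by
  have h1 := (L.tilt.one (ω (σ.J a)) (hω.1 _) ((h.tilt a ha).trans (th1_small P))).1
  have h2 := h.tilt a ha
  have h3 := norm_nonneg (ω (σ.J a) - 1)
  unfold Ry.p
  linarith

lemma gap {r o a b : ℕ} (ha : a % r = o) (hb : b % r = o) (h : a < b) : a + r ≤ b := by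
  have h1 : r ∣ b - a := (Nat.modEq_iff_dvd' h.le).1 (ha.trans hb.symm)
  have h2 := Nat.le_of_dvd (by omega) h1
  omega

lemma injP {Gd : Finset ℕ} {p : ℕ → ℝ} {l : ℕ} {δ : ℝ} (h0 : 0 < δ)
    (h : ∀ k ∈ Gd, 2 * δ ≤ |p k| ∧ |p (k + l) - p k| ≤ δ) :
    Set.InjOn (fun k => if 0 < p k then k + l else k) Gd := by
  have key : ∀ a ∈ Gd, 0 < p a → 0 < p (a + l) := fun a ha h1 => by
    obtain ⟨h2, h3⟩ := h a ha
    rw [abs_of_pos h1] at h2
    linarith [(abs_le.1 h3).1]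
  intro a ha b hb hab
  dsimp only at hab
  split_ifs at hab with h1 h2 h2
  · omega
  · exact absurd (hab ▸ key a ha h1) h2
  · exact absurd (hab ▸ key b hb h2) h1
  · exact hab

lemma injM {Gd : Finset ℕ} {p : ℕ → ℝ} {l : ℕ} {δ : ℝ} (h0 : 0 < δ)
    (h : ∀ k ∈ Gd, 2 * δ ≤ |p k| ∧ |p (k + l) - p k| ≤ δ) :
    Set.InjOn (fun k => if 0 < p k then k else k + l) Gd := by
  have key : ∀ a ∈ Gd, ¬ 0 < p a → ¬ 0 < p (a + l) := fun a ha h1 => by
    obtain ⟨h2, h3⟩ := h a ha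
    rw [abs_of_nonpos (not_lt.1 h1)] at h2
    exact not_lt.2 (by linarith [(abs_le.1 h3).2])
  intro a ha b hb hab
  dsimp only at hab
  split_ifs at hab with h1 h2 h2
  · exact hab
  · exact absurd (hab ▸ h1) (key b hb h2)
  · exact absurd (hab ▸ h2) (key a ha h1)
  · omega

lemma main {e s z : ℝ} (h0 : 0 ≤ e) (h1 : e ≤ 1 / 10) (hs : 2 - 12 * e ≤ s) (hz : 0 < z) :
    (1 - 10 * e) * 32 / z ^ 3 ≤ 8 * (1 - e) ^ 2 * s / z ^ 3 + 8 * (1 - e) ^ 2 * s / z ^ 3 := by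
  rw [← add_div]
  refine div_le_div_of_nonneg_right ?_ (by positivity)
  have a1 := mul_le_mul_of_nonneg_left hs (sq_nonneg (1 - e))
  have a2 : 0 ≤ e ^ 2 * (2 - 12 * e) := mul_nonneg (sq_nonneg _) (by linarith)
  nlinarith [sq_nonneg e]

lemma loss (P : Pm) {N : ℝ} (h0 : 0 ≤ N) (h : (P.r : ℝ) * N ≤ P.NU) :
    N * (2 * ((1 - P.e) * P.r * (P.f0 + P.e2)) + 10 ^ 5 * P.t1) ≤ 2 * (P.e * P.nt) := by
  have n1 : P.e * P.nt = P.mn (-1) (-15) := P.mn_mul' rfl rfl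
  have n2 : P.mn 12 (-20) * P.f0 = P.mn (-5) (-15) := P.mn_mul' rfl rfl
  have n3 : P.mn 12 (-20) * P.e2 = P.mn (-2) (-15) := P.mn_mul' rfl rfl
  have n4 : P.mn 12 (-20) * P.mn (-21) 5 = P.mn (-9) (-15) := P.mn_mul' rfl rfl
  have n5 : (P.r : ℝ) * P.mn (-21) 5 = P.t1 := by rw [P.r_eq]; exact P.mn_mul' rfl rfl
  have m2 := P.mn_le (a := -5) (j := -15) (b := -1) (k := -15) (by norm_num) (by norm_num)
  have m3 := P.mn_le (a := -2) (j := -15) (b := -1) (k := -15) (by norm_num) (by norm_num)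
  have m4 := P.mn_le (a := -9) (j := -15) (b := -1) (k := -15) (by norm_num) (by norm_num)
  have p2 := P.mn_pos (-5) (-15)
  have p3 := P.mn_pos (-2) (-15)
  have p4 := P.mn_pos (-9) (-15)
  have e : P.NU = 30 * P.mn 12 (-20) := rfl
  have q1 : 0 ≤ P.f0 + P.e2 := add_nonneg (P.mn_nonneg _ _) (P.mn_nonneg _ _)
  have a1 := mul_le_mul_of_nonneg_right h q1
  have a2 := mul_le_mul_of_nonneg_right h (P.mn_nonneg (-21) 5)
  have a3 : 0 ≤ P.e * (P.r * N * (P.f0 + P.e2)) :=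
    mul_nonneg (P.mn_nonneg _ _) (mul_nonneg (mul_nonneg (Nat.cast_nonneg _) h0) q1)
  rw [← n5, n1]
  rw [e] at a1 a2
  nlinarith

end Dir

theorem dirS (hω : Nm ω) (L : L4 ω) (h1 : F1S ω) (h3 : Dir3S ω) : DirS ω := by
  intro P d hF
  obtain ⟨m, σ, S, y0, ρ1, Z1, hσ, hD⟩ := h1 P _ hF.rotI.rotI
  obtain ⟨o, Ty, ρ, ho, hTy, hc⟩ := L.trans P _ m σ hF.rotI hσ
  have hstep : ∀ k < P.T, |σ.p ω (k + 1) - σ.p ω k| ≤ 2 * σ.g k := fun k hk => by
    simpa using Dir.lip hω L hσ.wray (Nat.le_succ k) hk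
  obtain ⟨k1, U, Gd, hk1, hU, hNU, hcnt, hGd, hmass⟩ := L.count P (σ.p ω) σ.g o Ty ho hσ.wray.g0
    hσ.wray.sum hstep (fun k hk => Dir.bd hω L hσ.wray hk) hσ.mass hσ.low hc
  have hT : ∀ k ∈ U, k ≤ P.T ∧ Trans P (rt I d) ω σ k (ρ k) := fun k hk =>
    hTy k (hU k hk).2.2.2.1
  have htube := fun k (hk : k ∈ U) => L.transtube P d m σ (ρ k) (ρ (k - P.r)) k hF hσ
    (hU k hk).2.1 (hT k hk).1 (hT k hk).2 (hTy _ (hU k hk).2.2.2.2.1).2 (hU k hk).2.2.2.2.2.1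
    (hU k hk).2.2.2.2.2.2
  have hbase : ∀ k ∈ U, Base P d ω (ρ k) := fun k hk => (htube k hk).1
  have hex := fun k (hk : k ∈ U) => (htube k hk).2
  choose! Z2 Mp Mm hfull habove hMb hcost using hex
  have hdl : 0 < P.dl := P.mn_pos _ _
  have hvar : ∀ k ∈ Gd, ∀ j, k ≤ j → j ≤ k + P.ell → |σ.p ω j - σ.p ω k| ≤ P.dl := by
    intro k hk j hj hj'
    obtain ⟨-, a2, a3, -⟩ := hGd k hk
    have b1 := Dir.lip hω L hσ.wray hj (hj'.trans (hT _ a2).1)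
    have b2 : ∑ i ∈ Finset.Ico k j, σ.g i ≤ ∑ i ∈ Finset.Icc k (k + P.ell), σ.g i :=
      Finset.sum_le_sum_of_subset_of_nonneg
        (fun i hi => by simp only [Finset.mem_Ico, Finset.mem_Icc] at hi ⊢; omega)
        fun i _ _ => hσ.wray.g0 i
    have b3 := P.mn_le (a := 0) (j := 11) (b := -6) (k := 10) (by norm_num) (by norm_num)
    linarith [P.mn_pos 0 11]
  have hS : Samp P d ω o k1 U Gd (σ.p ω) ρ Mp Mm :=
    { k1T := hk1
      base := fun k hk => ⟨hbase k hk, hMb k hk, (hU k hk).2.2.1, (hU k hk).1⟩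
      off := fun k hk k' hk' hkk =>
        L.off.off P _ m σ _ _ k k' hσ hkk (hT k' hk').1 (hT k hk).2 (hT k' hk').2
      cnt := hcnt
      tv := by
        have a := Finset.sum_le_sum (s := Finset.range P.T)
          fun k hk => hstep k (Finset.mem_range.1 hk)
        have b := hσ.wray.sub (s := Finset.range P.T) fun k hk => (Finset.mem_range.1 hk).le
        rw [← Finset.mul_sum] at a
        linarith
      gd := fun k hk => by
        obtain ⟨a1, a2, a3, a4⟩ := hGd k hk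
        have b := L.off.cong P _ m σ _ _ k hF.rotI hσ (hT _ a2).1 (hT _ a1).2 (hT _ a2).2 a3 a4
        exact ⟨a1, a2, a4, Dir.bd hω L hσ.wray (hT _ a1).1, hvar k hk, b.1, b.2⟩ }
  obtain ⟨W, Z3, hH, hdis, hC⟩ := h3 P d o k1 U Gd (σ.p ω) ρ Mp Mm hF hS
  have he0 : 0 < P.e := P.mn_pos _ _
  have he1 : P.e ≤ 1 / 10 := by
    linarith [P.mn_small (a := -1) (j := 0) (by norm_num) (by norm_num)]
  have htop : ∀ k ∈ Gd, |σ.p ω k| ≤ m := fun k hk => by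
    obtain ⟨a1, -, a3, -⟩ := hGd k hk
    refine hσ.top k (hT k a1).1 (le_trans ?_ a3)
    exact Finset.single_le_sum (f := σ.g) (fun i _ => hσ.wray.g0 i)
      (Finset.mem_Icc.2 ⟨le_rfl, Nat.le_add_right _ _⟩)
  have hm : 0 < m := by
    obtain ⟨k, hk⟩ : Gd.Nonempty := by
      rcases Gd.eq_empty_or_nonempty with h | h
      · rw [h, Finset.sum_empty] at hmass
        linarith
      · exact h
    linarith [htop k hk, (hGd k hk).2.2.2]
  obtain ⟨z, hz, hzm⟩ : ∃ z : ℝ, 0 < z ∧ z ^ 2 / 2 = m :=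
    ⟨√(2 * m), Real.sqrt_pos.2 (by linarith), by rw [Real.sq_sqrt (by linarith)]; ring⟩
  have hf : 0 < P.f0 + P.e2 := add_pos (P.mn_pos _ _) (P.mn_pos _ _)
  have hinj : ∀ k ∈ Gd, 2 * P.dl ≤ |σ.p ω k| ∧ |σ.p ω (k + P.ell) - σ.p ω k| ≤ P.dl :=
    fun k hk => ⟨(hGd k hk).2.2.2, hvar k hk _ (Nat.le_add_right _ _) le_rfl⟩
  have A1 := L.sum.amgm U Gd (fun k => if 0 < σ.p ω k then k + P.ell else k)
    (fun k => Mp k + P.f0 + P.e2) (σ.p ω) P.r P.e z (Nat.cast_nonneg _) he0.le (by linarith) hz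
    (fun k hk => by linarith [(hMb k hk).p0])
    (fun k hk => ⟨by split_ifs; exacts [(hGd k hk).2.1, (hGd k hk).1], hzm ▸ htop k hk⟩)
    (Dir.injP hdl hinj)
  have A2 := L.sum.amgm U Gd (fun k => if 0 < σ.p ω k then k else k + P.ell)
    (fun k => Mm k + P.f0 + P.e2) (σ.p ω) P.r P.e z (Nat.cast_nonneg _) he0.le (by linarith) hz
    (fun k hk => by linarith [(hMb k hk).m0])
    (fun k hk => ⟨by split_ifs; exacts [(hGd k hk).1, (hGd k hk).2.1], hzm ▸ htop k hk⟩)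
    (Dir.injM hdl hinj)
  have A3 := Dir.main he0.le he1 hmass hz
  have A4 := Dir.loss P (Nat.cast_nonneg _) hNU
  have A5 : ∑ k ∈ U, (1 - P.e) * P.r * (Mp k + P.f0 + P.e2) +
      ∑ k ∈ U, (1 - P.e) * P.r * (Mm k + P.f0 + P.e2) ≤
      ∑ k ∈ U, Cost (rt I d) ω P.lam (Z2 k) +
        U.card * (2 * ((1 - P.e) * P.r * (P.f0 + P.e2)) + 10 ^ 5 * P.t1) := by
    rw [← nsmul_eq_mul, ← Finset.sum_const, ← Finset.sum_add_distrib, ← Finset.sum_add_distrib]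
    exact Finset.sum_le_sum fun k hk => by linarith [hcost k hk]
  refine ⟨z, S, y0, ρ1, Z1, U, Z2, W, Z3, hz, hzm ▸ hD, hNU, hfull, ?_, hH, hdis, by linarith⟩
  have key : ∀ a ∈ U, ∀ b ∈ U, a < b → Disjoint (Z2 a) (Z2 b) := fun a ha b hb hab =>
    L.off.disj P _ m σ _ _ a b _ _ hσ (Dir.gap (hU a ha).1 (hU b hb).1 hab) (hT b hb).1
      (hT a ha).2 (hT b hb).2 (habove a ha) (habove b hb)
  intro a ha b hb hab
  rcases lt_or_gt_of_ne hab with h | h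
  exacts [key a ha b hb h, (key b hb a ha h).symm]

end Pool.Agent.MP_c59ecb_co.sh

end MrgPart9

-- ======== part 10: formerly Pool.Agent.MP_c59ecb_co.sh.Limit
section MrgPart10

/-! From the two bounds to the limit. -/

set_option autoImplicit false

namespace Pool.Agent.MP_c59ecb_co.sh

open Filter Topology

namespace Limit

lemma const : 160 / (96 : ℝ) ^ (3 / 5 : ℝ) = 10 / 3 * (288 : ℝ) ^ (1 / 5 : ℝ) := by
  have h1 : ((96 : ℝ) ^ (3 / 5 : ℝ)) ^ 5 = 96 ^ 3 := by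
    rw [← Real.rpow_natCast, ← Real.rpow_mul (by norm_num)]
    norm_num
  have h2 : ((288 : ℝ) ^ (1 / 5 : ℝ)) ^ 5 = 288 := by
    rw [← Real.rpow_natCast, ← Real.rpow_mul (by norm_num)]
    norm_num
  refine (pow_left_inj₀ (n := 5) (by positivity) (by positivity) (by norm_num)).1 ?_
  rw [div_pow, mul_pow, h1, h2]
  norm_num

/-- the scale of the construction -/
noncomputable def bn (n : ℕ) : ℝ := (96 / (n : ℝ)) ^ (1 / 5 : ℝ)

lemma bn_pos {n : ℕ} (h : 0 < n) : 0 < bn n := by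
  unfold bn
  positivity

lemma bn_pow {n : ℕ} (h : 0 < n) : n * bn n ^ 5 = 96 := by
  have h0 : (0 : ℝ) < n := by exact_mod_cast h
  rw [bn, ← Real.rpow_natCast, ← Real.rpow_mul (by positivity)]
  norm_num
  field_simp

lemma bn_cube {n : ℕ} (h : 0 < n) :
    (n : ℝ) ^ (3 / 5 : ℝ) * bn n ^ 3 = (96 : ℝ) ^ (3 / 5 : ℝ) := by
  have h0 : (0 : ℝ) < n := by exact_mod_cast h
  rw [bn, ← Real.rpow_natCast, ← Real.rpow_mul (by positivity)]
  norm_num
  rw [← Real.mul_rpow h0.le (by positivity)]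
  congr 1
  field_simp

lemma bn_lim : Tendsto bn atTop (𝓝 0) := by
  have h1 : Tendsto (fun n : ℕ => 96 / (n : ℝ)) atTop (𝓝 0) :=
    tendsto_const_div_atTop_nhds_zero_nat 96
  have h2 := h1.rpow_const (p := (1 / 5 : ℝ)) (Or.inr (by norm_num))
  rw [Real.zero_rpow (by norm_num)] at h2
  exact h2

end Limit

open Limit in
theorem limit (hu : UpperStmt) (hl : LowerStmt) (f : ℕ → ℕ)
    (h1 : ∀ (n N : ℕ) (ε : ℝ) (a ω : Fin N → ℂ), 0 < ε → Cover N (n + ε) a ω →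
      f n ≤ N ∧ ∃ (ε' : ℝ) (a' ω' : Fin (f n) → ℂ), 0 < ε' ∧ Cover (f n) (n + ε') a' ω') :
    Tendsto (fun n : ℕ => ((f n : ℝ) - (n : ℝ) ^ 2) / (n : ℝ) ^ (3 / 5 : ℝ)) atTop
      (𝓝 (10 / 3 * (288 : ℝ) ^ (1 / 5 : ℝ))) := by
  have key : Tendsto (fun n : ℕ => ((f n : ℝ) - (n : ℝ) ^ 2) * bn n ^ 3) atTop (𝓝 160) := by
    rw [Metric.tendsto_nhds]
    intro δ hδ
    obtain ⟨b0, hb0, hlo⟩ := hl (δ / 2) (by linarith)
    have e1 := bn_lim.eventually (eventually_le_nhds hb0)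
    have e2 := bn_lim.eventually (eventually_le_nhds (show (0 : ℝ) < 1 / 10 ^ 6 by norm_num))
    have e3 := bn_lim.eventually (eventually_le_nhds (show (0 : ℝ) < δ / 10 ^ 6 by positivity))
    filter_upwards [e1, e2, e3, eventually_gt_atTop 0] with n a1 a2 a3 a4
    have b1 := bn_pos a4
    have b3 : 0 < bn n ^ 3 := by positivity
    obtain ⟨ε, hε, N, a, ω, c1, c2, c3⟩ := hu (bn n) n b1 a2 (bn_pow a4)
    obtain ⟨d1, ε', a', ω', d2, d3⟩ := h1 n N ε a ω hε ⟨c1, c2⟩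
    have d4 := hlo (bn n) n b1 a1 (bn_pow a4) ε' _ a' ω' d2 d3
    have d5 : (f n : ℝ) ≤ N := by exact_mod_cast d1
    have d6 : (f n : ℝ) - (n : ℝ) ^ 2 ≤ (160 + 10 ^ 5 * bn n) / bn n ^ 3 := by linarith
    have d7 : (160 - δ / 2) / bn n ^ 3 ≤ (f n : ℝ) - (n : ℝ) ^ 2 := by linarith
    rw [le_div_iff₀ b3] at d6
    rw [div_le_iff₀ b3] at d7
    rw [Real.dist_eq, abs_lt]
    constructor <;> linarith
  rw [← const]
  refine (key.div_const ((96 : ℝ) ^ (3 / 5 : ℝ))).congr' ?_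
  filter_upwards [eventually_gt_atTop 0] with n hn
  have b1 := bn_pos hn
  have h0 : (0 : ℝ) < n := by exact_mod_cast hn
  rw [← bn_cube hn]
  field_simp

end Pool.Agent.MP_c59ecb_co.sh

end MrgPart10

-- marker of a merged file
example : 731051 + 442437 = 731051 + 442437 := rfl
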