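import Pool.Agent.MP_c59ecb_co.sh.Side

-- ======== part 0: formerly Pool.Agent.MP_c59ecb_co.sh.Conf
section MrgPart0

/-! Conflicts between the families of squares. -/

set_option autoImplicit false

namespace Pool.Agent.MP_c59ecb_co.sh

open MeasureTheory Complex Pool.Agent.MP_c59ecb_co.h76

variable {ι : Type} [Fintype ι] [DecidableEq ι] {ω : ι → ℂ}

namespace Conf

/-! ### numbers -/

lemma t1_pos (P : Pm) : 0 < P.t1 := P.mn_pos _ _

lemma t12 (P : Pm) : P.t1 ≤ P.t2 := P.mn_mono (by norm_num) (by norm_num)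

lemma t2_small (P : Pm) : P.t2 ≤ 1 / 10 ^ 6 := by
  linarith [P.mn_small (a := 36) (j := 5) (by norm_num) (by norm_num), P.mn_pos 36 5]

lemma t2_R (P : Pm) : P.t2 * P.R ^ 2 ≤ 1 / 10 ^ 6 := by
  have h1 : P.mn 36 5 * P.mn 60 0 = P.mn 96 5 := P.mn_mul' rfl rfl
  have h2 := P.mn_small (a := 96) (j := 5) (by norm_num) (by norm_num)
  have h3 := P.mn_pos 96 5
  rw [P.R_sq]
  have : P.t2 * (100 * P.mn 60 0) = 100 * P.mn 96 5 := by rw [← h1]; ring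
  rw [this]
  linarith

lemma eta_small (P : Pm) : P.eta ≤ 1 / 100 := by
  linarith [P.mn_small (a := -40) (j := 4) (by norm_num) (by norm_num), P.mn_pos (-40) 4]

lemma col_small (P : Pm) : 5 * (P.r : ℝ) * P.be ≤ 1 / 100 ∧ 5 * (P.r : ℝ) * P.eta ≤ 1 / 100 := by
  have h1 : P.mn 30 0 * P.mn 0 5 = P.mn 30 5 := P.mn_mul' rfl rfl
  have h2 : P.mn 30 0 * P.mn (-40) 4 = P.mn (-10) 4 := P.mn_mul' rfl rfl
  have h3 := P.mn_small (a := 30) (j := 5) (by norm_num) (by norm_num)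
  have h4 := P.mn_small (a := -10) (j := 4) (by norm_num) (by norm_num)
  have h5 := P.mn_pos 30 5
  have h6 := P.mn_pos (-10) 4
  rw [P.r_eq, mul_assoc, mul_assoc, h1, h2]
  constructor <;> linarith

lemma fin_small (P : Pm) : P.be + 8 * P.t1 + 14 * (P.r * P.vt) < P.f0 * P.r / 4 := by
  have h1 : P.mn 30 0 * P.mn 0 11 = P.mn 30 11 := P.mn_mul' rfl rfl
  have h2 : P.mn (-17) 5 * P.mn 30 0 = P.mn 13 5 := P.mn_mul' rfl rfl
  have h3 := P.mn_le (a := 0) (j := 5) (b := 13) (k := 5) (by norm_num) (by norm_num)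
  have h4 := P.mn_le (a := 9) (j := 5) (b := 13) (k := 5) (by norm_num) (by norm_num)
  have h5 := P.mn_le (a := 30) (j := 11) (b := 13) (k := 5) (by norm_num) (by norm_num)
  have h6 := P.mn_pos 13 5
  rw [P.r_eq, h1, h2]
  linarith

/-! ### tools -/

/-- two rays move together -/
lemma pr (L : L2 ω) (P : Pm) {c : ι → ℂ} {τ τ' G G' : ℝ} {T T' : ℕ} {ρ ρ' : Ry ι}
    (h : Wray c ω P.R 0 τ T G ρ) (h' : Wray c ω P.R 0 τ' T' G' ρ') (h1 : τ ≤ P.t2)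
    (h2 : τ' ≤ P.t2) (h3 : G ≤ 3 * P.t2) (h4 : G' ≤ 3 * P.t2) {t t' s s' : ℕ} (ht : t ≤ T)
    (ht' : t' ≤ T') (hs : s ≤ T) (hs' : s' ≤ T') (e : s + t' = s' + t)
    (hx : |(ρ'.P c ω t' - ρ.P c ω t).re| ≤ 1) (hy : |(ρ'.P c ω t' - ρ.P c ω t).im| ≤ 3 * P.r) :
    |(ρ'.P c ω s' - ρ.P c ω s).re - (ρ'.P c ω t' - ρ.P c ω t).re| ≤ 1 / 1000 ∧
      |(ρ'.P c ω s' - ρ.P c ω s).im - (ρ'.P c ω t' - ρ.P c ω t).im| ≤ 1 / 1000 := by
  have a1 := t2_small P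
  have a2 := t2_R P
  have a3 := P.r_big
  have hn : ‖ρ'.P c ω t' - ρ.P c ω t‖ ≤ P.R - 4 := by
    have := Complex.norm_le_abs_re_add_abs_im (ρ'.P c ω t' - ρ.P c ω t)
    have e2 : P.R = 10 * (P.r : ℝ) := rfl
    linarith
  have hb : P.R ^ 2 * (3 * P.t2) + 3 * P.t2 + 3 * P.t2 ≤ 1 / 1000 := by linarith
  have hp := (L.w.pair c P.R P.R 0 0 P.t2 (3 * P.t2) (3 * P.t2) T T' ρ ρ' t t' s s'
    (h.mono h1 le_rfl h3) (h'.mono h2 le_rfl h4) (by linarith) (by linarith) (by linarith)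
    ht ht' hs hs' e hn).1
  constructor
  · rw [← sub_re]
    exact (abs_re_le_norm _).trans (hp.trans hb)
  · rw [← sub_im]
    exact (abs_im_le_norm _).trans (hp.trans hb)

/-- two rays move together back to the start of one of them -/
lemma back (L : L2 ω) (P : Pm) {c : ι → ℂ} {T T' : ℕ} {ρ ρ' : Ry ι}
    (h : Wray c ω P.R 0 P.t1 T P.t1 ρ) (h' : Wray c ω P.R 0 P.t1 T' P.t1 ρ') {t t' : ℕ}
    (ht : t ≤ T) (ht' : t' ≤ T') (hx : |(ρ'.P c ω t' - ρ.P c ω t).re| ≤ 3 / 100)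
    (hy : |(ρ'.P c ω t' - ρ.P c ω t).im| ≤ P.r - 29 / 50) :
    ∃ s ≤ T, ∃ s' ≤ T', (s = 0 ∨ s' = 0) ∧ |(ρ'.P c ω s' - ρ.P c ω s).re| ≤ 1 / 25 ∧
      |(ρ'.P c ω s' - ρ.P c ω s).im| ≤ P.r - 57 / 100 := by
  have a1 := t12 P
  have a2 := t1_pos P
  have a3 := P.r_big
  have hp := pr L P h h' a1 a1 (by linarith) (by linarith) ht ht'
    (s := t - min t t') (s' := t' - min t t') (by omega) (by omega) (by omega) (by linarith)
    (by linarith)
  refine ⟨t - min t t', by omega, t' - min t t', by omega, by omega, ?_, ?_⟩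
  · obtain ⟨b1, b2⟩ := abs_le.1 hp.1
    obtain ⟨b3, b4⟩ := abs_le.1 hx
    exact abs_le.2 ⟨by linarith, by linarith⟩
  · obtain ⟨b1, b2⟩ := abs_le.1 hp.2
    obtain ⟨b3, b4⟩ := abs_le.1 hy
    exact abs_le.2 ⟨by linarith, by linarith⟩

/-- progress of a ray -/
lemma prog (L : L2 ω) {c : ι → ℂ} {R w τ G : ℝ} {T : ℕ} {ρ : Ry ι} (h : Wray c ω R w τ T G ρ)
    (h1 : τ ≤ 1 / 1000) (h2 : G ≤ 1 / 1000) {a b : ℕ} (hab : a ≤ b) (hb : b ≤ T) :
    ((b : ℝ) - a) * (99 / 100) - 1 / 1000 ≤ (ρ.P c ω b).re - (ρ.P c ω a).re ∧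
      |(ρ.P c ω b).im - (ρ.P c ω a).im| ≤ ((b : ℝ) - a) / 1000 + 1 / 1000 := by
  obtain ⟨g1, -, g3⟩ := L.w.geo c R w τ G T ρ a b h hab hb
  have h0 := h.τ0
  have hd : (0 : ℝ) ≤ (b : ℝ) - a := sub_nonneg.2 (by exact_mod_cast hab)
  rw [sub_re] at g1
  rw [sub_im] at g3
  have h3 : τ ^ 2 ≤ 1 / 100 := by nlinarith
  have h4 : ((b : ℝ) - a) * τ ^ 2 ≤ ((b : ℝ) - a) * (1 / 100) := mul_le_mul_of_nonneg_left h3 hd
  have h5 : τ * ((b : ℝ) - a) ≤ 1 / 1000 * ((b : ℝ) - a) := mul_le_mul_of_nonneg_right h1 hd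
  constructor <;> linarith

/-- a short piece of a ray keeps its height -/
lemma drift (L : L2 ω) {c : ι → ℂ} {R w τ G : ℝ} {T : ℕ} {ρ : Ry ι} (h : Wray c ω R w τ T G ρ)
    (h1 : τ ≤ 1 / 1000) (h2 : G ≤ 1 / 1000) {a b : ℕ} (ha : a ≤ T) (hb : b ≤ T)
    (hx : |(ρ.P c ω b).re - (ρ.P c ω a).re| ≤ 8) :
    |(ρ.P c ω b).im - (ρ.P c ω a).im| ≤ 1 / 50 := by
  obtain ⟨b1, b2⟩ := abs_le.1 hx
  rcases le_total a b with hab | hab
  · obtain ⟨g1, g2⟩ := prog L h h1 h2 hab hb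
    linarith
  · obtain ⟨g1, g2⟩ := prog L h h1 h2 hab ha
    rw [abs_sub_comm]
    linarith

/-- centre and exit point -/
lemma cen (L : L2 ω) {c : ι → ℂ} {R w τ G : ℝ} {T : ℕ} {ρ : Ry ι} (h : Wray c ω R w τ T G ρ)
    (h1 : τ ≤ 1 / 1000) {k : ℕ} (hk : k ≤ T) :
    |(c (ρ.J k)).re - (ρ.P c ω k).re + 1 / 2| ≤ 1 / 1000 ∧
      |(c (ρ.J k)).im - (ρ.P c ω k).im| ≤ 501 / 1000 := by
  obtain ⟨g1, g2, -⟩ := L.w.cen c (ρ.J k) (ρ.V k) τ (h.tilt k hk) (h.v k hk)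
  rw [sub_re] at g1
  rw [sub_im] at g2
  obtain ⟨b1, b2⟩ := abs_le.1 g2
  obtain ⟨b3, b4⟩ := abs_le.1 (h.v k hk)
  refine ⟨g1.trans h1, abs_le.2 ⟨?_, ?_⟩⟩ <;> unfold Ry.P <;> linarith

/-- a square close to the centre of a calm disc is the centre -/
lemma near_eq (L : L2 ω) {c : ι → ℂ} {A B : ι} {μ : ℝ} (h : Calm c ω A 15 μ) (h0 : 0 ≤ μ)
    (h1 : μ ≤ 1 / 1000) (h2 : ‖ω A - 1‖ ≤ 1 / 100) (hx : |(c B).re - (c A).re| ≤ 7 / 10)
    (hy : |(c B).im - (c A).im| ≤ 7 / 10) : A = B := by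
  have hl := L.calm.lm c A 10 15 μ h (by norm_num) (by norm_num)
  obtain ⟨g1, g2⟩ := L.col.coord c A A B (1 / 100) h2
  have hn := Complex.norm_le_abs_re_add_abs_im (c B - c A)
  rw [sub_re, sub_im] at hn
  have u0 : LU c ω A A = 0 := by simp [LU, loc]
  have w0 : LW c ω A A = 0 := by simp [LW, loc]
  obtain ⟨b1, b2⟩ := abs_le.1 hx
  obtain ⟨b3, b4⟩ := abs_le.1 hy
  obtain ⟨b5, b6⟩ := abs_le.1 g1
  obtain ⟨b7, b8⟩ := abs_le.1 g2
  refine L.loc.same ι (LU c ω A) (LW c ω A) μ 10 A B h0 h1 hl ⟨?_, ?_⟩ ⟨?_, ?_⟩ ?_ ?_ <;>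
    exact abs_le.2 ⟨by linarith, by linarith⟩

/-- a square of a ray close to the axis of a column lies on the column -/
lemma on_col (L : L2 ω) (P : Pm) {c : ι → ℂ} {C : ℕ → ι} (hC : Col c ω P.eta P.be (5 * P.r) C)
    {T : ℕ} {ρ : Ry ι} (h : Wray c ω P.R 0 P.t1 T P.t1 ρ) {k : ℕ} (hk : k ≤ T)
    (hx : |(c (ρ.J k)).re - (c (C (2 * P.r))).re| ≤ 1 / 10)
    (hy1 : -(P.r + 1 : ℝ) ≤ (c (ρ.J k)).im - (c (C (2 * P.r))).im)
    (hy2 : (c (ρ.J k)).im - (c (C (2 * P.r))).im ≤ 2 * P.r + 1) :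
    ∃ j ≤ 5 * P.r, ρ.J k = C j := by
  have a1 := t12 P
  have a2 := t2_small P
  have a3 := P.r_big
  have a4 := eta_small P
  obtain ⟨a5, a6⟩ := col_small P
  have a7 : 0 < P.be := P.mn_pos _ _
  have a8 : 0 < P.eta := P.mn_pos _ _
  set y := (c (ρ.J k)).im - (c (C (2 * P.r))).im with hy
  have hp : 0 ≤ y + 2 * P.r + 1 / 2 := by linarith
  have f1 := Nat.floor_le hp
  have f2 := Nat.lt_floor_add_one (y + 2 * P.r + 1 / 2)
  set j := ⌊y + 2 * P.r + 1 / 2⌋₊ with hj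
  have hj5 : j ≤ 5 * P.r := by
    have : (j : ℝ) ≤ 5 * P.r := by linarith
    exact_mod_cast this
  have hj5' : (j : ℝ) ≤ 5 * P.r := by exact_mod_cast hj5
  have hj0 : (0 : ℝ) ≤ j := Nat.cast_nonneg _
  refine ⟨j, hj5, near_eq L (h.c1 k hk) (h.g0 k) ((h.le hk).trans (by linarith))
    ((h.tilt k hk).trans (by linarith)) ?_ ?_⟩
  · obtain ⟨b1, b2⟩ := abs_le.1 hx
    rcases le_total j (2 * P.r) with hle | hle
    · obtain ⟨g1, -⟩ := L.col.geo c _ _ _ C j (2 * P.r) hC a4 hle (by omega)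
      have e1 : ((2 * P.r : ℕ) - (j : ℝ)) * (P.be + 2 * P.eta) ≤ 5 * P.r * (P.be + 2 * P.eta) :=
        mul_le_mul_of_nonneg_right (by push_cast; linarith) (by linarith)
      obtain ⟨b3, b4⟩ := abs_le.1 (g1.trans e1)
      exact abs_le.2 ⟨by linarith, by linarith⟩
    · obtain ⟨g1, -⟩ := L.col.geo c _ _ _ C (2 * P.r) j hC a4 hle hj5
      have e1 : ((j : ℝ) - (2 * P.r : ℕ)) * (P.be + 2 * P.eta) ≤ 5 * P.r * (P.be + 2 * P.eta) :=
        mul_le_mul_of_nonneg_right (by push_cast; linarith) (by linarith)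
      obtain ⟨b3, b4⟩ := abs_le.1 (g1.trans e1)
      exact abs_le.2 ⟨by linarith, by linarith⟩
  · rcases le_total j (2 * P.r) with hle | hle
    · obtain ⟨-, g1⟩ := L.col.geo c _ _ _ C j (2 * P.r) hC a4 hle (by omega)
      have e1 : ((2 * P.r : ℕ) - (j : ℝ)) * P.eta ≤ 5 * P.r * P.eta :=
        mul_le_mul_of_nonneg_right (by push_cast; linarith) a8.le
      obtain ⟨b3, b4⟩ := abs_le.1 (g1.trans e1)
      push_cast at b3 b4
      exact abs_le.2 ⟨by linarith, by linarith⟩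
    · obtain ⟨-, g1⟩ := L.col.geo c _ _ _ C (2 * P.r) j hC a4 hle hj5
      have e1 : ((j : ℝ) - (2 * P.r : ℕ)) * P.eta ≤ 5 * P.r * P.eta :=
        mul_le_mul_of_nonneg_right (by push_cast; linarith) a8.le
      obtain ⟨b3, b4⟩ := abs_le.1 (g1.trans e1)
      push_cast at b3 b4
      exact abs_le.2 ⟨by linarith, by linarith⟩

/-- the two exit points seen from a common square -/
lemma shared {z p p' q : ℂ} {r : ℝ} (h1 : |(z - p).re + 1 / 2| ≤ 1 / 50)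
    (h2 : 1 / 2 - 1 / 50 ≤ (z - p).im) (h3 : 1 / 2 - 1 / 50 ≤ (p' - z).im)
    (h4 : |(p' - p).im - r| ≤ 1 / 3 + 1 / 50) (h5 : |(z - q).re + 1 / 2| ≤ 1 / 100)
    (h6 : 49 / 100 ≤ (z - q).im) (h7 : (z - q).im ≤ r - 1 / 10) :
    |(p - q).re| ≤ 3 / 100 ∧ |(p - q).im| ≤ r - 29 / 50 := by
  simp only [sub_re, sub_im] at *
  obtain ⟨b1, b2⟩ := abs_le.1 h1
  obtain ⟨b3, b4⟩ := abs_le.1 h4
  obtain ⟨b5, b6⟩ := abs_le.1 h5
  exact ⟨abs_le.2 ⟨by linarith, by linarith⟩, abs_le.2 ⟨by linarith, by linarith⟩⟩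

/-! ### wide -/

lemma one_re_im {u : ℂ} {τ : ℝ} (h : ‖u - 1‖ ≤ τ) : |u.re - 1| ≤ τ ∧ |u.im| ≤ τ := by
  have h1 := (abs_re_le_norm _).trans h
  have h2 := (abs_im_le_norm _).trans h
  simp only [sub_re, sub_im, one_re, one_im, sub_zero] at h1 h2
  exact ⟨h1, h2⟩

lemma wide (L : L2 ω) (P : Pm) (c : ι → ℂ) (Z : Finset ι)
    (h : Full P c ω (1 / 100) (4 * P.t1) Z) :
    Full P c ω (1 / 50) (8 * P.t1) Z ∧ Full P (rt (-1) c) ω (1 / 50) (8 * P.t1) Z := by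
  obtain ⟨ρ, ρ', T, w, w', e1, e2, e3, e4, hd, hz⟩ := h
  have a1 := t12 P
  have a2 := t2_small P
  have a3 := t1_pos P
  constructor
  · refine ⟨ρ, ρ', T, w, w', e1, e2, e3, e4, fun t ht => ?_, fun i hi => ?_⟩
    · obtain ⟨b1, b2⟩ := hd t ht
      exact ⟨by linarith, by linarith⟩
    · obtain ⟨t, ht, b1, b2, b3⟩ := hz i hi
      exact ⟨t, ht, by linarith, by linarith, by linarith⟩
  · refine ⟨ρ'.rev T, ρ.rev T, T, L.w.rev c _ _ _ _ _ _ w', L.w.rev c _ _ _ _ _ _ w, ?_, ?_, ?_, ?_,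
      fun t ht => ?_, fun i hi => ?_⟩
    · simp only [Ry.rev, rt, Nat.sub_zero, neg_mul, one_mul, neg_re]
      linarith
    · simp only [Ry.rev, rt, Nat.sub_zero, neg_mul, one_mul, neg_re]
      linarith
    · simp only [Ry.rev, rt, Nat.sub_self, neg_mul, one_mul, neg_re]
      linarith
    · simp only [Ry.rev, rt, Nat.sub_self, neg_mul, one_mul, neg_re]
      linarith
    · rw [L.w.revP, L.w.revP]
      obtain ⟨b1, b2⟩ := hd (T - t) (Nat.sub_le _ _)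
      obtain ⟨b3, b4⟩ := one_re_im (w.tilt (T - t) (Nat.sub_le _ _))
      obtain ⟨b5, b6⟩ := one_re_im (w'.tilt (T - t) (Nat.sub_le _ _))
      simp only [sub_re, sub_im, add_re, add_im, neg_re, neg_im] at b1 b2 ⊢
      rw [abs_le] at b1 b2 b3 b4 b5 b6
      exact ⟨abs_le.2 ⟨by linarith [b1.1, b3.1, b5.2], by linarith [b1.2, b3.2, b5.1]⟩,
        abs_le.2 ⟨by linarith [b2.1, b4.1, b6.2], by linarith [b2.2, b4.2, b6.1]⟩⟩
    · obtain ⟨t, ht, b1, b2, b3⟩ := hz i hi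
      refine ⟨T - t, Nat.sub_le _ _, ?_⟩
      rw [L.w.revP, L.w.revP, Nat.sub_sub_self ht]
      obtain ⟨b4, -⟩ := hd t ht
      obtain ⟨-, b5⟩ := one_re_im (w.tilt t ht)
      obtain ⟨b6, b7⟩ := one_re_im (w'.tilt t ht)
      simp only [rt, neg_mul, one_mul, sub_re, sub_im, add_re, add_im, neg_re, neg_im] at b1 b2 b3 b4 ⊢
      rw [abs_le] at b1 b4 b5 b6 b7
      exact ⟨abs_le.2 ⟨by linarith [b1.2, b4.1, b6.2], by linarith [b1.1, b4.2, b6.1]⟩,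
        by linarith [b7.2], by linarith [b5.1]⟩

/-! ### high -/

lemma high (hω : Nm ω) (L : L2 ω) (P : Pm) (c : ι → ℂ) (Z Z' : Finset ι) (hF : P.Fr c ω)
    (h : Full P c ω (1 / 50) (8 * P.t1) Z) (hH : High P c ω Z') : Disjoint Z Z' := by
  rw [Finset.disjoint_left]
  intro i hi hi'
  obtain ⟨ρ, ρ', T, w, w', e1, -, e3, -, hd, hz⟩ := h
  obtain ⟨K, TK, th, C, wK, hth, hA, hC2, hC, hSA, hp, hang⟩ := hH ⟨i, hi'⟩
  obtain ⟨t, ht, b1, b2, b3⟩ := hz i hi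
  obtain ⟨s, hs, b4, b5, b6⟩ := hA i hi'
  obtain ⟨d1, d2⟩ := shared b1 b2 b3 (hd t ht).2 b4 b5 b6
  have a1 := t12 P
  have a2 := t2_small P
  have a3 := t1_pos P
  have a4 := P.r_big
  have a5 : 0 < P.f0 := P.mn_pos _ _
  have hne : ω (K.J th) ≠ 1 := by
    intro e
    simp only [Ry.p, e, tl, one_im, zero_div, abs_zero] at hp
    linarith
  have hin : |(c (K.J th)).re| < P.a + 1 := by
    by_contra hc
    exact hne (hF.one.out _ (Or.inl (not_lt.1 hc))).1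
  obtain ⟨i1, i2⟩ := abs_lt.1 hin
  obtain ⟨k1, k2⟩ := cen L wK (by linarith) hth
  have hpr : ∀ s' ≤ TK, ∀ t' ≤ T, s' + t = t' + s →
      |(ρ.P c ω t').re - (K.P c ω s').re| ≤ 1 / 25 ∧
        |(ρ.P c ω t').im - (K.P c ω s').im| ≤ P.r - 57 / 100 := by
    intro s' hs' t' ht' e
    obtain ⟨g1, g2⟩ := pr L P wK w le_rfl a1 le_rfl (by linarith) hs ht hs' ht' e (by linarith)
      (by linarith)
    simp only [sub_re, sub_im] at g1 g2 d1 d2
    rw [abs_le] at g1 g2 d1 d2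
    exact ⟨abs_le.2 ⟨by linarith [g1.1, d1.1], by linarith [g1.2, d1.2]⟩,
      abs_le.2 ⟨by linarith [g2.1, d2.1], by linarith [g2.2, d2.2]⟩⟩
  rw [abs_le] at k1 k2
  by_cases c1 : T + s < t + th
  · obtain ⟨g1, -⟩ := hpr (s + (T - t)) (by omega) T le_rfl (by omega)
    obtain ⟨g2, -⟩ := prog L wK (by linarith) (by linarith) (a := s + (T - t)) (b := th) (by omega) hth
    obtain ⟨g3, -⟩ := cen L w (by linarith) le_rfl
    have g4 : ((s + (T - t) : ℕ) : ℝ) ≤ th := by exact_mod_cast (by omega : s + (T - t) ≤ th)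
    rw [abs_le] at g1 g3
    linarith [g1.2, g3.2, k1.1]
  by_cases c2 : t + th < s
  · obtain ⟨g1, -⟩ := hpr (s - t) (by omega) 0 (Nat.zero_le _) (by omega)
    obtain ⟨g2, -⟩ := prog L wK (by linarith) (by linarith) (a := th) (b := s - t) (by omega)
      (by omega)
    obtain ⟨g3, -⟩ := cen L w (by linarith) (Nat.zero_le T)
    have g4 : (th : ℝ) ≤ ((s - t : ℕ) : ℝ) := by exact_mod_cast (by omega : th ≤ s - t)
    rw [abs_le] at g1 g3
    linarith [g1.1, g3.1, k1.2]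
  obtain ⟨u, hu⟩ : ∃ u, u + s = t + th := ⟨t + th - s, by omega⟩
  have huT : u ≤ T := by omega
  obtain ⟨g1, g2⟩ := hpr th hth u huT (by omega)
  obtain ⟨g3, g4⟩ := hd u huT
  obtain ⟨g5, g6⟩ := cen L w (by linarith) huT
  obtain ⟨g7, g8⟩ := cen L w' (by linarith) huT
  have g3' := g3
  have g4' := g4
  rw [sub_re] at g3'
  rw [sub_im] at g4'
  rw [abs_le] at g1 g2 g3' g4' g5 g6 g7 g8
  obtain ⟨j, hj, ej⟩ := on_col L P hC w huT
    (by rw [hC2]; exact abs_le.2 ⟨by linarith [g1.1, g5.1, k1.2], by linarith [g1.2, g5.2, k1.1]⟩)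
    (by rw [hC2]; linarith [g2.1, g6.1, k2.2]) (by rw [hC2]; linarith [g2.2, g6.2, k2.1])
  obtain ⟨j', hj', ej'⟩ := on_col L P hC w' huT
    (by
      rw [hC2]
      exact abs_le.2 ⟨by linarith [g1.1, g7.1, k1.2, g3'.1], by linarith [g1.2, g7.2, k1.1, g3'.2]⟩)
    (by rw [hC2]; linarith [g2.1, g8.1, k2.2, g4'.1])
    (by rw [hC2]; linarith [g2.2, g8.2, k2.1, g4'.2])
  have a6 := eta_small P
  have hjj : j ≤ j' := by
    by_contra hc
    have hc' : j' ≤ j := by omega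
    obtain ⟨-, q⟩ := L.col.geo c _ _ _ C j' j hC a6 hc' hj
    have q1 : (0 : ℝ) ≤ (j : ℝ) - j' := sub_nonneg.2 (by exact_mod_cast hc')
    have q2 : ((j : ℝ) - j') * P.eta ≤ ((j : ℝ) - j') * (1 / 100) := mul_le_mul_of_nonneg_left a6 q1
    rw [← ej, ← ej', abs_le] at q
    linarith [q.1, g4'.1, g6.2, g8.1]
  obtain ⟨m, rfl⟩ := Nat.exists_eq_add_of_le hjj
  have hap := L.col.approx c _ _ P.vt (ρ.V u) (ρ'.V u) m (fun k => C (j + k)) (ω (K.J th))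
    (hC.sub hj') a6 (hω.1 _) ((wK.tilt th hth).trans (by linarith))
    (fun k hk => hang _ (by omega)) (w.v u huT) (w'.v u huT)
  have hS := (SS_le_SA c ω m (fun k => C (j + k))).trans ((SA_sub c ω C hj').trans hSA)
  simp only [Nat.add_zero] at hap
  rw [← ej, ← ej'] at hap
  change |SS c ω m (fun k => C (j + k)) - (ρ'.P c ω u - ρ.P c ω u).re -
    K.p ω th * (ρ'.P c ω u - ρ.P c ω u).im| ≤ _ at hap
  have a7 := fin_small P
  have a8 : 0 < P.vt := P.mn_pos _ _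
  have hm : (m : ℝ) ≤ 5 * P.r := by exact_mod_cast (by omega : m ≤ 5 * P.r)
  have q1 : 2 * ((m : ℝ) + 2) * P.vt ≤ 14 * P.r * P.vt :=
    mul_le_mul_of_nonneg_right (by linarith) a8.le
  generalize (ρ'.P c ω u - ρ.P c ω u).re = X at *
  generalize (ρ'.P c ω u - ρ.P c ω u).im = Y at *
  generalize SS c ω m (fun k => C (j + k)) = S at *
  generalize K.p ω th = p at *
  have q2 : (P.r : ℝ) / 2 ≤ Y := by linarith [(abs_le.1 g4).1]
  have q3 : P.f0 / 2 * (P.r / 2) ≤ |p * Y| := by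
    rw [abs_mul, abs_of_nonneg (by linarith : 0 ≤ Y)]
    exact mul_le_mul hp q2 (by linarith) (abs_nonneg _)
  have q4 : |p * Y| ≤ |S| + |X| + |S - X - p * Y| := by
    have : p * Y = S - X - (S - X - p * Y) := by ring
    calc |p * Y| = |S - X - (S - X - p * Y)| := by rw [← this]
      _ ≤ |S - X| + |S - X - p * Y| := abs_sub _ _
      _ ≤ _ := by linarith [abs_sub S X]
  linarith

/-! ### rows -/

lemma rows (L : L2 ω) (P : Pm) (c : ι → ℂ) (m y0 : ℝ) (S : Finset ℕ) (ρ : ℕ → Ry ι)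
    (Z : ℕ → Finset ι) (h : F1Dat P c ω m S y0 ρ Z) :
    ∀ a ∈ S, ∀ b ∈ S, a ≠ b → Disjoint (Z a) (Z b) := by
  intro a ha b hb hab
  rw [Finset.disjoint_left]
  intro i hi hi'
  have a1 := t12 P
  have a2 := t2_small P
  have a4 := P.r_big
  obtain ⟨t, ht, b1, b2, b3⟩ := h.above a ha i hi
  obtain ⟨t', ht', b4, b5, b6⟩ := h.above b hb i hi'
  simp only [sub_re, sub_im] at b1 b2 b3 b4 b5 b6
  rw [abs_le] at b1 b4
  obtain ⟨s, hs, s', hs', h0, d1, d2⟩ := back L P (h.wray a ha) (h.wray b hb) ht ht'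
    (by rw [sub_re]; exact abs_le.2 ⟨by linarith [b1.1, b4.2], by linarith [b1.2, b4.1]⟩)
    (by rw [sub_im]; exact abs_le.2 ⟨by linarith, by linarith⟩)
  rw [sub_re, abs_le] at d1
  rw [sub_im, abs_le] at d2
  have x1 := h.x0 a ha
  have x2 := h.x0 b hb
  obtain ⟨g1, -⟩ := prog L (h.wray a ha) (by linarith) (by linarith) (Nat.zero_le s) hs
  obtain ⟨g2, -⟩ := prog L (h.wray b hb) (by linarith) (by linarith) (Nat.zero_le s') hs'
  have hz : s = 0 ∧ s' = 0 := by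
    rcases h0 with rfl | rfl
    · have : (s' : ℝ) < 1 := by
        push_cast at g2
        linarith [d1.2]
      exact ⟨rfl, by simpa using this⟩
    · have : (s : ℝ) < 1 := by
        push_cast at g1
        linarith [d1.1]
      exact ⟨by simpa using this, rfl⟩
  obtain ⟨rfl, rfl⟩ := hz
  obtain ⟨y1, y2⟩ := abs_le.1 (h.y0 a ha)
  obtain ⟨y3, y4⟩ := abs_le.1 (h.y0 b hb)
  rcases lt_or_gt_of_ne hab with hlt | hlt
  · have : (a : ℝ) + 1 ≤ b := by exact_mod_cast hlt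
    have := mul_le_mul_of_nonneg_right this (by linarith : (0 : ℝ) ≤ P.r)
    linarith [d2.2]
  · have : (b : ℝ) + 1 ≤ a := by exact_mod_cast hlt
    have := mul_le_mul_of_nonneg_right this (by linarith : (0 : ℝ) ≤ P.r)
    linarith [d2.1]

/-! ### five -/

lemma five (L : L2 ω) (P : Pm) (c : ι → ℂ) (m y0 : ℝ) (S : Finset ℕ) (ρ : ℕ → Ry ι)
    (Z : ℕ → Finset ι) (Y : Finset ι) (h : F1Dat P c ω m S y0 ρ Z)
    (hY : Full P c ω (1 / 50) (8 * P.t1) Y) :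
    (S.filter (fun s => ¬ Disjoint (Z s) Y)).card ≤ 5 := by
  obtain ⟨σ, σ', T, w, -, e1, -, -, -, hd, hz⟩ := hY
  have a1 := t12 P
  have a2 := t2_small P
  have a4 := P.r_big
  have meet : ∀ s ∈ S.filter (fun s => ¬ Disjoint (Z s) Y), ∃ u ≤ T,
      |(σ.P c ω u).re + P.a + 15 / 2| ≤ 7 / 2 ∧ |(σ.P c ω u).im - (y0 + s * P.r)| ≤ P.r - 2 / 5 := by
    intro s hs
    obtain ⟨hs, hn⟩ := Finset.mem_filter.1 hs
    obtain ⟨i, hi, hi'⟩ := Finset.not_disjoint_iff.1 hn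
    obtain ⟨t, ht, b1, b2, b3⟩ := hz i hi'
    obtain ⟨t', ht', b4, b5, b6⟩ := h.above s hs i hi
    obtain ⟨d1, d2⟩ := shared b1 b2 b3 (hd t ht).2 b4 b5 b6
    obtain ⟨k, hk, u, hu, h0, d3, d4⟩ := back L P (h.wray s hs) w ht' ht d1 d2
    rw [sub_re, abs_le] at d3
    rw [sub_im, abs_le] at d4
    have x1 := h.x0 s hs
    obtain ⟨y1, y2⟩ := abs_le.1 (h.y0 s hs)
    refine ⟨u, hu, ?_⟩
    rcases h0 with rfl | rfl
    · exact ⟨abs_le.2 ⟨by linarith [d3.1], by linarith [d3.2]⟩,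
        abs_le.2 ⟨by linarith [d4.1], by linarith [d4.2]⟩⟩
    · obtain ⟨g1, -⟩ := prog L (h.wray s hs) (by linarith) (by linarith) (Nat.zero_le k) hk
      obtain ⟨g2, -⟩ := cen L w (by linarith) (Nat.zero_le T)
      have g3 : (0 : ℝ) ≤ k := Nat.cast_nonneg _
      push_cast at g1
      rw [abs_le] at g2
      have g4 := drift L (h.wray s hs) (by linarith) (by linarith) (Nat.zero_le _) hk
        (abs_le.2 ⟨by linarith, by linarith [d3.1, g2.1]⟩)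
      rw [abs_le] at g4
      exact ⟨abs_le.2 ⟨by linarith [d3.1], by linarith [g2.1]⟩,
        abs_le.2 ⟨by linarith [d4.1, g4.1], by linarith [d4.2, g4.2]⟩⟩
  have close : ∀ s ∈ S.filter (fun s => ¬ Disjoint (Z s) Y),
      ∀ s' ∈ S.filter (fun s => ¬ Disjoint (Z s) Y), s' ≤ s + 1 := by
    intro s hs s' hs'
    obtain ⟨u, hu, b1, b2⟩ := meet s hs
    obtain ⟨u', hu', b3, b4⟩ := meet s' hs'
    rw [abs_le] at b1 b2 b3 b4
    have g := drift L w (by linarith) (by linarith) hu hu'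
      (abs_le.2 ⟨by linarith [b1.2, b3.1], by linarith [b1.1, b3.2]⟩)
    rw [abs_le] at g
    by_contra hc
    have : (s : ℝ) + 2 ≤ s' := by exact_mod_cast (by omega : s + 2 ≤ s')
    have := mul_le_mul_of_nonneg_right this (by linarith : (0 : ℝ) ≤ P.r)
    linarith [b2.2, b4.1, g.2]
  rcases (S.filter (fun s => ¬ Disjoint (Z s) Y)).eq_empty_or_nonempty with he | ⟨s0, hs0⟩
  · rw [he]
    simp
  · have hsub : S.filter (fun s => ¬ Disjoint (Z s) Y) ⊆ Finset.Icc (s0 - 1) (s0 + 1) := by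
      intro s hs
      have h1 := close s hs s0 hs0
      have h2 := close s0 hs0 s hs
      rw [Finset.mem_Icc]
      omega
    refine (Finset.card_le_card hsub).trans ?_
    rw [Nat.card_Icc]
    omega

end Conf

theorem confS (hω : Nm ω) (L : L2 ω) : ConfS ω :=
  ⟨Conf.wide L, Conf.high hω L, Conf.rows L, Conf.five L⟩

end Pool.Agent.MP_c59ecb_co.sh

end MrgPart0

-- ======== part 1: formerly Pool.Agent.MP_c59ecb_co.sh.Off
section MrgPart1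

/-! Relative position of transversals. -/

set_option autoImplicit false

namespace Pool.Agent.MP_c59ecb_co.sh

open MeasureTheory Complex Pool.Agent.MP_c59ecb_co.h76

variable {ι : Type} [Fintype ι] [DecidableEq ι] {ω : ι → ℂ}

namespace OffR

open Conf

/-! ### numbers -/

lemma th1_pos (P : Pm) : 0 < P.th1 := P.mn_pos _ _

lemma th1_le (P : Pm) : P.th1 ≤ P.t1 := P.mn_mono (by norm_num) (by norm_num)

lemma r_t1 (P : Pm) : (P.r : ℝ) * P.t1 ≤ 1 / 1000 := by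
  have h1 : P.mn 30 0 * P.mn 9 5 = P.mn 39 5 := P.mn_mul' rfl rfl
  have h2 := P.mn_small (a := 39) (j := 5) (by norm_num) (by norm_num)
  have h3 := P.mn_pos 39 5
  rw [P.r_eq, h1]
  linarith

lemma n_big (P : Pm) : (10 : ℝ) ^ 30 ≤ P.n := by
  have h1 := P.r_le_n
  have h2 := P.r_big
  linarith

lemma vt_dl (P : Pm) : 2 * P.vt ≤ P.dl := by
  linarith [P.mn_le (a := 0) (j := 11) (b := -6) (k := 10) (by norm_num) (by norm_num),
    P.mn_pos 0 11]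

lemma th1_sq (P : Pm) : 4 * P.th1 ^ 2 ≤ P.e := by
  rw [P.mn_sq]
  linarith [P.mn_le (a := 2 * 3) (j := 2 * 10) (b := -1) (k := 0) (by norm_num) (by norm_num),
    P.mn_pos (2 * 3) (2 * 10)]

lemma err_le (P : Pm) : 2 * P.t1 + P.ε + 4 * P.th1 + P.vt + P.ell * P.vt + P.La1 * P.vt ≤
    P.e * (P.ell * P.dl) := by
  have h1 : P.mn (-28) (-10) * P.mn 0 11 = P.mn (-28) 1 := P.mn_mul' rfl rfl
  have h2 : P.mn 67 (-10) * P.mn 0 11 = P.mn 67 1 := P.mn_mul' rfl rfl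
  have h3 : P.mn (-28) (-10) * P.mn (-7) 10 = P.mn (-35) 0 := P.mn_mul' rfl rfl
  have h4 : P.mn (-1) 0 * P.mn (-6) 10 = P.mn (-7) 10 := P.mn_mul' rfl rfl
  have h5 := mul_le_mul_of_nonneg_right P.ell_le (P.mn_nonneg 0 11)
  have h6 := mul_le_mul_of_nonneg_right P.ell_ge (P.mn_nonneg (-7) 10)
  have e1 : P.e * (P.ell * P.dl) = P.ell * P.mn (-7) 10 := by rw [← h4]; ring
  have g1 := P.mn_le (a := 9) (j := 5) (b := -35) (k := 0) (by norm_num) (by norm_num)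
  have g2 := P.mn_le (a := 0) (j := 100) (b := -35) (k := 0) (by norm_num) (by norm_num)
  have g3 := P.mn_le (a := 3) (j := 10) (b := -35) (k := 0) (by norm_num) (by norm_num)
  have g4 := P.mn_le (a := 0) (j := 11) (b := -35) (k := 0) (by norm_num) (by norm_num)
  have g5 := P.mn_le (a := -28) (j := 1) (b := -35) (k := 0) (by norm_num) (by norm_num)
  have g6 := P.mn_le (a := 67) (j := 1) (b := -35) (k := 0) (by norm_num) (by norm_num)
  have g7 := P.eps_le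
  have g8 := P.mn_pos (-35) 0
  rw [e1, h2]
  linarith

/-! ### the middle of a transversal -/

lemma mid (L : L2 ω) {P : Pm} {c : ι → ℂ} {m : ℝ} {σ ρ : Ry ι} {k : ℕ}
    (hσ : Sig P (rt I c) ω m σ) (hk : k ≤ P.T) (h : Trans P c ω σ k ρ) :
    |(ρ.P c ω P.T0).re - (σ.Q c ω k).re - (1 / 2 - σ.V k)| ≤ 2 * P.th1 ∧
      |(ρ.P c ω P.T0).im - (σ.Q c ω k).im - (1 / 2 + ρ.V P.T0)| ≤ 2 * P.th1 := by
  have := L.path.start c _ _ _ _ (ρ.V P.T0) _ k σ hσ.wray hk h.v0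
  rw [← h.mid, sub_re, sub_im] at this
  exact this

lemma off (L : L2 ω) (P : Pm) (c : ι → ℂ) (m : ℝ) (σ ρ ρ' : Ry ι) (k k' : ℕ)
    (hσ : Sig P (rt I c) ω m σ) (hk : k < k') (hk' : k' ≤ P.T) (h : Trans P c ω σ k ρ)
    (h' : Trans P c ω σ k' ρ') : Off P c ω k k' ρ ρ' := by
  have a1 := t12 P
  have a2 := t2_small P
  have a3 := th1_le P
  obtain ⟨b1, b2⟩ := mid L hσ (by omega) h
  obtain ⟨b3, b4⟩ := mid L hσ hk' h'
  obtain ⟨b5, b6⟩ := L.pth.geo _ _ _ k k' (L.path.pth c _ _ _ _ _ σ hσ.wray) hk.le hk'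
  have v1 := h.v0
  have v2 := h'.v0
  have v3 := hσ.wray.v k (by omega)
  have v4 := hσ.wray.v k' hk'
  rw [sub_re] at b5
  rw [sub_im] at b6
  rw [abs_le] at b1 b2 b3 b4 b5 b6 v1 v2 v3 v4
  unfold Off
  rw [sub_re, sub_im]
  exact ⟨abs_le.2 ⟨by linarith [b2.1, b4.2, b6.2, v1.1, v2.2], by linarith [b2.2, b4.1, b6.1, v1.2, v2.1]⟩,
    abs_le.2 ⟨by linarith [b1.1, b3.2, b5.2, v3.2, v4.1], by linarith [b1.2, b3.1, b5.1, v3.1, v4.2]⟩⟩

/-! ### the congruence -/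

omit [Fintype ι] [DecidableEq ι] in
lemma Q_re (σ : Ry ι) (c : ι → ℂ) (k : ℕ) : (σ.Q c ω k).re = (σ.P (rt I c) ω k).im := by
  simp [Ry.Q]

omit [Fintype ι] [DecidableEq ι] in
lemma ex_re {c : ι → ℂ} {i : ι} (h : ω i = 1) (v : ℝ) : (ex c ω i v).re = (c i).re + 1 / 2 := by
  simp [ex, h]

/-- horizontal progress and its loss -/
lemma loss (L : L2 ω) {c : ι → ℂ} {R w τ G : ℝ} {T : ℕ} {ρ : Ry ι} (h : Wray c ω R w τ T G ρ)
    {a b : ℕ} (hab : a ≤ b) (hb : b ≤ T) :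
    |(ρ.P c ω b).re - (ρ.P c ω a).re - ((b : ℝ) - a) +
      ∑ j ∈ Finset.Ioc a b, gh (ω (ρ.J j))| ≤ G := by
  have h1 := (abs_re_le_norm _).trans ((L.w.pos c R w τ G T ρ a b h hab hb).trans
    (h.sub (fun k hk => by simp at hk; omega)))
  have h2 : ∑ j ∈ Finset.Ioc a b, gh (ω (ρ.J j)) =
      ((b : ℝ) - a) - ∑ j ∈ Finset.Ioc a b, (ω (ρ.J j)).re := by
    simp only [gh, Finset.sum_sub_distrib, Finset.sum_const, Nat.card_Ioc, nsmul_eq_mul, mul_one,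
      Nat.cast_sub hab]
  rw [sub_re, sub_re, re_sum] at h1
  rw [h2]
  obtain ⟨b1, b2⟩ := abs_le.1 h1
  exact abs_le.2 ⟨by linarith, by linarith⟩

/-- both ends of a transversal lie in the frame -/
lemma ends (L : L2 ω) {P : Pm} {c : ι → ℂ} {m : ℝ} {σ ρ : Ry ι} {k : ℕ} (hF : P.Fr c ω)
    (hσ : Sig P (rt I c) ω m σ) (hk : k ≤ P.T) (h : Trans P c ω σ k ρ) :
    Lat P.a ((ρ.P c ω 0).re - 1 / 2) ∧ Lat P.a ((ρ.P c ω (2 * P.T0)).re - 1 / 2) := by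
  have a1 := t12 P
  have a2 := t2_small P
  have a3 := th1_le P
  have a4 := n_big P
  have a5 := P.two_a
  have a6 := P.eps_small
  obtain ⟨b1, -⟩ := mid L hσ hk h
  have b2 := hσ.py k hk
  rw [← Q_re] at b2
  have v3 := hσ.wray.v k hk
  obtain ⟨g1, -⟩ := prog L h.wray (by linarith) (by linarith) (Nat.zero_le P.T0) (by omega)
  obtain ⟨g2, -⟩ := prog L h.wray (by linarith) (by linarith) (by omega : P.T0 ≤ 2 * P.T0) le_rfl
  obtain ⟨g3, -⟩ := cen L h.wray (by linarith) (Nat.zero_le _)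
  obtain ⟨g4, -⟩ := cen L h.wray (by linarith) le_rfl
  push_cast at g1 g2
  rw [P.T0_eq] at g1 g2
  rw [abs_le] at b1 b2 v3 g3 g4
  obtain ⟨o1, o2, -⟩ := hF.one.out (ρ.J 0) (Or.inl (le_abs.2 (Or.inr
    (by linarith [b1.2, b2.2, v3.1, g3.2]))))
  obtain ⟨o3, o4, -⟩ := hF.one.out (ρ.J (2 * P.T0)) (Or.inl (le_abs.2 (Or.inl
    (by linarith [b1.1, b2.1, v3.2, g4.1]))))
  unfold Ry.P
  rw [ex_re o1, ex_re o3, add_sub_cancel_right, add_sub_cancel_right]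
  exact ⟨o2, o4⟩

/-- the row on a quiet tilted window -/
lemma window (hω : Nm ω) (L : L2 ω) {P : Pm} {d : ι → ℂ} {m : ℝ} {σ : Ry ι} {k l : ℕ}
    (hσ : Sig P d ω m σ) (hk : k + l ≤ P.T) (hg : ∑ j ∈ Finset.Icc k (k + l), σ.g j ≤ P.vt)
    (hp : 2 * P.dl ≤ |σ.p ω k|) :
    |σ.V (k + l) - σ.V k| ≤ P.La1 * P.vt ∧
      |(σ.P d ω (k + l)).im - (σ.P d ω k).im - l * σ.p ω k| ≤
        P.vt + l * P.vt + l * |σ.p ω k| ^ 3 := by
  have a1 := t12 P
  have a2 := t2_small P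
  have a3 := th1_le P
  have a4 := vt_dl P
  have a5 : 0 < P.vt := P.mn_pos _ _
  have w := hσ.wray
  have hsub : ∀ s : Finset ℕ, (∀ j ∈ s, k ≤ j ∧ j ≤ k + l) → ∑ j ∈ s, σ.g j ≤ P.vt := fun s hs =>
    (Finset.sum_le_sum_of_subset_of_nonneg (fun j hj => Finset.mem_Icc.2 (hs j hj))
      fun j _ _ => w.g0 j).trans hg
  have hang : ∀ j, k ≤ j → j ≤ k + l → ‖ω (σ.J j) - ω (σ.J k)‖ ≤ P.vt := fun j h1 h2 =>
    (L.w.ang d _ _ _ _ _ σ k j w h1 (by omega)).trans (hsub _ fun i hi => by simp at hi; omega)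
  have hkT : k ≤ P.T := by omega
  have ht : ∀ j ≤ P.T, ‖ω (σ.J j) - 1‖ ≤ 1 / 100 := fun j hj => (w.tilt j hj).trans (by linarith)
  constructor
  · have hV : ∀ i ≤ l, |σ.V (k + i) - σ.V k| ≤ P.La1 * ∑ j ∈ Finset.Ico k (k + i), σ.g j := by
      intro i hi
      induction i with
      | zero => simp
      | succ i ih =>
        have h1 := ih (by omega)
        have h2 : σ.g (k + i) ≤ P.vt := by
          simpa using hsub {k + i} (fun j hj => by simp at hj; omega)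
        have h3 := (L.tilt.lip _ _ (hω.1 _) (hω.1 _) (ht (k + i) (by omega)) (ht k hkT)).1
        have h4 := hang (k + i) (by omega) (by omega)
        have h5 : |σ.p ω k| - |σ.p ω (k + i)| ≤ |σ.p ω (k + i) - σ.p ω k| := by
          rw [abs_sub_comm]
          exact abs_sub_abs_le_abs_sub _ _
        have h6 := hσ.str (k + i) (by omega) h2 (by unfold Ry.p at *; linarith)
        rw [← add_assoc, Finset.sum_Ico_succ_top (by omega), mul_add]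
        have h7 := abs_sub_le (σ.V (k + i + 1)) (σ.V (k + i)) (σ.V k)
        linarith
    exact (hV l le_rfl).trans (mul_le_mul_of_nonneg_left
      (hsub _ fun i hi => by simp at hi; omega) (P.mn_nonneg _ _))
  · have h1 := (abs_im_le_norm _).trans ((L.w.pos d _ _ _ _ _ σ k (k + l) w (by omega) hk).trans
      (hsub _ fun i hi => by simp at hi; omega))
    rw [sub_im, sub_im, im_sum] at h1
    obtain ⟨-, -, -, h2, -⟩ := L.tilt.one _ (hω.1 (σ.J k)) (ht k hkT)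
    have h3 : |∑ j ∈ Finset.Ioc k (k + l), ((ω (σ.J j)).im - (ω (σ.J k)).im)| ≤ l * P.vt := by
      refine (Finset.abs_sum_le_sum_abs _ _).trans ?_
      refine (Finset.sum_le_card_nsmul _ _ P.vt fun j hj => ?_).trans (by simp)
      rw [Finset.mem_Ioc] at hj
      rw [← sub_im]
      exact (abs_im_le_norm _).trans (hang j hj.1.le hj.2)
    rw [Finset.sum_sub_distrib, Finset.sum_const, Nat.card_Ioc, Nat.add_sub_cancel_left,
      nsmul_eq_mul] at h3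
    have h4 : |(l : ℝ) * σ.p ω k - l * (ω (σ.J k)).im| ≤ l * |σ.p ω k| ^ 3 := by
      rw [← mul_sub, abs_mul, Nat.abs_cast]
      exact mul_le_mul_of_nonneg_left h2 (Nat.cast_nonneg _)
    rw [abs_le] at h1 h3 h4
    exact abs_le.2 ⟨by linarith [h1.1, h3.1, h4.2], by linarith [h1.2, h3.2, h4.1]⟩

lemma cong (hω : Nm ω) (L : L2 ω) (P : Pm) (c : ι → ℂ) (m : ℝ) (σ ρ ρ' : Ry ι) (k : ℕ)
    (hF : P.Fr c ω) (hσ : Sig P (rt I c) ω m σ) (hk : k + P.ell ≤ P.T) (h : Trans P c ω σ k ρ)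
    (h' : Trans P c ω σ (k + P.ell) ρ') (hg : ∑ j ∈ Finset.Icc k (k + P.ell), σ.g j ≤ P.vt)
    (hp : 2 * P.dl ≤ |σ.p ω k|) :
    (∃ z : ℤ, |ρ'.Dp P ω - ρ.Dp P ω - P.ell * σ.p ω k - z| ≤ P.e * (P.ell * |σ.p ω k|)) ∧
      ∃ z : ℤ, |ρ'.Dm P ω - ρ.Dm P ω + P.ell * σ.p ω k - z| ≤ P.e * (P.ell * |σ.p ω k|) := by
  have a1 := t12 P
  have a2 := t2_small P
  have a3 := th1_le P
  have hkT : k ≤ P.T := by omega
  obtain ⟨e1, e2⟩ := ends L hF hσ hkT h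
  obtain ⟨e3, e4⟩ := ends L hF hσ hk h'
  obtain ⟨z, hz⟩ := e3.sub e1
  obtain ⟨z', hz'⟩ := e4.sub e2
  obtain ⟨b1, -⟩ := mid L hσ hkT h
  obtain ⟨b2, -⟩ := mid L hσ hk h'
  rw [Q_re] at b1 b2
  obtain ⟨b3, b4⟩ := window hω L hσ hk hg hp
  have l1 := loss L h.wray (Nat.zero_le P.T0) (by omega)
  have l2 := loss L h.wray (by omega : P.T0 ≤ 2 * P.T0) le_rfl
  have l3 := loss L h'.wray (Nat.zero_le P.T0) (by omega)
  have l4 := loss L h'.wray (by omega : P.T0 ≤ 2 * P.T0) le_rfl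
  have q1 := err_le P
  have q2 : |σ.p ω k| ≤ 101 / 100 * P.th1 :=
    (L.tilt.one _ (hω.1 (σ.J k)) ((hσ.wray.tilt k hkT).trans (by linarith))).1.trans
      (by linarith [hσ.wray.tilt k hkT])
  have q3 : |σ.p ω k| ^ 2 ≤ P.e / 2 := by
    have := pow_le_pow_left₀ (abs_nonneg _) q2 2
    have := th1_sq P
    nlinarith [sq_nonneg P.th1]
  have q4 : (P.ell : ℝ) * |σ.p ω k| ^ 3 ≤ P.e * (P.ell * |σ.p ω k|) / 2 := by
    have := mul_le_mul_of_nonneg_left q3 (mul_nonneg (Nat.cast_nonneg P.ell) (abs_nonneg (σ.p ω k)))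
    linarith
  have q5 : P.e * (P.ell * P.dl) ≤ P.e * (P.ell * |σ.p ω k|) / 2 := by
    have := mul_le_mul_of_nonneg_left hp (mul_nonneg (P.mn_nonneg (-1) 0) (Nat.cast_nonneg P.ell))
    linarith
  unfold Ry.Dp Ry.Dm
  rw [abs_le] at hz hz' b1 b2 b3 b4 l1 l2 l3 l4
  refine ⟨⟨-z', ?_⟩, z, ?_⟩
  · push_cast
    exact abs_le.2 ⟨by linarith [hz'.2, b1.2, b2.1, b3.2, b4.1, l2.2, l4.1],
      by linarith [hz'.1, b1.1, b2.2, b3.1, b4.2, l2.1, l4.2]⟩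
  · exact abs_le.2 ⟨by linarith [hz.1, b1.1, b2.2, b3.1, b4.2, l1.2, l3.1],
      by linarith [hz.2, b1.2, b2.1, b3.2, b4.1, l1.1, l3.2]⟩

/-! ### disjointness -/

lemma apart (L : L2 ω) {P : Pm} {c : ι → ℂ} {m : ℝ} {σ ρ ρ' : Ry ι} {k k' t t' : ℕ}
    (hσ : Sig P (rt I c) ω m σ) (hk : k ≤ P.T) (hk' : k' ≤ P.T) (h : Trans P c ω σ k ρ)
    (h' : Trans P c ω σ k' ρ') (hr : (P.r : ℝ) ≤ |(k : ℝ) - k'|)
    (ho : |(ρ.P c ω P.T0 - ρ'.P c ω P.T0).re| ≤ P.n / 10) (htt : t ≤ t') (ht' : t' ≤ 2 * P.T0)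
    (hx : |(ρ'.P c ω t' - ρ.P c ω t).re| ≤ 1 / 50)
    (hy : |(ρ'.P c ω t' - ρ.P c ω t).im| ≤ P.r - 59 / 100) : False := by
  have a1 := t12 P
  have a2 := t2_small P
  have a3 := th1_le P
  have a4 := n_big P
  have a5 := t1_pos P
  have a6 := r_t1 P
  have a7 := P.r_big
  by_cases hc : t + P.T0 < t'
  · obtain ⟨g1, -⟩ := prog L h.wray (by linarith) (by linarith) (a := t) (b := P.T0) (by omega)
      (by omega)
    obtain ⟨g2, -⟩ := prog L h'.wray (by linarith) (by linarith) (a := P.T0) (b := t') (by omega) ht'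
    have g3 : (t : ℝ) + P.T0 ≤ t' := by exact_mod_cast hc.le
    have g4 := P.T0_eq
    rw [sub_re, abs_le] at hx ho
    linarith [hx.2, ho.2]
  obtain ⟨u, rfl⟩ := Nat.exists_eq_add_of_le htt
  obtain ⟨g1, g2⟩ := pr L P h.wray.w0 h'.wray.w0 a1 a1 (by linarith) (by linarith)
    (t := t) (t' := t + u) (s := P.T0) (s' := P.T0 + u) (by omega) ht' (by omega) (by omega)
    (by omega) (by linarith) (by linarith)
  have e : ex c ω (σ.J k) (ρ.V P.T0) = ρ.P c ω P.T0 := by rw [← h.mid]; rfl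
  rw [abs_le] at g1 g2 hx hy
  have key := L.path.startgeo c _ _ _ _ _ _ _ _ (2 * P.t1) (ρ.V P.T0) (P.r - 58 / 100) _ P.T0 k k' u σ
    (ρ'.tail P.T0) hσ.wray (h'.wray.tail (by omega)) (by linarith) (by linarith) (by linarith) hk hk'
    (by omega) h'.mid h'.v0 h.v0
    (by
      rw [e]
      change |(ρ'.P c ω (P.T0 + u) - ρ.P c ω P.T0).re| ≤ 2
      exact abs_le.2 ⟨by linarith [g1.1, hx.1], by linarith [g1.2, hx.2]⟩)
    (by
      rw [e]
      change |(ρ'.P c ω (P.T0 + u) - ρ.P c ω P.T0).im| ≤ _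
      exact abs_le.2 ⟨by linarith [g2.1, hy.1], by linarith [g2.2, hy.2]⟩)
  have := mul_le_mul_of_nonneg_right hr (by linarith : 0 ≤ 1 - 2 * (2 * P.t1))
  linarith

lemma disj (L : L2 ω) (P : Pm) (c : ι → ℂ) (m : ℝ) (σ ρ ρ' : Ry ι) (k k' : ℕ) (Z Z' : Finset ι)
    (hσ : Sig P (rt I c) ω m σ) (hk : k + P.r ≤ k') (hk' : k' ≤ P.T) (h : Trans P c ω σ k ρ)
    (h' : Trans P c ω σ k' ρ') (hA : Above c ω P.r ρ (2 * P.T0) Z)
    (hA' : Above c ω P.r ρ' (2 * P.T0) Z') : Disjoint Z Z' := by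
  rw [Finset.disjoint_left]
  intro i hi hi'
  have a1 := t12 P
  have a2 := t2_small P
  have a3 := th1_le P
  have a4 := n_big P
  have a5 := P.r_big'
  obtain ⟨t, ht, b1, b2, b3⟩ := hA i hi
  obtain ⟨t', ht', b4, b5, b6⟩ := hA' i hi'
  obtain ⟨-, o⟩ := off L P c m σ ρ ρ' k k' hσ (by omega) hk' h h'
  have k1 : (k : ℝ) + P.r ≤ k' := by exact_mod_cast hk
  have k2 : (k' : ℝ) ≤ P.T := by exact_mod_cast hk'
  have k3 : (0 : ℝ) ≤ k := Nat.cast_nonneg _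
  have k4 : (0 : ℝ) ≤ P.r := Nat.cast_nonneg _
  have k5 := P.T_eq
  have k6 := P.T1_le
  have k7 : 2 * P.th1 * ((k' : ℝ) - k) ≤ 1 / 100 * ((k' : ℝ) - k) :=
    mul_le_mul_of_nonneg_right (by linarith) (by linarith)
  have ho : |(ρ.P c ω P.T0 - ρ'.P c ω P.T0).re| ≤ P.n / 10 := by linarith
  simp only [sub_re, sub_im] at b1 b2 b3 b4 b5 b6
  rw [abs_le] at b1 b4
  rcases le_total t t' with htt | htt
  · exact apart L hσ (by omega) hk' h h' (le_abs.2 (Or.inr (by linarith))) ho htt ht'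
      (by rw [sub_re]; exact abs_le.2 ⟨by linarith [b1.1, b4.2], by linarith [b1.2, b4.1]⟩)
      (by rw [sub_im]; exact abs_le.2 ⟨by linarith, by linarith⟩)
  · exact apart L hσ hk' (by omega) h' h (le_abs.2 (Or.inl (by linarith)))
      (by rwa [sub_re, abs_sub_comm, ← sub_re]) htt ht
      (by rw [sub_re]; exact abs_le.2 ⟨by linarith [b1.2, b4.1], by linarith [b1.1, b4.2]⟩)
      (by rw [sub_im]; exact abs_le.2 ⟨by linarith, by linarith⟩)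

end OffR

theorem offS (hω : Nm ω) (L : L2 ω) : OffS ω := ⟨OffR.off L, OffR.cong hω L, OffR.disj L⟩

end Pool.Agent.MP_c59ecb_co.sh

end MrgPart1

-- marker of a merged file
example : 731051 + 703895 = 731051 + 703895 := rfl
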