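import Mathlib.Analysis.SpecialFunctions.Integrals.Basic
import Mathlib.MeasureTheory.Measure.Lebesgue.Integral
import Pool.Agent.MP_c59ecb_co.sh.Side

-- ======== part 0: formerly Pool.Agent.MP_c59ecb_co.sh.Piece
section MrgPart0

/-! The overlap of two neighbours. -/

set_option autoImplicit false

namespace Pool.Agent.MP_c59ecb_co.sh

open MeasureTheory Complex Pool.Agent.MP_c59ecb_co.h76

variable {ι : Type} [Fintype ι] [DecidableEq ι] {ω : ι → ℂ}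

namespace Piece

lemma loc_re (c w p : ℂ) : (loc c w p).re = (p.re - c.re) * w.re + (p.im - c.im) * w.im := by
  simp [loc]

lemma loc_im (c w p : ℂ) : (loc c w p).im = (p.im - c.im) * w.re - (p.re - c.re) * w.im := by
  simp [loc]
  ring

lemma loc_one (p : ℂ) : loc 0 1 p = p := by simp [loc]

/-- the centre line at height `y` -/
noncomputable def xc (c w : ℂ) (y : ℝ) : ℝ := c.re - tl w * (y - c.im)

lemma loc_xc {w : ℂ} (h : w.re ≠ 0) (c p : ℂ) : (loc c w p).re = w.re * (p.re - xc c w p.im) := by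
  rw [loc_re, xc, tl]
  field_simp
  ring

/-- the facts about an almost horizontal direction -/
lemma dir {w : ℂ} {δ : ℝ} (h : ‖w‖ = 1) (h1 : ‖w - 1‖ ≤ δ) (h2 : δ ≤ 1 / 1000) :
    99 / 100 ≤ w.re ∧ w.re ≤ 1 ∧ |w.im| ≤ δ ∧ |tl w| ≤ 1 / 500 ∧ 1 / 2 ≤ 1 / (2 * w.re) ∧
      1 / (2 * w.re) ≤ 51 / 100 := by
  have a1 := abs_le.1 ((abs_re_le_norm _).trans h1)
  have a2 := (abs_im_le_norm _).trans h1
  rw [sub_re, one_re] at a1
  rw [sub_im, one_im, sub_zero] at a2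
  have a3 := re_le_of_unit h
  have a4 : 0 < w.re := by linarith
  refine ⟨by linarith, a3, a2, ?_, ?_, ?_⟩
  · rw [tl, abs_div, abs_of_pos a4, div_le_iff₀ a4]
    linarith
  · exact one_div_le_one_div_of_le (by positivity) (by linarith)
  · rw [div_le_iff₀ (by positivity)]
    linarith

lemma xc_near {c w : ℂ} {y : ℝ} (h : |tl w| ≤ 1 / 500) (hy : |y - c.im| ≤ 1 / 2) :
    |xc c w y - c.re| ≤ 1 / 1000 := by
  rw [xc, sub_sub_cancel_left, abs_neg, abs_mul]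
  calc |tl w| * |y - c.im| ≤ 1 / 500 * (1 / 2) := by gcongr
    _ = 1 / 1000 := by norm_num

lemma pows {lam : ℝ} (h0 : 0 < lam) (h1 : lam ≤ 1 / 1000) :
    0 < lam ^ 2 ∧ lam ^ 2 ≤ 1 / 1000000 ∧ 0 < lam ^ 4 ∧ lam ^ 4 ≤ lam ^ 2 / 1000000 := by
  have a1 : lam ^ 2 ≤ 1 / 1000000 := by nlinarith
  have a2 : 0 < lam ^ 2 := by positivity
  refine ⟨a2, a1, by positivity, ?_⟩
  rw [show lam ^ 4 = lam ^ 2 * lam ^ 2 by ring]
  nlinarith

/-- a third square that reaches the height of `i` is far from `i` horizontally -/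
lemma far (hω : Nm ω) {c : ι → ℂ} {i k : ι} {lam : ℝ} (h0 : 0 < lam) (h1 : lam ≤ 1 / 1000)
    (hik : i ≠ k) (hk : ‖ω k - 1‖ ≤ 3 * (lam ^ 4 / 1000)) (hi : ‖ω i - 1‖ ≤ lam ^ 4 / 1000)
    (ho : ov c ω k ≤ lam ^ 4 / 1000)
    (hy : |(c k).im - (c i).im| ≤ 1 + 3 * (lam ^ 4 / 1000) - lam ^ 2) :
    9 / 10 ≤ |(c k).re - (c i).re| := by
  obtain ⟨p1, p2, p3, p4⟩ := pows h0 h1
  by_contra hn
  rw [not_le] at hn
  have h2 := inter_ge (O := 0) (c := c k) (c' := c i) (ζ := 1) (μ := 3 * (lam ^ 4 / 1000))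
    (a := lam ^ 4 / 1000) norm_one hk (by linarith) (by positivity)
    ((inter_le hω.1 hik).trans (ENNReal.ofReal_le_ofReal ho)) (by rw [loc_one, loc_one]; linarith)
  rw [loc_one, loc_one] at h2
  have h3 : 1 / 20 * (lam ^ 2 / 2) ≤ (1 - 2 * (3 * (lam ^ 4 / 1000)) - |(c k).re - (c i).re|) *
      (1 - 2 * (3 * (lam ^ 4 / 1000)) - |(c k).im - (c i).im|) :=
    mul_le_mul (by linarith) (by linarith) (by positivity) (by linarith)
  linarith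

omit [Fintype ι] [DecidableEq ι] in
lemma dd_eq (c : ι → ℂ) (i j : ι) (y : ℝ) : dd c ω i j y =
    (xc (c i) (ω i) y + 1 / (2 * (ω i).re)) - (xc (c j) (ω j) y - 1 / (2 * (ω j).re)) := rfl

lemma nonneg (hω : Nm ω) {c : ι → ℂ} {O i j : ι} {ϱ μ lam y : ℝ} (hC : Calm c ω O ϱ μ)
    (h0 : 0 < lam) (h1 : lam ≤ 1 / 1000) (hμ : μ ≤ lam ^ 4 / 1000) (hi : ‖c i - c O‖ ≤ ϱ - 3)
    (ωi : ‖ω i - 1‖ ≤ lam ^ 4 / 1000) (ωj : ‖ω j - 1‖ ≤ lam ^ 4 / 1000)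
    (hx : |(c j).re - (c i).re - 1| ≤ lam ^ 4) (yi : |y - (c i).im| ≤ 1 / 2 - lam ^ 2)
    (yj : |y - (c j).im| ≤ 1 / 2 - lam ^ 2) : 0 ≤ dd c ω i j y := by
  obtain ⟨p1, p2, p3, p4⟩ := pows h0 h1
  obtain ⟨a1, -, -, a4, a5, a6⟩ := dir (hω.1 i) ωi (by linarith)
  obtain ⟨b1, -, -, b4, b5, b6⟩ := dir (hω.1 j) ωj (by linarith)
  have c1 := abs_le.1 (xc_near (c := c i) (y := y) a4 (by linarith))
  have c2 := abs_le.1 (xc_near (c := c j) (y := y) b4 (by linarith))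
  have c3 := abs_le.1 hx
  by_contra hn
  rw [not_le, dd_eq] at hn
  set x := ((xc (c i) (ω i) y + 1 / (2 * (ω i).re)) + (xc (c j) (ω j) y - 1 / (2 * (ω j).re))) / 2
    with hxd
  have d1 : ‖(⟨x, y⟩ : ℂ) - c i‖ ≤ 2 := by
    refine (norm_le_abs_re_add_abs_im _).trans ?_
    have : |x - (c i).re| ≤ 1 := abs_le.2 ⟨by linarith, by linarith⟩
    simp only [sub_re, sub_im]
    linarith
  have d2 : ‖(⟨x, y⟩ : ℂ) - c O‖ ≤ ϱ - 1 := by
    linarith [norm_sub_le_norm_sub_add_norm_sub (⟨x, y⟩ : ℂ) (c i) (c O)]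
  obtain ⟨k, hk⟩ := hC.cov _ (d2.trans (by linarith))
  have d3 : ‖c k - c O‖ ≤ ϱ := by
    have := norm_le_of_mem (hω.1 k) hk
    rw [norm_sub_rev] at this
    linarith [norm_sub_le_norm_sub_add_norm_sub (c k) (⟨x, y⟩ : ℂ) (c O)]
  have d4 : ‖ω k - 1‖ ≤ 3 * (lam ^ 4 / 1000) := by
    have e1 := hC.ang k d3
    have e2 := hC.ang i (by linarith)
    rw [norm_sub_rev] at e2
    linarith [norm_sub_le_norm_sub_add_norm_sub (ω k) (ω O) 1,
      norm_sub_le_norm_sub_add_norm_sub (ω O) (ω i) 1]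
  have hik : i ≠ k := by
    rintro rfl
    have e1 := (abs_le.1 hk.1).2
    rw [loc_xc (by linarith)] at e1
    have e2 : (ω i).re * (1 / (2 * (ω i).re)) < (ω i).re * (x - xc (c i) (ω i) y) :=
      mul_lt_mul_of_pos_left (by linarith) (by linarith)
    have e3 : (ω i).re * (1 / (2 * (ω i).re)) = 1 / 2 := by
      have : (ω i).re ≠ 0 := by linarith
      field_simp
    exact absurd (e3 ▸ e2) (not_lt.2 e1)
  have hjk : j ≠ k := by
    rintro rfl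
    have e1 := (abs_le.1 hk.1).1
    rw [loc_xc (by linarith)] at e1
    have e2 : (ω j).re * (x - xc (c j) (ω j) y) < (ω j).re * (-(1 / (2 * (ω j).re))) :=
      mul_lt_mul_of_pos_left (by linarith) (by linarith)
    have e3 : (ω j).re * (-(1 / (2 * (ω j).re))) = -(1 / 2) := by
      have : (ω j).re ≠ 0 := by linarith
      field_simp
    exact absurd (e3 ▸ e2) (not_lt.2 e1)
  obtain ⟨f1, f2⟩ := out_of_mem (hω.1 k) d4 hk
  rw [loc_re] at f1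
  rw [loc_im] at f2
  simp only [one_re, one_im, mul_one, mul_zero, add_zero, sub_zero] at f1 f2
  have ho := (hC.ovl k d3).trans hμ
  rw [abs_le] at f1 f2 yi yj
  have g1 := far hω h0 h1 hik d4 ωi ho (abs_le.2 ⟨by linarith, by linarith⟩)
  have g2 := far hω h0 h1 hjk d4 ωj ho (abs_le.2 ⟨by linarith, by linarith⟩)
  rcases le_abs.1 g1 with g1 | g1 <;> rcases le_abs.1 g2 with g2 | g2 <;> linarith

/-- the area between two lines -/
lemma area {S : Set ℂ} {f g : ℝ → ℝ} {A B y1 y2 : ℝ} (hf : Continuous f) (hg : Continuous g)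
    (h : ∀ y, g y - f y = A + B * y) (hy : y1 ≤ y2) (hle : ∀ y ∈ Set.Ioc y1 y2, f y ≤ g y)
    (hS : ∀ p : ℂ, p.im ∈ Set.Ioc y1 y2 → f p.im < p.re → p.re < g p.im → p ∈ S) :
    ENNReal.ofReal ((y2 - y1) * ((A + B * y1) + (A + B * y2)) / 2) ≤ volume S := by
  have h1 := volume_regionBetween_eq_integral (μ := volume) (s := Set.Ioc y1 y2)
    hf.integrableOn_Ioc hg.integrableOn_Ioc measurableSet_Ioc hle
  have h2 : ∫ y in Set.Ioc y1 y2, (g - f) y = (y2 - y1) * ((A + B * y1) + (A + B * y2)) / 2 := by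
    rw [← intervalIntegral.integral_of_le hy,
      show (g - f) = fun y => A + B * y from funext fun y => h y,
      intervalIntegral.integral_add (by simp) (Continuous.intervalIntegrable (by fun_prop) _ _),
      intervalIntegral.integral_const_mul, integral_id, intervalIntegral.integral_const,
      smul_eq_mul]
    ring
  have h3 := ((Measure.measurePreserving_swap (μ := (volume : Measure ℝ))
    (ν := (volume : Measure ℝ))).comp volume_preserving_equiv_real_prod).measure_preimage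
    (measurableSet_regionBetween hf.measurable hg.measurable
      (measurableSet_Ioc (a := y1) (b := y2))).nullMeasurableSet
  rw [← h2, ← h1, ← h3]
  exact measure_mono fun p hp => hS p hp.1 hp.2.1 hp.2.2

lemma im_le {c w p : ℂ} {lam δ : ℝ} (a1 : 99 / 100 ≤ w.re) (a2 : w.re ≤ 1) (a3 : |w.im| ≤ δ)
    (hδ : δ ≤ lam ^ 2 / 2) (hx : |p.re - c.re| ≤ 1) (hy : |p.im - c.im| ≤ 1 / 2 - lam ^ 2) :
    |(loc c w p).im| ≤ 1 / 2 - lam ^ 2 / 2 := by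
  rw [loc_im]
  refine (abs_sub _ _).trans ?_
  rw [abs_mul, abs_mul, abs_of_nonneg (by linarith : 0 ≤ w.re)]
  have h1 : |p.im - c.im| * w.re ≤ |p.im - c.im| * 1 := by gcongr
  have h2 : |p.re - c.re| * |w.im| ≤ 1 * δ := by gcongr
  linarith

lemma piece (hω : Nm ω) (c : ι → ℂ) (O i j : ι) (ϱ μ lam y1 y2 : ℝ) (hC : Calm c ω O ϱ μ)
    (h0 : 0 < lam) (h1 : lam ≤ 1 / 1000) (hμ : μ ≤ lam ^ 4 / 1000) (hi : ‖c i - c O‖ ≤ ϱ - 3)
    (hj : ‖c j - c O‖ ≤ ϱ - 3)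
    (ωi : ‖ω i - 1‖ ≤ lam ^ 4 / 1000) (ωj : ‖ω j - 1‖ ≤ lam ^ 4 / 1000)
    (hx : |(c j).re - (c i).re - 1| ≤ lam ^ 4) (hy : y1 ≤ y2)
    (i1 : |y1 - (c i).im| ≤ 1 / 2 - lam ^ 2) (i2 : |y2 - (c i).im| ≤ 1 / 2 - lam ^ 2)
    (j1 : |y1 - (c j).im| ≤ 1 / 2 - lam ^ 2) (j2 : |y2 - (c j).im| ≤ 1 / 2 - lam ^ 2) :
    0 ≤ dd c ω i j y1 ∧ 0 ≤ dd c ω i j y2 ∧
      (y2 - y1) * (dd c ω i j y1 + dd c ω i j y2) / 2 ≤ AH c ω lam i j := by
  refine ⟨nonneg hω hC h0 h1 hμ hi ωi ωj hx i1 j1, nonneg hω hC h0 h1 hμ hi ωi ωj hx i2 j2, ?_⟩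
  obtain ⟨p1, p2, p3, p4⟩ := pows h0 h1
  obtain ⟨a1, a2, a3, a4, a5, a6⟩ := dir (hω.1 i) ωi (by linarith)
  obtain ⟨b1, b2, b3, b4, b5, b6⟩ := dir (hω.1 j) ωj (by linarith)
  have hin : ∀ y ∈ Set.Ioc y1 y2, |y - (c i).im| ≤ 1 / 2 - lam ^ 2 ∧
      |y - (c j).im| ≤ 1 / 2 - lam ^ 2 := fun y h => by
    rw [abs_le] at i1 i2 j1 j2
    exact ⟨abs_le.2 ⟨by linarith [h.1], by linarith [h.2]⟩,
      abs_le.2 ⟨by linarith [h.1], by linarith [h.2]⟩⟩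
  have hd : ∀ y, dd c ω i j y = dd c ω i j 0 + (tl (ω j) - tl (ω i)) * y := fun y => by
    unfold dd
    ring
  have hA := area (S := HR c ω lam i j) (f := fun y => xc (c j) (ω j) y - 1 / (2 * (ω j).re))
    (g := fun y => xc (c i) (ω i) y + 1 / (2 * (ω i).re)) (by unfold xc; fun_prop)
    (by unfold xc; fun_prop) hd hy
    (fun y h => sub_nonneg.1 (nonneg hω hC h0 h1 hμ hi ωi ωj hx (hin y h).1 (hin y h).2))
    fun p hp q1 q2 => ?_
  · have hfin : volume (HR c ω lam i j) ≠ ⊤ := by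
      refine ne_top_of_le_ne_top ENNReal.one_ne_top ?_
      rw [← volume_Sq (hω.1 i) (c i)]
      exact measure_mono fun p hp =>
        ⟨abs_le.2 ⟨by linarith [hp.1], hp.2.1⟩, by linarith [hp.2.2.2.2.1]⟩
    rw [AH, if_pos ⟨⟨by linarith [hC.ovl i (by linarith)], by linarith⟩,
      by linarith [hC.ovl j (by linarith)], by linarith⟩, hd y1, hd y2]
    exact (ENNReal.ofReal_le_iff_le_toReal hfin).1 hA
  · obtain ⟨yi, yj⟩ := hin _ hp
    have c1 := abs_le.1 (xc_near (c := c i) (y := p.im) a4 (by linarith))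
    have c2 := abs_le.1 (xc_near (c := c j) (y := p.im) b4 (by linarith))
    have c3 := abs_le.1 hx
    have e1 : (ω i).re * (1 / (2 * (ω i).re)) = 1 / 2 := by
      have : (ω i).re ≠ 0 := by linarith
      field_simp
    have e2 : (ω j).re * (-(1 / (2 * (ω j).re))) = -(1 / 2) := by
      have : (ω j).re ≠ 0 := by linarith
      field_simp
    refine ⟨?_, ?_, ?_, ?_, im_le a1 a2 a3 (by linarith) (abs_le.2 ⟨by linarith, by linarith⟩) yi,
      im_le b1 b2 b3 (by linarith) (abs_le.2 ⟨by linarith, by linarith⟩) yj⟩ <;>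
      rw [loc_xc (by linarith)]
    · calc (1 / 4 : ℝ) ≤ 99 / 100 * (2 / 5) := by norm_num
        _ ≤ _ := mul_le_mul a1 (by linarith) (by norm_num) (by linarith)
    · rw [← e1]
      exact mul_le_mul_of_nonneg_left (by linarith) (by linarith)
    · rw [← e2]
      exact mul_le_mul_of_nonneg_left (by linarith) (by linarith)
    · have : 99 / 100 * (2 / 5) ≤ (ω j).re * (xc (c j) (ω j) p.im - p.re) :=
        mul_le_mul b1 (by linarith) (by norm_num) (by linarith)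
      linarith

end Piece

theorem pieceS (hω : Nm ω) (L : L0) : PieceS ω where
  piece := Piece.piece hω
  vert := by
    intro c O i j ϱ μ lam hC h0 h1 hμ hi hj ωi ωj hx hy
    obtain ⟨p1, p2, p3, p4⟩ := Piece.pows h0 h1
    have e1 : ∀ k, (rt I c k).re = -(c k).im := fun k => by simp [rt]
    have e2 : ∀ k, (rt I c k).im = (c k).re := fun k => by simp [rt]
    set h : ℝ := 1 / 2 - lam ^ 2 - lam ^ 4 with hh
    rw [abs_le] at hx
    obtain ⟨d1, d2, d3⟩ := Piece.piece hω (rt I c) O j i ϱ μ lam ((c j).re - h) ((c j).re + h)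
      (hC.rot I_pow_four) h0 h1 hμ (by rwa [norm_rt I_pow_four]) (by rwa [norm_rt I_pow_four])
      ωj ωi (by rw [e1, e1]; convert hy using 2; ring) (by linarith)
      (by rw [e2]; exact abs_le.2 ⟨by linarith, by linarith⟩)
      (by rw [e2]; exact abs_le.2 ⟨by linarith, by linarith⟩)
      (by rw [e2]; exact abs_le.2 ⟨by linarith, by linarith⟩)
      (by rw [e2]; exact abs_le.2 ⟨by linarith, by linarith⟩)
    have d4 : dd (rt I c) ω j i ((c j).re + h) - dd (rt I c) ω j i ((c j).re - h) =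
        -((tl (ω j) - tl (ω i)) * (2 * h)) := by
      unfold dd
      ring
    have h49 : 49 / 100 ≤ h := by linarith
    have d5 : |tl (ω j) - tl (ω i)| * (2 * h) ≤
        dd (rt I c) ω j i ((c j).re - h) + dd (rt I c) ω j i ((c j).re + h) := by
      rw [← abs_of_nonneg (by linarith : 0 ≤ 2 * h), ← abs_mul]
      exact abs_le.2 ⟨by linarith, by linarith⟩
    rw [show (c j).re + h - ((c j).re - h) = 2 * h by ring] at d3
    generalize dd (rt I c) ω j i ((c j).re - h) + dd (rt I c) ω j i ((c j).re + h) = s at d3 d5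
    have d6 := abs_nonneg (tl (ω j) - tl (ω i))
    generalize |tl (ω j) - tl (ω i)| = t at d5 d6 ⊢
    have d7 : h * (t * (2 * h)) ≤ h * s := mul_le_mul_of_nonneg_left d5 (by linarith)
    have d8 : 49 / 100 * (49 / 100) ≤ h * h := mul_le_mul h49 h49 (by norm_num) (by linarith)
    have d9 := mul_le_mul_of_nonneg_left d8 d6
    nlinarith

end Pool.Agent.MP_c59ecb_co.sh

end MrgPart0

-- ======== part 1: formerly Pool.Agent.MP_c59ecb_co.sh.PairA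
section MrgPart1

/-! Bookkeeping for the windows between two samples. -/

set_option autoImplicit false

namespace Pool.Agent.MP_c59ecb_co.sh

open MeasureTheory Complex Pool.Agent.MP_c59ecb_co.h76 Finset

namespace Pair

/-- indices that are not covered by a window -/
lemma cover {r o : ℕ} (ho : o < r) {B Bad Bd : Finset ℕ}
    (h : ∀ j ∈ B, ∀ s, s % r = o → j ≤ s → s < j + r → s ∈ Bad ∨ j ∈ Bd) :
    B.card ≤ r * Bad.card + Bd.card := by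
  have h1 : B ⊆ Bad.biUnion (fun s => Ico (s + 1 - r) (s + 1)) ∪ Bd := by
    intro j hj
    obtain ⟨s, s1, s2, s3⟩ : ∃ s, s % r = o ∧ j ≤ s ∧ s < j + r := by
      have e := Nat.div_add_mod j r
      have e2 := Nat.mod_lt j (show 0 < r by omega)
      by_cases hc : j % r ≤ o
      · exact ⟨r * (j / r) + o, by rw [Nat.mul_add_mod, Nat.mod_eq_of_lt ho], by omega, by omega⟩
      · refine ⟨r * (j / r + 1) + o, by rw [Nat.mul_add_mod, Nat.mod_eq_of_lt ho], ?_, ?_⟩ <;>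
          rw [mul_add, mul_one] <;> omega
    exact mem_union.2 ((h j hj s s1 s2 s3).imp_left fun hs =>
      mem_biUnion.2 ⟨s, hs, mem_Ico.2 (by omega)⟩)
  refine (card_le_card h1).trans ((card_union_le _ _).trans (Nat.add_le_add_right ?_ _))
  rw [mul_comm]
  refine card_biUnion_le_card_mul _ _ _ fun s _ => ?_
  rw [Nat.card_Ico]
  omega

/-- the sequences attached to a transversal -/
structure Seq (N n : ℕ) (t : ℝ) (f d g : ℕ → ℝ) : Prop where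
  f0 : ∀ j ≤ N, 0 ≤ f j ∧ f j ≤ t
  d0 : ∀ j ≤ N, 0 ≤ d j ∧ d j ≤ t * t
  g0 : ∀ j, 0 ≤ g j
  fl : ∀ j < N, |f (j + 1) - f j| ≤ 1 * g j
  dl : ∀ j < N, |d (j + 1) - d j| ≤ t * g j
  sum : ∑ j ∈ range (N + 1), g j ≤ t
  z : ∀ j ≤ N, f j ≠ 0 ∨ d j ≠ 0 → 4 * n < 5 * j ∧ 5 * j < 16 * n

lemma Seq.win (hS : SumS) {N n : ℕ} {t : ℝ} {f d g : ℕ → ℝ} (h : Seq N n t f d g)
    {r o lo hi E : ℕ} {W : Finset ℕ} {k : ℕ → ℕ} {Nb : ℝ} (hr : 0 < r) (hN : hi ≤ N) (ht : 0 ≤ t)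
    (hW : ∀ s ∈ W, lo + r ≤ s ∧ s ≤ hi ∧ s % r = o ∧ k s ≤ N ∧ k s ≤ s + E ∧ s ≤ k s + E)
    (hB : ∀ B : Finset ℕ, (∀ j ∈ B, lo < j ∧ j ≤ hi ∧ (4 * n < 5 * j ∧ 5 * j < 16 * n) ∧
      ∀ s ∈ W, ¬ (s < j + r ∧ j ≤ s)) → (B.card : ℝ) ≤ Nb) :
    |∑ j ∈ Ioc lo hi, f j - ∑ s ∈ W, r * f (k s)| ≤ t * (2 * (E + r) + 1 + Nb) ∧
      |∑ j ∈ Ioc lo hi, d j - ∑ s ∈ W, r * d (k s)| ≤ t * (t * (2 * (E + r) + 1 + Nb)) := by
  constructor
  · refine (hS.win r o lo hi N E W f g k 1 t t Nb hr hN zero_le_one h.f0 h.g0 h.fl h.sum hW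
      fun B hb => hB B fun j hj => ?_).trans (le_of_eq (by ring))
    obtain ⟨a1, a2, a3, a4⟩ := hb j hj
    exact ⟨a1, a2, h.z j (a2.trans hN) (Or.inl a3), a4⟩
  · refine (hS.win r o lo hi N E W d g k t (t * t) t Nb hr hN ht h.d0 h.g0 h.dl h.sum hW
      fun B hb => hB B fun j hj => ?_).trans (le_of_eq (by ring))
    obtain ⟨a1, a2, a3, a4⟩ := hb j hj
    exact ⟨a1, a2, h.z j (a2.trans hN) (Or.inr a3), a4⟩

/-- one half of the transversals -/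
lemma side (hS : SumS) {N n : ℕ} {t : ℝ} {fb db gb ft dt gt : ℕ → ℝ} (hb : Seq N n t fb db gb)
    (ht : Seq N n t ft dt gt) {r o lo hi E : ℕ} {W : Finset ℕ} {k : ℕ → ℕ} {Nb : ℝ} (hr : 0 < r)
    (hN : hi ≤ N) (h0 : 0 ≤ t)
    (hW : ∀ s ∈ W, lo + r ≤ s ∧ s ≤ hi ∧ s % r = o ∧ k s ≤ N ∧ k s ≤ s + E ∧ s ≤ k s + E)
    (hB : ∀ B : Finset ℕ, (∀ j ∈ B, lo < j ∧ j ≤ hi ∧ (4 * n < 5 * j ∧ 5 * j < 16 * n) ∧
      ∀ s ∈ W, ¬ (s < j + r ∧ j ≤ s)) → (B.card : ℝ) ≤ Nb)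
    {A B er c : ℕ → ℝ} {Mt Mb X Y Z : ℝ}
    (hA : ∀ s ∈ W, |r * ft (k s) - r * fb s - (A s - B s)| ≤ er s ∧
      r * dt (k s) - r * db s ≤ Mt * A s + c s ∧ r * db s - r * dt (k s) ≤ Mb * B s + c s)
    (hX : t * (2 * (E + r) + 1 + Nb) ≤ X) (hY : ∑ s ∈ W, er s ≤ Y) (hZ : ∑ s ∈ W, c s ≤ Z) :
    |∑ j ∈ Ioc lo hi, ft j - ∑ j ∈ Ioc lo hi, fb j - (∑ s ∈ W, A s - ∑ s ∈ W, B s)| ≤ 2 * X + Y ∧
      ∑ j ∈ Ioc lo hi, dt j - ∑ j ∈ Ioc lo hi, db j ≤ Mt * ∑ s ∈ W, A s + (2 * (t * X) + Z) ∧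
      ∑ j ∈ Ioc lo hi, db j - ∑ j ∈ Ioc lo hi, dt j ≤ Mb * ∑ s ∈ W, B s + (2 * (t * X) + Z) := by
  obtain ⟨a1, a2⟩ := ht.win hS hr hN h0 hW hB
  obtain ⟨b1, b2⟩ := hb.win hS (k := fun s => s) (E := E) hr hN h0 (fun s hs =>
    ⟨(hW s hs).1, (hW s hs).2.1, (hW s hs).2.2.1, (hW s hs).2.1.trans hN, Nat.le_add_right _ _,
      Nat.le_add_right _ _⟩) hB
  have hX' := mul_le_mul_of_nonneg_left hX h0
  have c1 : |∑ s ∈ W, r * ft (k s) - ∑ s ∈ W, r * fb s - (∑ s ∈ W, A s - ∑ s ∈ W, B s)| ≤ Y := by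
    rw [← sum_sub_distrib, ← sum_sub_distrib, ← sum_sub_distrib]
    exact (abs_sum_le_sum_abs _ _).trans ((sum_le_sum fun s hs => (hA s hs).1).trans hY)
  have c2 := sum_le_sum fun s hs => (hA s hs).2.1
  have c3 := sum_le_sum fun s hs => (hA s hs).2.2
  rw [sum_sub_distrib, sum_add_distrib (f := fun s => Mt * A s), ← mul_sum W A] at c2
  rw [sum_sub_distrib, sum_add_distrib (f := fun s => Mb * B s), ← mul_sum W B] at c3
  rw [abs_le] at a1 a2 b1 b2 c1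
  refine ⟨abs_le.2 ⟨?_, ?_⟩, ?_, ?_⟩ <;> linarith [a1.1, a1.2, a2.1, a2.2, b1.1, b1.2, b2.1, b2.2,
    c1.1, c1.2]

variable {ι : Type} [Fintype ι] [DecidableEq ι] {ω : ι → ℂ}

lemma seq (hω : Nm ω) (hT : TiltS) {P : Pm} {d : ι → ℂ} {ρ : Ry ι} (h : Base P d ω ρ) :
    Seq (2 * P.T0) P.n P.t1 (fun j => pp P.f0 (ρ.p ω j) / 2) (fun j => gh (ω (ρ.J j))) ρ.g := by
  have t0 : 0 < P.t1 := P.mn_pos _ _
  have f0 : 0 < P.f0 := P.mn_pos _ _
  have t1 : P.t1 ≤ 1 / 100 := by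
    linarith [P.mn_small (a := 9) (j := 5) (by norm_num) (by norm_num)]
  have hu : ∀ j ≤ 2 * P.T0, ‖ω (ρ.J j) - 1‖ ≤ 1 / 100 := fun j hj => (h.wray.tilt j hj).trans t1
  have hp : ∀ j ≤ 2 * P.T0, |ρ.p ω j| ≤ 101 / 100 * P.t1 := fun j hj =>
    (hT.one _ (hω.1 _) (hu j hj)).1.trans (by linarith [h.wray.tilt j hj])
  refine ⟨fun j hj => ⟨div_nonneg (le_max_right _ _) zero_le_two, ?_⟩, fun j hj => ?_, h.wray.g0,
    fun j hj => ?_, fun j hj => ?_, h.wray.sum, fun j hj hz => ?_⟩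
  · have : pp P.f0 (ρ.p ω j) ≤ 2 * P.t1 := max_le (by linarith [hp j hj]) (by linarith)
    linarith
  · obtain ⟨-, -, -, -, a1, a2, -⟩ := hT.one _ (hω.1 _) (hu j hj)
    have a3 : tl (ω (ρ.J j)) ^ 2 ≤ (101 / 100 * P.t1) ^ 2 := sq_le_sq' (abs_le.1 (hp j hj)).1
      (abs_le.1 (hp j hj)).2
    exact ⟨a1, by nlinarith⟩
  · have a1 := (hT.lip _ _ (hω.1 _) (hω.1 _) (hu (j + 1) hj) (hu j hj.le)).1
    have a2 := (h.wray.step' hj).1
    have a3 := abs_max_sub_max_le_abs (|ρ.p ω (j + 1)| - P.f0) (|ρ.p ω j| - P.f0) 0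
    have a4 := abs_abs_sub_abs_le_abs_sub (ρ.p ω (j + 1)) (ρ.p ω j)
    rw [sub_sub_sub_cancel_right] at a3
    rw [← sub_div, abs_div, abs_two]
    unfold pp
    unfold Ry.p at a3 a4 ⊢
    linarith [h.wray.g0 j]
  · have a1 := re_diff (hω.1 _) (hω.1 _) (h.wray.tilt j hj.le) (h.wray.tilt (j + 1) hj)
    have a2 := (h.wray.step' hj).1
    unfold gh
    rw [sub_sub_sub_cancel_left, abs_sub_comm]
    exact a1.trans (mul_le_mul_of_nonneg_left a2 t0.le)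
  · by_contra hc
    have e := h.fr j hj (by omega)
    rcases hz with hz | hz
    · refine hz ?_
      simp [Ry.p, e, tl, pp, f0.le]
    · refine hz ?_
      simp [e, gh]

/-- the numerical comparisons -/
lemma num (P : Pm) {Ei Λ Ho E Nb : ℝ} (hE : 0 ≤ Ei) (hΛ : 0 ≤ Λ) (hH : P.r * Ho ≤ Ei)
    (h1 : E ≤ 32 + 10 * P.t2 * Λ + 170 * P.t2 * Ei)
    (h2 : Nb ≤ P.r * (2 * (16 * Ho * P.mn (-36) (-5)) + 25 * P.r * P.t1 * P.mn 0 (-11)) +
      (E + P.r)) :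
    P.t1 * (2 * (E + P.r + P.r) + 1 + Nb) ≤ P.er Ei Λ / 4 ∧
      10 ^ 6 * (8 * Ho + P.La2 * (25 * P.r * P.t1)) ≤ P.er Ei Λ / 4 ∧
      10 * P.r * P.f0 * (8 * Ho + 25 * P.r * P.t1) ≤ P.t1 * P.er Ei Λ + 100 * P.f0 * Ei := by
  have t0 : 0 < P.t1 := P.mn_pos _ _
  have b0 := P.mn_big (a := 0) (j := -2) (by norm_num) (by norm_num)
  have e1 : 0 ≤ P.mn (-26) 0 * Ei := mul_nonneg (P.mn_nonneg _ _) hE
  have e2 : 0 ≤ P.mn 0 9 * Λ := mul_nonneg (P.mn_nonneg _ _) hΛ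
  unfold Pm.er
  rw [P.r_eq] at *
  refine ⟨?_, ?_, ?_⟩
  · have m1 : P.t1 * P.t2 = P.mn 45 10 := P.mn_mul' rfl rfl
    have m2 : P.t1 * P.mn 30 0 = P.mn 39 5 := P.mn_mul' rfl rfl
    have m3 : P.t1 * P.mn (-36) (-5) = P.mn (-27) 0 := P.mn_mul' rfl rfl
    have m4 : P.mn 39 5 * P.mn 39 5 = P.mn 78 10 := P.mn_mul' rfl rfl
    have m5 : P.mn 78 10 * P.mn 0 (-11) = P.mn 78 (-1) := P.mn_mul' rfl rfl
    have a1 := mul_le_mul_of_nonneg_right
      (P.mn_le (a := 45) (j := 10) (b := 0) (k := 9) (by norm_num) (by norm_num)) hΛ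
    have a2 := mul_le_mul_of_nonneg_right
      (P.mn_le (a := 45) (j := 10) (b := -26) (k := 0) (by norm_num) (by norm_num)) hE
    have a3 := mul_le_mul_of_nonneg_right
      (P.mn_le (a := -27) (j := 0) (b := -26) (k := 0) (by norm_num) (by norm_num)) hE
    have a4 := P.mn_le (a := 78) (j := -1) (b := 0) (k := -2) (by norm_num) (by norm_num)
    have a5 := P.mn_small (a := 39) (j := 5) (by norm_num) (by norm_num)
    have a6 := P.mn_small (a := 9) (j := 5) (by norm_num) (by norm_num)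
    have a7 := mul_le_mul_of_nonneg_left h1 t0.le
    have a8 := mul_le_mul_of_nonneg_left h2 t0.le
    have a9 := mul_le_mul_of_nonneg_left hH (P.mn_nonneg (-27) 0)
    have x1 : P.t1 * (32 + 10 * P.t2 * Λ + 170 * P.t2 * Ei) =
        32 * P.t1 + 10 * (P.mn 45 10 * Λ) + 170 * (P.mn 45 10 * Ei) := by rw [← m1]; ring
    have x2 : P.t1 * (P.mn 30 0 * (2 * (16 * Ho * P.mn (-36) (-5)) +
        25 * P.mn 30 0 * P.t1 * P.mn 0 (-11)) + (E + P.mn 30 0)) =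
        32 * (P.mn (-27) 0 * (P.mn 30 0 * Ho)) + 25 * P.mn 78 (-1) + P.t1 * E + P.mn 39 5 := by
      rw [← m5, ← m4, ← m3, ← m2]; ring
    have x3 : P.t1 * (2 * (E + P.mn 30 0 + P.mn 30 0) + 1 + Nb) =
        2 * (P.t1 * E) + 4 * P.mn 39 5 + P.t1 + P.t1 * Nb := by rw [← m2]; ring
    rw [x1] at a7
    rw [x2] at a8
    rw [x3]
    rw [mul_assoc] at a1 a2 a3
    linarith
  · have m1 : P.mn (-30) 0 * P.mn 30 0 = 1 := (P.mn_mul' rfl rfl).trans P.mn_zero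
    have m2 : P.mn 30 0 * P.t1 = P.mn 39 5 := P.mn_mul' rfl rfl
    have m3 : P.La2 * P.mn 39 5 = P.mn 117 0 := P.mn_mul' rfl rfl
    have a1 := mul_le_mul_of_nonneg_left hH (P.mn_nonneg (-30) 0)
    have a2 := mul_le_mul_of_nonneg_right
      (P.mn_le (a := -30) (j := 0) (b := -26) (k := 0) (by norm_num) (by norm_num)) hE
    have a3 := P.mn_le (a := 117) (j := 0) (b := 0) (k := -2) (by norm_num) (by norm_num)
    have x1 : P.La2 * (25 * P.mn 30 0 * P.t1) = 25 * P.mn 117 0 := by rw [← m3, ← m2]; ring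
    rw [← mul_assoc, m1, one_mul] at a1
    rw [mul_assoc] at a2
    rw [x1]
    linarith
  · have m1 : P.mn 30 0 * P.mn 30 0 = P.mn 60 0 := P.mn_mul' rfl rfl
    have m2 : P.mn 60 0 * P.f0 = P.mn 43 5 := P.mn_mul' rfl rfl
    have a1 := mul_le_mul_of_nonneg_left hH (P.mn_nonneg (-17) 5)
    have a2 := P.mn_small (a := 43) (j := 5) (by norm_num) (by norm_num)
    have a3 : 250 * P.mn 43 5 ≤ P.mn (-26) 0 * Ei + P.mn 0 9 * Λ + P.mn 0 (-2) := by linarith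
    have a4 := mul_le_mul_of_nonneg_left a3 t0.le
    have a5 : 0 ≤ P.f0 * Ei := mul_nonneg (P.mn_nonneg _ _) hE
    have x1 : 10 * P.mn 30 0 * P.f0 * (8 * Ho + 25 * P.mn 30 0 * P.t1) =
        80 * (P.f0 * (P.mn 30 0 * Ho)) + P.t1 * (250 * P.mn 43 5) := by rw [← m2, ← m1]; ring
    rw [x1]
    linarith

lemma shift (P : Pm) {Ei Λ Ho : ℝ} (hE : 0 ≤ Ei) (hH : P.r * Ho ≤ Ei) :
    30 + 10 * P.t2 * (Λ + 4 * P.r * (4 * Ho) + 2 * P.t1 * P.r * (16 * Ho * P.mn (-36) (-5)) +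
      7 * P.r * P.t1) ≤ 31 + 10 * P.t2 * Λ + 170 * P.t2 * Ei := by
  have m1 : P.t2 * P.mn (-36) (-5) = 1 := (P.mn_mul' rfl rfl).trans P.mn_zero
  have m2 : P.t2 * P.t1 = P.mn 45 10 := P.mn_mul' rfl rfl
  have m3 : P.mn 45 10 * P.r = P.mn 75 10 := by rw [P.r_eq]; exact P.mn_mul' rfl rfl
  have a1 := mul_le_mul_of_nonneg_left hH (P.mn_nonneg 36 5)
  have a2 := mul_le_mul_of_nonneg_left hH (P.mn_nonneg 9 5)
  have a3 := mul_le_mul_of_nonneg_right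
    (P.mn_le (a := 9) (j := 5) (b := 36) (k := 5) (by norm_num) (by norm_num)) hE
  have a4 := P.mn_small (a := 75) (j := 10) (by norm_num) (by norm_num)
  have a5 : 0 ≤ P.t2 * Ei := mul_nonneg (P.mn_nonneg _ _) hE
  have x1 : 10 * P.t2 * (Λ + 4 * P.r * (4 * Ho) + 2 * P.t1 * P.r * (16 * Ho * P.mn (-36) (-5)) +
      7 * P.r * P.t1) = 10 * P.t2 * Λ + 160 * (P.t2 * (P.r * Ho)) +
        320 * (P.t1 * (P.r * Ho)) * (P.t2 * P.mn (-36) (-5)) + 70 * P.mn 75 10 := by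
    rw [← m3, ← m2]; ring
  rw [x1, m1]
  rw [mul_assoc] at a3
  linarith

end Pair

end Pool.Agent.MP_c59ecb_co.sh

end MrgPart1

-- ======== part 2: formerly Pool.Agent.MP_c59ecb_co.sh.Pair
section MrgPart2

/-! All windows between two consecutive samples. -/

set_option autoImplicit false

namespace Pool.Agent.MP_c59ecb_co.sh

open MeasureTheory Complex Pool.Agent.MP_c59ecb_co.h76 Finset

variable {ι : Type} [Fintype ι] [DecidableEq ι] {ω : ι → ℂ}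

namespace Pair

lemma markov' (hS : SumS) {S : Finset ℕ} {H : ℕ → ℝ} {τ u X : ℝ} (h : ∀ s ∈ S, 0 ≤ H s)
    (hu : 0 ≤ u) (e : τ * u = 1) (hX : ∑ s ∈ S, H s ≤ X) :
    ((S.filter fun s => τ < H s).card : ℝ) ≤ X * u := by
  have := mul_le_mul_of_nonneg_right ((hS.markov S H τ h).trans hX) hu
  rwa [mul_assoc, e, mul_one] at this

lemma local_sum (hS : SumS) {C : Finset ℕ} {k : ℕ → ℕ} {g : ℕ → ℝ} {E N m : ℕ} {t : ℝ}
    (hg : ∀ j, 0 ≤ g j) (hm : ∀ j, (C.filter fun s => k s = j).card ≤ m)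
    (hN : ∀ s ∈ C, k s + E ≤ N) (ht : ∑ j ∈ range (N + 1), g j ≤ t) :
    ∑ s ∈ C, ∑ j ∈ Icc (k s - E) (k s + E), g j ≤ m * (2 * E + 1) * t := by
  refine le_trans (le_of_eq (sum_congr rfl fun s hs => ?_)) ((hS.nbr C k g E N m hg hm).trans
    (mul_le_mul_of_nonneg_left ht (by positivity)))
  rw [filter_true_of_mem fun j hj => (mem_Icc.1 hj).2.trans (hN s hs)]

/-- the typical short rays -/
lemma typ (L : L4 ω) {P : Pm} {d : ι → ℂ} {Ks : Finset ℕ} {ρ : ℕ → Ry ι} {kb kt : ℕ} {H : ι → ℝ}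
    {Ei : ℝ} (hF : P.Fr d ω) (hfam : Fam P d ω Ks ρ) (hkb : kb ∈ Ks) (hkt : kt ∈ Ks)
    (hlt : kt < kb) (hno : ∀ k ∈ Ks, ¬ (kt < k ∧ k < kb)) (hΛ : (kb : ℝ) - kt ≤ P.NU)
    (hH0 : ∀ i, 0 ≤ H i) (hLv : ∀ i ∈ StF P Ks ρ, Lv (P.FP d ω 0 (StF P Ks ρ) P.T1 i) (H i))
    (hsum : ∑ s ∈ range (2 * P.T0 + 1), H ((ρ kb).J s) ≤ Ei) :
    ∃ (o E : ℕ) (Ho : ℝ) (Ty Bad : Finset ℕ) (G : ℕ → ℝ) (K : ℕ → Ry ι) (T' Ts h : ℕ → ℕ),
      o < P.r ∧ P.r * Ho ≤ Ei ∧ (E : ℝ) ≤ 32 + 10 * P.t2 * ((kb : ℝ) - kt) + 170 * P.t2 * Ei ∧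
      (∀ s, 0 ≤ G s) ∧ ∑ s ∈ Ty, G s ≤ 4 * Ho ∧ (Bad.card : ℝ) ≤ 16 * Ho * P.mn (-36) (-5) ∧
      (∀ s, s % P.r = o → P.Rng s → s ∉ Ty → s ∈ Bad) ∧
      ∀ s ∈ Ty, s % P.r = o ∧ Shot P d ω Ks ρ kb kt s (G s) (K s) (T' s) (Ts s) (h s) ∧
        h s ≤ s + E ∧ s ≤ h s + E := by
  classical
  have hr : 0 < P.r := lt_of_lt_of_le (by norm_num) P.r_big'
  have hT0 : P.T0 = 2 * P.n := rfl
  have hE : 0 ≤ Ei := (sum_nonneg fun s _ => hH0 _).trans hsum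
  obtain ⟨⟨o, ho, hcls⟩, -⟩ := L.sum.cls P.r (range (2 * P.T0 + 1)) (fun s => H ((ρ kb).J s))
    (fun s => s % P.r) hr fun s _ => Nat.mod_lt _ hr
  set So := (range (2 * P.T0 + 1)).filter fun s => s % P.r = o with hSo
  set Ho := ∑ s ∈ So, H ((ρ kb).J s) with hHo
  set Ty := So.filter fun s => P.Rng s ∧ 16 * H ((ρ kb).J s) ≤ P.t2 with hTy
  set Bad := So.filter fun s => P.t2 / 16 < H ((ρ kb).J s) with hBad
  have hshot : ∀ s, ∃ (K : Ry ι) (T' Ts h : ℕ), s ∈ Ty →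
      Shot P d ω Ks ρ kb kt s (4 * H ((ρ kb).J s)) K T' Ts h := fun s => by
    by_cases hs : s ∈ Ty
    · obtain ⟨a1, a2, a3⟩ := mem_filter.1 hs
      obtain ⟨K, T', Ts, h, hh⟩ := L.shot P d Ks ρ kb kt s _ hF hfam hkb hkt hlt hno hΛ a2 (hH0 _)
        a3 (hLv _ (mem_biUnion.2 ⟨kb, hkb, mem_image_of_mem _ (mem_filter.1 a1).1⟩))
      exact ⟨K, T', Ts, h, fun _ => hh⟩
    · exact ⟨ρ 0, 0, 0, 0, fun h => absurd h hs⟩
  choose K T' Ts h hS using hshot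
  have hB : (Bad.card : ℝ) ≤ 16 * Ho * P.mn (-36) (-5) := by
    have m1 : P.t2 * P.mn (-36) (-5) = 1 := (P.mn_mul' rfl rfl).trans P.mn_zero
    refine (markov' L.sum (u := 16 * P.mn (-36) (-5)) (fun s _ => hH0 _)
      (mul_nonneg (by norm_num) (P.mn_nonneg _ _)) (by linarith) le_rfl).trans (le_of_eq ?_)
    ring
  have hnt : ∀ s, s % P.r = o → P.Rng s → s ∉ Ty → s ∈ Bad := fun s a1 a2 a3 => by
    have a4 : s ∈ So := mem_filter.2 ⟨mem_range.2 (by have := a2.2; omega), a1⟩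
    refine mem_filter.2 ⟨a4, ?_⟩
    by_contra hc
    exact a3 (mem_filter.2 ⟨a4, a2, by linarith⟩)
  have hG : ∑ s ∈ Ty, 4 * H ((ρ kb).J s) ≤ 4 * Ho := by
    rw [← mul_sum]
    linarith [sum_le_sum_of_subset_of_nonneg (f := fun s => H ((ρ kb).J s))
      (filter_subset (fun s => P.Rng s ∧ 16 * H ((ρ kb).J s) ≤ P.t2) So) fun s _ _ => hH0 _]
  have hm : ∀ s ∈ Ty, s % P.r = o := fun s hs => (mem_filter.1 (mem_filter.1 hs).1).2
  have hboot := L.boot P d Ks ρ kb kt o Ty (fun s => 4 * H ((ρ kb).J s)) K T' Ts h (4 * Ho)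
    (16 * Ho * P.mn (-36) (-5)) hfam hkb hkt hlt ho (fun s hs => ⟨hm s hs, hS s hs⟩) hG
    fun B hb => le_trans (Nat.cast_le.2 (card_le_card fun s hs =>
      hnt s (hb s hs).1 (hb s hs).2.1 (hb s hs).2.2)) hB
  have hΛ0 : (0 : ℝ) ≤ (kb : ℝ) - kt := sub_nonneg.2 (Nat.cast_le.2 hlt.le)
  have h0 : 0 ≤ 31 + 10 * P.t2 * ((kb : ℝ) - kt) + 170 * P.t2 * Ei := by
    have := P.mn_pos 36 5
    positivity
  refine ⟨o, ⌈31 + 10 * P.t2 * ((kb : ℝ) - kt) + 170 * P.t2 * Ei⌉₊, Ho, Ty, Bad,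
    fun s => 4 * H ((ρ kb).J s), K, T', Ts, h, ho, hcls.trans hsum,
    by linarith [Nat.ceil_lt_add_one h0], fun s => by linarith [hH0 ((ρ kb).J s)], hG, hB, hnt,
    fun s hs => ⟨hm s hs, hS s hs, ?_⟩⟩
  have a1 := abs_le.1 (((hboot s hs).trans (shift P hE (hcls.trans hsum))).trans (Nat.le_ceil _))
  generalize ⌈31 + 10 * P.t2 * ((kb : ℝ) - kt) + 170 * P.t2 * Ei⌉₊ = E at a1 ⊢
  constructor
  · exact_mod_cast (show (h s : ℝ) ≤ s + E by linarith [a1.2])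
  · exact_mod_cast (show (s : ℝ) ≤ h s + E by linarith [a1.1])

end Pair

open Pair in
theorem pairS (hω : Nm ω) (L : L4 ω) : PairS ω := by
  classical
  intro P d Ks ρ kb kt H Ei Mpb Mmb Mpt Mmt hF hfam hkb hkt hlt hno hΛ hH0 hLv hsum hMb hMt
  have hr : 0 < P.r := lt_of_lt_of_le (by norm_num) P.r_big'
  have hr1 : (1 : ℝ) ≤ P.r := by exact_mod_cast hr
  have hrn := P.r_le_n'
  have hT0 : P.T0 = 2 * P.n := rfl
  have t0 : 0 < P.t1 := P.mn_pos _ _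
  have hE : 0 ≤ Ei := (sum_nonneg fun s _ => hH0 _).trans hsum
  have hΛ0 : (0 : ℝ) ≤ (kb : ℝ) - kt := sub_nonneg.2 (Nat.cast_le.2 hlt.le)
  obtain ⟨o, E, Ho, Ty, Bad, G, K, T', Ts, h, ho, hHo, hE1, hG0, hG, hB, hnt, hS⟩ :=
    typ L hF hfam hkb hkt hlt hno hΛ hH0 hLv hsum
  have sb := seq hω L.tilt (hfam.base kb hkb)
  have st := seq hω L.tilt (hfam.base kt hkt)
  set C := Ty.filter fun s => P.r ≤ s ∧ s - P.r ∈ Ty with hC
  obtain ⟨k, hk⟩ : ∃ k : ℕ → ℕ, ∀ s, k s = if Ts s ≤ Ts (s - P.r) then h s else h (s - P.r) :=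
    ⟨_, fun _ => rfl⟩
  obtain ⟨γ, hγ⟩ : ∃ γ : ℕ → ℝ, ∀ s, γ s = ∑ j ∈ Icc (s - 4 * P.r) (s + 4 * P.r), (ρ kb).g j +
      ∑ j ∈ Icc (k s - 4 * P.r) (k s + 4 * P.r), (ρ kt).g j := ⟨_, fun _ => rfl⟩
  have hC' : ∀ s ∈ C, s % P.r = o ∧ P.r ≤ s ∧ 2 * s ≤ 7 * P.n ∧ 5 * k s ≤ 18 * P.n ∧
      k s ≤ s + E ∧ s ≤ k s + (E + P.r) := fun s hs => by
    obtain ⟨a1, a2, a3⟩ := mem_filter.1 hs
    obtain ⟨b1, b2, b3, b4⟩ := hS s a1
    obtain ⟨c1, c2, c3, c4⟩ := hS _ a3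
    have := b2.h2
    have := c2.h2
    refine ⟨b1, a2, b2.rng.2, ?_⟩
    rw [hk]
    split_ifs <;> omega
  have hinj : ∀ s ∈ Ty, ∀ s' ∈ Ty, h s = h s' → s = s' := fun s hs s' hs' e =>
    L.disj.inj P d Ks ρ kb kt s s' _ _ _ _ _ _ _ _ _ hfam hkb (hS s hs).2.1
      (e ▸ (hS s' hs').2.1) ((hS s hs).1.trans (hS s' hs').1.symm)
  have hγ1 : ∀ s, (ρ kb).g s ≤ γ s ∧ (ρ kt).g (k s) ≤ γ s ∧ 0 ≤ γ s := fun s => by
    have a1 := single_le_sum (f := (ρ kb).g) (s := Icc (s - 4 * P.r) (s + 4 * P.r))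
      (fun j _ => sb.g0 j) (a := s) (mem_Icc.2 (by omega))
    have a2 := single_le_sum (f := (ρ kt).g) (s := Icc (k s - 4 * P.r) (k s + 4 * P.r))
      (fun j _ => st.g0 j) (a := k s) (mem_Icc.2 (by omega))
    rw [hγ]
    refine ⟨?_, ?_, ?_⟩ <;> linarith [sb.g0 s, st.g0 (k s)]
  have hγ2 : ∑ s ∈ C, γ s ≤ 25 * P.r * P.t1 := by
    have a1 := local_sum L.sum (C := C) (k := fun s => s) (E := 4 * P.r) (m := 1) sb.g0
      (fun j => card_le_one.2 fun x hx y hy => (mem_filter.1 hx).2.trans (mem_filter.1 hy).2.symm)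
      (fun s hs => by have := hC' s hs; omega) sb.sum
    have a2 := local_sum L.sum (C := C) (k := k) (E := 4 * P.r) (m := 2) st.g0 (fun j => by
      refine (card_le_card (t := C.filter (fun s => h s = j) ∪ C.filter fun s => h (s - P.r) = j)
        fun s hs => ?_).trans ((card_union_le _ _).trans (Nat.add_le_add
          (card_le_one.2 fun x hx y hy => ?_) (card_le_one.2 fun x hx y hy => ?_)))
      · obtain ⟨a, b⟩ := mem_filter.1 hs
        rw [hk] at b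
        split_ifs at b
        exacts [mem_union_left _ (mem_filter.2 ⟨a, b⟩), mem_union_right _ (mem_filter.2 ⟨a, b⟩)]
      · exact hinj x (mem_filter.1 (mem_filter.1 hx).1).1 y (mem_filter.1 (mem_filter.1 hy).1).1
          ((mem_filter.1 hx).2.trans (mem_filter.1 hy).2.symm)
      · obtain ⟨-, x1, x2⟩ := mem_filter.1 (mem_filter.1 hx).1
        obtain ⟨-, y1, y2⟩ := mem_filter.1 (mem_filter.1 hy).1
        have := hinj _ x2 _ y2 ((mem_filter.1 hx).2.trans (mem_filter.1 hy).2.symm)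
        omega) (fun s hs => by have := hC' s hs; omega) st.sum
    rw [sum_congr rfl fun s _ => hγ s, sum_add_distrib]
    push_cast at a1 a2
    have := P.r_big
    nlinarith
  have hG2 : ∑ s ∈ C, (G s + G (s - P.r)) ≤ 8 * Ho := by
    have a1 : ∑ s ∈ C, G s ≤ ∑ s ∈ Ty, G s :=
      sum_le_sum_of_subset_of_nonneg (filter_subset _ _) fun s _ _ => hG0 s
    have a2 : ∑ s ∈ C, G (s - P.r) ≤ ∑ s ∈ Ty, G s := by
      rw [← sum_image (g := fun s => s - P.r) (f := G) fun x hx y hy e => by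
        have := (hC' x hx).2.1
        have := (hC' y hy).2.1
        simp only at e
        omega]
      exact sum_le_sum_of_subset_of_nonneg
        (image_subset_iff.2 fun s hs => (mem_filter.1 hs).2.2) fun s _ _ => hG0 s
    rw [sum_add_distrib]
    linarith
  have hwin : ∀ s, ∃ (A B : ℝ) (Z : Finset ι), s ∈ C → γ s ≤ P.vt → _ := fun s => by
    by_cases hs : s ∈ C ∧ γ s ≤ P.vt
    · obtain ⟨a1, a2, a3⟩ := mem_filter.1 hs.1
      obtain ⟨A, B, Z, hh⟩ := L.win P d Ks ρ kb kt s _ _ (γ s) _ _ _ _ _ _ _ _ (k s) hfam hkb hkt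
        hlt a2 (hS s a1).2.1 (hS _ a3).2.1 (hk s) (hγ s).ge hs.2
      exact ⟨A, B, Z, fun _ _ => hh⟩
    · exact ⟨0, 0, ∅, fun h1 h2 => absurd ⟨h1, h2⟩ hs⟩
  choose A B Z hW using hwin
  obtain ⟨n1, n2, n3⟩ := num P hE hΛ0 hHo hE1 le_rfl
  set Nb := (P.r : ℝ) * (2 * (16 * Ho * P.mn (-36) (-5)) + 25 * P.r * P.t1 * P.mn 0 (-11)) +
    (E + P.r) with hNb
  set er := P.er Ei ((kb : ℝ) - kt) with her
  have hsub : ∀ V ⊆ C, ∑ s ∈ V, 10 ^ 6 * (G s + G (s - P.r) + P.La2 * γ s) ≤ er / 4 ∧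
      ∑ s ∈ V, (2 * P.t1 * (10 ^ 6 * (G s + G (s - P.r) + P.La2 * γ s)) +
        10 * P.r * P.f0 * (G s + G (s - P.r) + γ s)) ≤
        2 * P.t1 * (er / 4) + (P.t1 * er + 100 * P.f0 * Ei) := fun V hV => by
    have a1 := (sum_le_sum_of_subset_of_nonneg hV fun s _ _ => (hγ1 s).2.2).trans hγ2
    have a2 := (sum_le_sum_of_subset_of_nonneg hV fun s _ _ =>
      add_nonneg (hG0 s) (hG0 (s - P.r))).trans hG2
    have a3 : ∑ s ∈ V, 10 ^ 6 * (G s + G (s - P.r) + P.La2 * γ s) ≤ er / 4 := by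
      rw [← mul_sum, sum_add_distrib, ← mul_sum]
      linarith [mul_le_mul_of_nonneg_left a1 (P.mn_nonneg 78 (-5))]
    refine ⟨a3, ?_⟩
    rw [sum_add_distrib, ← mul_sum, ← mul_sum V _ (10 * P.r * P.f0),
      sum_add_distrib (g := γ)]
    have a4 : 0 ≤ 10 * P.r * P.f0 := by have := P.mn_pos (-17) 5; positivity
    exact add_le_add (mul_le_mul_of_nonneg_left a3 (by positivity))
      ((mul_le_mul_of_nonneg_left (add_le_add a2 a1) a4).trans n3)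
  have unc : ∀ (bd : ℕ → Prop) (V : Finset ℕ) (lo hi : ℕ) (Bd : Finset ℕ),
      (∀ s, s ∈ V ↔ s ∈ C ∧ γ s ≤ P.vt ∧ bd s) → Bd.card ≤ E + P.r →
      (∀ j s, lo < j → j ≤ hi → j ≤ s → s < j + P.r → s ∈ C → ¬ bd s → j ∈ Bd) →
      ∀ U : Finset ℕ, (∀ j ∈ U, lo < j ∧ j ≤ hi ∧ (4 * P.n < 5 * j ∧ 5 * j < 16 * P.n) ∧
        ∀ s ∈ V, ¬ (s < j + P.r ∧ j ≤ s)) →
        (U.card : ℝ) ≤ Nb := fun bd V lo hi Bd hV b1 b2 U hU => by
    have c1 := cover ho (B := U) (Bd := Bd)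
      (Bad := Bad ∪ Bad.image (· + P.r) ∪ C.filter fun s => P.vt < γ s) fun j hj s s1 s2 s3 => by
        obtain ⟨u1, u2, u3, u4⟩ := hU j hj
        have s4 : P.r ≤ s := by omega
        by_cases d1 : s ∈ Ty
        · by_cases d2 : s - P.r ∈ Ty
          · have d3 : s ∈ C := mem_filter.2 ⟨d1, s4, d2⟩
            by_cases d4 : γ s ≤ P.vt
            · exact Or.inr (b2 j s u1 u2 s2 s3 d3 fun hb =>
                u4 s ((hV s).2 ⟨d3, d4, hb⟩) ⟨s3, s2⟩)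
            · exact Or.inl (mem_union_right _ (mem_filter.2 ⟨d3, not_le.1 d4⟩))
          · refine Or.inl (mem_union_left _ (mem_union_right _ (mem_image.2 ⟨s - P.r,
              hnt _ ?_ ⟨by omega, by omega⟩ d2, by omega⟩)))
            rw [← Nat.add_mod_right, Nat.sub_add_cancel s4, s1]
        · exact Or.inl (mem_union_left _ (mem_union_left _ (hnt s s1 ⟨by omega, by omega⟩ d1)))
    have m : P.vt * P.mn 0 (-11) = 1 := (P.mn_mul' rfl rfl).trans P.mn_zero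
    have c2 := markov' L.sum (τ := P.vt) (fun s _ => (hγ1 s).2.2) (P.mn_nonneg 0 (-11)) m hγ2
    have c3 : (Bad ∪ Bad.image (· + P.r) ∪ C.filter fun s => P.vt < γ s).card ≤
        Bad.card + Bad.card + (C.filter fun s => P.vt < γ s).card :=
      (card_union_le _ _).trans (Nat.add_le_add_right ((card_union_le _ _).trans
        (Nat.add_le_add_left card_image_le _)) _)
    have c4 : (U.card : ℝ) ≤ P.r * (Bad.card + Bad.card + (C.filter fun s => P.vt < γ s).card) +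
        (E + P.r) := by
      exact_mod_cast c1.trans (Nat.add_le_add (Nat.mul_le_mul_left _ c3) b1)
    refine c4.trans (add_le_add (mul_le_mul_of_nonneg_left (by linarith) (by positivity)) le_rfl)
  have half : ∀ (bd : ℕ → Prop) (V : Finset ℕ) (lo hi : ℕ) (Bd : Finset ℕ) (Mt Mb : ℝ),
      (∀ s, s ∈ V ↔ s ∈ C ∧ γ s ≤ P.vt ∧ bd s) → Bd.card ≤ E + P.r →
      (∀ j s, lo < j → j ≤ hi → j ≤ s → s < j + P.r → s ∈ C → ¬ bd s → j ∈ Bd) → hi ≤ 2 * P.T0 →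
      (∀ s ∈ C, bd s → lo + P.r ≤ s ∧ s ≤ hi) →
      (∀ s ∈ C, γ s ≤ P.vt → bd s → |(ρ kt).p ω (k s)| ≤ Mt ∧ |(ρ kb).p ω s| ≤ Mb) → _ :=
    fun bd V lo hi Bd Mt Mb hV b1 b2 b3 b4 b5 =>
      side L.sum sb st (E := E + P.r) (k := k) (o := o) (A := A) (B := B) (Mt := Mt + P.f0)
        (Mb := Mb + P.f0) (X := er / 4) (W := V) hr b3 t0.le (fun s hs => by
          obtain ⟨a1, -, a3⟩ := (hV s).1 hs
          have := hC' s a1
          have := b4 s a1 a3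
          omega) (unc bd V lo hi Bd hV b1 b2) (fun s hs => by
          obtain ⟨a1, a2, a3⟩ := (hV s).1 hs
          obtain ⟨w1, w2, -, -, -, w3, w4, w5⟩ := hW s a1 a2
          obtain ⟨m1, m2⟩ := b5 s a1 a2 a3
          refine ⟨w3, ?_, ?_⟩
          · linarith [mul_le_mul_of_nonneg_right (add_le_add_left m1 P.f0) w1]
          · linarith [mul_le_mul_of_nonneg_right (add_le_add_left m2 P.f0) w2])
        (by push_cast; exact n1) (hsub V fun s hs => ((hV s).1 hs).1).1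
        (hsub V fun s hs => ((hV s).1 hs).1).2
  set Wp := C.filter fun s => γ s ≤ P.vt ∧ P.T0 + P.r ≤ s ∧ P.T0 ≤ k s with hWp
  set Wm := C.filter fun s => γ s ≤ P.vt ∧ s ≤ P.T0 ∧ k s ≤ P.T0 with hWm
  obtain ⟨p1, p2, p3⟩ := half (fun s => P.T0 + P.r ≤ s ∧ P.T0 ≤ k s) Wp P.T0 (2 * P.T0)
    (Ioc P.T0 (P.T0 + (E + P.r))) Mpt Mpb (fun s => mem_filter) (by rw [Nat.card_Ioc]; omega)
    (fun j s a1 a2 a3 a4 a5 a6 => by have := hC' s a5; exact mem_Ioc.2 (by omega)) le_rfl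
    (fun s a1 a2 => by have := hC' s a1; omega) fun s a1 a2 a3 => by
      have := hC' s a1
      exact ⟨hMt.bp _ a3.2 (by omega) ((hγ1 s).2.1.trans a2),
        hMb.bp _ (by omega) (by omega) ((hγ1 s).1.trans a2)⟩
  obtain ⟨q1, q2, q3⟩ := half (fun s => s ≤ P.T0 ∧ k s ≤ P.T0) Wm 0 P.T0
    (Ioc (P.T0 - (E + P.r)) P.T0) Mmt Mmb (fun s => mem_filter) (by rw [Nat.card_Ioc]; omega)
    (fun j s a1 a2 a3 a4 a5 a6 => by have := hC' s a5; exact mem_Ioc.2 (by omega)) (by omega)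
    (fun s a1 a2 => by have := hC' s a1; omega) fun s a1 a2 a3 =>
      ⟨hMt.bm _ a3.2 ((hγ1 s).2.1.trans a2), hMb.bm _ a3.1 ((hγ1 s).1.trans a2)⟩
  have hd : Disjoint Wp Wm := disjoint_left.2 fun s a b => by
    have := (mem_filter.1 a).2.2
    have := (mem_filter.1 b).2.2
    omega
  have hU : ∀ s ∈ Wp ∪ Wm, s ∈ C ∧ γ s ≤ P.vt := fun s hs => (mem_union.1 hs).elim
    (fun a => ⟨(mem_filter.1 a).1, (mem_filter.1 a).2.1⟩)
    fun a => ⟨(mem_filter.1 a).1, (mem_filter.1 a).2.1⟩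
  have hW' := fun s hs => hW s (hU s hs).1 (hU s hs).2
  have er0 : 0 ≤ er := by
    have := P.mn_pos (-26) 0
    have := P.mn_pos 0 9
    have := P.mn_pos 0 (-2)
    rw [her, Pm.er]
    positivity
  have er1 : 0 ≤ P.t1 * er := mul_nonneg t0.le er0
  refine ⟨Wp ∪ Wm, Z, o, ∑ s ∈ Wp, A s, ∑ s ∈ Wp, B s, ∑ s ∈ Wm, A s, ∑ s ∈ Wm, B s,
    sum_nonneg fun s hs => (hW' s (mem_union_left _ hs)).1,
    sum_nonneg fun s hs => (hW' s (mem_union_left _ hs)).2.1,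
    sum_nonneg fun s hs => (hW' s (mem_union_right _ hs)).1,
    sum_nonneg fun s hs => (hW' s (mem_union_right _ hs)).2.1, fun s hs => ?_, ?_,
    le_trans p1 (by linarith), le_trans q1 (by linarith), le_trans p2 (by linarith),
    le_trans p3 (by linarith), le_trans q2 (by linarith), le_trans q3 (by linarith)⟩
  · have a1 := (mem_filter.1 (hU s hs).1).1
    exact ⟨(hS s a1).1, (hW' s hs).2.2.2.1, _, _, _, _, _, (hS s a1).2.1, (hW' s hs).2.2.1⟩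
  · have a1 := sum_le_sum fun s hs => (hW' s hs).2.2.2.2.1
    have a2 := (hsub _ fun s hs => (hU s hs).1).1
    rw [sum_sub_distrib, ← mul_sum, sum_add_distrib, sum_union hd, sum_union hd (f := B)] at a1
    refine le_trans ?_ a1
    rw [show ∑ s ∈ Wp, A s + ∑ s ∈ Wp, B s + ∑ s ∈ Wm, A s + ∑ s ∈ Wm, B s =
      ∑ s ∈ Wp, A s + ∑ s ∈ Wm, A s + (∑ s ∈ Wp, B s + ∑ s ∈ Wm, B s) by ring]
    exact sub_le_sub_left (le_trans a2 (by linarith)) _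

end Pool.Agent.MP_c59ecb_co.sh

end MrgPart2

-- marker of a merged file
example : 731051 + 66773 = 731051 + 66773 := rfl
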