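import Pool.Agent.MP_c59ecb_co.sh.Side

-- ======== part 0: formerly Pool.Agent.MP_c59ecb_co.sh.Straight
section MrgPart0

/-! A tilted lower ray of a tube is straight. -/

set_option autoImplicit false

namespace Pool.Agent.MP_c59ecb_co.sh

open MeasureTheory Complex Pool.Agent.MP_c59ecb_co.h76

namespace Straight

lemma small {r : ℕ} {lam η τ G : ℝ} (h : TP r lam η τ G) (h0 : 0 ≤ τ) :
    0 ≤ η ∧ r * η ≤ 1 / 10 ^ 16 ∧ η ≤ 1 / 10 ^ 18 ∧ τ ≤ 1 / 10 ^ 18 ∧ G ≤ 1 / 10 ^ 18 := by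
  have hr : (100 : ℝ) ≤ r := by exact_mod_cast h.r100
  have h1 : lam ^ 4 ≤ (1 / 1000) ^ 4 := pow_le_pow_left₀ h.lam0.le h.lam1 4
  have h2 := h.eta
  have h3 := h.tau
  have h4 := h.tot
  have h5 : 0 ≤ η := by linarith
  have h6 : r * η ≤ 1 / 10 ^ 16 := by linarith
  have h7 : η ≤ 1 / 10 ^ 18 := by nlinarith
  refine ⟨h5, h6, h7, by linarith, ?_⟩
  by_contra h8
  have h9 : (1 : ℝ) ≤ (r : ℝ) ^ 2 := by nlinarith
  have := mul_le_mul_of_nonneg_right h9 (show 0 ≤ G by linarith)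
  linarith

lemma lin (f : ℕ → ℝ) (a s : ℝ) {k n : ℕ} (hk : k ≤ n)
    (h : ∀ j, k ≤ j → j < n → |f (j + 1) - f j - a| ≤ s) :
    |f n - f k - a * ((n : ℝ) - k)| ≤ s * ((n : ℝ) - k) := by
  induction n, hk using Nat.le_induction with
  | base => simp
  | succ n hn ih =>
    have h1 := abs_le.1 (ih fun j h1 h2 => h j h1 (by omega))
    have h2 := abs_le.1 (h n hn (by omega))
    push_cast
    exact abs_le.2 ⟨by linarith [h1.1, h2.1], by linarith [h1.2, h2.2]⟩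

/-- the statement in coordinates -/
lemma coords (H : LocS) {κ : Type} (U W : κ → ℝ) {μ ϱ φ γ b : ℝ} {r m m' : ℕ} (A B : ℕ → κ) {e : ℤ}
    (hL : Lm U W μ ϱ) (h0 : 0 ≤ μ) (hφ : 0 < φ) (hμ : μ ≤ φ / 1000) (hr : 100 ≤ r)
    (hrφ : r * φ ≤ 1) (hm : r ≤ m + 1 ∧ m ≤ r + 1) (hm' : r ≤ m' + 1 ∧ m' ≤ r + 1)
    (iA : ∀ j ≤ m, Ins U W ϱ (A j)) (iB : ∀ i ≤ m', Ins U W ϱ (B i))
    (sA : ∀ j < m, |U (A (j + 1)) - U (A j) - 0| ≤ 1 / 200 ∧
      |W (A (j + 1)) - W (A j) - 1| ≤ 1 / 200)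
    (sB : ∀ j < m', |U (B (j + 1)) - U (B j) - 0| ≤ 1 / 200 ∧
      |W (B (j + 1)) - W (B j) - 1| ≤ 1 / 200)
    (he : |e| ≤ 1) (he' : |(m' : ℤ) + e - m| ≤ 1) (hb : |b| ≤ 1 / 2)
    (hAB : ∀ i j : ℕ, i ≤ m' → j ≤ m → (j : ℤ) = i + e →
      |U (B i) - U (A j) - 1| ≤ 1 / 200 ∧ |W (B i) - W (A j) - b| ≤ 1 / 200)
    (lo : |U (B 0) - U (A 0) - 1| ≤ γ) (hi : |U (B m') - U (A m) - 1| ≤ γ)
    (hγ : γ ≤ φ * r / 500) (big : 4 / 5 * (φ * r) ≤ |U (A m) - U (A 0)|) :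
    φ * |W (B 0) - W (A 0) - e| ≤ 80 * μ := by
  have hr' : (100 : ℝ) ≤ r := by exact_mod_cast hr
  have hφ1 : φ ≤ 1 / 100 := by nlinarith
  have hμ1 : μ ≤ 1 / 1000 := by linarith
  have hb' := abs_le.1 hb
  have he1 := abs_le.1 he
  have he2 := abs_le.1 he'
  have vA : ∀ j < m, |W (A (j + 1)) - W (A j) - 1| ≤ 10 * μ := fun j hj => by
    obtain ⟨h1, h2⟩ := sA j hj
    rw [sub_zero] at h1
    have h3 := abs_le.1 h2
    exact H.vc κ U W μ ϱ _ _ h0 hμ1 hL (iA j hj.le) (iA _ hj) (by linarith)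
      (by linarith [h3.1]) (by linarith [h3.2])
  have vB : ∀ j < m', |W (B (j + 1)) - W (B j) - 1| ≤ 10 * μ := fun j hj => by
    obtain ⟨h1, h2⟩ := sB j hj
    rw [sub_zero] at h1
    have h3 := abs_le.1 h2
    exact H.vc κ U W μ ϱ _ _ h0 hμ1 hL (iB j hj.le) (iB _ hj) (by linarith)
      (by linarith [h3.1]) (by linarith [h3.2])
  have hW : ∀ i j : ℕ, i ≤ m' → j ≤ m → (j : ℤ) = i + e → |W (B i) - W (A j)| ≤ 11 / 20 :=
    fun i j h1 h2 h3 => by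
      have h4 := abs_le.1 (hAB i j h1 h2 h3).2
      exact abs_le.2 ⟨by linarith [h4.1], by linarith [h4.2]⟩
  have hU : ∀ i j : ℕ, i ≤ m' → j ≤ m → (j : ℤ) = i + e → |U (B i) - U (A j) - 1| ≤ 10 * μ :=
    fun i j h1 h2 h3 => by
      have h4 := abs_le.1 (hAB i j h1 h2 h3).1
      exact H.hc κ U W μ ϱ _ _ h0 hμ1 hL (iA j h2) (iB i h1)
        ((hW i j h1 h2 h3).trans (by norm_num)) (by linarith [h4.1]) (by linarith [h4.2])
  have hex : ∃ i j : ℕ, i < m' ∧ j < m ∧ (j : ℤ) = i + e ∧ φ / 2 ≤ |U (A (j + 1)) - U (A j)| := by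
    by_contra hn
    have hn' : ∀ j < m, 0 ≤ (j : ℤ) - e → (j : ℤ) - e < m' →
        |U (A (j + 1)) - U (A j)| ≤ φ / 2 := fun j hj h1 h2 => by
      by_contra h3
      exact hn ⟨((j : ℤ) - e).toNat, j, by omega, hj, by omega, (not_le.1 h3).le⟩
    have hγ0 : 0 ≤ γ := (abs_nonneg _).trans lo
    obtain ⟨k, rfl⟩ : ∃ k, m = k + 1 := ⟨m - 1, by omega⟩
    have a0 : |U (A 1) - U (A 0)| ≤ φ / 2 + γ := by
      by_cases h1 : e = 1
      · have h2 := abs_le.1 (hU 0 1 (by omega) (by omega) (by omega))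
        have h3 := abs_le.1 lo
        exact abs_le.2 ⟨by linarith [h2.1, h2.2, h3.1, h3.2], by linarith [h2.1, h2.2, h3.1, h3.2]⟩
      · have := hn' 0 (by omega) (by omega) (by omega)
        rw [zero_add] at this
        linarith
    have a1 : |U (A (k + 1)) - U (A k)| ≤ φ / 2 + γ := by
      by_cases h1 : (k : ℤ) = m' + e
      · have h2 := abs_le.1 (hU m' k le_rfl (by omega) h1)
        have h3 := abs_le.1 hi
        exact abs_le.2 ⟨by linarith [h2.1, h2.2, h3.1, h3.2], by linarith [h2.1, h2.2, h3.1, h3.2]⟩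
      · have := hn' k (by omega) (by omega) (by omega)
        linarith
    have a2 := lin (fun j => U (A j)) 0 (φ / 2) (k := 1) (n := k) (by omega) fun j h1 h2 => by
      rw [sub_zero]
      exact hn' j (by omega) (by omega) (by omega)
    have hk : (k : ℝ) ≤ r := by exact_mod_cast (show k ≤ r by omega)
    have a3 : φ * k ≤ φ * r := mul_le_mul_of_nonneg_left hk hφ.le
    have a4 : φ * 100 ≤ φ * r := mul_le_mul_of_nonneg_left hr' hφ.le
    rw [zero_mul, sub_zero, Nat.cast_one] at a2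
    have a5 := abs_sub_le (U (A (k + 1))) (U (A k)) (U (A 0))
    have a6 := abs_sub_le (U (A k)) (U (A 1)) (U (A 0))
    linarith
  obtain ⟨i, j, hi', hj, hij, hs⟩ := hex
  have c1 := (H.corner κ U W μ ϱ (A j) (A (j + 1)) (B i) (B (i + 1)) h0 hμ1 hL (iA j hj.le)
    (iA _ hj) (iB i hi'.le) (iB _ hi') (by have := (sA j hj).1; rw [sub_zero] at this; linarith)
    (hW i j hi'.le hj.le hij) (vA j hj) (vB i hi') (hU i j hi'.le hj.le hij)
    (hU (i + 1) (j + 1) hi' hj (by push_cast; omega))).1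
  rw [abs_mul] at c1
  have c2 := mul_le_mul_of_nonneg_right hs (abs_nonneg (W (B i) - W (A j)))
  have c3 := abs_le.1 (lin (fun j => W (A j)) 1 (10 * μ) (Nat.zero_le j) fun k _ h2 =>
    vA k (by omega))
  have c4 := abs_le.1 (lin (fun j => W (B j)) 1 (10 * μ) (Nat.zero_le i) fun k _ h2 =>
    vB k (by omega))
  have hjr : (j : ℝ) ≤ r := by exact_mod_cast (show j ≤ r by omega)
  have hir : (i : ℝ) ≤ r := by exact_mod_cast (show i ≤ r by omega)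
  have hij' : (j : ℝ) = i + e := by exact_mod_cast hij
  have c5 := mul_le_mul_of_nonneg_left hjr h0
  have c6 := mul_le_mul_of_nonneg_left hir h0
  simp only [Nat.cast_zero, sub_zero, one_mul] at c3 c4
  have c7 : |W (B 0) - W (A 0) - e| ≤ |W (B i) - W (A j)| + 20 * (μ * r) := by
    have := le_abs_self (W (B i) - W (A j))
    have := neg_abs_le (W (B i) - W (A j))
    exact abs_le.2 ⟨by linarith [c3.1, c3.2, c4.1, c4.2], by linarith [c3.1, c3.2, c4.1, c4.2]⟩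
  have c8 := mul_le_mul_of_nonneg_left c7 hφ.le
  have c9 := mul_le_mul_of_nonneg_left hrφ h0
  nlinarith

variable {ι : Type} {c ω : ι → ℂ}

lemma rel (hω : Nm ω) {O i : ι} {μ : ℝ} (h : ‖ω i - ω O‖ ≤ μ) :
    |(ω i * (starRingEnd ℂ) (ω O)).re - 1| ≤ μ ∧ |(ω i * (starRingEnd ℂ) (ω O)).im| ≤ μ ∧
      |(ω i * (starRingEnd ℂ) (ω O)).re| ≤ 1 := by
  have h1 : ω O * (starRingEnd ℂ) (ω O) = 1 := by
    rw [mul_conj, normSq_eq_norm_sq, hω.1]; simp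
  have h2 : ‖ω i * (starRingEnd ℂ) (ω O) - 1‖ ≤ μ := by
    rw [← h1, ← sub_mul, norm_mul, norm_conj, hω.1, mul_one]; exact h
  refine ⟨?_, ?_, ?_⟩
  · simpa using (abs_re_le_norm _).trans h2
  · simpa using (abs_im_le_norm _).trans h2
  · refine (abs_re_le_norm _).trans ?_
    rw [norm_mul, norm_conj, hω.1, hω.1, mul_one]

lemma prod_le {a v μ : ℝ} (h : |a| ≤ μ) (hv : |v| ≤ 1 / 2) : |a * v| ≤ μ / 2 := by
  rw [abs_mul]
  have := mul_le_mul h hv (abs_nonneg _) ((abs_nonneg _).trans h)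
  linarith

/-- a step of a ray in coordinates -/
lemma step (hω : Nm ω) {O i j : ι} {v v' γ μ : ℝ} (h : Step c ω i v j v' γ) (hv : |v| ≤ 1 / 2)
    (hv' : |v'| ≤ 1 / 2) (hi : ‖ω i - ω O‖ ≤ μ) (hj : ‖ω j - ω O‖ ≤ μ) (hγ : γ ≤ 1) :
    |LU c ω O j - LU c ω O i - 1| ≤ 2 * μ + γ ∧ |LW c ω O j - LW c ω O i - (v - v')| ≤ 3 * μ := by
  obtain ⟨-, d, ζ, hd, hζ, he⟩ := h
  obtain ⟨a1, a2, -⟩ := rel hω hi
  obtain ⟨b1, b2, -⟩ := rel hω hj
  have z : |(ζ * (starRingEnd ℂ) (ω O)).im| ≤ μ ∧ |(ζ * (starRingEnd ℂ) (ω O)).re| ≤ 1 := by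
    rcases hζ with rfl | rfl
    exacts [(rel hω hi).2, (rel hω hj).2]
  have e : loc (c O) (ω O) (c j) - loc (c O) (ω O) (c i) =
      ω i * (starRingEnd ℂ) (ω O) * ⟨1 / 2, v⟩ + ω j * (starRingEnd ℂ) (ω O) -
        ω j * (starRingEnd ℂ) (ω O) * ⟨1 / 2, v'⟩ - d * (ζ * (starRingEnd ℂ) (ω O)) := by
    unfold ex at he
    unfold loc
    linear_combination (starRingEnd ℂ) (ω O) * he
  generalize ω i * (starRingEnd ℂ) (ω O) = a at *
  generalize ω j * (starRingEnd ℂ) (ω O) = b at *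
  generalize ζ * (starRingEnd ℂ) (ω O) = z' at *
  have e1 := congrArg re e
  have e2 := congrArg im e
  simp only [sub_re, sub_im, add_re, add_im, mul_re, mul_im, ofReal_re, ofReal_im] at e1 e2
  have p1 := abs_le.1 (prod_le a1 hv)
  have p2 := abs_le.1 (prod_le a2 hv)
  have p3 := abs_le.1 (prod_le b1 hv')
  have p4 := abs_le.1 (prod_le b2 hv')
  have hμ : 0 ≤ μ := (abs_nonneg _).trans a1
  have p5 : |d * z'.re| ≤ γ := by
    rw [abs_mul]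
    have := mul_le_mul hd z.2 (abs_nonneg _) ((abs_nonneg _).trans hd)
    linarith
  have p6 : |d * z'.im| ≤ μ := by
    rw [abs_mul]
    have := mul_le_mul (hd.trans hγ) z.1 (abs_nonneg _) zero_le_one
    linarith
  have p7 := abs_le.1 p5
  have p8 := abs_le.1 p6
  have q1 := abs_le.1 a1
  have q2 := abs_le.1 a2
  have q3 := abs_le.1 b1
  have q4 := abs_le.1 b2
  unfold LU LW
  constructor <;> refine abs_le.2 ⟨?_, ?_⟩ <;>
    linarith [p1.1, p1.2, p2.1, p2.2, p3.1, p3.2, p4.1, p4.2, p7.1, p7.2, p8.1, p8.2, q1.1, q1.2,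
      q2.1, q2.2, q3.1, q3.2, q4.1, q4.2]

/-- the first coordinate of the far end -/
lemma far (hω : Nm ω) {O j : ι} {v v' μ : ℝ} (hv' : |v'| ≤ 1 / 2) (hj : ‖ω j - ω O‖ ≤ μ) :
    |LU c ω O j - LU c ω O O - ((ex c ω j v' - ex c ω O v).re * (ω O).re +
      (ex c ω j v' - ex c ω O v).im * (ω O).im)| ≤ μ := by
  obtain ⟨b1, b2, -⟩ := rel hω hj
  have h1 : ω O * (starRingEnd ℂ) (ω O) = 1 := by
    rw [mul_conj, normSq_eq_norm_sq, hω.1]; simp
  have e : loc (c O) (ω O) (c j) - loc (c O) (ω O) (c O) =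
      (ex c ω j v' - ex c ω O v) * (starRingEnd ℂ) (ω O) + ⟨1 / 2, v⟩ -
        ω j * (starRingEnd ℂ) (ω O) * ⟨1 / 2, v'⟩ := by
    unfold ex loc
    linear_combination (⟨1 / 2, v⟩ : ℂ) * h1
  generalize ω j * (starRingEnd ℂ) (ω O) = b at *
  generalize ex c ω j v' - ex c ω O v = D at *
  have e1 := congrArg re e
  simp only [sub_re, add_re, mul_re, conj_re, conj_im] at e1
  have p4 := abs_le.1 (prod_le b2 hv')
  have q3 := abs_le.1 b1
  unfold LU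
  exact abs_le.2 ⟨by linarith [p4.1, p4.2, q3.1, q3.2], by linarith [p4.1, p4.2, q3.1, q3.2]⟩

lemma ins (hω : Nm ω) {O q : ι} {ϱ : ℝ} (h : ‖c q - c O‖ ≤ ϱ - 2) :
    Ins (LU c ω O) (LW c ω O) ϱ q := by
  have : ‖loc (c O) (ω O) (c q)‖ ≤ ϱ - 2 := by
    unfold loc
    rw [norm_mul, norm_conj, hω.1, mul_one]; exact h
  exact ⟨(abs_re_le_norm _).trans this, (abs_im_le_norm _).trans this⟩

lemma close (H : ColS ω) {O i j : ι} {τ a b : ℝ} (h : ‖ω O - 1‖ ≤ τ) (hτ : τ ≤ 1 / 1000)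
    (ha : |a| ≤ 1) (hb : |b| ≤ 1) (h1 : |(c j).re - (c i).re - a| ≤ 1 / 1000)
    (h2 : |(c j).im - (c i).im - b| ≤ 1 / 1000) :
    |LU c ω O j - LU c ω O i - a| ≤ 1 / 200 ∧ |LW c ω O j - LW c ω O i - b| ≤ 1 / 200 := by
  obtain ⟨k1, k2⟩ := H.coord c O i j τ h
  have a1 := abs_le.1 ha
  have a2 := abs_le.1 hb
  have a3 := abs_le.1 h1
  have a4 := abs_le.1 h2
  have a5 : ‖c j - c i‖ ≤ 3 := by
    refine (norm_le_abs_re_add_abs_im _).trans ?_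
    have b1 : |(c j - c i).re| ≤ 3 / 2 := by
      rw [sub_re]; exact abs_le.2 ⟨by linarith [a1.1, a3.1], by linarith [a1.2, a3.2]⟩
    have b2 : |(c j - c i).im| ≤ 3 / 2 := by
      rw [sub_im]; exact abs_le.2 ⟨by linarith [a2.1, a4.1], by linarith [a2.2, a4.2]⟩
    linarith
  have a6 := mul_le_mul hτ a5 (norm_nonneg _) (by norm_num)
  have a7 := abs_le.1 k1
  have a8 := abs_le.1 k2
  constructor <;> refine abs_le.2 ⟨?_, ?_⟩ <;>
    linarith [a3.1, a3.2, a4.1, a4.2, a7.1, a7.2, a8.1, a8.2]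

lemma colnear (H : ColS ω) {O : ι} {τ η : ℝ} {m : ℕ} {A : ℕ → ι} (h : ‖ω O - 1‖ ≤ τ)
    (hτ : τ ≤ 1 / 1000) (hA : Col c ω η η m A) (hη : η ≤ 1 / 10000) (j : ℕ) (hj : j < m) :
    |LU c ω O (A (j + 1)) - LU c ω O (A j) - 0| ≤ 1 / 200 ∧
      |LW c ω O (A (j + 1)) - LW c ω O (A j) - 1| ≤ 1 / 200 := by
  have h1 := (H.geo c η η m A j (j + 1) hA (by linarith) (Nat.le_succ j) hj).1
  push_cast at h1
  refine close H h hτ (by simp) (by simp) ?_ ((hA.2 j hj).2.trans (by linarith))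
  rw [sub_zero]
  linarith

end Straight

open Straight

variable {ι : Type} [Fintype ι] [DecidableEq ι] {ω : ι → ℂ}

theorem straightS (hω : Nm ω) (L : L1 ω) : StraightS ω := by
  intro c r lam η τ w w' G G' X φ T t ρ ρ' m A hP h h' hT ht hX hφ hp hXG hg hgw hw hrφ
  obtain ⟨hη0, hrη, hη, hτ, hG⟩ := small hP h.τ0
  have hG0 := h.G0
  have hG0' := h'.G0
  have hτ0 := h.τ0
  have hg0 := h.g0 t
  have hgG := h.le ht.le
  have hgG' := h'.le ht.le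
  have hX0 : 0 ≤ X := (abs_nonneg _).trans hX
  have hr : (100 : ℝ) ≤ r := by exact_mod_cast hP.r100
  obtain ⟨μ, h0, hμg, hC, hmar⟩ := h.c2 t ht.le
  have hv := h.v t ht.le
  have hv1 := h.v (t + 1) ht
  have hmar' : μ < φ / 10 ^ 4 * (1 / 2 - |ρ.V t|) :=
    (hmar hgw).trans_le (mul_le_mul_of_nonneg_right (by linarith) (by linarith))
  have hμ : μ ≤ φ / 1000 := by linarith
  have hφr : φ * 100 ≤ φ * r := mul_le_mul_of_nonneg_left hr hφ.le
  have hO := h.tilt t ht.le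
  have dA : ∀ j ≤ m t, ‖c (A t j) - c (ρ.J t)‖ ≤ r + 2 := fun j hj =>
    (L.col.inn c r lam η τ _ T ρ ρ' m A t j hP hT ht.le hv (h'.v t ht.le) hj).1
  have d1 : ‖c (ρ.J (t + 1)) - c (ρ.J t)‖ ≤ 3 := by
    have k1 := (L.w.cen c (ρ.J t) (ρ.V t) τ hO hv).2.2
    have k2 := (L.w.cen c (ρ.J (t + 1)) (ρ.V (t + 1)) τ (h.tilt _ ht) hv1).2.2
    have k3 := (h.step' ht).norm hω
    have k4 : c (ρ.J (t + 1)) - c (ρ.J t) =
        (c (ρ.J (t + 1)) - ex c ω (ρ.J (t + 1)) (ρ.V (t + 1))) - (c (ρ.J t) - ex c ω (ρ.J t) (ρ.V t)) +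
        ((ex c ω (ρ.J (t + 1)) (ρ.V (t + 1)) - ex c ω (ρ.J t) (ρ.V t) - ω (ρ.J (t + 1))) +
          ω (ρ.J (t + 1))) := by ring
    rw [k4]
    refine (norm_add_le _ _).trans ?_
    have k5 := norm_sub_le (c (ρ.J (t + 1)) - ex c ω (ρ.J (t + 1)) (ρ.V (t + 1)))
      (c (ρ.J t) - ex c ω (ρ.J t) (ρ.V t))
    have k6 := norm_add_le (ex c ω (ρ.J (t + 1)) (ρ.V (t + 1)) - ex c ω (ρ.J t) (ρ.V t) -
      ω (ρ.J (t + 1))) (ω (ρ.J (t + 1)))
    rw [hω.1] at k6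
    linarith
  have dB : ∀ j ≤ m (t + 1), ‖c (A (t + 1) j) - c (ρ.J t)‖ ≤ r + 5 := fun j hj => by
    have k1 := (L.col.inn c r lam η τ _ T ρ ρ' m A (t + 1) j hP hT ht hv1 (h'.v _ ht) hj).1
    have k2 := norm_sub_le_norm_sub_add_norm_sub (c (A (t + 1) j)) (c (ρ.J (t + 1))) (c (ρ.J t))
    linarith
  have aA : ∀ j ≤ m t, ‖ω (A t j) - ω (ρ.J t)‖ ≤ μ := fun j hj =>
    hC.ang _ ((dA j hj).trans (by linarith))
  have aB : ∀ j ≤ m (t + 1), ‖ω (A (t + 1) j) - ω (ρ.J t)‖ ≤ μ := fun j hj =>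
    hC.ang _ ((dB j hj).trans (by linarith))
  have hL := L.calm.lm c (ρ.J t) (20 * r / 3) _ μ hC (by linarith) (by linarith)
  obtain ⟨e, b, he, he', hb, hAB⟩ := hT.adj t ht
  have s1 := step (c := c) hω (O := ρ.J t) (h.step' ht) hv hv1 (by simpa using h0)
    (hT.lo (t + 1) ht ▸ aB 0 (Nat.zero_le _)) (by linarith)
  have s2 := step (c := c) hω (O := ρ.J t) (h'.step' ht) (h'.v t ht.le) (h'.v _ ht)
    (hT.hi t ht.le ▸ aA _ le_rfl) (hT.hi (t + 1) ht ▸ aB _ le_rfl) (by linarith)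
  have s3 := far (c := c) hω (O := ρ.J t) (j := ρ'.J t) (v := ρ.V t) (h'.v t ht.le)
    (hT.hi t ht.le ▸ aA _ le_rfl)
  have him : (r : ℝ) - 3 ≤ (ρ'.P c ω t - ρ.P c ω t).im := by
    have k1 := abs_le.1 (L.col.geo c η η (m t) (A t) 0 (m t) (hT.col t ht.le) (by linarith)
      (Nat.zero_le _) le_rfl).2
    have k2 := abs_le.1 (L.w.cen c (ρ.J t) (ρ.V t) τ hO hv).2.1
    have k3 := abs_le.1 (L.w.cen c (ρ'.J t) (ρ'.V t) τ (h'.tilt t ht.le) (h'.v t ht.le)).2.1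
    have k4 : (r : ℝ) ≤ m t + 1 := by exact_mod_cast (hT.len t ht.le).1
    have k5 : (m t : ℝ) ≤ r + 1 := by exact_mod_cast (hT.len t ht.le).2
    have k6 := mul_le_mul_of_nonneg_right k5 hη0
    have k7 := abs_le.1 hv
    have k8 := abs_le.1 (h'.v t ht.le)
    rw [hT.lo t ht.le, hT.hi t ht.le] at k1
    simp only [Ry.P, sub_im, Nat.cast_zero, sub_zero] at k1 k2 k3 ⊢
    linarith [k1.1, k2.1, k2.2, k3.1, k3.2, k7.1, k7.2, k8.1, k8.2]
  have big : 4 / 5 * (φ * r) ≤ |LU c ω (ρ.J t) (ρ'.J t) - LU c ω (ρ.J t) (ρ.J t)| := by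
    have k1 := (L.tilt.one _ (hω.1 _) (hO.trans (by linarith))).2.2.2.2.2.2
    have k2 : (ω (ρ.J t)).im = ρ.p ω t * (ω (ρ.J t)).re := by
      unfold Ry.p tl
      rw [div_mul_cancel₀ _ (by linarith)]
    change |_ - ((ρ'.P c ω t - ρ.P c ω t).re * _ + (ρ'.P c ω t - ρ.P c ω t).im * _)| ≤ μ at s3
    rw [k2] at s3
    generalize ρ'.P c ω t - ρ.P c ω t = D at *
    generalize (ω (ρ.J t)).re = o at *
    generalize ρ.p ω t = p at *
    have k3 : φ * (r - 3) ≤ |D.im * p| := by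
      rw [abs_mul, mul_comm φ]
      exact mul_le_mul (him.trans (le_abs_self _)) hp hφ.le (abs_nonneg _)
    have k4 : 87 / 100 * (φ * r) ≤ |D.re + D.im * p| := by
      have := abs_sub (D.re + D.im * p) D.re
      rw [add_sub_cancel_left] at this
      linarith
    have k5 : 87 / 100 * (φ * r) * (9999 / 10000) ≤ |D.re * o + D.im * (p * o)| := by
      rw [show D.re * o + D.im * (p * o) = (D.re + D.im * p) * o by ring, abs_mul]
      exact mul_le_mul k4 (k1.trans (le_abs_self _)) (by norm_num) (abs_nonneg _)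
    have k6 := abs_sub_abs_le_abs_sub (D.re * o + D.im * (p * o))
      (LU c ω (ρ.J t) (ρ'.J t) - LU c ω (ρ.J t) (ρ.J t))
    rw [abs_sub_comm] at s3
    linarith
  have key := coords L.loc (LU c ω (ρ.J t)) (LW c ω (ρ.J t)) (A t) (A (t + 1)) (e := e) (b := b)
    (γ := 2 * μ + (G + G')) hL h0 hφ hμ hP.r100 hrφ (hT.len t ht.le) (hT.len (t + 1) ht)
    (fun j hj => ins hω ((dA j hj).trans (by linarith)))
    (fun j hj => ins hω ((dB j hj).trans (by linarith)))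
    (colnear L.col hO (by linarith) (hT.col t ht.le) (by linarith))
    (colnear L.col hO (by linarith) (hT.col (t + 1) ht) (by linarith)) he he' hb
    (fun i j h1 h2 h3 => close L.col hO (by linarith) (by simp) (by linarith)
      ((hAB i j h1 h2 h3).1.trans (by linarith)) ((hAB i j h1 h2 h3).2.trans (by linarith)))
    (by rw [hT.lo t ht.le, hT.lo (t + 1) ht]; linarith [s1.1])
    (by rw [hT.hi t ht.le, hT.hi (t + 1) ht]; linarith [s2.1]) (by linarith)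
    (by rw [hT.lo t ht.le, hT.hi t ht.le]; exact big)
  rw [hT.lo t ht.le, hT.lo (t + 1) ht] at key
  have hφ1 : φ ≤ 1 := by linarith
  have k1 : φ * |ρ.V t - ρ.V (t + 1) - e| ≤ 83 * μ := by
    have k2 : |ρ.V t - ρ.V (t + 1) - e| ≤
        |LW c ω (ρ.J t) (ρ.J (t + 1)) - LW c ω (ρ.J t) (ρ.J t) - e| + 3 * μ := by
      have k3 := abs_le.1 s1.2
      have k4 := le_abs_self (LW c ω (ρ.J t) (ρ.J (t + 1)) - LW c ω (ρ.J t) (ρ.J t) - e)
      have k5 := neg_abs_le (LW c ω (ρ.J t) (ρ.J (t + 1)) - LW c ω (ρ.J t) (ρ.J t) - e)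
      exact abs_le.2 ⟨by linarith [k3.1, k3.2], by linarith [k3.1, k3.2]⟩
    have k6 := mul_le_mul_of_nonneg_left k2 hφ.le
    have k7 := mul_le_mul_of_nonneg_right hφ1 h0
    linarith
  by_cases h1 : e = 0
  · rw [h1, Int.cast_zero, sub_zero, abs_sub_comm] at k1
    have := mul_nonneg (sq_nonneg (r : ℝ)) hg0
    linarith
  · exfalso
    have k2 : 1 / 2 - |ρ.V t| ≤ |ρ.V t - ρ.V (t + 1) - e| := by
      have k3 : (1 : ℝ) ≤ |(e : ℝ)| := by exact_mod_cast Int.one_le_abs h1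
      have k4 := abs_sub (ρ.V t - ρ.V (t + 1)) (ρ.V t - ρ.V (t + 1) - e)
      have k5 := abs_sub (ρ.V t) (ρ.V (t + 1))
      rw [sub_sub_cancel] at k4
      linarith
    have k6 := mul_le_mul_of_nonneg_left k2 hφ.le
    linarith

end Pool.Agent.MP_c59ecb_co.sh

end MrgPart0

-- ======== part 1: formerly Pool.Agent.MP_c59ecb_co.sh.Shot
section MrgPart1

/-! Existence of the short rays. -/

set_option autoImplicit false

namespace Pool.Agent.MP_c59ecb_co.sh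

open MeasureTheory Complex Pool.Agent.MP_c59ecb_co.h76

namespace ShotP

lemma pth2 (L : PthS) {T : ℕ} {Q : ℕ → ℂ} (h : Pth (1 / 10 ^ 6) T Q) {a b : ℕ} (ha : a ≤ T)
    (hb : b ≤ T) : |(Q b).re - (Q a).re| ≤ |(b : ℝ) - a| / 10 ^ 6 ∧
      |(Q b).im - (Q a).im + (b - a)| ≤ |(b : ℝ) - a| / 10 ^ 6 := by
  rcases le_total a b with k | k
  · obtain ⟨h1, h2⟩ := L.geo _ _ _ a b h k hb
    have k' : (a : ℝ) ≤ b := by exact_mod_cast k
    rw [sub_re] at h1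
    rw [sub_im] at h2
    rw [abs_of_nonneg (sub_nonneg.2 k')]
    constructor <;> linarith
  · obtain ⟨h1, h2⟩ := L.geo _ _ _ b a h k ha
    have k' : (b : ℝ) ≤ a := by exact_mod_cast k
    rw [sub_re, abs_le] at h1
    rw [sub_im, abs_le] at h2
    rw [abs_of_nonpos (sub_nonpos.2 k')]
    constructor <;> rw [abs_le] <;> constructor <;> linarith [h1.1, h1.2, h2.1, h2.2]

lemma pth3 (L : PthS) {T : ℕ} {Q : ℕ → ℂ} (h : Pth (1 / 10 ^ 6) T Q) {a b : ℕ} (ha : a ≤ T)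
    (hb : b ≤ T) {y : ℝ} (h1 : (Q b).im - (Q a).im ≤ y) (h2 : (Q a).im - (Q b).im ≤ y) :
    (Q b).re - (Q a).re ≤ y / 10 ^ 5 := by
  obtain ⟨k1, k2⟩ := pth2 L h ha hb
  rw [abs_le] at k1 k2
  rcases abs_cases ((b : ℝ) - a) with ⟨e, e'⟩ | ⟨e, e'⟩ <;> rw [e] at k1 k2 <;>
    linarith [k1.1, k1.2, k2.1, k2.2]

lemma pth4 (L : PthS) {T : ℕ} {Q : ℕ → ℂ} (h : Pth (1 / 10 ^ 6) T Q) {a b : ℕ} (ha : a ≤ T)
    (hb : b ≤ T) : |(Q b).re - (Q a).re| ≤ T / 10 ^ 6 ∧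
      |(Q b).im - (Q a).im + (b - a)| ≤ T / 10 ^ 6 := by
  obtain ⟨k1, k2⟩ := pth2 L h ha hb
  have a1 : (a : ℝ) ≤ T := by exact_mod_cast ha
  have b1 : (b : ℝ) ≤ T := by exact_mod_cast hb
  have : |(b : ℝ) - a| ≤ T := abs_le.2 ⟨by linarith [Nat.cast_nonneg (α := ℝ) b],
    by linarith [Nat.cast_nonneg (α := ℝ) a]⟩
  constructor <;> linarith

lemma nrm {z : ℂ} (h1 : |z.re| ≤ 11 / 10) (h2 : |z.im| ≤ 1) : ‖z‖ ≤ 3 / 2 := by
  refine abs_le_of_sq_le_sq' ?_ (by norm_num) |>.2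
  rw [Complex.sq_norm, normSq_apply]
  rw [abs_le] at h1 h2
  nlinarith [h1.1, h1.2, h2.1, h2.2]

lemma re_le {z : ℂ} (h : 3 < ‖z‖) (h1 : 2 ≤ -1 * z.re) (h2 : |z.im| ≤ 3 / 5) :
    z.re ≤ -(12 / 5) := by
  by_contra k
  have h3 : 3 ^ 2 < ‖z‖ ^ 2 := by gcongr
  rw [Complex.sq_norm, normSq_apply] at h3
  rw [abs_le] at h2
  nlinarith [h2.1, h2.2, not_le.1 k]

lemma parts {z w : ℂ} {y : ℝ} (h : ‖z - w‖ ≤ y) :
    (-y ≤ z.re - w.re ∧ z.re - w.re ≤ y) ∧ -y ≤ z.im - w.im ∧ z.im - w.im ≤ y :=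
  ⟨abs_le.1 (by rw [← sub_re]; exact (abs_re_le_norm _).trans h),
    abs_le.1 (by rw [← sub_im]; exact (abs_im_le_norm _).trans h)⟩

/-- the crossing argument for paths -/
lemma core (L : PthS) {n T0 T' s kb kt : ℕ} {Ks : Finset ℕ} {Q : ℕ → ℕ → ℂ} {z : ℕ → ℂ} {R : ℝ}
    (hT : T0 = 2 * n) (hn : 10 ^ 6 ≤ n) (hR : 100 ≤ R)
    (pth : ∀ k ∈ Ks, Pth (1 / 10 ^ 6) (2 * T0) (Q k)) (hb : kb ∈ Ks) (ht : kt ∈ Ks)
    (hlt : kt < kb) (hmid : ∀ k ∈ Ks, ¬ (kt < k ∧ k < kb))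
    (him : ∀ k ∈ Ks, |(Q k T0).im - (Q kb T0).im| ≤ n / 1000)
    (hre : (Q kt T0).re - (Q kb T0).re ≤ n / 1000) (s1 : n ≤ 2 * s) (s2 : 2 * s ≤ 7 * n)
    (z1 : -(1 / 100) ≤ (z 0 - Q kb s).re) (z2 : (z 0 - Q kb s).re ≤ 11 / 10)
    (z3 : |(z 0 - Q kb s).im| ≤ 1)
    (geo : ∀ a b : ℕ, a ≤ b → b ≤ T' → ((b : ℝ) - a) * (1 - (1 / 10 ^ 6) ^ 2) - 1 / 10 ^ 6 ≤
      (z b - z a).re ∧ (z b - z a).re ≤ b - a + 1 / 10 ^ 6 ∧
        |(z b - z a).im| ≤ 1 / 10 ^ 6 * (b - a) + 1 / 10 ^ 6)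
    (far : ∀ k ∈ Ks, k ≠ kb → ∀ j ≤ 2 * T0, R - 4 < ‖Q kb s - Q k j‖)
    (side : ∀ k ∈ Ks, ∀ k' ∈ Ks, k ≠ k' → ∀ j, n ≤ 5 * j → 5 * j ≤ 19 * n →
      ∃ s ≤ 2 * T0, |(Q k' j - Q k s).im| ≤ 3 / 5 ∧
        R - 5 ≤ (if k' < k then 1 else -1) * (Q k' j - Q k s).re)
    (stop : T' < n / 100 → ∃ k ∈ Ks, k ≠ kb ∧ ∃ j ≤ 2 * T0, ‖z T' - Q k j‖ ≤ 3) :
    ∃ Ts h, Ts < T' ∧ Ts < n / 100 ∧ 2 * n ≤ 5 * h ∧ 5 * h ≤ 18 * n ∧
      |(z Ts - Q kt h).im| ≤ 3 / 5 ∧ -(21 / 5) ≤ (z Ts - Q kt h).re ∧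
      (z Ts - Q kt h).re ≤ -(12 / 5) ∧
      ∀ k ∈ Ks, k ≠ kb → ∀ t ≤ Ts, ∀ j ≤ 2 * T0, 3 < ‖z t - Q k j‖ := by
  have hn' : (10 : ℝ) ^ 6 ≤ n := by exact_mod_cast hn
  have hT' : (T0 : ℝ) = 2 * n := by exact_mod_cast hT
  have hT2 : ((2 * T0 : ℕ) : ℝ) = 4 * n := by push_cast; linarith
  have s1' : (n : ℝ) ≤ 2 * s := by exact_mod_cast s1
  have s2' : 2 * (s : ℝ) ≤ 7 * n := by exact_mod_cast s2
  have hs : s ≤ 2 * T0 := by omega
  have N1 : 100 * ((n / 100 : ℕ) : ℝ) ≤ n := by exact_mod_cast Nat.mul_div_le n 100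
  have N2 : (n : ℝ) ≤ 100 * ((n / 100 : ℕ) : ℝ) + 100 := by
    exact_mod_cast (show n ≤ 100 * (n / 100) + 100 by omega)
  generalize n / 100 = N at *
  -- heights
  have hq : ∀ k ∈ Ks, ∀ j ≤ 2 * T0, (Q kb T0).im + 2 * n - j - n / 500 ≤ (Q k j).im ∧
      (Q k j).im ≤ (Q kb T0).im + 2 * n - j + n / 500 := by
    intro k hk j hj
    have h1 := abs_le.1 (pth4 L (pth k hk) (show T0 ≤ 2 * T0 by omega) hj).2
    have h2 := abs_le.1 (him k hk)
    rw [hT2, hT'] at h1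
    constructor <;> linarith [h1.1, h1.2, h2.1, h2.2]
  have hz : ∀ t ≤ T', t ≤ N → (Q kb T0).im + 2 * n - s - n / 400 ≤ (z t).im ∧
      (z t).im ≤ (Q kb T0).im + 2 * n - s + n / 400 := by
    intro t t1 t2
    have h1 := abs_le.1 (geo 0 t (Nat.zero_le _) t1).2.2
    have h2 := hq kb hb s hs
    have h3 := abs_le.1 z3
    have h4 : (t : ℝ) ≤ N := by exact_mod_cast t2
    simp only [sub_im, Nat.cast_zero, sub_zero] at h1 h3
    constructor <;> linarith [h1.1, h1.2, h2.1, h2.2, h3.1, h3.2]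
  have z0 : ‖z 0 - Q kb s‖ ≤ 3 / 2 := nrm (abs_le.2 ⟨by linarith, z2⟩) z3
  -- the ray stays on the left
  have left : ∀ t ≤ T', t ≤ N → (∀ u ≤ t, ∀ j ≤ 2 * T0, 3 < ‖z u - Q kt j‖) →
      Side (2 * T0) (Q kt) (-1) (z t) := by
    have c : ∀ t ≤ T', t ≤ N → ∀ w, Side (2 * T0) (Q kt) (-1) w → ‖z t - w‖ ≤ 3 / 2 →
        (∀ j ≤ 2 * T0, 3 < ‖z t - Q kt j‖) → Side (2 * T0) (Q kt) (-1) (z t) := by
      intro t t1 t2 w h1 h2 h3
      have a1 := hq kt ht 0 (Nat.zero_le _)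
      have a2 := hq kt ht (2 * T0) le_rfl
      have a3 := hz t t1 t2
      rw [hT2] at a2
      rw [Nat.cast_zero] at a1
      exact L.cross _ _ _ _ w _ (pth kt ht) (by norm_num) (by norm_num) (Or.inr rfl) h1 h2 h3
        (by linarith [a2.2, a3.1]) (by linarith [a1.1, a3.2])
    intro t
    induction t with
    | zero =>
      intro t1 t2 h
      obtain ⟨j, j1, j2, j3⟩ := side kt ht kb hb hlt.ne s (by omega) (by omega)
      rw [if_neg hlt.not_gt] at j3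
      exact c 0 t1 t2 _ ⟨j, j1, j2, by linarith⟩ z0 (h 0 le_rfl)
    | succ t ih =>
      intro t1 t2 h
      refine c _ t1 t2 _ (ih (by omega) (by omega) fun u hu => h u (by omega)) ?_ (h _ le_rfl)
      obtain ⟨g1, g2, g3⟩ := geo t (t + 1) (by omega) t1
      push_cast at g1 g2 g3
      exact nrm (abs_le.2 ⟨by linarith, by linarith⟩) (by linarith)
  -- the first meeting
  have ex : ∃ t, t ≤ T' ∧ t ≤ N ∧ ∃ k ∈ Ks, k ≠ kb ∧ ∃ j ≤ 2 * T0, ‖z t - Q k j‖ ≤ 3 := by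
    rcases lt_or_ge T' N with h | h
    · exact ⟨T', le_rfl, h.le, stop h⟩
    by_contra k
    obtain ⟨j, j1, -, j3⟩ := left N h le_rfl fun u hu j hj =>
      not_le.1 fun c => k ⟨u, hu.trans h, hu, kt, ht, hlt.ne, j, hj, c⟩
    have h1 := abs_le.1 (pth4 L (pth kt ht) (show T0 ≤ 2 * T0 by omega) j1).1
    have h2 := abs_le.1 (pth4 L (pth kb hb) (show T0 ≤ 2 * T0 by omega) hs).1
    have h3 := (geo 0 N (Nat.zero_le _) h).1
    rw [hT2] at h1 h2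
    simp only [sub_re, Nat.cast_zero, sub_zero] at h3 j3 z1
    linarith [h1.2, h2.1]
  classical
  obtain ⟨t1, t2, k, hk, kn, j, j1, j2⟩ := Nat.find_spec ex
  have hmin : ∀ u < Nat.find ex, ∀ k ∈ Ks, k ≠ kb → ∀ j ≤ 2 * T0, 3 < ‖z u - Q k j‖ :=
    fun u hu k hk kn j hj => not_le.1 fun c =>
      Nat.find_min ex hu ⟨by omega, by omega, k, hk, kn, j, hj, c⟩
  generalize Nat.find ex = t at *
  obtain rfl | ⟨t, rfl⟩ : t = 0 ∨ ∃ u, t = u + 1 := by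
    cases t
    exacts [Or.inl rfl, Or.inr ⟨_, rfl⟩]
  · have h1 := far k hk kn j j1
    have h2 := norm_sub_le_norm_sub_add_norm_sub (Q kb s) (z 0) (Q k j)
    rw [norm_sub_rev (Q kb s) (z 0)] at h2
    linarith
  obtain ⟨h, h1, h2, h3⟩ := left t (by omega) (by omega) fun u hu j hj =>
    hmin u (by omega) kt ht hlt.ne j hj
  have h4 := re_le (hmin t (by omega) kt ht hlt.ne h h1) h3 h2
  have h2' := abs_le.1 h2
  have a1 := hq kt ht h h1
  have a2 := hz t (by omega) (by omega)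
  have a3 := hz (t + 1) t1 t2
  have a4 := hq k hk j j1
  obtain ⟨⟨p1, p2⟩, p3, p4⟩ := parts j2
  obtain ⟨g1, g2, g3⟩ := geo t (t + 1) (by omega) t1
  rw [abs_le] at g3
  obtain ⟨g3, g4⟩ := g3
  simp only [sub_re, sub_im] at h2' g1 g2 g3 g4
  push_cast at g1 g2 g3 g4
  have j3 : n ≤ 5 * j := by
    exact_mod_cast (show (n : ℝ) ≤ 5 * j by linarith [a3.2, a4.1])
  have j4 : 5 * j ≤ 19 * n := by
    exact_mod_cast (show 5 * (j : ℝ) ≤ 19 * n by linarith [a3.1, a4.2])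
  refine ⟨t, h, by omega, by omega, ?_, ?_, h2, ?_, h4, fun k hk kn u hu => hmin u (by omega) k hk kn⟩
  · exact_mod_cast (show 2 * (n : ℝ) ≤ 5 * h by linarith [a1.1, a2.2, h2'.1])
  · exact_mod_cast (show 5 * (h : ℝ) ≤ 18 * n by linarith [a1.2, a2.1, h2'.2])
  rw [sub_re] at h4 ⊢
  rcases lt_trichotomy k kt with c | rfl | c
  · obtain ⟨i, i1, i2, i3⟩ := side kt ht k hk c.ne' j j3 j4
    rw [if_pos c, sub_re] at i3
    rw [sub_im, abs_le] at i2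
    have := pth3 L (pth kt ht) i1 h1 (y := 6) (by linarith [i2.1, i2.2, h2'.1, h2'.2])
      (by linarith [i2.1, i2.2, h2'.1, h2'.2])
    linarith
  · have := pth3 L (pth k ht) j1 h1 (y := 6) (by linarith [h2'.1, h2'.2])
      (by linarith [h2'.1, h2'.2])
    linarith
  · have c' : kb < k := lt_of_le_of_ne (not_lt.1 fun e => hmid k hk ⟨c, e⟩) kn.symm
    obtain ⟨i, i1, i2, i3⟩ := side kb hb k hk c'.ne j j3 j4
    rw [if_neg c'.not_gt, sub_re] at i3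
    rw [sub_im, abs_le] at i2
    obtain ⟨f1, -, f3⟩ := geo 0 (t + 1) (Nat.zero_le _) t1
    rw [abs_le] at f3 z3
    simp only [sub_re, sub_im, Nat.cast_zero, sub_zero] at f1 f3 z1 z3
    push_cast at f1 f3
    have t0 := Nat.cast_nonneg (α := ℝ) t
    have := pth3 L (pth kb hb) hs i1 (y := 6 + t) (by linarith [i2.1, i2.2, f3.1, f3.2, z3.1, z3.2])
      (by linarith [i2.1, i2.2, f3.1, f3.2, z3.1, z3.2])
    linarith

lemma Q_re {ι : Type} (ρ : Ry ι) (d ω : ι → ℂ) (k : ℕ) :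
    (ρ.Q d ω k).re = (ρ.P (rt I d) ω k).im := by simp [Ry.Q]

lemma Q_im {ι : Type} (ρ : Ry ι) (d ω : ι → ℂ) (k : ℕ) :
    (ρ.Q d ω k).im = -(ρ.P (rt I d) ω k).re := by simp [Ry.Q]

end ShotP

open ShotP

variable {ι : Type} [Fintype ι] [DecidableEq ι] {ω : ι → ℂ}

theorem shotS (hω : Nm ω) (L : L3 ω) : ShotS ω := by
  intro P d Ks ρ kb kt s H fr fam hb ht hlt hmid hNU rng H0 H1 hL
  have t1p := P.mn_pos 9 5
  have t2p := P.mn_pos 36 5
  have thp := P.mn_pos 3 10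
  have t12 : 10 ^ 30 * P.t1 ≤ P.t2 := P.mn_le le_rfl (by norm_num)
  have t2s : 10 ^ 30 * P.t2 ≤ 1 := P.mn_small (by norm_num) (by norm_num)
  have ths : 10 ^ 30 * P.th1 ≤ 1 := P.mn_small (by norm_num) (by norm_num)
  have nu : 10 ^ 30 * P.mn 12 (-20) ≤ P.n := by
    rw [P.n_eq]
    exact P.mn_le (by norm_num) (by norm_num)
  have rb := P.r_big
  have nb : (10 : ℝ) ^ 30 ≤ P.n := by linarith [P.r_le_n]
  have nb' : 10 ^ 30 ≤ P.n := by exact_mod_cast nb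
  have hT : P.T0 = 2 * P.n := rfl
  have hs : s ≤ 2 * P.T0 := by have := rng.2; omega
  have hT2 : ((2 * P.T0 : ℕ) : ℝ) = 4 * P.n := by push_cast; linarith [P.T0_eq]
  have s1 : (P.n : ℝ) ≤ 2 * s := by exact_mod_cast rng.1
  have s2 : 2 * (s : ℝ) ≤ 7 * P.n := by exact_mod_cast rng.2
  have pth : ∀ k ∈ Ks, Pth (1 / 10 ^ 6) (2 * P.T0) ((ρ k).Q d ω) := fun k hk u hu =>
    (L.path.pth d _ _ _ _ _ _ (fam.base k hk).wray u hu).trans (by linarith)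
  have wb := (fam.base kb hb).wray
  obtain ⟨v, v1, v2⟩ := (L.pick _ _ H H H0 H0 hL hL).1
  obtain ⟨e1, e2⟩ := L.path.start d _ _ _ _ v _ s _ wb hs v1
  have e3 := abs_le.1 (wb.v s hs)
  have v3 := abs_le.1 v1
  rw [abs_le] at e1 e2
  obtain ⟨T', K, k1, k2, st⟩ := L.launch.launch P d 0 (4 * H) P.t2 v (StF P Ks ρ) P.T1
    ((ρ kb).J s) fr le_rfl (by unfold Pm.T1; omega) (by linarith) (by linarith [wb.tilt s hs])
    le_rfl (v1.trans (by norm_num)) (by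
      have h1 := abs_le.1 (pth4 L.pth (pth kb hb) (show P.T0 ≤ 2 * P.T0 by omega) hs).2
      have h2 := abs_le.1 (fam.base kb hb).px
      rw [hT2, P.T0_eq, Q_im _ _ _ P.T0] at h1
      rw [sub_im] at e2
      exact abs_le.2 ⟨by linarith [h1.1, h2.2, e2.1, v3.1], by linarith [h1.2, h2.1, e2.2, v3.2]⟩)
    (by
      have h1 := abs_le.1 (pth4 L.pth (pth kb hb) (show P.T0 ≤ 2 * P.T0 by omega) hs).1
      have h2 := abs_le.1 (fam.base kb hb).py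
      rw [hT2, Q_re _ _ _ P.T0] at h1
      rw [sub_re] at e1
      linarith [h1.1, h2.1, e1.1, e3.2])
    (by
      have h1 := abs_le.1 (pth4 L.pth (pth kb hb) (show P.T0 ≤ 2 * P.T0 by omega) hs).1
      have h2 := abs_le.1 (fam.base kb hb).py
      rw [hT2, Q_re _ _ _ P.T0] at h1
      rw [sub_re] at e1
      linarith [h1.2, h2.2, e1.2, e3.1, P.T1_le]) v2
  have z0 : K.P d ω 0 = ex d ω ((ρ kb).J s) v := by rw [Ry.P, k1, k2]
  have wK : Wray d ω P.R 0 (1 / 10 ^ 6) T' (1 / 10 ^ 6) K :=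
    st.wray.mono (by linarith) le_rfl (by linarith)
  have off : ∀ k ∈ Ks, ∀ k' ∈ Ks, k < k' →
      |((ρ k).Q d ω P.T0).im - ((ρ k').Q d ω P.T0).im| ≤ P.n / 1000 := by
    intro k hk k' hk' c
    have h1 := (fam.off k hk k' hk' c).2.2
    have h2 : (k' : ℝ) ≤ P.T := by exact_mod_cast fam.le k' hk'
    have h3 : P.th1 * ((k' : ℝ) - k) ≤ 1 / 10 ^ 30 * (2 * P.n) :=
      mul_le_mul (by linarith) (by linarith [P.T_eq, P.T1_le, Nat.cast_nonneg (α := ℝ) k])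
        (sub_nonneg.2 (by exact_mod_cast c.le)) (by norm_num)
    rw [sub_re, abs_le] at h1
    rw [Q_im, Q_im]
    exact abs_le.2 ⟨by linarith [h1.2], by linarith [h1.1]⟩
  obtain ⟨Ts, h, c1, c2, c3, c4, c5, c6, c7, c8⟩ := ShotP.core L.pth (T' := T') (s := s) (R := P.R)
    (Q := fun k => (ρ k).Q d ω) (z := K.P d ω) hT (by omega) (by linarith) pth hb ht hlt hmid
    (fun k hk => by
      rcases lt_trichotomy k kb with c | rfl | c
      · exact off k hk kb hb c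
      · rw [sub_self, abs_zero]
        linarith
      · rw [abs_sub_comm]
        exact off kb hb k hk c)
    (by
      have h1 := (fam.off kt ht kb hb hlt).2.1
      have h3 : P.th1 * ((kb : ℝ) - kt) ≤ 1 / 10 ^ 30 * P.n :=
        mul_le_mul (by linarith) (by linarith) (sub_nonneg.2 (by exact_mod_cast hlt.le))
          (by norm_num)
      rw [sub_im, abs_le] at h1
      simp only [Q_re]
      linarith [h1.2])
    rng.1 rng.2 (by rw [z0]; linarith [e1.1, e3.2]) (by rw [z0]; linarith [e1.2, e3.1])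
    (by rw [z0]; exact abs_le.2 ⟨by linarith [e2.1, v3.1], by linarith [e2.2, v3.2]⟩)
    (fun a b h1 h2 => L.w.geo d _ _ _ _ _ K a b wK h1 h2)
    (fun k hk kn j hj => L.side.far P d Ks ρ k kb fam hk hb kn s hs j hj)
    (fun k hk k' hk' kn j j1 j2 => L.side.side P d Ks ρ k k' j fam hk hk' kn j1 j2)
    (fun hT' => by
      have m : K.J (T' + 1) ∈ StF P Ks ρ := st.stop.resolve_left (by unfold Pm.T1; omega)
      obtain ⟨k, hk, m⟩ := Finset.mem_biUnion.1 m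
      obtain ⟨j, hj, m⟩ := Finset.mem_image.1 m
      have hj' : j ≤ 2 * P.T0 := Nat.lt_succ_iff.1 (Finset.mem_range.1 hj)
      refine ⟨k, hk, ?_, j, hj', ?_⟩
      · rintro rfl
        exact L.path.nomeet P d _ _ _ _ _ _ _ _ _ _ T' s _ K wb st (by linarith) (by linarith) hs
          k1 (k2 ▸ v1) (T' + 1) (Nat.succ_pos _) le_rfl j hj' m.symm
      · have h1 := st.last.norm hω
        have h2 := wK.le (le_refl T')
        have h3 := (L.w.cen d _ _ _ st.tlt st.vl).2.2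
        obtain ⟨h4, h5⟩ := L.path.cen d _ _ _ _ _ j _ (fam.base k hk).wray hj'
        have h6 := abs_le.1 ((fam.base k hk).wray.v j hj')
        have h7 := norm_le_abs_re_add_abs_im (d ((ρ k).J j) - (ρ k).Q d ω j)
        rw [abs_le] at h4 h5
        have h8 : |(d ((ρ k).J j) - (ρ k).Q d ω j).re| ≤ 6 / 10 :=
          abs_le.2 ⟨by linarith [h4.1, h6.2], by linarith [h4.2, h6.1]⟩
        have h9 : |(d ((ρ k).J j) - (ρ k).Q d ω j).im| ≤ 6 / 10 :=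
          abs_le.2 ⟨by linarith [h5.1], by linarith [h5.2]⟩
        have h10 := hω.1 (K.J (T' + 1))
        rw [m] at h7 h8 h9
        have e : K.P d ω T' - (ρ k).Q d ω j = (d (K.J (T' + 1)) - (ρ k).Q d ω j) -
            (d (K.J (T' + 1)) - ex d ω (K.J (T' + 1)) (K.V (T' + 1))) -
            (ex d ω (K.J (T' + 1)) (K.V (T' + 1)) - ex d ω (K.J T') (K.V T') - ω (K.J (T' + 1))) -
            ω (K.J (T' + 1)) := by
          rw [Ry.P]
          ring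
        change ‖K.P d ω T' - (ρ k).Q d ω j‖ ≤ 3
        rw [e]
        refine (norm_sub_le _ _).trans ?_
        refine le_trans (add_le_add_left (norm_sub_le _ _) _) ?_
        refine le_trans (add_le_add_left (add_le_add_left (norm_sub_le _ _) _) _) ?_
        linarith)
  exact ⟨K, T', Ts, h, rng, by linarith, by linarith, st, k1, k2 ▸ v1, c1,
    by unfold Pm.T1; omega, c3, c4, c5, c6, c7, c8⟩

end Pool.Agent.MP_c59ecb_co.sh

end MrgPart1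

-- marker of a merged file
example : 731051 + 453543 = 731051 + 453543 := rfl
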