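import Pool.Agent.MP_c59ecb_co.sh.StepA

-- ======== part 0: formerly Pool.Agent.MP_c59ecb_co.sh.StepB
section MrgPart0

/-! One step of a tube: the junctions at the ends. -/

set_option autoImplicit false

namespace Pool.Agent.MP_c59ecb_co.sh

open MeasureTheory Complex Pool.Agent.MP_c59ecb_co.h76
open scoped ComplexConjugate

namespace StepP

lemma bd_alg {lam b b' s s' u u' w aL aR μ : ℝ} (h0 : 0 < lam) (m0 : 0 ≤ μ) (m1 : 100 * μ ≤ lam)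
    (w1 : 1 ≤ w) (w2 : w ≤ 2) (hL : |aL - u * w| ≤ 3 * μ) (hR : |aR - u' * w| ≤ 3 * μ)
    (hu : |u' - u| ≤ 20 * μ) (hb : |b| ≤ 1 / 2) (hb' : |b' - b| ≤ lam / 2) (hk : OK lam b s s')
    (c1 : |u * b'| ≤ 30 * μ) (c2 : 30 * μ < b' → -(30 * μ) ≤ u)
    (c3 : b' < -(30 * μ) → u ≤ 30 * μ) : s * aR + s' * aL ≤ 300 * μ := by
  obtain ⟨b1, b2⟩ := abs_le.1 hb
  obtain ⟨b3, b4⟩ := abs_le.1 hb'
  obtain ⟨c4, c5⟩ := abs_le.1 c1
  have a1 := mul_bd hu (show |w| ≤ 2 from abs_le.2 ⟨by linarith, w2⟩)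
  have a2 : |aR - aL| ≤ 46 * μ := abs_le.2
    ⟨by linarith [a1.1, (abs_le.1 hL).2, (abs_le.1 hR).1],
      by linarith [a1.2, (abs_le.1 hL).1, (abs_le.1 hR).2]⟩
  have key : ∀ z : ℝ, |z| ≤ 1 → (1 + z) * u ≤ 120 * μ → (-1 + z) * u ≤ 120 * μ → PM s s' z →
      s * aR + s' * aL ≤ 300 * μ := by
    intro z hz k1 k2 hp
    have hs : |s| ≤ 1 ∧ |s + s'| ≤ 2 ∧ (s + s') * u ≤ 120 * μ := by
      obtain ⟨z1, z2⟩ := abs_le.1 hz
      rcases hp with ⟨rfl | rfl, rfl⟩ | ⟨rfl | rfl, rfl⟩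
      · exact ⟨by simp, abs_le.2 ⟨by linarith, by linarith⟩, k1⟩
      · exact ⟨by simp, abs_le.2 ⟨by linarith, by linarith⟩, k2⟩
      · exact ⟨hz, abs_le.2 ⟨by linarith, by linarith⟩, by linarith⟩
      · exact ⟨hz, abs_le.2 ⟨by linarith, by linarith⟩, by linarith⟩
    have a3 := (mul_bd hs.1 a2).2
    have a4 := (mul_bd hs.2.1 hL).2
    have a5 := mul_le_mul_of_nonneg_right hs.2.2 (show 0 ≤ w by linarith)
    have a6 := mul_le_mul_of_nonneg_left w2 m0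
    linarith
  rcases hk with ⟨-, k2, rfl⟩ | ⟨k1, k2⟩ | ⟨k1, k2⟩
  · linarith [(mul_bd k2 a2).2]
  · have a3 := c2 (by linarith)
    refine key _ (abs_le.2 ⟨by linarith, by linarith⟩) ?_ (by nlinarith) k2
    rcases le_total 0 u with h | h
    · nlinarith [mul_le_mul_of_nonneg_left (show b ≤ 2 * b' by linarith) h]
    · nlinarith
  · have a3 := c3 (by linarith)
    refine key _ (abs_le.2 ⟨by linarith, by linarith⟩) (by nlinarith) ?_ k2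
    rcases le_total 0 u with h | h
    · nlinarith
    · nlinarith [mul_le_mul_of_nonpos_left (show 2 * b' ≤ b by linarith) h]

variable {ι : Type} {c ω : ι → ℂ}

lemma ins (hω : Nm ω) {O q : ι} {ϱ : ℝ} (h : ‖c q - c O‖ ≤ ϱ - 2) :
    Ins (LU c ω O) (LW c ω O) ϱ q := by
  rw [← norm_loc (hω.1 O)] at h
  exact ⟨(abs_re_le_norm _).trans h, (abs_im_le_norm _).trans h⟩

lemma norm_two {z w : ℂ} {X Y : ℝ} (hx : |z.re - w.re| ≤ X) (hy : |z.im - w.im| ≤ Y) :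
    ‖z - w‖ ≤ X + Y :=
  (norm_le_abs_re_add_abs_im _).trans (add_le_add hx hy)

lemma step_U (hω : Nm ω) {i j : ι} {v v' γ : ℝ} (h : Step c ω i v j v' γ) (hv : |v'| ≤ 1 / 2) :
    |LU c ω i j - LU c ω i i - 1| ≤ 2 * γ := by
  obtain ⟨h1, d, ζ, h2, h3, h4⟩ := h
  have h5 : ‖ζ‖ = 1 := by rcases h3 with rfl | rfl <;> exact hω.1 _
  have h6 := mul_conj_unit (hω.1 i)
  have e : loc (c i) (ω i) (c j) = ⟨1, v - v'⟩ +
      ((ω j - ω i) * ⟨1 / 2, -v'⟩ - d * ζ) * conj (ω i) := by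
    have e1 : (⟨1 / 2, -v'⟩ : ℂ) = 1 - ⟨1 / 2, v'⟩ := by
      apply Complex.ext <;> norm_num
    have e2 : (⟨1, v - v'⟩ : ℂ) = ⟨1 / 2, v⟩ + 1 - ⟨1 / 2, v'⟩ := by
      apply Complex.ext <;> norm_num
    unfold ex at h4
    rw [loc, e1, e2]
    linear_combination conj (ω i) * h4 + ((⟨1 / 2, v⟩ : ℂ) + 1 - ⟨1 / 2, v'⟩) * h6
  have n1 : ‖(⟨1 / 2, -v'⟩ : ℂ)‖ ≤ 1 := by
    refine (norm_le_abs_re_add_abs_im _).trans ?_
    simp only [abs_neg]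
    rw [abs_of_pos (by norm_num)]
    linarith
  have n2 : ‖((ω j - ω i) * ⟨1 / 2, -v'⟩ - d * ζ) * conj (ω i)‖ ≤ 2 * γ := by
    rw [norm_mul, Complex.norm_conj, hω.1, mul_one]
    refine (norm_sub_le _ _).trans ?_
    rw [norm_mul, norm_mul, h5, norm_real, Real.norm_eq_abs]
    nlinarith [norm_nonneg (ω j - ω i)]
  have e0 : LU c ω i i = 0 := by simp [LU, loc]
  rw [e0, LU, e, add_re, sub_zero, add_sub_cancel_left]
  exact (abs_re_le_norm _).trans n2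

variable [Fintype ι] [DecidableEq ι] {lam b d μ : ℝ} {O A A' B B' : ι}

lemma co (L : L1 ω) {i j : ι} {τ : ℝ} (hO : ‖ω O - 1‖ ≤ τ) (h : ‖c j - c i‖ ≤ 2) :
    |LU c ω O j - LU c ω O i - ((c j).re - (c i).re)| ≤ 2 * τ ∧
      |LW c ω O j - LW c ω O i - ((c j).im - (c i).im)| ≤ 2 * τ := by
  obtain ⟨h1, h2⟩ := L.col.coord c O i j τ hO
  have := mul_le_mul_of_nonneg_left h ((norm_nonneg _).trans hO)
  exact ⟨by linarith, by linarith⟩

/-- a small calm disc -/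
structure Sm (c ω : ι → ℂ) (lam : ℝ) (O : ι) (μ : ℝ) : Prop extends Disc c ω lam O 12 μ where
  tO : ‖ω O - 1‖ ≤ lam ^ 4 / 1000

lemma Sm.lm (D : Sm c ω lam O μ) : Lm (LU c ω O) (LW c ω O) μ 10 :=
  D.lib.calm.lm c O 10 _ μ D.calm (by norm_num) (by norm_num)

lemma Sm.num (D : Sm c ω lam O μ) :
    0 < lam ^ 4 ∧ lam ^ 4 ≤ lam / 1000 ∧ lam ≤ 1 / 1000 ∧ 0 ≤ μ ∧ μ ≤ lam ^ 4 / 1000 := by
  obtain ⟨e1, e2, e3⟩ := pw D.l0 D.l1
  exact ⟨e1, by linarith [D.l0], D.l1, D.m0, D.m1⟩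

lemma Sm.hc (D : Sm c ω lam O μ) (T : Two c ω lam b O 8 A B) (hb : |b| ≤ 1 / 2) :
    |LU c ω O B - LU c ω O A - 1| ≤ 10 * μ ∧ |LW c ω O B - LW c ω O A - b| ≤ lam / 2 := by
  obtain ⟨e1, e2, e3, e4, e5⟩ := D.num
  obtain ⟨b1, b2⟩ := abs_le.1 hb
  obtain ⟨x1, x2⟩ := abs_le.1 T.x
  obtain ⟨y1, y2⟩ := abs_le.1 T.y
  obtain ⟨k1, k2⟩ := co (c := c) (i := A) (j := B) D.lib D.tO ((norm_two (X := 5 / 4) (Y := 3 / 4)
    (abs_le.2 ⟨by linarith, by linarith⟩) (abs_le.2 ⟨by linarith, by linarith⟩)).trans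
      (by norm_num))
  obtain ⟨k3, k4⟩ := abs_le.1 k1
  obtain ⟨k5, k6⟩ := abs_le.1 k2
  exact ⟨D.lib.loc.hc ι _ _ μ 10 A B e4 (by linarith) D.lm (ins D.nm (by linarith [T.dA]))
    (ins D.nm (by linarith [T.dB])) (abs_le.2 ⟨by linarith, by linarith⟩) (by linarith)
    (by linarith), abs_le.2 ⟨by linarith, by linarith⟩⟩

lemma Sm.vc (D : Sm c ω lam O μ) (U : Up c lam A A') (dA : ‖c A - c O‖ ≤ 8)
    (dA' : ‖c A' - c O‖ ≤ 8) :
    |LW c ω O A' - LW c ω O A - 1| ≤ 10 * μ ∧ |LU c ω O A' - LU c ω O A| ≤ 1 / 100 := by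
  obtain ⟨e1, e2, e3, e4, e5⟩ := D.num
  obtain ⟨x1, x2⟩ := abs_le.1 U.1
  obtain ⟨y1, y2⟩ := abs_le.1 U.2
  obtain ⟨k1, k2⟩ := co (c := c) (i := A) (j := A') D.lib D.tO ((norm_two (X := 3 / 4) (Y := 5 / 4)
    (abs_le.2 ⟨by linarith, by linarith⟩) (abs_le.2 ⟨by linarith, by linarith⟩)).trans
      (by norm_num))
  obtain ⟨k3, k4⟩ := abs_le.1 k1
  obtain ⟨k5, k6⟩ := abs_le.1 k2
  exact ⟨D.lib.loc.vc ι _ _ μ 10 A A' e4 (by linarith) D.lm (ins D.nm (by linarith))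
    (ins D.nm (by linarith)) (abs_le.2 ⟨by linarith, by linarith⟩) (by linarith)
    (by linarith), abs_le.2 ⟨by linarith, by linarith⟩⟩

lemma Sm.w (D : Sm c ω lam O μ) : 1 ≤ ((ω O).re)⁻¹ ∧ ((ω O).re)⁻¹ ≤ 2 := by
  obtain ⟨e1, e2, e3, e4, e5⟩ := D.num
  have h1 := (D.lib.tilt.one _ (D.nm.1 O) (by linarith [D.tO])).2.2.2.2.2.2
  have h2 : (ω O).re ≤ 1 := (re_le_norm _).trans (D.nm.1 O).le
  have h3 : 0 < (ω O).re := by linarith
  exact ⟨(one_le_inv₀ h3).2 h2, by rw [inv_le_comm₀ h3 (by norm_num)]; linarith⟩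

lemma Sm.fr (D : Sm c ω lam O μ) {i j : ι} (ti : ‖ω i - 1‖ ≤ lam ^ 4 / 1000)
    (tj : ‖ω j - 1‖ ≤ lam ^ 4 / 1000) (di : ‖c i - c O‖ ≤ 8) (dj : ‖c j - c O‖ ≤ 8)
    (hy : |(c j).im - (c i).im| ≤ 2) :
    |slip c ω i j - (LU c ω O j - LU c ω O i) * ((ω O).re)⁻¹| ≤ 3 * μ := by
  obtain ⟨e1, e2, e3, e4, e5⟩ := D.num
  exact D.lib.col.frame c O i j μ (by linarith [D.tO]) (by linarith) (by linarith)
    (D.calm.ang i (by linarith)) (D.calm.ang j (by linarith)) hy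

omit [Fintype ι] [DecidableEq ι] in
lemma Up.two (h1 : lam ^ 4 ≤ 1) (U : Up c lam A A') : |(c A').im - (c A).im| ≤ 2 :=
  abs_le.2 ⟨by linarith [(abs_le.1 U.2).1], by linarith [(abs_le.1 U.2).2]⟩

/-- a junction whose ends are aligned -/
lemma Sm.unm (D : Sm c ω lam O μ) (tA : ‖ω A - 1‖ ≤ lam ^ 4 / 1000)
    (tA' : ‖ω A' - 1‖ ≤ lam ^ 4 / 1000) (dA : ‖c A - c O‖ ≤ 8) (dA' : ‖c A' - c O‖ ≤ 8)
    (U : Up c lam A A') (h : |LU c ω O A' - LU c ω O A| ≤ 12 * μ) : |slip c ω A A'| ≤ 30 * μ := by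
  obtain ⟨e1, e2, e3, e4, e5⟩ := D.num
  have a1 := abs_le.1 (D.fr tA tA' dA dA' (U.two (by linarith)))
  have a2 := mul_bd h (show |((ω O).re)⁻¹| ≤ 2 from abs_le.2 ⟨by linarith [D.w.1], D.w.2⟩)
  exact abs_le.2 ⟨by linarith [a1.1, a2.1], by linarith [a1.2, a2.2]⟩

lemma Sm.bdry (D : Sm c ω lam O μ) (T : Two c ω lam b O 8 A B) (T' : Two c ω lam b O 8 A' B')
    (U : Up c lam A A') (U' : Up c lam B B') (hb : |b| ≤ 1 / 2) {s s' : ℝ} (hk : OK lam b s s') :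
    s * slip c ω B B' + s' * slip c ω A A' ≤ 300 * μ := by
  obtain ⟨e1, e2, e3, e4, e5⟩ := D.num
  obtain ⟨h1, h2⟩ := D.hc T hb
  obtain ⟨h3, -⟩ := D.hc T' hb
  obtain ⟨v1, v2⟩ := D.vc U T.dA T'.dA
  obtain ⟨v3, -⟩ := D.vc U' T.dB T'.dB
  obtain ⟨c1, c2, c3⟩ := D.lib.loc.corner ι _ _ μ 10 A A' B B' e4 (by linarith) D.lm
    (ins D.nm (by linarith [T.dA])) (ins D.nm (by linarith [T'.dA]))
    (ins D.nm (by linarith [T.dB])) (ins D.nm (by linarith [T'.dB])) v2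
    (abs_le.2 ⟨by linarith [(abs_le.1 h2).1, (abs_le.1 hb).1],
      by linarith [(abs_le.1 h2).2, (abs_le.1 hb).2]⟩) v1 v3 h1 h3
  exact bd_alg D.l0 e4 (by linarith) D.w.1 D.w.2
    (D.fr T.tA T'.tA T.dA T'.dA (U.two (by linarith)))
    (D.fr T.tB T'.tB T.dB T'.dB (U'.two (by linarith)))
    (abs_le.2 ⟨by linarith [(abs_le.1 h1).2, (abs_le.1 h3).1],
      by linarith [(abs_le.1 h1).1, (abs_le.1 h3).2]⟩) hb h2 hk c1 c2 c3

lemma Sm.phi (D : Sm c ω lam O μ) (T : Two c ω lam b O 8 A B) (hb : |b| ≤ 1 / 2) {u v o : ℝ}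
    (hu : |u| ≤ 1) (hv : |v| ≤ 1) (ho : |o| ≤ 1 / 2) : |Phi c ω u v o A B| ≤ 40 * μ := by
  obtain ⟨e1, e2, e3, e4, e5⟩ := D.num
  obtain ⟨b1, b2⟩ := abs_le.1 hb
  obtain ⟨o1, o2⟩ := abs_le.1 ho
  obtain ⟨y1, y2⟩ := abs_le.1 T.y
  have dO : ‖c O - c O‖ ≤ 12 := by simp
  have n1 := (D.nr T.tB T.tA (by linarith [T.dB]) (by linarith [T.dA])).1
  have n2 := abs_le.1 (D.nr T.tA D.tO (by linarith [T.dA]) dO).2
  have n3 := abs_le.1 (D.nr T.tB D.tO (by linarith [T.dB]) dO).2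
  have a1 := abs_le.1 (D.fr T.tA T.tB T.dA T.dB (abs_le.2 ⟨by linarith, by linarith⟩))
  have a2 := mul_bd (D.hc T hb).1
    (show |((ω O).re)⁻¹| ≤ 2 from abs_le.2 ⟨by linarith [D.w.1], D.w.2⟩)
  have a3 := mul_bd n1 (show |(c A).im + o - ((c A).im + (c B).im) / 2| ≤ 1 from
    abs_le.2 ⟨by linarith, by linarith⟩)
  have a4 : lam * μ ≤ μ := mul_le_of_le_one_left e4 (by linarith)
  have a5 : 1 / (2 * (ω O).re) = ((ω O).re)⁻¹ / 2 := by rw [one_div, mul_inv]; ring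
  have a6 : |dd c ω A B ((c A).im + o)| ≤ 30 * μ := by
    rw [a5] at n2 n3
    unfold slip at a1
    unfold dd
    exact abs_le.2 ⟨by linarith [a1.2, a2.2, a3.1, n2.1, n3.1],
      by linarith [a1.1, a2.1, a3.2, n2.2, n3.2]⟩
  have a7 := mul_bd hu n1
  have a8 := mul_bd hv a6
  unfold Phi
  exact abs_le.2 ⟨by linarith [a7.1, a8.1], by linarith [a7.2, a8.2]⟩

/-- a square whose right neighbour is shifted is not flat in the other direction -/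
lemma nonflat (D : Disc c ω lam O d μ) (tO : ‖ω O - 1‖ ≤ lam ^ 4 / 1000) {d' : ℝ}
    (hd : 3 * d' + 12 ≤ 2 * d) (hd' : 9 ≤ d') (T : Two c ω lam b O d' A B) (hb : |b| ≤ 1 / 2)
    (hb' : lam ≤ |b|) : ¬Flat (rt I c) lam A := by
  rintro ⟨⟨k, k1, k2⟩, -⟩
  obtain ⟨e1, e2, e3⟩ := pw D.l0 D.l1
  have l0 := D.l0
  have l1 := D.l1
  simp only [mul_re, mul_im, I_re, I_im, zero_mul, one_mul, zero_sub, zero_add] at k1 k2
  obtain ⟨k3, k4⟩ := abs_le.1 k1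
  obtain ⟨k5, k6⟩ := abs_le.1 k2
  obtain ⟨b1, b2⟩ := abs_le.1 hb
  obtain ⟨x1, x2⟩ := abs_le.1 T.x
  obtain ⟨y1, y2⟩ := abs_le.1 T.y
  have n1 : ‖c k - c B‖ ≤ 1 + 1 :=
    norm_two (abs_le.2 ⟨by linarith, by linarith⟩) (abs_le.2 ⟨by linarith, by linarith⟩)
  obtain ⟨a1, a2⟩ := co (c := c) (i := B) (j := k) D.lib tO (by linarith)
  obtain ⟨a3, a4⟩ := abs_le.1 a1
  obtain ⟨a5, a6⟩ := abs_le.1 a2
  have e := D.lib.loc.same ι _ _ μ (d' + 4) B k D.m0 (by linarith [D.m1])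
    (D.lib.calm.lm c O (d' + 4) _ μ D.calm (by linarith) (by linarith))
    (ins D.nm (by linarith [T.dB]))
    (ins D.nm (by linarith [T.dB, norm_sub_le_norm_sub_add_norm_sub (c k) (c B) (c O)]))
    (abs_le.2 ⟨by linarith, by linarith⟩) (abs_le.2 ⟨by linarith, by linarith⟩)
  rw [← e] at k3 k4
  rcases le_abs.1 hb' with h | h <;> linarith

end StepP

end Pool.Agent.MP_c59ecb_co.sh

end MrgPart0

-- ======== part 1: formerly Pool.Agent.MP_c59ecb_co.sh.Step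
section MrgPart1

/-! One step of a tube: the change of the total slip. -/

set_option autoImplicit false

namespace Pool.Agent.MP_c59ecb_co.sh

open MeasureTheory Complex Pool.Agent.MP_c59ecb_co.h76

namespace StepP

variable {ι : Type} {c ω : ι → ℂ} {lam b d d' μ : ℝ}

lemma Two.re {O O' A B : ι} (T : Two c ω lam b O d A B) (h : ‖c A - c O'‖ ≤ d')
    (h' : ‖c B - c O'‖ ≤ d') : Two c ω lam b O' d' A B := ⟨T.tA, T.tB, h, h', T.x, T.y⟩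

lemma up_inj {K : ℕ} {L : ℕ → ι} (h1 : lam ^ 4 ≤ 1) (u : ∀ k < K, Up c lam (L k) (L (k + 1)))
    {a a' : ℕ} (ha : a ≤ K) (ha' : a' ≤ K) (e : L a = L a') : a = a' := by
  have key : ∀ a n, a + n + 1 ≤ K → (c (L a)).im < (c (L (a + n + 1))).im := by
    intro a n
    induction n with
    | zero => exact fun h => by linarith [(abs_le.1 (u a h).2).1]
    | succ n ih =>
      intro h
      have h2 := (abs_le.1 (u (a + n + 1) (by omega)).2).1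
      have h3 := ih (by omega)
      rw [← add_assoc]
      linarith
  rcases lt_trichotomy a a' with h | h | h
  · obtain ⟨n, rfl⟩ := Nat.exists_eq_add_of_lt h
    exact absurd (key a n ha') (by rw [e]; exact lt_irrefl _)
  · exact h
  · obtain ⟨n, rfl⟩ := Nat.exists_eq_add_of_lt h
    exact absurd (key a' n ha) (by rw [e]; exact lt_irrefl _)

lemma up_dist {K : ℕ} {L : ℕ → ι} (h1 : lam ^ 4 ≤ 1) (u : ∀ k < K, Up c lam (L k) (L (k + 1)))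
    (a n : ℕ) (h : a + n ≤ K) : ‖c (L (a + n)) - c (L a)‖ ≤ 2 * n := by
  induction n with
  | zero => simp
  | succ n ih =>
    obtain ⟨u1, u2⟩ := u (a + n) (by omega)
    have h2 := norm_two (X := 1 / 2) (Y := 3 / 2) (u1.trans (by linarith))
      (abs_le.2 ⟨by linarith [(abs_le.1 u2).1], by linarith [(abs_le.1 u2).2]⟩)
    have h3 := ih (by omega)
    have h4 := norm_sub_le_norm_sub_add_norm_sub (c (L (a + n + 1))) (c (L (a + n))) (c (L a))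
    rw [← add_assoc]
    push_cast
    linarith

lemma flat {A₀ A A₁ : ι} (h0 : 0 < lam) (h1 : lam ≤ 1 / 1000) (U : Up c lam A₀ A)
    (U' : Up c lam A A₁) : Flat c lam A := by
  obtain ⟨e1, e2, e3⟩ := pw h0 h1
  obtain ⟨x1, x2⟩ := abs_le.1 U.1
  obtain ⟨y1, y2⟩ := abs_le.1 U.2
  exact ⟨⟨A₁, by linarith [U'.1], by linarith [U'.2]⟩,
    A₀, abs_le.2 ⟨by linarith, by linarith⟩, abs_le.2 ⟨by linarith, by linarith⟩⟩

lemma trim (A : ℕ → ι) {e K f : ℕ} {x y : ℝ} (he : e ≤ 1) (hf : f ≤ 1) (x0 : 0 ≤ x) (y0 : 0 ≤ y)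
    (hx : e = 1 → |slip c ω (A 0) (A 1)| ≤ x)
    (hy : f = 1 → |slip c ω (A (e + K)) (A (e + K + 1))| ≤ y) :
    |SS c ω (e + K + f) A - SS c ω K fun k => A (e + k)| ≤ x + y := by
  have a1 : |∑ j ∈ Finset.range e, slip c ω (A j) (A (j + 1))| ≤ x := by
    interval_cases e
    · simpa using x0
    · simpa using hx rfl
  have a2 : |∑ j ∈ Finset.range f, slip c ω (A (e + K + j)) (A (e + K + j + 1))| ≤ y := by
    interval_cases f
    · simpa using y0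
    · simpa using hy rfl
  have a3 : SS c ω (e + K + f) A = ∑ j ∈ Finset.range e, slip c ω (A j) (A (j + 1)) +
      SS c ω K (fun k => A (e + k)) +
      ∑ j ∈ Finset.range f, slip c ω (A (e + K + j)) (A (e + K + j + 1)) := by
    unfold SS
    rw [Finset.sum_range_add, Finset.sum_range_add]
    rfl
  rw [a3]
  exact abs_le.2 ⟨by linarith [(abs_le.1 a1).1, (abs_le.1 a2).1],
    by linarith [(abs_le.1 a1).2, (abs_le.1 a2).2]⟩

variable [DecidableEq ι]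

lemma sum_inj {α : Type} (S : Finset α) (φ : α → ι × ι) {X Y : Finset ι} {f : ι → ι → ℝ}
    (hφ : Set.InjOn φ S) (hm : ∀ x ∈ S, (φ x).1 ∈ X ∧ (φ x).2 ∈ Y) (hf : ∀ i j, 0 ≤ f i j) :
    ∑ x ∈ S, f (φ x).1 (φ x).2 ≤ ∑ i ∈ X, ∑ j ∈ Y, f i j := by
  rw [← Finset.sum_product', ← Finset.sum_image (f := fun p : ι × ι => f p.1 p.2) hφ]
  refine Finset.sum_le_sum_of_subset_of_nonneg (fun p hp => ?_) fun p _ _ => hf _ _
  obtain ⟨x, hx, rfl⟩ := Finset.mem_image.1 hp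
  exact Finset.mem_product.2 (hm x hx)

lemma sum_three {N : ℕ} {L R : ℕ → ι} {X Y : Finset ι} {f : ι → ι → ℝ}
    (hL : ∀ a a', a ≤ N + 2 → a' ≤ N + 2 → L a = L a' → a = a')
    (hR : ∀ a a', a ≤ N + 2 → a' ≤ N + 2 → R a = R a' → a = a')
    (hX : ∀ k ≤ N, L (k + 1) ∈ X) (hY : ∀ k ≤ N, R (k + 1) ∈ Y) (hf : ∀ i j, 0 ≤ f i j) :
    ∑ k ∈ Finset.range N, (f (L (k + 2)) (R (k + 2)) + f (L (k + 2)) (R (k + 1)) +
      f (L (k + 1)) (R (k + 2))) ≤ ∑ i ∈ X, ∑ j ∈ Y, f i j := by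
  have := sum_inj (((Finset.range N).disjSum (Finset.range N)).disjSum (Finset.range N))
    (Sum.elim (Sum.elim (fun k => (L (k + 2), R (k + 2))) fun k => (L (k + 2), R (k + 1)))
      fun k => (L (k + 1), R (k + 2))) (X := X) (Y := Y) (f := f) ?_ ?_ hf
  · simpa only [Finset.sum_disjSum, Sum.elim_inl, Sum.elim_inr, Finset.sum_add_distrib] using this
  · rintro ((k | k) | k) hk ((l | l) | l) hl h <;>
      simp only [Finset.mem_coe, Finset.inl_mem_disjSum, Finset.inr_mem_disjSum, Finset.mem_range,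
        Sum.elim_inl, Sum.elim_inr, Prod.mk.injEq, Sum.inl.injEq, Sum.inr.injEq,
        reduceCtorEq] at hk hl h ⊢ <;>
      have h1 := hL _ _ (by omega) (by omega) h.1 <;>
      have h2 := hR _ _ (by omega) (by omega) h.2 <;> omega
  · rintro ((k | k) | k) hk <;>
      simp only [Finset.inl_mem_disjSum, Finset.inr_mem_disjSum, Finset.mem_range] at hk <;>
      exact ⟨hX _ (by omega), hY _ (by omega)⟩

variable [Fintype ι]

/-- two columns with matched squares -/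
lemma matched {N : ℕ} {L R : ℕ → ι} {O O₀ O₁ : ι} {g g' : ℝ} {X Y : Finset ι}
    (D : Disc c ω lam O d μ) (tO : ‖ω O - 1‖ ≤ lam ^ 4 / 1000) (hd : 3 * d' + 12 ≤ 2 * d)
    (hd' : 9 ≤ d') (hb : |b| ≤ 1 / 2) (T : ∀ k ≤ N + 2, Two c ω lam b O d' (L k) (R k))
    (uL : ∀ k < N + 2, Up c lam (L k) (L (k + 1))) (uR : ∀ k < N + 2, Up c lam (R k) (R (k + 1)))
    (D₀ : Sm c ω lam O₀ g) (T₀ : ∀ k ≤ 1, Two c ω lam b O₀ 8 (L k) (R k)) (D₁ : Sm c ω lam O₁ g')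
    (T₁ : ∀ k ≤ 1, Two c ω lam b O₁ 8 (L (N + 1 + k)) (R (N + 1 + k)))
    (hX : ∀ k ≤ N, L (k + 1) ∈ X) (hY : ∀ k ≤ N, R (k + 1) ∈ Y) :
    |(|SS c ω (N + 2) R| - |SS c ω (N + 2) L|)| ≤
      2 * (1 + 10 * lam) * CC c ω lam X Y + N * (51 * (lam * μ)) + 340 * (g + g') := by
  obtain ⟨e1, e2, e3, -⟩ := D₀.num
  have l0 := D.l0
  obtain ⟨s, s', hk, h1⟩ := exists_ok lam hb l0.le (SS c ω (N + 2) R) (SS c ω (N + 2) L)
  obtain ⟨u, v, o, hu, hv, ho, h2⟩ := core (c := c) (ω := ω) (d := d) (μ := μ) (O := O) hb l0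
    D.l1 hk
  have T' : ∀ k ≤ N + 2, Two c ω lam b O d (L k) (R k) := fun k h =>
    (T k h).re (by linarith [(T k h).dA]) (by linarith [(T k h).dB])
  have fL : ∀ k ≤ N, Flat c lam (L (k + 1)) := fun k h =>
    flat l0 D.l1 (uL k (by omega)) (uL (k + 1) (by omega))
  have fR : ∀ k ≤ N, Flat c lam (R (k + 1)) := fun k h =>
    flat l0 D.l1 (uR k (by omega)) (uR (k + 1) (by omega))
  have eH : ∀ k ≤ N, ∀ l ≤ N, cH c ω lam (L (k + 1)) (R (l + 1)) =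
      AH c ω lam (L (k + 1)) (R (l + 1)) := fun k h l h' => if_pos ⟨fL k h, fR l h'⟩
  have iL := fun a a' => up_inj (a := a) (a' := a') (by linarith) uL
  have iR := fun a a' => up_inj (a := a) (a' := a') (by linarith) uR
  have h3 : ∑ k ∈ Finset.range N, (s * slip c ω (R (k + 1)) (R (k + 1 + 1)) +
      s' * slip c ω (L (k + 1)) (L (k + 1 + 1))) ≤ ∑ k ∈ Finset.range N, (2 * (1 + 10 * lam) *
        (cH c ω lam (L (k + 2)) (R (k + 2)) + cH c ω lam (L (k + 2)) (R (k + 1)) +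
          cH c ω lam (L (k + 1)) (R (k + 2)) + cV c ω lam (L (k + 2)) (L (k + 1))) +
        (Phi c ω u v o (L (k + 1)) (R (k + 1)) - Phi c ω u v o (L (k + 1 + 1)) (R (k + 1 + 1))) +
        51 * (lam * μ)) := by
    refine Finset.sum_le_sum fun k hk' => ?_
    have hk'' := Finset.mem_range.1 hk'
    rw [eH (k + 1) (by omega) (k + 1) (by omega), eH (k + 1) (by omega) k (by omega),
      eH k (by omega) (k + 1) (by omega)]
    refine h2 _ _ _ _ _ D (T' _ (by omega)) (T' _ (by omega)) (uL _ (by omega))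
      (cV_nonneg _ _ _) fun h => le_of_eq (if_neg fun h' => ?_).symm
    exact nonflat D tO hd hd' (T (k + 1) (by omega)) hb h h'.2
  have h4 := sum_three iL iR hX hY (cH_nonneg (c := c) (ω := ω) lam)
  have h5 := sum_inj (Finset.range N) (fun k => (L (k + 2), L (k + 1))) (X := X) (Y := X)
    (fun k hk l hl h => by
      have := iL _ _ (by have := Finset.mem_range.1 hk; omega)
        (by have := Finset.mem_range.1 hl; omega) (congrArg Prod.snd h)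
      omega)
    (fun k hk => by
      have := Finset.mem_range.1 hk
      exact ⟨hX _ (by omega), hX _ (by omega)⟩) (cV_nonneg (c := c) (ω := ω) lam)
  have h6 := Finset.sum_range_sub' (fun k => Phi c ω u v o (L (k + 1)) (R (k + 1))) N
  rw [Finset.sum_add_distrib, Finset.sum_add_distrib, Finset.sum_add_distrib, h6, Finset.sum_const,
    Finset.card_range, nsmul_eq_mul, ← Finset.mul_sum, ← Finset.mul_sum, ← Finset.mul_sum,
    Finset.sum_add_distrib] at h3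
  have h7 := mul_le_mul_of_nonneg_left (add_le_add h4 h5)
    (show 0 ≤ 2 * (1 + 10 * lam) by linarith)
  have b0 := D₀.bdry (T₀ 0 (by omega)) (T₀ 1 le_rfl) (uL 0 (by omega)) (uR 0 (by omega)) hb hk
  have b1 := D₁.bdry (T₁ 0 (by omega)) (T₁ 1 le_rfl) (uL (N + 1) (by omega))
    (uR (N + 1) (by omega)) hb hk
  have p0 := (abs_le.1 (D₀.phi (T₀ 1 le_rfl) hb hu hv ho)).2
  have p1 := (abs_le.1 (D₁.phi (T₁ 0 (by omega)) hb hu hv ho)).1
  refine h1.trans ?_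
  unfold SS CC
  rw [Finset.sum_range_succ, Finset.sum_range_succ', Finset.sum_range_succ (n := N + 1),
    Finset.sum_range_succ']
  simp only [zero_add, add_zero] at h3 b0 b1 p0 p1 h7 ⊢
  linarith

/-- two adjacent columns -/
lemma asm {e₁ e₂ f₁ f₂ N : ℕ} {P Q : ℕ → ι} {g g' : ℝ} (he : e₁ + e₂ ≤ 1) (hf : f₁ + f₂ ≤ 1)
    (D : Disc c ω lam (P 0) d μ) (hd : 3 * d' + 12 ≤ 2 * d) (hd' : 9 ≤ d') (hb : |b| ≤ 1 / 2)
    (D₀ : Sm c ω lam (P 0) g) (D₁ : Sm c ω lam (P (e₁ + (N + 2) + f₁)) g')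
    (tP : ∀ j ≤ e₁ + (N + 2) + f₁, ‖ω (P j) - 1‖ ≤ lam ^ 4 / 1000)
    (tQ : ∀ j ≤ e₂ + (N + 2) + f₂, ‖ω (Q j) - 1‖ ≤ lam ^ 4 / 1000)
    (uP : ∀ j < e₁ + (N + 2) + f₁, Up c lam (P j) (P (j + 1)))
    (uQ : ∀ j < e₂ + (N + 2) + f₂, Up c lam (Q j) (Q (j + 1)))
    (dP : ∀ j ≤ e₁ + (N + 2) + f₁, ‖c (P j) - c (P 0)‖ ≤ d' - 2)
    (ad : ∀ k ≤ N + 2, |(c (Q (e₂ + k))).re - (c (P (e₁ + k))).re - 1| ≤ lam ^ 4 / 100 ∧
      |(c (Q (e₂ + k))).im - (c (P (e₁ + k))).im - b| ≤ lam ^ 4 / 100)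
    (s₀ : |LU c ω (P 0) (Q 0) - LU c ω (P 0) (P 0) - 1| ≤ 2 * g)
    (s₁ : |LU c ω (P (e₁ + (N + 2) + f₁)) (Q (e₂ + (N + 2) + f₂)) -
      LU c ω (P (e₁ + (N + 2) + f₁)) (P (e₁ + (N + 2) + f₁)) - 1| ≤ 2 * g') :
    |(|SS c ω (e₂ + (N + 2) + f₂) Q| - |SS c ω (e₁ + (N + 2) + f₁) P|)| ≤
      2 * (1 + 10 * lam) * CC c ω lam (Mid (e₁ + (N + 2) + f₁) P) (Mid (e₂ + (N + 2) + f₂) Q) +
        N * (51 * (lam * μ)) + 400 * (g + g') := by
  obtain ⟨e1, e2, e3, g0, -⟩ := D₀.num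
  have g1 := D₁.m0
  have e4 : lam ^ 4 ≤ 1 := by linarith
  obtain ⟨b1, b2⟩ := abs_le.1 hb
  have n : ∀ k ≤ N + 2, ∀ (O : ι) (x : ℝ), ‖c (P (e₁ + k)) - c O‖ ≤ x →
      ‖c (Q (e₂ + k)) - c O‖ ≤ x + 2 := fun k h O x hx => by
    obtain ⟨x1, x2⟩ := abs_le.1 (ad k h).1
    obtain ⟨y1, y2⟩ := abs_le.1 (ad k h).2
    have := norm_two (z := c (Q (e₂ + k))) (w := c (P (e₁ + k))) (X := 5 / 4) (Y := 3 / 4)
      (abs_le.2 ⟨by linarith, by linarith⟩) (abs_le.2 ⟨by linarith, by linarith⟩)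
    linarith [norm_sub_le_norm_sub_add_norm_sub (c (Q (e₂ + k))) (c (P (e₁ + k))) (c O)]
  have T : ∀ k ≤ N + 2, ∀ (O : ι) (x : ℝ), ‖c (P (e₁ + k)) - c O‖ ≤ x - 2 →
      Two c ω lam b O x (P (e₁ + k)) (Q (e₂ + k)) := fun k h O x hx =>
    ⟨tP _ (by omega), tQ _ (by omega), by linarith, by linarith [n k h O _ hx], (ad k h).1,
      (ad k h).2⟩
  have lo : ∀ j ≤ 2, ‖c (P j) - c (P 0)‖ ≤ 4 := fun j h => by
    have h1 := up_dist e4 uP 0 j (by omega)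
    have h2 : (j : ℝ) ≤ 2 := by exact_mod_cast h
    rw [zero_add] at h1
    linarith
  have hi : ∀ j, j ≤ e₁ + (N + 2) + f₁ → e₁ + (N + 2) + f₁ ≤ j + 2 →
      ‖c (P j) - c (P (e₁ + (N + 2) + f₁))‖ ≤ 4 := fun j h h' => by
    obtain ⟨i, hi⟩ := Nat.exists_eq_add_of_le h
    have h1 := up_dist e4 uP j i (by omega)
    have h2 : (i : ℝ) ≤ 2 := by exact_mod_cast (show i ≤ 2 by omega)
    rw [norm_sub_rev, hi]
    linarith
  have T₀ : ∀ k ≤ 1, Two c ω lam b (P 0) 8 (P (e₁ + k)) (Q (e₂ + k)) := fun k h =>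
    T k (by omega) _ _ (by linarith [lo (e₁ + k) (by omega)])
  have T₁ : ∀ k ≤ 1, Two c ω lam b (P (e₁ + (N + 2) + f₁)) 8 (P (e₁ + (N + 1 + k)))
      (Q (e₂ + (N + 1 + k))) := fun k h =>
    T _ (by omega) _ _ (by linarith [hi (e₁ + (N + 1 + k)) (by omega) (by omega)])
  have h1 := matched (L := fun k => P (e₁ + k)) (R := fun k => Q (e₂ + k))
    (X := Mid (e₁ + (N + 2) + f₁) P) (Y := Mid (e₂ + (N + 2) + f₂) Q) D D₀.tO hd hd' hb
    (fun k h => T k h _ _ (dP _ (by omega))) (fun k h => uP (e₁ + k) (by omega))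
    (fun k h => uQ (e₂ + k) (by omega)) D₀ T₀ D₁ T₁
    (fun k h => Finset.mem_image_of_mem _ (Finset.mem_Ioo.2 ⟨by omega, by omega⟩))
    fun k h => Finset.mem_image_of_mem _ (Finset.mem_Ioo.2 ⟨by omega, by omega⟩)
  obtain ⟨c1, c2⟩ := abs_le.1 (D₀.hc (T₀ 0 (by omega)) hb).1
  obtain ⟨c3, c4⟩ := abs_le.1 (D₁.hc (T (N + 2) le_rfl _ _
    (by linarith [hi (e₁ + (N + 2)) (by omega) (by omega)])) hb).1
  obtain ⟨s1, s2⟩ := abs_le.1 s₀
  obtain ⟨s3, s4⟩ := abs_le.1 s₁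
  have h2 := trim (c := c) (ω := ω) P (e := e₁) (K := N + 2) (f := f₁) (x := 30 * g)
    (y := 30 * g') (by omega) (by omega) (by linarith) (by linarith)
    (fun h => by
      obtain rfl : e₂ = 0 := by omega
      subst h
      exact D₀.unm (tP _ (by omega)) (tP _ (by omega)) (by linarith [lo 0 (by omega)])
        (by linarith [lo 1 (by omega)]) (uP 0 (by omega)) (abs_le.2 ⟨by linarith, by linarith⟩))
    (fun h => by
      obtain rfl : f₂ = 0 := by omega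
      subst h
      simp only [add_zero] at s3 s4
      exact D₁.unm (tP _ (by omega)) (tP _ (by omega))
        (by linarith [hi (e₁ + (N + 2)) (by omega) (by omega)])
        (by linarith [hi (e₁ + (N + 2) + 1) (by omega) (by omega)]) (uP _ (by omega))
        (abs_le.2 ⟨by linarith, by linarith⟩))
  have h3 := trim (c := c) (ω := ω) Q (e := e₂) (K := N + 2) (f := f₂) (x := 30 * g)
    (y := 30 * g') (by omega) (by omega) (by linarith) (by linarith)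
    (fun h => by
      obtain rfl : e₁ = 0 := by omega
      subst h
      have a1 := n 0 (by omega) (P 0) 0 (by simp)
      have a2 := up_dist e4 uQ 0 1 (by omega)
      have a3 := norm_sub_le_norm_sub_add_norm_sub (c (Q 0)) (c (Q 1)) (c (P 0))
      rw [norm_sub_rev, Nat.cast_one] at a2
      exact D₀.unm (tQ _ (by omega)) (tQ _ (by omega)) (by linarith) (by linarith)
        (uQ 0 (by omega)) (abs_le.2 ⟨by linarith, by linarith⟩))
    (fun h => by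
      obtain rfl : f₁ = 0 := by omega
      subst h
      simp only [add_zero] at s3 s4 c3 c4 D₁
      have a1 := n (N + 2) le_rfl (P (e₁ + (N + 2))) 0 (by simp)
      have a2 := up_dist e4 uQ (e₂ + (N + 2)) 1 (by omega)
      have a3 := norm_sub_le_norm_sub_add_norm_sub (c (Q (e₂ + (N + 2) + 1)))
        (c (Q (e₂ + (N + 2)))) (c (P (e₁ + (N + 2))))
      rw [Nat.cast_one] at a2
      exact D₁.unm (tQ _ (by omega)) (tQ _ (by omega)) (by linarith) (by linarith)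
        (uQ _ (by omega)) (abs_le.2 ⟨by linarith, by linarith⟩))
  have h4 := abs_le.1 ((abs_abs_sub_abs_le _ _).trans h2)
  have h5 := abs_le.1 ((abs_abs_sub_abs_le _ _).trans h3)
  obtain ⟨h6, h7⟩ := abs_le.1 h1
  exact abs_le.2 ⟨by linarith [h4.2, h5.1], by linarith [h4.1, h5.2]⟩

lemma nums {r : ℕ} {η τ G G' g g' : ℝ} (hp : TP r lam η τ (G + G')) (τ0 : 0 ≤ τ) (g0 : 0 ≤ g)
    (g1 : 0 ≤ g') (h : g ≤ G) (h' : g' ≤ G') : (100 : ℝ) ≤ r ∧ 0 ≤ η ∧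
    100 * r * η ≤ lam ^ 4 / 100 ∧ η ≤ lam ^ 4 / 10 ^ 6 ∧ η ≤ 1 / 100 ∧
    (10 * (r : ℝ)) ^ 2 * g ≤ lam ^ 4 / 1000 ∧ g ≤ lam ^ 4 / 1000 ∧ g' ≤ lam ^ 4 / 1000 ∧
    r * (51 * (lam * ((10 * (r : ℝ)) ^ 2 * g))) ≤ g := by
  have r1 : (100 : ℝ) ≤ r := by exact_mod_cast hp.r100
  obtain ⟨p1, p2, p3⟩ := pw hp.lam0 hp.lam1
  have η0 : 0 ≤ η := by linarith [hp.tau]
  have η1 : 100 * r * η ≤ lam ^ 4 / 100 := by linarith [hp.eta]
  have η2 : η ≤ lam ^ 4 / 10 ^ 6 := by linarith [mul_le_mul_of_nonneg_right r1 η0]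
  have r2 : (1 : ℝ) ≤ (r : ℝ) ^ 2 := one_le_pow₀ (by linarith)
  have g2 := mul_le_mul_of_nonneg_left (add_le_add h h') (sq_nonneg (r : ℝ))
  have g3 := mul_le_mul_of_nonneg_right r2 g0
  have g4 := mul_le_mul_of_nonneg_right r2 g1
  have g5 := hp.tot
  have b2 := mul_le_mul_of_nonneg_right hp.big g0
  exact ⟨r1, η0, η1, η2, by linarith [hp.lam1], by linarith, by linarith, by linarith, by linarith⟩

lemma idx {m m' r : ℕ} {e : ℤ} (he : |e| ≤ 1) (he' : |(m' : ℤ) + e - m| ≤ 1) (r0 : 100 ≤ r)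
    (n1 : r ≤ m + 1) (n2 : m ≤ r + 1) : ∃ e₁ e₂ f₁ f₂ N : ℕ, e₁ + e₂ ≤ 1 ∧ f₁ + f₂ ≤ 1 ∧
      (e₁ : ℤ) = e₂ + e ∧ m = e₁ + (N + 2) + f₁ ∧ m' = e₂ + (N + 2) + f₂ ∧ N ≤ r := by
  obtain ⟨a1, a2⟩ := abs_le.1 he
  obtain ⟨a3, a4⟩ := abs_le.1 he'
  exact ⟨e.toNat, (-e).toNat, (-((m' : ℤ) + e - m)).toNat, ((m' : ℤ) + e - m).toNat,
    m - 2 - e.toNat - (-((m' : ℤ) + e - m)).toNat, by omega, by omega, by omega, by omega,
    by omega, by omega⟩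

end StepP

open StepP

variable {ι : Type} [Fintype ι] [DecidableEq ι] {ω : ι → ℂ}

theorem stepS (hω : Nm ω) (L : L1 ω) : StepS ω := by
  intro c r lam η τ w w' G G' T t ρ ρ' m A hp hρ hρ' hT ht
  obtain ⟨e, b, he, he', hb, ad⟩ := hT.adj t ht
  have l0 := hp.lam0
  have l1 := hp.lam1
  have g0 := hρ.g0 t
  have g1 := hρ'.g0 t
  obtain ⟨r1, η0, η1, η2, η3, m1, m2, m3, m4⟩ :=
    nums hp hρ.τ0 g0 g1 (hρ.le ht.le) (hρ'.le ht.le)
  have up : ∀ s ≤ T, ∀ j < m s, Up c lam (A s j) (A s (j + 1)) := fun s hs j hj => by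
    have h1 := (L.col.geo c η η _ _ j (j + 1) (hT.col s hs) η3 (by omega) hj).1
    push_cast at h1
    exact ⟨by linarith, by linarith [((hT.col s hs).2 j hj).2]⟩
  have ti : ∀ s ≤ T, ∀ j ≤ m s, ‖ω (A s j) - 1‖ ≤ lam ^ 4 / 1000 := fun s hs j hj => by
    linarith [(hT.col s hs).1 j hj]
  have D : Disc c ω lam (ρ.J t) (10 * r - 3) ((10 * r) ^ 2 * ρ.g t) :=
    ⟨hω, L, l0, l1, (hρ.calm ht.le).mono (by linarith) le_rfl, by positivity, m1⟩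
  have D₀ : Disc c ω lam (ρ.J t) 12 (ρ.g t) :=
    ⟨hω, L, l0, l1, (hρ.c1 t ht.le).mono (by norm_num) le_rfl, g0, m2⟩
  have D₁ : Disc c ω lam (ρ'.J t) 12 (ρ'.g t) :=
    ⟨hω, L, l0, l1, (hρ'.c1 t ht.le).mono (by norm_num) le_rfl, g1, m3⟩
  have dP : ∀ j ≤ m t, ‖c (A t j) - c (ρ.J t)‖ ≤ r + 4 - 2 := fun j hj => by
    linarith [(L.col.inn c r lam η τ _ T ρ ρ' m A t j hp hT ht.le (hρ.v t ht.le) (hρ'.v t ht.le)
      hj).1]
  have s₀ := step_U hω (hρ.step' ht) (hρ.v (t + 1) ht)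
  have s₁ := step_U hω (hρ'.step' ht) (hρ'.v (t + 1) ht)
  rw [← hT.lo t ht.le] at D D₀ dP s₀
  rw [← hT.hi t ht.le] at D₁ s₁
  rw [← hT.lo (t + 1) ht] at s₀
  rw [← hT.hi (t + 1) ht] at s₁
  have uP := up t ht.le
  have uQ := up (t + 1) ht
  have tP := ti t ht.le
  have tQ := ti (t + 1) ht
  obtain ⟨e₁, e₂, f₁, f₂, N, k1, k2, k3, k4, k5, k6⟩ :=
    idx he he' hp.r100 (hT.len t ht.le).1 (hT.len t ht.le).2
  rw [k4] at D₁ dP s₁ uP tP ad ⊢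
  rw [k5] at s₁ uQ tQ ad ⊢
  have h := asm k1 k2 D (d' := r + 4) (by linarith) (by linarith) hb ⟨D₀, tP 0 (by omega)⟩
    ⟨D₁, tP _ le_rfl⟩ tP tQ uP uQ dP
    (fun k hk => by
      obtain ⟨x1, x2⟩ := ad (e₂ + k) (e₁ + k) (by omega) (by omega) (by push_cast; omega)
      exact ⟨x1.trans η1, x2.trans η1⟩) s₀ s₁
  have b1 := mul_le_mul_of_nonneg_right (show (N : ℝ) ≤ r by exact_mod_cast k6)
    (show 0 ≤ 51 * (lam * ((10 * (r : ℝ)) ^ 2 * ρ.g t)) by positivity)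
  refine h.trans ?_
  linarith only [b1, m4, g0, g1]

end Pool.Agent.MP_c59ecb_co.sh

end MrgPart1

-- marker of a merged file
example : 731051 + 752303 = 731051 + 752303 := rfl
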