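import Pool.Agent.MP_c59ecb_co.sh.Rect

/-! The upper bound with the sharp constant, from the rectangle. -/

set_option autoImplicit false

namespace Pool.Agent.MP_c59ecb_co.sh

open Pool.Agent.MP_c59ecb_co.h76

namespace Upper

lemma params {b : ℝ} (b0 : 0 < b) (b1 : b ≤ 1 / 10 ^ 6) :
    ∃ (C : ℝ) (N : ℕ), UP b C (b ^ 2 / 2) N := by
  have h1 : b ^ 2 ≤ 1 := by nlinarith
  have h2 : (b ^ 2 / 2) ^ 2 < 1 := by nlinarith [sq_nonneg b]
  have h3 : 0 < b ^ 2 := by positivity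
  have h4 : 0 ≤ 2 * (1 + 10 * b) / b ^ 2 := by positivity
  have h5 := Nat.le_ceil (2 * (1 + 10 * b) / b ^ 2)
  have h6 := (Nat.ceil_lt_add_one h4).le
  refine ⟨√(1 - (b ^ 2 / 2) ^ 2), ⌈2 * (1 + 10 * b) / b ^ 2⌉₊, b0, b1, rfl,
    Real.sqrt_pos.2 (by linarith), ?_, (div_le_iff₀ h3).1 h5, ?_⟩
  · rw [Real.sq_sqrt (by linarith)]
    ring
  · have h7 := mul_le_mul_of_nonneg_right h6 h3.le
    rw [add_mul, div_mul_cancel₀ _ h3.ne', one_mul] at h7
    exact h7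

lemma square (h : RectStmt) {b : ℝ} {n : ℕ} (b0 : 0 < b) (b1 : b ≤ 1 / 10 ^ 6)
    (hn : n * b ^ 5 = 96) : ∃ ε : ℝ, 0 < ε ∧
    Cv (fun x y => 0 ≤ x ∧ x ≤ n + ε ∧ 0 ≤ y ∧ y ≤ n + ε)
      ((n : ℝ) ^ 2 + (160 + 10 ^ 5 * b) / b ^ 3) := by
  obtain ⟨C, N, hU⟩ := params b0 b1
  obtain ⟨S, hS⟩ : ∃ S : ℝ, S = b ^ 2 / 2 := ⟨_, rfl⟩
  rw [← hS] at hU
  obtain ⟨u, hu⟩ : ∃ u : ℝ, b * u = 1 := ⟨1 / b, by field_simp⟩
  have u0 : 0 < u := by
    by_contra k
    nlinarith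
  have u1 : 10 ^ 6 ≤ u := by nlinarith
  have u2 : 10 ^ 6 * u ≤ u ^ 2 := by nlinarith
  have u3 : 10 ^ 6 * u ^ 2 ≤ u ^ 3 := by nlinarith
  have u4 : 10 ^ 6 * u ^ 3 ≤ u ^ 4 := by rw [pow_succ' _ 3]; gcongr
  have u5 : 10 ^ 6 * u ^ 4 ≤ u ^ 5 := by rw [pow_succ' _ 4]; gcongr
  have e1 : S * u ^ 2 = 1 / 2 := by rw [hS]; linear_combination (b * u + 1) / 2 * hu
  have e2 : (n : ℝ) = 96 * u ^ 5 := by
    linear_combination u ^ 5 * hn - n * (1 + b * u + (b * u) ^ 2 + (b * u) ^ 3 + (b * u) ^ 4) * hu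
  have e3 : (160 + 10 ^ 5 * b) / b ^ 3 = 160 * u ^ 3 + 10 ^ 5 * u ^ 2 := by
    rw [div_eq_iff (by positivity)]
    linear_combination (-160 * (1 + b * u + (b * u) ^ 2) - 10 ^ 5 * b * (1 + b * u)) * hu
  have S0 : 0 < S := by rw [hS]; positivity
  have S1 : S ≤ 1 / 100 := by rw [hS]; nlinarith
  have e4 : 200 / S = 400 * u ^ 2 := by
    rw [div_eq_iff S0.ne']
    linear_combination -400 * e1
  have e5 : S ^ 2 * u ^ 4 = 1 / 4 := by linear_combination (S * u ^ 2 + 1 / 2) * e1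
  have C0 := hU.C0
  have hC := hU.hC
  have C1 : C ≤ 1 := by nlinarith [sq_nonneg S]
  have a6 : S ^ 2 / 2 ≤ 1 - C := by nlinarith [sq_nonneg (1 - C)]
  have a6' : 1 - C ≤ S ^ 2 := by nlinarith
  have S2 : S ^ 2 ≤ S / 100 := by nlinarith
  have S3 : 0 < S ^ 2 := by positivity
  have a7 : 0 < 1 - C := by linarith
  have a8 : 0 < (C - S) / (1 - C) := div_pos (by linarith) a7
  obtain ⟨m, hm⟩ : ∃ m, ⌈(C - S) / (1 - C)⌉₊ = m + 1 :=
    Nat.exists_eq_succ_of_ne_zero (Nat.ceil_pos.2 a8).ne'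
  have m1 := Nat.le_ceil ((C - S) / (1 - C))
  have m2 := Nat.ceil_lt_add_one a8.le
  rw [hm] at m1 m2
  push_cast at m1 m2
  rw [div_le_iff₀ a7] at m1
  rw [add_lt_add_iff_right, lt_div_iff₀ a7] at m2
  have m0 : (0 : ℝ) ≤ m := by positivity
  have m3' : S ^ 2 * m ≤ 2 := by
    have := mul_le_mul_of_nonneg_left a6 m0
    linarith
  have m3 : (m : ℝ) ≤ 8 * u ^ 4 := le_of_mul_le_mul_left (by linarith) S3
  have m4' : 1 / 2 ≤ (m + 1) * S ^ 2 := by
    have := mul_le_mul_of_nonneg_left a6' (show (0 : ℝ) ≤ m + 1 by linarith)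
    linarith
  have m4 : 3 ≤ S * m := by
    by_contra k
    have : S * (S * m) ≤ S * 3 := by gcongr; linarith
    nlinarith
  have m5' : (m : ℝ) < n := by linarith
  have m5 : m < n := by exact_mod_cast m5'
  have n0 : (0 : ℝ) < n := by linarith
  obtain ⟨ε, ε0, ε1, ε2⟩ : ∃ ε : ℝ, 0 < ε ∧ ε * n ≤ 1 ∧ ε ≤ C - S - m * (1 - C) :=
    ⟨min (1 / n) (C - S - m * (1 - C)), lt_min (by positivity) (by linarith),
      (le_div_iff₀ n0).1 (min_le_left _ _), min_le_right _ _⟩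
  have ε3 : ε ≤ 1 := by
    have := mul_nonneg m0 a7.le
    linarith
  have ε4 : ε * ε ≤ 1 * 1 := by gcongr
  have ε5 : 0 ≤ S * ε := by positivity
  have ε6 : S ^ 2 * ε ≤ 1 * 1 := by gcongr; linarith
  have R := fun Λ hΛ => h b C S (m + ε) Λ N m hU (by linarith) (by linarith) m1 (by linarith)
    (by linarith) hΛ
  have f1 : S * n = 48 * u ^ 3 := by rw [e2]; linear_combination 96 * u ^ 3 * e1
  have f2 : S * m ≤ 4 * u ^ 2 := by
    have : S * m ≤ S * (8 * u ^ 4) := by gcongr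
    have e : S * (8 * u ^ 4) = 4 * u ^ 2 := by linear_combination 8 * u ^ 2 * e1
    linarith
  have f3 : S ^ 2 * n = 24 * u := by rw [e2]; linear_combination 96 * u * e5
  refine ⟨ε, ε0, (((Cv.box (k := n - m) (l := n - m) (by omega) (by omega) 0 0).or
    ((R (n + ε) (by linarith)).shift 0 (m - n))).or
    ((R (n - m) (by linarith)).refl.rot (c := 0) (s := -1) (by norm_num) 0 (m - n))).mono ?_ ?_⟩
  · have a9 : b * (1 + 200 * b) * (m + ε) ≤ b * (1 + 200 * b) * (8 * u ^ 4 + 1) := by gcongr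
    have a10 : b * (1 + 200 * b) * (8 * u ^ 4 + 1) =
        8 * u ^ 3 + 1600 * u ^ 2 + b * (1 + 200 * b) := by
      linear_combination (8 * u ^ 3 + 1600 * u ^ 2 * (b * u + 1)) * hu
    have a11 : b * (1 + 200 * b) ≤ 1 * 2 := by gcongr <;> linarith
    have a12 : S * ε ≤ 1 * 1 := by gcongr; linarith
    have a13 : 0 ≤ S ^ 2 * m := by positivity
    rw [Nat.cast_sub m5.le, e3, e4]
    linarith
  · rintro x y ⟨k1, k2, k3, k4⟩
    rw [Nat.cast_sub m5.le]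
    rcases le_total (n - m : ℝ) y with k5 | k5
    · exact Or.inl (Or.inr ⟨by linarith, by linarith, by linarith, by linarith⟩)
    rcases le_total (n - m : ℝ) x with k6 | k6
    · exact Or.inr ⟨by linarith, by linarith, by linarith, by linarith⟩
    · exact Or.inl (Or.inl ⟨k1, by linarith, k3, by linarith⟩)

end Upper

theorem upper (h : RectStmt) : UpperStmt := by
  intro b n b0 b1 hn
  obtain ⟨ε, ε0, L, h1, h2, h3⟩ := Upper.square h b0 b1 hn
  refine ⟨ε, ε0, L.length, fun k => ⟨(L.get k).2.2.1, (L.get k).2.2.2⟩ * ⟨(L.get k).1, (L.get k).2.1⟩,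
    fun k => ⟨(L.get k).2.2.1, (L.get k).2.2.2⟩, fun k => ?_, fun x hx y hy => ?_, h1⟩
  · rw [← sq_eq_sq₀ (norm_nonneg _) zero_le_one, ← Complex.normSq_eq_norm_sq, Complex.normSq_mk]
    linarith [h2 _ (List.get_mem L k)]
  · obtain ⟨z, hz, k1, k2, k3, k4⟩ := h3 x y ⟨hx.1, hx.2, hy.1, hy.2⟩
    obtain ⟨k, rfl⟩ := List.get_of_mem hz
    have e := h2 _ hz
    refine ⟨k, _, ⟨sub_nonneg.2 k1, by linarith⟩, _, ⟨sub_nonneg.2 k3, by linarith⟩, ?_⟩
    apply Complex.ext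
    · simp only [Complex.add_re, Complex.mul_re, Complex.add_im, Complex.mul_im, Complex.ofReal_re,
        Complex.ofReal_im, Complex.I_re, Complex.I_im]
      linear_combination (-x) * e
    · simp only [Complex.add_re, Complex.mul_re, Complex.add_im, Complex.mul_im, Complex.ofReal_re,
        Complex.ofReal_im, Complex.I_re, Complex.I_im]
      linear_combination (-y) * e

end Pool.Agent.MP_c59ecb_co.sh
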