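import Pool.Agent.MP_c59ecb_co.sh.Boot

-- ======== part 0: formerly Pool.Agent.MP_c59ecb_co.sh.WinH
section MrgPart0

/-! Windows with a tilted target: the two short rays hit the column of the target. -/

set_option autoImplicit false

namespace Pool.Agent.MP_c59ecb_co.sh

open MeasureTheory Complex Pool.Agent.MP_c59ecb_co.h76

variable {ι : Type} [Fintype ι] [DecidableEq ι] {ω : ι → ℂ}

namespace WinH

/-! ### numbers -/

structure Num (P : Pm) : Prop where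
  t1 : 0 < P.t1
  t12 : P.t1 ≤ P.t2
  vt : P.vt ≤ P.t1
  vf : 10 * P.vt ≤ P.f0
  tR : P.t2 * P.R ^ 2 ≤ 1 / 10 ^ 6
  tr : P.t2 * P.r ≤ 1 / 10 ^ 6
  t2 : P.t2 ≤ 1 / 10 ^ 6
  er : P.eta * P.r ≤ 1 / 10 ^ 6
  eta : P.eta ≤ 1 / 10 ^ 6
  te : 10 * P.t1 ≤ P.eta
  be : 2 * P.be ≤ P.eta
  lv : 3 * P.La2 * P.vt ≤ P.be
  rR : 10 * (P.r * P.R ^ 2) ≤ P.La2
  R1 : 1 ≤ P.R ^ 2
  r : (10 : ℝ) ^ 30 ≤ P.r
  e : (1 - P.e) * (1 + 10 * P.lam) * P.r ≤ P.r - 1 / 3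
  lam : 0 < P.lam

lemma num (P : Pm) : Num P := by
  have r1 := P.r_big
  have tR : P.t2 * P.R ^ 2 ≤ 1 / 10 ^ 6 := by
    have h1 : P.mn 36 5 * P.mn 60 0 = P.mn 96 5 := P.mn_mul' rfl rfl
    have h2 := P.mn_small (a := 96) (j := 5) (by norm_num) (by norm_num)
    have h3 := P.mn_pos 96 5
    rw [P.R_sq, show P.t2 * (100 * P.mn 60 0) = 100 * P.mn 96 5 by rw [← h1]; ring]
    linarith
  refine ⟨P.mn_pos _ _, P.mn_mono (by norm_num) (by norm_num),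
    P.mn_mono (by norm_num) (by norm_num), ?_, tR, ?_, ?_, ?_, ?_, ?_, ?_, ?_, ?_, ?_, r1, ?_,
    P.mn_pos _ _⟩
  · linarith [P.mn_le (a := 0) (j := 11) (b := -17) (k := 5) (by norm_num) (by norm_num),
      P.mn_pos 0 11]
  · have h1 : P.mn 36 5 * P.mn 30 0 = P.mn 66 5 := P.mn_mul' rfl rfl
    rw [P.r_eq, h1]
    linarith [P.mn_small (a := 66) (j := 5) (by norm_num) (by norm_num), P.mn_pos 66 5]
  · linarith [P.mn_small (a := 36) (j := 5) (by norm_num) (by norm_num), P.mn_pos 36 5]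
  · have h1 : P.mn (-40) 4 * P.mn 30 0 = P.mn (-10) 4 := P.mn_mul' rfl rfl
    rw [P.r_eq, h1]
    linarith [P.mn_small (a := -10) (j := 4) (by norm_num) (by norm_num), P.mn_pos (-10) 4]
  · linarith [P.mn_small (a := -40) (j := 4) (by norm_num) (by norm_num), P.mn_pos (-40) 4]
  · linarith [P.mn_le (a := 9) (j := 5) (b := -40) (k := 4) (by norm_num) (by norm_num),
      P.mn_pos 9 5]
  · linarith [P.mn_le (a := 0) (j := 5) (b := -40) (k := 4) (by norm_num) (by norm_num),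
      P.mn_pos 0 5]
  · have h1 : P.mn 78 (-5) * P.mn 0 11 = P.mn 78 6 := P.mn_mul' rfl rfl
    rw [mul_assoc, h1]
    linarith [P.mn_le (a := 78) (j := 6) (b := 0) (k := 5) (by norm_num) (by norm_num),
      P.mn_pos 78 6]
  · have h1 : P.mn 30 0 * P.mn 60 0 = P.mn 90 0 := P.mn_mul' rfl rfl
    rw [P.R_sq, P.r_eq, show P.mn 30 0 * (100 * P.mn 60 0) = 100 * P.mn 90 0 by rw [← h1]; ring]
    linarith [P.mn_le (a := 90) (j := 0) (b := 78) (k := -5) (by norm_num) (by norm_num),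
      P.mn_pos 90 0]
  · rw [P.R_sq]
    linarith [P.mn_big (a := 60) (j := 0) (by norm_num) (by norm_num)]
  · have h1 : P.mn (-1) 0 * P.mn 30 0 = P.mn 29 0 := P.mn_mul' rfl rfl
    have h2 : P.mn 0 1 * P.mn 30 0 = P.mn 30 1 := P.mn_mul' rfl rfl
    have h3 := P.mn_big (a := 29) (j := 0) (by norm_num) (by norm_num)
    have h4 := P.mn_small (a := 30) (j := 1) (by norm_num) (by norm_num)
    have h5 := mul_pos (P.mn_pos (-1) 0) (P.mn_pos 30 1)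
    have h6 := P.mn_pos 30 1
    rw [P.r_eq, show (1 - P.e) * (1 + 10 * P.lam) * P.mn 30 0 = P.mn 30 0 + 10 * P.mn 30 1 -
      P.mn 29 0 - 10 * (P.mn (-1) 0 * P.mn 30 1) by rw [← h1, ← h2]; ring]
    linarith

/-! ### the column of a window -/

/-- the squares of a transversal near time `a`, from the bottom to the top -/
def cl (P : Pm) (ρ : Ry ι) (a j : ℕ) : ι := ρ.J (a + 4 * P.r - j)

/-- a quiet window of a transversal -/
structure Qw (P : Pm) (d ω : ι → ℂ) (ρ : Ry ι) (a : ℕ) (γ : ℝ) : Prop where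
  base : Base P d ω ρ
  lo : 4 * P.r ≤ a
  hi : a + 4 * P.r ≤ 2 * P.T0
  sum : ∑ j ∈ Finset.Icc (a - 4 * P.r) (a + 4 * P.r), ρ.g j ≤ γ
  gv : γ ≤ P.vt

section Rays

variable {P : Pm} {d : ι → ℂ} {ρ : Ry ι} {a : ℕ} {γ : ℝ}

lemma Qw.sub (h : Qw P d ω ρ a γ) {S : Finset ℕ}
    (hS : ∀ k ∈ S, a - 4 * P.r ≤ k ∧ k ≤ a + 4 * P.r) : ∑ k ∈ S, ρ.g k ≤ γ :=
  (Finset.sum_le_sum_of_subset_of_nonneg (fun k hk => Finset.mem_Icc.2 (hS k hk))
    fun k _ _ => h.base.wray.g0 k).trans h.sum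

lemma Qw.g (h : Qw P d ω ρ a γ) {k : ℕ} (h1 : a - 4 * P.r ≤ k) (h2 : k ≤ a + 4 * P.r) :
    ρ.g k ≤ γ := by
  simpa using h.sub (S := {k}) (by simp [h2, Nat.sub_le_iff_le_add.1 h1])

lemma Qw.g0 (h : Qw P d ω ρ a γ) : 0 ≤ γ := by simpa using h.sub (S := ∅) (by simp)

lemma Qw.ang (L : L3 ω) (h : Qw P d ω ρ a γ) {i j : ℕ} (hi : i ≤ 8 * P.r) (hj : j ≤ 8 * P.r) :
    ‖ω (cl P ρ a i) - ω (cl P ρ a j)‖ ≤ γ := by
  have := h.lo
  have := h.hi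
  wlog hij : i ≤ j generalizing i j
  · rw [norm_sub_rev]
    exact this hj hi (by omega)
  exact (L.w.ang _ _ _ _ _ _ ρ (a + 4 * P.r - j) (a + 4 * P.r - i) h.base.wray (by omega)
    (by omega)).trans (h.sub fun k hk => by rw [Finset.mem_Ico] at hk; omega)

omit [Fintype ι] [DecidableEq ι] in
lemma cl_mid (P : Pm) (ρ : Ry ι) (a : ℕ) : cl P ρ a (4 * P.r) = ρ.J a := by simp [cl]

lemma Qw.tilt (h : Qw P d ω ρ a γ) (j : ℕ) : ‖ω (cl P ρ a j) - 1‖ ≤ P.t1 :=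
  h.base.wray.tilt _ (by have := h.hi; omega)

lemma Qw.calm (h : Qw P d ω ρ a γ) {j : ℕ} (hj : j ≤ 8 * P.r) :
    Calm d ω (cl P ρ a j) 15 γ ∧ Calm d ω (cl P ρ a j) P.R (P.R ^ 2 * γ) := by
  have := h.lo
  have := h.hi
  have hg := h.g (k := a + 4 * P.r - j) (by omega) (by omega)
  exact ⟨((h.base.wray.c1 _ (by omega)).unrot I_pow_four).mono le_rfl hg,
    ((h.base.wray.calm (by omega)).unrot I_pow_four).mono le_rfl
      (mul_le_mul_of_nonneg_left hg (sq_nonneg _))⟩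

lemma Qw.p (hω : Nm ω) (L : L3 ω) (h : Qw P d ω ρ a γ) : |ρ.p ω a| ≤ 101 / 100 * P.t1 := by
  have N := num P
  have h1 := h.tilt (4 * P.r)
  rw [cl_mid] at h1
  have := (L.tilt.one _ (hω.1 _) (h1.trans (by linarith [N.t12, N.t2]))).1
  unfold Ry.p
  linarith

lemma Qw.big (hω : Nm ω) (L : L3 ω) (h : Qw P d ω ρ a γ) (hp : P.f0 < |ρ.p ω a|) {j : ℕ}
    (hj : j ≤ 8 * P.r) : P.f0 / 2 ≤ |tl (ω (cl P ρ a j))| := by
  have N := num P
  have h1 := (L.tilt.lip _ _ (hω.1 _) (hω.1 _)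
    ((h.tilt (4 * P.r)).trans (by linarith [N.t12, N.t2]))
    ((h.tilt j).trans (by linarith [N.t12, N.t2]))).1
  have h2 := h.ang L (i := 4 * P.r) (by omega) hj
  have h3 := abs_sub_abs_le_abs_sub (tl (ω (cl P ρ a (4 * P.r)))) (tl (ω (cl P ρ a j)))
  rw [cl_mid] at h1 h2 h3
  unfold Ry.p at hp
  linarith [h.gv, N.vf, h.g0]

lemma Qw.col (hω : Nm ω) (L : L3 ω) (h : Qw P d ω ρ a γ) (hp : P.f0 < |ρ.p ω a|) :
    Col d ω (P.eta / 2) (3 * P.La2 * γ) (8 * P.r) (cl P ρ a) ∧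
      SA d ω (8 * P.r) (cl P ρ a) ≤ 3 * P.La2 * γ := by
  have N := num P
  have := h.lo
  have := h.hi
  have h0 : (2 * P.La2 + 5) * γ ≤ 3 * P.La2 * γ :=
    mul_le_mul_of_nonneg_right (by nlinarith [N.rR, N.R1, N.r]) h.g0
  obtain ⟨k1, k2⟩ := L.path.wincol d P.R 0 P.t1 P.t1 P.La2 γ (P.eta / 2) (3 * P.La2 * γ) (2 * P.T0)
    (a + 4 * P.r) (8 * P.r) ρ h.base.wray (by linarith [N.t12, N.t2]) (by linarith [N.t12, N.t2])
    (by omega) h.hi (P.mn_nonneg _ _) (fun k k1 k2 => h.base.str k (by omega)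
      ((h.g (by omega) (by omega)).trans h.gv) (by
        have := h.big hω L hp (j := a + 4 * P.r - k) (by omega)
        rwa [cl, show a + 4 * P.r - (a + 4 * P.r - k) = k by omega] at this))
    (h.sub fun k hk => by rw [Finset.mem_Ico] at hk; omega) h0 (by linarith [N.te])
  exact ⟨k1, k2.trans h0⟩

lemma Qw.small (h : Qw P d ω ρ a γ) : 3 * P.La2 * γ ≤ P.be :=
  (mul_le_mul_of_nonneg_left h.gv (by linarith [P.mn_pos 78 (-5)])).trans (num P).lv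

/-- two exit points on a tilted window -/
lemma Qw.appr (hω : Nm ω) (L : L3 ω) (h : Qw P d ω ρ a γ) (hp : P.f0 < |ρ.p ω a|) {j m : ℕ}
    (h1 : j + m ≤ 8 * P.r) (h2 : m ≤ P.r + 6) {v v' : ℝ} (hv : |v| ≤ 1 / 2) (hv' : |v'| ≤ 1 / 2) :
    |(ex d ω (cl P ρ a (j + m)) v' - ex d ω (cl P ρ a j) v).re +
      ρ.p ω a * (ex d ω (cl P ρ a (j + m)) v' - ex d ω (cl P ρ a j) v).im| ≤ 4 * P.La2 * γ := by
  have N := num P
  obtain ⟨k1, k2⟩ := h.col hω L hp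
  have t := h.tilt (4 * P.r)
  rw [cl_mid] at t
  have k3 := L.col.approx d _ _ γ v v' m (fun k => cl P ρ a (j + k)) (ω (ρ.J a)) (k1.sub h1)
    (by linarith [N.eta]) (hω.1 _) (t.trans (by linarith [N.t12, N.t2]))
    (fun k hk => cl_mid P ρ a ▸ h.ang L (by omega) (by omega)) hv hv'
  have k4 := (SS_le_SA d ω m fun k => cl P ρ a (j + k)).trans ((SA_sub d ω _ h1).trans k2)
  have k5 : (m : ℝ) ≤ P.r + 6 := by exact_mod_cast h2
  have k6 : 2 * ((m : ℝ) + 2) * γ ≤ P.La2 * γ :=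
    mul_le_mul_of_nonneg_right (by nlinarith [N.rR, N.R1, N.r]) h.g0
  simp only [Nat.add_zero] at k3
  unfold Ry.p
  rw [abs_le] at k3 k4 ⊢
  constructor <;> linarith [k3.1, k3.2, k4.1, k4.2]

/-- positions on a tilted window -/
lemma Qw.geo (hω : Nm ω) (L : L3 ω) (h : Qw P d ω ρ a γ) (hp : P.f0 < |ρ.p ω a|) {j : ℕ}
    (h1 : j + P.r ≤ 8 * P.r) : |(d (cl P ρ a (j + P.r)) - d (cl P ρ a j)).re| ≤ 1 / 1000 ∧
      |(d (cl P ρ a (j + P.r)) - d (cl P ρ a j)).im - P.r| ≤ 1 / 1000 := by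
  have N := num P
  obtain ⟨k1, k2⟩ := L.col.geo d _ _ _ _ j (j + P.r) (h.col hω L hp).1 (by linarith [N.eta])
    (by omega) h1
  push_cast at k1 k2
  rw [add_sub_cancel_left] at k1 k2
  have := mul_le_mul_of_nonneg_left (h.small.trans (show P.be ≤ P.eta by linarith [N.be, P.mn_pos 0 5]))
    (show (0 : ℝ) ≤ P.r by linarith [N.r])
  rw [sub_re, sub_im]
  constructor <;> linarith [N.er]

/-! ### rays -/

lemma pr (L : L3 ω) {G G' : ℝ} {T T' : ℕ} {K K' : Ry ι} (h : Wray d ω P.R 0 P.t2 T G K)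
    (h' : Wray d ω P.R 0 P.t2 T' G' K') (h3 : G ≤ 3 * P.t2) (h4 : G' ≤ 3 * P.t2) {s : ℕ}
    (hs : s ≤ T) (hs' : s ≤ T') (hx : |(K'.P d ω 0 - K.P d ω 0).re| ≤ 2)
    (hy : |(K'.P d ω 0 - K.P d ω 0).im - P.r| ≤ 1) :
    |(K'.P d ω s - K.P d ω s).re - (K'.P d ω 0 - K.P d ω 0).re| ≤ 2 * G + G' ∧
      |(K'.P d ω s - K.P d ω s).im - (K'.P d ω 0 - K.P d ω 0).im| ≤ P.R ^ 2 * G + G + G' ∧
      P.R ^ 2 * G + G + G' ≤ 1 / 1000 := by
  have N := num P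
  have hn : ‖K'.P d ω 0 - K.P d ω 0‖ ≤ P.R - 4 := by
    have := Complex.norm_le_abs_re_add_abs_im (K'.P d ω 0 - K.P d ω 0)
    have e2 : P.R = 10 * (P.r : ℝ) := rfl
    have := abs_sub_abs_le_abs_sub (K'.P d ω 0 - K.P d ω 0).im P.r
    rw [abs_of_nonneg (show (0 : ℝ) ≤ P.r by linarith [N.r])] at this
    linarith [N.r]
  have hb : P.R ^ 2 * G + G + G' ≤ 1 / 1000 := by
    have := mul_le_mul_of_nonneg_left h3 (sq_nonneg P.R)
    linarith [N.tR, N.t2]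
  obtain ⟨k1, k2⟩ := L.w.pair d P.R P.R 0 0 P.t2 G G' T T' K K' 0 0 s s h h' (by linarith [N.t2])
    (by linarith [N.tR]) (by linarith) (Nat.zero_le _) (Nat.zero_le _) hs hs' rfl hn
  refine ⟨k2, ?_, hb⟩
  rw [← sub_im]
  exact (abs_im_le_norm _).trans k1

lemma prog (L : L3 ω) {G : ℝ} {T : ℕ} {K : Ry ι} (h : Wray d ω P.R 0 P.t2 T G K)
    (h3 : G ≤ 3 * P.t2) {a b : ℕ} (hab : a ≤ b) (hb : b ≤ T) :
    ((b : ℝ) - a) * (99 / 100) - 1 / 1000 ≤ (K.P d ω b - K.P d ω a).re ∧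
      (K.P d ω b - K.P d ω a).re ≤ b - a + 1 / 1000 ∧
      |(K.P d ω b - K.P d ω a).im| ≤ ((b : ℝ) - a) / 1000 + 1 / 1000 := by
  have N := num P
  obtain ⟨g1, g2, g3⟩ := L.w.geo d _ _ _ G T K a b h hab hb
  have h0 := h.τ0
  have h1 := N.t2
  have hd : (0 : ℝ) ≤ (b : ℝ) - a := sub_nonneg.2 (by exact_mod_cast hab)
  have h5 : P.t2 ^ 2 ≤ 1 / 100 := by nlinarith
  have h4 := mul_le_mul_of_nonneg_left h5 hd
  have h6 := mul_le_mul_of_nonneg_right (show P.t2 ≤ 1 / 1000 by linarith) hd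
  exact ⟨by linarith, by linarith, by linarith⟩

lemma qgeo (L : L3 ω) (h : Base P d ω ρ) {a b : ℕ} (hab : a ≤ b) (hb : b ≤ 2 * P.T0) :
    |(ρ.Q d ω b - ρ.Q d ω a).re| ≤ 2 * P.t1 * (b - a) ∧
      |(ρ.Q d ω b - ρ.Q d ω a).im + (b - a)| ≤ 2 * P.t1 * (b - a) := by
  rw [two_mul]
  exact L.pth.geo _ _ _ a b (L.path.pth d _ _ _ _ _ ρ h.wray) hab hb

lemma qcen (L : L3 ω) (h : Base P d ω ρ) {a : ℕ} (ha : a ≤ 2 * P.T0) :
    |(d (ρ.J a) - ρ.Q d ω a).re| ≤ 501 / 1000 ∧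
      |(d (ρ.J a) - ρ.Q d ω a).im - 1 / 2| ≤ 1 / 1000 := by
  have N := num P
  obtain ⟨k1, k2⟩ := L.path.cen d _ _ _ _ _ a ρ h.wray ha
  have k3 := abs_le.1 (h.wray.v a ha)
  rw [abs_le] at k1
  exact ⟨abs_le.2 ⟨by linarith [k1.1, N.t12, N.t2], by linarith [k1.2, N.t12, N.t2]⟩,
    by linarith [N.t12, N.t2]⟩

lemma qnorm (L : L3 ω) (h : Base P d ω ρ) {a : ℕ} (ha : a ≤ 2 * P.T0) :
    ‖d (ρ.J a) - ρ.Q d ω a‖ ≤ 11 / 10 := by
  obtain ⟨k1, k2⟩ := qcen L h ha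
  have := Complex.norm_le_abs_re_add_abs_im (d (ρ.J a) - ρ.Q d ω a)
  have k3 : |(d (ρ.J a) - ρ.Q d ω a).im| ≤ 501 / 1000 :=
    abs_le.2 ⟨by linarith [(abs_le.1 k2).1], by linarith [(abs_le.1 k2).2]⟩
  linarith

end Rays

/-! ### the two short rays -/

variable {P : Pm} {d : ι → ℂ} {Ks : Finset ℕ} {ρ : ℕ → Ry ι} {kb kt s : ℕ} {G G' γ : ℝ}
  {K K' : Ry ι} {T1 T2 Ts Ts' h h' hw : ℕ}

lemma rng (S : Shot P d ω Ks ρ kb kt s G K T1 Ts h) :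
    4 * P.r ≤ s ∧ s + 4 * P.r ≤ 2 * P.T0 ∧ 4 * P.r ≤ h ∧ h + 4 * P.r ≤ 2 * P.T0 := by
  have := P.r_le_n'
  have := S.rng.1
  have := S.rng.2
  have := S.h1
  have := S.h2
  unfold Pm.T0
  omega

lemma start (L : L3 ω) (F : Fam P d ω Ks ρ) (hb : kb ∈ Ks)
    (S : Shot P d ω Ks ρ kb kt s G K T1 Ts h) :
    |(K.P d ω 0 - (ρ kb).Q d ω s).re - 1 / 2| ≤ 501 / 1000 ∧
      |(K.P d ω 0 - (ρ kb).Q d ω s).im - 1 / 2| ≤ 126 / 1000 := by
  have N := num P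
  have hs : s ≤ 2 * P.T0 := by have := rng S; omega
  obtain ⟨k1, k2⟩ := L.path.start d _ _ _ _ _ _ s (ρ kb) (F.base kb hb).wray hs S.v0
  have k3 := abs_le.1 ((F.base kb hb).wray.v s hs)
  have k4 := abs_le.1 S.v0
  rw [← S.st] at k1 k2
  change |(K.P d ω 0 - _).re - _| ≤ _ at k1
  change |(K.P d ω 0 - _).im - _| ≤ _ at k2
  rw [abs_le] at k1 k2
  exact ⟨abs_le.2 ⟨by linarith [k1.1, N.t12, N.t2], by linarith [k1.2, N.t12, N.t2]⟩,
    abs_le.2 ⟨by linarith [k2.1, N.t12, N.t2], by linarith [k2.2, N.t12, N.t2]⟩⟩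

lemma long (L : L3 ω) (F : Fam P d ω Ks ρ) (hb : kb ∈ Ks) (ht : kt ∈ Ks) (lt : kt < kb)
    (S : Shot P d ω Ks ρ kb kt s G K T1 Ts h) : 20 ≤ Ts := by
  have N := num P
  have r0 := rng S
  have k0 := L.side.far P d Ks ρ kb kt F hb ht lt.ne' h (by omega) s (by omega)
  obtain ⟨k1, k2⟩ := start L F hb S
  obtain ⟨k3, k4, k5⟩ := prog L S.stop.wray (by linarith [S.G1, N.t1, N.t12]) (Nat.zero_le Ts)
    S.lt.le
  have k6 := S.im
  have k7 := S.re1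
  have k8 := S.re2
  have k9 := Complex.norm_le_abs_re_add_abs_im ((ρ kt).Q d ω h - (ρ kb).Q d ω s)
  by_contra hc
  have k10 : (Ts : ℝ) ≤ 20 := by exact_mod_cast (not_le.1 hc).le
  have k11 : (0 : ℝ) ≤ Ts := Nat.cast_nonneg _
  have e2 : P.R = 10 * (P.r : ℝ) := rfl
  simp only [sub_re, sub_im, Nat.cast_zero, sub_zero] at *
  rw [abs_le] at k1 k2 k5 k6
  have a1 : |((ρ kt).Q d ω h).re - ((ρ kb).Q d ω s).re| ≤ 30 :=
    abs_le.2 ⟨by linarith [k1.1], by linarith [k1.2]⟩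
  have a2 : |((ρ kt).Q d ω h).im - ((ρ kb).Q d ω s).im| ≤ 30 :=
    abs_le.2 ⟨by linarith [k2.1, k5.1, k6.2], by linarith [k2.2, k5.2, k6.1]⟩
  linarith [N.r]

lemma near (L : L3 ω) (F : Fam P d ω Ks ρ) (ht : kt ∈ Ks)
    (S : Shot P d ω Ks ρ kb kt s G K T1 Ts h) :
    |(K.P d ω Ts - d ((ρ kt).J h)).re + 33 / 10| ≤ 141 / 100 ∧
      |(K.P d ω Ts - d ((ρ kt).J h)).im| ≤ 111 / 100 := by
  obtain ⟨k1, k2⟩ := qcen L (F.base kt ht) (a := h) (by have := rng S; omega)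
  have k6 := S.im
  have k7 := S.re1
  have k8 := S.re2
  simp only [sub_re, sub_im] at *
  rw [abs_le] at k1 k2 k6
  exact ⟨abs_le.2 ⟨by linarith [k1.2], by linarith [k1.1]⟩,
    abs_le.2 ⟨by linarith [k2.2, k6.1], by linarith [k2.1, k6.2]⟩⟩

lemma stq (L : L3 ω) (F : Fam P d ω Ks ρ) (ht : kt ∈ Ks) (W : Qw P d ω (ρ kt) hw γ) {j0 : ℕ}
    (h1 : P.r ≤ j0) (h2 : j0 ≤ 7 * P.r) (i : ι) (hi : i ∈ StF P Ks ρ)
    (hn : ‖d i - d (cl P (ρ kt) hw j0)‖ ≤ 12) : ∃ j ≤ 8 * P.r, i = cl P (ρ kt) hw j := by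
  have N := num P
  have := W.lo
  have := W.hi
  have := P.r_big'
  obtain ⟨k, hk, hi⟩ := Finset.mem_biUnion.1 hi
  obtain ⟨j, hj, rfl⟩ := Finset.mem_image.1 hi
  have hj : j ≤ 2 * P.T0 := Nat.lt_succ_iff.1 (Finset.mem_range.1 hj)
  unfold cl at hn ⊢
  generalize ha : hw + 4 * P.r - j0 = a at hn
  have k1 := qnorm L (F.base k hk) hj
  have k2 := qnorm L W.base (a := a) (by omega)
  have k3 : ‖(ρ k).Q d ω j - (ρ kt).Q d ω a‖ ≤ 15 := by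
    have e : (ρ k).Q d ω j - (ρ kt).Q d ω a = (d ((ρ k).J j) - d ((ρ kt).J a)) -
        (d ((ρ k).J j) - (ρ k).Q d ω j) + (d ((ρ kt).J a) - (ρ kt).Q d ω a) := by ring
    rw [e]
    linarith [norm_add_le ((d ((ρ k).J j) - d ((ρ kt).J a)) - (d ((ρ k).J j) - (ρ k).Q d ω j))
      (d ((ρ kt).J a) - (ρ kt).Q d ω a), norm_sub_le (d ((ρ k).J j) - d ((ρ kt).J a))
      (d ((ρ k).J j) - (ρ k).Q d ω j)]
  by_cases e : kt = k
  · subst e
    have key : ∀ a b : ℕ, a ≤ b → b ≤ 2 * P.T0 → ‖(ρ kt).Q d ω b - (ρ kt).Q d ω a‖ ≤ 15 →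
        b ≤ a + 16 := fun a b hab hb hn => by
      have q1 := (abs_le.1 (qgeo L W.base hab hb).2).2
      have q2 := (abs_le.1 ((abs_im_le_norm _).trans hn)).1
      have q3 : (0 : ℝ) ≤ (b : ℝ) - a := sub_nonneg.2 (by exact_mod_cast hab)
      have q4 := mul_le_mul_of_nonneg_right
        (show 2 * P.t1 ≤ 1 / 1000 by linarith [N.t12, N.t2]) q3
      exact_mod_cast (show (b : ℝ) ≤ a + 16 by linarith)
    have : j ≤ a + 16 ∧ a ≤ j + 16 := by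
      rcases le_total a j with l | l
      · exact ⟨key a j l hj k3, by omega⟩
      · exact ⟨by omega, key j a l (by omega) (by rw [norm_sub_rev]; exact k3)⟩
    exact ⟨hw + 4 * P.r - j, by omega, by congr 1; omega⟩
  · have := L.side.far P d Ks ρ kt k F ht hk e j hj a (by omega)
    have e2 : P.R = 10 * (P.r : ℝ) := rfl
    linarith [N.r]

lemma hit1 (hω : Nm ω) (L : L3 ω) (F : Fam P d ω Ks ρ) (ht : kt ∈ Ks)
    (W : Qw P d ω (ρ kt) hw γ) (hp : P.f0 < |(ρ kt).p ω hw|)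
    (S : Shot P d ω Ks ρ kb kt s G K T1 Ts h) {j0 t : ℕ} (h1 : P.r ≤ j0) (h2 : j0 ≤ 7 * P.r)
    (h3 : t ≤ Ts) (hx : |(K.P d ω t - d (cl P (ρ kt) hw j0)).re + 33 / 10| ≤ 5 / 2)
    (hy : |(K.P d ω t - d (cl P (ρ kt) hw j0)).im| ≤ 3 / 2) :
    T1 + 1 ≤ t + 9 ∧ ∃ (j : ℕ) (g : ℕ → ℝ), K.J (T1 + 1) = cl P (ρ kt) hw j ∧ j ≤ j0 + 3 ∧
      j0 ≤ j + 3 ∧ Wray d ω P.R 0 P.t2 (T1 + 1) (8 * G + γ) ⟨K.J, K.V, g⟩ := by
  have N := num P
  have := W.lo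
  have := W.hi
  have := P.r_big'
  have := S.hor
  have := S.lt
  rw [abs_le] at hx
  obtain ⟨k1, j, hj, k2, k3, k4⟩ := L.hit P d 0 P.t2 G _ _ _ _ T1 _ t j0 K _ S.stop
    (by linarith [S.G1, N.t2]) (W.col hω L hp).1 (by linarith [N.eta])
    (by linarith [W.small, N.be, N.eta])
    (fun j _ => Finset.mem_biUnion.2 ⟨kt, ht, Finset.mem_image.2
      ⟨_, Finset.mem_range.2 (by omega), rfl⟩⟩) (by omega) (by omega) (by omega) (by omega)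
    (by linarith [hx.1]) (by linarith [hx.2]) hy (stq L F ht W h1 h2)
  obtain ⟨g, hg⟩ := L.w.snoc P d 0 P.t2 G γ _ _ T1 K S.stop W.g0 (k2 ▸ (W.calm hj).1)
    (k2 ▸ (W.calm hj).2)
  exact ⟨k1, j, g, k2, k3, k4, hg⟩

/-- the data of a window -/
structure Cx (P : Pm) (d ω : ι → ℂ) (Ks : Finset ℕ) (ρ : ℕ → Ry ι) (kb kt s : ℕ) (G G' γ : ℝ)
    (K K' : Ry ι) (T1 T2 Ts Ts' h h' hw : ℕ) : Prop where
  fam : Fam P d ω Ks ρ
  hb : kb ∈ Ks
  ht : kt ∈ Ks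
  lt : kt < kb
  rs : P.r ≤ s
  S : Shot P d ω Ks ρ kb kt s G K T1 Ts h
  S' : Shot P d ω Ks ρ kb kt (s - P.r) G' K' T2 Ts' h'
  e : hw = if Ts ≤ Ts' then h else h'
  sum : ∑ j ∈ Finset.Icc (s - 4 * P.r) (s + 4 * P.r), (ρ kb).g j +
    ∑ j ∈ Finset.Icc (hw - 4 * P.r) (hw + 4 * P.r), (ρ kt).g j ≤ γ
  gv : γ ≤ P.vt

variable (X : Cx P d ω Ks ρ kb kt s G G' γ K K' T1 T2 Ts Ts' h h' hw)
include X

lemma Cx.qb : Qw P d ω (ρ kb) s γ :=
  ⟨X.fam.base kb X.hb, (rng X.S).1, (rng X.S).2.1, le_trans (le_add_of_nonneg_right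
    (Finset.sum_nonneg fun j _ => (X.fam.base kt X.ht).wray.g0 j)) X.sum, X.gv⟩

lemma Cx.qt : Qw P d ω (ρ kt) hw γ := by
  have := rng X.S
  have := rng X.S'
  have := X.e
  exact ⟨X.fam.base kt X.ht, by split_ifs at this <;> omega, by split_ifs at this <;> omega,
    le_trans (le_add_of_nonneg_left
      (Finset.sum_nonneg fun j _ => (X.fam.base kb X.hb).wray.g0 j)) X.sum, X.gv⟩

lemma Cx.d0 (L : L3 ω) : |(K'.P d ω 0 - K.P d ω 0).re| ≤ 101 / 100 ∧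
    |(K'.P d ω 0 - K.P d ω 0).im - P.r| ≤ 26 / 100 := by
  have N := num P
  obtain ⟨k1, k2⟩ := start L X.fam X.hb X.S
  obtain ⟨k3, k4⟩ := start L X.fam X.hb X.S'
  obtain ⟨k5, k6⟩ := qgeo L X.qb.base (Nat.sub_le s P.r) (by have := X.qb.hi; omega)
  rw [Nat.cast_sub X.rs, sub_sub_cancel] at k5 k6
  have k7 := mul_le_mul_of_nonneg_right N.t12 (show (0 : ℝ) ≤ P.r by linarith [N.r])
  have k8 := N.tr
  simp only [sub_re, sub_im] at *
  rw [abs_le] at k1 k2 k3 k4 k5 k6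
  exact ⟨abs_le.2 ⟨by linarith [k1.2, k3.1, k5.2], by linarith [k1.1, k3.2, k5.1]⟩,
    abs_le.2 ⟨by linarith [k2.2, k4.1, k6.2], by linarith [k2.1, k4.2, k6.1]⟩⟩

lemma Cx.pos (hω : Nm ω) (L : L3 ω) (hp : P.f0 < |(ρ kt).p ω hw|) :
    ∃ j0, 3 * P.r ≤ j0 ∧ j0 ≤ 4 * P.r ∧
      ‖K.P d ω (min Ts Ts') - d ((ρ kt).J hw)‖ ≤ P.r + 8 ∧
      (|(K.P d ω (min Ts Ts') - d (cl P (ρ kt) hw j0)).re + 33 / 10| ≤ 5 / 2 ∧
        |(K.P d ω (min Ts Ts') - d (cl P (ρ kt) hw j0)).im| ≤ 3 / 2) ∧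
      |(K'.P d ω (min Ts Ts') - d (cl P (ρ kt) hw (j0 + P.r))).re + 33 / 10| ≤ 5 / 2 ∧
        |(K'.P d ω (min Ts Ts') - d (cl P (ρ kt) hw (j0 + P.r))).im| ≤ 3 / 2 := by
  have N := num P
  obtain ⟨k1, k2⟩ := X.d0 L
  have a1 := X.S.G1
  have a2 := X.S'.G1
  have a3 := X.S.G0
  have a4 := X.S'.G0
  obtain ⟨k3, k4, k5⟩ := pr L X.S.stop.wray X.S'.stop.wray (by linarith [N.t1, N.t12])
    (by linarith [N.t1, N.t12]) ((min_le_left Ts Ts').trans X.S.lt.le)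
    ((min_le_right Ts Ts').trans X.S'.lt.le) (by linarith) (by linarith)
  have k0 := Complex.norm_le_abs_re_add_abs_im (K.P d ω (min Ts Ts') - d ((ρ kt).J hw))
  have e := X.e
  have r0 := N.r
  have t2 := N.t2
  split_ifs at e with l
  · subst e
    obtain ⟨k6, k7⟩ := near L X.fam X.ht X.S
    obtain ⟨k8, k9⟩ := X.qt.geo hω L hp (j := 4 * P.r) (by omega)
    rw [min_eq_left l] at *
    refine ⟨4 * P.r, by omega, le_rfl, ?_⟩
    rw [cl_mid] at *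
    simp only [sub_re, sub_im] at *
    have b1 : |(K.P d ω Ts).re - (d ((ρ kt).J hw)).re| ≤ 5 :=
      abs_le.2 ⟨by linarith [(abs_le.1 k6).1], by linarith [(abs_le.1 k6).2]⟩
    refine ⟨by linarith, ⟨by linarith, by linarith⟩, ?_⟩
    rw [abs_le] at k1 k2 k3 k4 k6 k7 k8 k9
    exact ⟨abs_le.2 ⟨by linarith [k1.1, k3.1, k6.1, k8.2], by linarith [k1.2, k3.2, k6.2, k8.1]⟩,
      abs_le.2 ⟨by linarith [k2.1, k4.1, k7.1, k9.2], by linarith [k2.2, k4.2, k7.2, k9.1]⟩⟩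
  · subst e
    obtain ⟨k6, k7⟩ := near L X.fam X.ht X.S'
    obtain ⟨k8, k9⟩ := X.qt.geo hω L hp (j := 3 * P.r) (by omega)
    rw [min_eq_right (not_le.1 l).le] at *
    refine ⟨3 * P.r, le_rfl, by omega, ?_⟩
    rw [show 3 * P.r + P.r = 4 * P.r by ring, cl_mid] at *
    simp only [sub_re, sub_im] at *
    rw [abs_le] at k1 k2 k3 k4 k6 k7 k8 k9
    have b1 : |(K.P d ω Ts').re - (d ((ρ kt).J hw)).re| ≤ 6 :=
      abs_le.2 ⟨by linarith [k1.2, k3.2, k6.1], by linarith [k1.1, k3.1, k6.2]⟩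
    have b2 : |(K.P d ω Ts').im - (d ((ρ kt).J hw)).im| ≤ P.r + 2 :=
      abs_le.2 ⟨by linarith [k2.2, k4.2, k7.1], by linarith [k2.1, k4.1, k7.2]⟩
    exact ⟨by linarith, ⟨abs_le.2
      ⟨by linarith [k1.2, k3.2, k6.1, k8.1], by linarith [k1.1, k3.1, k6.2, k8.2]⟩,
      abs_le.2 ⟨by linarith [k2.2, k4.2, k7.1, k9.1], by linarith [k2.1, k4.1, k7.2, k9.2]⟩⟩,
      abs_le.2 ⟨by linarith [k6.1], by linarith [k6.2]⟩,
      abs_le.2 ⟨by linarith [k7.1], by linarith [k7.2]⟩⟩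

/-- both rays end on the column of the target -/
lemma Cx.hits (hω : Nm ω) (L : L3 ω) (hp : P.f0 < |(ρ kt).p ω hw|) :
    ∃ (j m : ℕ) (g g' : ℕ → ℝ), 2 * P.r ≤ j ∧ j ≤ 5 * P.r ∧ m ≤ P.r + 6 ∧
      T1 + 1 ≤ min Ts Ts' + 9 ∧ T2 + 1 ≤ min Ts Ts' + 9 ∧
      K.J (T1 + 1) = cl P (ρ kt) hw j ∧ K'.J (T2 + 1) = cl P (ρ kt) hw (j + m) ∧
      Wray d ω P.R 0 P.t2 (T1 + 1) (8 * G + γ) ⟨K.J, K.V, g⟩ ∧
      Wray d ω P.R 0 P.t2 (T2 + 1) (8 * G' + γ) ⟨K'.J, K'.V, g'⟩ ∧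
      ‖K.P d ω (min Ts Ts') - d ((ρ kt).J hw)‖ ≤ P.r + 8 ∧
      |(K'.P d ω (T2 + 1) - K.P d ω (T1 + 1)).re +
        (ρ kt).p ω hw * (K'.P d ω (T2 + 1) - K.P d ω (T1 + 1)).im| ≤ 4 * P.La2 * γ := by
  have := P.r_big'
  obtain ⟨j0, a1, a2, a3, ⟨a4, a5⟩, a6, a7⟩ := X.pos hω L hp
  obtain ⟨b1, j, g, b2, b3, b4, b5⟩ := hit1 hω L X.fam X.ht X.qt hp X.S (by omega) (by omega)
    (min_le_left _ _) a4 a5
  obtain ⟨c1, j', g', c2, c3, c4, c5⟩ := hit1 hω L X.fam X.ht X.qt hp X.S' (by omega) (by omega)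
    (min_le_right _ _) a6 a7
  obtain ⟨m, rfl⟩ := Nat.exists_eq_add_of_le (show j ≤ j' by omega)
  refine ⟨j, m, g, g', by omega, by omega, by omega, b1, c1, b2, c2, b5, c5, a3, ?_⟩
  have := X.qt.appr hω L hp (j := j) (m := m) (by omega) (by omega) X.S.stop.vl X.S'.stop.vl
  rwa [← b2, ← c2] at this

end WinH

end Pool.Agent.MP_c59ecb_co.sh

end MrgPart0

-- ======== part 1: formerly Pool.Agent.MP_c59ecb_co.sh.WinRR
section MrgPart1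

/-! Windows with tilted base and tilted target. -/

set_option autoImplicit false

namespace Pool.Agent.MP_c59ecb_co.sh

open MeasureTheory Complex Pool.Agent.MP_c59ecb_co.h76

variable {ι : Type} [Fintype ι] [DecidableEq ι] {ω : ι → ℂ}

namespace WinH

variable {P : Pm} {d : ι → ℂ} {Ks : Finset ℕ} {ρ : ℕ → Ry ι} {kb kt s : ℕ} {G G' γ : ℝ}
  {K K' : Ry ι} {T1 T2 Ts Ts' h h' hw : ℕ}

/-- the end points of two rays of almost the same length -/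
lemma ends (L : L3 ω) {T T' : ℕ} (h : Wray d ω P.R 0 P.t2 T G K)
    (h' : Wray d ω P.R 0 P.t2 T' G' K') (h3 : G ≤ 3 * P.t2) (h4 : G' ≤ 3 * P.t2)
    (h5 : T ≤ T' + 9) (h6 : T' ≤ T + 9) (hx : |(K'.P d ω 0 - K.P d ω 0).re| ≤ 2)
    (hy : |(K'.P d ω 0 - K.P d ω 0).im - P.r| ≤ 26 / 100) :
    |(K'.P d ω T' - K.P d ω T).im - P.r| ≤ 3 / 10 ∧
      (T < T' → 9 / 10 ≤ (K'.P d ω T' - K.P d ω T).re - (K'.P d ω 0 - K.P d ω 0).re) ∧
      (T' < T → (K'.P d ω T' - K.P d ω T).re - (K'.P d ω 0 - K.P d ω 0).re ≤ -(9 / 10)) := by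
  have N := num P
  have t2 := N.t2
  rcases le_total T T' with l | l
  · obtain ⟨k1, k2, k3⟩ := pr L h h' h3 h4 le_rfl l hx (by linarith)
    obtain ⟨k4, -, k5⟩ := prog L h' h4 l le_rfl
    have k6 : (T' : ℝ) ≤ T + 9 := by exact_mod_cast h6
    simp only [sub_re, sub_im] at *
    rw [abs_le] at k1 k2 k5 hy
    refine ⟨abs_le.2 ⟨by linarith [k2.1, k5.1, hy.1], by linarith [k2.2, k5.2, hy.2]⟩,
      fun k => ?_, fun k => by omega⟩
    have k7 : (T : ℝ) + 1 ≤ T' := by exact_mod_cast k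
    linarith [k1.1]
  · obtain ⟨k1, k2, k3⟩ := pr L h h' h3 h4 l le_rfl hx (by linarith)
    obtain ⟨k4, -, k5⟩ := prog L h h3 l le_rfl
    have k6 : (T : ℝ) ≤ T' + 9 := by exact_mod_cast h5
    simp only [sub_re, sub_im] at *
    rw [abs_le] at k1 k2 k5 hy
    refine ⟨abs_le.2 ⟨by linarith [k2.1, k5.2, hy.1], by linarith [k2.2, k5.1, hy.2]⟩,
      fun k => by omega, fun k => ?_⟩
    have k7 : (T' : ℝ) + 1 ≤ T := by exact_mod_cast k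
    linarith [k1.2]

/-- a small tilt absorbs the error of the heights -/
lemma absorb {p G G' : ℝ} (hp : |p| ≤ 101 / 100 * P.t1) (h0 : 0 ≤ G) (h1 : 0 ≤ G') :
    |p| * (P.R ^ 2 * G + G + G') ≤ G + G' := by
  have N := num P
  have k1 : P.t1 * P.R ^ 2 ≤ 1 / 10 ^ 6 :=
    (mul_le_mul_of_nonneg_right N.t12 (sq_nonneg _)).trans N.tR
  have k2 := mul_le_mul_of_nonneg_right hp
    (show 0 ≤ P.R ^ 2 * G + G + G' by positivity)
  have k3 := mul_le_mul_of_nonneg_right k1 h0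
  have k4 := mul_le_mul_of_nonneg_right (N.t12.trans N.t2) h0
  have k5 := mul_le_mul_of_nonneg_right (N.t12.trans N.t2) h1
  linarith

lemma small {x y p : ℝ} (h1 : |x + p * y| ≤ 1 / 1000) (hp : |p| ≤ 101 / 100 * P.t1)
    (hy : |y - P.r| ≤ 1) : |x| ≤ 1 / 100 := by
  have N := num P
  have r0 := N.r
  have k1 : |y| ≤ 2 * P.r := abs_le.2 ⟨by linarith [(abs_le.1 hy).1], by linarith [(abs_le.1 hy).2]⟩
  have k2 := mul_le_mul hp k1 (abs_nonneg _) (by linarith [N.t1])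
  have k3 := mul_le_mul_of_nonneg_right N.t12 (show (0 : ℝ) ≤ P.r by linarith)
  have k4 := abs_sub (x + p * y) (p * y)
  rw [add_sub_cancel_right, abs_mul] at k4
  linarith [N.tr]

lemma La (P : Pm) {γ : ℝ} (h : 0 ≤ γ) : γ ≤ P.La2 * γ := by
  have N := num P
  exact le_mul_of_one_le_left h (by nlinarith [N.rR, N.R1, N.r])

variable (X : Cx P d ω Ks ρ kb kt s G G' γ K K' T1 T2 Ts Ts' h h' hw)
include X

lemma Cx.cost : 8 * G + γ ≤ 3 * P.t2 ∧ 8 * G' + γ ≤ 3 * P.t2 := by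
  have N := num P
  exact ⟨by linarith [X.S.G1, X.gv, N.vt, N.t12], by linarith [X.S'.G1, X.gv, N.vt, N.t12]⟩

/-- the two tilts agree -/
lemma Cx.rr (hω : Nm ω) (L : L3 ω) (hp : P.f0 < |(ρ kb).p ω s|) (hp' : P.f0 < |(ρ kt).p ω hw|) :
    P.r * |(ρ kt).p ω hw - (ρ kb).p ω s| ≤ 100 * (G + G' + P.La2 * γ) := by
  have N := num P
  obtain ⟨j, m, g, g', -, -, -, a4, a5, -, -, a8, a9, -, a11⟩ := X.hits hω L hp'
  obtain ⟨b1, b2⟩ := X.d0 L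
  obtain ⟨c1, c2⟩ := X.cost
  have l1 := X.S.lt
  have l2 := X.S'.lt
  have v1 : |K.V 0| ≤ 1 / 2 := X.S.v0.trans (by norm_num)
  have v2 : |K'.V 0| ≤ 1 / 2 := X.S'.v0.trans (by norm_num)
  have b3 := X.qb.appr hω L hp (j := 4 * P.r) (m := P.r) (by omega) (by omega) v1 v2
  rw [cl_mid, ← X.S.st, cl, show s + 4 * P.r - (4 * P.r + P.r) = s - P.r by omega,
    ← X.S'.st] at b3
  change |(K'.P d ω 0 - K.P d ω 0).re + _ * (K'.P d ω 0 - K.P d ω 0).im| ≤ _ at b3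
  obtain ⟨e1, e2, e3⟩ := ends L a8 a9 c1 c2 (by omega) (by omega) (b1.trans (by norm_num)) b2
  change |(K'.P d ω (T2 + 1) - K.P d ω (T1 + 1)).im - _| ≤ _ at e1
  change _ → _ ≤ (K'.P d ω (T2 + 1) - K.P d ω (T1 + 1)).re - (K'.P d ω 0 - K.P d ω 0).re at e2
  change _ → (K'.P d ω (T2 + 1) - K.P d ω (T1 + 1)).re - (K'.P d ω 0 - K.P d ω 0).re ≤ _ at e3
  have p1 := X.qb.p hω L
  have p2 := X.qt.p hω L
  have g0 := X.qb.g0
  have g1 := La P g0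
  have s0 : 4 * P.La2 * γ ≤ 1 / 1000 := by linarith [X.qb.small, N.be, N.eta]
  have s1 := abs_le.1 (small (b3.trans s0) p1 (b2.trans (by norm_num)))
  have s2 := abs_le.1 (small (a11.trans s0) p2 (e1.trans (by norm_num)))
  have e : T2 = T1 := by
    rcases lt_trichotomy T1 T2 with l | l | l
    · linarith [e2 (by omega), s1.1, s2.2]
    · exact l.symm
    · linarith [e3 (by omega), s1.2, s2.1]
  subst e
  obtain ⟨k1, k2, -⟩ := pr L a8 a9 c1 c2 le_rfl le_rfl (b1.trans (by norm_num))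
    (b2.trans (by norm_num))
  change |(K'.P d ω (T2 + 1) - K.P d ω (T2 + 1)).re - (K'.P d ω 0 - K.P d ω 0).re| ≤ _ at k1
  change |(K'.P d ω (T2 + 1) - K.P d ω (T2 + 1)).im - (K'.P d ω 0 - K.P d ω 0).im| ≤ _ at k2
  have k3 := (mul_le_mul_of_nonneg_left k2 (abs_nonneg _)).trans (absorb p2 a8.G0 a9.G0)
  rw [← abs_mul] at k3
  generalize (K'.P d ω (T2 + 1) - K.P d ω (T2 + 1)).re = x' at *
  generalize (K'.P d ω (T2 + 1) - K.P d ω (T2 + 1)).im = y' at *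
  generalize (K'.P d ω 0 - K.P d ω 0).re = x at *
  generalize (K'.P d ω 0 - K.P d ω 0).im = y at *
  generalize (ρ kt).p ω hw = p' at *
  generalize (ρ kb).p ω s = p at *
  have k4 : |(p' - p) * y| ≤ 8 * P.La2 * γ + 3 * (8 * G + γ) + 2 * (8 * G' + γ) := by
    rw [abs_le] at k1 k3 a11 b3 ⊢
    constructor <;> linarith [k1.1, k1.2, k3.1, k3.2, a11.1, a11.2, b3.1, b3.2]
  have k5 : (P.r : ℝ) ≤ 2 * |y| := by linarith [(abs_le.1 b2).1, le_abs_self y, N.r]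
  have k6 := mul_le_mul_of_nonneg_right k5 (abs_nonneg (p' - p))
  rw [abs_mul] at k4
  linarith [X.S.G0, X.S'.G0]

end WinH

lemma gh_lip (hω : Nm ω) (L : L3 ω) {i j : ι} {τ : ℝ} (hi : ‖ω i - 1‖ ≤ 1 / 100)
    (hj : ‖ω j - 1‖ ≤ 1 / 100) (h1 : |tl (ω i)| ≤ τ) (h2 : |tl (ω j)| ≤ τ) :
    gh (ω i) - gh (ω j) ≤ τ * |tl (ω i) - tl (ω j)| := by
  have h0 := abs_nonneg (tl (ω i) - tl (ω j))
  rcases le_total |tl (ω j)| |tl (ω i)| with l | l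
  · have k1 := (L.tilt.mono _ _ (hω.1 _) (hω.1 _) hi hj l).2
    have k2 := abs_sub_abs_le_abs_sub (tl (ω i)) (tl (ω j))
    rw [← sq_abs (tl (ω i)), ← sq_abs (tl (ω j))] at k1
    have k3 := mul_le_mul (show |tl (ω i)| + |tl (ω j)| ≤ 2 * τ by linarith) k2 (by linarith)
      (by linarith [abs_nonneg (tl (ω i))])
    linarith
  · have k1 := (L.tilt.mono _ _ (hω.1 _) (hω.1 _) hj hi l).1
    have := mul_nonneg ((abs_nonneg _).trans h1) h0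
    linarith

open WinH in
theorem winRR (hω : Nm ω) (L : L3 ω) : WinIf ω fun x y f => f < x ∧ f < y := by
  intro P d Ks ρ kb kt s G G' γ K K' T1 T2 Ts Ts' h h' hw a1 a2 a3 a4 a5 a6 a7 a8 a9 a10 ⟨hp, hp'⟩
  have X : Cx P d ω Ks ρ kb kt s G G' γ K K' T1 T2 Ts Ts' h h' hw :=
    ⟨a1, a2, a3, a4, a5, a6, a7, a8, a9, a10⟩
  have N := num P
  have key := X.rr hω L hp hp'
  have g0 := X.qb.g0
  have g1 := La P g0
  have G0 := a6.G0
  have G1 := a7.G0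
  have r0 : (0 : ℝ) ≤ P.r := Nat.cast_nonneg _
  have p1 := X.qb.p hω L
  have p2 := X.qt.p hω L
  have t1 := X.qb.tilt (4 * P.r)
  have t2 := X.qt.tilt (4 * P.r)
  rw [cl_mid] at t1 t2
  have u1 := mul_le_mul_of_nonneg_left (gh_lip hω L (t1.trans (by linarith [N.t12, N.t2]))
    (t2.trans (by linarith [N.t12, N.t2])) p1 p2) r0
  have u2 := mul_le_mul_of_nonneg_left (gh_lip hω L (t2.trans (by linarith [N.t12, N.t2]))
    (t1.trans (by linarith [N.t12, N.t2])) p2 p1) r0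
  rw [abs_sub_comm] at u1
  have u3 := mul_le_mul_of_nonneg_left key N.t1.le
  have u4 : 0 ≤ P.t1 * (G + G' + P.La2 * γ) := mul_nonneg N.t1.le (by linarith)
  have u5 : 0 ≤ P.r * P.f0 * (G + G' + γ) :=
    mul_nonneg (mul_nonneg r0 (P.mn_nonneg _ _)) (by linarith)
  have u6 := abs_sub_abs_le_abs_sub ((ρ kt).p ω hw) ((ρ kb).p ω s)
  have u7 := abs_sub_abs_le_abs_sub ((ρ kb).p ω s) ((ρ kt).p ω hw)
  rw [abs_sub_comm] at u7
  refine ⟨0, 0, ∅, le_rfl, le_rfl, fun i hi => absurd hi (Finset.notMem_empty i),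
    fun hi => absurd hi Finset.not_nonempty_empty, ?_, ?_, ?_, ?_⟩
  · linarith [Cost_nonneg (c := d) (ω := ω) P.lam ∅]
  · unfold pp
    rw [max_eq_left (sub_pos.2 hp).le, max_eq_left (sub_pos.2 hp').le, abs_le]
    constructor <;> linarith [mul_le_mul_of_nonneg_left u6 r0, mul_le_mul_of_nonneg_left u7 r0]
  · unfold Ry.p at *
    linarith
  · unfold Ry.p at *
    linarith

end Pool.Agent.MP_c59ecb_co.sh

end MrgPart1

-- ======== part 2: formerly Pool.Agent.MP_c59ecb_co.sh.WinCR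
section MrgPart2

/-! Windows with a flat base and a tilted target. -/

set_option autoImplicit false

namespace Pool.Agent.MP_c59ecb_co.sh

open MeasureTheory Complex Pool.Agent.MP_c59ecb_co.h76

variable {ι : Type} [Fintype ι] [DecidableEq ι] {ω : ι → ℂ}

namespace WinH

variable {P : Pm} {d : ι → ℂ} {Ks : Finset ℕ} {ρ : ℕ → Ry ι} {kb kt s : ℕ} {G G' γ : ℝ}
  {K K' : Ry ι} {T1 T2 Ts Ts' h h' hw : ℕ}

/-- the total slip of a column near a calm square -/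
lemma slipq (hω : Nm ω) (L : L3 ω) {T t : ℕ} {m : ℕ → ℕ} {A : ℕ → ℕ → ι} {O : ι} {D : ℂ}
    (h : Wray d ω P.R 0 P.t2 T G K) (h' : Wray d ω P.R 0 P.t2 T G' K')
    (tp : TP P.r P.lam P.eta P.t2 (G + G')) (tb : Tube d ω P.r P.eta T K K' m A) (ht : t ≤ T)
    (g0 : 0 ≤ γ) (hc : Calm d ω O P.R (P.R ^ 2 * γ)) (hO : ‖ω O - 1‖ ≤ P.t1)
    (hp : |tl (ω O)| ≤ 101 / 100 * P.t1) (hn : ‖K.P d ω t - d O‖ ≤ P.r + 20)
    (h1 : ‖K'.P d ω t - K.P d ω t - D‖ ≤ P.R ^ 2 * G + G + G')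
    (h2 : |(K'.P d ω t - K.P d ω t).re - D.re| ≤ 2 * G + G') :
    |SS d ω (m t) (A t) - (D.re + tl (ω O) * D.im)| ≤ P.La2 * γ + 3 * G + 2 * G' := by
  have N := num P
  have r0 := N.r
  have e2 : P.R = 10 * (P.r : ℝ) := rfl
  have k1 := L.col.approx d _ _ (P.R ^ 2 * γ) (K.V t) (K'.V t) (m t) (A t) (ω O) (tb.col t ht)
    (by linarith [N.eta]) (hω.1 _) (hO.trans (by linarith [N.t12, N.t2])) (fun j hj => by
      have a1 := (L.col.inn d _ _ _ _ _ T K K' m A t j tp tb ht (h.v t ht) (h'.v t ht) hj).1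
      have a2 := (L.w.cen d (K.J t) (K.V t) _ (h.tilt t ht) (h.v t ht)).2.2
      have a3 := norm_sub_le_norm_sub_add_norm_sub (d (A t j)) (d (K.J t)) (d O)
      have a4 := norm_sub_le_norm_sub_add_norm_sub (d (K.J t)) (K.P d ω t) (d O)
      change ‖d (K.J t) - K.P d ω t‖ ≤ _ at a2
      exact hc.ang _ (by linarith)) (h.v t ht) (h'.v t ht)
  rw [tb.lo t ht, tb.hi t ht] at k1
  change |_ - (K'.P d ω t - K.P d ω t).re - _ * (K'.P d ω t - K.P d ω t).im| ≤ _ at k1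
  have k2 : (m t : ℝ) ≤ P.r + 1 := by exact_mod_cast (tb.len t ht).2
  have k3 : 2 * ((m t : ℝ) + 2) * (P.R ^ 2 * γ) ≤ P.La2 * γ := by
    rw [← mul_assoc]
    refine mul_le_mul_of_nonneg_right ?_ g0
    linarith [N.rR, mul_le_mul_of_nonneg_right
      (show 2 * ((m t : ℝ) + 2) ≤ 10 * P.r by linarith) (sq_nonneg P.R)]
  have k4 := (mul_le_mul_of_nonneg_left ((abs_im_le_norm _).trans h1) (abs_nonneg _)).trans
    (absorb hp h.G0 h'.G0)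
  rw [← abs_mul, sub_im] at k4
  rw [abs_le] at k1 k4 h2 ⊢
  constructor <;> linarith [k1.1, k1.2, k4.1, k4.2, h2.1, h2.2]

/-- the final inequality -/
lemma fin {x C c : ℝ} (hx : 0 ≤ x) (hC : 0 ≤ C)
    (h : x * (P.r - 1 / 3) - C ≤ 2 * (1 + 10 * P.lam) * c) :
    (1 - P.e) * (P.r * (x / 2)) - C ≤ c := by
  have N := num P
  have k1 := mul_le_mul_of_nonneg_left N.e hx
  have k2 := mul_nonneg N.lam.le hC
  refine le_of_mul_le_mul_left ?_ (show 0 < 2 * (1 + 10 * P.lam) by linarith [N.lam])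
  linarith

variable (X : Cx P d ω Ks ρ kb kt s G G' γ K K' T1 T2 Ts Ts' h h' hw)
include X

/-- the tube between the two rays -/
lemma Cx.cr (hω : Nm ω) (L : L3 ω) (hp' : P.f0 < |(ρ kt).p ω hw|) :
    |(ρ kt).p ω hw - (ρ kb).p ω s| ≤ 10 * (G + G' + γ) ∧
      ∃ Z : Finset ι, Above d ω P.r K Ts Z ∧ High P d ω Z ∧
        |(ρ kt).p ω hw - (ρ kb).p ω s| * (P.r - 1 / 3) - 10 ^ 6 * (G + G' + P.La2 * γ) ≤
          2 * (1 + 10 * P.lam) * Cost d ω P.lam Z := by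
  have N := num P
  obtain ⟨j, m0, g, g', a1, a2, a3, a4, a5, a6, a7, a8, a9, a10, a11⟩ := X.hits hω L hp'
  obtain ⟨b1, b2⟩ := X.d0 L
  obtain ⟨c1, c2⟩ := X.cost
  have l1 := X.S.lt
  have l2 := X.S'.lt
  have l3 := long L X.fam X.hb X.ht X.lt X.S
  have l4 := long L X.fam X.hb X.ht X.lt X.S'
  have r1 := P.r_big'
  have r0 := N.r
  have g0 := X.qb.g0
  have g1 := La P g0
  have G0 := X.S.G0
  have G1 := X.S'.G0
  have p1 := X.qb.p hω L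
  have p2 := X.qt.p hω L
  have t1 := X.qb.tilt (4 * P.r)
  have t2 := X.qt.tilt (4 * P.r)
  have q1 := (X.qb.calm (j := 4 * P.r) (by omega)).2
  have q2 := (X.qt.calm (j := 4 * P.r) (by omega)).2
  rw [cl_mid] at t1 t2 q1 q2
  obtain ⟨o1, o2⟩ := X.qt.col hω L hp'
  have o3 := X.qt.small
  constructor
  · have k1 := (L.w.ang _ _ _ _ _ _ _ 0 (T1 + 1) a8 (Nat.zero_le _) le_rfl).trans
      (a8.sub fun k hk => by rw [Finset.mem_Ico] at hk; omega)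
    change ‖ω (K.J (T1 + 1)) - ω (K.J 0)‖ ≤ _ at k1
    have k2 := X.qt.ang L (i := 4 * P.r) (j := j) (by omega) (by omega)
    rw [cl_mid, ← a6] at k2
    rw [X.S.st] at k1
    have k3 := norm_sub_le_norm_sub_add_norm_sub (ω ((ρ kt).J hw)) (ω (K.J (T1 + 1)))
      (ω ((ρ kb).J s))
    have k4 := (L.tilt.lip _ _ (hω.1 _) (hω.1 _) (t2.trans (by linarith [N.t12, N.t2]))
      (t1.trans (by linarith [N.t12, N.t2]))).1
    unfold Ry.p
    linarith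
  obtain ⟨e1, -, -⟩ := ends L a8 a9 c1 c2 (by omega) (by omega) (b1.trans (by norm_num)) b2
  obtain ⟨T, δ, δ', u1, u2, u3⟩ : ∃ T δ δ', δ + T = T1 + 1 ∧ δ' + T = T2 + 1 ∧
      min Ts Ts' ≤ T := ⟨min T1 T2 + 1, T1 - min T1 T2, T2 - min T1 T2, by omega, by omega,
    by omega⟩
  obtain ⟨t, u4⟩ : ∃ t, δ + t = min Ts Ts' := ⟨min Ts Ts' - δ, by omega⟩
  have w1 := a8.tail (s := δ) (T' := T) u1.le
  have w2 := a9.tail (s := δ') (T' := T) u2.le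
  have tp : TP P.r P.lam P.eta P.t2 (8 * G + γ + (8 * G' + γ)) :=
    P.tp le_rfl (by linarith [N.t1, N.t12])
  have z1 : (Ry.tail ⟨K.J, K.V, g⟩ δ).P d ω T = K.P d ω (T1 + 1) := by rw [← u1]; rfl
  have z2 : (Ry.tail ⟨K'.J, K'.V, g'⟩ δ').P d ω T = K'.P d ω (T2 + 1) := by rw [← u2]; rfl
  obtain ⟨m, A, tb, -, -, v1, v2⟩ := L.tube d P.r P.lam P.eta P.t2 0 0 _ _ T T m0 _ _
    (fun k => cl P (ρ kt) hw (j + k)) tp w1 w2 le_rfl (by rw [z1, z2]; exact e1)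
    ((o1.sub (by omega)).mono (by linarith [N.be, P.mn_pos 0 5]) (by linarith [N.be]))
    (by rw [Nat.add_zero, ← a6, ← u1]; rfl) (by rw [← a7, ← u2]; rfl)
  rw [z1, z2] at v1
  have ab : Above d ω P.r K Ts (Inn t m A) := fun i hi => by
    obtain ⟨k, k1, k2⟩ := v2 t (by omega) i hi
    exact ⟨δ + k, by omega, k2⟩
  refine ⟨Inn t m A, ab, fun _ => ⟨⟨K.J, K.V, g⟩, T1 + 1, T1 + 1,
    fun k => cl P (ρ kt) hw (j - 2 * P.r + k), a8.mono le_rfl le_rfl c1, le_rfl,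
    Above.mono (T := Ts) ab (by omega), ?_,
    (o1.sub (by omega)).mono (by linarith [N.be, P.mn_pos 0 5]) o3,
    ((SA_sub d ω _ (by omega)).trans o2).trans o3, ?_, fun k hk => ?_⟩, ?_⟩
  · simp only [Nat.sub_add_cancel a1]
    exact a6.symm
  · change _ ≤ |tl (ω (K.J (T1 + 1)))|
    rw [a6]
    exact X.qt.big hω L hp' (by omega)
  · change ‖_ - ω (K.J (T1 + 1))‖ ≤ _
    rw [a6]
    exact (X.qt.ang L (by omega) (by omega)).trans X.gv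
  have s1 := slipq hω L w1 w2 tp tb (t := t) (by omega) g0 q2 t2 p2
    (by change ‖K.P d ω (δ + t) - _‖ ≤ _; rw [u4]; linarith) (v1 t (by omega)).2.1
    (v1 t (by omega)).2.2
  have s2 := slipq hω L w1 w2 tp tb (t := 0) (by omega) g0 q1 t1 p1 (by
      change ‖K.P d ω δ - _‖ ≤ _
      obtain ⟨k1, k2, k3⟩ := prog L a8 c1 (Nat.zero_le δ) (by omega)
      change _ ≤ (K.P d ω δ - K.P d ω 0).re at k1
      change (K.P d ω δ - K.P d ω 0).re ≤ _ at k2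
      change |(K.P d ω δ - K.P d ω 0).im| ≤ _ at k3
      have k4 : (δ : ℝ) ≤ 9 := by exact_mod_cast (show δ ≤ 9 by omega)
      have k5 : (0 : ℝ) ≤ δ := Nat.cast_nonneg _
      have k6 := (L.w.cen d (K.J 0) (K.V 0) _ (a8.tilt 0 (Nat.zero_le _))
        (a8.v 0 (Nat.zero_le _))).2.2
      have k7 := norm_sub_le_norm_sub_add_norm_sub (K.P d ω δ) (K.P d ω 0) (d (K.J 0))
      have k8 := Complex.norm_le_abs_re_add_abs_im (K.P d ω δ - K.P d ω 0)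
      change ‖d (K.J 0) - K.P d ω 0‖ ≤ _ at k6
      rw [norm_sub_rev] at k6
      rw [Nat.cast_zero] at k1 k2 k3
      have k9 : |(K.P d ω δ - K.P d ω 0).re| ≤ 10 := abs_le.2 ⟨by linarith, by linarith⟩
      rw [← X.S.st]
      linarith) (v1 0 (by omega)).2.1 (v1 0 (by omega)).2.2
  have s3 := L.tv d P.r P.lam P.eta P.t2 0 0 _ _ T t t t t _ _ m A tp w1 w2 tb le_rfl le_rfl le_rfl
    (by omega)
  rw [sub_self, abs_zero, add_zero, add_zero, add_zero] at s3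
  change |(K'.P d ω (T2 + 1) - K.P d ω (T1 + 1)).im - _| ≤ _ at e1
  unfold Ry.p at a11 ⊢
  generalize (K'.P d ω (T2 + 1) - K.P d ω (T1 + 1)).re = x at *
  generalize (K'.P d ω (T2 + 1) - K.P d ω (T1 + 1)).im = y at *
  generalize tl (ω ((ρ kt).J hw)) = p' at *
  generalize tl (ω ((ρ kb).J s)) = p at *
  generalize SS d ω (m t) (A t) = S at *
  generalize SS d ω (m 0) (A 0) = S0 at *
  have f1 : |S| ≤ 5 * P.La2 * γ + 3 * (8 * G + γ) + 2 * (8 * G' + γ) := by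
    rw [abs_le] at s1 a11 ⊢
    constructor <;> linarith [s1.1, s1.2, a11.1, a11.2]
  have f2 : |(p' - p) * y| ≤ |S0| + (5 * P.La2 * γ + 3 * (8 * G + γ) + 2 * (8 * G' + γ)) := by
    have := le_abs_self S0
    have := neg_abs_le S0
    rw [abs_le] at s2 a11 ⊢
    constructor <;> linarith [s2.1, s2.2, a11.1, a11.2]
  have f3 := mul_le_mul_of_nonneg_left
    (show P.r - 1 / 3 ≤ |y| by linarith [(abs_le.1 e1).1, le_abs_self y]) (abs_nonneg (p' - p))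
  rw [abs_mul] at f2
  linarith [neg_abs_le (|S| - |S0|)]

end WinH

open WinH in
theorem winCR (hω : Nm ω) (L : L3 ω) : WinIf ω fun x y f => x ≤ f ∧ f < y := by
  intro P d Ks ρ kb kt s G G' γ K K' T1 T2 Ts Ts' h h' hw a1 a2 a3 a4 a5 a6 a7 a8 a9 a10 ⟨hp, hp'⟩
  have X : Cx P d ω Ks ρ kb kt s G G' γ K K' T1 T2 Ts Ts' h h' hw :=
    ⟨a1, a2, a3, a4, a5, a6, a7, a8, a9, a10⟩
  have N := num P
  obtain ⟨k1, Z, k2, k3, k4⟩ := X.cr hω L hp'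
  have g0 := X.qb.g0
  have g1 := La P g0
  have G0 := a6.G0
  have G1 := a7.G0
  have r0 : (0 : ℝ) ≤ P.r := Nat.cast_nonneg _
  have f0 := P.mn_nonneg (-17) 5
  have t1 := X.qb.tilt (4 * P.r)
  have t2 := X.qt.tilt (4 * P.r)
  rw [cl_mid] at t1 t2
  obtain ⟨u1, u2⟩ := L.tilt.mono _ _ (hω.1 _) (hω.1 _) (t2.trans (by linarith [N.t12, N.t2]))
    (t1.trans (by linarith [N.t12, N.t2])) (hp.trans hp'.le)
  have u4 : 0 ≤ P.t1 * (G + G' + P.La2 * γ) := mul_nonneg N.t1.le (by linarith)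
  have u5 : 0 ≤ P.r * P.f0 * (G + G' + γ) := mul_nonneg (mul_nonneg r0 f0) (by linarith)
  have u6 := abs_sub_abs_le_abs_sub ((ρ kt).p ω hw) ((ρ kb).p ω s)
  refine ⟨P.r * ((|(ρ kt).p ω hw| - P.f0) / 2), 0, Z, mul_nonneg r0 (by linarith), le_rfl, k2, k3,
    ?_, ?_, ?_, ?_⟩
  · rw [add_zero]
    refine fin (by linarith) (by linarith) (le_trans ?_ k4)
    linarith [mul_le_mul_of_nonneg_right
      (show |(ρ kt).p ω hw| - P.f0 ≤ |(ρ kt).p ω hw - (ρ kb).p ω s| by linarith)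
      (show (0 : ℝ) ≤ P.r - 1 / 3 by linarith [N.r])]
  · unfold pp
    rw [max_eq_right (sub_nonpos.2 hp), max_eq_left (sub_pos.2 hp').le, abs_le]
    constructor <;> linarith
  · unfold Ry.p at *
    rw [← sq_abs (tl (ω ((ρ kt).J hw))), ← sq_abs (tl (ω ((ρ kb).J s)))] at u2
    have v1 := mul_le_mul (show P.f0 + |tl (ω ((ρ kb).J s))| ≤ 2 * P.f0 by linarith)
      (show P.f0 - |tl (ω ((ρ kb).J s))| ≤ 10 * (G + G' + γ) by linarith) (by linarith)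
      (by linarith)
    have v2 : gh (ω ((ρ kt).J hw)) - gh (ω ((ρ kb).J s)) ≤ (|tl (ω ((ρ kt).J hw))| + P.f0) *
        ((|tl (ω ((ρ kt).J hw))| - P.f0) / 2) + 10 * P.f0 * (G + G' + γ) := by linarith
    linarith [mul_le_mul_of_nonneg_left v2 r0]
  · linarith [mul_le_mul_of_nonneg_left u1 r0]

end Pool.Agent.MP_c59ecb_co.sh

end MrgPart2

-- marker of a merged file
example : 731051 + 505452 = 731051 + 505452 := rfl
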