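import Pool.Agent.MP_c59ecb_co.sh.Rect
import Pool.Agent.MP_c59ecb_co.sh.CellQ
import Pool.Agent.MP_c59ecb_co.sh.Upper
import Pool.Agent.MP_c59ecb_co.sh.Limit
import Pool.Agent.MP_c59ecb_co.sh.F1
import Pool.Agent.MP_c59ecb_co.sh.Launch
import Pool.Agent.MP_c59ecb_co.sh.ColStep
import Pool.Agent.MP_c59ecb_co.sh.Side
import Pool.Agent.MP_c59ecb_co.sh.Cap
import Pool.Agent.MP_c59ecb_co.sh.Pair
import Pool.Agent.MP_c59ecb_co.sh.Step
import Pool.Agent.MP_c59ecb_co.sh.TransTube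
import Pool.Agent.MP_c59ecb_co.sh.Shot
import Pool.Agent.MP_c59ecb_co.sh.Hit
import Pool.Agent.MP_c59ecb_co.sh.Off
import Pool.Agent.MP_c59ecb_co.sh.Boot
import Pool.Agent.MP_c59ecb_co.sh.WinCR

/-! Assembly of the two bounds. -/

set_option autoImplicit false

namespace Pool.Agent.MP_c59ecb_co.sh

variable {ι : Type} [Fintype ι] [DecidableEq ι] {ω : ι → ℂ}

theorem l0 : L0 := ⟨pickS, sumS, tiltS, locS, pthS⟩

theorem l1 (hω : Nm ω) : L1 ω :=
  ⟨l0, chainS, countS l0, colStepS l0, calmS hω, wS hω l0, colS hω l0, costS hω l0, pieceS hω l0⟩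

theorem l2 (hω : Nm ω) : L2 ω :=
  have L := l1 hω
  ⟨L, launchS hω L, pathS hω L, tubeS hω L, stepS hω L, straightS hω L, hitS hω L⟩

theorem l3 (hω : Nm ω) : L3 ω :=
  have L := l2 hω
  ⟨L, tvS hω L, sideS hω L, disjS hω L (sideS hω L), confS hω L, massS hω L, lowS hω L,
    rowsS hω L, transS hω L, offS hω L⟩

theorem l4 (hω : Nm ω) : L4 ω :=
  have L := l3 hω
  ⟨L, shotS hω L, winS_of (winC hω L) (winRR hω L) (winCR hω L), bootS hω L, capS hω L,
    rowTubeS hω L, transTubeS hω L⟩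

theorem lower_all : LowerStmt :=
  lowerS frameS fun _ _ _ _ hω =>
    have L := l4 hω
    ⟨L.cost, mainS hω L (dirS hω L (f1S hω L) (dir3S hω L (pairS hω L)))⟩

theorem upper_all : UpperStmt := upper (rect (trap (strip (stepU (cellq cell)))))

end Pool.Agent.MP_c59ecb_co.sh
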