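import Pool.Agent.MP_c59ecb_co.sh.Side

/-! One step of a tube: the inequality at an inner junction. -/

set_option autoImplicit false

namespace Pool.Agent.MP_c59ecb_co.sh

open MeasureTheory Complex Pool.Agent.MP_c59ecb_co.h76

namespace StepP

lemma mul_bd {a b A B : ℝ} (h : |a| ≤ A) (h' : |b| ≤ B) : -(A * B) ≤ a * b ∧ a * b ≤ A * B :=
  abs_le.1 (by rw [abs_mul]; exact mul_le_mul h h' (abs_nonneg _) ((abs_nonneg _).trans h))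

lemma pw {lam : ℝ} (h0 : 0 < lam) (h1 : lam ≤ 1 / 1000) :
    0 < lam ^ 4 ∧ lam ^ 4 ≤ lam ^ 2 / 1000 ∧ lam ^ 2 ≤ lam / 1000 := by
  have h2 : lam ^ 2 ≤ lam / 1000 := by nlinarith
  exact ⟨by positivity, by nlinarith [sq_nonneg lam], h2⟩

lemma area {w l S a k : ℝ} (hS : 0 ≤ S) (hk : 0 ≤ k) (hw : w ≤ k * l) (ha : l * S / 2 ≤ a) :
    w * S ≤ 2 * k * a := by
  nlinarith [mul_le_mul_of_nonneg_right hw hS, mul_le_mul_of_nonneg_left ha hk]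

lemma pure {lam β σ pm pp qm qp aP aQ l l' : ℝ} (h0 : 0 < lam) (h1 : lam ≤ 1 / 1000)
    (b0 : lam ≤ β) (b1 : β ≤ 1 / 2) (hσ : σ = 1 ∨ σ = -1) (hl : l = β - 4 * lam ^ 2)
    (hl' : l' = 1 - β - 4 * lam ^ 2) (hP : 0 ≤ pm ∧ 0 ≤ pp ∧ l * (pm + pp) / 2 ≤ aP)
    (hQ : 0 ≤ qm ∧ 0 ≤ qp ∧ l' * (qm + qp) / 2 ≤ aQ) :
    σ * (pp - qm) + (2 * β - 1) * (pm - qp) ≤
        2 * (1 + 10 * lam) * (aP + aQ) + ((1 - β) * (pp - pm) - β * (qp - qm)) ∧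
      σ * (pm - qp) + (2 * β - 1) * (pp - qm) ≤
        2 * (1 + 10 * lam) * (aP + aQ) - ((1 - β) * (pp - pm) - β * (qp - qm)) := by
  obtain ⟨p1, p2, p3⟩ := hP
  obtain ⟨q1, q2, q3⟩ := hQ
  have e1 : lam * lam ^ 2 ≤ lam ^ 2 / 1000 := by nlinarith [sq_nonneg lam]
  have a1 := area (w := β) (k := 1 + 10 * lam) (add_nonneg p1 p2) (by linarith)
    (by rw [hl]; nlinarith [mul_le_mul_of_nonneg_left b0 h0.le]) p3
  have a2 := area (w := 1 - β) (k := 1 + 10 * lam) (add_nonneg q1 q2) (by linarith)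
    (by rw [hl']; nlinarith [mul_le_mul_of_nonneg_left b1 h0.le]) q3
  rcases hσ with rfl | rfl <;> constructor <;> linarith

/-- one coefficient is a sign, the other one is `z` -/
def PM (s s' z : ℝ) : Prop := ((s = 1 ∨ s = -1) ∧ s' = z) ∨ ((s' = 1 ∨ s' = -1) ∧ s = z)

/-- admissible coefficients -/
def OK (lam b s s' : ℝ) : Prop :=
  (|b| ≤ lam ∧ |s| ≤ 1 ∧ s' = -s) ∨ (lam ≤ b ∧ PM s s' (2 * b - 1)) ∨
    (b ≤ -lam ∧ PM s s' (1 + 2 * b))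

lemma sgn (x : ℝ) : ∃ σ : ℝ, (σ = 1 ∨ σ = -1) ∧ |x| = σ * x := by
  rcases le_total 0 x with h | h
  · exact ⟨1, Or.inl rfl, by rw [abs_of_nonneg h, one_mul]⟩
  · exact ⟨-1, Or.inr rfl, by rw [abs_of_nonpos h, neg_one_mul]⟩

lemma abs_pm {σ : ℝ} (h : σ = 1 ∨ σ = -1) : |σ| ≤ 1 := by rcases h with rfl | rfl <;> simp

lemma exists_ok (lam : ℝ) {b : ℝ} (hb : |b| ≤ 1 / 2) (h0 : 0 ≤ lam) (x y : ℝ) :
    ∃ s s', OK lam b s s' ∧ |(|x| - |y|)| ≤ s * x + s' * y := by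
  have hb' := abs_le.1 hb
  have key : ∀ z : ℝ, |z| ≤ 1 → ∃ s s', PM s s' z ∧ |(|x| - |y|)| ≤ s * x + s' * y := by
    intro z hz
    obtain ⟨σ, s1, s2⟩ := sgn x
    obtain ⟨σ', s3, s4⟩ := sgn y
    have a1 := mul_bd hz (le_refl |x|)
    have a2 := mul_bd hz (le_refl |y|)
    rcases le_total |y| |x| with h | h
    · exact ⟨σ, z, Or.inl ⟨s1, rfl⟩, by rw [abs_of_nonneg (sub_nonneg.2 h)]; linarith [a2.1]⟩
    · exact ⟨z, σ', Or.inr ⟨s3, rfl⟩, by rw [abs_of_nonpos (sub_nonpos.2 h)]; linarith [a1.1]⟩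
  by_cases h1 : |b| ≤ lam
  · obtain ⟨σ, s1, s2⟩ := sgn (x - y)
    exact ⟨σ, -σ, Or.inl ⟨h1, abs_pm s1, rfl⟩, by linarith [abs_abs_sub_abs_le x y]⟩
  · rcases lt_abs.1 (not_le.1 h1) with h | h
    · obtain ⟨s, s', a1, a2⟩ := key (2 * b - 1) (abs_le.2 ⟨by linarith, by linarith⟩)
      exact ⟨s, s', Or.inr (Or.inl ⟨h.le, a1⟩), a2⟩
    · obtain ⟨s, s', a1, a2⟩ := key (1 + 2 * b) (abs_le.2 ⟨by linarith, by linarith⟩)
      exact ⟨s, s', Or.inr (Or.inr ⟨by linarith, a1⟩), a2⟩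

variable {ι : Type} {c ω : ι → ℂ}

/-- almost equal directions -/
def Nr (ω : ι → ℂ) (lam μ : ℝ) (i j : ι) : Prop :=
  |tl (ω i) - tl (ω j)| ≤ 3 * μ ∧ |1 / (2 * (ω i).re) - 1 / (2 * (ω j).re)| ≤ lam * μ

lemma j1 {lam μ y y' : ℝ} {A A' B : ι} (h1 : Nr ω lam μ B A') (h2 : Nr ω lam μ B A)
    (h3 : Nr ω lam μ A' A) (hy : |y - ((c A).im + (c A').im) / 2| ≤ 4 * lam)
    (hy' : |y' - ((c A).im + (c A').im) / 2| ≤ 4 * lam) :
    |slip c ω A A' - (dd c ω A' B y - dd c ω A B y')| ≤ 25 * (lam * μ) := by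
  have a1 := mul_bd h1.1 hy
  have a2 := mul_bd h2.1 hy'
  have a3 := abs_le.1 h3.2
  unfold dd slip
  exact abs_le.2 ⟨by linarith [a1.1, a1.2, a2.1, a2.2], by linarith [a1.1, a1.2, a2.1, a2.2]⟩

lemma j2 {lam μ y y' : ℝ} {A B B' : ι} (h1 : Nr ω lam μ A B') (h2 : Nr ω lam μ A B)
    (h3 : Nr ω lam μ B B') (hy : |y - ((c B).im + (c B').im) / 2| ≤ 4 * lam)
    (hy' : |y' - ((c B).im + (c B').im) / 2| ≤ 4 * lam) :
    |slip c ω B B' - (dd c ω A B y' - dd c ω A B' y)| ≤ 25 * (lam * μ) := by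
  have a1 := mul_bd h1.1 hy
  have a2 := mul_bd h2.1 hy'
  have a3 := abs_le.1 h3.2
  unfold dd slip
  exact abs_le.2 ⟨by linarith [a1.1, a1.2, a2.1, a2.2], by linarith [a1.1, a1.2, a2.1, a2.2]⟩

lemma slope (i j : ι) (y y' : ℝ) :
    dd c ω i j y - dd c ω i j y' = (tl (ω j) - tl (ω i)) * (y - y') := by
  unfold dd
  ring

/-- the potential -/
noncomputable def Phi (c ω : ι → ℂ) (u v o : ℝ) (A B : ι) : ℝ :=
  u * (tl (ω B) - tl (ω A)) + v * dd c ω A B ((c A).im + o)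

/-- `B` is the right neighbour of `A` -/
structure Two (c ω : ι → ℂ) (lam b : ℝ) (O : ι) (d : ℝ) (A B : ι) : Prop where
  tA : ‖ω A - 1‖ ≤ lam ^ 4 / 1000
  tB : ‖ω B - 1‖ ≤ lam ^ 4 / 1000
  dA : ‖c A - c O‖ ≤ d
  dB : ‖c B - c O‖ ≤ d
  x : |(c B).re - (c A).re - 1| ≤ lam ^ 4 / 100
  y : |(c B).im - (c A).im - b| ≤ lam ^ 4 / 100

/-- `A'` is the upper neighbour of `A` -/
def Up (c : ι → ℂ) (lam : ℝ) (A A' : ι) : Prop :=
  |(c A').re - (c A).re| ≤ lam ^ 4 / 100 ∧ |(c A').im - (c A).im - 1| ≤ lam ^ 4 / 100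

variable [Fintype ι] [DecidableEq ι]

/-- a calm disc -/
structure Disc (c ω : ι → ℂ) (lam : ℝ) (O : ι) (d μ : ℝ) : Prop where
  nm : Nm ω
  lib : L1 ω
  l0 : 0 < lam
  l1 : lam ≤ 1 / 1000
  calm : Calm c ω O (d + 3) μ
  m0 : 0 ≤ μ
  m1 : μ ≤ lam ^ 4 / 1000

variable {lam b d μ : ℝ} {O A A' B B' : ι}

lemma Disc.nr (D : Disc c ω lam O d μ) {i j : ι} (ti : ‖ω i - 1‖ ≤ lam ^ 4 / 1000)
    (tj : ‖ω j - 1‖ ≤ lam ^ 4 / 1000) (di : ‖c i - c O‖ ≤ d) (dj : ‖c j - c O‖ ≤ d) :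
    Nr ω lam μ i j := by
  obtain ⟨e1, e2, e3⟩ := pw D.l0 D.l1
  have := D.l1
  have := D.m0
  have h1 : ‖ω i - ω j‖ ≤ 2 * μ := by
    linarith [norm_sub_le_norm_sub_add_norm_sub (ω i) (ω O) (ω j), norm_sub_rev (ω O) (ω j),
      D.calm.ang i (by linarith), D.calm.ang j (by linarith)]
  refine ⟨?_, ?_⟩
  · linarith [(D.lib.tilt.lip _ _ (D.nm.1 i) (D.nm.1 j) (by linarith) (by linarith)).1]
  · refine (D.lib.tilt.half _ _ _ (D.nm.1 i) (D.nm.1 j) ti tj (by linarith)).trans ?_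
    have := mul_le_mul (show lam ^ 4 / 1000 ≤ lam / 2 by linarith [D.l0]) h1 (norm_nonneg _)
      (by linarith [D.l0])
    linarith

lemma Disc.pc (D : Disc c ω lam O d μ) {i j : ι} (ti : ‖ω i - 1‖ ≤ lam ^ 4 / 1000)
    (tj : ‖ω j - 1‖ ≤ lam ^ 4 / 1000) (di : ‖c i - c O‖ ≤ d) (dj : ‖c j - c O‖ ≤ d)
    (hx : |(c j).re - (c i).re - 1| ≤ lam ^ 4) (y1 y2 : ℝ) (h : y1 ≤ y2)
    (h1 : (c i).im - (1 / 2 - lam ^ 2) ≤ y1) (h2 : y2 ≤ (c i).im + (1 / 2 - lam ^ 2))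
    (h3 : (c j).im - (1 / 2 - lam ^ 2) ≤ y1) (h4 : y2 ≤ (c j).im + (1 / 2 - lam ^ 2)) :
    0 ≤ dd c ω i j y1 ∧ 0 ≤ dd c ω i j y2 ∧
      (y2 - y1) * (dd c ω i j y1 + dd c ω i j y2) / 2 ≤ AH c ω lam i j :=
  D.lib.piece.piece c O i j _ μ lam y1 y2 D.calm D.l0 D.l1 D.m1 (by linarith) (by linarith) ti tj
    hx h (abs_le.2 ⟨by linarith, by linarith⟩) (abs_le.2 ⟨by linarith, by linarith⟩)
    (abs_le.2 ⟨by linarith, by linarith⟩) (abs_le.2 ⟨by linarith, by linarith⟩)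

lemma Disc.vt (D : Disc c ω lam O d μ) (T : Two c ω lam b O d A B) (T' : Two c ω lam b O d A' B')
    (U : Up c lam A A') {V β : ℝ} (hV : AH (rt I c) ω lam A' A ≤ V) (h0 : 0 ≤ β * (1 - β)) :
    |β * (1 - β) * (tl (ω A') - tl (ω A))| ≤ 2 * (1 + 10 * lam) * V := by
  obtain ⟨e1, -⟩ := pw D.l0 D.l1
  have a1 := D.lib.piece.vert c O A A' _ μ lam D.calm D.l0 D.l1 D.m1 (by linarith [T.dA])
    (by linarith [T'.dA]) T.tA T'.tA (by linarith [U.1]) (by linarith [U.2])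
  have a2 := AH_nonneg (c := rt I c) (ω := ω) lam A' A
  have a3 : β * (1 - β) ≤ 1 / 4 := by nlinarith [sq_nonneg (β - 1 / 2)]
  rw [abs_mul, abs_of_nonneg h0]
  have a4 := mul_le_mul a3 a1 (abs_nonneg _) (by norm_num)
  nlinarith [mul_nonneg D.l0.le (a2.trans hV)]

lemma small (D : Disc c ω lam O d μ) (T : Two c ω lam b O d A B) (T' : Two c ω lam b O d A' B')
    (U : Up c lam A A') (hb : |b| ≤ lam) :
    |slip c ω B B' - slip c ω A A'| ≤ 2 * (1 + 10 * lam) * AH c ω lam A' B' +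
      Phi c ω 0 1 (1 / 2 - 2 * lam) A B - Phi c ω 0 1 (1 / 2 - 2 * lam) A' B' +
        50 * (lam * μ) := by
  obtain ⟨e1, e2, e3⟩ := pw D.l0 D.l1
  have l0 := D.l0
  have l1 := D.l1
  obtain ⟨b1, b2⟩ := abs_le.1 hb
  obtain ⟨y1, y2⟩ := abs_le.1 T.y
  obtain ⟨y3, y4⟩ := abs_le.1 T'.y
  obtain ⟨y5, y6⟩ := abs_le.1 U.2
  obtain ⟨p1, -⟩ := D.pc T.tA T.tB T.dA T.dB (by linarith [T.x]) ((c A).im + (1 / 2 - 2 * lam)) _
    le_rfl (by linarith) (by linarith) (by linarith) (by linarith)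
  obtain ⟨q1, q2, q3⟩ := D.pc T'.tA T'.tB T'.dA T'.dB (by linarith [T'.x])
    ((c A').im - (1 / 2 - 2 * lam)) ((c A').im + (1 / 2 - 2 * lam)) (by linarith) (by linarith)
    (by linarith) (by linarith) (by linarith)
  have a1 := abs_le.1 (j1 (c := c) (y := (c A').im - (1 / 2 - 2 * lam))
    (y' := (c A').im - (1 / 2 - 2 * lam)) (D.nr T'.tB T'.tA T'.dB T'.dA) (D.nr T'.tB T.tA T'.dB T.dA)
    (D.nr T'.tA T.tA T'.dA T.dA) (abs_le.2 ⟨by linarith, by linarith⟩)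
    (abs_le.2 ⟨by linarith, by linarith⟩))
  have a2 := abs_le.1 (j2 (c := c) (y := (c A').im - (1 / 2 - 2 * lam))
    (y' := (c A).im + (1 / 2 - 2 * lam)) (D.nr T.tA T'.tB T.dA T'.dB) (D.nr T.tA T.tB T.dA T.dB)
    (D.nr T.tB T'.tB T.dB T'.dB) (abs_le.2 ⟨by linarith, by linarith⟩)
    (abs_le.2 ⟨by linarith, by linarith⟩))
  have a3 := area (w := 1) (k := 1 + 10 * lam) (add_nonneg q1 q2) (by linarith)
    (by nlinarith) q3
  unfold Phi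
  exact abs_le.2 ⟨by linarith [a1.1, a1.2, a2.1, a2.2], by linarith [a1.1, a1.2, a2.1, a2.2]⟩

lemma tail {lam μ β x x' : ℝ} (h0 : 0 < lam) (h1 : lam ≤ 1 / 1000) (b0 : lam ≤ β) (b1 : β ≤ 1 / 2)
    (hx : |x| ≤ 3 * μ) (hx' : |x'| ≤ 3 * μ) :
    |(1 - β) * (x * (β - 4 * lam ^ 2)) - β * (x' * (1 - β - 4 * lam ^ 2)) -
      β * (1 - β) * (x - x')| ≤ lam * μ := by
  obtain ⟨e1, e2, e3⟩ := pw h0 h1
  have m0 : 0 ≤ μ := by linarith [abs_nonneg x]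
  have a1 := mul_bd (show |1 - β| ≤ 1 from abs_le.2 ⟨by linarith, by linarith⟩) hx
  have a2 := mul_bd (show |β| ≤ 1 from abs_le.2 ⟨by linarith, by linarith⟩) hx'
  have a3 := mul_bd (show |lam ^ 2| ≤ lam / 1000 by rwa [abs_of_nonneg (sq_nonneg _)])
    (show |(1 - β) * x - β * x'| ≤ 6 * μ from
      abs_le.2 ⟨by linarith [a1.1, a2.2], by linarith [a1.2, a2.1]⟩)
  have a4 := mul_nonneg h0.le m0
  exact abs_le.2 ⟨by linarith [a3.2], by linarith [a3.1]⟩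

lemma pos (D : Disc c ω lam O d μ) (T : Two c ω lam b O d A B) (T' : Two c ω lam b O d A' B')
    (U : Up c lam A A') (b0 : lam ≤ b) (b1 : b ≤ 1 / 2) {V σ : ℝ}
    (hV : AH (rt I c) ω lam A' A ≤ V) (hσ : σ = 1 ∨ σ = -1) :
    σ * slip c ω B B' + (2 * b - 1) * slip c ω A A' ≤
      2 * (1 + 10 * lam) * (AH c ω lam A' B + AH c ω lam A' B' + V) +
        Phi c ω (b * (1 - b)) (1 - 2 * b) (1 / 2 - 2 * lam ^ 2) A B -
        Phi c ω (b * (1 - b)) (1 - 2 * b) (1 / 2 - 2 * lam ^ 2) A' B' + 51 * (lam * μ) ∧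
    (2 * b - 1) * slip c ω B B' + σ * slip c ω A A' ≤
      2 * (1 + 10 * lam) * (AH c ω lam A' B + AH c ω lam A' B' + V) +
        Phi c ω (-(b * (1 - b))) (-σ) (1 / 2 - 2 * lam ^ 2) A B -
        Phi c ω (-(b * (1 - b))) (-σ) (1 / 2 - 2 * lam ^ 2) A' B' + 51 * (lam * μ) := by
  obtain ⟨e1, e2, e3⟩ := pw D.l0 D.l1
  have l0 := D.l0
  have l1 := D.l1
  obtain ⟨y1, y2⟩ := abs_le.1 T.y
  obtain ⟨y3, y4⟩ := abs_le.1 T'.y
  obtain ⟨y5, y6⟩ := abs_le.1 U.2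
  obtain ⟨x1, x2⟩ := abs_le.1 T.x
  obtain ⟨x3, x4⟩ := abs_le.1 U.1
  have hP := D.pc T'.tA T.tB T'.dA T.dB (abs_le.2 ⟨by linarith, by linarith⟩)
    ((c A').im - 1 / 2 + 2 * lam ^ 2) ((c A').im - 1 / 2 + b - 2 * lam ^ 2) (by linarith)
    (by linarith) (by linarith) (by linarith) (by linarith)
  have hQ := D.pc T'.tA T'.tB T'.dA T'.dB (by linarith [T'.x])
    ((c A').im - 1 / 2 + b + 2 * lam ^ 2) ((c A').im + (1 / 2 - 2 * lam ^ 2)) (by linarith)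
    (by linarith) (by linarith) (by linarith) (by linarith)
  obtain ⟨k1, k2⟩ := pure l0 l1 b0 b1 hσ (by ring) (by ring) hP hQ
  have n1 := D.nr T.tB T'.tA T.dB T'.dA
  have n2 := D.nr T'.tB T'.tA T'.dB T'.dA
  have a1 := j1 (c := c) (y := (c A').im - 1 / 2 + 2 * lam ^ 2)
    (y' := (c A).im + (1 / 2 - 2 * lam ^ 2)) n1 (D.nr T.tB T.tA T.dB T.dA)
    (D.nr T'.tA T.tA T'.dA T.dA) (abs_le.2 ⟨by linarith, by linarith⟩)
    (abs_le.2 ⟨by linarith, by linarith⟩)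
  have a2 := j2 (c := c) (y := (c A').im - 1 / 2 + b + 2 * lam ^ 2)
    (y' := (c A').im - 1 / 2 + b - 2 * lam ^ 2) (D.nr T'.tA T'.tB T'.dA T'.dB)
    (D.nr T'.tA T.tB T'.dA T.dB) (D.nr T.tB T'.tB T.dB T'.dB)
    (abs_le.2 ⟨by linarith, by linarith⟩) (abs_le.2 ⟨by linarith, by linarith⟩)
  have hz : |2 * b - 1| ≤ 1 := abs_le.2 ⟨by linarith, by linarith⟩
  have a3 := (mul_bd (abs_pm hσ) a1).2
  have a4 := (mul_bd (abs_pm hσ) a2).2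
  have a5 := (mul_bd hz a1).2
  have a6 := (mul_bd hz a2).2
  have a7 := abs_le.1 (tail l0 l1 b0 b1 n1.1 n2.1)
  have a8 := abs_le.1 (D.vt T T' U hV (β := b) (mul_nonneg (by linarith) (by linarith)))
  rw [slope, slope] at k1 k2
  unfold Phi
  constructor
  · linarith [a7.1, a7.2, a8.1, a8.2]
  · linarith [a7.1, a7.2, a8.1, a8.2]

lemma neg (D : Disc c ω lam O d μ) (T : Two c ω lam b O d A B) (T' : Two c ω lam b O d A' B')
    (U : Up c lam A A') (b0 : b ≤ -lam) (b1 : -(1 / 2) ≤ b) {V σ : ℝ}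
    (hV : AH (rt I c) ω lam A' A ≤ V) (hσ : σ = 1 ∨ σ = -1) :
    σ * slip c ω B B' + (1 + 2 * b) * slip c ω A A' ≤
      2 * (1 + 10 * lam) * (AH c ω lam A B' + AH c ω lam A' B' + V) +
        Phi c ω 0 σ (1 / 2 + b - 2 * lam ^ 2) A B -
        Phi c ω 0 σ (1 / 2 + b - 2 * lam ^ 2) A' B' + 51 * (lam * μ) ∧
    (1 + 2 * b) * slip c ω B B' + σ * slip c ω A A' ≤
      2 * (1 + 10 * lam) * (AH c ω lam A B' + AH c ω lam A' B' + V) +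
        Phi c ω 0 (1 + 2 * b) (1 / 2 + b - 2 * lam ^ 2) A B -
        Phi c ω 0 (1 + 2 * b) (1 / 2 + b - 2 * lam ^ 2) A' B' + 51 * (lam * μ) := by
  obtain ⟨e1, e2, e3⟩ := pw D.l0 D.l1
  have l0 := D.l0
  have l1 := D.l1
  obtain ⟨y1, y2⟩ := abs_le.1 T.y
  obtain ⟨y3, y4⟩ := abs_le.1 T'.y
  obtain ⟨y5, y6⟩ := abs_le.1 U.2
  obtain ⟨x1, x2⟩ := abs_le.1 T'.x
  obtain ⟨x3, x4⟩ := abs_le.1 U.1
  have hP := D.pc T.tA T'.tB T.dA T'.dB (abs_le.2 ⟨by linarith, by linarith⟩)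
    ((c A').im - 1 / 2 + b + 2 * lam ^ 2) ((c A').im - 1 / 2 - 2 * lam ^ 2) (by linarith)
    (by linarith) (by linarith) (by linarith) (by linarith)
  have hQ := D.pc T'.tA T'.tB T'.dA T'.dB (by linarith [T'.x])
    ((c A').im - 1 / 2 + 2 * lam ^ 2) ((c A').im + (1 / 2 + b - 2 * lam ^ 2)) (by linarith)
    (by linarith) (by linarith) (by linarith) (by linarith)
  obtain ⟨k1, k2⟩ := pure (β := -b) (σ := -σ) l0 l1 (by linarith) (by linarith)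
    (by rcases hσ with rfl | rfl <;> simp) (by ring) (by ring) hP hQ
  have n1 := D.nr T'.tB T.tA T'.dB T.dA
  have n2 := D.nr T'.tB T'.tA T'.dB T'.dA
  have a1 := j1 (c := c) (y := (c A').im - 1 / 2 + 2 * lam ^ 2)
    (y' := (c A').im - 1 / 2 - 2 * lam ^ 2) n2 n1
    (D.nr T'.tA T.tA T'.dA T.dA) (abs_le.2 ⟨by linarith, by linarith⟩)
    (abs_le.2 ⟨by linarith, by linarith⟩)
  have a2 := j2 (c := c) (y := (c A').im - 1 / 2 + b + 2 * lam ^ 2)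
    (y' := (c A).im + (1 / 2 + b - 2 * lam ^ 2)) (D.nr T.tA T'.tB T.dA T'.dB)
    (D.nr T.tA T.tB T.dA T.dB) (D.nr T.tB T'.tB T.dB T'.dB)
    (abs_le.2 ⟨by linarith, by linarith⟩) (abs_le.2 ⟨by linarith, by linarith⟩)
  have hz : |1 + 2 * b| ≤ 1 := abs_le.2 ⟨by linarith, by linarith⟩
  have a3 := (mul_bd (abs_pm hσ) a1).2
  have a4 := (mul_bd (abs_pm hσ) a2).2
  have a5 := (mul_bd hz a1).2
  have a6 := (mul_bd hz a2).2
  have a7 := abs_le.1 (tail (β := -b) l0 l1 (by linarith) (by linarith) n1.1 n2.1)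
  have a8 := abs_le.1 (D.vt T T' U hV (β := -b) (mul_nonneg (by linarith) (by linarith)))
  rw [slope, slope] at k1 k2
  unfold Phi
  constructor
  · linarith [a7.1, a7.2, a8.1, a8.2]
  · linarith [a7.1, a7.2, a8.1, a8.2]

/-- the inequality at an inner junction -/
lemma core {s s' : ℝ} (hb : |b| ≤ 1 / 2) (h0 : 0 < lam) (h1 : lam ≤ 1 / 1000)
    (hk : OK lam b s s') : ∃ u v o : ℝ, |u| ≤ 1 ∧ |v| ≤ 1 ∧ |o| ≤ 1 / 2 ∧
      ∀ (A A' B B' : ι) (V : ℝ), Disc c ω lam O d μ → Two c ω lam b O d A B →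
        Two c ω lam b O d A' B' → Up c lam A A' → 0 ≤ V →
        (lam ≤ |b| → AH (rt I c) ω lam A' A ≤ V) →
        s * slip c ω B B' + s' * slip c ω A A' ≤ 2 * (1 + 10 * lam) *
          (AH c ω lam A' B' + AH c ω lam A' B + AH c ω lam A B' + V) +
            (Phi c ω u v o A B - Phi c ω u v o A' B') + 51 * (lam * μ) := by
  obtain ⟨e1, e2, e3⟩ := pw h0 h1
  obtain ⟨b1, b2⟩ := abs_le.1 hb
  have hc : 0 ≤ 2 * (1 + 10 * lam) := by linarith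
  have n : ∀ i j, 0 ≤ 2 * (1 + 10 * lam) * AH c ω lam i j := fun i j =>
    mul_nonneg hc (AH_nonneg _ _ _)
  have e4 := sq_nonneg lam
  rcases hk with ⟨k1, k2, rfl⟩ | ⟨k1, ⟨k2, rfl⟩ | ⟨k2, rfl⟩⟩ | ⟨k1, ⟨k2, rfl⟩ | ⟨k2, rfl⟩⟩
  · refine ⟨0, 1, 1 / 2 - 2 * lam, by simp, by simp, abs_le.2 ⟨by linarith, by linarith⟩,
      fun A A' B B' V D T T' U hV _ => ?_⟩
    linarith [(mul_bd k2 (small D T T' U k1)).2, n A' B, n A B', mul_nonneg hc hV,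
      mul_nonneg h0.le D.m0]
  · refine ⟨b * (1 - b), 1 - 2 * b, 1 / 2 - 2 * lam ^ 2, abs_le.2 ⟨by nlinarith, by nlinarith⟩,
      abs_le.2 ⟨by linarith, by linarith⟩, abs_le.2 ⟨by linarith, by linarith⟩,
      fun A A' B B' V D T T' U _ hV => ?_⟩
    linarith [(pos D T T' U k1 b2 (hV (k1.trans (le_abs_self b))) k2).1, n A B']
  · refine ⟨-(b * (1 - b)), -s', 1 / 2 - 2 * lam ^ 2, abs_le.2 ⟨by nlinarith, by nlinarith⟩,
      by rw [abs_neg]; exact abs_pm k2, abs_le.2 ⟨by linarith, by linarith⟩,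
      fun A A' B B' V D T T' U _ hV => ?_⟩
    linarith [(pos D T T' U k1 b2 (hV (k1.trans (le_abs_self b))) k2).2, n A B']
  · refine ⟨0, s, 1 / 2 + b - 2 * lam ^ 2, by simp, abs_pm k2,
      abs_le.2 ⟨by linarith, by linarith⟩, fun A A' B B' V D T T' U _ hV => ?_⟩
    linarith [(neg D T T' U k1 b1 (hV (by linarith [neg_le_abs b])) k2).1, n A' B]
  · refine ⟨0, 1 + 2 * b, 1 / 2 + b - 2 * lam ^ 2, by simp, abs_le.2 ⟨by linarith, by linarith⟩,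
      abs_le.2 ⟨by linarith, by linarith⟩, fun A A' B B' V D T T' U _ hV => ?_⟩
    linarith [(neg D T T' U k1 b1 (hV (by linarith [neg_le_abs b])) k2).2, n A' B]

end StepP

end Pool.Agent.MP_c59ecb_co.sh
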