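import Pool.Agent.MP_c59ecb_co.sh.Side

-- ======== part 0: formerly Pool.Agent.MP_c59ecb_co.sh.Tube
section MrgPart0

/-! Existence of the tube through a given column. -/

set_option autoImplicit false

namespace Pool.Agent.MP_c59ecb_co.sh

open MeasureTheory Complex Pool.Agent.MP_c59ecb_co.h76

variable {ι : Type} [Fintype ι] [DecidableEq ι] {ω : ι → ℂ}

namespace TubeRow

lemma chain1 {X : Type} (Iv : ℕ → X → Prop) (Rel : X → X → Prop) (n : ℕ) (x0 : X) (h0 : Iv 0 x0)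
    (h : ∀ k < n, ∀ x, Iv k x → ∃ y, Iv (k + 1) y ∧ Rel x y) :
    ∃ f : ℕ → X, f 0 = x0 ∧ (∀ k ≤ n, Iv k (f k)) ∧ ∀ k < n, Rel (f k) (f (k + 1)) := by
  classical
  have h' : ∀ k x, ∃ y, k < n → Iv k x → Iv (k + 1) y ∧ Rel x y := fun k x => by
    by_cases hk : k < n ∧ Iv k x
    · obtain ⟨y, hy⟩ := h k hk.1 x hk.2
      exact ⟨y, fun _ _ => hy⟩
    · exact ⟨x, fun h1 h2 => absurd ⟨h1, h2⟩ hk⟩
  choose nx hnx using h'
  have key : ∀ k ≤ n, Iv k (Nat.rec x0 nx k) := fun k => by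
    induction k with
    | zero => exact fun _ => h0
    | succ k ih => exact fun hk => (hnx k _ hk (ih (Nat.le_of_succ_le hk))).1
  exact ⟨fun k => Nat.rec x0 nx k, rfl, key, fun k hk => (hnx k _ hk (key k hk.le)).2⟩

lemma chain2 {X : Type} (Iv : ℕ → X → Prop) (Rel : X → X → Prop) {T t0 : ℕ} (ht : t0 ≤ T)
    (x0 : X) (h0 : Iv t0 x0)
    (h1 : ∀ t, t0 ≤ t → t < T → ∀ x, Iv t x → ∃ y, Iv (t + 1) y ∧ Rel x y)
    (h2 : ∀ t < t0, ∀ y, Iv (t + 1) y → ∃ x, Iv t x ∧ Rel x y) :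
    ∃ F : ℕ → X, F t0 = x0 ∧ (∀ t ≤ T, Iv t (F t)) ∧ ∀ t < T, Rel (F t) (F (t + 1)) := by
  obtain ⟨f, f0, f1, f2⟩ := chain1 (fun k => Iv (t0 + k)) Rel (T - t0) x0 h0
    fun k hk => h1 (t0 + k) (by omega) (by omega)
  obtain ⟨b, b0, b1, b2⟩ := chain1 (fun k => Iv (t0 - k)) (fun x y => Rel y x) t0 x0 h0
    fun k hk x hx => h2 (t0 - (k + 1)) (by omega) x (by
      rwa [show t0 - (k + 1) + 1 = t0 - k by omega])
  refine ⟨fun t => if t0 ≤ t then f (t - t0) else b (t0 - t), by simp [f0], fun t ht' => ?_,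
    fun t ht' => ?_⟩
  · by_cases h : t0 ≤ t
    · have := f1 (t - t0) (by omega)
      rw [show t0 + (t - t0) = t by omega] at this
      simpa [h] using this
    · have := b1 (t0 - t) (by omega)
      rw [show t0 - (t0 - t) = t by omega] at this
      simpa [h] using this
  · by_cases h : t0 ≤ t
    · have := f2 (t - t0) (by omega)
      simpa [h, show t0 ≤ t + 1 by omega, show t + 1 - t0 = t - t0 + 1 by omega] using this
    · have := b2 (t0 - (t + 1)) (by omega)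
      rw [show t0 - (t + 1) + 1 = t0 - t by omega] at this
      by_cases h' : t0 ≤ t + 1
      · rw [show t0 - (t + 1) = 0 by omega, b0] at this
        simpa [h, h', show t + 1 - t0 = 0 by omega, f0] using this
      · simpa [h, h'] using this

lemma nums {r : ℕ} {lam η τ G : ℝ} (h : TP r lam η τ G) (hτ : 0 ≤ τ) :
    (100 : ℝ) ≤ r ∧ 0 ≤ η ∧ 10 ^ 16 * (r * η) ≤ 1 ∧ 10 ^ 10 * ((r : ℝ) ^ 2 * η) ≤ 1 := by
  have h1 : (100 : ℝ) ≤ r := by exact_mod_cast h.r100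
  have h2 := h.lam0
  have h3 := h.lam1
  have h4 : lam ^ 3 ≤ (1 / 1000) ^ 3 := by gcongr
  have h5 : lam ^ 4 ≤ lam * (1 / 1000) ^ 3 := by
    rw [pow_succ']
    gcongr
  have h6 := h.eta
  have h7 : r * lam ≤ (r : ℝ) ^ 3 * lam := by
    gcongr
    exact le_self_pow₀ (by linarith) (by norm_num)
  have h8 := mul_le_mul_of_nonneg_left (h6.trans h5) (by linarith : (0 : ℝ) ≤ r)
  refine ⟨h1, by linarith [h.tau], by linarith, ?_⟩
  linarith [h.big]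

omit [Fintype ι] [DecidableEq ι] in
lemma norm_le_UW (hω : Nm ω) (c : ι → ℂ) (O i j : ι) :
    ‖c j - c i‖ ≤ |LU c ω O j - LU c ω O i| + |LW c ω O j - LW c ω O i| := by
  rw [← norm_loc (hω.1 O), loc_sub (c O)]
  exact norm_le_abs_re_add_abs_im _

omit [Fintype ι] [DecidableEq ι] in
lemma stepUW (hω : Nm ω) {c : ι → ℂ} {O i j : ι} {v v' γ μ : ℝ} (h : Step c ω i v j v' γ)
    (hv : |v| ≤ 1 / 2) (hv' : |v'| ≤ 1 / 2) (hi : ‖ω i - ω O‖ ≤ μ) (hj : ‖ω j - ω O‖ ≤ μ) :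
    |LU c ω O j - LU c ω O i - 1| ≤ 2 * μ + γ ∧ |LW c ω O j - LW c ω O i| ≤ 1 + (2 * μ + γ) := by
  have h1 := h.norm hω
  have e : loc (c O) (ω O) (c j) - loc (c O) (ω O) (c i) - ⟨1, v - v'⟩ =
      ((ex c ω j v' - ex c ω i v - ω j) + (ω i - ω O) * ⟨1 / 2, v⟩ +
        (ω j - ω O) * ⟨1 / 2, -v'⟩) * (starRingEnd ℂ) (ω O) := by
    have e1 : (⟨1, v - v'⟩ : ℂ) = ⟨1 / 2, v⟩ + ⟨1 / 2, -v'⟩ := by
      apply Complex.ext <;> simp <;> ring
    have e2 : (⟨1 / 2, v'⟩ : ℂ) = 1 - ⟨1 / 2, -v'⟩ := by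
      apply Complex.ext <;> simp
      norm_num
    unfold loc ex
    rw [e1, e2]
    linear_combination ((⟨1 / 2, v⟩ : ℂ) + ⟨1 / 2, -v'⟩) * mul_conj_unit (hω.1 O)
  have n1 : ∀ u : ℝ, |u| ≤ 1 / 2 → ‖(⟨1 / 2, u⟩ : ℂ)‖ ≤ 1 := fun u hu =>
    (norm_le_abs_re_add_abs_im _).trans (by
      simp only [abs_of_pos (by norm_num : (0 : ℝ) < 1 / 2)]
      linarith)
  have h2 : ‖loc (c O) (ω O) (c j) - loc (c O) (ω O) (c i) - ⟨1, v - v'⟩‖ ≤ 2 * μ + γ := by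
    rw [e, norm_mul, Complex.norm_conj, hω.1 O, mul_one]
    refine norm_add₃_le.trans ?_
    rw [norm_mul, norm_mul]
    have k1 := mul_le_mul hi (n1 v hv) (norm_nonneg _) ((norm_nonneg _).trans hi)
    have k2 := mul_le_mul hj (n1 (-v') (by rwa [abs_neg])) (norm_nonneg _)
      ((norm_nonneg _).trans hi)
    linarith
  have h3 := (abs_re_le_norm _).trans h2
  have h4 := abs_le.mp ((abs_im_le_norm _).trans h2)
  simp only [sub_re, sub_im] at h3 h4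
  refine ⟨h3, abs_le.mpr ?_⟩
  unfold LW
  constructor <;> linarith [h4.1, h4.2, (abs_le.mp hv).1, (abs_le.mp hv).2, (abs_le.mp hv').1,
    (abs_le.mp hv').2]

lemma len (L : L1 ω) {c : ι → ℂ} {r m : ℕ} {η s τ v v' : ℝ} {A : ℕ → ι} (hr : (100 : ℝ) ≤ r)
    (hη0 : 0 ≤ η) (hη : 10 ^ 16 * (r * η) ≤ 1) (hτ : 2 * τ ≤ η) (hs : s ≤ η)
    (hA : Col c ω η s m A)
    (h0 : ‖ω (A 0) - 1‖ ≤ τ) (h1 : ‖ω (A m) - 1‖ ≤ τ) (hv : |v| ≤ 1 / 2) (hv' : |v'| ≤ 1 / 2)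
    (hD : |(ex c ω (A m) v' - ex c ω (A 0) v).im - r| ≤ 1 / 3) :
    (r ≤ m + 1 ∧ m ≤ r + 1) ∧ ‖ex c ω (A m) v' - ex c ω (A 0) v‖ ≤ 10 * r - 4 := by
  have hη1 : 10 ^ 18 * η ≤ 1 := by nlinarith
  obtain ⟨g1, g2⟩ := L.col.geo c η s m A 0 m hA (by linarith) (Nat.zero_le _) le_rfl
  obtain ⟨a1, a2, -⟩ := L.w.cen c (A 0) v τ h0 hv
  obtain ⟨b1, b2, -⟩ := L.w.cen c (A m) v' τ h1 hv'
  simp only [Nat.cast_zero, sub_zero, sub_re, sub_im] at g1 g2 a1 a2 b1 b2 hD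
  rw [abs_le] at g1 g2 a1 a2 b1 b2 hD hv hv'
  have m0 : (0 : ℝ) ≤ m := Nat.cast_nonneg _
  have m1 : (m : ℝ) ≤ 2 * r := by nlinarith
  have m2 : m * η ≤ 2 * (r * η) := by nlinarith
  have m3 : m * (s + 2 * η) ≤ 3 * (m * η) := by nlinarith
  refine ⟨⟨?_, ?_⟩, (norm_le_abs_re_add_abs_im _).trans ?_⟩
  · have : (r : ℝ) < m + 2 := by linarith
    have : r < m + 2 := by exact_mod_cast this
    omega
  · have : (m : ℝ) < r + 2 := by linarith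
    have : m < r + 2 := by exact_mod_cast this
    omega
  · have k1 : |(ex c ω (A m) v' - ex c ω (A 0) v).re| ≤ 1 := by
      rw [sub_re, abs_le]
      constructor <;> linarith
    have k2 : |(ex c ω (A m) v' - ex c ω (A 0) v).im| ≤ r + 1 := by
      rw [sub_im, abs_le]
      constructor <;> linarith
    linarith

lemma nearCol (L : L1 ω) {c : ι → ℂ} {r m : ℕ} {η s : ℝ} {A : ℕ → ι} (hr : (100 : ℝ) ≤ r)
    (hη0 : 0 ≤ η) (hη : 10 ^ 16 * (r * η) ≤ 1) (hs : s ≤ η) (hA : Col c ω η s m A)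
    (hm : m ≤ r + 1) {j : ℕ} (hj : j ≤ m) : ‖c (A j) - c (A 0)‖ ≤ 10 * r := by
  have hη1 : 10 ^ 18 * η ≤ 1 := by nlinarith
  obtain ⟨g1, g2⟩ := L.col.geo c η s m A 0 j hA (by linarith) (Nat.zero_le _) hj
  simp only [Nat.cast_zero, sub_zero] at g1 g2
  have m0 : (0 : ℝ) ≤ j := Nat.cast_nonneg _
  have m1 : (j : ℝ) ≤ r + 1 := by exact_mod_cast hj.trans hm
  have m2 : j * η ≤ j := by nlinarith
  have m3 : j * (s + 2 * η) ≤ 3 * (j * η) := by nlinarith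
  refine (norm_le_abs_re_add_abs_im _).trans ?_
  have k2 : |(c (A j) - c (A 0)).im| ≤ 2 * j := by
    rw [abs_le] at g2 ⊢
    rw [sub_im]
    constructor <;> linarith
  rw [sub_re]
  linarith

lemma next (hω : Nm ω) (L : L1 ω) {c : ι → ℂ} {r m : ℕ} {η s τ μ δ σ : ℝ} {A : ℕ → ι} {Q0 Q1 : ι}
    (hr : (100 : ℝ) ≤ r) (hη : 10 ^ 16 * (r * η) ≤ 1) (hτ : 2 * τ ≤ η) (hs0 : 0 ≤ s) (hs : s ≤ η)
    (hμ0 : 0 ≤ μ) (hμ : 100 * μ ≤ η) (hδ0 : 0 ≤ δ) (hδ : δ ≤ η) (hσ : σ = 1 ∨ σ = -1)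
    (hA : Col c ω η s m A) (hm : r ≤ m + 1 ∧ m ≤ r + 1) (hO : ‖ω (A 0) - 1‖ ≤ τ)
    (hc : Calm c ω (A 0) (10 * r) μ)
    (h0 : |σ * LU c ω (A 0) Q0 - σ * LU c ω (A 0) (A 0) - 1| ≤ δ ∧
      |LW c ω (A 0) Q0 - LW c ω (A 0) (A 0)| ≤ 1 + δ)
    (h1 : |σ * LU c ω (A 0) Q1 - σ * LU c ω (A 0) (A m) - 1| ≤ δ ∧
      |LW c ω (A 0) Q1 - LW c ω (A 0) (A m)| ≤ 1 + δ) :
    ∃ (m' : ℕ) (B : ℕ → ι) (e : ℤ) (b : ℝ), B 0 = Q0 ∧ B m' = Q1 ∧ |e| ≤ 1 ∧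
      |(m' : ℤ) + e - m| ≤ 1 ∧ |b| ≤ 1 / 2 ∧ Col c ω η (s + 27 * μ + 2 * δ) m' B ∧
      ∀ i j : ℕ, i ≤ m' → j ≤ m → (j : ℤ) = i + e →
        |σ * ((c (B i)).re - (c (A j)).re) - 1| ≤ 100 * r * η ∧
          |(c (B i)).im - (c (A j)).im - b| ≤ 100 * r * η := by
  have hη0 : 0 ≤ η := hs0.trans hs
  have hη1 : 10 ^ 18 * η ≤ 1 := by nlinarith
  have hτ0 : 0 ≤ τ := (norm_nonneg _).trans hO
  have hσ' : ∀ x y : ℝ, |σ * x - σ * y| = |x - y| := fun x y => by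
    rcases hσ with rfl | rfl
    · simp
    · rw [abs_sub_comm]
      congr 1
      ring
  have hm1 : (m : ℝ) ≤ r + 1 := by exact_mod_cast hm.2
  have hm2 : 10 ≤ m := by
    have : 100 ≤ r := by exact_mod_cast hr
    omega
  have hre := (L.tilt.one (ω (A 0)) (hω.1 _) (by linarith)).2.2.2.2.2.2
  have hre1 : (ω (A 0)).re ≤ 1 := (re_le_norm _).trans (hω.1 _).le
  have hre0 : 0 < (ω (A 0)).re := by linarith
  have hU0 : LU c ω (A 0) (A 0) = 0 := by simp [LU, loc]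
  have hW0 : LW c ω (A 0) (A 0) = 0 := by simp [LW, loc]
  have lm0 := L.calm.lm c (A 0) (20 * r / 3) (10 * r) μ hc (by linarith) (by linarith)
  have lm : Lm (fun q => σ * LU c ω (A 0) q) (LW c ω (A 0)) μ (20 * r / 3) := by
    rcases hσ with rfl | rfl
    · simpa using lm0
    · simpa using L.loc.negU _ _ _ _ _ lm0
  have aA : ∀ j ≤ m, ‖ω (A j) - ω (A 0)‖ ≤ μ := fun j hj =>
    hc.ang _ (nearCol L hr hη0 hη hs hA hm.2 hj)
  have fA : ∀ j < m, |slip c ω (A j) (A (j + 1)) -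
      (LU c ω (A 0) (A (j + 1)) - LU c ω (A 0) (A j)) / (ω (A 0)).re| ≤ 3 * μ := fun j hj => by
    have := abs_le.mp (hA.2 j hj).2
    exact L.col.frame c _ _ _ μ (by linarith) (by linarith [hA.1 j hj.le])
      (by linarith [hA.1 (j + 1) hj]) (aA j hj.le) (aA (j + 1) hj)
      (abs_le.mpr ⟨by linarith, by linarith⟩)
  have uA : ∀ j < m, |LU c ω (A 0) (A (j + 1)) - LU c ω (A 0) (A j)| ≤ s + 3 * μ := fun j hj => by
    have k1 := abs_sub_abs_le_abs_sub ((LU c ω (A 0) (A (j + 1)) - LU c ω (A 0) (A j)) /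
      (ω (A 0)).re) (slip c ω (A j) (A (j + 1)))
    rw [abs_sub_comm _ (slip _ _ _ _), abs_div, abs_of_pos hre0] at k1
    have k2 := le_div_self (abs_nonneg (LU c ω (A 0) (A (j + 1)) - LU c ω (A 0) (A j))) hre0 hre1
    linarith [fA j hj, (hA.2 j hj).1]
  have wA : ∀ j < m, |LW c ω (A 0) (A (j + 1)) - LW c ω (A 0) (A j) - 1| ≤ 1 / 10 := fun j hj => by
    obtain ⟨g1, -⟩ := L.col.geo c η s m A j (j + 1) hA (by linarith) (by omega) hj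
    have g2 := (hA.2 j hj).2
    have g3 := (L.col.coord c (A 0) (A j) (A (j + 1)) τ hO).2
    have g4 : ‖c (A (j + 1)) - c (A j)‖ ≤ 3 := by
      refine (norm_le_abs_re_add_abs_im _).trans ?_
      have : |(c (A (j + 1))).im - (c (A j)).im| ≤ 2 := by
        rw [abs_le] at g2 ⊢
        constructor <;> linarith
      push_cast at g1
      rw [sub_re, sub_im]
      linarith
    have g5 := mul_le_mul_of_nonneg_left g4 hτ0
    rw [abs_le] at g2 g3 ⊢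
    constructor <;> linarith
  obtain ⟨m', B, e, b, b0, b1, e1, e2, b2, wB, mB, uB⟩ := L.colstep ι _ _ μ δ (s + 3 * μ) _ m A
    Q0 Q1 lm hμ0 hδ0 (by linarith) hm2 (by nlinarith) (by linarith) (by linarith)
    (by simp [hU0]) hW0 (fun j hj => ⟨by rw [hσ']; exact uA j hj, wA j hj⟩) h0.1 h0.2 h1.1 h1.2
  have hm' : (m' : ℝ) ≤ r + 3 := by
    have : m' ≤ r + 3 := by
      rw [abs_le] at e1 e2
      omega
    exact_mod_cast this
  have uB' : ∀ i < m', |LU c ω (A 0) (B (i + 1)) - LU c ω (A 0) (B i)| ≤ 1 / 10 := fun i hi => by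
    rcases uB i hi with h | ⟨j, hj, h⟩
    · rw [hσ'] at h
      linarith
    · rw [← mul_sub, ← mul_sub, hσ'] at h
      have := uA j hj
      rw [abs_le] at h this ⊢
      constructor <;> linarith
  have nB1 : ∀ i < m', ‖c (B (i + 1)) - c (B i)‖ ≤ 6 / 5 := fun i hi => by
    have k1 := norm_le_UW hω c (A 0) (B i) (B (i + 1))
    have k2 : |LW c ω (A 0) (B (i + 1)) - LW c ω (A 0) (B i)| ≤ 11 / 10 := by
      have := abs_le.mp (wB i hi)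
      rw [abs_le]
      constructor <;> linarith
    linarith [uB' i hi]
  have nB : ∀ i ≤ m', ‖c (B i) - c (A 0)‖ ≤ 4 + 6 / 5 * i := fun i => by
    induction i with
    | zero =>
      intro _
      have k1 := norm_le_UW hω c (A 0) (A 0) Q0
      have k2 : |LU c ω (A 0) Q0 - LU c ω (A 0) (A 0)| ≤ 2 := by
        have := abs_le.mp h0.1
        rw [← hσ', abs_le]
        constructor <;> linarith
      rw [b0]
      push_cast
      linarith [h0.2]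
    | succ i ih =>
      intro hi
      have k1 := norm_sub_le_norm_sub_add_norm_sub (c (B (i + 1))) (c (B i)) (c (A 0))
      push_cast
      linarith [ih (by omega), nB1 i hi]
  have aB : ∀ i ≤ m', ‖ω (B i) - ω (A 0)‖ ≤ μ := fun i hi => hc.ang _ (by
    have : (i : ℝ) ≤ m' := by exact_mod_cast hi
    linarith [nB i hi])
  have tB : ∀ i ≤ m', ‖ω (B i) - 1‖ ≤ η := fun i hi => by
    linarith [norm_sub_le_norm_sub_add_norm_sub (ω (B i)) (ω (A 0)) 1, aB i hi]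
  have yB : ∀ i < m', |(c (B (i + 1))).im - (c (B i)).im - 1| ≤ η := fun i hi => by
    have g3 := (L.col.coord c (A 0) (B i) (B (i + 1)) τ hO).2
    have g4 := mul_le_mul_of_nonneg_left (nB1 i hi) hτ0
    have g5 := wB i hi
    rw [abs_le] at g3 g5 ⊢
    constructor <;> linarith
  have hdiv : ∀ x y : ℝ, |x| ≤ y → |x / (ω (A 0)).re| ≤ 101 / 100 * y := fun x y h => by
    rw [abs_div, abs_of_pos hre0, div_le_iff₀ hre0]
    nlinarith [abs_nonneg x]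
  refine ⟨m', B, e, b, b0, b1, e1, e2, b2, ⟨tB, fun i hi => ⟨?_, yB i hi⟩⟩, fun i j hi hj hij => ?_⟩
  · have k0 := abs_le.mp (yB i hi)
    have k1 := L.col.frame c (A 0) (B i) (B (i + 1)) μ (by linarith) (by linarith [tB i hi.le])
      (by linarith [tB (i + 1) hi]) (aB i hi.le) (aB (i + 1) hi)
      (abs_le.mpr ⟨by linarith, by linarith⟩)
    rcases uB i hi with h | ⟨j, hj, h⟩
    · rw [hσ'] at h
      have k2 := hdiv _ _ h
      rw [abs_le] at k1 k2 ⊢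
      constructor <;> linarith
    · rw [← mul_sub, ← mul_sub, hσ'] at h
      have k2 := hdiv _ _ h
      have k3 := fA j hj
      have k4 := (hA.2 j hj).1
      rw [sub_div] at k2
      rw [abs_le] at k1 k2 k3 k4 ⊢
      constructor <;> linarith
  · obtain ⟨k1, k2⟩ := mB i j hi hj hij
    obtain ⟨k3, k4⟩ := L.col.coord c (A 0) (A j) (B i) τ hO
    have k5 : 20 * (m + 2) * μ ≤ r * η := by nlinarith
    have k6 : 100 * η ≤ r * η := by nlinarith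
    have k7 : ‖c (B i) - c (A j)‖ ≤ 2 := by
      have n1 := norm_le_UW hω c (A 0) (A j) (B i)
      have n2 : |LU c ω (A 0) (B i) - LU c ω (A 0) (A j)| ≤ 11 / 10 := by
        have := abs_le.mp k1
        rw [← hσ', abs_le]
        constructor <;> linarith
      have n3 : |LW c ω (A 0) (B i) - LW c ω (A 0) (A j)| ≤ 6 / 10 := by
        rw [abs_le] at k2 b2 ⊢
        constructor <;> linarith
      linarith
    have k8 := mul_le_mul_of_nonneg_left k7 hτ0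
    rw [← hσ', mul_sub] at k3
    rw [abs_le] at k1 k2 k3 k4
    rw [abs_le, abs_le]
    refine ⟨⟨?_, ?_⟩, ?_, ?_⟩ <;> linarith

end TubeRow

open TubeRow in
theorem tubeS (hω : Nm ω) (L : L1 ω) : TubeS ω := by
  intro c r lam η τ w w' G G' T t0 m0 ρ ρ' A0 tp hρ hρ' ht0 hD hA0 h0 h1
  obtain ⟨hr, hη0, hη, hη2⟩ := nums tp hρ.τ0
  have hη1 : 10 ^ 18 * η ≤ 1 := by nlinarith
  have hτ := tp.tau
  have hG := hρ.G0
  have hG' := hρ'.G0
  have htot := tp.tot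
  have hr2 : (10 : ℝ) ^ 4 ≤ (r : ℝ) ^ 2 := by nlinarith
  have hGG : 10 ^ 8 * (G + G') ≤ η := by nlinarith
  have hRG : ((10 : ℝ) * r) ^ 2 * G ≤ η / 100 := by nlinarith [mul_nonneg (sq_nonneg (r : ℝ)) hG']
  have hlen : ∀ t ≤ T, ∀ (m : ℕ) (A : ℕ → ι) (s : ℝ), s ≤ η → Col c ω η s m A → A 0 = ρ.J t →
      A m = ρ'.J t → |(ρ'.P c ω t - ρ.P c ω t).im - r| ≤ 1 / 3 →
      (r ≤ m + 1 ∧ m ≤ r + 1) ∧ ‖ρ'.P c ω t - ρ.P c ω t‖ ≤ 10 * r - 4 :=
    fun t ht m A s hs hA e0 e1 hD => by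
      have := len L (v := ρ.V t) (v' := ρ'.V t) hr hη0 hη hτ hs hA (e0 ▸ hρ.tilt t ht)
        (e1 ▸ hρ'.tilt t ht) (hρ.v t ht) (hρ'.v t ht) (by rw [e0, e1]; exact hD)
      rwa [e0, e1] at this
  have hD0 := (hlen t0 ht0 m0 A0 _ (by linarith) hA0 h0 h1 (by linarith)).2
  have hDt : ∀ t ≤ T, |(ρ'.P c ω t - ρ.P c ω t).im - r| ≤ 1 / 3 ∧
      ‖ρ'.P c ω t - ρ.P c ω t - (ρ'.P c ω t0 - ρ.P c ω t0)‖ ≤ (10 * r) ^ 2 * G + G + G' ∧
      |(ρ'.P c ω t - ρ.P c ω t).re - (ρ'.P c ω t0 - ρ.P c ω t0).re| ≤ 2 * G + G' := fun t ht => by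
    obtain ⟨k1, k2⟩ := L.w.pair c _ _ w w' τ G G' T T ρ ρ' t0 t0 t t hρ hρ' (by linarith)
      (by nlinarith [sq_nonneg (r : ℝ)]) (by linarith) ht0 ht0 ht ht rfl hD0
    refine ⟨?_, k1, k2⟩
    have k3 := (abs_im_le_norm _).trans k1
    rw [sub_im] at k3
    rw [abs_le] at k3 hD ⊢
    constructor <;> linarith
  obtain ⟨S, hS⟩ : ∃ S : ℕ → ℝ, ∀ t, S t = ∑ k ∈ Finset.Ico t0 t, (ρ.g k + ρ'.g k) +
    ∑ k ∈ Finset.Ioc t t0, (ρ.g k + ρ'.g k) := ⟨_, fun _ => rfl⟩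
  have hgg : ∀ k, 0 ≤ ρ.g k + ρ'.g k := fun k => add_nonneg (hρ.g0 k) (hρ'.g0 k)
  have hS0 : ∀ t, 0 ≤ S t := fun t => hS t ▸ add_nonneg (Finset.sum_nonneg fun k _ => hgg k)
    (Finset.sum_nonneg fun k _ => hgg k)
  have hS1 : ∀ t ≤ T, S t ≤ G + G' := fun t ht => by
    rw [hS]
    rcases le_total t0 t with h | h
    · rw [Finset.Ioc_eq_empty (by omega), Finset.sum_empty, add_zero, Finset.sum_add_distrib]
      exact add_le_add (hρ.sub fun k hk => by simp at hk; omega)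
        (hρ'.sub fun k hk => by simp at hk; omega)
    · rw [Finset.Ico_eq_empty (by omega), Finset.sum_empty, zero_add, Finset.sum_add_distrib]
      exact add_le_add (hρ.sub fun k hk => by simp at hk; omega)
        (hρ'.sub fun k hk => by simp at hk; omega)
  have hs1 : ∀ t ≤ T, η / 2 + 4000 * r ^ 2 * S t ≤ η := fun t ht => by
    have := mul_le_mul_of_nonneg_left (hS1 t ht) (sq_nonneg (r : ℝ))
    linarith
  have hs0 : ∀ t, 0 ≤ η / 2 + 4000 * r ^ 2 * S t := fun t => by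
    have := hS0 t
    positivity
  have gen : ∀ t ≤ T, ∀ (m : ℕ) (A : ℕ → ι) (σ : ℝ) (Q0 Q1 : ι), (σ = 1 ∨ σ = -1) →
      Col c ω η (η / 2 + 4000 * r ^ 2 * S t) m A → A 0 = ρ.J t → A m = ρ'.J t →
      (∀ μ, 0 ≤ μ → ‖ω (ρ'.J t) - ω (ρ.J t)‖ ≤ μ →
        (|σ * LU c ω (ρ.J t) Q0 - σ * LU c ω (ρ.J t) (ρ.J t) - 1| ≤ 2 * μ + 3 * ρ.g t ∧
          |LW c ω (ρ.J t) Q0 - LW c ω (ρ.J t) (ρ.J t)| ≤ 1 + (2 * μ + 3 * ρ.g t)) ∧
        |σ * LU c ω (ρ.J t) Q1 - σ * LU c ω (ρ.J t) (ρ'.J t) - 1| ≤ 2 * μ + 3 * ρ'.g t ∧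
          |LW c ω (ρ.J t) Q1 - LW c ω (ρ.J t) (ρ'.J t)| ≤ 1 + (2 * μ + 3 * ρ'.g t)) →
      ∃ (m' : ℕ) (B : ℕ → ι) (e : ℤ) (b : ℝ), B 0 = Q0 ∧ B m' = Q1 ∧ |e| ≤ 1 ∧
        |(m' : ℤ) + e - m| ≤ 1 ∧ |b| ≤ 1 / 2 ∧
        Col c ω η (η / 2 + 4000 * r ^ 2 * (S t + (ρ.g t + ρ'.g t))) m' B ∧
        ∀ i j : ℕ, i ≤ m' → j ≤ m → (j : ℤ) = i + e →
          |σ * ((c (B i)).re - (c (A j)).re) - 1| ≤ 100 * r * η ∧
            |(c (B i)).im - (c (A j)).im - b| ≤ 100 * r * η := by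
    intro t ht m A σ Q0 Q1 hσ hA e0 e1 hQ
    have k1 := (hlen t ht m A _ (hs1 t ht) hA e0 e1 (hDt t ht).1).1
    have k2 := hρ.calm ht
    have k3 := hρ.le ht
    have k4 := hρ'.le ht
    have k5 := hρ.g0 t
    have k6 := hρ'.g0 t
    have k7 : ((10 : ℝ) * r) ^ 2 * ρ.g t ≤ (10 * r) ^ 2 * G := by gcongr
    have k8 : 0 ≤ ((10 : ℝ) * r) ^ 2 * ρ.g t := by positivity
    have k9 := nearCol L hr hη0 hη (hs1 t ht) hA k1.2 le_rfl
    rw [e0, e1] at k9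
    obtain ⟨⟨q1, q2⟩, q3, q4⟩ := hQ _ k8 (k2.ang _ k9)
    obtain ⟨m', B, e, b, b0, b1, b2, b3, b4, b5, b6⟩ := next hω L (Q0 := Q0) (Q1 := Q1)
      (δ := 2 * ((10 * r) ^ 2 * ρ.g t) + 3 * (ρ.g t + ρ'.g t)) hr hη hτ (hs0 t) (hs1 t ht) k8
      (by linarith) (by positivity) (by linarith) hσ hA k1 (e0 ▸ hρ.tilt t ht) (e0 ▸ k2)
      (by rw [e0]; exact ⟨by linarith, by linarith⟩)
      (by rw [e0, e1]; exact ⟨by linarith, by linarith⟩)
    refine ⟨m', B, e, b, b0, b1, b2, b3, b4, b5.mono le_rfl ?_, b6⟩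
    nlinarith [mul_le_mul_of_nonneg_right hr2 k5, mul_le_mul_of_nonneg_right hr2 k6]
  obtain ⟨F, F0, F1, F2⟩ := chain2 (X := ℕ × (ℕ → ι))
    (fun t x => x.2 0 = ρ.J t ∧ x.2 x.1 = ρ'.J t ∧ Col c ω η (η / 2 + 4000 * r ^ 2 * S t) x.1 x.2)
    (fun x y => Adj c (100 * r * η) x.1 x.2 y.1 y.2) ht0 (m0, A0)
    ⟨h0, h1, by simpa [hS] using hA0⟩
    (fun t h2 h3 x hx => by
      obtain ⟨m', B, e, b, b0, b1, b2, b3, b4, b5, b6⟩ := gen t h3.le x.1 x.2 1 (ρ.J (t + 1))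
        (ρ'.J (t + 1)) (Or.inl rfl) hx.2.2 hx.1 hx.2.1 fun μ hμ ha => by
          have s1 := hρ.step' h3
          have s2 := hρ'.step' h3
          have k1 := stepUW hω (O := ρ.J t) (μ := μ + ρ.g t) s1 (hρ.v t h3.le) (hρ.v _ h3)
            (by simpa using add_nonneg hμ (hρ.g0 t)) (by linarith [s1.1])
          have k2 := stepUW hω (O := ρ.J t) (μ := μ + ρ'.g t) s2 (hρ'.v t h3.le) (hρ'.v _ h3)
            (by linarith [hρ'.g0 t]) (by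
              linarith [s2.1, norm_sub_le_norm_sub_add_norm_sub (ω (ρ'.J (t + 1))) (ω (ρ'.J t))
                (ω (ρ.J t))])
          simp only [one_mul]
          exact ⟨⟨by linarith [k1.1], by linarith [k1.2]⟩, by linarith [k2.1], by linarith [k2.2]⟩
      have e1 : S (t + 1) = S t + (ρ.g t + ρ'.g t) := by
        rw [hS, hS, Finset.sum_Ico_succ_top h2, Finset.Ioc_eq_empty (by omega),
          Finset.Ioc_eq_empty (by omega)]
        ring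
      exact ⟨(m', B), ⟨b0, b1, e1 ▸ b5⟩, e, b, b2, b3, b4, by simpa only [one_mul] using b6⟩)
    (fun t h2 y hy => by
      have h3 : t < T := by omega
      obtain ⟨m', B, e, b, b0, b1, b2, b3, b4, b5, b6⟩ := gen (t + 1) h3 y.1 y.2 (-1) (ρ.J t)
        (ρ'.J t) (Or.inr rfl) hy.2.2 hy.1 hy.2.1 fun μ hμ ha => by
          have s1 := (hρ.step t h3).mono (min_le_right _ _)
          have s2 := (hρ'.step t h3).mono (min_le_right _ _)
          have k1 := stepUW hω (O := ρ.J (t + 1)) (μ := μ + ρ.g (t + 1)) s1 (hρ.v t h3.le)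
            (hρ.v _ h3) (by rw [norm_sub_rev]; linarith [s1.1])
            (by simpa using add_nonneg hμ (hρ.g0 (t + 1)))
          have k2 := stepUW hω (O := ρ.J (t + 1)) (μ := μ + ρ'.g (t + 1)) s2 (hρ'.v t h3.le)
            (hρ'.v _ h3) (by
              linarith [s2.1, norm_sub_rev (ω (ρ'.J (t + 1))) (ω (ρ'.J t)),
                norm_sub_le_norm_sub_add_norm_sub (ω (ρ'.J t)) (ω (ρ'.J (t + 1)))
                  (ω (ρ.J (t + 1)))]) (by linarith [hρ'.g0 (t + 1)])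
          have e : ∀ x y : ℝ, -1 * x - -1 * y - 1 = y - x - 1 := fun x y => by ring
          rw [e, e, abs_sub_comm (LW _ _ _ (ρ.J t)), abs_sub_comm (LW _ _ _ (ρ'.J t))]
          exact ⟨⟨by linarith [k1.1], by linarith [k1.2]⟩, by linarith [k2.1], by linarith [k2.2]⟩
      have e1 : S t = S (t + 1) + (ρ.g (t + 1) + ρ'.g (t + 1)) := by
        rw [hS, hS, Finset.Ico_eq_empty (by omega), Finset.Ico_eq_empty (by omega),
          ← Finset.insert_Ioc_succ_left_eq_Ioc h2, Finset.sum_insert (by simp)]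
        simp only [Order.succ_eq_add_one]
        ring
      refine ⟨(m', B), ⟨b0, b1, e1 ▸ b5⟩, -e, -b, by rwa [abs_neg], ?_, by rwa [abs_neg],
        fun i j hi hj hij => ?_⟩
      · rw [abs_le] at b3 ⊢
        constructor <;> simp only <;> omega
      · obtain ⟨k1, k2⟩ := b6 j i hj hi (by omega)
        rw [abs_le] at k1 k2
        rw [abs_le, abs_le]
        refine ⟨⟨?_, ?_⟩, ?_, ?_⟩ <;> simp only <;> linarith)
  have tube : Tube c ω r η T ρ ρ' (fun t => (F t).1) fun t => (F t).2 :=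
    ⟨fun t ht => (F1 t ht).1, fun t ht => (F1 t ht).2.1,
      fun t ht => (hlen t ht _ _ _ (hs1 t ht) (F1 t ht).2.2 (F1 t ht).1 (F1 t ht).2.1
        (hDt t ht).1).1, fun t ht => (F1 t ht).2.2.mono le_rfl (hs1 t ht), F2⟩
  refine ⟨_, _, tube, by simp [F0], by simp [F0], hDt, fun T' hT' i hi => ?_⟩
  simp only [Inn, Mid, Finset.mem_biUnion, Finset.mem_range, Finset.mem_image,
    Finset.mem_Ioo] at hi
  obtain ⟨t, ht, j, ⟨j1, j2⟩, rfl⟩ := hi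
  have ht' : t ≤ T := by omega
  obtain ⟨-, k1, k2, k3⟩ := L.col.inn c r lam η τ (G + G') T ρ ρ' _ _ t j tp tube ht' (hρ.v t ht')
    (hρ'.v t ht') j2.le
  refine ⟨t, by omega, k1, k2 j1, ?_⟩
  have k4 := (abs_le.mp (hDt t ht').1).2
  have k5 := k3 j2
  simp only [sub_im] at k4 k5 ⊢
  linarith

end Pool.Agent.MP_c59ecb_co.sh

end MrgPart0

-- ======== part 1: formerly Pool.Agent.MP_c59ecb_co.sh.TransTube
section MrgPart1

/-! The tube between two transversals. -/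

set_option autoImplicit false

namespace Pool.Agent.MP_c59ecb_co.sh

open MeasureTheory Complex Pool.Agent.MP_c59ecb_co.h76

namespace TransTube

variable (P : Pm)

lemma n1 : P.th1 ≤ 1 / 1000 ∧ P.t1 ≤ 1 / 1000 ∧ P.eta ≤ 1 / 1000 ∧ P.e ≤ 1 ∧ P.ε ≤ 1 ∧
    (1000 : ℝ) ≤ P.n ∧ (1000 : ℝ) ≤ P.r := by
  refine ⟨?_, ?_, ?_, ?_, ?_, ?_, ?_⟩
  · linarith [P.mn_small (a := 3) (j := 10) (by norm_num) (by norm_num)]
  · linarith [P.mn_small (a := 9) (j := 5) (by norm_num) (by norm_num)]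
  · linarith [P.mn_small (a := -40) (j := 4) (by norm_num) (by norm_num)]
  · linarith [P.mn_small (a := -1) (j := 0) (by norm_num) (by norm_num), P.mn_pos (-1) 0]
  · linarith [P.eps_small, P.ε0]
  · linarith [P.r_le_n, P.r_big]
  · linarith [P.r_big]

lemma n2 : P.vs ≤ P.vt ∧ 2 * P.vs ≤ P.dl / 4 ∧ 5 * P.th1 ≤ P.eta ∧ P.t1 ≤ P.t2 ∧ P.vt < P.w2 ∧
    10 * P.lam ≤ P.e := by
  refine ⟨P.mn_mono (by norm_num) (by norm_num), ?_, ?_, P.mn_mono (by norm_num) (by norm_num),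
    ?_, ?_⟩
  · linarith [P.mn_le (a := 0) (j := 16) (b := -6) (k := 10) (by norm_num) (by norm_num),
      P.mn_pos 0 16]
  · linarith [P.mn_le (a := 3) (j := 10) (b := -40) (k := 4) (by norm_num) (by norm_num),
      P.mn_pos 3 10]
  · linarith [P.mn_le (a := 0) (j := 11) (b := -78) (k := 5) (by norm_num) (by norm_num),
      P.mn_pos 0 11]
  · linarith [P.mn_le (a := 0) (j := 1) (b := -1) (k := 0) (by norm_num) (by norm_num),
      P.mn_pos 0 1]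

lemma n3 : (2 * P.La1 + 5) * P.vs ≤ P.eta / 2 ∧ (2 * P.La1 + 5) * P.vs ≤ P.t1 / 2 := by
  have h1 : P.mn 67 (-10) * P.mn 0 16 = P.mn 67 6 := P.mn_mul' rfl rfl
  have h2 := P.mn_le (a := 67) (j := 6) (b := 9) (k := 5) (by norm_num) (by norm_num)
  have h3 := P.mn_le (a := 0) (j := 16) (b := 9) (k := 5) (by norm_num) (by norm_num)
  have h4 := P.mn_le (a := 9) (j := 5) (b := -40) (k := 4) (by norm_num) (by norm_num)
  constructor <;> linarith [P.mn_pos 67 6, P.mn_pos 0 16, P.mn_pos 9 5]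

lemma n4 : P.r * P.eta ≤ 1 / 100 ∧ 2 * ((P.r : ℝ) + 2) * P.th1 ≤ P.t1 / 2 ∧
    2 * ((P.r : ℝ) + 3) * (P.R ^ 2 * P.vt) ≤ P.t1 := by
  rw [P.R_sq, P.r_eq]
  have h1 : P.mn 30 0 * P.mn (-40) 4 = P.mn (-10) 4 := P.mn_mul' rfl rfl
  have h2 : P.mn 30 0 * P.mn 3 10 = P.mn 33 10 := P.mn_mul' rfl rfl
  have h3 : P.mn 60 0 * P.mn 0 11 = P.mn 60 11 := P.mn_mul' rfl rfl
  have h4 : P.mn 30 0 * P.mn 60 11 = P.mn 90 11 := P.mn_mul' rfl rfl
  refine ⟨?_, ?_, ?_⟩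
  · linarith [P.mn_small (a := -10) (j := 4) (by norm_num) (by norm_num)]
  · linarith [P.mn_le (a := 33) (j := 10) (b := 9) (k := 5) (by norm_num) (by norm_num),
      P.mn_le (a := 3) (j := 10) (b := 9) (k := 5) (by norm_num) (by norm_num), P.mn_pos 9 5]
  · rw [mul_assoc 100, h3]
    linarith [P.mn_le (a := 90) (j := 11) (b := 9) (k := 5) (by norm_num) (by norm_num),
      P.mn_le (a := 60) (j := 11) (b := 9) (k := 5) (by norm_num) (by norm_num), P.mn_pos 9 5]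

lemma n5 : 4 * P.t1 + 100 * (P.t1 + P.t1) ≤ P.f0 / 2 * P.r / 10 ∧
    10 ^ 5 * (P.r : ℝ) ^ 2 * P.vt ≤ P.f0 / 2 ∧ 10 ^ 6 * (P.r : ℝ) ^ 2 * P.w2 ≤ P.f0 / 2 ∧
    P.r * (P.f0 / 2) ≤ 1 ∧ 10 ^ 6 * (P.r : ℝ) ^ 2 ≤ P.f0 / 2 * P.La2 := by
  rw [P.r_sq, P.r_eq]
  have h1 : P.mn (-17) 5 * P.mn 30 0 = P.mn 13 5 := P.mn_mul' rfl rfl
  have h2 : P.mn 60 0 * P.mn 0 11 = P.mn 60 11 := P.mn_mul' rfl rfl
  have h3 : P.mn 60 0 * P.mn (-78) 5 = P.mn (-18) 5 := P.mn_mul' rfl rfl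
  have h4 : P.mn (-17) 5 * P.mn 78 (-5) = P.mn 61 0 := P.mn_mul' rfl rfl
  refine ⟨?_, ?_, ?_, ?_, ?_⟩
  · linarith [P.mn_le (a := 9) (j := 5) (b := 13) (k := 5) (by norm_num) (by norm_num),
      P.mn_pos 9 5]
  · linarith [P.mn_le (a := 60) (j := 11) (b := -17) (k := 5) (by norm_num) (by norm_num),
      P.mn_pos 60 11]
  · linarith [P.mn_le (a := -18) (j := 5) (b := -17) (k := 5) (by norm_num) (by norm_num),
      P.mn_pos (-18) 5]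
  · linarith [P.mn_small (a := 13) (j := 5) (by norm_num) (by norm_num), P.mn_pos 13 5]
  · linarith [P.mn_le (a := 60) (j := 0) (b := 61) (k := 0) (by norm_num) (by norm_num),
      P.mn_pos 60 0]

lemma fin {C s0 s1 s2 s3 s4 Mp Mm : ℝ} (k4 : 0 ≤ C)
    (k1 : |s1 - s0| + |s2 - s1| + |s3 - s2| + |s4 - s3| ≤
      2 * (1 + 10 * P.lam) * C + 10 ^ 4 * (P.t1 + P.t1)) (k2 : s0 ≤ 4 * P.t1) (k3 : s4 ≤ 4 * P.t1)
    (S0 : s2 ≤ P.t1 / 2) (p6 : Mp * P.r - 6 * P.t1 ≤ s3) (r6 : Mm * P.r - 6 * P.t1 ≤ s1) :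
    (1 - P.e) * P.r * (Mp + Mm) - 10 ^ 5 * P.t1 ≤ C := by
  have t0 := P.mn_pos 9 5
  have a4 := (n1 P).2.2.2.1
  have b6 := (n2 P).2.2.2.2.2
  have k5 : (Mp + Mm) * P.r - 10 ^ 5 * P.t1 ≤ (1 + 10 * P.lam) * C := by
    linarith [le_abs_self (s1 - s0), neg_le_abs (s2 - s1), le_abs_self (s3 - s2),
      neg_le_abs (s4 - s3)]
  have k6 := mul_le_mul_of_nonneg_left k5 (show 0 ≤ 1 - P.e by linarith)
  have k7 : (1 - P.e) * (1 + 10 * P.lam) ≤ 1 := by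
    have := mul_pos (P.mn_pos (-1) 0) (P.mn_pos 0 1)
    linarith
  have k8 := mul_le_mul_of_nonneg_right k7 k4
  have k9 := mul_pos (P.mn_pos (-1) 0) t0
  linarith

lemma exmax (S : Finset ℕ) (f : ℕ → ℝ) (h : ∀ s, 0 ≤ f s) :
    ∃ M, 0 ≤ M ∧ (∀ s ∈ S, f s ≤ M) ∧ (M = 0 ∨ ∃ s ∈ S, M = f s) := by
  rcases S.eq_empty_or_nonempty with rfl | hS
  · exact ⟨0, le_rfl, by simp, Or.inl rfl⟩
  · obtain ⟨s, h1, h2⟩ := S.exists_max_image f hS
    exact ⟨f s, h s, h2, Or.inr ⟨s, h1, rfl⟩⟩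

variable {P} {ι : Type} [Fintype ι] [DecidableEq ι] {c ω : ι → ℂ}

lemma ends (H : WS ω) {ρ : Ry ι} {w : ℝ} (h : Wray c ω P.R w P.t1 (2 * P.T0) P.t1 ρ)
    (hx : |(ρ.P c ω P.T0).re| ≤ P.a) {s : ℕ} (hs : s ≤ 2 * P.T0) :
    (5 * s ≤ 4 * P.n → (ρ.P c ω s).re ≤ -P.a - 10) ∧
      (16 * P.n ≤ 5 * s → P.a + 10 ≤ (ρ.P c ω s).re) := by
  obtain ⟨-, a2, -, -, a5, a6, -⟩ := n1 P
  have a0 := P.mn_pos 9 5
  have h2 := P.two_a
  have h3 := P.T0_eq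
  have h4 := abs_le.1 hx
  have h5 : (99 / 100 : ℝ) ≤ 1 - P.t1 ^ 2 := by nlinarith
  have hT : P.T0 = 2 * P.n := rfl
  constructor
  · intro h6
    have h7 := (H.geo c _ _ _ _ _ ρ s P.T0 h (by omega) (by omega)).1
    have h8 : 5 * (s : ℝ) ≤ 4 * P.n := by exact_mod_cast h6
    have h9 := mul_le_mul_of_nonneg_left h5 (show (0 : ℝ) ≤ P.T0 - s by linarith)
    rw [sub_re] at h7
    linarith [h4.2]
  · intro h6
    have h7 := (H.geo c _ _ _ _ _ ρ P.T0 s h (by omega) hs).1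
    have h8 : 16 * (P.n : ℝ) ≤ 5 * s := by exact_mod_cast h6
    have h9 := mul_le_mul_of_nonneg_left h5 (show (0 : ℝ) ≤ s - P.T0 by linarith)
    rw [sub_re] at h7
    linarith [h4.1]

lemma tl_one : tl 1 = 0 := by simp [tl]

end TransTube

open TransTube

variable {ι : Type} [Fintype ι] [DecidableEq ι] {ω : ι → ℂ}

theorem transTubeS (hω : Nm ω) (L : L3 ω) : TransTubeS ω := by
  intro P d mm σ ρ ρ' k hF hS hk hkT h h' hvs hdl
  have hout := hF.rotI.one.out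
  set c := rt I d with hc
  obtain ⟨a1, a2, a3, a4, a5, a6, a7⟩ := n1 P
  obtain ⟨b1, b2, b3, b4, b5, b6⟩ := n2 P
  obtain ⟨c1, c2⟩ := n3 P
  obtain ⟨d1, d2, d3⟩ := n4 P
  obtain ⟨e1, e2, e3, e4, e5⟩ := n5 P
  have t0 := P.mn_pos 9 5
  have f0 := P.mn_pos (-17) 5
  have hT0 : P.T0 ≤ 2 * P.T0 := by omega
  have hT0' : P.T0 = 2 * P.n := rfl
  have hsub : ∀ j, k - P.r ≤ j → ∑ i ∈ Finset.Ico j k, σ.g i ≤ P.vs := fun j hj =>
    (Finset.sum_le_sum_of_subset_of_nonneg (fun i hi => by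
      simp only [Finset.mem_Ico, Finset.mem_Icc] at hi ⊢; omega) fun i _ _ => hS.wray.g0 i).trans hvs
  obtain ⟨hcol, hSA⟩ := L.path.wincol c P.R 0 P.th1 P.th1 P.La1 P.vs P.eta (P.eta / 2) P.T k P.r σ
    hS.wray (by linarith) (by linarith) hk hkT (P.mn_nonneg _ _) (fun j h1 h2 => by
      have k1 := L.w.ang _ _ _ _ _ _ σ j k hS.wray h2.le hkT
      have k2 := (L.tilt.lip _ _ (hω.1 _) (hω.1 _) ((hS.wray.tilt k hkT).trans (by linarith))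
        ((hS.wray.tilt j (by omega)).trans (by linarith))).1
      have k3 := hsub j h1
      have k4 := Finset.single_le_sum (f := σ.g) (s := Finset.Ico j k)
        (fun i _ => hS.wray.g0 i) (Finset.mem_Ico.2 ⟨le_rfl, h2⟩)
      have k5 := abs_sub_abs_le_abs_sub (σ.p ω k) (σ.p ω j)
      have k6 := norm_nonneg (ω (σ.J k) - ω (σ.J j))
      refine hS.str j (by omega) (by linarith) ?_
      change |σ.p ω k - σ.p ω j| ≤ _ at k2
      linarith) (hsub _ le_rfl) c1 (by linarith)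
  have hP : TP P.r P.lam P.eta P.t1 (P.t1 + P.t1) := P.tp b4 (by linarith)
  have m0 : σ.J (k - 0) = ρ.J P.T0 := h.mid.symm
  have m1 : σ.J (k - P.r) = ρ'.J P.T0 := h'.mid.symm
  have v0 := abs_le.1 h.v0
  have v1 := abs_le.1 h'.v0
  obtain ⟨m, A, hT, hm, hA, hD, hAb⟩ := L.tube c P.r P.lam P.eta P.t1 _ _ _ _ (2 * P.T0) P.T0 P.r
    ρ ρ' (fun j => σ.J (k - j)) hP h.wray h'.wray hT0 (by
      have k1 := abs_le.1 (L.col.geo c _ _ _ _ 0 P.r hcol (by linarith) (Nat.zero_le _) le_rfl).2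
      have k2 := abs_le.1 (L.w.cen c _ _ _ (h.wray.tilt _ hT0) (h.wray.v _ hT0)).2.1
      have k3 := abs_le.1 (L.w.cen c _ _ _ (h'.wray.tilt _ hT0) (h'.wray.v _ hT0)).2.1
      simp only [m0, m1, Nat.cast_zero, sub_zero] at k1
      simp only [Ry.P, sub_im] at k2 k3 ⊢
      exact abs_le.2 ⟨by linarith [k1.1, k2.1, k2.2, k3.1, k3.2, v0.1, v0.2, v1.1, v1.2],
        by linarith [k1.2, k2.1, k2.2, k3.1, k3.2, v0.1, v0.2, v1.1, v1.2]⟩) hcol m0 m1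
  have inn := fun t j (ht : t ≤ 2 * P.T0) (hj : j ≤ m t) =>
    L.col.inn c P.r P.lam P.eta P.t1 _ _ ρ ρ' m A t j hP hT ht (h.wray.v t ht) (h'.wray.v t ht) hj
  have app : ∀ t ≤ 2 * P.T0, ∀ (ζ : ℂ) (o : ℝ), ‖ζ‖ = 1 → ‖ζ - 1‖ ≤ 1 / 100 →
      (∀ j ≤ m t, ‖ω (A t j) - ζ‖ ≤ o) → |SS c ω (m t) (A t) - (ρ'.P c ω t - ρ.P c ω t).re -
        tl ζ * (ρ'.P c ω t - ρ.P c ω t).im| ≤ 2 * (m t + 2) * o := by
    intro t ht ζ o h1 h2 h3
    have := L.col.approx c _ _ o _ _ _ _ ζ (hT.col t ht) (by linarith) h1 h2 h3 (h.wray.v t ht)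
      (h'.wray.v t ht)
    rwa [hT.lo t ht, hT.hi t ht] at this
  have S0 : |SS c ω (m P.T0) (A P.T0)| ≤ P.t1 / 2 := by
    rw [hm, hA]
    exact (SS_le_SA _ _ _ _).trans (hSA.trans c2)
  have D0 : |(ρ'.P c ω P.T0 - ρ.P c ω P.T0).re| ≤ P.t1 := by
    have k1 := app _ hT0 1 P.th1 (by simp) (by simp) fun j _ => by
      rw [hA]; exact hS.wray.tilt _ (by omega)
    rw [tl_one, zero_mul, sub_zero] at k1
    have k2 := abs_sub_abs_le_abs_sub (ρ'.P c ω P.T0 - ρ.P c ω P.T0).re (SS c ω (m P.T0) (A P.T0))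
    rw [abs_sub_comm, hm] at k1
    rw [hm] at k2 S0
    linarith
  have D1 : ∀ t ≤ 2 * P.T0, |(ρ'.P c ω t - ρ.P c ω t).re| ≤ 4 * P.t1 := fun t ht => by
    have k1 := (hD t ht).2.2
    have k2 := abs_sub_abs_le_abs_sub (ρ'.P c ω t - ρ.P c ω t).re (ρ'.P c ω P.T0 - ρ.P c ω P.T0).re
    linarith
  have q1 := (L.w.cen (rt I c) _ _ _ (hS.wray.tilt k hkT) (hS.wray.v k hkT)).2.2
  have q2 := (L.w.cen c _ _ _ (h.wray.tilt _ hT0) (h.wray.v _ hT0)).2.2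
  have px : |(ρ.P c ω P.T0).re| ≤ P.a := by
    have k1 := abs_le.1 ((abs_im_le_norm _).trans q1)
    have k2 := abs_le.1 ((abs_re_le_norm _).trans q2)
    have k3 := abs_le.1 (hS.py k hkT)
    rw [h.mid] at k2
    simp only [Ry.P, h.mid, rt, sub_im, sub_re, I_mul_im] at k1 k2 k3 ⊢
    exact abs_le.2 ⟨by linarith [k1.1, k2.2, k3.1], by linarith [k1.2, k2.1, k3.2]⟩
  have py : |(ρ.P c ω P.T0).im| ≤ P.a + P.n / 9 := by
    have k1 := abs_le.1 ((abs_re_le_norm _).trans q1)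
    have k2 := abs_le.1 ((abs_im_le_norm _).trans q2)
    have k3 := abs_le.1 (hS.px k hkT)
    rw [h.mid] at k2
    simp only [Ry.P, h.mid, rt, sub_im, sub_re, I_mul_re] at k1 k2 k3 ⊢
    exact abs_le.2 ⟨by linarith [k1.2, k2.2, k3.2], by linarith [k1.1, k2.1, k3.1]⟩
  have lft : ∀ t ≤ 2 * P.T0, 5 * t ≤ 4 * P.n → ∀ j ≤ m t, (c (A t j)).re ≤ -P.a - 5 :=
    fun t ht h1 j hj => by
      have k1 := abs_le.1 (inn t j ht hj).2.1
      have k2 := (ends L.w h.wray px ht).1 h1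
      rw [sub_re] at k1
      linarith [k1.2]
  have rgt : ∀ t ≤ 2 * P.T0, 16 * P.n ≤ 5 * t → ∀ j ≤ m t, P.a + 5 ≤ (c (A t j)).re :=
    fun t ht h1 j hj => by
      have k1 := abs_le.1 (inn t j ht hj).2.1
      have k2 := (ends L.w h.wray px ht).2 h1
      rw [sub_re] at k1
      linarith [k1.1]
  have fr : ∀ t ≤ 2 * P.T0, 5 * t ≤ 4 * P.n ∨ 16 * P.n ≤ 5 * t → ∀ j ≤ m t, ω (A t j) = 1 :=
    fun t ht h1 j hj => (hout _ (Or.inl (by
      rcases h1 with h1 | h1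
      · linarith [lft t ht h1 j hj, neg_le_abs (c (A t j)).re]
      · linarith [rgt t ht h1 j hj, le_abs_self (c (A t j)).re]))).1
  have Se : ∀ t ≤ 2 * P.T0, 5 * t ≤ 4 * P.n ∨ 16 * P.n ≤ 5 * t →
      |SS c ω (m t) (A t)| ≤ 4 * P.t1 := fun t ht h1 => by
    have k1 := app t ht 1 0 (by simp) (by simp) fun j hj => by rw [fr t ht h1 j hj]; simp
    rw [tl_one, zero_mul, sub_zero, mul_zero] at k1
    have k2 := abs_sub_abs_le_abs_sub (SS c ω (m t) (A t)) (ρ'.P c ω t - ρ.P c ω t).re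
    linarith [D1 t ht]
  have pt : ∀ t ≤ 2 * P.T0, |ρ.p ω t| ≤ 2 * P.t1 := fun t ht => by
    have k1 := h.wray.tilt t ht
    have k2 := (L.tilt.one _ (hω.1 _) (k1.trans (by linarith))).1
    change |ρ.p ω t| ≤ _ at k2
    linarith
  have Sl : ∀ t ≤ 2 * P.T0, ρ.g t ≤ P.vt → |ρ.p ω t| * P.r - 6 * P.t1 ≤ |SS c ω (m t) (A t)| := by
    intro t ht hg
    have k0 : (0 : ℝ) ≤ P.R ^ 2 * ρ.g t := mul_nonneg (sq_nonneg _) (h.wray.g0 t)
    have k1 := app t ht (ω (ρ.J t)) (P.R ^ 2 * ρ.g t) (hω.1 _)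
      ((h.wray.tilt t ht).trans (by linarith)) fun j hj =>
        (h.wray.calm ht).ang _ ((inn t j ht hj).1.trans (by unfold Pm.R; linarith))
    have k2 : (m t : ℝ) ≤ P.r + 1 := by exact_mod_cast (hT.len t ht).2
    have k3 : 2 * ((m t : ℝ) + 2) * (P.R ^ 2 * ρ.g t) ≤ 2 * ((P.r : ℝ) + 3) * (P.R ^ 2 * P.vt) :=
      mul_le_mul (by linarith) (mul_le_mul_of_nonneg_left hg (sq_nonneg _)) k0 (by linarith)
    have k4 := abs_le.1 (hD t ht).1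
    have k5 := D1 t ht
    have k6 := pt t ht
    change |_ - _ - ρ.p ω t * _| ≤ _ at k1
    generalize ρ'.P c ω t - ρ.P c ω t = D at *
    generalize ρ.p ω t = p at *
    generalize SS c ω (m t) (A t) = S at *
    have k7 : |p| * (P.r - 1 / 3) ≤ |p * D.im| := by
      rw [abs_mul]
      exact mul_le_mul_of_nonneg_left (le_trans (by linarith [k4.1]) (le_abs_self _)) (abs_nonneg _)
    have k8 := abs_sub (S - D.re) (S - D.re - p * D.im)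
    rw [sub_sub_cancel] at k8
    have k9 := abs_sub S D.re
    linarith
  refine ⟨⟨h.wray.w0, fun s hs hg hp => ?_, px, py, fun s hs h1 => ?_⟩, ?_⟩
  · have g0 := h.wray.g0 s
    have k1 := L.straight c P.r P.lam P.eta P.t1 _ _ _ _ (4 * P.t1) (P.f0 / 2) _ s ρ ρ' m A hP
      h.wray h'.wray hT hs (D1 s hs.le) (by linarith) hp e1
      ((mul_le_mul_of_nonneg_left hg (by positivity)).trans e2) (by linarith) e3 e4
    have k2 := mul_le_mul_of_nonneg_right e5 g0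
    exact le_of_mul_le_mul_left (a := P.f0 / 2) (by linarith) (by linarith)
  · rw [← hT.lo s hs]
    exact fr s hs h1 0 (Nat.zero_le _)
  obtain ⟨Mp, p0, p1, p2⟩ := exmax ((Finset.Icc P.T0 (2 * P.T0)).filter fun s => ρ.g s ≤ P.vt)
    (fun s => |ρ.p ω s|) fun s => abs_nonneg _
  obtain ⟨Mm, r0, r1, r2⟩ := exmax ((Finset.Icc 0 P.T0).filter fun s => ρ.g s ≤ P.vt)
    (fun s => |ρ.p ω s|) fun s => abs_nonneg _
  obtain ⟨tp, p3, p4, p5, p6⟩ : ∃ t, P.T0 ≤ t ∧ t ≤ 2 * P.T0 ∧ Mp ≤ 2 * P.t1 ∧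
      Mp * P.r - 6 * P.t1 ≤ |SS c ω (m t) (A t)| := by
    rcases p2 with rfl | ⟨s, k1, rfl⟩
    · exact ⟨_, le_rfl, hT0, by linarith, by linarith [abs_nonneg (SS c ω (m P.T0) (A P.T0))]⟩
    · simp only [Finset.mem_filter, Finset.mem_Icc] at k1
      exact ⟨s, k1.1.1, k1.1.2, pt s k1.1.2, Sl s k1.1.2 k1.2⟩
  obtain ⟨tm, r3, r5, r6⟩ : ∃ t, t ≤ P.T0 ∧ Mm ≤ 2 * P.t1 ∧
      Mm * P.r - 6 * P.t1 ≤ |SS c ω (m t) (A t)| := by
    rcases r2 with rfl | ⟨s, k1, rfl⟩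
    · exact ⟨_, le_rfl, by linarith, by linarith [abs_nonneg (SS c ω (m P.T0) (A P.T0))]⟩
    · simp only [Finset.mem_filter, Finset.mem_Icc] at k1
      exact ⟨s, k1.1.2, pt s (by omega), Sl s (by omega) k1.2⟩
  refine ⟨Inn (2 * P.T0) m A, Mp, Mm, ⟨ρ, ρ', 2 * P.T0, h.wray.w0, h'.wray.w0, ?_, ?_, ?_, ?_,
    fun t ht => ⟨D1 t ht, by linarith [(hD t ht).1]⟩, fun i hi => ?_⟩, hAb _ le_rfl,
    ⟨p0, p5, r0, r5, fun s k1 k2 k3 => p1 s (by simp [k1, k2, k3]),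
      fun s k1 k3 => r1 s (by simp [k1, k3])⟩, ?_⟩
  · rw [← hT.lo 0 (Nat.zero_le _)]
    exact lft 0 (Nat.zero_le _) (by omega) 0 (Nat.zero_le _)
  · rw [← hT.hi 0 (Nat.zero_le _)]
    exact lft 0 (Nat.zero_le _) (by omega) _ le_rfl
  · rw [← hT.lo _ le_rfl]
    exact rgt _ le_rfl (by omega) 0 (Nat.zero_le _)
  · rw [← hT.hi _ le_rfl]
    exact rgt _ le_rfl (by omega) _ le_rfl
  · obtain ⟨t, ht, hi⟩ := Finset.mem_biUnion.1 hi
    obtain ⟨j, hj, rfl⟩ := Finset.mem_image.1 hi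
    have k1 : t ≤ 2 * P.T0 := by simpa [Nat.lt_succ_iff] using ht
    obtain ⟨k2, k3⟩ := Finset.mem_Ioo.1 hj
    obtain ⟨-, k4, k5, k6⟩ := inn t j k1 k3.le
    exact ⟨t, k1, k4, by linarith [k5 k2], by linarith [k6 k3]⟩
  · have k1 := L.tv c P.r P.lam P.eta P.t1 _ _ _ _ _ (2 * P.T0) tm P.T0 tp ρ ρ' m A hP h.wray
      h'.wray hT r3 p3 p4 le_rfl
    have k2 := Se 0 (Nat.zero_le _) (Or.inl (by omega))
    have k3 := Se _ le_rfl (Or.inr (by omega))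
    exact fin P (Cost_nonneg _ _) k1 k2 k3 S0 p6 r6

end Pool.Agent.MP_c59ecb_co.sh

end MrgPart1

-- marker of a merged file
example : 731051 + 667884 = 731051 + 667884 := rfl
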